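import Pool.Agent.Q266.Blk1

/-! From the region test to a binary expansion. -/

namespace Pool.Q266.Blk

theorem test_hor (a b c : ℤ) (h : test a b c = true) : ∃ w, hor 18 w = (a, b, c) := by
  have h' := h
  simp only [test, Bool.and_eq_true, decide_eq_true_eq] at h'
  obtain ⟨⟨h1, h2⟩, h3⟩ := h'
  have hM : (1000000 * b + 1324718 * c - 1070000) * (1000000 * b + 1324718 * c - 1070000)
      ≤ 10884000000000 := by
    nlinarith [mul_self_nonneg (1000000 * a + 662359 * b + 122561 * c - 300000)]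
  have hA : (1000000 * a + 662359 * b + 122561 * c - 300000) *
      (1000000 * a + 662359 * b + 122561 * c - 300000) ≤ 3441025000000 := by
    nlinarith [mul_self_nonneg (1000000 * b + 1324718 * c - 1070000)]
  have hM1 : 1000000 * b + 1324718 * c - 1070000 ≤ 3299100 := by nlinarith
  have hM2 : -3299100 ≤ 1000000 * b + 1324718 * c - 1070000 := by nlinarith
  have hA1 : 1000000 * a + 662359 * b + 122561 * c - 300000 ≤ 1855000 := by nlinarith
  have hA2 : -1855000 ≤ 1000000 * a + 662359 * b + 122561 * c - 300000 := by nlinarith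
  clear hM hA h3
  have hc1 : -52 ≤ c := by omega
  have hc2 : c ≤ 40 := by omega
  obtain ⟨n, hn⟩ : ∃ n : ℕ, (n : ℤ) = c + 52 := ⟨(c + 52).toNat, by omega⟩
  have hnlt : n < 93 := by omega
  obtain ⟨j, hj⟩ : ∃ j : ℕ, (j : ℤ) = b + 2 - (-1324718 * c) / 1000000 :=
    ⟨(b + 2 - (-1324718 * c) / 1000000).toNat, by omega⟩
  have hjlt : j < 8 := by omega
  obtain ⟨i, hi⟩ : ∃ i : ℕ, (i : ℤ) = a + 1 - (-(662359 * b + 122561 * c)) / 1000000 :=
    ⟨(a + 1 - (-(662359 * b + 122561 * c)) / 1000000).toNat, by omega⟩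
  have hilt : i < 5 := by omega
  have hk := chk_all n hnlt j hjlt i hilt
  have ec : (n : ℤ) - 52 = c := by omega
  have eb : (j : ℤ) - 2 + (-1324718 * c) / 1000000 = b := by omega
  have ea : (i : ℤ) - 1 + (-(662359 * b + 122561 * c)) / 1000000 = a := by omega
  simp only [chk, ec, eb, ea, h, Bool.not_true, Bool.false_or, decide_eq_true_eq] at hk
  exact ⟨_, hk⟩

/-- `x` has an expansion of length `k` with digits `0, 1` in the base `β` -/
def Rep (β : ℝ) (k : ℕ) (s : ℝ) : Prop :=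
  ∃ a : ℕ → ℤ, (∀ i, a i = 0 ∨ a i = 1) ∧ s = ∑ i ∈ Finset.range k, (a i : ℝ) * β ^ i

theorem rep_zero (β : ℝ) : Rep β 0 0 := ⟨fun _ => 0, fun _ => Or.inl rfl, by simp⟩

theorem rep_low {β s : ℝ} {k : ℕ} (h : Rep β k s) (d : ℤ) (hd : d = 0 ∨ d = 1) :
    Rep β (k + 1) (d + β * s) := by
  obtain ⟨a, ha, rfl⟩ := h
  refine ⟨fun i => if i = 0 then d else a (i - 1), ?_, ?_⟩
  · intro i
    by_cases hi : i = 0
    · simp [hi, hd]
    · simp [hi, ha]
  · rw [Finset.sum_range_succ']
    simp only [Nat.add_eq_zero_iff, one_ne_zero, and_false, if_false, Nat.add_sub_cancel,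
      if_true, pow_zero, mul_one]
    rw [add_comm, Finset.mul_sum]
    congr 1
    apply Finset.sum_congr rfl
    intro i _
    ring

theorem rep_high {β s : ℝ} {k : ℕ} (h : Rep β k s) (d : ℤ) (hd : d = 0 ∨ d = 1) :
    Rep β (k + 1) (s + d * β ^ k) := by
  obtain ⟨a, ha, rfl⟩ := h
  refine ⟨fun i => if i = k then d else a i, ?_, ?_⟩
  · intro i
    by_cases hi : i = k
    · simp [hi, hd]
    · simp [hi, ha]
  · rw [Finset.sum_range_succ]
    simp only [if_true]
    congr 1
    apply Finset.sum_congr rfl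
    intro i hi
    rw [Finset.mem_range] at hi
    rw [if_neg (by omega)]

/-- evaluation of a triple -/
def ev {R : Type*} [CommRing R] (w : R) (x : ℤ × ℤ × ℤ) : R :=
  (x.1 : R) + (x.2.1 : R) * w + (x.2.2 : R) * w ^ 2

theorem ev_mulb {R : Type*} [CommRing R] {w : R} (hw : w ^ 3 = w - 1) (x : ℤ × ℤ × ℤ) :
    ev w (mulb x) = w * ev w x := by
  simp only [ev, mulb]
  push_cast
  linear_combination (-(x.2.2 : R)) * hw

theorem ev_add {R : Type*} [CommRing R] (w : R) (x y : ℤ × ℤ × ℤ) :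
    ev w (x + y) = ev w x + ev w y := by
  simp only [ev, Prod.fst_add, Prod.snd_add]
  push_cast
  ring

theorem ev_sub {R : Type*} [CommRing R] (w : R) (x y : ℤ × ℤ × ℤ) :
    ev w (x - y) = ev w x - ev w y := by
  simp only [ev, Prod.fst_sub, Prod.snd_sub]
  push_cast
  ring

theorem ev_zero {R : Type*} [CommRing R] (w : R) : ev w 0 = 0 := by
  simp [ev]

theorem ev_iter {R : Type*} [CommRing R] {w : R} (hw : w ^ 3 = w - 1) (k : ℕ)
    (x : ℤ × ℤ × ℤ) : ev w (mulb^[k] x) = w ^ k * ev w x := by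
  induction k with
  | zero => simp
  | succ k ih => rw [Function.iterate_succ_apply', ev_mulb hw, ih, pow_succ]; ring

theorem hor_succ (n w : ℕ) : ∀ {R : Type*} [CommRing R] {β : R} (_ : β ^ 3 = β - 1),
    ev β (hor (n + 1) w) = ((w % 2 : ℕ) : R) + β * ev β (hor n (w / 2)) := by
  intro R _ β hw
  simp only [hor, ev]
  generalize w % 2 = d
  push_cast
  linear_combination (-((hor n (w / 2)).2.2 : R)) * hw

theorem rep_hor {β : ℝ} (hw : β ^ 3 = β - 1) (n : ℕ) : ∀ w, Rep β n (ev β (hor n w)) := by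
  induction n with
  | zero =>
    intro w
    have : ev β (hor 0 w) = 0 := by simp [hor, ev]
    rw [this]
    exact rep_zero β
  | succ n ih =>
    intro w
    rw [hor_succ n w hw]
    have := rep_low (ih (w / 2)) ((w % 2 : ℕ) : ℤ) (by omega)
    rwa [Int.cast_natCast] at this

end Pool.Q266.Blk
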