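import Pool.Agent.Q266.Blk2

/-! The base case over the reals. -/

namespace Pool.Q266.Blk

/-- the base and the imaginary part of the complex root -/
structure Dat where
  β : ℝ
  y : ℝ
  hβ : β ^ 3 = β - 1
  lo : -1.324718 ≤ β
  hi : β ≤ -1.3247179
  hy : y ^ 2 = 3 * β ^ 2 / 4 - 1

variable (X : Dat)

/-- the complex root of `X ^ 3 - X + 1` -/
noncomputable def Dat.g : ℂ := ⟨-X.β / 2, X.y⟩

theorem Dat.sq_lo : 1.7548775 ≤ X.β ^ 2 := by nlinarith [X.lo, X.hi]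

theorem Dat.sq_hi : X.β ^ 2 ≤ 1.7548778 := by nlinarith [X.lo, X.hi]

theorem Dat.g_cubic : X.g ^ 3 = X.g - 1 := by
  have h1 := X.hβ
  have h2 := X.hy
  apply Complex.ext
  · simp only [Dat.g, pow_succ, pow_zero, one_mul, Complex.mul_re, Complex.mul_im,
      Complex.sub_re, Complex.one_re]
    linear_combination h1 + (3 * X.β / 2) * h2
  · simp only [Dat.g, pow_succ, pow_zero, one_mul, Complex.mul_re, Complex.mul_im,
      Complex.sub_im, Complex.one_im]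
    linear_combination (-X.y) * h2

theorem Dat.g_re : X.g.re = -X.β / 2 := rfl
theorem Dat.g_im : X.g.im = X.y := rfl

theorem Dat.g_normSq : Complex.normSq X.g = X.β ^ 2 - 1 := by
  rw [Complex.normSq_apply, X.g_re, X.g_im]
  linear_combination X.hy

theorem Dat.ev_re (x : ℤ × ℤ × ℤ) :
    (ev X.g x).re = x.1 - x.2.1 * X.β / 2 + x.2.2 * (1 - X.β ^ 2 / 2) := by
  have h2 := X.hy
  simp only [ev, Complex.add_re, Complex.mul_re, Complex.intCast_re, Complex.intCast_im,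
    pow_two, X.g_re, X.g_im]
  linear_combination (-(x.2.2 : ℝ)) * h2

theorem Dat.ev_im (x : ℤ × ℤ × ℤ) :
    (ev X.g x).im = X.y * (x.2.1 - X.β * x.2.2) := by
  simp only [ev, Complex.add_im, Complex.mul_im, Complex.mul_re, Complex.intCast_re,
    Complex.intCast_im, pow_two, X.g_re, X.g_im]
  ring

/-- the centre of the disc in the base case -/
noncomputable def Dat.C0 : ℂ := ⟨0.3, X.y * 1.07⟩

theorem abs_mul_le_of {b u B U : ℝ} (hb : |b| ≤ B) (hu : |u| ≤ U) : |b * u| ≤ B * U := by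
  rw [abs_mul]
  exact mul_le_mul hb hu (abs_nonneg _) (le_trans (abs_nonneg _) hb)

theorem Dat.c_bound {a b c A M : ℝ} (hA : A = a - b * X.β / 2 + c * (1 - X.β ^ 2 / 2) - 0.3)
    (hM : M = b - X.β * c - 1.07) (hA1 : |A| ≤ 1.85) (hM1 : |M| ≤ 3.3)
    (h1 : -206 ≤ a + b * X.β + c * X.β ^ 2) (h2 : a + b * X.β + c * X.β ^ 2 ≤ 155) :
    |c| ≤ 52 := by
  have s1 := X.sq_lo
  obtain ⟨hA2, hA3⟩ := abs_le.1 hA1
  obtain ⟨hM2, hM3⟩ := abs_le.1 hM1
  have e1 : (3 * X.β ^ 2 - 1) * c = (a + b * X.β + c * X.β ^ 2) - (A + 0.3)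
      - 1.5 * (X.β * (M + 1.07)) := by rw [hA, hM]; ring
  have hβ' : |X.β| ≤ 1.324718 := abs_le.2 ⟨X.lo, by linarith [X.hi]⟩
  have hM4 : |M + 1.07| ≤ 4.37 := abs_le.2 ⟨by linarith, by linarith⟩
  have k := abs_le.1 (abs_mul_le_of hβ' hM4)
  have hr1 : -218 ≤ (3 * X.β ^ 2 - 1) * c := by rw [e1]; linarith [k.1, k.2]
  have hr2 : (3 * X.β ^ 2 - 1) * c ≤ 218 := by rw [e1]; linarith [k.1, k.2]
  have h3 : (4.26 : ℝ) ≤ 3 * X.β ^ 2 - 1 := by linarith
  rw [abs_le]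
  constructor
  · by_contra hcon
    push Not at hcon
    have : (3 * X.β ^ 2 - 1) * c ≤ 4.26 * c :=
      mul_le_mul_of_nonpos_right h3 (by linarith)
    linarith
  · by_contra hcon
    push Not at hcon
    have : 4.26 * c ≤ (3 * X.β ^ 2 - 1) * c :=
      mul_le_mul_of_nonneg_right h3 (by linarith)
    linarith

theorem Dat.b_bound {b c M : ℝ} (hM : M = b - X.β * c - 1.07) (hM1 : |M| ≤ 3.3)
    (hc : |c| ≤ 52) : |b| ≤ 75 := by
  have hβ' : |X.β| ≤ 1.324718 := abs_le.2 ⟨X.lo, by linarith [X.hi]⟩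
  have hβc := abs_le.1 (abs_mul_le_of hβ' hc)
  obtain ⟨hM2, hM3⟩ := abs_le.1 hM1
  have : b = M + 1.07 + X.β * c := by rw [hM]; ring
  rw [this, abs_le]
  constructor <;> linarith [hβc.1, hβc.2]

/-- real inequalities imply the scaled ones -/
theorem Dat.scaled {a b c A M : ℝ} (hA : A = a - b * X.β / 2 + c * (1 - X.β ^ 2 / 2) - 0.3)
    (hM : M = b - X.β * c - 1.07) (hA1 : |A| ≤ 1.85) (hM1 : |M| ≤ 3.3)
    (h4 : A ^ 2 + 0.316158 * M ^ 2 ≤ 3.4225) (hb : |b| ≤ 75) (hc : |c| ≤ 52) :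
    1000000 * ((1000000 * a + 662359 * b + 122561 * c - 300000) *
      (1000000 * a + 662359 * b + 122561 * c - 300000)) +
    316158 * ((1000000 * b + 1324718 * c - 1070000) *
      (1000000 * b + 1324718 * c - 1070000)) ≤ 3441025000000000000 := by
  have s1 := X.sq_lo
  have s2 := X.sq_hi
  have l1 := X.lo
  have l2 := X.hi
  have r1 : |662359 + 1000000 * X.β / 2| ≤ 0.1 := abs_le.2 ⟨by linarith, by linarith⟩
  have r2 : |122561 - 1000000 * (1 - X.β ^ 2 / 2)| ≤ 0.3 :=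
    abs_le.2 ⟨by linarith, by linarith⟩
  have r3 : |1324718 + 1000000 * X.β| ≤ 0.2 := abs_le.2 ⟨by linarith, by linarith⟩
  have d1 := abs_le.1 (abs_mul_le_of hb r1)
  have d2 := abs_le.1 (abs_mul_le_of hc r2)
  have d3 := abs_le.1 (abs_mul_le_of hc r3)
  obtain ⟨E1, hE1⟩ : ∃ E1, E1 = b * (662359 + 1000000 * X.β / 2)
    + c * (122561 - 1000000 * (1 - X.β ^ 2 / 2)) := ⟨_, rfl⟩
  obtain ⟨E2, hE2⟩ : ∃ E2, E2 = c * (1324718 + 1000000 * X.β) := ⟨_, rfl⟩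
  have f1 : 1000000 * a + 662359 * b + 122561 * c - 300000 = 1000000 * A + E1 := by
    rw [hA, hE1]; ring
  have f2 : 1000000 * b + 1324718 * c - 1070000 = 1000000 * M + E2 := by
    rw [hM, hE2]; ring
  have g1 : |E1| ≤ 30 := abs_le.2 ⟨by rw [hE1]; linarith [d1.1, d2.1],
    by rw [hE1]; linarith [d1.2, d2.2]⟩
  have g2 : |E2| ≤ 30 := abs_le.2 ⟨by rw [hE2]; linarith [d3.1], by rw [hE2]; linarith [d3.2]⟩
  have k1 := abs_le.1 (abs_mul_le_of hA1 g1)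
  have k2 := abs_le.1 (abs_mul_le_of hM1 g2)
  have k3 := abs_le.1 (abs_mul_le_of g1 g1)
  have k4 := abs_le.1 (abs_mul_le_of g2 g2)
  rw [f1, f2]
  have : 1000000 * ((1000000 * A + E1) * (1000000 * A + E1)) +
      316158 * ((1000000 * M + E2) * (1000000 * M + E2)) =
      1000000000000000000 * (A ^ 2 + 0.316158 * M ^ 2) + 2000000000000 * (A * E1)
      + 1000000 * (E1 * E1) + 632316000000 * (M * E2) + 316158 * (E2 * E2) := by
    ring
  rw [this]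
  linarith [k1.2, k2.2, k3.2, k4.2]

theorem Dat.scaled2 {a b c : ℝ} (hb : |b| ≤ 75) (hc : |c| ≤ 52)
    (h1 : -205.1945 ≤ a + b * X.β + c * X.β ^ 2)
    (h2 : a + b * X.β + c * X.β ^ 2 ≤ 154.6851) :
    -205200000 ≤ 1000000 * a - 1324718 * b + 1754878 * c ∧
      1000000 * a - 1324718 * b + 1754878 * c ≤ 154690000 := by
  have s1 := X.sq_lo
  have s2 := X.sq_hi
  have l1 := X.lo
  have l2 := X.hi
  have r3 : |1324718 + 1000000 * X.β| ≤ 0.2 := abs_le.2 ⟨by linarith, by linarith⟩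
  have r5 : |1754878 - 1000000 * X.β ^ 2| ≤ 0.6 := abs_le.2 ⟨by linarith, by linarith⟩
  have d4 := abs_le.1 (abs_mul_le_of hb r3)
  have d5 := abs_le.1 (abs_mul_le_of hc r5)
  have : 1000000 * a - 1324718 * b + 1754878 * c =
      1000000 * (a + b * X.β + c * X.β ^ 2) - b * (1324718 + 1000000 * X.β)
      + c * (1754878 - 1000000 * X.β ^ 2) := by ring
  rw [this]
  constructor <;> linarith [d4.1, d4.2, d5.1, d5.2]

theorem Dat.base_test (a b c : ℤ)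
    (h1 : -1.3 * X.β ^ 18 ≤ ev X.β (a, b, c)) (h2 : ev X.β (a, b, c) ≤ 0.98 * X.β ^ 18)
    (h3 : ‖ev X.g (a, b, c) - X.C0‖ ≤ 1.85) : test a b c = true := by
  have s1 := X.sq_lo
  have s2 := X.sq_hi
  have l1 := X.lo
  have l2 := X.hi
  have hy := X.hy
  -- the eighteenth power
  have e18 : X.β ^ 18 = (X.β ^ 2) ^ 9 := by ring
  have p18 : X.β ^ 18 ≤ 157.8418 := by
    rw [e18]
    calc (X.β ^ 2) ^ 9 ≤ (1.7548778 : ℝ) ^ 9 := pow_le_pow_left₀ (by positivity) s2 9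
      _ ≤ 157.8418 := by norm_num
  set A : ℝ := a - b * X.β / 2 + c * (1 - X.β ^ 2 / 2) - 0.3 with hA
  set M : ℝ := b - X.β * c - 1.07 with hM
  have h3' : A ^ 2 + X.y ^ 2 * M ^ 2 ≤ 1.85 ^ 2 := by
    have : Complex.normSq (ev X.g (a, b, c) - X.C0) ≤ 1.85 ^ 2 := by
      rw [Complex.normSq_eq_norm_sq]
      exact pow_le_pow_left₀ (norm_nonneg _) h3 2
    rw [Complex.normSq_apply, Complex.sub_re, Complex.sub_im, X.ev_re, X.ev_im] at this
    simp only [Dat.C0] at this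
    calc A ^ 2 + X.y ^ 2 * M ^ 2 = _ := by rw [hA, hM]; ring
      _ ≤ _ := this
  have hy1 : (0.316158 : ℝ) ≤ X.y ^ 2 := by rw [hy]; nlinarith
  have h4 : A ^ 2 + 0.316158 * M ^ 2 ≤ 3.4225 := by
    nlinarith [sq_nonneg M, mul_le_mul_of_nonneg_right hy1 (sq_nonneg M)]
  have hA1 : |A| ≤ 1.85 := abs_le_of_sq_le_sq (by nlinarith [sq_nonneg M]) (by norm_num)
  have hM1 : |M| ≤ 3.3 := abs_le_of_sq_le_sq (by nlinarith [sq_nonneg A]) (by norm_num)
  have hS : ev X.β (a, b, c) = a + b * X.β + c * X.β ^ 2 := rfl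
  rw [hS] at h1 h2
  have hc : |(c : ℝ)| ≤ 52 := X.c_bound hA hM hA1 hM1 (by linarith) (by linarith)
  have hb : |(b : ℝ)| ≤ 75 := X.b_bound hM hM1 hc
  have q1 := X.scaled hA hM hA1 hM1 h4 hb hc
  obtain ⟨q2, q3⟩ := X.scaled2 hb hc (a := a) (by linarith) (by linarith)
  simp only [test, Bool.and_eq_true, decide_eq_true_eq]
  refine ⟨⟨?_, ?_⟩, ?_⟩
  · exact_mod_cast q2
  · exact_mod_cast q3
  · exact_mod_cast q1

end Pool.Q266.Blk
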