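import Pool.Agent.Q266.Blk3

/-! The region of representable triples and the covering lemma. -/

namespace Pool.Q266.Blk

variable (X : Dat)

/-- powers of the base as triples -/
def pw (k : ℕ) : ℤ × ℤ × ℤ := mulb^[k] (1, 0, 0)

theorem ev_pw {R : Type*} [CommRing R] {w : R} (hw : w ^ 3 = w - 1) (k : ℕ) :
    ev w (pw k) = w ^ k := by
  rw [pw, ev_iter hw]
  simp [ev]

noncomputable def Dat.Cm (m : ℕ) : ℂ := X.C0 + 1 / 2 * ∑ i ∈ Finset.range m, X.g ^ (18 + i)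

noncomputable def Dat.Rm (m : ℕ) : ℝ := 1.85 - 1 / 2 * ∑ i ∈ Finset.range m, ‖X.g‖ ^ (18 + i)

theorem Dat.main (m : ℕ) : ∀ (x : ℤ × ℤ × ℤ) (u : ℝ), -1.3 ≤ u → u ≤ 0.98 →
    ev X.β x = u * X.β ^ (18 + m) → ‖ev X.g x - X.Cm m‖ ≤ X.Rm m →
    Rep X.β (18 + m) (ev X.β x) := by
  induction m with
  | zero =>
    rintro ⟨a, b, c⟩ u h1 h2 h3 h4
    have hpos : (0 : ℝ) ≤ X.β ^ 18 := by
      have : X.β ^ 18 = (X.β ^ 9) ^ 2 := by ring
      rw [this]; positivity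
    simp only [Nat.add_zero] at h3
    have h4' : ‖ev X.g (a, b, c) - X.C0‖ ≤ 1.85 := by
      simpa [Dat.Cm, Dat.Rm] using h4
    obtain ⟨w, hw⟩ := test_hor a b c (X.base_test a b c
      (by rw [h3]; exact mul_le_mul_of_nonneg_right h1 hpos)
      (by rw [h3]; exact mul_le_mul_of_nonneg_right h2 hpos) h4')
    rw [← hw]
    exact rep_hor X.hβ 18 w
  | succ m ih =>
    intro x u h1 h2 h3 h4
    have hlo := X.lo
    have hhi := X.hi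
    have hC : X.Cm (m + 1) = X.Cm m + 1 / 2 * X.g ^ (18 + m) := by
      simp only [Dat.Cm, Finset.sum_range_succ]; ring
    have hR : X.Rm (m + 1) = X.Rm m - 1 / 2 * ‖X.g‖ ^ (18 + m) := by
      simp only [Dat.Rm, Finset.sum_range_succ]; ring
    rw [hC, hR] at h4
    have hn : ‖(1 / 2 : ℂ) * X.g ^ (18 + m)‖ = 1 / 2 * ‖X.g‖ ^ (18 + m) := by
      rw [norm_mul, norm_pow]; norm_num
    by_cases hv : X.β * u ≤ 0.98
    · have hr := ih x (X.β * u) (by nlinarith) hv (by rw [h3]; ring) (by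
        calc ‖ev X.g x - X.Cm m‖ = ‖(ev X.g x - (X.Cm m + 1 / 2 * X.g ^ (18 + m)))
              + 1 / 2 * X.g ^ (18 + m)‖ := by congr 1; ring
          _ ≤ ‖ev X.g x - (X.Cm m + 1 / 2 * X.g ^ (18 + m))‖ + ‖(1 / 2 : ℂ) * X.g ^ (18 + m)‖ :=
            norm_add_le _ _
          _ ≤ X.Rm m := by rw [hn]; linarith)
      have := rep_high hr 0 (Or.inl rfl)
      simpa [Nat.add_assoc] using this
    · push Not at hv
      have hr := ih (x - pw (18 + m)) (X.β * u - 1) (by linarith) (by nlinarith) (by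
        rw [ev_sub, ev_pw X.hβ, h3]; ring) (by
        rw [ev_sub, ev_pw X.g_cubic]
        calc ‖ev X.g x - X.g ^ (18 + m) - X.Cm m‖
            = ‖(ev X.g x - (X.Cm m + 1 / 2 * X.g ^ (18 + m)))
              - 1 / 2 * X.g ^ (18 + m)‖ := by congr 1; ring
          _ ≤ ‖ev X.g x - (X.Cm m + 1 / 2 * X.g ^ (18 + m))‖ + ‖(1 / 2 : ℂ) * X.g ^ (18 + m)‖ :=
            norm_sub_le _ _
          _ ≤ X.Rm m := by rw [hn]; linarith)
      have := rep_high hr 1 (Or.inr rfl)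
      rw [ev_sub, ev_pw X.hβ] at this
      simpa [Nat.add_assoc] using this

theorem Dat.norm_g_sq : ‖X.g‖ ^ 2 = X.β ^ 2 - 1 := by
  rw [← Complex.normSq_eq_norm_sq, X.g_normSq]

theorem Dat.norm_g_le : ‖X.g‖ ≤ 0.869 := by
  have h1 := X.norm_g_sq
  have h2 := X.sq_hi
  have h3 := norm_nonneg X.g
  nlinarith

theorem Dat.norm_g_18 : ‖X.g‖ ^ 18 ≤ 0.0797 := by
  have e : ‖X.g‖ ^ 18 = (‖X.g‖ ^ 2) ^ 9 := by ring
  rw [e, X.norm_g_sq]
  calc (X.β ^ 2 - 1) ^ 9 ≤ (0.7548778 : ℝ) ^ 9 :=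
        pow_le_pow_left₀ (by linarith [X.sq_lo]) (by linarith [X.sq_hi]) 9
    _ ≤ 0.0797 := by norm_num

theorem Dat.norm_g_60 : ‖X.g‖ ^ 60 ≤ 0.00023 := by
  have e : ‖X.g‖ ^ 60 = (‖X.g‖ ^ 2) ^ 30 := by ring
  rw [e, X.norm_g_sq]
  calc (X.β ^ 2 - 1) ^ 30 ≤ (0.7548778 : ℝ) ^ 30 :=
        pow_le_pow_left₀ (by linarith [X.sq_lo]) (by linarith [X.sq_hi]) 30
    _ ≤ 0.00023 := by norm_num

theorem geom_le {r : ℝ} (h0 : 0 ≤ r) (h1 : r ≤ 0.869) (m : ℕ) :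
    ∑ i ∈ Finset.range m, r ^ i ≤ 7.634 := by
  have h2 : (1 - r) * ∑ i ∈ Finset.range m, r ^ i = 1 - r ^ m := by
    have := geom_sum_mul r m
    linarith
  have h3 : 0 ≤ ∑ i ∈ Finset.range m, r ^ i := Finset.sum_nonneg fun i _ => pow_nonneg h0 i
  have h4 : 0 ≤ r ^ m := pow_nonneg h0 m
  nlinarith

theorem Dat.sum_le (m : ℕ) : ∑ i ∈ Finset.range m, ‖X.g‖ ^ (18 + i) ≤ 0.6085 := by
  have e : ∑ i ∈ Finset.range m, ‖X.g‖ ^ (18 + i)
      = ‖X.g‖ ^ 18 * ∑ i ∈ Finset.range m, ‖X.g‖ ^ i := by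
    rw [Finset.mul_sum]
    exact Finset.sum_congr rfl fun i _ => by rw [pow_add]
  rw [e]
  calc ‖X.g‖ ^ 18 * ∑ i ∈ Finset.range m, ‖X.g‖ ^ i ≤ 0.0797 * 7.634 :=
        mul_le_mul X.norm_g_18 (geom_le (norm_nonneg _) X.norm_g_le m)
          (Finset.sum_nonneg fun i _ => pow_nonneg (norm_nonneg _) i) (by norm_num)
    _ ≤ 0.6085 := by norm_num

theorem Dat.Rm_ge (m : ℕ) : 1.54 ≤ X.Rm m := by
  have := X.sum_le m
  rw [Dat.Rm]; linarith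

theorem Dat.norm_Cm (m : ℕ) : ‖X.Cm m‖ ≤ 1 := by
  have h0 : ‖X.C0‖ ≤ 0.68 := by
    have : ‖X.C0‖ ^ 2 ≤ 0.68 ^ 2 := by
      rw [← Complex.normSq_eq_norm_sq, Complex.normSq_apply]
      simp only [Dat.C0]
      have h1 := X.hy
      have h2 := X.sq_hi
      nlinarith
    exact le_of_sq_le_sq this (by norm_num)
  have h1 : ‖∑ i ∈ Finset.range m, X.g ^ (18 + i)‖ ≤ 0.6085 := by
    refine le_trans (norm_sum_le _ _) ?_
    simp only [norm_pow]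
    exact X.sum_le m
  calc ‖X.Cm m‖ ≤ ‖X.C0‖ + ‖(1 / 2 : ℂ) * ∑ i ∈ Finset.range m, X.g ^ (18 + i)‖ :=
        norm_add_le _ _
    _ = ‖X.C0‖ + 1 / 2 * ‖∑ i ∈ Finset.range m, X.g ^ (18 + i)‖ := by
        rw [norm_mul]; norm_num
    _ ≤ 1 := by linarith

end Pool.Q266.Blk
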