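import Pool.Agent.Q266.Blk4

/-! The covering lemma. -/

namespace Pool.Q266.Blk

variable (X : Dat)

theorem Dat.y_sq_pos : 0 < X.y ^ 2 := by
  have := X.sq_lo
  rw [X.hy]; linarith

theorem Dat.y_ne : X.y ≠ 0 := fun h => by
  have := X.y_sq_pos
  rw [h] at this
  norm_num at this

theorem Dat.quad_bound {e1 e2 e3 : ℝ} (h1 : |e1| ≤ 1 / 2) (h2 : |e2| ≤ 1 / 2)
    (h3 : |e3| ≤ 1 / 2) :
    (e1 * (1 - X.β / 2 - X.β ^ 2 / 2) + e2 * (X.β ^ 2 / 2) + e3) ^ 2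
      + X.y ^ 2 * (e1 * (1 - X.β) + e2 * X.β) ^ 2 ≤ 1.462 ^ 2 := by
  have hy := X.hy
  have hb := X.hβ
  have s1 := X.sq_lo
  have s2 := X.sq_hi
  have l1 := X.lo
  have l2 := X.hi
  have key : (e1 * (1 - X.β / 2 - X.β ^ 2 / 2) + e2 * (X.β ^ 2 / 2) + e3) ^ 2
      + X.y ^ 2 * (e1 * (1 - X.β) + e2 * X.β) ^ 2 =
      (1 - X.β) * (e1 * e1) + (-X.β) * (e2 * e2) + e3 * e3 + (X.β ^ 2 + X.β - 1) * (e1 * e2)
      + (2 - X.β - X.β ^ 2) * (e1 * e3) + X.β ^ 2 * (e2 * e3) := by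
    rw [hy]
    linear_combination (((1/2 - 3/2) + X.β * (1/4 + 3/4)) * e1 ^ 2
      + (1 * X.β) * e2 ^ 2 + (-2 * X.β + 1) * (e1 * e2)) * hb
  have q11 := abs_le.1 (abs_mul_le_of h1 h1)
  have q22 := abs_le.1 (abs_mul_le_of h2 h2)
  have q33 := abs_le.1 (abs_mul_le_of h3 h3)
  have q12 := abs_mul_le_of h1 h2
  have q13 := abs_mul_le_of h1 h3
  have q23 := abs_mul_le_of h2 h3
  have t1 : |X.β ^ 2 + X.β - 1| ≤ 0.57 := abs_le.2 ⟨by linarith, by linarith⟩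
  have t2 : |2 - X.β - X.β ^ 2| ≤ 1.56985 := abs_le.2 ⟨by linarith, by linarith⟩
  have t3 : |X.β ^ 2| ≤ 1.75488 := abs_le.2 ⟨by linarith, by linarith⟩
  have w12 := abs_le.1 (abs_mul_le_of t1 q12)
  have w13 := abs_le.1 (abs_mul_le_of t2 q13)
  have w23 := abs_le.1 (abs_mul_le_of t3 q23)
  have v1 : (1 - X.β) * (e1 * e1) ≤ 2.32472 * (1 / 4) :=
    mul_le_mul (by linarith) (by linarith [q11.2]) (mul_self_nonneg _) (by norm_num)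
  have v2 : (-X.β) * (e2 * e2) ≤ 1.32472 * (1 / 4) :=
    mul_le_mul (by linarith) (by linarith [q22.2]) (mul_self_nonneg _) (by norm_num)
  rw [key]
  linarith [w12.2, w13.2, w23.2, q33.2]

theorem Dat.cover (u0 : ℝ) (t0 : ℂ) : ∃ q : ℤ × ℤ × ℤ,
    |ev X.β q - u0| ≤ 1.0926 ∧ ‖ev X.g q - t0‖ ≤ 1.462 := by
  have hyne := X.y_ne
  have s1 := X.sq_lo
  have s2 := X.sq_hi
  have l1 := X.lo
  have l2 := X.hi
  have hne : 3 * X.β ^ 2 - 1 ≠ 0 := by nlinarith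
  obtain ⟨m, hm⟩ : ∃ m : ℝ, X.y * m = t0.im := ⟨t0.im / X.y, by field_simp⟩
  obtain ⟨C, hC⟩ : ∃ C : ℝ, (3 * X.β ^ 2 - 1) * C = u0 - t0.re - 1.5 * X.β * m :=
    ⟨(u0 - t0.re - 1.5 * X.β * m) / (3 * X.β ^ 2 - 1), by field_simp⟩
  obtain ⟨B, hB⟩ : ∃ B : ℝ, B = X.β * C + m := ⟨_, rfl⟩
  obtain ⟨A, hA⟩ : ∃ A : ℝ, A = u0 - B * X.β - C * X.β ^ 2 := ⟨_, rfl⟩
  obtain ⟨n1, e1, he1, hn1⟩ : ∃ (n : ℤ) (e : ℝ), (n : ℝ) = B + e ∧ |e| ≤ 1 / 2 :=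
    ⟨round B, round B - B, by ring, by rw [abs_sub_comm]; exact abs_sub_round B⟩
  obtain ⟨n2, e2, he2, hn2⟩ : ∃ (n : ℤ) (e : ℝ), (n : ℝ) = (B - C) + e ∧ |e| ≤ 1 / 2 :=
    ⟨round (B - C), round (B - C) - (B - C), by ring, by
      rw [abs_sub_comm]; exact abs_sub_round (B - C)⟩
  obtain ⟨n3, e3, he3, hn3⟩ : ∃ (n : ℤ) (e : ℝ), (n : ℝ) = (A - (B - C)) + e ∧ |e| ≤ 1 / 2 :=
    ⟨round (A - (B - C)), round (A - (B - C)) - (A - (B - C)), by ring, by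
      rw [abs_sub_comm]; exact abs_sub_round (A - (B - C))⟩
  refine ⟨(n2 + n3, n1, n1 - n2), ?_, ?_⟩
  · have : ev X.β (n2 + n3, n1, n1 - n2) - u0
        = (X.β + X.β ^ 2) * e1 + (1 - X.β ^ 2) * e2 + e3 := by
      simp only [ev]; push_cast
      rw [he1, he2, he3, hA]; ring
    rw [this]
    have t1 : |X.β + X.β ^ 2| ≤ 0.4302 := abs_le.2 ⟨by linarith, by linarith⟩
    have t2 : |1 - X.β ^ 2| ≤ 0.75488 := abs_le.2 ⟨by linarith, by linarith⟩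
    have w1 := abs_le.1 (abs_mul_le_of t1 hn1)
    have w2 := abs_le.1 (abs_mul_le_of t2 hn2)
    have w3 := abs_le.1 hn3
    rw [abs_le]
    constructor <;> linarith [w1.1, w1.2, w2.1, w2.2, w3.1, w3.2]
  · have hre : (ev X.g (n2 + n3, n1, n1 - n2) - t0).re
        = e1 * (1 - X.β / 2 - X.β ^ 2 / 2) + e2 * (X.β ^ 2 / 2) + e3 := by
      rw [Complex.sub_re, X.ev_re]; push_cast
      rw [he1, he2, he3]
      have : t0.re = A - B * X.β / 2 + C * (1 - X.β ^ 2 / 2) := by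
        rw [hA, hB]
        linear_combination hC
      rw [this]; ring
    have him : (ev X.g (n2 + n3, n1, n1 - n2) - t0).im
        = X.y * (e1 * (1 - X.β) + e2 * X.β) := by
      rw [Complex.sub_im, X.ev_im]; push_cast
      rw [he1, he2, ← hm]
      have : m = B - X.β * C := by rw [hB]; ring
      rw [this]; ring
    have hsq : ‖ev X.g (n2 + n3, n1, n1 - n2) - t0‖ ^ 2 ≤ 1.462 ^ 2 := by
      rw [← Complex.normSq_eq_norm_sq, Complex.normSq_apply, hre, him]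
      calc _ = (e1 * (1 - X.β / 2 - X.β ^ 2 / 2) + e2 * (X.β ^ 2 / 2) + e3) ^ 2
              + X.y ^ 2 * (e1 * (1 - X.β) + e2 * X.β) ^ 2 := by ring
        _ ≤ _ := X.quad_bound hn1 hn2 hn3
    exact le_of_sq_le_sq hsq (by norm_num)

end Pool.Q266.Blk
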