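import Pool.Agent.Q266.Blk5

/-! The local function. -/

namespace Pool.Q266.Blk

variable (X : Dat)

theorem ev_smul {R : Type*} [CommRing R] (w : R) (n : ℤ) (x : ℤ × ℤ × ℤ) :
    ev w (n • x) = n * ev w x := by
  simp only [ev, Prod.smul_fst, Prod.smul_snd, smul_eq_mul]
  push_cast
  ring

theorem ev_sum_pw {R : Type*} [CommRing R] {w : R} (hw : w ^ 3 = w - 1) (c : ℕ → ℤ) (k : ℕ) :
    ev w (∑ i ∈ Finset.range k, c i • pw i) = ∑ i ∈ Finset.range k, (c i : R) * w ^ i := by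
  induction k with
  | zero => simp [ev_zero]
  | succ k ih => rw [Finset.sum_range_succ, Finset.sum_range_succ, ev_add, ih, ev_smul, ev_pw hw]

theorem Dat.geom_beta (k : ℕ) :
    ∑ i ∈ Finset.range k, |X.β| ^ i ≤ 3.1 * |X.β| ^ k := by
  have h1 := X.lo
  have h2 := X.hi
  have e : |X.β| = -X.β := abs_of_neg (by linarith)
  have h3 : 1.3247179 ≤ |X.β| := by rw [e]; linarith
  induction k with
  | zero => simp; norm_num
  | succ k ih =>
    rw [Finset.sum_range_succ, pow_succ]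
    have h4 : 0 ≤ |X.β| ^ k := pow_nonneg (abs_nonneg _) k
    nlinarith

theorem Dat.tri_exists (c : ℕ → ℤ) (hc : ∀ i, 0 ≤ c i ∧ c i ≤ 2) :
    ∃ r : ℤ × ℤ × ℤ, ev X.β r = ∑ i ∈ Finset.range 60, (c i : ℝ) * X.β ^ i ∧
      |ev X.β r| ≤ 6.2 * X.β ^ 60 ∧ ‖ev X.g r‖ ≤ 15.3 := by
  refine ⟨∑ i ∈ Finset.range 60, c i • pw i, ev_sum_pw X.hβ c 60, ?_, ?_⟩
  · rw [ev_sum_pw X.hβ c 60]
    calc |∑ i ∈ Finset.range 60, (c i : ℝ) * X.β ^ i|
        ≤ ∑ i ∈ Finset.range 60, |(c i : ℝ) * X.β ^ i| := Finset.abs_sum_le_sum_abs _ _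
      _ ≤ ∑ i ∈ Finset.range 60, 2 * |X.β| ^ i := by
          apply Finset.sum_le_sum
          intro i _
          rw [abs_mul, abs_pow]
          apply mul_le_mul_of_nonneg_right _ (pow_nonneg (abs_nonneg _) _)
          have h0 : (0 : ℝ) ≤ c i := by exact_mod_cast (hc i).1
          rw [abs_of_nonneg h0]
          exact_mod_cast (hc i).2
      _ = 2 * ∑ i ∈ Finset.range 60, |X.β| ^ i := by rw [Finset.mul_sum]
      _ ≤ 2 * (3.1 * |X.β| ^ 60) := by
          have := X.geom_beta 60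
          linarith
      _ = 6.2 * X.β ^ 60 := by
          rw [Even.pow_abs (by decide)]; ring
  · rw [ev_sum_pw X.g_cubic c 60]
    calc ‖∑ i ∈ Finset.range 60, (c i : ℂ) * X.g ^ i‖
        ≤ ∑ i ∈ Finset.range 60, ‖(c i : ℂ) * X.g ^ i‖ := norm_sum_le _ _
      _ ≤ ∑ i ∈ Finset.range 60, 2 * ‖X.g‖ ^ i := by
          apply Finset.sum_le_sum
          intro i _
          rw [norm_mul, norm_pow]
          apply mul_le_mul_of_nonneg_right _ (pow_nonneg (norm_nonneg _) _)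
          have h0 : (0 : ℝ) ≤ c i := by exact_mod_cast (hc i).1
          rw [Complex.norm_intCast, abs_of_nonneg h0]
          exact_mod_cast (hc i).2
      _ = 2 * ∑ i ∈ Finset.range 60, ‖X.g‖ ^ i := by rw [Finset.mul_sum]
      _ ≤ 2 * 7.634 := by
          have := geom_le (norm_nonneg X.g) X.norm_g_le 60
          linarith
      _ ≤ 15.3 := by norm_num

/-- the property of the carries -/
theorem Dat.carry_exists (rs rt : ℤ × ℤ × ℤ) (P : Prop) (hP : P → rs = 0 ∧ rt = 0) :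
    ∃ q : ℤ × ℤ × ℤ, -1.2526 ≤ ev X.β rt / X.β ^ 60 - ev X.β q ∧
      ev X.β rt / X.β ^ 60 - ev X.β q ≤ 0.9326 ∧
      ‖ev X.g rs + ev X.g q - X.Cm 42‖ ≤ 1.462 ∧ (P → q = 0) := by
  by_cases h : P
  · obtain ⟨rfl, rfl⟩ := hP h
    refine ⟨0, ?_, ?_, ?_, fun _ => rfl⟩
    · simp only [ev_zero]; norm_num
    · simp only [ev_zero]; norm_num
    · simp only [ev_zero, zero_add, zero_sub, norm_neg]
      linarith [X.norm_Cm 42]
  · obtain ⟨q, h1, h2⟩ := X.cover (ev X.β rt / X.β ^ 60 + 0.16) (X.Cm 42 - ev X.g rs)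
    rw [abs_le] at h1
    refine ⟨q, by linarith [h1.2], by linarith [h1.1], ?_, fun hp => absurd hp h⟩
    have : ev X.g rs + ev X.g q - X.Cm 42 = ev X.g q - (X.Cm 42 - ev X.g rs) := by ring
    rw [this]; exact h2

theorem Dat.B_ge : 1000000 ≤ X.β ^ 60 := by
  have e : X.β ^ 60 = (X.β ^ 2) ^ 30 := by ring
  rw [e]
  calc (1000000 : ℝ) ≤ (1.7548775 : ℝ) ^ 30 := by norm_num
    _ ≤ _ := pow_le_pow_left₀ (by norm_num) X.sq_lo 30

/-- the carry identity -/
theorem Dat.z_rep (ry q q' rx : ℤ × ℤ × ℤ)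
    (hry : |ev X.β ry| ≤ 6.2 * X.β ^ 60) (hrx : ‖ev X.g rx‖ ≤ 15.3)
    (a1 : -1.2526 ≤ ev X.β ry / X.β ^ 60 - ev X.β q)
    (a2 : ev X.β ry / X.β ^ 60 - ev X.β q ≤ 0.9326)
    (a3 : ‖ev X.g rx + ev X.g q - X.Cm 42‖ ≤ 1.462)
    (rw' : ℤ × ℤ × ℤ) (hrw : |ev X.β rw'| ≤ 6.2 * X.β ^ 60)
    (b1 : -1.2526 ≤ ev X.β rw' / X.β ^ 60 - ev X.β q')
    (b2 : ev X.β rw' / X.β ^ 60 - ev X.β q' ≤ 0.9326)
    (b3 : ‖ev X.g ry + ev X.g q' - X.Cm 42‖ ≤ 1.462) :
    Rep X.β 60 (ev X.β (ry - mulb^[60] q + q')) := by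
  have hB := X.B_ge
  have hBpos : 0 < X.β ^ 60 := by linarith
  -- bound for the carry `q'` in the real embedding
  have c1 : |ev X.β rw' / X.β ^ 60| ≤ 6.2 := by
    rw [abs_div, abs_of_pos hBpos, div_le_iff₀ hBpos]
    exact hrw
  have c2 : |ev X.β q'| ≤ 7.5 := by
    rw [abs_le] at c1 ⊢
    constructor <;> linarith [c1.1, c1.2]
  have c3 : |ev X.β q' / X.β ^ 60| ≤ 0.01 := by
    rw [abs_div, abs_of_pos hBpos, div_le_iff₀ hBpos]
    linarith
  -- bound for the carry `q` in the complex embedding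
  have c4 : ‖ev X.g q‖ ≤ 18 := by
    have : ev X.g q = (ev X.g rx + ev X.g q - X.Cm 42) + X.Cm 42 - ev X.g rx := by ring
    calc ‖ev X.g q‖ = ‖(ev X.g rx + ev X.g q - X.Cm 42) + X.Cm 42 - ev X.g rx‖ := by
          rw [← this]
      _ ≤ ‖(ev X.g rx + ev X.g q - X.Cm 42) + X.Cm 42‖ + ‖ev X.g rx‖ := norm_sub_le _ _
      _ ≤ ‖ev X.g rx + ev X.g q - X.Cm 42‖ + ‖X.Cm 42‖ + ‖ev X.g rx‖ := by
          have := norm_add_le (ev X.g rx + ev X.g q - X.Cm 42) (X.Cm 42)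
          linarith
      _ ≤ 18 := by linarith [X.norm_Cm 42]
  have c5 : ‖X.g ^ 60 * ev X.g q‖ ≤ 0.01 := by
    rw [norm_mul, norm_pow]
    calc ‖X.g‖ ^ 60 * ‖ev X.g q‖ ≤ 0.00023 * 18 :=
          mul_le_mul X.norm_g_60 c4 (norm_nonneg _) (by norm_num)
      _ ≤ 0.01 := by norm_num
  rw [abs_le] at c3
  have := X.main 42 (ry - mulb^[60] q + q')
    (ev X.β ry / X.β ^ 60 - ev X.β q + ev X.β q' / X.β ^ 60)
    (by linarith [c3.1]) (by linarith [c3.2])
    (by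
      rw [ev_add, ev_sub, ev_iter X.hβ, show (18 + 42 : ℕ) = 60 from rfl, add_mul, sub_mul,
        div_mul_cancel₀ _ hBpos.ne', div_mul_cancel₀ _ hBpos.ne', mul_comm (X.β ^ 60)])
    (by
      rw [ev_add, ev_sub, ev_iter X.g_cubic]
      have e : ev X.g ry - X.g ^ 60 * ev X.g q + ev X.g q' - X.Cm 42
          = (ev X.g ry + ev X.g q' - X.Cm 42) - X.g ^ 60 * ev X.g q := by ring
      rw [e]
      calc _ ≤ ‖ev X.g ry + ev X.g q' - X.Cm 42‖ + ‖X.g ^ 60 * ev X.g q‖ := norm_sub_le _ _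
        _ ≤ 1.54 := by linarith
        _ ≤ _ := X.Rm_ge 42)
  exact this

/-- the telescoping identity -/
theorem telescope {B : ℂ} (hB : B ≠ 0) (U Q : ℤ → ℂ) (hU : (Function.support U).Finite)
    (hQ : (Function.support Q).Finite) :
    ∑ᶠ j : ℤ, (U j - B * Q j + Q (j - 1)) * B ^ j = ∑ᶠ j : ℤ, U j * B ^ j := by
  have hQ1 : (Function.support fun j : ℤ => Q j * B ^ (j + 1)).Finite := by
    refine hQ.subset fun j hj => ?_
    simp only [Function.mem_support] at hj ⊢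
    intro h; apply hj; rw [h, zero_mul]
  have hU1 : (Function.support fun j : ℤ => U j * B ^ j).Finite := by
    refine hU.subset fun j hj => ?_
    simp only [Function.mem_support] at hj ⊢
    intro h; apply hj; rw [h, zero_mul]
  have hQ2 : (Function.support fun j : ℤ => Q (j - 1) * B ^ j).Finite := by
    have : (Function.support fun j : ℤ => Q (j - 1) * B ^ j)
        ⊆ (fun j : ℤ => j + 1) '' (Function.support Q) := by
      intro j hj
      simp only [Function.mem_support] at hj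
      refine ⟨j - 1, ?_, by ring⟩
      simp only [Function.mem_support]
      intro h; apply hj; rw [h, zero_mul]
    exact (hQ.image _).subset this
  have e : ∀ j : ℤ, (U j - B * Q j + Q (j - 1)) * B ^ j
      = (U j * B ^ j - Q j * B ^ (j + 1)) + Q (j - 1) * B ^ j := by
    intro j
    rw [zpow_add₀ hB, zpow_one]; ring
  simp_rw [e]
  have hUQ : (Function.support fun j : ℤ => U j * B ^ j - Q j * B ^ (j + 1)).Finite := by
    refine (hU1.union hQ1).subset fun j hj => ?_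
    simp only [Function.mem_support, Set.mem_union] at hj ⊢
    by_contra hcon
    push Not at hcon
    apply hj; rw [hcon.1, hcon.2, sub_zero]
  rw [finsum_add_distrib hUQ hQ2, finsum_sub_distrib hU1 hQ1]
  have s : ∑ᶠ j : ℤ, Q (j - 1) * B ^ j = ∑ᶠ j : ℤ, Q j * B ^ (j + 1) := by
    rw [← finsum_comp_equiv (Equiv.addRight (1 : ℤ))]
    simp
  rw [s]; ring

theorem dat_exists : Nonempty Dat := by
  have hc : Continuous fun x : ℝ => x ^ 3 - x + 1 := by fun_prop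
  have h := intermediate_value_Icc (a := (-1.324718 : ℝ)) (b := -1.3247179) (by norm_num)
    hc.continuousOn
  have h0 : (0 : ℝ) ∈ Set.Icc ((-1.324718 : ℝ) ^ 3 - -1.324718 + 1)
      ((-1.3247179 : ℝ) ^ 3 - -1.3247179 + 1) := by
    constructor <;> norm_num
  obtain ⟨β, ⟨h1, h2⟩, h3⟩ := h h0
  simp only at h3
  have h4 : 0 ≤ 3 * β ^ 2 / 4 - 1 := by nlinarith
  exact ⟨⟨β, Real.sqrt (3 * β ^ 2 / 4 - 1), by linarith, h1, h2, Real.sq_sqrt h4⟩⟩

end Pool.Q266.Blk
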