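import Pool.Agent.Q279.QS.SS
import Pool.Agent.Q279.QS.Quint

/-!
# Finite products, Euler's sum, and a double sum

`P c n = (q^c; q^c)_n`, `V c n` is its inverse, `Eu a = (-q^a; q)_∞` as a sum, and
`G s` is a double sum which is evaluated in closed form.
-/

set_option autoImplicit false

namespace Q266.CF

open PowerSeries Q279.QS

/-- `(q^c; q^c)_n` -/
noncomputable def P (c n : ℕ) : ℤ⟦X⟧ := ∏ j ∈ Finset.range n, (1 - X ^ (c * (j + 1)))

/-- `1 / (q^c; q^c)_n` -/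
noncomputable def V (c n : ℕ) : ℤ⟦X⟧ := invOfUnit (P c n) 1

theorem P_zero (c : ℕ) : P c 0 = 1 := by simp [P]

theorem P_succ (c n : ℕ) : P c (n + 1) = P c n * (1 - X ^ (c * (n + 1))) := by
  rw [P, Finset.prod_range_succ, P]

theorem constCoeff_P {c : ℕ} (hc : 1 ≤ c) (n : ℕ) : constantCoeff (P c n) = 1 := by
  rw [P, map_prod]
  refine Finset.prod_eq_one fun j _ => ?_
  have : c * (j + 1) ≠ 0 := by positivity
  rw [map_sub, map_one, map_pow, constantCoeff_X, zero_pow this, sub_zero]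

theorem P_mul_V {c : ℕ} (hc : 1 ≤ c) (n : ℕ) : P c n * V c n = 1 :=
  mul_invOfUnit _ 1 (by rw [constCoeff_P hc]; simp)

theorem V_zero {c : ℕ} (hc : 1 ≤ c) : V c 0 = 1 := by
  have := P_mul_V hc 0
  rwa [P_zero, one_mul] at this

theorem V_succ {c : ℕ} (hc : 1 ≤ c) (n : ℕ) : (1 - X ^ (c * (n + 1))) * V c (n + 1) = V c n := by
  have h1 := P_mul_V hc n
  have h2 := P_mul_V hc (n + 1)
  rw [P_succ] at h2
  linear_combination (V c n) * h2 - (1 - X ^ (c * (n + 1))) * V c (n + 1) * h1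

theorem X_dvd (a b : ℕ) (h : a ≤ b) (F : ℤ⟦X⟧) : X ^ a ∣ X ^ b * F :=
  (pow_dvd_pow X h).mul_right F

/-- `(-q^a; q)_∞` -/
noncomputable def Eu (a : ℕ) : ℤ⟦X⟧ := SS fun M => X ^ (M.choose 2 + M * a) * V 1 M

theorem Ad_Eu {a : ℕ} (ha : 1 ≤ a) : Ad fun M => X ^ (M.choose 2 + M * a) * V 1 M := fun M =>
  X_dvd _ _ (by nlinarith) _

theorem Eu_rec {a : ℕ} (ha : 1 ≤ a) : Eu a = (1 + X ^ a) * Eu (a + 1) := by
  have h1 : Eu a - Eu (a + 1) = X ^ a * Eu (a + 1) := by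
    rw [Eu, Eu, ← SS_sub, ← SS_mul (Ad_Eu (by omega)), SS_shift]
    · rw [Nat.choose_zero_succ, zero_mul, zero_mul, sub_self, zero_add]
      refine SS_congr fun M => ?_
      have h2 := V_succ (le_refl 1) M
      have h3 : (M + 1).choose 2 = M.choose 2 + M := by
        rw [Nat.choose_succ_succ' M 1, Nat.choose_one_right]; ring
      rw [h3, ← h2]
      ring
    · intro M
      refine dvd_sub (X_dvd _ _ (by nlinarith) _) (X_dvd _ _ (by nlinarith) _)
  linear_combination h1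

theorem SS_dvd {a : ℕ → ℤ⟦X⟧} {K : ℕ} (h : ∀ n, X ^ K ∣ a n) : X ^ K ∣ SS a := by
  rw [X_pow_dvd_iff]
  intro k hk
  rw [SS, coeff_mk, map_sum]
  exact Finset.sum_eq_zero fun n _ => X_pow_dvd_iff.1 (h n) k hk

theorem Eu_dvd {a : ℕ} (ha : 1 ≤ a) : X ^ a ∣ Eu a - 1 := by
  rw [Eu, SS_shift (Ad_Eu ha)]
  rw [Nat.choose_zero_succ, zero_mul, zero_add, pow_zero, one_mul, V_zero (le_refl 1),
    add_sub_cancel_left]
  exact SS_dvd fun M => X_dvd _ _ (by nlinarith) _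

/-- the summand of the double sum -/
noncomputable def gt (s i j : ℕ) : ℤ⟦X⟧ :=
  X ^ (i ^ 2 + 2 * j ^ 2 + 2 * i * j + 3 * j + s * (i + 2 * j)) * (V 1 i * V 2 j)

/-- the double sum -/
noncomputable def G (s : ℕ) : ℤ⟦X⟧ := SS fun i => SS fun j => gt s i j

theorem gt_dvd (s i j : ℕ) : X ^ (i + 2 * j) ∣ gt s i j :=
  X_dvd _ _ (by nlinarith [Nat.zero_le (i * j), Nat.zero_le (s * (i + 2 * j)),
    Nat.le_self_pow (two_ne_zero) i]) _

theorem Ad_gt (s i : ℕ) : Ad fun j => gt s i j := fun j =>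
  (pow_dvd_pow X (by omega)).trans (gt_dvd s i j)

theorem SS_comm (u : ℕ → ℕ → ℤ⟦X⟧) : (SS fun i => SS fun j => u i j) = SS fun j => SS fun i => u i j := by
  ext n
  simp only [SS, coeff_mk, map_sum]
  exact Finset.sum_comm

theorem SS_zero_head {a : ℕ → ℤ⟦X⟧} (ha : Ad a) (h0 : a 0 = 0) : SS a = SS fun n => a (n + 1) := by
  rw [SS_shift ha, h0, zero_add]

theorem G_rec (s : ℕ) : G s - G (s + 1) = (X ^ (s + 1) + X ^ (2 * s + 5)) * G (s + 2) := by
  -- split `1 - q^{i+2j} = (1 - q^{2j}) + q^{2j} (1 - q^i)`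
  have e1 : G s - G (s + 1) = (SS fun i => SS fun j => (1 - X ^ (2 * j)) * gt s i j) +
      SS fun j => SS fun i => X ^ (2 * j) * ((1 - X ^ i) * gt s i j) := by
    rw [← SS_comm fun i j => X ^ (2 * j) * ((1 - X ^ i) * gt s i j), ← SS_add, G, G, ← SS_sub]
    refine SS_congr fun i => ?_
    rw [← SS_sub, ← SS_add]
    refine SS_congr fun j => ?_
    have : gt (s + 1) i j = X ^ (i + 2 * j) * gt s i j := by
      unfold gt
      ring
    rw [this]
    ring
  have e2 : (SS fun i => SS fun j => (1 - X ^ (2 * j)) * gt s i j) = X ^ (2 * s + 5) * G (s + 2) := by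
    rw [G, ← SS_mul]
    · refine SS_congr fun i => ?_
      rw [← SS_mul (Ad_gt _ _), SS_zero_head]
      · refine SS_congr fun j => ?_
        have h2 := V_succ (show 1 ≤ 2 by norm_num) j
        unfold gt
        rw [← h2]
        ring
      · exact fun j => (Ad_gt s i j).mul_left _
      · rw [mul_zero, pow_zero, sub_self, zero_mul]
    · intro i
      exact SS_dvd fun j => (pow_dvd_pow X (by omega)).trans (gt_dvd _ i j)
  have e3 : (SS fun j => SS fun i => X ^ (2 * j) * ((1 - X ^ i) * gt s i j)) =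
      X ^ (s + 1) * G (s + 2) := by
    rw [G, SS_comm (fun i j => gt (s + 2) i j), ← SS_mul]
    · refine SS_congr fun j => ?_
      rw [← SS_mul (fun i => (pow_dvd_pow X (by omega)).trans (gt_dvd _ i j)), SS_zero_head]
      · refine SS_congr fun i => ?_
        have h2 := V_succ (le_refl 1) i
        unfold gt
        rw [← h2]
        ring
      · exact fun i => (((pow_dvd_pow X (by omega)).trans (gt_dvd _ i j)).mul_left _).mul_left _
      · rw [pow_zero, sub_self, zero_mul, mul_zero]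
    · intro j
      exact SS_dvd fun i => (pow_dvd_pow X (by omega)).trans (gt_dvd _ i j)
  rw [e1, e2, e3]
  ring

theorem G_dvd (s : ℕ) : X ^ (s + 1) ∣ G s - 1 := by
  have h0 : (SS fun j => gt s 0 j) = 1 + SS fun j => gt s 0 (j + 1) := by
    rw [SS_shift (Ad_gt s 0)]
    congr 1
    unfold gt
    simp [V_zero]
  have h1 : G s = (SS fun j => gt s 0 j) + SS fun i => SS fun j => gt s (i + 1) j :=
    SS_shift fun i => SS_dvd fun j => (pow_dvd_pow X (by omega)).trans (gt_dvd _ i j)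
  rw [h1, h0]
  have h2 : X ^ (s + 1) ∣ SS fun j => gt s 0 (j + 1) :=
    SS_dvd fun j => X_dvd _ _ (by nlinarith) _
  have h3 : X ^ (s + 1) ∣ SS fun i => SS fun j => gt s (i + 1) j :=
    SS_dvd fun i => SS_dvd fun j => X_dvd _ _ (by nlinarith [Nat.zero_le (i * j)]) _
  have h4 := dvd_add h2 h3
  rwa [show (1 + (SS fun j => gt s 0 (j + 1)) + SS fun i => SS fun j => gt s (i + 1) j) - 1 =
    (SS fun j => gt s 0 (j + 1)) + SS fun i => SS fun j => gt s (i + 1) j by ring]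

theorem G_eq (s : ℕ) : G s = (1 + X ^ (s + 1) + X ^ (s + 2)) * Eu (s + 3) := by
  have hr : ∀ s : ℕ, (1 + X ^ (s + 1) + X ^ (s + 2)) * Eu (s + 3) -
      (1 + X ^ (s + 1 + 1) + X ^ (s + 1 + 2)) * Eu (s + 1 + 3) =
      (X ^ (s + 1) + X ^ (2 * s + 5)) * ((1 + X ^ (s + 2 + 1) + X ^ (s + 2 + 2)) * Eu (s + 2 + 3)) := by
    intro s
    have h1 := Eu_rec (show 1 ≤ s + 3 by omega)
    have h2 := Eu_rec (show 1 ≤ s + 4 by omega)
    rw [show s + 3 + 1 = s + 4 by ring] at h1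
    rw [show s + 4 + 1 = s + 5 by ring] at h2
    rw [show s + 1 + 3 = s + 4 by ring, show s + 2 + 3 = s + 5 by ring, h1, h2]
    ring
  have h1 : ∀ K s : ℕ, X ^ K ∣ G s - (1 + X ^ (s + 1) + X ^ (s + 2)) * Eu (s + 3) ∧
      X ^ K ∣ G (s + 1) - (1 + X ^ (s + 1 + 1) + X ^ (s + 1 + 2)) * Eu (s + 1 + 3) := by
    intro K
    have hb : ∀ s, K ≤ s + 1 → X ^ K ∣ G s - (1 + X ^ (s + 1) + X ^ (s + 2)) * Eu (s + 3) := by
      intro s hs
      have a1 := (pow_dvd_pow (X : ℤ⟦X⟧) hs).trans (G_dvd s)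
      have a2 := (pow_dvd_pow (X : ℤ⟦X⟧) (show K ≤ s + 3 by omega)).trans
        (Eu_dvd (show 1 ≤ s + 3 by omega))
      have a3 : (X : ℤ⟦X⟧) ^ K ∣ X ^ (s + 1) := pow_dvd_pow X hs
      have a4 : (X : ℤ⟦X⟧) ^ K ∣ X ^ (s + 2) := pow_dvd_pow X (by omega)
      have : G s - (1 + X ^ (s + 1) + X ^ (s + 2)) * Eu (s + 3) =
        (G s - 1) - (Eu (s + 3) - 1) - X ^ (s + 1) * Eu (s + 3) - X ^ (s + 2) * Eu (s + 3) := by ring
      rw [this]
      exact dvd_sub (dvd_sub (dvd_sub a1 a2) (a3.mul_right _)) (a4.mul_right _)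
    have hd : ∀ d s, K ≤ s + d → X ^ K ∣ G s - (1 + X ^ (s + 1) + X ^ (s + 2)) * Eu (s + 3) ∧
      X ^ K ∣ G (s + 1) - (1 + X ^ (s + 1 + 1) + X ^ (s + 1 + 2)) * Eu (s + 1 + 3) := by
      intro d
      induction d with
      | zero => exact fun s hs => ⟨hb s (by omega), hb (s + 1) (by omega)⟩
      | succ d ih =>
        intro s hs
        obtain ⟨i1, i2⟩ := ih (s + 1) (by omega)
        refine ⟨?_, i1⟩
        have e : G s - (1 + X ^ (s + 1) + X ^ (s + 2)) * Eu (s + 3) =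
          (G (s + 1) - (1 + X ^ (s + 1 + 1) + X ^ (s + 1 + 2)) * Eu (s + 1 + 3)) +
          (X ^ (s + 1) + X ^ (2 * s + 5)) *
            (G (s + 1 + 1) - (1 + X ^ (s + 1 + 1 + 1) + X ^ (s + 1 + 1 + 2)) * Eu (s + 1 + 1 + 3)) := by
          have a1 := G_rec s
          have a2 := hr s
          rw [show s + 1 + 1 + 1 = s + 2 + 1 by ring, show s + 1 + 1 + 2 = s + 2 + 2 by ring,
            show s + 1 + 1 + 3 = s + 2 + 3 by ring, show s + 1 + 1 = s + 2 by ring]
          linear_combination a1 - a2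
        rw [e]
        exact dvd_add i1 (i2.mul_left _)
    exact fun s => hd K s (by omega)
  ext k
  have h2 := X_pow_dvd_iff.1 (h1 (k + 1) s).1 k (Nat.lt_succ_self k)
  rw [map_sub, sub_eq_zero] at h2
  exact h2

end Q266.CF
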