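import Pool.Agent.Q266.CF1

/-!
# Merging indices, and the limit of a `1φ1` sum
-/

set_option autoImplicit false

namespace Q266.CF

open PowerSeries Q279.QS

/-- merging `(k, l)` into `L = k + 2 l` -/
theorem SS_tri (u : ℕ → ℕ → ℤ⟦X⟧) (hu : ∀ i j, X ^ (i + 2 * j) ∣ u i j) :
    (SS fun i => SS fun j => u i j) =
      SS fun M => ∑ j ∈ Finset.range (M / 2 + 1), u (M - 2 * j) j := by
  ext n
  simp only [SS, coeff_mk, map_sum]
  have hz : ∀ i j, n < i + 2 * j → coeff n (u i j) = 0 := fun i j h =>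
    X_pow_dvd_iff.1 (hu i j) n h
  rw [← Finset.sum_product', Finset.sum_sigma']
  symm
  refine Finset.sum_bij_ne_zero (fun x _ _ => (x.1 - 2 * x.2, x.2)) ?_ ?_ ?_ ?_
  · rintro ⟨M, j⟩ h1 _
    simp only [Finset.mem_sigma, Finset.mem_range, Finset.mem_product] at h1 ⊢
    omega
  · rintro ⟨M, j⟩ h1 _ ⟨M', j'⟩ h1' _ h
    simp only [Finset.mem_sigma, Finset.mem_range, Prod.mk.injEq] at h1 h1' h
    obtain ⟨h2, rfl⟩ := h
    have : M = M' := by omega
    subst this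
    rfl
  · rintro ⟨i, j⟩ h1 h2
    have h3 : i + 2 * j ≤ n := by
      by_contra h
      exact h2 (hz i j (by omega))
    refine ⟨⟨i + 2 * j, j⟩, ?_, ?_, ?_⟩
    · simp only [Finset.mem_sigma, Finset.mem_range]
      omega
    · simpa using h2
    · simp
  · rintro ⟨M, j⟩ _ _
    rfl

/-- a triangular sum -/
theorem SS_triangle (u : ℕ → ℕ → ℤ⟦X⟧) (hu : ∀ L r, X ^ L ∣ u L r) :
    (SS fun L => ∑ r ∈ Finset.range (L + 1), u L r) = SS fun r => SS fun n => u (r + n) r := by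
  ext n
  simp only [SS, coeff_mk, map_sum]
  have hz : ∀ L r, n < L → coeff n (u L r) = 0 := fun L r h => X_pow_dvd_iff.1 (hu L r) n h
  rw [← Finset.sum_product', Finset.sum_sigma']
  refine Finset.sum_bij_ne_zero (fun x _ _ => (x.2, x.1 - x.2)) ?_ ?_ ?_ ?_
  · rintro ⟨L, r⟩ h1 _
    simp only [Finset.mem_sigma, Finset.mem_range, Finset.mem_product] at h1 ⊢
    omega
  · rintro ⟨L, r⟩ h1 _ ⟨L', r'⟩ h1' _ h
    simp only [Finset.mem_sigma, Finset.mem_range, Prod.mk.injEq] at h1 h1' h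
    obtain ⟨rfl, h2⟩ := h
    have : L = L' := by omega
    subst this
    rfl
  · rintro ⟨r, m⟩ h1 h2
    have h3 : r + m ≤ n := by
      by_contra h
      exact h2 (hz _ _ (by omega))
    refine ⟨⟨r + m, r⟩, ?_, ?_, ?_⟩
    · simp only [Finset.mem_sigma, Finset.mem_range]
      omega
    · exact h2
    · simp
  · rintro ⟨L, r⟩ h1 _
    simp only [Finset.mem_sigma, Finset.mem_range] at h1
    simp only
    rw [show r + (L - r) = L by omega]

theorem SS_triple {a : ℕ → ℤ⟦X⟧} (ha : Ad a) :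
    SS a = SS (fun n => a (3 * n) + a (3 * n + 1) + a (3 * n + 2)) := by
  have h2 : Ad fun n => a (3 * n) + a (3 * n + 1) + a (3 * n + 2) := fun n =>
    dvd_add (dvd_add ((pow_dvd_pow X (by omega)).trans (ha (3 * n)))
      ((pow_dvd_pow X (by omega)).trans (ha (3 * n + 1))))
      ((pow_dvd_pow X (by omega)).trans (ha (3 * n + 2)))
  have h3 : ∀ M, ∑ n ∈ Finset.range (3 * M), a n =
      ∑ n ∈ Finset.range M, (a (3 * n) + a (3 * n + 1) + a (3 * n + 2)) := by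
    intro M
    induction M with
    | zero => simp
    | succ M ih =>
      rw [show 3 * (M + 1) = 3 * M + 1 + 1 + 1 by ring, Finset.sum_range_succ,
        Finset.sum_range_succ, Finset.sum_range_succ, ih, Finset.sum_range_succ]
      ring
  ext k
  rw [coeff_SS ha (show k < 3 * (k + 1) by omega), h3, coeff_SS h2 (Nat.lt_succ_self k)]

/-- `∏_{i<n} (1 - q^{2c+1+2i})` -/
noncomputable def O (c n : ℕ) : ℤ⟦X⟧ := ∏ i ∈ Finset.range n, (1 - X ^ (2 * c + 1 + 2 * i))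

theorem O_succ (c n : ℕ) : O c (n + 1) = O c n * (1 - X ^ (2 * c + 1 + 2 * n)) := by
  rw [O, Finset.prod_range_succ, O]

theorem O_zero (c : ℕ) : O c 0 = 1 := by simp [O]

theorem O_add (m n : ℕ) : O 0 (m + n) = O 0 m * O m n := by
  rw [O, Finset.prod_range_add, O, O]
  congr 1
  refine Finset.prod_congr rfl fun i _ => ?_
  congr 2
  ring

/-- the terms of the `1φ1` -/
noncomputable def yt (a c n : ℕ) : ℤ⟦X⟧ :=
  (-1) ^ n * X ^ (n ^ 2 + 2 * a * n) * O c n * V 2 n * V 2 (a + c + n)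

noncomputable def Y (a c : ℕ) : ℤ⟦X⟧ := SS fun n => yt a c n

theorem yt_dvd (a c n K : ℕ) (h : K ≤ n ^ 2 + 2 * a * n) : X ^ K ∣ yt a c n := by
  rw [yt, show ((-1) ^ n * X ^ (n ^ 2 + 2 * a * n) * O c n * V 2 n * V 2 (a + c + n) : ℤ⟦X⟧) =
    X ^ (n ^ 2 + 2 * a * n) * ((-1) ^ n * O c n * V 2 n * V 2 (a + c + n)) by ring]
  exact X_dvd _ _ h _

theorem Ad_yt (a c : ℕ) : Ad fun n => yt a c n := fun n =>
  yt_dvd a c n n (by nlinarith [Nat.le_self_pow (two_ne_zero) n])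

theorem Y_rec (a c : ℕ) : Y a c = (1 - X ^ (2 * a + 1)) * Y (a + 1) c := by
  have hs : Ad fun n => yt a c n * (1 - X ^ (2 * n)) := fun n => (Ad_yt a c n).mul_right _
  have h1 := SS_tele hs
  have h2 : ∀ n, yt a c n * (1 - X ^ (2 * n)) - yt a c (n + 1) * (1 - X ^ (2 * (n + 1))) =
      yt a c n - (1 - X ^ (2 * a + 1)) * yt (a + 1) c n := by
    intro n
    have e1 := V_succ (show 1 ≤ 2 by norm_num) n
    have e2 := V_succ (show 1 ≤ 2 by norm_num) (a + c + n)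
    unfold yt
    rw [show a + c + (n + 1) = a + c + n + 1 by ring, show a + 1 + c + n = a + c + n + 1 by ring,
      O_succ, ← e1, ← e2]
    ring
  rw [SS_congr h2, SS_sub, SS_mul (Ad_yt _ _)] at h1
  rw [mul_zero, pow_zero, sub_self, mul_zero] at h1
  rw [Y, Y]
  linear_combination h1

theorem Y_iter (c m : ℕ) : Y 0 c = O 0 m * Y m c := by
  induction m with
  | zero => rw [O_zero, one_mul]
  | succ m ih =>
    rw [ih, Y_rec m c, O_succ]
    rw [show 2 * 0 + 1 + 2 * m = 2 * m + 1 by ring]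
    ring

theorem Y_dvd (a c : ℕ) : X ^ (2 * a + 1) ∣ Y a c - V 2 (a + c) := by
  rw [Y, SS_shift (Ad_yt a c)]
  have : yt a c 0 = V 2 (a + c) := by
    unfold yt
    simp [O_zero, V_zero]
  rw [this, add_sub_cancel_left]
  exact SS_dvd fun n => yt_dvd _ _ _ _ (by nlinarith)

/-- `κ = (q; q^2)_∞ / (q^2; q^2)_∞` -/
noncomputable def kap : ℤ⟦X⟧ := Y 0 0

theorem P_dvd (c m d : ℕ) : X ^ (c * (m + 1)) ∣ P c (m + d) - P c m := by
  induction d with
  | zero => simp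
  | succ d ih =>
    rw [← add_assoc, P_succ]
    have : P c (m + d) * (1 - X ^ (c * (m + d + 1))) - P c m =
      (P c (m + d) - P c m) - X ^ (c * (m + d + 1)) * P c (m + d) := by ring
    rw [this]
    exact dvd_sub ih (X_dvd _ _ (Nat.mul_le_mul_left c (by omega)) _)

theorem V_dvd (m d : ℕ) : X ^ (2 * (m + 1)) ∣ V 2 (m + d) - V 2 m := by
  have h1 := P_mul_V (show 1 ≤ 2 by norm_num) m
  have h2 := P_mul_V (show 1 ≤ 2 by norm_num) (m + d)
  have : V 2 (m + d) - V 2 m = -(P 2 (m + d) - P 2 m) * (V 2 m * V 2 (m + d)) := by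
    linear_combination (V 2 m) * h2 - (V 2 (m + d)) * h1
  rw [this]
  exact (P_dvd 2 m d).neg_right.mul_right _

theorem eq_of_dvd {F H : ℤ⟦X⟧} (h : ∀ K : ℕ, X ^ K ∣ F - H) : F = H := by
  ext k
  have h2 := X_pow_dvd_iff.1 (h (k + 1)) k (Nat.lt_succ_self k)
  rwa [map_sub, sub_eq_zero] at h2

theorem Y_zero (c : ℕ) : Y 0 c = kap := by
  refine eq_of_dvd fun K => ?_
  rw [kap, Y_iter c K, Y_iter 0 K, ← mul_sub]
  refine Dvd.dvd.mul_left ?_ _
  have h1 := (pow_dvd_pow (X : ℤ⟦X⟧) (show K ≤ 2 * K + 1 by omega)).trans (Y_dvd K c)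
  have h2 := (pow_dvd_pow (X : ℤ⟦X⟧) (show K ≤ 2 * K + 1 by omega)).trans (Y_dvd K 0)
  have h3 := (pow_dvd_pow (X : ℤ⟦X⟧) (show K ≤ 2 * (K + 1) by omega)).trans (V_dvd K c)
  rw [add_zero] at h2
  have : Y K c - Y K 0 = (Y K c - V 2 (K + c)) + (V 2 (K + c) - V 2 K) - (Y K 0 - V 2 K) := by ring
  rw [this]
  exact dvd_sub (dvd_add h1 h3) h2

/-- the two evaluations needed -/
theorem sumU (j : ℕ) : O 0 (j + 1) * Y j (j + 1) = (1 - X ^ (2 * j + 1)) * kap := by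
  rw [← Y_zero (j + 1), Y_iter (j + 1) j, O_succ]
  rw [show 2 * 0 + 1 + 2 * j = 2 * j + 1 by ring]
  ring

theorem sumW (j : ℕ) : O 0 (j + 1) * Y (j + 1) (j + 1) = kap := by
  rw [← Y_zero (j + 1), Y_iter (j + 1) (j + 1)]

end Q266.CF
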