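import Pool.Agent.Q266.CF2

/-!
# Product facts
-/

set_option autoImplicit false

namespace Q266.CF

open PowerSeries Q279.QS Filter Topology
open scoped PowerSeries.WithPiTopology

/-- `(-q; q)_n` -/
noncomputable def M (n : ℕ) : ℤ⟦X⟧ := ∏ i ∈ Finset.range n, (1 + X ^ (i + 1))

theorem M_succ (n : ℕ) : M (n + 1) = M n * (1 + X ^ (n + 1)) := by
  rw [M, Finset.prod_range_succ, M]

theorem Eu_one (m : ℕ) : Eu 1 = M m * Eu (m + 1) := by
  induction m with
  | zero => simp [M]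
  | succ m ih =>
    rw [ih, Eu_rec (show 1 ≤ m + 1 by omega), M_succ]
    ring

theorem P_two (m : ℕ) : P 2 m = M m * P 1 m := by
  induction m with
  | zero => simp [M, P]
  | succ m ih =>
    rw [P_succ, P_succ, M_succ, ih]
    ring

theorem P_even (m : ℕ) : P 1 (2 * m) = O 0 m * P 2 m := by
  induction m with
  | zero => simp [O, P]
  | succ m ih =>
    rw [show 2 * (m + 1) = 2 * m + 1 + 1 by ring, P_succ, P_succ, ih, P_succ, O_succ]
    rw [show 1 * (2 * m + 1) = 2 * 0 + 1 + 2 * m by ring,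
      show 1 * (2 * m + 1 + 1) = 2 * (m + 1) by ring]
    ring

theorem eul_dvd (c m : ℕ) (hc : 1 ≤ c) : X ^ (c * (m + 1)) ∣ eul c - P c m := by
  rw [X_pow_dvd_iff]
  intro k hk
  obtain ⟨N, h1, h2⟩ := ((eventually_coeff (mult_eul c hc) k).and (eventually_ge_atTop m)).exists
  obtain ⟨d, rfl⟩ := Nat.exists_eq_add_of_le h2
  have h3 := X_pow_dvd_iff.1 (P_dvd c m d) k hk
  rw [map_sub, sub_eq_zero] at h3 ⊢
  rw [eul, ← h1, ← h3, P]

theorem kap_mul : Eu 1 * kap * eul 2 = 1 := by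
  refine eq_of_dvd fun K => ?_
  have h1 : (X : ℤ⟦X⟧) ^ K ∣ Eu (2 * K + 1) - 1 :=
    (pow_dvd_pow X (by omega)).trans (Eu_dvd (by omega))
  have h2 : (X : ℤ⟦X⟧) ^ K ∣ Y K 0 - V 2 K := by
    have := (pow_dvd_pow (X : ℤ⟦X⟧) (show K ≤ 2 * K + 1 by omega)).trans (Y_dvd K 0)
    rwa [add_zero] at this
  have h3 : (X : ℤ⟦X⟧) ^ K ∣ eul 2 - P 2 K :=
    (pow_dvd_pow X (by omega)).trans (eul_dvd 2 K (by norm_num))
  have h4 : (X : ℤ⟦X⟧) ^ K ∣ P 2 (K + K) - P 2 K :=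
    (pow_dvd_pow X (by omega)).trans (P_dvd 2 K K)
  have e1 := Eu_one (2 * K)
  have e2 : kap = O 0 K * Y K 0 := Y_iter 0 K
  have e3 := P_mul_V (show 1 ≤ 2 by norm_num) K
  have e4 : P 2 (K + K) = M (2 * K) * (O 0 K * P 2 K) := by
    rw [← two_mul, P_two, P_even]
  obtain ⟨a, ha⟩ := h1
  obtain ⟨b, hb⟩ := h2
  obtain ⟨c, hc⟩ := h3
  obtain ⟨d, hd⟩ := h4
  have ha' : Eu (2 * K + 1) = 1 + X ^ K * a := by linear_combination ha
  have hb' : Y K 0 = V 2 K + X ^ K * b := by linear_combination hb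
  have hc' : eul 2 = P 2 K + X ^ K * c := by linear_combination hc
  have hd' : M (2 * K) * O 0 K = 1 + X ^ K * (d * V 2 K) := by
    have : M (2 * K) * O 0 K * (P 2 K * V 2 K) = (P 2 K + X ^ K * d) * V 2 K := by
      have : P 2 K + X ^ K * d = P 2 (K + K) := by linear_combination -hd
      rw [this, e4]; ring
    rw [e3, mul_one] at this
    rw [this]
    linear_combination e3
  refine ⟨(M (2 * K) * O 0 K) * (a * (V 2 K + X ^ K * b) * (P 2 K + X ^ K * c)
    + b * (P 2 K + X ^ K * c) + V 2 K * c) + d * V 2 K, ?_⟩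
  rw [e1, e2, ha', hb', hc']
  linear_combination hd' + (M (2 * K) * O 0 K) * e3

end Q266.CF
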