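import Mathlib

/-!
# A finite identity behind the quadruple sum

In a field, with `W z = 1/(Q;Q)_z` (and `0` for negative `z`), `U l = 1/(Q^2;Q^2)_l`,
`b N = ∑_l Q^{2l²+2l} W(N-2l) U(l)` and
`D N = ∑_m Q^{m(15m+7)/2} (1-Q^{3m+1}) W(N-3m) W(N+3m+2)` one has
`b N (Q;Q)_{N+1} = (Q;Q)_{2N+2} D N`.
-/

set_option autoImplicit false

namespace Q266.CF

section

variable {K : Type*} [Field K] {Q : K} {W : ℤ → K} {U : ℕ → K}

theorem W_neg (hW : ∀ z, W (z - 1) = (1 - Q ^ z) * W z) {z : ℤ} (hz : z < 0) : W z = 0 := by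
  have h : ∀ n : ℕ, W (-(n : ℤ) - 1) = 0 := by
    intro n
    induction n with
    | zero => rw [hW]; simp
    | succ n ih =>
      rw [hW, show (-((n + 1 : ℕ) : ℤ)) = -(n : ℤ) - 1 by push_cast; ring, ih, mul_zero]
  have h2 := h (-z - 1).toNat
  rwa [show -(((-z - 1).toNat : ℕ) : ℤ) - 1 = z by omega] at h2

/-- `b` -/
def bb (Q : K) (W : ℤ → K) (U : ℕ → K) (B : ℕ) (N : ℤ) : K :=
  ∑ l ∈ Finset.range B, Q ^ (2 * l ^ 2 + 2 * l) * W (N - 2 * l) * U l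

theorem bb_rec (hQ : Q ≠ 0) (hW : ∀ z, W (z - 1) = (1 - Q ^ z) * W z)
    (hU : ∀ n : ℕ, (1 - Q ^ (2 * (n + 1))) * U (n + 1) = U n) (B : ℕ) (N : ℤ) (hN : N < 2 * (B + 1)) :
    (1 - Q ^ N) * bb Q W U (B + 1) N = (1 + Q - Q ^ N) * bb Q W U (B + 1) (N - 1)
      - (Q - (Q ^ N) ^ 2) * bb Q W U (B + 1) (N - 2) := by
  set f : ℕ → K := fun l => (1 - Q ^ N) * (Q ^ (2 * l ^ 2 + 2 * l) * W (N - 2 * l) * U l)
    - (1 + Q - Q ^ N) * (Q ^ (2 * l ^ 2 + 2 * l) * W (N - 1 - 2 * l) * U l)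
    + Q * (Q ^ (2 * l ^ 2 + 2 * l) * W (N - 2 - 2 * l) * U l) with hf
  have h1 : ∀ l : ℕ, f l = Q ^ (2 * l ^ 2 + 2 * l) * W (N - 2 * l) * (Q ^ (N - 2 * l)) ^ 2 *
      ((1 - Q ^ (2 * l)) * U l) := by
    intro l
    have w1 : W (N - 1 - 2 * l) = (1 - Q ^ (N - 2 * l)) * W (N - 2 * l) := by
      rw [← hW]; congr 1; ring
    have w2 : W (N - 2 - 2 * l) = (1 - Q ^ (N - 2 * l) / Q) * W (N - 1 - 2 * l) := by
      rw [show N - 2 - 2 * (l : ℤ) = N - 1 - 2 * l - 1 by ring, hW]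
      rw [show N - 1 - 2 * (l : ℤ) = N - 2 * l - 1 by ring, zpow_sub_one₀ hQ]
      rw [div_eq_mul_inv]
    have w3 : Q ^ N = Q ^ (N - 2 * l) * Q ^ (2 * l) := by
      rw [← zpow_natCast, ← zpow_add₀ hQ]; congr 1; push_cast; ring
    simp only [hf]
    rw [w2, w1, w3]
    field_simp
    ring
  have h2 : f 0 = 0 := by rw [h1]; simp
  have h3 : ∀ l : ℕ, f (l + 1) = (Q ^ N) ^ 2 * (Q ^ (2 * l ^ 2 + 2 * l) * W (N - 2 - 2 * l) * U l) := by
    intro l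
    have w3 : Q ^ N = Q ^ (N - 2 * ((l + 1 : ℕ) : ℤ)) * Q ^ (2 * (l + 1)) := by
      rw [← zpow_natCast, ← zpow_add₀ hQ]; congr 1; push_cast; ring
    rw [h1, hU, w3, show N - 2 - 2 * (l : ℤ) = N - 2 * ((l + 1 : ℕ) : ℤ) by push_cast; ring]
    ring
  have h4 : ∑ l ∈ Finset.range (B + 1), f l = (Q ^ N) ^ 2 * bb Q W U (B + 1) (N - 2) := by
    rw [Finset.sum_range_succ', h2, add_zero, bb, Finset.mul_sum, Finset.sum_range_succ]
    have : W (N - 2 - 2 * (B : ℤ)) = 0 := W_neg hW (by omega)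
    rw [this, mul_zero, zero_mul, mul_zero, add_zero]
    exact Finset.sum_congr rfl fun l _ => h3 l
  have h5 : ∑ l ∈ Finset.range (B + 1), f l = (1 - Q ^ N) * bb Q W U (B + 1) N
      - (1 + Q - Q ^ N) * bb Q W U (B + 1) (N - 1) + Q * bb Q W U (B + 1) (N - 2) := by
    simp only [hf, bb, Finset.sum_add_distrib, Finset.sum_sub_distrib, Finset.mul_sum]
  linear_combination h4 - h5

/-- the exponents `m(15m+7)/2` -/
def ex (m : ℤ) : ℤ := m * (15 * m + 7) / 2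

theorem two_ex (m : ℤ) : 2 * ex m = m * (15 * m + 7) := by
  unfold ex
  refine Int.mul_ediv_cancel' ?_
  rcases Int.even_or_odd' m with ⟨k, rfl | rfl⟩
  · exact ⟨k * (15 * (2 * k) + 7), by ring⟩
  · exact ⟨(2 * k + 1) * (15 * k + 11), by ring⟩

/-- the summand of `D` -/
def hh (Q : K) (W : ℤ → K) (N m : ℤ) : K :=
  Q ^ ex m * (1 - Q ^ (3 * m + 1)) * W (N - 3 * m) * W (N + 3 * m + 2)

/-- `D` -/
def DD (Q : K) (W : ℤ → K) (B : ℕ) (N : ℤ) : K :=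
  ∑ k ∈ Finset.range (2 * B + 1), hh Q W N (-B + k)

/-- the certificate -/
def gg (Q : K) (W : ℤ → K) (N m : ℤ) : K :=
  -((Q ^ N) ^ 2 * (Q ^ (3 * m))⁻¹ ^ 2 * Q ^ ex m * W (N - 3 * m) * W (N + 3 * m - 1))

theorem cert (hQ : Q ≠ 0) (hW : ∀ z, W (z - 1) = (1 - Q ^ z) * W z) (N m : ℤ) :
    (1 - (Q ^ N) ^ 2) * (1 - Q * (Q ^ N) ^ 2) * (1 + Q * Q ^ N) * hh Q W N m
      - (1 + Q - Q ^ N) * (1 + Q ^ N) * hh Q W (N - 1) m + Q * hh Q W (N - 2) m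
    = gg Q W N (m + 1) - gg Q W N m := by
  have hx : Q ^ N ≠ 0 := zpow_ne_zero _ hQ
  have hy : Q ^ (3 * m) ≠ 0 := zpow_ne_zero _ hQ
  -- the powers
  have p1 : Q ^ (3 * m + 1) = Q ^ (3 * m) * Q := by rw [zpow_add_one₀ hQ]
  have p2 : Q ^ (3 * (m + 1)) = Q ^ (3 * m) * Q ^ 3 := by
    rw [← zpow_natCast Q 3, ← zpow_add₀ hQ]; congr 1; push_cast; ring
  have p3 : Q ^ ex (m + 1) = Q ^ ex m * (Q ^ (3 * m)) ^ 5 * Q ^ 11 := by
    rw [← zpow_natCast Q 11, ← zpow_natCast _ 5, ← zpow_mul, ← zpow_add₀ hQ, ← zpow_add₀ hQ]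
    congr 1
    have h1 := two_ex m
    have h2 := two_ex (m + 1)
    push_cast
    linarith
  -- the values of `W`
  have w1 : W (N - 1 - 3 * m) = (1 - Q ^ N / Q ^ (3 * m)) * W (N - 3 * m) := by
    rw [show N - 1 - 3 * m = N - 3 * m - 1 by ring, hW, zpow_sub₀ hQ]
  have w2 : W (N - 2 - 3 * m) = (1 - Q ^ N / Q ^ (3 * m) / Q) * W (N - 1 - 3 * m) := by
    rw [show N - 2 - 3 * m = N - 1 - 3 * m - 1 by ring, hW]
    rw [show N - 1 - 3 * m = N - 3 * m - 1 by ring, zpow_sub_one₀ hQ, zpow_sub₀ hQ, div_eq_mul_inv _ Q]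
  have w3 : W (N - 3 * (m + 1)) = (1 - Q ^ N / Q ^ (3 * m) / Q ^ 2) * W (N - 2 - 3 * m) := by
    rw [show N - 3 * (m + 1) = N - 2 - 3 * m - 1 by ring, hW]
    rw [show N - 2 - 3 * m = N - 3 * m - (2 : ℕ) by push_cast; ring, zpow_sub₀ hQ, zpow_sub₀ hQ,
      zpow_natCast]
  have v1 : W (N - 1 + 3 * m + 2) = (1 - Q ^ N * Q ^ (3 * m) * Q ^ 2) * W (N + 3 * m + 2) := by
    rw [show N - 1 + 3 * m + 2 = N + 3 * m + 2 - 1 by ring, hW]
    rw [show N + 3 * m + 2 = N + 3 * m + (2 : ℕ) by push_cast; ring, zpow_add₀ hQ, zpow_add₀ hQ,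
      zpow_natCast]
  have v2 : W (N - 2 + 3 * m + 2) = (1 - Q ^ N * Q ^ (3 * m) * Q) * W (N - 1 + 3 * m + 2) := by
    rw [show N - 2 + 3 * m + 2 = N - 1 + 3 * m + 2 - 1 by ring, hW]
    rw [show N - 1 + 3 * m + 2 = N + 3 * m + 1 by ring, zpow_add_one₀ hQ, zpow_add₀ hQ]
  have v3 : W (N + 3 * m - 1) = (1 - Q ^ N * Q ^ (3 * m)) * W (N - 2 + 3 * m + 2) := by
    rw [show N - 2 + 3 * m + 2 = N + 3 * m by ring, hW, zpow_add₀ hQ]
  have v4 : W (N + 3 * (m + 1) - 1) = W (N + 3 * m + 2) := by congr 1; ring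
  unfold hh gg
  rw [v4, v3, v2, v1, w3, w2, w1, p3, p2, p1]
  generalize Q ^ N = x at *
  generalize Q ^ (3 * m) = y at *
  field_simp
  ring

theorem DD_rec (hQ : Q ≠ 0) (hW : ∀ z, W (z - 1) = (1 - Q ^ z) * W z) (B : ℕ) (N : ℤ) (hN : N ≤ B) :
    (1 - (Q ^ N) ^ 2) * (1 - Q * (Q ^ N) ^ 2) * (1 + Q * Q ^ N) * DD Q W B N
      - (1 + Q - Q ^ N) * (1 + Q ^ N) * DD Q W B (N - 1) + Q * DD Q W B (N - 2) = 0 := by
  have h1 : (1 - (Q ^ N) ^ 2) * (1 - Q * (Q ^ N) ^ 2) * (1 + Q * Q ^ N) * DD Q W B N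
      - (1 + Q - Q ^ N) * (1 + Q ^ N) * DD Q W B (N - 1) + Q * DD Q W B (N - 2) =
      ∑ k ∈ Finset.range (2 * B + 1), (gg Q W N (-B + (k + 1 : ℕ)) - gg Q W N (-B + k)) := by
    simp only [DD, Finset.mul_sum, ← Finset.sum_add_distrib, ← Finset.sum_sub_distrib]
    refine Finset.sum_congr rfl fun k _ => ?_
    rw [cert hQ hW]
    congr 2
    push_cast
    ring
  rw [h1, Finset.sum_range_sub (fun k : ℕ => gg Q W N (-B + k))]
  have e1 : gg Q W N (-B + ((2 * B + 1 : ℕ) : ℤ)) = 0 := by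
    unfold gg
    rw [W_neg hW (z := N - 3 * (-B + ((2 * B + 1 : ℕ) : ℤ))) (by push_cast; omega)]
    ring
  have e2 : gg Q W N (-B + ((0 : ℕ) : ℤ)) = 0 := by
    unfold gg
    rw [W_neg hW (z := N + 3 * (-B + ((0 : ℕ) : ℤ)) - 1) (by push_cast; omega)]
    ring
  rw [e1, e2, sub_zero]

/-- the product `(Q;Q)_n` -/
def PK (Q : K) (n : ℕ) : K := ∏ j ∈ Finset.range n, (1 - Q ^ (j + 1))

theorem PK_succ (n : ℕ) : PK Q (n + 1) = PK Q n * (1 - Q ^ (n + 1)) := by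
  rw [PK, Finset.prod_range_succ, PK]

theorem fin_id (hQ : Q ≠ 0) (hg : ∀ n : ℕ, 1 - Q ^ (n + 1) ≠ 0)
    (hW : ∀ z, W (z - 1) = (1 - Q ^ z) * W z) (hW0 : W 0 = 1) (hU0 : U 0 = 1)
    (hU : ∀ n : ℕ, (1 - Q ^ (2 * (n + 1))) * U (n + 1) = U n) (B : ℕ) :
    ∀ n : ℕ, n ≤ B + 1 →
      bb Q W U (B + 1) ((n : ℤ) - 1) * PK Q n = PK Q (2 * n) * DD Q W B ((n : ℤ) - 1) := by
  have hb0 : bb Q W U (B + 1) (-1) = 0 := by
    refine Finset.sum_eq_zero fun l _ => ?_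
    rw [W_neg hW (z := -1 - 2 * (l : ℤ)) (by omega)]
    ring
  have hb1 : bb Q W U (B + 1) 0 = 1 := by
    rw [bb, Finset.sum_range_succ']
    rw [Finset.sum_eq_zero]
    · simp [hW0, hU0]
    · intro l _
      rw [W_neg hW (z := 0 - 2 * ((l + 1 : ℕ) : ℤ)) (by push_cast; omega)]
      ring
  have hd0 : DD Q W B (-1) = 0 := by
    refine Finset.sum_eq_zero fun k _ => ?_
    unfold hh
    generalize -(B : ℤ) + k = m
    rcases lt_or_ge m 0 with h | h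
    · rw [W_neg hW (z := -1 + 3 * m + 2) (by omega)]; ring
    · rw [W_neg hW (z := -1 - 3 * m) (by omega)]; ring
  have hd1 : DD Q W B 0 = (1 - Q) * W 2 := by
    rw [DD, Finset.sum_eq_single B]
    · rw [neg_add_cancel]
      unfold hh
      simp [hW0, ex]
    · intro k _ hk
      unfold hh
      have h3 : -(B : ℤ) + k ≠ 0 := by omega
      generalize -(B : ℤ) + k = m at h3 ⊢
      rcases lt_or_ge m 0 with h | h
      · rw [W_neg hW (z := 0 + 3 * m + 2) (by omega)]; ring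
      · rw [W_neg hW (z := 0 - 3 * m) (by omega)]; ring
    · intro h
      exact absurd (Finset.mem_range.2 (by omega)) h
  have hw1 : (1 - Q) * W 1 = 1 := by
    have := hW 1
    rw [sub_self, hW0, zpow_one] at this
    exact this.symm
  have hw2 : (1 - Q ^ 2) * W 2 = W 1 := by
    have := hW 2
    rw [show (2 : ℤ) - 1 = 1 by norm_num] at this
    rw [this]
    norm_cast
  have key : ∀ n : ℕ, (n ≤ B + 1 →
      bb Q W U (B + 1) ((n : ℤ) - 1) * PK Q n = PK Q (2 * n) * DD Q W B ((n : ℤ) - 1)) ∧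
      (n + 1 ≤ B + 1 → bb Q W U (B + 1) (((n + 1 : ℕ) : ℤ) - 1) * PK Q (n + 1) =
        PK Q (2 * (n + 1)) * DD Q W B (((n + 1 : ℕ) : ℤ) - 1)) := by
    intro n
    induction n with
    | zero =>
      constructor
      · intro _
        rw [Nat.cast_zero, zero_sub, hb0, hd0]; ring
      · intro _
        rw [show (((0 + 1 : ℕ) : ℤ) - 1) = 0 by norm_num, hb1, hd1]
        simp only [PK, Finset.prod_range_succ, Finset.prod_range_zero]
        linear_combination -(1 - Q) ^ 2 * hw2 - (1 - Q) * hw1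
    | succ n ih =>
      refine ⟨ih.2, fun hn => ?_⟩
      have i1 := ih.1 (by omega)
      have i2 := ih.2 (by omega)
      have r1 := bb_rec hQ hW hU B ((n : ℤ) + 1) (by omega)
      have r2 := DD_rec hQ hW B ((n : ℤ) + 1) (by omega)
      rw [show (n : ℤ) + 1 - 1 = n by ring, show (n : ℤ) + 1 - 2 = n - 1 by ring] at r1 r2
      rw [show ((n + 1 : ℕ) : ℤ) - 1 = n by push_cast; ring] at i2
      rw [show ((n + 1 + 1 : ℕ) : ℤ) - 1 = (n : ℤ) + 1 by push_cast; ring]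
      have hx : Q ^ ((n : ℤ) + 1) = Q ^ (n + 1) := by
        rw [← zpow_natCast Q (n + 1)]; congr 1
      rw [hx] at r1 r2
      have q1 : PK Q (n + 1) = PK Q n * (1 - Q ^ (n + 1)) := PK_succ n
      have q2 : PK Q (n + 1 + 1) = PK Q n * (1 - Q ^ (n + 1)) * (1 - Q * Q ^ (n + 1)) := by
        rw [PK_succ, q1]; ring
      have q3 : Q * PK Q (2 * (n + 1)) = PK Q (2 * n) * (Q - (Q ^ (n + 1)) ^ 2) *
          (1 - (Q ^ (n + 1)) ^ 2) := by
        rw [show 2 * (n + 1) = 2 * n + 1 + 1 by ring, PK_succ, PK_succ]; ring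
      have q4 : PK Q (2 * (n + 1 + 1)) = PK Q (2 * (n + 1)) * (1 - Q * (Q ^ (n + 1)) ^ 2) *
          (1 - Q ^ 2 * (Q ^ (n + 1)) ^ 2) := by
        rw [show 2 * (n + 1 + 1) = 2 * (n + 1) + 1 + 1 by ring, PK_succ, PK_succ]; ring
      have hne : 1 - (Q ^ (n + 1)) ^ 2 ≠ 0 := by
        rw [← pow_mul, show (n + 1) * 2 = 2 * n + 1 + 1 by ring]; exact hg _
      refine mul_left_cancel₀ (mul_ne_zero hne hQ) ?_
      rw [q1] at i2
      rw [q2, q4]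
      generalize Q ^ (n + 1) = x at *
      generalize bb Q W U (B + 1) ((n : ℤ) + 1) = b2 at *
      generalize bb Q W U (B + 1) (n : ℤ) = b1 at *
      generalize bb Q W U (B + 1) ((n : ℤ) - 1) = b0 at *
      generalize DD Q W B ((n : ℤ) + 1) = d2 at *
      generalize DD Q W B (n : ℤ) = d1 at *
      generalize DD Q W B ((n : ℤ) - 1) = d0 at *
      generalize PK Q (2 * (n + 1)) = p2 at *
      generalize PK Q (2 * n) = p1 at *
      generalize PK Q n = p0 at *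
      linear_combination Q * p0 * (1 - x) * (1 - Q * x) * (1 + x) * r1
        + Q * (1 - Q * x) * (1 + Q - x) * (1 + x) * i2
        - Q * (1 - Q * x) * (1 - x ^ 2) * (Q - x ^ 2) * i1 - Q * p2 * (1 - Q * x) * r2
        + Q * (1 - Q * x) * d0 * q3
  exact fun n => (key n).1

end

end Q266.CF
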