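import Pool.Agent.Q266.CF3
import Pool.Agent.Q266.CF4

/-!
# The finite identity over power series
-/

set_option autoImplicit false

namespace Q266.CF

open PowerSeries Q279.QS

/-- the coefficients `α_r` -/
noncomputable def a0 (r : ℕ) : ℤ⟦X⟧ :=
  if r % 3 = 0 then X ^ (15 * (r / 3) ^ 2 + 7 * (r / 3))
  else if r % 3 = 1 then -X ^ (15 * (r / 3) ^ 2 + 17 * (r / 3) + 4) else 0

theorem a0_zero (m : ℕ) : a0 (3 * m) = X ^ (15 * m ^ 2 + 7 * m) := by
  unfold a0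
  rw [if_pos (by omega), show 3 * m / 3 = m by omega]

theorem a0_one (m : ℕ) : a0 (3 * m + 1) = -X ^ (15 * m ^ 2 + 17 * m + 4) := by
  unfold a0
  rw [if_neg (by omega), if_pos (by omega), show (3 * m + 1) / 3 = m by omega]

theorem a0_two (m : ℕ) : a0 (3 * m + 2) = 0 := by
  unfold a0
  rw [if_neg (by omega), if_neg (by omega)]

/-- `b_L = ∑_l q^{4l²+4l} / ((q²;q²)_{L-2l} (q⁴;q⁴)_l)` -/
noncomputable def b (L : ℕ) : ℤ⟦X⟧ :=
  ∑ l ∈ Finset.range (L / 2 + 1), X ^ (4 * l ^ 2 + 4 * l) * (V 2 (L - 2 * l) * V 4 l)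

/-- the other side -/
noncomputable def sB (L : ℕ) : ℤ⟦X⟧ :=
  ∑ r ∈ Finset.range (L + 1), (1 - X ^ (2 * r + 2)) * a0 r * (V 2 (L - r) * V 2 (L + r + 2))

abbrev FK := FractionRing ℤ⟦X⟧

noncomputable def ph : ℤ⟦X⟧ →+* FK := algebraMap _ _

theorem ph_inj : Function.Injective ph := IsFractionRing.injective ℤ⟦X⟧ FK

noncomputable def WK (z : ℤ) : FK := if z < 0 then 0 else ph (V 2 z.toNat)

theorem WK_nat (n : ℕ) : WK n = ph (V 2 n) := by
  unfold WK
  rw [if_neg (by omega), Int.toNat_natCast]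

theorem WK_neg {z : ℤ} (h : z < 0) : WK z = 0 := if_pos h

theorem phX : ph X ≠ 0 := by
  rw [← map_zero ph]
  exact fun h => X_ne_zero (ph_inj h)

theorem hWK (z : ℤ) : WK (z - 1) = (1 - (ph X ^ 2) ^ z) * WK z := by
  rcases lt_trichotomy z 0 with h | h | h
  · rw [WK_neg h, WK_neg (by omega), mul_zero]
  · subst h
    rw [WK_neg (by norm_num), zpow_zero, sub_self, zero_mul]
  · obtain ⟨n, rfl⟩ : ∃ n : ℕ, z = ((n + 1 : ℕ) : ℤ) := ⟨(z - 1).toNat, by omega⟩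
    rw [show (((n + 1 : ℕ) : ℤ) - 1) = (n : ℤ) by push_cast; ring, WK_nat, WK_nat, zpow_natCast,
      ← V_succ (show 1 ≤ 2 by norm_num) n, map_mul, map_sub, map_one, map_pow, ← pow_mul]

theorem phQ (n : ℕ) : 1 - (ph X ^ 2) ^ (n + 1) ≠ 0 := by
  have h1 : (1 - X ^ (2 * (n + 1)) : ℤ⟦X⟧) ≠ 0 := by
    intro h
    have := congrArg constantCoeff h
    rw [map_sub, map_one, map_pow, constantCoeff_X, zero_pow (by positivity), sub_zero, map_zero] at this
    exact one_ne_zero this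
  have h2 : 1 - (ph X ^ 2) ^ (n + 1) = ph (1 - X ^ (2 * (n + 1))) := by
    rw [map_sub, map_one, map_pow, ← pow_mul]
  rw [h2, ← map_zero ph]
  exact fun h => h1 (ph_inj h)

theorem zp (z : ℤ) : (ph X ^ 2) ^ z = ph X ^ (2 * z) := by
  rw [← zpow_natCast (ph X) 2, ← zpow_mul]; rfl

theorem hh_nat (L : ℤ) (m : ℕ) : hh (ph X ^ 2) WK L m =
    ph ((1 - X ^ (2 * (3 * m) + 2)) * a0 (3 * m)) * (WK (L - ((3 * m : ℕ) : ℤ)) *
      WK (L + ((3 * m : ℕ) : ℤ) + 2)) := by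
  unfold hh
  rw [zp, zp, two_ex, a0_zero, map_mul, map_sub, map_one, map_pow, map_pow,
    show (m : ℤ) * (15 * m + 7) = ((15 * m ^ 2 + 7 * m : ℕ) : ℤ) by push_cast; ring,
    show (2 : ℤ) * (3 * m + 1) = ((2 * (3 * m) + 2 : ℕ) : ℤ) by push_cast; ring,
    zpow_natCast, zpow_natCast]
  push_cast
  ring

theorem hh_neg (L : ℤ) (m : ℕ) : hh (ph X ^ 2) WK L (-1 - m) =
    ph ((1 - X ^ (2 * (3 * m + 1) + 2)) * a0 (3 * m + 1)) * (WK (L - ((3 * m + 1 : ℕ) : ℤ)) *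
      WK (L + ((3 * m + 1 : ℕ) : ℤ) + 2)) := by
  unfold hh
  have h0 := phX
  rw [zp, zp, two_ex, a0_one, map_mul, map_sub, map_one, map_neg, map_pow, map_pow]
  have e1 : ph X ^ ((-1 - (m : ℤ)) * (15 * (-1 - m) + 7)) =
      ph X ^ (15 * m ^ 2 + 17 * m + 4) * ph X ^ (2 * (3 * m + 1) + 2) := by
    rw [← pow_add, ← zpow_natCast (ph X) (15 * m ^ 2 + 17 * m + 4 + (2 * (3 * m + 1) + 2))]
    congr 1
    push_cast
    ring
  have e2 : ph X ^ (2 * (3 * (-1 - (m : ℤ)) + 1)) = (ph X ^ (2 * (3 * m + 1) + 2))⁻¹ := by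
    rw [← zpow_natCast (ph X) (2 * (3 * m + 1) + 2), ← zpow_neg]
    congr 1
    push_cast
    ring
  have e3 : L - 3 * (-1 - (m : ℤ)) = L + ((3 * m + 1 : ℕ) : ℤ) + 2 := by push_cast; ring
  have e4 : L + 3 * (-1 - (m : ℤ)) + 2 = L - ((3 * m + 1 : ℕ) : ℤ) := by push_cast; ring
  rw [e1, e2, e3, e4]
  field_simp
  ring

theorem DD_eq (L : ℕ) : DD (ph X ^ 2) WK L L = ph (sB L) := by
  set ρ : ℕ → FK := fun r => ph ((1 - X ^ (2 * r + 2)) * a0 r) * (WK ((L : ℤ) - (r : ℤ)) *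
      WK ((L : ℤ) + (r : ℤ) + 2)) with hρ
  have h1 : DD (ph X ^ 2) WK L L = ∑ m ∈ Finset.range (L + 1), (ρ (3 * m) + ρ (3 * m + 1) + ρ (3 * m + 2)) := by
    rw [DD, show 2 * L + 1 = L + (L + 1) by ring, Finset.sum_range_add]
    have e1 : ∑ k ∈ Finset.range L, hh (ph X ^ 2) WK L (-(L : ℤ) + k) =
        ∑ k ∈ Finset.range (L + 1), hh (ph X ^ 2) WK L (-1 - k) := by
      rw [Finset.sum_range_succ, ← Finset.sum_range_reflect]
      have : hh (ph X ^ 2) WK L (-1 - L) = 0 := by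
        rw [hh_neg, WK_neg (z := (L : ℤ) - ((3 * L + 1 : ℕ) : ℤ)) (by push_cast; omega)]
        ring
      rw [this, add_zero]
      refine Finset.sum_congr rfl fun k hk => ?_
      rw [Finset.mem_range] at hk
      congr 1
      omega
    have e2 : ∑ k ∈ Finset.range (L + 1), hh (ph X ^ 2) WK L (-(L : ℤ) + ((L + k : ℕ) : ℤ)) =
        ∑ k ∈ Finset.range (L + 1), hh (ph X ^ 2) WK L k := by
      refine Finset.sum_congr rfl fun k _ => ?_
      congr 1
      push_cast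
      ring
    rw [e1, e2, ← Finset.sum_add_distrib]
    refine Finset.sum_congr rfl fun m _ => ?_
    have e3 : ρ (3 * m + 2) = 0 := by
      simp only [hρ]
      rw [a0_two, mul_zero, map_zero, zero_mul]
    rw [e3, hh_nat, hh_neg]
    ring
  have h2 : ∀ B, ∑ m ∈ Finset.range B, (ρ (3 * m) + ρ (3 * m + 1) + ρ (3 * m + 2)) =
      ∑ r ∈ Finset.range (3 * B), ρ r := by
    intro B
    induction B with
    | zero => simp
    | succ B ih =>
      rw [Finset.sum_range_succ, ih, show 3 * (B + 1) = 3 * B + 1 + 1 + 1 by ring,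
        Finset.sum_range_succ, Finset.sum_range_succ, Finset.sum_range_succ]
      ring
  have h3 : ∑ r ∈ Finset.range (3 * (L + 1)), ρ r = ∑ r ∈ Finset.range (L + 1), ρ r := by
    symm
    refine Finset.sum_subset (fun r hr => ?_) fun r _ hr => ?_
    · rw [Finset.mem_range] at hr ⊢; omega
    · rw [Finset.mem_range, not_lt] at hr
      simp only [hρ]
      rw [WK_neg (z := (L : ℤ) - (r : ℤ)) (by omega)]
      ring
  rw [h1, h2, h3, sB, map_sum]
  refine Finset.sum_congr rfl fun r hr => ?_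
  rw [Finset.mem_range] at hr
  simp only [hρ]
  rw [show (L : ℤ) - (r : ℤ) = ((L - r : ℕ) : ℤ) by omega,
    show (L : ℤ) + (r : ℤ) + 2 = ((L + r + 2 : ℕ) : ℤ) by push_cast; ring, WK_nat, WK_nat]
  simp only [map_mul]

theorem bb_eq (L : ℕ) : bb (ph X ^ 2) WK (fun l => ph (V 4 l)) (L + 1) L = ph (b L) := by
  rw [bb, b, map_sum]
  have h1 : ∑ l ∈ Finset.range (L + 1), (ph X ^ 2) ^ (2 * l ^ 2 + 2 * l) *
      WK ((L : ℤ) - 2 * l) * ph (V 4 l) = ∑ l ∈ Finset.range (L / 2 + 1),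
      (ph X ^ 2) ^ (2 * l ^ 2 + 2 * l) * WK ((L : ℤ) - 2 * l) * ph (V 4 l) := by
    symm
    refine Finset.sum_subset (fun r hr => ?_) fun r _ hr => ?_
    · rw [Finset.mem_range] at hr ⊢; omega
    · rw [Finset.mem_range, not_lt] at hr
      rw [WK_neg (z := (L : ℤ) - 2 * r) (by omega)]
      ring
  rw [h1]
  refine Finset.sum_congr rfl fun l hl => ?_
  rw [Finset.mem_range] at hl
  rw [show (L : ℤ) - 2 * (l : ℤ) = ((L - 2 * l : ℕ) : ℤ) by omega, WK_nat]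
  simp only [map_mul, map_pow]
  rw [← pow_mul]
  ring

theorem PK_eq (n : ℕ) : PK (ph X ^ 2) n = ph (P 2 n) := by
  rw [PK, P, map_prod]
  refine Finset.prod_congr rfl fun j _ => ?_
  rw [map_sub, map_one, map_pow, ← pow_mul]

theorem b_eq (L : ℕ) : b L * P 2 (L + 1) = P 2 (2 * (L + 1)) * sB L := by
  have h := fin_id (Q := ph X ^ 2) (W := WK) (U := fun l => ph (V 4 l)) (pow_ne_zero _ phX) phQ hWK
    (by
      have := WK_nat 0
      rw [Nat.cast_zero] at this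
      rw [this, V_zero (by norm_num), map_one])
    (by simp only [V_zero (show 1 ≤ 4 by norm_num), map_one])
    (fun n => by
      rw [← V_succ (show 1 ≤ 4 by norm_num) n, map_mul, map_sub, map_one, map_pow, ← pow_mul]
      congr 3
      ring) L (L + 1) (le_refl _)
  rw [show (((L + 1 : ℕ) : ℤ) - 1) = (L : ℤ) by push_cast; ring, bb_eq, DD_eq, PK_eq, PK_eq,
    ← map_mul, ← map_mul] at h
  exact ph_inj h

/-- the key evaluation -/
theorem b_Eu (L : ℕ) : b L * Eu (2 * L + 3) = Eu 1 * (O 0 (L + 1) * sB L) := by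
  have h1 := b_eq L
  have h2 := Eu_one (2 * (L + 1))
  have h3 := P_two (2 * (L + 1))
  have h4 := P_even (L + 1)
  have h5 := P_mul_V (show 1 ≤ 2 by norm_num) (L + 1)
  rw [show 2 * (L + 1) + 1 = 2 * L + 3 by ring] at h2
  rw [h3, h4] at h1
  have h6 : (b L * Eu (2 * L + 3)) * P 2 (L + 1) = (Eu 1 * (O 0 (L + 1) * sB L)) * P 2 (L + 1) := by
    rw [h2]
    linear_combination Eu (2 * L + 3) * h1
  have h7 : (b L * Eu (2 * L + 3)) * P 2 (L + 1) * V 2 (L + 1) =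
    (Eu 1 * (O 0 (L + 1) * sB L)) * P 2 (L + 1) * V 2 (L + 1) := by rw [h6]
  linear_combination h7 - (b L * Eu (2 * L + 3) - Eu 1 * (O 0 (L + 1) * sB L)) * h5

end Q266.CF
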