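import Pool.Agent.Q266.CF5

/-!
# The quadruple sum as a theta series
-/

set_option autoImplicit false

namespace Q266.CF

open PowerSeries Q279.QS

/-- the exponents of the quadruple sum -/
def E4 (i j k l : ℕ) : ℕ :=
  2 * i.choose 2 + 4 * j.choose 2 + 2 * k.choose 2 + 16 * l.choose 2 + 2 * i * j + 2 * i * k +
    4 * i * l + 4 * j * k + 8 * j * l + 4 * k * l

theorem two_choose (n : ℕ) : 2 * n.choose 2 + n = n ^ 2 := by
  have h := two_c2 n
  have h2 : ((2 * n.choose 2 + n : ℕ) : ℤ) = ((n ^ 2 : ℕ) : ℤ) := by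
    push_cast
    linarith
  exact_mod_cast h2

theorem E4_eq (i j k l : ℕ) : E4 i j k l + (i + 5 * j + k + 12 * l) =
    (k ^ 2 + 8 * l ^ 2 + 4 * l + 4 * k * l) +
      (i ^ 2 + 2 * j ^ 2 + 2 * i * j + 3 * j + 2 * (k + 2 * l) * (i + 2 * j)) := by
  have h1 := two_choose i
  have h2 := two_choose j
  have h3 := two_choose k
  have h4 := two_choose l
  unfold E4
  nlinarith

/-- the terms of the quadruple sum -/
noncomputable def tm (i j k l : ℕ) : ℤ⟦X⟧ :=
  (-1) ^ k * X ^ (E4 i j k l + (i + 5 * j + k + 12 * l)) * (V 1 i * V 2 j * V 2 k * V 4 l)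

/-- the quadruple sum -/
noncomputable def F3 : ℤ⟦X⟧ := SS fun i => SS fun j => SS fun k => SS fun l => tm i j k l

/-- the outer terms -/
noncomputable def ut (k l : ℕ) : ℤ⟦X⟧ :=
  X ^ (k ^ 2 + 8 * l ^ 2 + 4 * l + 4 * k * l) * ((-1) ^ k * V 2 k * V 4 l)

theorem tm_eq (i j k l : ℕ) : tm i j k l = ut k l * gt (2 * (k + 2 * l)) i j := by
  unfold tm ut gt
  rw [E4_eq, pow_add]
  ring

theorem F3_one : F3 = SS fun k => SS fun l => ut k l * G (2 * (k + 2 * l)) := by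
  have h1 : F3 = SS fun k => SS fun l => SS fun i => SS fun j => tm i j k l := by
    calc F3 = SS fun i => SS fun k => SS fun j => SS fun l => tm i j k l :=
          SS_congr fun i => SS_comm fun j k => SS fun l => tm i j k l
      _ = SS fun k => SS fun i => SS fun j => SS fun l => tm i j k l :=
          SS_comm fun i k => SS fun j => SS fun l => tm i j k l
      _ = SS fun k => SS fun i => SS fun l => SS fun j => tm i j k l :=
          SS_congr fun k => SS_congr fun i => SS_comm fun j l => tm i j k l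
      _ = _ := SS_congr fun k => SS_comm fun i l => SS fun j => tm i j k l
  rw [h1]
  refine SS_congr fun k => SS_congr fun l => ?_
  rw [G, ← SS_mul]
  · refine SS_congr fun i => ?_
    rw [← SS_mul (Ad_gt _ _)]
    exact SS_congr fun j => tm_eq i j k l
  · exact fun i => SS_dvd fun j => (pow_dvd_pow X (by omega)).trans (gt_dvd _ i j)

theorem F3_two : F3 = SS fun L => (-1) ^ L * X ^ (L ^ 2) * G (2 * L) * b L := by
  rw [F3_one, SS_tri]
  · refine SS_congr fun L => ?_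
    rw [b, Finset.mul_sum]
    refine Finset.sum_congr rfl fun l hl => ?_
    rw [Finset.mem_range] at hl
    obtain ⟨k, rfl⟩ : ∃ k, L = k + 2 * l := ⟨L - 2 * l, by omega⟩
    rw [Nat.add_sub_cancel]
    unfold ut
    rw [show k ^ 2 + 8 * l ^ 2 + 4 * l + 4 * k * l = (k + 2 * l) ^ 2 + (4 * l ^ 2 + 4 * l) by ring,
      pow_add X, pow_add (-1 : ℤ⟦X⟧) k (2 * l), pow_mul (-1 : ℤ⟦X⟧) 2 l]
    ring
  · intro k l
    unfold ut
    rw [mul_assoc]
    exact X_dvd _ _ (by nlinarith [Nat.zero_le (k * l), Nat.le_self_pow (two_ne_zero) k]) _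

/-- the terms after inserting the finite identity -/
noncomputable def vt (L r : ℕ) : ℤ⟦X⟧ :=
  (-1) ^ L * X ^ (L ^ 2) * (1 + X ^ (2 * L + 1) + X ^ (2 * L + 2)) * O 0 (L + 1) *
    ((1 - X ^ (2 * r + 2)) * a0 r * (V 2 (L - r) * V 2 (L + r + 2)))

theorem vt_dvd (L r : ℕ) : X ^ L ∣ vt L r := by
  unfold vt
  rw [show ((-1) ^ L * X ^ (L ^ 2) * (1 + X ^ (2 * L + 1) + X ^ (2 * L + 2)) * O 0 (L + 1) *
    ((1 - X ^ (2 * r + 2)) * a0 r * (V 2 (L - r) * V 2 (L + r + 2))) : ℤ⟦X⟧) =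
    X ^ (L ^ 2) * ((-1) ^ L * (1 + X ^ (2 * L + 1) + X ^ (2 * L + 2)) * O 0 (L + 1) *
    ((1 - X ^ (2 * r + 2)) * a0 r * (V 2 (L - r) * V 2 (L + r + 2)))) by ring]
  exact X_dvd _ _ (Nat.le_self_pow (two_ne_zero) L) _

theorem F3_three : F3 = Eu 1 * SS fun r => SS fun n => vt (r + n) r := by
  rw [F3_two, ← SS_triangle vt vt_dvd, ← SS_mul]
  · refine SS_congr fun L => ?_
    have h1 := b_Eu L
    have h2 : ∑ r ∈ Finset.range (L + 1), vt L r =
        (-1) ^ L * X ^ (L ^ 2) * (1 + X ^ (2 * L + 1) + X ^ (2 * L + 2)) * O 0 (L + 1) * sB L := by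
      rw [sB, Finset.mul_sum]; rfl
    rw [h2, G_eq]
    linear_combination ((-1) ^ L * X ^ (L ^ 2) * (1 + X ^ (2 * L + 1) + X ^ (2 * L + 2))) * h1
  · exact fun L => Finset.dvd_sum fun r _ => vt_dvd L r

theorem inner (r : ℕ) : (SS fun n => vt (r + n) r) =
    (-1) ^ r * X ^ (r ^ 2) * a0 r * (1 - X ^ (6 * r + 6)) * kap := by
  have h1 : ∀ n, vt (r + n) r = ((-1) ^ r * X ^ (r ^ 2) * (1 - X ^ (2 * r + 2)) * a0 r * O 0 (r + 1)) *
      (yt r (r + 1) n + (X ^ (4 * r + 4) + X ^ (2 * r + 1) + X ^ (2 * r + 2)) * yt (r + 1) (r + 1) n) := by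
    intro n
    have e1 := V_succ (show 1 ≤ 2 by norm_num) (2 * r + 1 + n)
    unfold vt yt
    rw [show r + n - r = n by omega, show r + n + 1 = r + 1 + n by ring, O_add,
      show r + n + r + 2 = 2 * r + 1 + n + 1 by ring, show r + (r + 1) + n = 2 * r + 1 + n by ring,
      show r + 1 + (r + 1) + n = 2 * r + 1 + n + 1 by ring, ← e1]
    ring
  have hA : Ad fun n => yt r (r + 1) n +
      (X ^ (4 * r + 4) + X ^ (2 * r + 1) + X ^ (2 * r + 2)) * yt (r + 1) (r + 1) n := fun n =>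
    dvd_add (Ad_yt _ _ n) ((Ad_yt _ _ n).mul_left _)
  rw [SS_congr h1, SS_mul hA, SS_add, SS_mul (Ad_yt _ _)]
  have hU := sumU r
  have hW := sumW r
  rw [Y] at hU hW
  linear_combination ((-1) ^ r * X ^ (r ^ 2) * (1 - X ^ (2 * r + 2)) * a0 r) * hU +
    ((-1) ^ r * X ^ (r ^ 2) * (1 - X ^ (2 * r + 2)) * a0 r) *
      (X ^ (4 * r + 4) + X ^ (2 * r + 1) + X ^ (2 * r + 2)) * hW

/-- the terms of the theta series -/
noncomputable def st (r : ℕ) : ℤ⟦X⟧ := (-1) ^ r * X ^ (r ^ 2) * a0 r * (1 - X ^ (6 * r + 6))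

theorem Ad_st : Ad st := by
  intro r
  unfold st
  rw [show ((-1) ^ r * X ^ (r ^ 2) * a0 r * (1 - X ^ (6 * r + 6)) : ℤ⟦X⟧) =
    X ^ (r ^ 2) * ((-1) ^ r * a0 r * (1 - X ^ (6 * r + 6))) by ring]
  exact X_dvd _ _ (Nat.le_self_pow (two_ne_zero) r) _

theorem F3_four : F3 * eul 2 = SS st := by
  have h1 : (SS fun r => SS fun n => vt (r + n) r) = kap * SS st := by
    rw [← SS_mul Ad_st]
    refine SS_congr fun r => ?_
    rw [inner]
    unfold st
    ring
  rw [F3_three, h1]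
  linear_combination (SS st) * kap_mul

/-- the theta series -/
theorem FF_a : FF fun n : ℤ => 24 * n ^ 2 + 7 * n := fun m =>
  (Set.finite_Icc (-m) m).subset fun n hn => by
    have h2 : 24 * n ^ 2 + 7 * n = m := hn
    rw [Set.mem_Icc]
    constructor <;> nlinarith [sq_nonneg n, sq_nonneg (n + 1), Int.natAbs_sq n, sq_nonneg (n - 1),
      Int.le_self_sq n, Int.le_self_sq (-n)]

theorem FF_b : FF fun n : ℤ => 24 * n ^ 2 + 23 * n + 5 := fun m =>
  (Set.finite_Icc (-m - 1) (m + 1)).subset fun n hn => by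
    have h2 : 24 * n ^ 2 + 23 * n + 5 = m := hn
    rw [Set.mem_Icc]
    constructor <;> nlinarith [sq_nonneg n, sq_nonneg (n + 1), sq_nonneg (n - 1),
      Int.le_self_sq n, Int.le_self_sq (-n), Int.le_self_sq (n + 1), Int.le_self_sq (-n - 1)]

theorem SS_st : SS st = TS (fun n : ℤ => 24 * n ^ 2 + 7 * n) (fun n => sg n) +
    TS (fun n : ℤ => 24 * n ^ 2 + 23 * n + 5) (fun n => sg n) := by
  rw [TS_int FF_a, TS_int FF_b]
  have e1 : TS (fun n : ℕ => 24 * (n : ℤ) ^ 2 + 7 * n) (fun n : ℕ => sg n) =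
      SS fun n => C ((-1) ^ n) * X ^ (24 * n ^ 2 + 7 * n) := by
    rw [SS_eq_TS (fun n => by nlinarith [sq_nonneg n])]
    exact TS_congr (fun n => by push_cast; ring) fun n => sg_natCast n
  have e2 : TS (fun n : ℕ => 24 * (-((n : ℤ) + 1)) ^ 2 + 7 * (-((n : ℤ) + 1)))
      (fun n : ℕ => sg (-((n : ℤ) + 1))) =
      SS fun n => C (-(-1) ^ n) * X ^ (24 * n ^ 2 + 41 * n + 17) := by
    rw [SS_eq_TS (fun n => by nlinarith [sq_nonneg n])]
    refine TS_congr (fun n => by push_cast; ring) fun n => ?_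
    rw [sg_neg, sg_add, sg_one, sg_natCast]; ring
  have e3 : TS (fun n : ℕ => 24 * (n : ℤ) ^ 2 + 23 * n + 5) (fun n : ℕ => sg n) =
      SS fun n => C ((-1) ^ n) * X ^ (24 * n ^ 2 + 23 * n + 5) := by
    rw [SS_eq_TS (fun n => by nlinarith [sq_nonneg n])]
    exact TS_congr (fun n => by push_cast; ring) fun n => sg_natCast n
  have e4 : TS (fun n : ℕ => 24 * (-((n : ℤ) + 1)) ^ 2 + 23 * (-((n : ℤ) + 1)) + 5)
      (fun n : ℕ => sg (-((n : ℤ) + 1))) =
      SS fun n => C (-(-1) ^ n) * X ^ (24 * n ^ 2 + 25 * n + 6) := by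
    rw [SS_eq_TS (fun n => by nlinarith [sq_nonneg n])]
    refine TS_congr (fun n => by push_cast; ring) fun n => ?_
    rw [sg_neg, sg_add, sg_one, sg_natCast]; ring
  rw [e1, e2, e3, e4, ← SS_add, ← SS_add, ← SS_add, SS_triple Ad_st]
  refine SS_congr fun m => ?_
  unfold st
  rw [a0_zero, a0_one, a0_two]
  simp only [map_neg, map_pow, map_one]
  rw [pow_mul (-1 : ℤ⟦X⟧) 3 m, pow_add (-1 : ℤ⟦X⟧) (3 * m) 1, pow_mul (-1 : ℤ⟦X⟧) 3 m]
  norm_num
  ring

end Q266.CF
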