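import Pool.Agent.Q266.CF6

/-!
# The quintuple product step and the product side
-/

set_option autoImplicit false

namespace Q266.CF

open PowerSeries Q279.QS
open scoped PowerSeries.WithPiTopology

/-- splitting a double sum along a bijection -/
theorem TS_split' {e c : ℤ × ℤ → ℤ} (he : FF e) {f g : ℤ × ℤ → ℤ × ℤ}
    (hb : Function.Bijective (Sum.elim f g)) :
    TS e c = TS (fun p => e (f p)) (fun p => c (f p)) + TS (fun p => e (g p)) (fun p => c (g p)) := by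
  rw [← TS_equiv (Equiv.ofBijective _ hb)]
  simp only [Equiv.ofBijective_apply]
  rw [TS_sum_type (he.comp_injective hb.1)]
  simp only [Sum.elim_inl, Sum.elim_inr]

theorem te_five (n : ℤ) : te 5 11 n = 8 * n ^ 2 - 3 * n := by
  unfold te
  have := two_tri n
  push_cast
  linear_combination 8 * this

theorem te_ten (n : ℤ) : te 10 6 n = 8 * n ^ 2 + 2 * n := by
  unfold te
  have := two_tri n
  push_cast
  linear_combination 8 * this

theorem FF_five : FF fun n : ℤ => 8 * n ^ 2 - 3 * n := by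
  have h := FF_te (a := 5) (b := 11) (by norm_num) (by norm_num)
  rwa [funext te_five] at h

theorem five_nonneg (n : ℤ) : 0 ≤ 8 * n ^ 2 - 3 * n := by
  rw [← te_five]; exact te_nonneg _ _ _

theorem FF_ten : FF fun n : ℤ => 8 * n ^ 2 + 2 * n := by
  have h := FF_te (a := 10) (b := 6) (by norm_num) (by norm_num)
  rwa [funext te_ten] at h

theorem ten_nonneg (n : ℤ) : 0 ≤ 8 * n ^ 2 + 2 * n := by
  rw [← te_ten]; exact te_nonneg _ _ _

theorem a_nonneg (n : ℤ) : 0 ≤ 24 * n ^ 2 + 7 * n := by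
  nlinarith [five_nonneg n, Int.le_self_sq n, Int.le_self_sq (-n), sq_nonneg n]

theorem b_nonneg (n : ℤ) : 0 ≤ 24 * n ^ 2 + 23 * n + 5 := by
  rcases le_or_gt 0 n with h | h
  · nlinarith
  · nlinarith [mul_nonneg (show 0 ≤ -n - 1 by omega) (show 0 ≤ -n by omega)]

theorem FF_24 : FF fun n : ℤ => 8 * (3 * n ^ 2 - n) := fun m =>
  (Set.finite_Icc (-m) m).subset fun n hn => by
    have h2 : 8 * (3 * n ^ 2 - n) = m := hn
    rw [Set.mem_Icc]
    constructor <;> nlinarith [sq_nonneg n, Int.le_self_sq n, Int.le_self_sq (-n)]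

theorem c_nonneg (n : ℤ) : 0 ≤ 8 * (3 * n ^ 2 - n) := by
  nlinarith [sq_nonneg n, Int.le_self_sq n, Int.le_self_sq (-n)]

theorem eul_sixteen : eul 16 = TS (fun j : ℤ => 8 * (3 * j ^ 2 - j)) (fun j => sg j) := by
  have h := congrArg (expand 8 (by norm_num)) eul_two_eq
  rw [expand_eul _ (by norm_num), expand_TS] at h
  exact h

/-- parametrisations -/
def r1 (p : ℤ × ℤ) : ℤ × ℤ := (p.2 - 2 * p.1, p.2)
def r2 (p : ℤ × ℤ) : ℤ × ℤ := (2 * p.1 + 1 - p.2, p.2)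
def s1 (p : ℤ × ℤ) : ℤ × ℤ := (2 * p.2 - 3 * p.1, p.1)
def s2 (p : ℤ × ℤ) : ℤ × ℤ := (2 * p.2 + 1 - 3 * p.1, p.1)
def u1 (p : ℤ × ℤ) : ℤ × ℤ := (2 * p.2 - 1 - 3 * p.1, p.1)
def w1 (p : ℤ × ℤ) : ℤ × ℤ := (2 * p.2 - 3 * (p.1), p.1)

theorem bij_r : Function.Bijective (Sum.elim r1 r2) := by
  constructor
  · rintro (⟨a, a'⟩ | ⟨a, a'⟩) (⟨b, b'⟩ | ⟨b, b'⟩) h <;>
      simp only [r1, r2, Sum.elim_inl, Sum.elim_inr, Prod.mk.injEq] at h
    · obtain ⟨h3, h4⟩ := h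
      have : a = b := by omega
      simp [*]
    · exfalso; omega
    · exfalso; omega
    · obtain ⟨h3, h4⟩ := h
      have : a = b := by omega
      simp [*]
  · rintro ⟨i, j⟩
    rcases Int.even_or_odd' (j - i) with ⟨m, h | h⟩
    · refine ⟨Sum.inl (m, j), ?_⟩
      simp only [r1, Sum.elim_inl, Prod.mk.injEq, and_true]
      omega
    · refine ⟨Sum.inr (i + m, j), ?_⟩
      simp only [r2, Sum.elim_inr, Prod.mk.injEq, and_true]
      omega

theorem bij_s : Function.Bijective (Sum.elim s1 s2) := by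
  constructor
  · rintro (⟨a, a'⟩ | ⟨a, a'⟩) (⟨b, b'⟩ | ⟨b, b'⟩) h <;>
      simp only [s1, s2, Sum.elim_inl, Sum.elim_inr, Prod.mk.injEq] at h
    · obtain ⟨h3, h4⟩ := h
      have : a' = b' := by omega
      simp [*]
    · exfalso; omega
    · exfalso; omega
    · obtain ⟨h3, h4⟩ := h
      have : a' = b' := by omega
      simp [*]
  · rintro ⟨i, j⟩
    rcases Int.even_or_odd' (i + 3 * j) with ⟨m, h | h⟩
    · refine ⟨Sum.inl (j, m), ?_⟩
      simp only [s1, Sum.elim_inl, Prod.mk.injEq, and_true]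
      omega
    · refine ⟨Sum.inr (j, m), ?_⟩
      simp only [s2, Sum.elim_inr, Prod.mk.injEq, and_true]
      omega

theorem bij_u : Function.Bijective (Sum.elim u1 s1) := by
  constructor
  · rintro (⟨a, a'⟩ | ⟨a, a'⟩) (⟨b, b'⟩ | ⟨b, b'⟩) h <;>
      simp only [s1, u1, Sum.elim_inl, Sum.elim_inr, Prod.mk.injEq] at h
    · obtain ⟨h3, h4⟩ := h
      have : a' = b' := by omega
      simp [*]
    · exfalso; omega
    · exfalso; omega
    · obtain ⟨h3, h4⟩ := h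
      have : a' = b' := by omega
      simp [*]
  · rintro ⟨i, j⟩
    rcases Int.even_or_odd' (i + 3 * j) with ⟨m, h | h⟩
    · refine ⟨Sum.inr (j, m), ?_⟩
      simp only [s1, Sum.elim_inr, Prod.mk.injEq, and_true]
      omega
    · refine ⟨Sum.inl (j, m + 1), ?_⟩
      simp only [u1, Sum.elim_inl, Prod.mk.injEq, and_true]
      omega

/-- the reflection `m ↦ K - m` -/
def refl : (ℤ × ℤ) ≃ (ℤ × ℤ) where
  toFun p := (p.2 - p.1, p.2)
  invFun p := (p.2 - p.1, p.2)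
  left_inv p := by ext <;> simp
  right_inv p := by ext <;> simp

theorem sg_s1 (p : ℤ × ℤ) : sg (s1 p).1 * sg (s1 p).2 = 1 := by
  simp only [s1]
  rw [← sg_add, show 2 * p.2 - 3 * p.1 + p.1 = 2 * (p.2 - p.1) by ring, sg_two_mul]

theorem sg_s2 (p : ℤ × ℤ) : sg (s2 p).1 * sg (s2 p).2 = -1 := by
  simp only [s2]
  rw [← sg_add, show 2 * p.2 + 1 - 3 * p.1 + p.1 = 2 * (p.2 - p.1) + 1 by ring, sg_add, sg_two_mul,
    sg_one]
  norm_num

theorem sg_u1 (p : ℤ × ℤ) : sg (u1 p).1 * sg (u1 p).2 = -1 := by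
  simp only [u1]
  rw [← sg_add, show 2 * p.2 - 1 - 3 * p.1 + p.1 = 2 * (p.2 - p.1) - 1 by ring, sg_sub, sg_two_mul,
    sg_one]
  norm_num

theorem sg_r1 (p : ℤ × ℤ) : sg (r1 p).1 * sg (r1 p).2 = 1 := by
  simp only [r1]
  rw [← sg_add, show p.2 - 2 * p.1 + p.2 = 2 * (p.2 - p.1) by ring, sg_two_mul]

theorem sg_r2 (p : ℤ × ℤ) : sg (r2 p).1 * sg (r2 p).2 = -1 := by
  simp only [r2]
  rw [← sg_add, show 2 * p.1 + 1 - p.2 + p.2 = 2 * p.1 + 1 by ring, sg_add, sg_two_mul, sg_one]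
  norm_num

/-- the quintuple product in product form -/
theorem quintuple : TS (fun n : ℤ => 8 * n ^ 2 - 3 * n) (fun n => sg n) *
      (TS (fun n : ℤ => 24 * n ^ 2 + 7 * n) (fun n => sg n) +
        TS (fun n : ℤ => 24 * n ^ 2 + 23 * n + 5) (fun n => sg n)) =
    eul 16 * TS (fun n : ℤ => 8 * n ^ 2 + 2 * n) (fun n => sg n) := by
  rw [mul_add, TS_mul FF_five FF_a five_nonneg a_nonneg, TS_mul FF_five FF_b five_nonneg b_nonneg,
    eul_sixteen, TS_mul FF_24 FF_ten c_nonneg ten_nonneg,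
    TS_split' (FF.add FF_five FF_a five_nonneg a_nonneg) bij_s,
    TS_split' (FF.add FF_five FF_b five_nonneg b_nonneg) bij_u,
    TS_split' (FF.add FF_24 FF_ten c_nonneg ten_nonneg) bij_r]
  have h1 : TS (fun p : ℤ × ℤ => 8 * (s1 p).1 ^ 2 - 3 * (s1 p).1 + (24 * (s1 p).2 ^ 2 + 7 * (s1 p).2))
      (fun p => sg (s1 p).1 * sg (s1 p).2) =
      TS (fun p : ℤ × ℤ => 8 * (3 * (r1 p).1 ^ 2 - (r1 p).1) + (8 * (r1 p).2 ^ 2 + 2 * (r1 p).2))
      (fun p => sg (r1 p).1 * sg (r1 p).2) := by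
    refine TS_congr (fun p => ?_) fun p => by rw [sg_s1, sg_r1]
    simp only [s1, r1]; ring
  have h2 : TS (fun p : ℤ × ℤ => 8 * (u1 p).1 ^ 2 - 3 * (u1 p).1 +
      (24 * (u1 p).2 ^ 2 + 23 * (u1 p).2 + 5)) (fun p => sg (u1 p).1 * sg (u1 p).2) =
      TS (fun p : ℤ × ℤ => 8 * (3 * (r2 p).1 ^ 2 - (r2 p).1) + (8 * (r2 p).2 ^ 2 + 2 * (r2 p).2))
      (fun p => sg (r2 p).1 * sg (r2 p).2) := by
    refine TS_congr (fun p => ?_) fun p => by rw [sg_u1, sg_r2]
    simp only [u1, r2]; ring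
  have h3 : TS (fun p : ℤ × ℤ => 8 * (s2 p).1 ^ 2 - 3 * (s2 p).1 + (24 * (s2 p).2 ^ 2 + 7 * (s2 p).2))
      (fun p => sg (s2 p).1 * sg (s2 p).2) =
      - TS (fun p : ℤ × ℤ => 8 * (s1 p).1 ^ 2 - 3 * (s1 p).1 +
      (24 * (s1 p).2 ^ 2 + 23 * (s1 p).2 + 5)) (fun p => sg (s1 p).1 * sg (s1 p).2) := by
    rw [← TS_neg, ← TS_equiv refl]
    refine TS_congr (fun p => ?_) fun p => ?_
    · simp only [s1, s2, refl, Equiv.coe_fn_mk]; ring
    · rw [sg_s2, sg_s1]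
  rw [h1, h2, h3]
  ring

/-- the products `(q^a; q^16)` -/
noncomputable def pr (a : ℕ) : ℤ⟦X⟧ := ∏' i : ℕ, (1 - X ^ (a + 16 * i))

theorem jtp_pr (a b : ℕ) (ha : 1 ≤ a) (hb : 1 ≤ b) (hab : a + b = 16) :
    pr a * pr b * eul 16 = TS (te a b) (fun n => sg n) := by
  have h := jtp a b ha hb 1 (by norm_num)
  rw [hab] at h
  simp only [map_one, one_mul] at h
  unfold pr eul
  rw [h]
  exact TS_congr (fun _ => rfl) fun n => neg_one_pow_natAbs n

theorem F3_five : F3 * eul 2 * (pr 5 * pr 11) = eul 16 * (pr 10 * pr 6) := by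
  have h1 := jtp_pr 5 11 (by norm_num) (by norm_num) (by norm_num)
  have h2 := jtp_pr 10 6 (by norm_num) (by norm_num) (by norm_num)
  rw [TS_congr te_five fun _ => rfl] at h1
  rw [TS_congr te_ten fun _ => rfl] at h2
  have h3 := quintuple
  rw [← SS_st, ← F3_four, ← h1, ← h2] at h3
  have h4 : eul 16 ≠ 0 := eul_ne_zero (by norm_num)
  refine mul_right_cancel₀ h4 ?_
  linear_combination h3

end Q266.CF
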