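import Pool.Agent.Q266.CF7

/-!
# The quadruple series as an unconditional sum
-/

set_option autoImplicit false

namespace Q266.CF

open PowerSeries Q279.QS
open scoped PowerSeries.WithPiTopology

/-- nested sums are unconditional sums -/
theorem hasSum_SS4 (t : ℕ → ℕ → ℕ → ℕ → ℤ⟦X⟧) (h : ∀ i j k l, X ^ (i + j + k + l) ∣ t i j k l) :
    HasSum (fun p : ℕ × ℕ × ℕ × ℕ => t p.1 p.2.1 p.2.2.1 p.2.2.2)
      (SS fun i => SS fun j => SS fun k => SS fun l => t i j k l) := by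
  classical
  rw [WithPiTopology.hasSum_iff_hasSum_coeff]
  intro n
  set R := Finset.range (n + 1) with hR
  have e : coeff n (SS fun i => SS fun j => SS fun k => SS fun l => t i j k l) =
      ∑ p ∈ R ×ˢ (R ×ˢ (R ×ˢ R)), coeff n (t p.1 p.2.1 p.2.2.1 p.2.2.2) := by
    rw [Finset.sum_product]
    simp only [Finset.sum_product, SS, coeff_mk, map_sum, hR]
  rw [e]
  refine hasSum_sum_of_ne_finset_zero fun p hp => ?_
  refine X_pow_dvd_iff.1 (h p.1 p.2.1 p.2.2.1 p.2.2.2) n ?_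
  by_contra hc
  apply hp
  simp only [Finset.mem_product, hR, Finset.mem_range]
  omega

theorem tm_dvd (i j k l : ℕ) : X ^ (i + j + k + l) ∣ tm i j k l := by
  unfold tm
  rw [show ((-1) ^ k * X ^ (E4 i j k l + (i + 5 * j + k + 12 * l)) * (V 1 i * V 2 j * V 2 k * V 4 l) : ℤ⟦X⟧) =
    X ^ (E4 i j k l + (i + 5 * j + k + 12 * l)) * ((-1) ^ k * (V 1 i * V 2 j * V 2 k * V 4 l)) by ring]
  exact X_dvd _ _ (by omega) _

theorem hasSum_F3 : HasSum (fun p : ℕ × ℕ × ℕ × ℕ => tm p.1 p.2.1 p.2.2.1 p.2.2.2) F3 :=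
  hasSum_SS4 tm tm_dvd

theorem mult_pr {a c : ℕ} (ha : 1 ≤ a) (hc : 1 ≤ c) :
    Multipliable fun i : ℕ => (1 - X ^ (a + c * i) : ℤ⟦X⟧) := by
  have := mult_aux 1 a c ha hc
  refine this.congr fun i => ?_
  rw [map_one, one_mul]

theorem constCoeff_pr {a c : ℕ} (ha : 1 ≤ a) (hc : 1 ≤ c) :
    constantCoeff (∏' i : ℕ, (1 - X ^ (a + c * i) : ℤ⟦X⟧)) = 1 :=
  constCoeff_tprod (mult_pr ha hc) fun i => by
    have : a + c * i ≠ 0 := by omega
    rw [map_sub, map_one, map_pow, constantCoeff_X, zero_pow this, sub_zero]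

end Q266.CF
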