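import Pool.Agent.Q266.CIP
import Pool.Agent.Q266.CIS

set_option autoImplicit false

/-!
# The ratios built from `(15 n)! (2 n)! / ((10 n)! (4 n)! (3 n)!)`
-/

namespace Pool.Agent.Q266.CIA

open Polynomial
open Pool.Agent.TH416.CI Pool.Agent.Q266.CIW Pool.Agent.Q266.CIP

theorem count (g u v : ℕ) (huv : u ≤ v) :
    ((Finset.Ioc u v).filter (fun b => g ∣ b)).card = v / g - u / g := by
  have h1 : (Finset.Ioc 0 v).filter (fun b => g ∣ b) =
      (Finset.Ioc 0 u).filter (fun b => g ∣ b) ∪ (Finset.Ioc u v).filter (fun b => g ∣ b) := by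
    rw [← Finset.filter_union, Finset.Ioc_union_Ioc_eq_Ioc (Nat.zero_le _) huv]
  have h2 : Disjoint ((Finset.Ioc 0 u).filter (fun b => g ∣ b))
      ((Finset.Ioc u v).filter (fun b => g ∣ b)) := by
    rw [Finset.disjoint_left]
    intro x hx hx'
    rw [Finset.mem_filter, Finset.mem_Ioc] at hx hx'
    omega
  have h3 := congrArg Finset.card h1
  rw [Finset.card_union_of_disjoint h2, Nat.Ioc_filter_dvd_card_eq_div,
    Nat.Ioc_filter_dvd_card_eq_div] at h3
  omega

theorem count_erase (g : ℕ) (S : Finset ℕ) (x : ℕ) (hx : x ∈ S) :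
    ((S.erase x).filter (fun b => g ∣ b)).card + (if g ∣ x then 1 else 0) =
      (S.filter (fun b => g ∣ b)).card := by
  classical
  have h : (S.erase x).filter (fun b => g ∣ b) = (S.filter (fun b => g ∣ b)).erase x := by
    ext b
    simp only [Finset.mem_filter, Finset.mem_erase]
    tauto
  rw [h]
  split_ifs with hg
  · have hm : x ∈ S.filter (fun b => g ∣ b) := Finset.mem_filter.2 ⟨hx, hg⟩
    rw [Finset.card_erase_add_one hm]
  · rw [Finset.erase_eq_of_notMem, add_zero]
    intro h
    exact hg (Finset.mem_filter.1 h).2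

theorem count_insert (g : ℕ) (S : Finset ℕ) (x : ℕ) (hx : x ∉ S) :
    ((insert x S).filter (fun b => g ∣ b)).card =
      (S.filter (fun b => g ∣ b)).card + (if g ∣ x then 1 else 0) := by
  rw [Finset.filter_insert]
  split_ifs with hg
  · rw [Finset.card_insert_of_notMem]
    intro h
    exact hx (Finset.mem_filter.1 h).1
  · simp

theorem div_split (c n g : ℕ) (hg : 0 < g) : c * n / g = c * (n / g) + c * (n % g) / g := by
  conv_lhs => rw [← Nat.div_add_mod n g]
  rw [mul_add, show c * (g * (n / g)) = g * (c * (n / g)) by ring, Nat.mul_add_div hg]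

/-- strict Landau inequality along divisors of `10 n + c` -/
theorem landau_strict (n g c : ℕ) (hc : c = 1 ∨ c = 3) (hg : 9 ≤ g) (h : g ∣ 10 * n + c) :
    10 * n / g + 4 * n / g + 3 * n / g + 1 ≤ 15 * n / g + 2 * n / g := by
  have hg0 : 0 < g := by omega
  rw [div_split 10 n g hg0, div_split 4 n g hg0, div_split 3 n g hg0, div_split 15 n g hg0,
    div_split 2 n g hg0]
  have hr : n % g < g := Nat.mod_lt _ hg0
  have h1 : g ∣ 10 * (n % g) + c := by
    have h2 : 10 * n + c = g * (10 * (n / g)) + (10 * (n % g) + c) := by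
      conv_lhs => rw [← Nat.div_add_mod n g]
      ring
    rw [h2] at h
    exact (Nat.dvd_add_right (dvd_mul_right _ _)).1 h
  generalize n % g = r at *
  generalize n / g = q at *
  obtain ⟨t, ht⟩ := h1
  have ht10 : t < 11 := by
    by_contra hcon
    push Not at hcon
    have : g * 11 ≤ g * t := Nat.mul_le_mul_left g hcon
    omega
  have lo : ∀ a k : ℕ, k * g ≤ a → k ≤ a / g := fun a k hk => (Nat.le_div_iff_mul_le hg0).2 hk
  have up : ∀ a k : ℕ, a < k * g → a / g < k := fun a k hk => (Nat.div_lt_iff_lt_mul hg0).2 hk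
  interval_cases t
  · omega
  · have a1 := lo (15 * r) 1 (by omega)
    have a2 := up (10 * r) 1 (by omega)
    have a3 := up (4 * r) 1 (by omega)
    have a4 := up (3 * r) 1 (by omega)
    generalize 15 * r / g = u15 at *
    generalize 10 * r / g = u10 at *
    generalize 4 * r / g = u4 at *
    generalize 3 * r / g = u3 at *
    generalize 2 * r / g = u2 at *
    omega
  · omega
  · have a1 := lo (15 * r) 4 (by omega)
    have a2 := up (10 * r) 3 (by omega)
    have a3 := up (4 * r) 2 (by omega)
    have a4 := up (3 * r) 1 (by omega)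
    generalize 15 * r / g = u15 at *
    generalize 10 * r / g = u10 at *
    generalize 4 * r / g = u4 at *
    generalize 3 * r / g = u3 at *
    generalize 2 * r / g = u2 at *
    omega
  · omega
  · omega
  · omega
  · have a1 := lo (15 * r) 10 (by omega)
    have a2 := up (10 * r) 7 (by omega)
    have a3 := up (4 * r) 3 (by omega)
    have a4 := up (3 * r) 3 (by omega)
    have a5 := lo (2 * r) 1 (by omega)
    generalize 15 * r / g = u15 at *
    generalize 10 * r / g = u10 at *
    generalize 4 * r / g = u4 at *
    generalize 3 * r / g = u3 at *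
    generalize 2 * r / g = u2 at *
    omega
  · omega
  · have a1 := lo (15 * r) 13 (by omega)
    have a2 := up (10 * r) 9 (by omega)
    have a3 := up (4 * r) 4 (by omega)
    have a4 := up (3 * r) 3 (by omega)
    have a5 := lo (2 * r) 1 (by omega)
    generalize 15 * r / g = u15 at *
    generalize 10 * r / g = u10 at *
    generalize 4 * r / g = u4 at *
    generalize 3 * r / g = u3 at *
    generalize 2 * r / g = u2 at *
    omega
  · omega

theorem hgA (n : ℕ) (hn : 0 < n) (g : ℕ) (hg : 0 < g) :
    ((Finset.Ioc 1 (4 * n)).filter (fun a => g ∣ a)).card +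
      ((Finset.Ioc (2 * n) (3 * n)).filter (fun a => g ∣ a)).card ≤
      (((Finset.Ioc (10 * n) (15 * n)).erase (10 * n + 1)).filter (fun a => g ∣ a)).card := by
  have h1 := count_erase g (Finset.Ioc (10 * n) (15 * n)) (10 * n + 1)
    (Finset.mem_Ioc.2 ⟨by omega, by omega⟩)
  rw [count g _ _ (by omega)] at h1
  rw [count g _ _ (by omega), count g _ _ (by omega)]
  have e4 := landau n g
  have e5 : 2 * n / g ≤ 3 * n / g := Nat.div_le_div_right (by omega)
  have e6 : 10 * n / g ≤ 15 * n / g := Nat.div_le_div_right (by omega)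
  split_ifs at h1 with hd
  · rcases Nat.lt_or_ge g 9 with h9 | h9
    · interval_cases g
      · simp only [Nat.div_one] at *
        omega
      all_goals omega
    · have := landau_strict n g 1 (Or.inl rfl) h9 hd
      generalize 15 * n / g = u15 at *
      generalize 10 * n / g = u10 at *
      generalize 4 * n / g = u4 at *
      generalize 3 * n / g = u3 at *
      generalize 2 * n / g = u2 at *
      generalize 1 / g = u1 at *
      omega
  · generalize 15 * n / g = u15 at *
    generalize 10 * n / g = u10 at *
    generalize 4 * n / g = u4 at *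
    generalize 3 * n / g = u3 at *
    generalize 2 * n / g = u2 at *
    generalize 1 / g = u1 at *
    omega

theorem hgB (n : ℕ) (hn : 4 ≤ n) (g : ℕ) (hg : 0 < g) :
    ((((Finset.Ioc 1 (4 * n)).erase 3).erase 7).filter (fun a => g ∣ a)).card +
      ((Finset.Ioc (2 * n) (3 * n)).filter (fun a => g ∣ a)).card ≤
      (((Finset.Ioc (10 * n) (15 * n)).erase (10 * n + 3)).filter (fun a => g ∣ a)).card := by
  have h1 := count_erase g (Finset.Ioc (10 * n) (15 * n)) (10 * n + 3)
    (Finset.mem_Ioc.2 ⟨by omega, by omega⟩)
  have h2 := count_erase g (Finset.Ioc 1 (4 * n)) 3 (Finset.mem_Ioc.2 ⟨by omega, by omega⟩)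
  have h3 := count_erase g ((Finset.Ioc 1 (4 * n)).erase 3) 7
    (Finset.mem_erase.2 ⟨by omega, Finset.mem_Ioc.2 ⟨by omega, by omega⟩⟩)
  rw [count g _ _ (by omega)] at h1 h2
  rw [count g _ _ (by omega)]
  have e4 := landau n g
  have e5 : 2 * n / g ≤ 3 * n / g := Nat.div_le_div_right (by omega)
  have e6 : 10 * n / g ≤ 15 * n / g := Nat.div_le_div_right (by omega)
  split_ifs at h1 with hd
  · rcases Nat.lt_or_ge g 9 with h9 | h9
    · interval_cases g
      · simp only [Nat.div_one, one_dvd, if_true] at *
        omega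
      · omega
      · rw [if_pos (by norm_num)] at h2
        omega
      · omega
      · omega
      · omega
      · rw [if_pos (by norm_num)] at h3
        omega
      · omega
    · have := landau_strict n g 3 (Or.inr rfl) h9 hd
      generalize 15 * n / g = u15 at *
      generalize 10 * n / g = u10 at *
      generalize 4 * n / g = u4 at *
      generalize 3 * n / g = u3 at *
      generalize 2 * n / g = u2 at *
      generalize 1 / g = u1 at *
      omega
  · generalize 15 * n / g = u15 at *
    generalize 10 * n / g = u10 at *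
    generalize 4 * n / g = u4 at *
    generalize 3 * n / g = u3 at *
    generalize 2 * n / g = u2 at *
    generalize 1 / g = u1 at *
    omega

end Pool.Agent.Q266.CIA
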