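import Pool.Agent.Q266.CIA

set_option autoImplicit false

/-!
# The two ratios with parameters `15 n, 10 n, 4 n, 3 n, 2 n`
-/

namespace Pool.Agent.Q266.CIF

open Polynomial
open Pool.Agent.TH416.CI Pool.Agent.Q266.CIW Pool.Agent.Q266.CIP Pool.Agent.Q266.CIA
  Pool.Agent.Q266.CIS

/-- `(1 - q)(1 - q^2) ⋯ (1 - q^m)` -/
noncomputable def qf (m : ℕ) : Polynomial ℤ := ∏ i ∈ Finset.range m, ((1 : Polynomial ℤ) - X ^ (i + 1))

theorem qf_Ioc (m : ℕ) : qf m = ∏ b ∈ Finset.Ioc 0 m, ((1 : Polynomial ℤ) - X ^ b) := by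
  induction m with
  | zero => simp [qf]
  | succ m ih =>
    rw [Finset.prod_Ioc_succ_top (Nat.zero_le m), ← ih, qf, qf, Finset.prod_range_succ]

theorem qf_split (a b : ℕ) (h : a ≤ b) :
    qf b = qf a * ∏ i ∈ Finset.Ioc a b, ((1 : Polynomial ℤ) - X ^ i) := by
  rw [qf_Ioc, qf_Ioc, Finset.prod_Ioc_consecutive _ (Nat.zero_le a) h]

theorem qf_one (m : ℕ) (h : 1 ≤ m) :
    qf m = (1 - X) * ∏ i ∈ Finset.Ioc 1 m, ((1 : Polynomial ℤ) - X ^ i) := by
  rw [qf_split 1 m h, qf, Finset.prod_range_one, zero_add, pow_one]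

theorem erase_prod (S : Finset ℕ) (x : ℕ) (hx : x ∈ S) :
    ∏ i ∈ S, ((1 : Polynomial ℤ) - X ^ i) =
      (1 - X ^ x) * ∏ i ∈ S.erase x, ((1 : Polynomial ℤ) - X ^ i) :=
  (Finset.mul_prod_erase S _ hx).symm

/-- the list `[1, …, m]` -/
def rg (m : ℕ) : List ℕ := (List.range m).map (fun i => i + 1)

theorem rg_prod (m : ℕ) : ((rg m).map (fun w => (1 : Polynomial ℤ) - X ^ w)).prod = qf m := by
  rw [rg, List.map_map, qf, ← List.toFinset_range, List.prod_toFinset _ List.nodup_range]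
  rfl

theorem small_of (N D bs ws : List ℕ) (h1 : N.Perm (N.diff bs ++ bs))
    (h2 : D.Perm (N.diff bs ++ ws))
    (h : ∃ P : Polynomial ℤ, (∀ e, 0 ≤ P.coeff e) ∧
      (bs.map (fun w => (1 : Polynomial ℤ) - X ^ w)).prod =
        P * (ws.map (fun w => (1 : Polynomial ℤ) - X ^ w)).prod) :
    ∃ P : Polynomial ℤ, (∀ e, 0 ≤ P.coeff e) ∧
      (N.map (fun w => (1 : Polynomial ℤ) - X ^ w)).prod =
        P * (D.map (fun w => (1 : Polynomial ℤ) - X ^ w)).prod := by
  obtain ⟨P, hP, hPe⟩ := h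
  refine ⟨P, hP, ?_⟩
  rw [(h1.map _).prod_eq, (h2.map _).prod_eq, List.map_append, List.map_append, List.prod_append,
    List.prod_append, hPe]
  ring

theorem posA (n : ℕ) (hn : 0 < n) : ∃ P : Polynomial ℤ, (∀ e, 0 ≤ P.coeff e) ∧
    (1 - X) * (qf (15 * n) * qf (2 * n)) =
      P * ((1 - X ^ (10 * n + 1)) * (qf (10 * n) * qf (4 * n) * qf (3 * n))) := by
  classical
  obtain ⟨P, hP, hPe⟩ := posRatio (Finset.Ioc 1 (4 * n)) (Finset.Ioc (2 * n) (3 * n))
    ((Finset.Ioc (10 * n) (15 * n)).erase (10 * n + 1)) 0 [] (by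
      intro x hx
      rw [Finset.mem_Ioc] at hx ⊢
      omega)
    (by
      intro a ha
      rw [Finset.mem_Ioc] at ha
      omega)
    (by
      intro b hb
      rw [Finset.mem_erase, Finset.mem_Ioc] at hb
      omega)
    (by simp)
    (by
      rw [Finset.card_erase_of_mem (Finset.mem_Ioc.2 ⟨by omega, by omega⟩), Nat.card_Ioc,
        Nat.card_Ioc, Nat.card_Ioc, List.length_nil]
      omega)
    (by
      intro A hA
      refine (window (Finset.Ioc 1 (4 * n)) (Finset.Ioc (2 * n) (3 * n))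
        ((Finset.Ioc (10 * n) (15 * n)).erase (10 * n + 1)) (4 * n) (15 * n) 4 (2 * n) (3 * n)
        ?_ (by omega) (by omega) ?_ ?_ ?_ (by omega) ?_ (fun g hg => hgA n hn g hg) A hA).trans
        (Nat.le_add_right _ _)
      · intro a ha
        rw [Finset.mem_Ioc] at ha
        omega
      · intro x hx
        rw [Finset.mem_Ioc] at hx
        rw [Finset.mem_erase, Finset.mem_Ioc]
        omega
      · intro x hx
        rw [Finset.mem_erase, Finset.mem_Ioc] at hx
        omega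
      · intro x hx
        rw [Finset.mem_Ioc] at hx
        omega
      · intro x hx
        rw [Finset.mem_Icc] at hx
        rw [Finset.mem_erase, Finset.mem_Ioc]
        omega)
  refine ⟨P, hP, ?_⟩
  rw [List.map_nil, List.prod_nil, mul_one, pow_zero, mul_one] at hPe
  rw [qf_split (10 * n) (15 * n) (by omega),
    erase_prod (Finset.Ioc (10 * n) (15 * n)) (10 * n + 1)
      (Finset.mem_Ioc.2 ⟨by omega, by omega⟩), hPe, qf_one (4 * n) (by omega),
    qf_split (2 * n) (3 * n) (by omega)]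
  ring

theorem posB (n : ℕ) (hn : 4 ≤ n) : ∃ P : Polynomial ℤ, (∀ e, 0 ≤ P.coeff e) ∧
    (1 - X ^ 3) * (1 - X ^ 7) * (qf (15 * n) * qf (2 * n)) =
      P * ((1 - X) * (1 - X ^ (10 * n + 3)) * (qf (10 * n) * qf (4 * n) * qf (3 * n))) := by
  classical
  obtain ⟨P, hP, hPe⟩ := posRatio (((Finset.Ioc 1 (4 * n)).erase 3).erase 7)
    (Finset.Ioc (2 * n) (3 * n))
    ((Finset.Ioc (10 * n) (15 * n)).erase (10 * n + 3)) 2 [] (by
      intro x hx
      rw [Finset.mem_Ioc] at hx
      rw [Finset.mem_erase, Finset.mem_erase, Finset.mem_Ioc]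
      omega)
    (by
      intro a ha
      rw [Finset.mem_erase, Finset.mem_erase, Finset.mem_Ioc] at ha
      omega)
    (by
      intro b hb
      rw [Finset.mem_erase, Finset.mem_Ioc] at hb
      omega)
    (by simp)
    (by
      rw [Finset.card_erase_of_mem (Finset.mem_erase.2 ⟨by omega, Finset.mem_Ioc.2
        ⟨by omega, by omega⟩⟩), Finset.card_erase_of_mem (Finset.mem_Ioc.2 ⟨by omega, by omega⟩),
        Finset.card_erase_of_mem (Finset.mem_Ioc.2 ⟨by omega, by omega⟩), Nat.card_Ioc,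
        Nat.card_Ioc, Nat.card_Ioc, List.length_nil]
      omega)
    (by
      intro A hA
      refine (window (((Finset.Ioc 1 (4 * n)).erase 3).erase 7) (Finset.Ioc (2 * n) (3 * n))
        ((Finset.Ioc (10 * n) (15 * n)).erase (10 * n + 3)) (4 * n) (15 * n) 4 (2 * n) (3 * n)
        ?_ (by omega) (by omega) ?_ ?_ ?_ (by omega) ?_ (fun g hg => hgB n hn g hg) A hA).trans
        (Nat.le_add_right _ _)
      · intro a ha
        rw [Finset.mem_erase, Finset.mem_erase, Finset.mem_Ioc] at ha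
        omega
      · intro x hx
        rw [Finset.mem_Ioc] at hx
        rw [Finset.mem_erase, Finset.mem_Ioc]
        omega
      · intro x hx
        rw [Finset.mem_erase, Finset.mem_Ioc] at hx
        omega
      · intro x hx
        rw [Finset.mem_Ioc] at hx
        omega
      · intro x hx
        rw [Finset.mem_Icc] at hx
        rw [Finset.mem_erase, Finset.mem_Ioc]
        omega)
  refine ⟨P, hP, ?_⟩
  rw [List.map_nil, List.prod_nil, mul_one] at hPe
  rw [qf_split (10 * n) (15 * n) (by omega),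
    erase_prod (Finset.Ioc (10 * n) (15 * n)) (10 * n + 3)
      (Finset.mem_Ioc.2 ⟨by omega, by omega⟩), hPe, qf_one (4 * n) (by omega),
    erase_prod (Finset.Ioc 1 (4 * n)) 3 (Finset.mem_Ioc.2 ⟨by omega, by omega⟩),
    erase_prod ((Finset.Ioc 1 (4 * n)).erase 3) 7
      (Finset.mem_erase.2 ⟨by omega, Finset.mem_Ioc.2 ⟨by omega, by omega⟩⟩),
    qf_split (2 * n) (3 * n) (by omega)]
  ring

theorem posB_all (n : ℕ) (hn : 0 < n) : ∃ P : Polynomial ℤ, (∀ e, 0 ≤ P.coeff e) ∧
    (1 - X ^ 3) * (1 - X ^ 7) * (qf (15 * n) * qf (2 * n)) =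
      P * ((1 - X) * (1 - X ^ (10 * n + 3)) * (qf (10 * n) * qf (4 * n) * qf (3 * n))) := by
  have key : ∀ n bs ws, (∃ P : Polynomial ℤ, (∀ e, 0 ≤ P.coeff e) ∧
      ((bs : List ℕ).map (fun w => (1 : Polynomial ℤ) - X ^ w)).prod =
        P * ((ws : List ℕ).map (fun w => (1 : Polynomial ℤ) - X ^ w)).prod) →
      ([3, 7] ++ (rg (15 * n) ++ rg (2 * n))).Perm
        (([3, 7] ++ (rg (15 * n) ++ rg (2 * n))).diff bs ++ bs) →
      ([1, 10 * n + 3] ++ (rg (10 * n) ++ rg (4 * n) ++ rg (3 * n))).Perm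
        (([3, 7] ++ (rg (15 * n) ++ rg (2 * n))).diff bs ++ ws) →
      ∃ P : Polynomial ℤ, (∀ e, 0 ≤ P.coeff e) ∧
    (1 - X ^ 3) * (1 - X ^ 7) * (qf (15 * n) * qf (2 * n)) =
      P * ((1 - X) * (1 - X ^ (10 * n + 3)) * (qf (10 * n) * qf (4 * n) * qf (3 * n))) := by
    intro n bs ws h h1 h2
    obtain ⟨P, hP, hPe⟩ := small_of _ _ bs ws h1 h2 h
    refine ⟨P, hP, ?_⟩
    simp only [List.map_append, List.prod_append, List.map_cons, List.map_nil, List.prod_cons,
      List.prod_nil, rg_prod, mul_one, pow_one] at hPe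
    exact hPe
  rcases Nat.lt_or_ge n 4 with h | h
  · interval_cases n
    · exact key 1 _ _ small_B_1 (by decide +kernel) (by decide +kernel)
    · exact key 2 _ _ small_B_2 (by decide +kernel) (by decide +kernel)
    · exact key 3 _ _ small_B_3 (by decide +kernel) (by decide +kernel)
  · exact posB n h

end Pool.Agent.Q266.CIF
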