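import Pool.Agent.Q266.CIF

set_option autoImplicit false

/-!
# The ratios built from `(6 n)! n! / ((3 n)! (2 n)! ^ 2)`: counting multiples
-/

namespace Pool.Agent.Q266.CIG

open Pool.Agent.TH416.CI Pool.Agent.Q266.CIW Pool.Agent.Q266.CIP Pool.Agent.Q266.CIA

/-- Landau's inequality -/
theorem landau6 (n g : ℕ) (hg : 0 < g) :
    3 * n / g + 2 * (2 * n / g) ≤ 6 * n / g + n / g := by
  rw [div_split 6 n g hg, div_split 3 n g hg, div_split 2 n g hg]
  have hr : n % g < g := Nat.mod_lt _ hg
  generalize n % g = r at *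
  generalize n / g = q at *
  have lo : ∀ a k : ℕ, k * g ≤ a → k ≤ a / g := fun a k hk => (Nat.le_div_iff_mul_le hg).2 hk
  have up : ∀ a k : ℕ, a < k * g → a / g < k := fun a k hk => (Nat.div_lt_iff_lt_mul hg).2 hk
  rcases Nat.lt_or_ge (3 * r) g with h1 | h1
  · have a1 := up (3 * r) 1 (by omega)
    have a2 := up (2 * r) 1 (by omega)
    generalize 6 * r / g = u6 at *
    generalize 3 * r / g = u3 at *
    generalize 2 * r / g = u2 at *
    omega
  · rcases Nat.lt_or_ge (2 * r) g with h2 | h2
    · have a1 := up (3 * r) 2 (by omega)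
      have a2 := up (2 * r) 1 (by omega)
      have a3 := lo (6 * r) 2 (by omega)
      generalize 6 * r / g = u6 at *
      generalize 3 * r / g = u3 at *
      generalize 2 * r / g = u2 at *
      omega
    · rcases Nat.lt_or_ge (3 * r) (2 * g) with h3 | h3
      · have a1 := up (3 * r) 2 (by omega)
        have a2 := up (2 * r) 2 (by omega)
        have a3 := lo (6 * r) 3 (by omega)
        generalize 6 * r / g = u6 at *
        generalize 3 * r / g = u3 at *
        generalize 2 * r / g = u2 at *
        omega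
      · have a1 := up (3 * r) 3 (by omega)
        have a2 := up (2 * r) 2 (by omega)
        have a3 := lo (6 * r) 4 (by omega)
        generalize 6 * r / g = u6 at *
        generalize 3 * r / g = u3 at *
        generalize 2 * r / g = u2 at *
        omega

/-- strict Landau inequality along divisors of `2 n + e` -/
theorem landau6_strict (n g e : ℕ) (he : e % 2 = 1) (hg : 3 * e ≤ 2 * g) (h : g ∣ 2 * n + e) :
    3 * n / g + 2 * (2 * n / g) + 1 ≤ 6 * n / g + n / g := by
  have hg0 : 0 < g := by omega
  rw [div_split 6 n g hg0, div_split 3 n g hg0, div_split 2 n g hg0]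
  have hr : n % g < g := Nat.mod_lt _ hg0
  have h1 : g ∣ 2 * (n % g) + e := by
    have h2 : 2 * n + e = g * (2 * (n / g)) + (2 * (n % g) + e) := by
      conv_lhs => rw [← Nat.div_add_mod n g]
      ring
    rw [h2] at h
    exact (Nat.dvd_add_right (dvd_mul_right _ _)).1 h
  generalize n % g = r at *
  generalize n / g = q at *
  obtain ⟨t, ht⟩ := h1
  have ht3 : t < 3 := by
    by_contra hcon
    push Not at hcon
    have : g * 3 ≤ g * t := Nat.mul_le_mul_left g hcon
    omega
  have lo : ∀ a k : ℕ, k * g ≤ a → k ≤ a / g := fun a k hk => (Nat.le_div_iff_mul_le hg0).2 hk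
  have up : ∀ a k : ℕ, a < k * g → a / g < k := fun a k hk => (Nat.div_lt_iff_lt_mul hg0).2 hk
  interval_cases t
  · omega
  · rcases Nat.lt_or_ge g (3 * e) with h3 | h3
    · have a1 := up (3 * r) 1 (by omega)
      have a2 := up (2 * r) 1 (by omega)
      have a3 := lo (6 * r) 1 (by omega)
      generalize 6 * r / g = u6 at *
      generalize 3 * r / g = u3 at *
      generalize 2 * r / g = u2 at *
      omega
    · have a1 := up (3 * r) 2 (by omega)
      have a2 := up (2 * r) 1 (by omega)
      have a3 := lo (6 * r) 2 (by omega)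
      generalize 6 * r / g = u6 at *
      generalize 3 * r / g = u3 at *
      generalize 2 * r / g = u2 at *
      omega
  · omega

/-- the indicator of divisibility -/
def ind (g m : ℕ) : ℕ := if g ∣ m then 1 else 0

theorem ind_spec (g m : ℕ) : (ind g m = 1 ∧ g ∣ m) ∨ (ind g m = 0 ∧ ¬ g ∣ m) := by
  rw [ind]
  split_ifs with h
  · exact Or.inl ⟨rfl, h⟩
  · exact Or.inr ⟨rfl, h⟩

theorem not_two (g m a b : ℕ) (hab : a < b) (hb : b < a + g) (h1 : g ∣ m + a) (h2 : g ∣ m + b) :
    False := by
  have h3 : m + b = (m + a) + (b - a) := by omega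
  rw [h3] at h2
  have h4 := (Nat.dvd_add_right h1).1 h2
  have := Nat.le_of_dvd (by omega) h4
  omega

/-- weights of `P₁` -/
def Om1 (n : ℕ) : Finset ℕ := insert (2 * n + 1) (Finset.Ioc 1 (2 * n))
/-- weights of `P₂` -/
def Om2 (n : ℕ) : Finset ℕ := insert (2 * n + 3) ((Finset.Ioc 1 (2 * n)).erase 3)
/-- weights of `P₃` -/
def Om3 (n : ℕ) : Finset ℕ := insert (2 * n + 1) (Om2 n)
/-- weights of `P₄` -/
def Om4 (n : ℕ) : Finset ℕ := insert (2 * n + 3) (insert (2 * n + 5) (insert (2 * n + 7)
  ((((Finset.Ioc 1 (2 * n)).erase 3).erase 5).erase 7)))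
/-- weights of `P₅` -/
def Om5 (n : ℕ) : Finset ℕ := insert (2 * n + 1) (Om4 n)

theorem count_ioc (n g : ℕ) (hn : 0 < n) :
    ((Finset.Ioc 1 (2 * n)).filter (fun b => g ∣ b)).card = 2 * n / g - 1 / g := by
  rw [count g _ _ (by omega)]

theorem hg1 (n : ℕ) (hn : 0 < n) (g : ℕ) (hg : 0 < g) :
    ((Om1 n).filter (fun a => g ∣ a)).card +
      ((Finset.Ioc n (2 * n)).filter (fun a => g ∣ a)).card ≤
      ((Finset.Ioc (3 * n) (6 * n)).filter (fun a => g ∣ a)).card := by
  rw [Om1, count_insert g _ _ (by rw [Finset.mem_Ioc]; omega), count_ioc n g hn,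
    count g _ _ (by omega), count g _ _ (by omega)]
  change _ - _ + ind g (2 * n + 1) + _ ≤ _
  have e0 := landau6 n g hg
  have e5 : n / g ≤ 2 * n / g := Nat.div_le_div_right (by omega)
  have e6 : 3 * n / g ≤ 6 * n / g := Nat.div_le_div_right (by omega)
  rcases ind_spec g (2 * n + 1) with ⟨h1, h2⟩ | ⟨h1, h2⟩
  · rw [h1]
    rcases Nat.lt_or_ge g 2 with h9 | h9
    · have : g = 1 := by omega
      subst this
      simp only [Nat.div_one] at *
      omega
    · have := landau6_strict n g 1 rfl (by omega) h2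
      generalize 6 * n / g = u6 at *
      generalize 3 * n / g = u3 at *
      generalize 2 * n / g = u2 at *
      generalize n / g = u at *
      generalize 1 / g = u1 at *
      omega
  · rw [h1]
    generalize 6 * n / g = u6 at *
    generalize 3 * n / g = u3 at *
    generalize 2 * n / g = u2 at *
    generalize n / g = u at *
    generalize 1 / g = u1 at *
    omega

theorem hg3 (n : ℕ) (hn : 3 ≤ n) (g : ℕ) (hg : 0 < g) :
    ((Om3 n).filter (fun a => g ∣ a)).card +
      ((Finset.Ioc n (2 * n)).filter (fun a => g ∣ a)).card ≤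
      ((Finset.Ioc (3 * n) (6 * n)).filter (fun a => g ∣ a)).card := by
  have c3 := count_erase g (Finset.Ioc 1 (2 * n)) 3 (Finset.mem_Ioc.2 ⟨by omega, by omega⟩)
  rw [count_ioc n g (by omega)] at c3
  rw [Om3, Om2, count_insert g _ _ (by
      simp only [Finset.mem_insert, Finset.mem_erase, Finset.mem_Ioc]; omega),
    count_insert g _ _ (by
      simp only [Finset.mem_erase, Finset.mem_Ioc]; omega),
    count g _ _ (by omega), count g _ _ (by omega)]
  change _ + ind g 3 = _ at c3
  change _ + ind g (2 * n + 3) + ind g (2 * n + 1) + _ ≤ _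
  have e0 := landau6 n g hg
  have e5 : n / g ≤ 2 * n / g := Nat.div_le_div_right (by omega)
  have e6 : 3 * n / g ≤ 6 * n / g := Nat.div_le_div_right (by omega)
  generalize (((Finset.Ioc 1 (2 * n)).erase 3).filter (fun b => g ∣ b)).card = N at *
  have s1 := ind_spec g (2 * n + 1)
  have s3 := ind_spec g (2 * n + 3)
  have t3 := ind_spec g 3
  rcases Nat.lt_or_ge g 5 with h9 | h9
  · generalize ind g (2 * n + 1) = i1 at *
    generalize ind g (2 * n + 3) = i3 at *
    generalize ind g 3 = j3 at *
    interval_cases g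
    · simp only [Nat.div_one] at *
      omega
    · omega
    · omega
    · omega
  · have st1 : g ∣ 2 * n + 1 → _ := landau6_strict n g 1 rfl (by omega)
    have st3 : g ∣ 2 * n + 3 → _ := landau6_strict n g 3 rfl (by omega)
    have n13 := not_two g (2 * n) 1 3 (by omega) (by omega)
    generalize 6 * n / g = u6 at *
    generalize 3 * n / g = u3 at *
    generalize 2 * n / g = u2 at *
    generalize n / g = u at *
    generalize 1 / g = u1 at *
    rcases s1 with ⟨a1, b1⟩ | ⟨a1, b1⟩ <;> rcases s3 with ⟨a3, b3⟩ | ⟨a3, b3⟩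
    · exact absurd (n13 b1 b3) not_false
    · have := st1 b1
      omega
    · have := st3 b3
      omega
    · omega

theorem hg5_aux (n : ℕ) (hn : 7 ≤ n) (g : ℕ) (hg : 0 < g) (h9 : g ≠ 9 ∨ n % 9 ≠ 1) :
    ((Om5 n).filter (fun a => g ∣ a)).card +
      ((Finset.Ioc n (2 * n)).filter (fun a => g ∣ a)).card ≤
      ((Finset.Ioc (3 * n) (6 * n)).filter (fun a => g ∣ a)).card := by
  have c3 := count_erase g (Finset.Ioc 1 (2 * n)) 3 (Finset.mem_Ioc.2 ⟨by omega, by omega⟩)
  have c5 := count_erase g ((Finset.Ioc 1 (2 * n)).erase 3) 5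
    (Finset.mem_erase.2 ⟨by omega, Finset.mem_Ioc.2 ⟨by omega, by omega⟩⟩)
  have c7 := count_erase g (((Finset.Ioc 1 (2 * n)).erase 3).erase 5) 7
    (Finset.mem_erase.2 ⟨by omega, Finset.mem_erase.2 ⟨by omega,
      Finset.mem_Ioc.2 ⟨by omega, by omega⟩⟩⟩)
  rw [count_ioc n g (by omega)] at c3
  rw [Om5, Om4, count_insert g _ _ (by
      simp only [Finset.mem_insert, Finset.mem_erase, Finset.mem_Ioc]; omega),
    count_insert g _ _ (by
      simp only [Finset.mem_insert, Finset.mem_erase, Finset.mem_Ioc]; omega),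
    count_insert g _ _ (by
      simp only [Finset.mem_insert, Finset.mem_erase, Finset.mem_Ioc]; omega),
    count_insert g _ _ (by
      simp only [Finset.mem_erase, Finset.mem_Ioc]; omega),
    count g _ _ (by omega), count g _ _ (by omega)]
  change _ + ind g 3 = _ at c3
  change _ + ind g 5 = _ at c5
  change _ + ind g 7 = _ at c7
  change _ + ind g (2 * n + 7) + ind g (2 * n + 5) + ind g (2 * n + 3) + ind g (2 * n + 1) + _ ≤ _
  have e0 := landau6 n g hg
  have e5 : n / g ≤ 2 * n / g := Nat.div_le_div_right (by omega)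
  have e6 : 3 * n / g ≤ 6 * n / g := Nat.div_le_div_right (by omega)
  generalize (((Finset.Ioc 1 (2 * n)).erase 3).filter (fun b => g ∣ b)).card = N3 at *
  generalize ((((Finset.Ioc 1 (2 * n)).erase 3).erase 5).filter (fun b => g ∣ b)).card = N5 at *
  generalize (((((Finset.Ioc 1 (2 * n)).erase 3).erase 5).erase 7).filter
    (fun b => g ∣ b)).card = N7 at *
  have s1 := ind_spec g (2 * n + 1)
  have s3 := ind_spec g (2 * n + 3)
  have s5 := ind_spec g (2 * n + 5)
  have s7 := ind_spec g (2 * n + 7)
  have t3 := ind_spec g 3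
  have t5 := ind_spec g 5
  have t7 := ind_spec g 7
  rcases Nat.lt_or_ge g 10 with h10 | h10
  · generalize ind g (2 * n + 1) = i1 at *
    generalize ind g (2 * n + 3) = i3 at *
    generalize ind g (2 * n + 5) = i5 at *
    generalize ind g (2 * n + 7) = i7 at *
    generalize ind g 3 = j3 at *
    generalize ind g 5 = j5 at *
    generalize ind g 7 = j7 at *
    interval_cases g
    · simp only [Nat.div_one] at *
      omega
    · omega
    · omega
    · omega
    · omega
    · omega
    · omega
    · omega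
    · omega
  · have st1 : g ∣ 2 * n + 1 → _ := landau6_strict n g 1 rfl (by omega)
    have st3 : g ∣ 2 * n + 3 → _ := landau6_strict n g 3 rfl (by omega)
    have st5 : g ∣ 2 * n + 5 → _ := landau6_strict n g 5 rfl (by omega)
    have st7 : g ∣ 2 * n + 7 → 3 * n / g + 2 * (2 * n / g) + 1 ≤ 6 * n / g + n / g := by
      intro h
      rcases Nat.eq_or_lt_of_le h10 with h | h'
      · exfalso
        subst h
        omega
      · exact landau6_strict n g 7 rfl (by omega) h
    have n13 := not_two g (2 * n) 1 3 (by omega) (by omega)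
    have n15 := not_two g (2 * n) 1 5 (by omega) (by omega)
    have n17 := not_two g (2 * n) 1 7 (by omega) (by omega)
    have n35 := not_two g (2 * n) 3 5 (by omega) (by omega)
    have n37 := not_two g (2 * n) 3 7 (by omega) (by omega)
    have n57 := not_two g (2 * n) 5 7 (by omega) (by omega)
    generalize 6 * n / g = u6 at *
    generalize 3 * n / g = u3 at *
    generalize 2 * n / g = u2 at *
    generalize n / g = u at *
    generalize 1 / g = u1 at *
    rcases s1 with ⟨a1, b1⟩ | ⟨a1, b1⟩
    · rcases s3 with ⟨a3, b3⟩ | ⟨a3, b3⟩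
      · exact (n13 b1 b3).elim
      rcases s5 with ⟨a5, b5⟩ | ⟨a5, b5⟩
      · exact (n15 b1 b5).elim
      rcases s7 with ⟨a7, b7⟩ | ⟨a7, b7⟩
      · exact (n17 b1 b7).elim
      have := st1 b1
      omega
    · rcases s3 with ⟨a3, b3⟩ | ⟨a3, b3⟩
      · rcases s5 with ⟨a5, b5⟩ | ⟨a5, b5⟩
        · exact (n35 b3 b5).elim
        rcases s7 with ⟨a7, b7⟩ | ⟨a7, b7⟩
        · exact (n37 b3 b7).elim
        have := st3 b3
        omega
      · rcases s5 with ⟨a5, b5⟩ | ⟨a5, b5⟩
        · rcases s7 with ⟨a7, b7⟩ | ⟨a7, b7⟩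
          · exact (n57 b5 b7).elim
          have := st5 b5
          omega
        · rcases s7 with ⟨a7, b7⟩ | ⟨a7, b7⟩
          · have := st7 b7
            omega
          · omega

end Pool.Agent.Q266.CIG
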