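import Pool.Agent.Q266.CIG

set_option autoImplicit false

/-!
# The ratios built from `(6 n)! n! / ((3 n)! (2 n)! ^ 2)`: positivity
-/

namespace Pool.Agent.Q266.CIH

open Polynomial
open Pool.Agent.TH416.CI Pool.Agent.Q266.CIW Pool.Agent.Q266.CIP Pool.Agent.Q266.CIA
  Pool.Agent.Q266.CIS Pool.Agent.Q266.CIF Pool.Agent.Q266.CIG

open Classical in
/-- the window criterion for the window `(3 n, 6 n]` and the doubled range `(n, 2 n]` -/
theorem window6 (n e : ℕ) (hn : 0 < n) (he : e ≤ n) (Ω : Finset ℕ)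
    (hΩ : ∀ a ∈ Ω, 1 ≤ a ∧ a ≤ 2 * n + e)
    (hg : ∀ g : ℕ, 0 < g → (Ω.filter (fun a => g ∣ a)).card +
      ((Finset.Ioc n (2 * n)).filter (fun a => g ∣ a)).card ≤
      ((Finset.Ioc (3 * n) (6 * n)).filter (fun a => g ∣ a)).card) :
    ∀ A ⊆ Ω, A.card + (A ∩ Finset.Ioc n (2 * n)).card ≤
      ((Finset.Ioc (3 * n) (6 * n)).filter (fun b => b ∈ cl A)).card := by
  refine window Ω (Finset.Ioc n (2 * n)) (Finset.Ioc (3 * n) (6 * n)) (2 * n + e) (6 * n) 2 n (2 * n)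
    hΩ (by omega) (by omega) ?_ ?_ ?_ (by omega) ?_ hg
  · intro x hx
    rw [Finset.mem_Ioc] at hx ⊢
    omega
  · intro x hx
    rw [Finset.mem_Ioc] at hx
    omega
  · intro x hx
    rw [Finset.mem_Ioc] at hx
    omega
  · intro x hx
    rw [Finset.mem_Icc] at hx
    rw [Finset.mem_Ioc]
    omega

theorem pos6 (n e u : ℕ) (bs : List ℕ) (hn : 0 < n) (he : e ≤ n) (Ω : Finset ℕ)
    (hΩ : ∀ a ∈ Ω, 1 ≤ a ∧ a ≤ 2 * n + e) (hD : Finset.Ioc n (2 * n) ⊆ Ω)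
    (hbs : ∀ b ∈ bs, 1 ≤ b) (hcard : Ω.card + u = 2 * n + bs.length)
    (hg : ∀ g : ℕ, 0 < g → (Ω.filter (fun a => g ∣ a)).card +
      ((Finset.Ioc n (2 * n)).filter (fun a => g ∣ a)).card ≤
      ((Finset.Ioc (3 * n) (6 * n)).filter (fun a => g ∣ a)).card) :
    ∃ P : Polynomial ℤ, (∀ e, 0 ≤ P.coeff e) ∧
      (∏ b ∈ Finset.Ioc (3 * n) (6 * n), ((1 : Polynomial ℤ) - X ^ b)) *
          (bs.map (fun b => (1 : Polynomial ℤ) - X ^ b)).prod =
        P * ((∏ a ∈ Ω, ((1 : Polynomial ℤ) - X ^ a)) *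
          (∏ a ∈ Finset.Ioc n (2 * n), ((1 : Polynomial ℤ) - X ^ a)) * (1 - X) ^ u) := by
  classical
  refine posRatio Ω (Finset.Ioc n (2 * n)) (Finset.Ioc (3 * n) (6 * n)) u bs hD
    (fun a ha => (hΩ a ha).1) ?_ hbs ?_ ?_
  · intro b hb
    rw [Finset.mem_Ioc] at hb
    omega
  · rw [Nat.card_Ioc, Nat.card_Ioc]
    omega
  · intro A hA
    exact (window6 n e hn he Ω hΩ hg A hA).trans (Nat.le_add_right _ _)

open Classical in
/-- the same with the additional degree `9` -/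
theorem pos6_nine (n e u : ℕ) (bs : List ℕ) (hn : 10 ≤ n) (he : e ≤ n) (Ω : Finset ℕ)
    (hΩ : ∀ a ∈ Ω, 1 ≤ a ∧ a ≤ 2 * n + e) (hD : Finset.Ioc n (2 * n) ⊆ Ω)
    (hbs : ∀ b ∈ bs, 1 ≤ b) (h9 : 9 ∈ bs) (hcard : Ω.card + u = 2 * n + bs.length)
    (hg : ∀ g : ℕ, 0 < g → ((Ω.erase 9).filter (fun a => g ∣ a)).card +
      ((Finset.Ioc n (2 * n)).filter (fun a => g ∣ a)).card ≤
      ((Finset.Ioc (3 * n) (6 * n)).filter (fun a => g ∣ a)).card) :
    ∃ P : Polynomial ℤ, (∀ e, 0 ≤ P.coeff e) ∧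
      (∏ b ∈ Finset.Ioc (3 * n) (6 * n), ((1 : Polynomial ℤ) - X ^ b)) *
          (bs.map (fun b => (1 : Polynomial ℤ) - X ^ b)).prod =
        P * ((∏ a ∈ Ω, ((1 : Polynomial ℤ) - X ^ a)) *
          (∏ a ∈ Finset.Ioc n (2 * n), ((1 : Polynomial ℤ) - X ^ a)) * (1 - X) ^ u) := by
  have hwin := window6 n e (by omega) he (Ω.erase 9)
    (fun a ha => hΩ a (Finset.mem_of_mem_erase ha)) hg
  refine posRatio Ω (Finset.Ioc n (2 * n)) (Finset.Ioc (3 * n) (6 * n)) u bs hD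
    (fun a ha => (hΩ a ha).1) ?_ hbs ?_ ?_
  · intro b hb
    rw [Finset.mem_Ioc] at hb
    omega
  · rw [Nat.card_Ioc, Nat.card_Ioc]
    omega
  · intro A hA
    by_cases h9A : 9 ∈ A
    · have h1 := hwin (A.erase 9) (Finset.erase_subset_erase 9 hA)
      have h2 : (A.erase 9) ∩ Finset.Ioc n (2 * n) = A ∩ Finset.Ioc n (2 * n) := by
        ext x
        rw [Finset.mem_inter, Finset.mem_inter, Finset.mem_erase, Finset.mem_Ioc]
        constructor
        · rintro ⟨⟨_, h⟩, h'⟩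
          exact ⟨h, h'⟩
        · rintro ⟨h, h'⟩
          exact ⟨⟨by omega, h⟩, h'⟩
      have h3 : ((Finset.Ioc (3 * n) (6 * n)).filter (fun b => b ∈ cl (A.erase 9))).card ≤
          ((Finset.Ioc (3 * n) (6 * n)).filter (fun b => b ∈ cl A)).card := by
        apply Finset.card_le_card
        intro x hx
        rw [Finset.mem_filter] at hx ⊢
        refine ⟨hx.1, AddSubmonoid.closure_mono ?_ hx.2⟩
        exact_mod_cast Finset.erase_subset 9 A
      have h4 : 0 < bs.countP (fun b => decide (b ∈ cl A)) := by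
        rw [List.countP_pos_iff]
        exact ⟨9, h9, decide_eq_true (mem_cl h9A)⟩
      have h5 := Finset.card_erase_add_one h9A
      rw [h2] at h1
      omega
    · have h1 := hwin A (by
        intro x hx
        rw [Finset.mem_erase]
        exact ⟨fun h => h9A (h ▸ hx), hA hx⟩)
      exact h1.trans (Nat.le_add_right _ _)

theorem qf6 (n : ℕ) : qf (6 * n) = qf (3 * n) *
    ∏ i ∈ Finset.Ioc (3 * n) (6 * n), ((1 : Polynomial ℤ) - X ^ i) :=
  qf_split _ _ (by omega)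

theorem qf2_sq (n : ℕ) (hn : 0 < n) : qf (2 * n) ^ 2 =
    (qf n * ∏ i ∈ Finset.Ioc n (2 * n), ((1 : Polynomial ℤ) - X ^ i)) *
      ((1 - X) * ∏ i ∈ Finset.Ioc 1 (2 * n), ((1 : Polynomial ℤ) - X ^ i)) := by
  rw [← qf_split n (2 * n) (by omega), ← qf_one (2 * n) (by omega), pow_two]

theorem insert_prod (S : Finset ℕ) (x : ℕ) (hx : x ∉ S) :
    ∏ i ∈ insert x S, ((1 : Polynomial ℤ) - X ^ i) =
      (1 - X ^ x) * ∏ i ∈ S, ((1 : Polynomial ℤ) - X ^ i) :=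
  Finset.prod_insert hx

theorem pos1 (n : ℕ) (hn : 0 < n) : ∃ P : Polynomial ℤ, (∀ e, 0 ≤ P.coeff e) ∧
    (1 - X) * (qf (6 * n) * qf n) =
      P * ((1 - X ^ (2 * n + 1)) * (qf (3 * n) * qf (2 * n) ^ 2)) := by
  obtain ⟨P, hP, hPe⟩ := pos6 n 1 0 [] hn (by omega) (Om1 n) (by
      intro a ha
      rw [Om1, Finset.mem_insert, Finset.mem_Ioc] at ha
      omega)
    (by
      intro a ha
      rw [Finset.mem_Ioc] at ha
      rw [Om1, Finset.mem_insert, Finset.mem_Ioc]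
      omega)
    (by simp)
    (by
      rw [Om1, Finset.card_insert_of_notMem (by rw [Finset.mem_Ioc]; omega), Nat.card_Ioc]
      simp only [List.length_nil]
      omega)
    (fun g hg => hg1 n hn g hg)
  refine ⟨P, hP, ?_⟩
  rw [List.map_nil, List.prod_nil, mul_one, pow_zero, mul_one, Om1,
    insert_prod _ _ (by rw [Finset.mem_Ioc]; omega)] at hPe
  rw [qf6 n, qf2_sq n hn, hPe]
  ring

theorem pos2 (n : ℕ) (hn : 3 ≤ n) : ∃ P : Polynomial ℤ, (∀ e, 0 ≤ P.coeff e) ∧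
    (1 - X ^ 3) * (qf (6 * n) * qf n) =
      P * ((1 - X ^ (2 * n + 3)) * (qf (3 * n) * qf (2 * n) ^ 2)) := by
  obtain ⟨P, hP, hPe⟩ := pos6 n 3 1 [] (by omega) (by omega) (Om2 n) (by
      intro a ha
      rw [Om2, Finset.mem_insert, Finset.mem_erase, Finset.mem_Ioc] at ha
      omega)
    (by
      intro a ha
      rw [Finset.mem_Ioc] at ha
      rw [Om2, Finset.mem_insert, Finset.mem_erase, Finset.mem_Ioc]
      omega)
    (by simp)
    (by
      rw [Om2, Finset.card_insert_of_notMem (by rw [Finset.mem_erase, Finset.mem_Ioc]; omega),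
        Finset.card_erase_of_mem (Finset.mem_Ioc.2 ⟨by omega, by omega⟩), Nat.card_Ioc]
      simp only [List.length_nil]
      omega)
    (fun g hg => by
      refine le_trans (Nat.add_le_add_right (Finset.card_le_card ?_) _) (hg3 n hn g hg)
      exact Finset.filter_subset_filter _ (Finset.subset_insert _ _))
  refine ⟨P, hP, ?_⟩
  rw [List.map_nil, List.prod_nil, mul_one, pow_one, Om2,
    insert_prod _ _ (by rw [Finset.mem_erase, Finset.mem_Ioc]; omega)] at hPe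
  rw [qf6 n, qf2_sq n (by omega), hPe,
    erase_prod (Finset.Ioc 1 (2 * n)) 3 (Finset.mem_Ioc.2 ⟨by omega, by omega⟩)]
  ring

theorem pos3 (n : ℕ) (hn : 3 ≤ n) : ∃ P : Polynomial ℤ, (∀ e, 0 ≤ P.coeff e) ∧
    (1 - X) * (1 - X ^ 3) * (qf (6 * n) * qf n) =
      P * ((1 - X ^ (2 * n + 1)) * (1 - X ^ (2 * n + 3)) * (qf (3 * n) * qf (2 * n) ^ 2)) := by
  have hm1 : 2 * n + 1 ∉ Om2 n := by
    rw [Om2, Finset.mem_insert, Finset.mem_erase, Finset.mem_Ioc]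
    omega
  obtain ⟨P, hP, hPe⟩ := pos6 n 3 0 [] (by omega) (by omega) (Om3 n) (by
      intro a ha
      rw [Om3, Om2, Finset.mem_insert, Finset.mem_insert, Finset.mem_erase, Finset.mem_Ioc] at ha
      omega)
    (by
      intro a ha
      rw [Finset.mem_Ioc] at ha
      rw [Om3, Om2, Finset.mem_insert, Finset.mem_insert, Finset.mem_erase, Finset.mem_Ioc]
      omega)
    (by simp)
    (by
      rw [Om3, Finset.card_insert_of_notMem hm1, Om2,
        Finset.card_insert_of_notMem (by rw [Finset.mem_erase, Finset.mem_Ioc]; omega),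
        Finset.card_erase_of_mem (Finset.mem_Ioc.2 ⟨by omega, by omega⟩), Nat.card_Ioc]
      simp only [List.length_nil]
      omega)
    (fun g hg => hg3 n hn g hg)
  refine ⟨P, hP, ?_⟩
  rw [List.map_nil, List.prod_nil, mul_one, pow_zero, mul_one, Om3, insert_prod _ _ hm1, Om2,
    insert_prod _ _ (by rw [Finset.mem_erase, Finset.mem_Ioc]; omega)] at hPe
  rw [qf6 n, qf2_sq n (by omega), hPe,
    erase_prod (Finset.Ioc 1 (2 * n)) 3 (Finset.mem_Ioc.2 ⟨by omega, by omega⟩)]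
  ring

section

variable (n : ℕ) (hn : 7 ≤ n)
include hn

theorem m3 : 3 ∈ Finset.Ioc 1 (2 * n) := Finset.mem_Ioc.2 ⟨by omega, by omega⟩
theorem m5 : 5 ∈ (Finset.Ioc 1 (2 * n)).erase 3 :=
  Finset.mem_erase.2 ⟨by omega, Finset.mem_Ioc.2 ⟨by omega, by omega⟩⟩
theorem m7 : 7 ∈ ((Finset.Ioc 1 (2 * n)).erase 3).erase 5 :=
  Finset.mem_erase.2 ⟨by omega, Finset.mem_erase.2 ⟨by omega,
      Finset.mem_Ioc.2 ⟨by omega, by omega⟩⟩⟩

omit hn in
theorem mem4 (x : ℕ) : x ∈ Om4 n ↔ x = 2 * n + 3 ∨ x = 2 * n + 5 ∨ x = 2 * n + 7 ∨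
    (x ≠ 7 ∧ x ≠ 5 ∧ x ≠ 3 ∧ 1 < x ∧ x ≤ 2 * n) := by
  simp only [Om4, Finset.mem_insert, Finset.mem_erase, Finset.mem_Ioc]

omit hn in
theorem mem5 (x : ℕ) : x ∈ Om5 n ↔ x = 2 * n + 1 ∨ x ∈ Om4 n := by
  rw [Om5, Finset.mem_insert]

omit hn in
theorem n1 : 2 * n + 1 ∉ Om4 n := by
  rw [mem4]
  omega

omit hn in
theorem n3 : 2 * n + 3 ∉ (insert (2 * n + 5) (insert (2 * n + 7)
    ((((Finset.Ioc 1 (2 * n)).erase 3).erase 5).erase 7)) : Finset ℕ) := by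
  simp only [Finset.mem_insert, Finset.mem_erase, Finset.mem_Ioc]
  omega

omit hn in
theorem n5 : 2 * n + 5 ∉ (insert (2 * n + 7)
    ((((Finset.Ioc 1 (2 * n)).erase 3).erase 5).erase 7) : Finset ℕ) := by
  simp only [Finset.mem_insert, Finset.mem_erase, Finset.mem_Ioc]
  omega

omit hn in
theorem n7 : 2 * n + 7 ∉ ((((Finset.Ioc 1 (2 * n)).erase 3).erase 5).erase 7 : Finset ℕ) := by
  simp only [Finset.mem_erase, Finset.mem_Ioc]
  omega

theorem card4 : (Om4 n).card = 2 * n - 1 := by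
  rw [Om4, Finset.card_insert_of_notMem (n3 n), Finset.card_insert_of_notMem (n5 n),
    Finset.card_insert_of_notMem (n7 n), Finset.card_erase_of_mem (m7 n hn),
    Finset.card_erase_of_mem (m5 n hn), Finset.card_erase_of_mem (m3 n hn), Nat.card_Ioc]
  omega

theorem card5 : (Om5 n).card = 2 * n := by
  rw [Om5, Finset.card_insert_of_notMem (n1 n), card4 n hn]
  omega

theorem prod4 : (1 - X ^ 3) * (1 - X ^ 5) * (1 - X ^ 7) *
    ∏ i ∈ Om4 n, ((1 : Polynomial ℤ) - X ^ i) =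
    (1 - X ^ (2 * n + 3)) * (1 - X ^ (2 * n + 5)) * (1 - X ^ (2 * n + 7)) *
      ∏ i ∈ Finset.Ioc 1 (2 * n), ((1 : Polynomial ℤ) - X ^ i) := by
  rw [Om4, insert_prod _ _ (n3 n), insert_prod _ _ (n5 n), insert_prod _ _ (n7 n),
    erase_prod (Finset.Ioc 1 (2 * n)) 3 (m3 n hn), erase_prod _ 5 (m5 n hn),
    erase_prod _ 7 (m7 n hn)]
  ring

theorem bd4 : ∀ a ∈ Om4 n, 1 ≤ a ∧ a ≤ 2 * n + 7 := by
  intro a ha
  rw [mem4] at ha
  omega

theorem bd5 : ∀ a ∈ Om5 n, 1 ≤ a ∧ a ≤ 2 * n + 7 := by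
  intro a ha
  rw [mem5, mem4] at ha
  omega

theorem sub4 : Finset.Ioc n (2 * n) ⊆ Om4 n := by
  intro a ha
  rw [Finset.mem_Ioc] at ha
  rw [mem4]
  omega

theorem pos5 (h9 : n % 9 ≠ 1) : ∃ P : Polynomial ℤ, (∀ e, 0 ≤ P.coeff e) ∧
    (1 - X ^ 3) ^ 2 * (1 - X ^ 5) * (1 - X ^ 7) * (qf (6 * n) * qf n) =
      P * ((1 - X ^ (2 * n + 1)) * (1 - X ^ (2 * n + 3)) * (1 - X ^ (2 * n + 5)) *
        (1 - X ^ (2 * n + 7)) * (qf (3 * n) * qf (2 * n) ^ 2)) := by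
  obtain ⟨P, hP, hPe⟩ := pos6 n 7 1 [3] (by omega) (by omega) (Om5 n) (bd5 n hn)
    ((sub4 n hn).trans (Finset.subset_insert _ _)) (by simp)
    (by rw [card5 n hn, List.length_singleton])
    (fun g hg => hg5_aux n hn g hg (Or.inr h9))
  refine ⟨P, hP, ?_⟩
  rw [List.map_cons, List.map_nil, List.prod_cons, List.prod_nil, mul_one, pow_one, Om5,
    insert_prod _ _ (n1 n)] at hPe
  rw [qf6 n, qf2_sq n (by omega)]
  linear_combination (1 - X ^ 3) * (1 - X ^ 5) * (1 - X ^ 7) * qf (3 * n) * qf n * hPe +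
    P * (1 - X ^ (2 * n + 1)) * qf (3 * n) * qf n * (1 - X) *
      (∏ i ∈ Finset.Ioc n (2 * n), ((1 : Polynomial ℤ) - X ^ i)) * prod4 n hn

theorem pos4 (h9 : n % 9 ≠ 1) : ∃ P : Polynomial ℤ, (∀ e, 0 ≤ P.coeff e) ∧
    (1 - X ^ 3) * (1 - X ^ 5) * (1 - X ^ 7) * (qf (6 * n) * qf n) =
      P * ((1 - X ^ (2 * n + 3)) * (1 - X ^ (2 * n + 5)) *
        (1 - X ^ (2 * n + 7)) * (qf (3 * n) * qf (2 * n) ^ 2)) := by
  obtain ⟨P, hP, hPe⟩ := pos6 n 7 1 [] (by omega) (by omega) (Om4 n) (bd4 n hn)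
    (sub4 n hn) (by simp)
    (by rw [card4 n hn, List.length_nil]; omega)
    (fun g hg => by
      refine le_trans (Nat.add_le_add_right (Finset.card_le_card ?_) _)
        (hg5_aux n hn g hg (Or.inr h9))
      exact Finset.filter_subset_filter _ (Finset.subset_insert _ _))
  refine ⟨P, hP, ?_⟩
  rw [List.map_nil, List.prod_nil, mul_one, pow_one] at hPe
  rw [qf6 n, qf2_sq n (by omega)]
  linear_combination (1 - X ^ 3) * (1 - X ^ 5) * (1 - X ^ 7) * qf (3 * n) * qf n * hPe +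
    P * qf (3 * n) * qf n * (1 - X) *
      (∏ i ∈ Finset.Ioc n (2 * n), ((1 : Polynomial ℤ) - X ^ i)) * prod4 n hn

end

/-- multiples of `9` -/
theorem count9 (n : ℕ) (hn : 10 ≤ n) :
    ((Om5 n).filter (fun a => 9 ∣ a)).card +
      ((Finset.Ioc n (2 * n)).filter (fun a => 9 ∣ a)).card ≤
      ((Finset.Ioc (3 * n) (6 * n)).filter (fun a => 9 ∣ a)).card + 1 := by
  by_cases h9 : n % 9 ≠ 1
  · exact (hg5_aux n (by omega) 9 (by norm_num) (Or.inr h9)).trans (Nat.le_succ _)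
  have c3 := count_erase 9 (Finset.Ioc 1 (2 * n)) 3 (m3 n (by omega))
  have c5 := count_erase 9 _ 5 (m5 n (by omega))
  have c7 := count_erase 9 _ 7 (m7 n (by omega))
  rw [count_ioc n 9 (by omega)] at c3
  rw [Om5, count_insert 9 _ _ (n1 n), Om4, count_insert 9 _ _ (n3 n), count_insert 9 _ _ (n5 n),
    count_insert 9 _ _ (n7 n), count 9 _ _ (by omega), count 9 _ _ (by omega)]
  change _ + ind 9 3 = _ at c3
  change _ + ind 9 5 = _ at c5
  change _ + ind 9 7 = _ at c7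
  change _ + ind 9 (2 * n + 7) + ind 9 (2 * n + 5) + ind 9 (2 * n + 3) + ind 9 (2 * n + 1) + _ ≤ _
  generalize (((Finset.Ioc 1 (2 * n)).erase 3).filter (fun b => 9 ∣ b)).card = N3 at *
  generalize ((((Finset.Ioc 1 (2 * n)).erase 3).erase 5).filter (fun b => 9 ∣ b)).card = N5 at *
  generalize (((((Finset.Ioc 1 (2 * n)).erase 3).erase 5).erase 7).filter
    (fun b => 9 ∣ b)).card = N7 at *
  have s1 := ind_spec 9 (2 * n + 1)
  have s3 := ind_spec 9 (2 * n + 3)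
  have s5 := ind_spec 9 (2 * n + 5)
  have s7 := ind_spec 9 (2 * n + 7)
  generalize ind 9 (2 * n + 1) = i1 at *
  generalize ind 9 (2 * n + 3) = i3 at *
  generalize ind 9 (2 * n + 5) = i5 at *
  generalize ind 9 (2 * n + 7) = i7 at *
  omega

theorem hg5_nine (n : ℕ) (hn : 10 ≤ n) (g : ℕ) (hg : 0 < g) :
    (((Om5 n).erase 9).filter (fun a => g ∣ a)).card +
      ((Finset.Ioc n (2 * n)).filter (fun a => g ∣ a)).card ≤
      ((Finset.Ioc (3 * n) (6 * n)).filter (fun a => g ∣ a)).card := by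
  by_cases h : g = 9
  · subst h
    have h1 := count_erase 9 (Om5 n) 9 (by
      rw [mem5, mem4]
      omega)
    rw [if_pos (dvd_refl 9)] at h1
    have := count9 n hn
    omega
  · refine le_trans (Nat.add_le_add_right (Finset.card_le_card ?_) _)
        (hg5_aux n (by omega) g hg (Or.inl h))
    exact Finset.filter_subset_filter _ (Finset.erase_subset _ _)

theorem pos5_nine (n : ℕ) (hn : 10 ≤ n) : ∃ P : Polynomial ℤ, (∀ e, 0 ≤ P.coeff e) ∧
    (1 - X ^ 9) * ((1 - X ^ 3) ^ 2 * (1 - X ^ 5) * (1 - X ^ 7) * (qf (6 * n) * qf n)) =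
      P * ((1 - X) * ((1 - X ^ (2 * n + 1)) * (1 - X ^ (2 * n + 3)) * (1 - X ^ (2 * n + 5)) *
        (1 - X ^ (2 * n + 7)) * (qf (3 * n) * qf (2 * n) ^ 2))) := by
  have hn7 : 7 ≤ n := by omega
  obtain ⟨P, hP, hPe⟩ := pos6_nine n 7 2 [3, 9] (by omega) (by omega) (Om5 n) (bd5 n hn7)
    ((sub4 n hn7).trans (Finset.subset_insert _ _)) (by simp) (by simp)
    (by rw [card5 n hn7]; rfl)
    (fun g hg => hg5_nine n hn g hg)
  refine ⟨P, hP, ?_⟩
  rw [List.map_cons, List.map_cons, List.map_nil, List.prod_cons, List.prod_cons, List.prod_nil,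
    mul_one, Om5, insert_prod _ _ (n1 n)] at hPe
  rw [qf6 n, qf2_sq n (by omega)]
  linear_combination (1 - X ^ 3) * (1 - X ^ 5) * (1 - X ^ 7) * qf (3 * n) * qf n * hPe +
    P * (1 - X ^ (2 * n + 1)) * qf (3 * n) * qf n * (1 - X) ^ 2 *
      (∏ i ∈ Finset.Ioc n (2 * n), ((1 : Polynomial ℤ) - X ^ i)) * prod4 n hn7

theorem pos4_nine (n : ℕ) (hn : 10 ≤ n) : ∃ P : Polynomial ℤ, (∀ e, 0 ≤ P.coeff e) ∧
    (1 - X ^ 9) * ((1 - X ^ 3) * (1 - X ^ 5) * (1 - X ^ 7) * (qf (6 * n) * qf n)) =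
      P * ((1 - X) * ((1 - X ^ (2 * n + 3)) * (1 - X ^ (2 * n + 5)) *
        (1 - X ^ (2 * n + 7)) * (qf (3 * n) * qf (2 * n) ^ 2))) := by
  have hn7 : 7 ≤ n := by omega
  obtain ⟨P, hP, hPe⟩ := pos6_nine n 7 2 [9] (by omega) (by omega) (Om4 n) (bd4 n hn7)
    (sub4 n hn7) (by simp) (by simp)
    (by rw [card4 n hn7, List.length_singleton]; omega)
    (fun g hg => by
      refine le_trans (Nat.add_le_add_right (Finset.card_le_card ?_) _) (hg5_nine n hn g hg)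
      exact Finset.filter_subset_filter _ (Finset.erase_subset_erase _ (Finset.subset_insert _ _)))
  refine ⟨P, hP, ?_⟩
  rw [List.map_cons, List.map_nil, List.prod_cons, List.prod_nil, mul_one] at hPe
  rw [qf6 n, qf2_sq n (by omega)]
  linear_combination (1 - X ^ 3) * (1 - X ^ 5) * (1 - X ^ 7) * qf (3 * n) * qf n * hPe +
    P * qf (3 * n) * qf n * (1 - X) ^ 2 *
      (∏ i ∈ Finset.Ioc n (2 * n), ((1 : Polynomial ℤ) - X ^ i)) * prod4 n hn7

end Pool.Agent.Q266.CIH
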