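import Pool.Agent.Q266.CIH

set_option autoImplicit false

/-!
# The ratios built from `(6 n)! n! / ((3 n)! (2 n)! ^ 2)`: small cases and failure of divisibility
-/

namespace Pool.Agent.Q266.CII

open Polynomial
open Pool.Agent.Q266.CIF Pool.Agent.Q266.CIS Pool.Agent.Q266.CIH

/-- numerators and denominators -/
noncomputable def N2 (n : ℕ) : Polynomial ℤ := (1 - X ^ 3) * (qf (6 * n) * qf n)
noncomputable def D2 (n : ℕ) : Polynomial ℤ := (1 - X ^ (2 * n + 3)) * (qf (3 * n) * qf (2 * n) ^ 2)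
noncomputable def N3 (n : ℕ) : Polynomial ℤ := (1 - X) * (1 - X ^ 3) * (qf (6 * n) * qf n)
noncomputable def D3 (n : ℕ) : Polynomial ℤ :=
  (1 - X ^ (2 * n + 1)) * (1 - X ^ (2 * n + 3)) * (qf (3 * n) * qf (2 * n) ^ 2)
noncomputable def N4 (n : ℕ) : Polynomial ℤ :=
  (1 - X ^ 3) * (1 - X ^ 5) * (1 - X ^ 7) * (qf (6 * n) * qf n)
noncomputable def D4 (n : ℕ) : Polynomial ℤ :=
  (1 - X ^ (2 * n + 3)) * (1 - X ^ (2 * n + 5)) * (1 - X ^ (2 * n + 7)) *
    (qf (3 * n) * qf (2 * n) ^ 2)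
noncomputable def N5 (n : ℕ) : Polynomial ℤ :=
  (1 - X ^ 3) ^ 2 * (1 - X ^ 5) * (1 - X ^ 7) * (qf (6 * n) * qf n)
noncomputable def D5 (n : ℕ) : Polynomial ℤ :=
  (1 - X ^ (2 * n + 1)) * (1 - X ^ (2 * n + 3)) * (1 - X ^ (2 * n + 5)) *
        (1 - X ^ (2 * n + 7)) * (qf (3 * n) * qf (2 * n) ^ 2)

/-- `N = P D` with a polynomial `P` having non-negative coefficients -/
def Good (N D : Polynomial ℤ) : Prop := ∃ P : Polynomial ℤ, (∀ e, 0 ≤ P.coeff e) ∧ N = P * D

theorem key (n : ℕ) (a b : List ℕ) (bs ws : List ℕ)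
    (h : ∃ P : Polynomial ℤ, (∀ e, 0 ≤ P.coeff e) ∧
      (bs.map (fun w => (1 : Polynomial ℤ) - X ^ w)).prod =
        P * (ws.map (fun w => (1 : Polynomial ℤ) - X ^ w)).prod)
    (h1 : (a ++ (rg (6 * n) ++ rg n)).Perm ((a ++ (rg (6 * n) ++ rg n)).diff bs ++ bs))
    (h2 : (b ++ (rg (3 * n) ++ (rg (2 * n) ++ rg (2 * n)))).Perm
      ((a ++ (rg (6 * n) ++ rg n)).diff bs ++ ws)) :
    Good ((a.map (fun w => (1 : Polynomial ℤ) - X ^ w)).prod * (qf (6 * n) * qf n))
      ((b.map (fun w => (1 : Polynomial ℤ) - X ^ w)).prod * (qf (3 * n) * qf (2 * n) ^ 2)) := by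
  obtain ⟨P, hP, hPe⟩ := small_of _ _ bs ws h1 h2 h
  refine ⟨P, hP, ?_⟩
  simp only [List.map_append, List.prod_append, rg_prod] at hPe
  rw [hPe]
  ring

theorem good2 (n : ℕ) (hn : 0 < n) : Good (N2 n) (D2 n) := by
  rcases Nat.lt_or_ge n 3 with h | h
  · have e : ∀ n, N2 n = (([3] : List ℕ).map (fun w => (1 : Polynomial ℤ) - X ^ w)).prod *
      (qf (6 * n) * qf n) := by
      intro n
      simp [N2]
    have e' : ∀ n, D2 n = (([2 * n + 3] : List ℕ).map (fun w => (1 : Polynomial ℤ) - X ^ w)).prod *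
      (qf (3 * n) * qf (2 * n) ^ 2) := by
      intro n
      simp [D2]
    rw [e, e']
    interval_cases n
    · exact key 1 _ _ _ _ small_P2_1 (by decide +kernel) (by decide +kernel)
    · exact key 2 _ _ _ _ small_P2_2 (by decide +kernel) (by decide +kernel)
  · exact pos2 n h

theorem good3 (n : ℕ) (hn : 0 < n) : Good (N3 n) (D3 n) := by
  rcases Nat.lt_or_ge n 3 with h | h
  · have e : ∀ n, N3 n = (([1, 3] : List ℕ).map (fun w => (1 : Polynomial ℤ) - X ^ w)).prod *
      (qf (6 * n) * qf n) := by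
      intro n
      simp [N3]
    have e' : ∀ n, D3 n = (([2 * n + 1, 2 * n + 3] : List ℕ).map
      (fun w => (1 : Polynomial ℤ) - X ^ w)).prod * (qf (3 * n) * qf (2 * n) ^ 2) := by
      intro n
      simp [D3]
    rw [e, e']
    interval_cases n
    · exact key 1 _ _ _ _ small_P3_1 (by decide +kernel) (by decide +kernel)
    · exact key 2 _ _ _ _ small_P3_2 (by decide +kernel) (by decide +kernel)
  · exact pos3 n h

theorem good4 (n : ℕ) (hn : 2 ≤ n) (h9 : n % 9 ≠ 1) : Good (N4 n) (D4 n) := by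
  rcases Nat.lt_or_ge n 7 with h | h
  · have e : ∀ n, N4 n = (([3, 5, 7] : List ℕ).map (fun w => (1 : Polynomial ℤ) - X ^ w)).prod *
      (qf (6 * n) * qf n) := by
      intro n
      simp only [N4, List.map_cons, List.map_nil, List.prod_cons, List.prod_nil]
      ring
    have e' : ∀ n, D4 n = (([2 * n + 3, 2 * n + 5, 2 * n + 7] : List ℕ).map
      (fun w => (1 : Polynomial ℤ) - X ^ w)).prod * (qf (3 * n) * qf (2 * n) ^ 2) := by
      intro n
      simp only [D4, List.map_cons, List.map_nil, List.prod_cons, List.prod_nil]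
      ring
    rw [e, e']
    interval_cases n
    · exact key 2 _ _ _ _ small_P4_2 (by decide +kernel) (by decide +kernel)
    · exact key 3 _ _ _ _ small_P4_3 (by decide +kernel) (by decide +kernel)
    · exact key 4 _ _ _ _ small_P4_4 (by decide +kernel) (by decide +kernel)
    · exact key 5 _ _ _ _ small_P4_5 (by decide +kernel) (by decide +kernel)
    · exact key 6 _ _ _ _ small_P4_6 (by decide +kernel) (by decide +kernel)
  · exact pos4 n h h9

theorem good5 (n : ℕ) (hn : 2 ≤ n) (h9 : n % 9 ≠ 1) : Good (N5 n) (D5 n) := by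
  rcases Nat.lt_or_ge n 7 with h | h
  · have e : ∀ n, N5 n = (([3, 3, 5, 7] : List ℕ).map (fun w => (1 : Polynomial ℤ) - X ^ w)).prod *
      (qf (6 * n) * qf n) := by
      intro n
      simp only [N5, List.map_cons, List.map_nil, List.prod_cons, List.prod_nil]
      ring
    have e' : ∀ n, D5 n = (([2 * n + 1, 2 * n + 3, 2 * n + 5, 2 * n + 7] : List ℕ).map
      (fun w => (1 : Polynomial ℤ) - X ^ w)).prod * (qf (3 * n) * qf (2 * n) ^ 2) := by
      intro n
      simp only [D5, List.map_cons, List.map_nil, List.prod_cons, List.prod_nil]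
      ring
    rw [e, e']
    interval_cases n
    · exact key 2 _ _ _ _ small_P5_2 (by decide +kernel) (by decide +kernel)
    · exact key 3 _ _ _ _ small_P5_3 (by decide +kernel) (by decide +kernel)
    · exact key 4 _ _ _ _ small_P5_4 (by decide +kernel) (by decide +kernel)
    · exact key 5 _ _ _ _ small_P5_5 (by decide +kernel) (by decide +kernel)
    · exact key 6 _ _ _ _ small_P5_6 (by decide +kernel) (by decide +kernel)
  · exact pos5 n h h9

/-! ### the order at a primitive ninth root of unity -/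

/-- a primitive ninth root of unity -/
noncomputable def ze : ℂ := Complex.exp (2 * Real.pi * Complex.I / (9 : ℕ))

theorem ze_prim : IsPrimitiveRoot ze 9 := Complex.isPrimitiveRoot_exp 9 (by norm_num)

/-- the embedding in complex polynomials -/
noncomputable def pc : Polynomial ℤ →+* Polynomial ℂ := Polynomial.mapRingHom (Int.castRingHom ℂ)

theorem pc_inj : Function.Injective pc :=
  Polynomial.map_injective _ (RingHom.injective_int _)

theorem fac_ne (k : ℕ) (hk : 0 < k) : (1 : Polynomial ℤ) - Polynomial.X ^ k ≠ 0 := by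
  intro h
  have h1 := congrArg (Polynomial.eval 0) h
  rw [Polynomial.eval_sub, Polynomial.eval_one, Polynomial.eval_pow, Polynomial.eval_X,
    zero_pow hk.ne', sub_zero, Polynomial.eval_zero] at h1
  exact one_ne_zero h1

theorem qf_ne (m : ℕ) : qf m ≠ 0 := by
  rw [qf]
  exact Finset.prod_ne_zero_iff.2 (fun i _ => fac_ne (i + 1) (Nat.succ_pos i))

/-- the order at `ze` -/
noncomputable def ord (F : Polynomial ℤ) : ℕ := (pc F).rootMultiplicity ze

theorem ord_mul (F G : Polynomial ℤ) (hF : F ≠ 0) (hG : G ≠ 0) : ord (F * G) = ord F + ord G := by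
  rw [ord, map_mul, Polynomial.rootMultiplicity_mul]
  · rfl
  · rw [← map_mul]
    intro h
    exact mul_ne_zero hF hG (pc_inj (by rw [h, map_zero]))

theorem ord_fac (k : ℕ) (hk : 0 < k) : ord (1 - X ^ k) = if 9 ∣ k then 1 else 0 := by
  have hne : pc (1 - X ^ k) ≠ 0 := by
    intro h
    exact fac_ne k hk (pc_inj (by rw [h, map_zero]))
  have hpc : pc (1 - X ^ k) = 1 - X ^ k := by
    simp [pc]
  split_ifs with h
  · have hroot : (pc (1 - X ^ k)).IsRoot ze := by
      rw [hpc, Polynomial.IsRoot.def, Polynomial.eval_sub, Polynomial.eval_one,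
        Polynomial.eval_pow, Polynomial.eval_X, (ze_prim.pow_eq_one_iff_dvd k).2 h, sub_self]
    have h1 : 0 < ord (1 - X ^ k) := (Polynomial.rootMultiplicity_pos hne).2 hroot
    have h2 : ¬ 1 < ord (1 - X ^ k) := by
      intro h2
      have h3 := ((Polynomial.one_lt_rootMultiplicity_iff_isRoot hne).1 h2).2
      rw [hpc, Polynomial.IsRoot.def] at h3
      rw [Polynomial.derivative_sub, Polynomial.derivative_one,
        Polynomial.derivative_X_pow, zero_sub, Polynomial.eval_neg, neg_eq_zero,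
        Polynomial.eval_mul, Polynomial.eval_pow, Polynomial.eval_X, Polynomial.eval_C] at h3
      rcases mul_eq_zero.1 h3 with h4 | h4
      · have : (k : ℂ) ≠ 0 := by exact_mod_cast hk.ne'
        exact this h4
      · exact pow_ne_zero (k - 1) (ze_prim.ne_zero (by norm_num)) h4
    omega
  · rw [ord, Polynomial.rootMultiplicity_eq_zero_iff]
    intro h1
    exfalso
    rw [hpc, Polynomial.IsRoot.def, Polynomial.eval_sub, Polynomial.eval_one,
        Polynomial.eval_pow, Polynomial.eval_X, sub_eq_zero] at h1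
    exact h ((ze_prim.pow_eq_one_iff_dvd k).1 h1.symm)

theorem ord_qf (m : ℕ) : ord (qf m) = m / 9 := by
  induction m with
  | zero =>
    simp [qf, ord, pc]
  | succ m ih =>
    have h : qf (m + 1) = qf m * (1 - X ^ (m + 1)) := by
      rw [qf, Finset.prod_range_succ, ← qf]
    rw [h, ord_mul _ _ (qf_ne m) (fac_ne _ (Nat.succ_pos m)), ih, ord_fac _ (Nat.succ_pos m)]
    split_ifs with h9 <;> omega

theorem ord_le (N D Q : Polynomial ℤ) (hN : N ≠ 0) (h : N = Q * D) : ord D ≤ ord N := by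
  have hQ : Q ≠ 0 := by
    rintro rfl
    exact hN (by rw [h, zero_mul])
  have hD : D ≠ 0 := by
    rintro rfl
    exact hN (by rw [h, mul_zero])
  rw [h, ord_mul _ _ hQ hD]
  exact Nat.le_add_left _ _

theorem one_sub_X_ne : (1 : Polynomial ℤ) - X ≠ 0 := by
  simpa using fac_ne 1 Nat.one_pos

theorem ndvd4 (n : ℕ) (h9 : n % 9 = 1) : ¬ ∃ Q : Polynomial ℤ, N4 n = Q * D4 n := by
  rintro ⟨Q, hQ⟩
  have f3 := fac_ne 3 (by norm_num)
  have f5 := fac_ne 5 (by norm_num)
  have f7 := fac_ne 7 (by norm_num)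
  have e3 := fac_ne (2 * n + 3) (by omega)
  have e5 := fac_ne (2 * n + 5) (by omega)
  have e7 := fac_ne (2 * n + 7) (by omega)
  have q6 := qf_ne (6 * n)
  have q1 := qf_ne n
  have q3 := qf_ne (3 * n)
  have q2 := qf_ne (2 * n)
  have hN : N4 n ≠ 0 := mul_ne_zero (mul_ne_zero (mul_ne_zero f3 f5) f7) (mul_ne_zero q6 q1)
  have h := ord_le _ _ Q hN hQ
  rw [N4, D4, ord_mul _ _ (mul_ne_zero (mul_ne_zero f3 f5) f7) (mul_ne_zero q6 q1),
    ord_mul _ _ (mul_ne_zero f3 f5) f7, ord_mul _ _ f3 f5, ord_mul _ _ q6 q1,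
    ord_mul _ _ (mul_ne_zero (mul_ne_zero e3 e5) e7) (mul_ne_zero q3 (pow_ne_zero 2 q2)),
    ord_mul _ _ (mul_ne_zero e3 e5) e7, ord_mul _ _ e3 e5, ord_mul _ _ q3 (pow_ne_zero 2 q2),
    pow_two, ord_mul _ _ q2 q2, ord_fac 3 (by norm_num), ord_fac 5 (by norm_num),
    ord_fac 7 (by norm_num), ord_fac _ (by omega), ord_fac _ (by omega), ord_fac _ (by omega),
    ord_qf, ord_qf, ord_qf, ord_qf, if_neg (show ¬ 9 ∣ 3 by norm_num),
    if_neg (show ¬ 9 ∣ 5 by norm_num), if_neg (show ¬ 9 ∣ 7 by norm_num),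
    if_neg (show ¬ 9 ∣ 2 * n + 3 by omega), if_neg (show ¬ 9 ∣ 2 * n + 5 by omega),
    if_pos (show 9 ∣ 2 * n + 7 by omega)] at h
  omega

theorem ndvd5 (n : ℕ) (h9 : n % 9 = 1) : ¬ ∃ Q : Polynomial ℤ, N5 n = Q * D5 n := by
  rintro ⟨Q, hQ⟩
  have f3 := fac_ne 3 (by norm_num)
  have f5 := fac_ne 5 (by norm_num)
  have f7 := fac_ne 7 (by norm_num)
  have e1 := fac_ne (2 * n + 1) (by omega)
  have e3 := fac_ne (2 * n + 3) (by omega)
  have e5 := fac_ne (2 * n + 5) (by omega)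
  have e7 := fac_ne (2 * n + 7) (by omega)
  have q6 := qf_ne (6 * n)
  have q1 := qf_ne n
  have q3 := qf_ne (3 * n)
  have q2 := qf_ne (2 * n)
  have hN : N5 n ≠ 0 := mul_ne_zero (mul_ne_zero (mul_ne_zero (pow_ne_zero 2 f3) f5) f7)
    (mul_ne_zero q6 q1)
  have h := ord_le _ _ Q hN hQ
  rw [N5, D5, ord_mul _ _ (mul_ne_zero (mul_ne_zero (pow_ne_zero 2 f3) f5) f7) (mul_ne_zero q6 q1),
    ord_mul _ _ (mul_ne_zero (pow_ne_zero 2 f3) f5) f7, ord_mul _ _ (pow_ne_zero 2 f3) f5,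
    ord_mul _ _ q6 q1,
    ord_mul _ _ (mul_ne_zero (mul_ne_zero (mul_ne_zero e1 e3) e5) e7)
      (mul_ne_zero q3 (pow_ne_zero 2 q2)),
    ord_mul _ _ (mul_ne_zero (mul_ne_zero e1 e3) e5) e7, ord_mul _ _ (mul_ne_zero e1 e3) e5,
    ord_mul _ _ e1 e3, ord_mul _ _ q3 (pow_ne_zero 2 q2),
    pow_two, pow_two, ord_mul _ _ q2 q2, ord_mul _ _ f3 f3, ord_fac 3 (by norm_num),
    ord_fac 5 (by norm_num),
    ord_fac 7 (by norm_num), ord_fac _ (by omega), ord_fac _ (by omega), ord_fac _ (by omega),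
    ord_fac _ (by omega),
    ord_qf, ord_qf, ord_qf, ord_qf, if_neg (show ¬ 9 ∣ 3 by norm_num),
    if_neg (show ¬ 9 ∣ 5 by norm_num), if_neg (show ¬ 9 ∣ 7 by norm_num),
    if_neg (show ¬ 9 ∣ 2 * n + 1 by omega),
    if_neg (show ¬ 9 ∣ 2 * n + 3 by omega), if_neg (show ¬ 9 ∣ 2 * n + 5 by omega),
    if_pos (show 9 ∣ 2 * n + 7 by omega)] at h
  omega

end Pool.Agent.Q266.CII
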