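import Mathlib

set_option autoImplicit false

/-!
# Negative coefficients in the expansion of a ratio with a defect at the ninth roots of unity
-/

namespace Pool.Agent.Q266.CIJ

open Polynomial

theorem inf_neg (N D P : Polynomial ℤ) (hD0 : D.coeff 0 = 1)
    (h : (1 - X ^ 9) * N = P * ((1 - X) * D)) (hnd : ¬ ∃ Q : Polynomial ℤ, N = Q * D) :
    ∃ f : PowerSeries ℤ, f * (D : PowerSeries ℤ) = (N : PowerSeries ℤ) ∧
      {k : ℕ | PowerSeries.coeff k f < 0}.Infinite := by
  classical
  set d : PowerSeries ℤ := (D : PowerSeries ℤ) with hd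
  have hc : PowerSeries.constantCoeff d = ((1 : ℤˣ) : ℤ) := by
    rw [hd, ← PowerSeries.coeff_zero_eq_constantCoeff_apply, Polynomial.coeff_coe, hD0]
    rfl
  have hu := PowerSeries.mul_invOfUnit d 1 hc
  refine ⟨(N : PowerSeries ℤ) * PowerSeries.invOfUnit d 1, ?_, ?_⟩
  · rw [mul_assoc, mul_comm _ d, hu, mul_one]
  set f : PowerSeries ℤ := (N : PowerSeries ℤ) * PowerSeries.invOfUnit d 1 with hf
  have hfd : f * d = (N : PowerSeries ℤ) := by
    rw [hf, mul_assoc, mul_comm _ d, hu, mul_one]
  have hd0 : d ≠ 0 := by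
    intro h0
    rw [h0, zero_mul] at hu
    exact zero_ne_one hu
  -- the main identity
  have e1 : (1 - (PowerSeries.X : PowerSeries ℤ)) * ((∑ j ∈ Finset.range 9, PowerSeries.X ^ j) * f) =
      (1 - PowerSeries.X) * (P : PowerSeries ℤ) := by
    have h1 := congrArg (fun F : Polynomial ℤ => (F : PowerSeries ℤ)) h
    simp only [Polynomial.coe_mul, Polynomial.coe_sub, Polynomial.coe_one, Polynomial.coe_pow,
      Polynomial.coe_X] at h1
    have h2 : (1 - (PowerSeries.X : PowerSeries ℤ)) * (∑ j ∈ Finset.range 9, PowerSeries.X ^ j) =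
        1 - PowerSeries.X ^ 9 := by
      rw [mul_comm]
      exact geom_sum_mul_neg _ _
    rw [← mul_assoc, h2]
    apply mul_right_cancel₀ hd0
    rw [mul_assoc, hfd, h1]
    ring
  have hX : (1 - (PowerSeries.X : PowerSeries ℤ)) ≠ 0 := by
    intro h0
    have := congrArg (PowerSeries.constantCoeff (R := ℤ)) h0
    simp at this
  have e2 := mul_left_cancel₀ hX e1
  intro hfin
  obtain ⟨K, hK⟩ := hfin.bddAbove
  have hpos : ∀ k, K < k → 0 ≤ PowerSeries.coeff k f := by
    intro k hk
    by_contra hcon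
    push Not at hcon
    exact absurd (hK hcon) (by omega)
  -- the coefficients vanish eventually
  have hzero : ∀ k, max K P.natDegree + 1 ≤ k → PowerSeries.coeff k f = 0 := by
    intro k hk
    have h1 := congrArg (PowerSeries.coeff (k + 8)) e2
    rw [Polynomial.coeff_coe, Polynomial.coeff_eq_zero_of_natDegree_lt (by omega),
      Finset.sum_mul, map_sum] at h1
    have h2 : ∀ j ∈ Finset.range 9,
        0 ≤ PowerSeries.coeff (k + 8) (PowerSeries.X ^ j * f) := by
      intro j hj
      rw [Finset.mem_range] at hj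
      rw [PowerSeries.coeff_X_pow_mul', if_pos (by omega)]
      exact hpos _ (by omega)
    have h3 := (Finset.sum_eq_zero_iff_of_nonneg h2).1 h1 8 (Finset.mem_range.2 (by norm_num))
    rwa [PowerSeries.coeff_X_pow_mul', if_pos (by omega), Nat.add_sub_cancel] at h3
  apply hnd
  refine ⟨PowerSeries.trunc (max K P.natDegree + 1) f, ?_⟩
  have h4 : (PowerSeries.trunc (max K P.natDegree + 1) f : PowerSeries ℤ) = f := by
    ext k
    rw [Polynomial.coeff_coe, PowerSeries.coeff_trunc]
    split_ifs with hk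
    · rfl
    · exact (hzero k (by omega)).symm
  have h5 : ((PowerSeries.trunc (max K P.natDegree + 1) f * D : Polynomial ℤ) : PowerSeries ℤ) =
      (N : PowerSeries ℤ) := by
    rw [Polynomial.coe_mul, h4, ← hfd]
  exact (Polynomial.coe_injective ℤ h5).symm

end Pool.Agent.Q266.CIJ
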