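import Mathlib

set_option autoImplicit false

/-!
# Checking polynomial identities with products of `1 - X ^ a` on coefficient lists
-/

namespace Pool.Agent.Q266.CIL

open Polynomial

/-- the polynomial of a coefficient list -/
noncomputable def toP : List ℤ → Polynomial ℤ
  | [] => 0
  | a :: t => C a + X * toP t

/-- negation of a list -/
def negL : List ℤ → List ℤ
  | [] => []
  | a :: t => (-a) :: negL t

theorem toP_negL (t : List ℤ) : toP (negL t) = -toP t := by
  induction t with
  | nil => simp [negL, toP]
  | cons a t ih =>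
    simp only [negL, toP, ih, C_neg]
    ring

/-- difference of lists, padded -/
def subL : List ℤ → List ℤ → List ℤ
  | [], t => negL t
  | a :: s, t => match t with
    | [] => a :: s
    | b :: t' => (a - b) :: subL s t'

theorem toP_subL (s : List ℤ) : ∀ t : List ℤ, toP (subL s t) = toP s - toP t := by
  induction s with
  | nil =>
    intro t
    rw [subL, toP_negL, toP, zero_sub]
  | cons a s ih =>
    intro t
    cases t with
    | nil => simp [subL, toP]
    | cons b t =>
      simp only [subL, toP, ih t, C_sub]
      ring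

/-- shift by `w` -/
def shL : ℕ → List ℤ → List ℤ
  | 0, l => l
  | w + 1, l => 0 :: shL w l

theorem toP_shL (w : ℕ) (l : List ℤ) : toP (shL w l) = X ^ w * toP l := by
  induction w with
  | zero => simp [shL]
  | succ w ih =>
    rw [shL, toP, ih, pow_succ]
    simp only [C_0]
    ring

/-- multiply by `1 - X ^ w` -/
def mulW (w : ℕ) (l : List ℤ) : List ℤ := subL l (shL w l)

theorem toP_mulW (w : ℕ) (l : List ℤ) : toP (mulW w l) = toP l * (1 - X ^ w) := by
  rw [mulW, toP_subL, toP_shL]
  ring

/-- multiply by all `1 - X ^ w` -/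
def mulAll : List ℕ → List ℤ → List ℤ
  | [], l => l
  | w :: ws, l => mulAll ws (mulW w l)

theorem toP_mulAll (ws : List ℕ) : ∀ l : List ℤ,
    toP (mulAll ws l) = toP l * (ws.map (fun w => (1 : Polynomial ℤ) - X ^ w)).prod := by
  induction ws with
  | nil => intro l; simp [mulAll]
  | cons w ws ih =>
    intro l
    rw [mulAll, ih, toP_mulW, List.map_cons, List.prod_cons, mul_assoc]

theorem coeff_nonneg : ∀ (l : List ℤ), l.all (fun a => decide (0 ≤ a)) = true →
    ∀ e : ℕ, 0 ≤ (toP l).coeff e
  | [], _, e => by simp [toP]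
  | a :: t, h, e => by
      rw [List.all_cons, Bool.and_eq_true, decide_eq_true_eq] at h
      rw [toP, coeff_add]
      cases e with
      | zero => simpa using h.1
      | succ e =>
        rw [coeff_X_mul, coeff_C_succ, zero_add]
        exact coeff_nonneg t h.2 e

/-- the check -/
def chk (ws bs : List ℕ) (p : List ℤ) : Bool :=
  (mulAll ws p == mulAll bs [1]) && p.all (fun a => decide (0 ≤ a))

theorem check (ws bs : List ℕ) (p : List ℤ) (h : chk ws bs p = true) :
    ∃ P : Polynomial ℤ, (∀ e, 0 ≤ P.coeff e) ∧
      (bs.map (fun w => (1 : Polynomial ℤ) - X ^ w)).prod =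
        P * (ws.map (fun w => (1 : Polynomial ℤ) - X ^ w)).prod := by
  rw [chk, Bool.and_eq_true, beq_iff_eq] at h
  refine ⟨toP p, coeff_nonneg p h.2, ?_⟩
  have h1 := congrArg toP h.1
  rw [toP_mulAll, toP_mulAll] at h1
  rw [h1]
  simp [toP]

end Pool.Agent.Q266.CIL
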