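import Pool.Agent.Q266.CIW

set_option autoImplicit false

/-!
# Positivity of products of `1 - X ^ b` over products of `1 - X ^ a`
-/

namespace Pool.Agent.Q266.CIP

open Polynomial
open Pool.Agent.TH416.CI Pool.Agent.Q266.CIW

section

variable (Ω D : Finset ℕ) (u : ℕ)

/-- the weights -/
def wt : ({a // a ∈ Ω} ⊕ ({a // a ∈ D} ⊕ Fin u)) → ℕ :=
  Sum.elim (fun a => a.1) (Sum.elim (fun a => a.1) (fun _ => 1))

theorem inSg_one {I : Finset ({a // a ∈ Ω} ⊕ ({a // a ∈ D} ⊕ Fin u))} {j : Fin u}
    (hj : Sum.inr (Sum.inr j) ∈ I) (b : ℕ) : InSg (wt Ω D u) I b := by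
  refine ⟨Finsupp.single (Sum.inr (Sum.inr j)) b, ?_, ?_⟩
  · refine Finsupp.support_single_subset.trans ?_
    simpa using hj
  · rw [Finsupp.weight_single]
    simp [wt]

theorem inSg_of_cl (I : Finset ({a // a ∈ Ω} ⊕ ({a // a ∈ D} ⊕ Fin u))) (b : ℕ)
    (hb : b ∈ cl (I.image (wt Ω D u))) : InSg (wt Ω D u) I b := by
  induction hb using AddSubmonoid.closure_induction with
  | mem x hx =>
    obtain ⟨i, hi, rfl⟩ := Finset.mem_image.1 (by exact_mod_cast hx)
    refine ⟨Finsupp.single i 1, ?_, ?_⟩
    · refine Finsupp.support_single_subset.trans ?_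
      simpa using hi
    · rw [Finsupp.weight_single, one_smul]
  | zero => exact ⟨0, by simp, by simp⟩
  | add x y _ _ hx hy =>
    classical
    obtain ⟨α, hα, rfl⟩ := hx
    obtain ⟨β, hβ, rfl⟩ := hy
    exact ⟨α + β, Finsupp.support_add.trans (Finset.union_subset hα hβ), by rw [map_add]⟩

theorem card_le_image (hDΩ : D ⊆ Ω) (I : Finset ({a // a ∈ Ω} ⊕ ({a // a ∈ D} ⊕ Fin u)))
    (hI : ∀ j : Fin u, Sum.inr (Sum.inr j) ∉ I) :
    I.card ≤ (I.image (wt Ω D u)).card + ((I.image (wt Ω D u)) ∩ D).card ∧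
      I.image (wt Ω D u) ⊆ Ω := by
  classical
  constructor
  · rw [← Finset.card_toLeft_add_card_toRight (u := I),
      ← Finset.card_toLeft_add_card_toRight (u := I.toRight)]
    have h0 : I.toRight.toRight = ∅ := by
      rw [Finset.eq_empty_iff_forall_notMem]
      intro j hj
      rw [Finset.mem_toRight, Finset.mem_toRight] at hj
      exact hI j hj
    rw [h0, Finset.card_empty, add_zero]
    have h1 : I.toLeft.card = (I.toLeft.image (fun a => a.1)).card :=
      (Finset.card_image_of_injective _ Subtype.val_injective).symm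
    have h2 : I.toRight.toLeft.card = (I.toRight.toLeft.image (fun a => a.1)).card :=
      (Finset.card_image_of_injective _ Subtype.val_injective).symm
    rw [h1, h2]
    refine add_le_add (Finset.card_le_card ?_) (Finset.card_le_card ?_)
    · intro x hx
      obtain ⟨a, ha, rfl⟩ := Finset.mem_image.1 hx
      exact Finset.mem_image.2 ⟨Sum.inl a, by simpa using ha, rfl⟩
    · intro x hx
      obtain ⟨a, ha, rfl⟩ := Finset.mem_image.1 hx
      rw [Finset.mem_inter]
      exact ⟨Finset.mem_image.2 ⟨Sum.inr (Sum.inl a), by simpa using ha, rfl⟩, a.2⟩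
  · intro x hx
    obtain ⟨i, hi, rfl⟩ := Finset.mem_image.1 hx
    rcases i with a | a | j
    · exact a.2
    · exact hDΩ a.2
    · exact absurd hi (hI j)

end

open Classical in
theorem posRatio (Ω D W : Finset ℕ) (u : ℕ) (bs : List ℕ) (hDΩ : D ⊆ Ω)
    (hΩ : ∀ a ∈ Ω, 1 ≤ a) (hW : ∀ b ∈ W, 1 ≤ b) (hbs : ∀ b ∈ bs, 1 ≤ b)
    (hcard : Ω.card + D.card + u = W.card + bs.length)
    (hcrit : ∀ A ⊆ Ω, A.card + (A ∩ D).card ≤ (W.filter (fun b => b ∈ cl A)).card +
      bs.countP (fun b => decide (b ∈ cl A))) :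
    ∃ P : Polynomial ℤ, (∀ e, 0 ≤ P.coeff e) ∧
      (∏ b ∈ W, ((1 : Polynomial ℤ) - X ^ b)) * (bs.map (fun b => (1 : Polynomial ℤ) - X ^ b)).prod =
        P * ((∏ a ∈ Ω, ((1 : Polynomial ℤ) - X ^ a)) * (∏ a ∈ D, ((1 : Polynomial ℤ) - X ^ a)) *
          (1 - X) ^ u) := by
  obtain ⟨P, hP, hPe⟩ := ci_main (wt Ω D u) (by
      rintro (a | a | j)
      · exact hΩ a.1 a.2
      · exact hΩ a.1 (hDΩ a.2)
      · exact Nat.one_pos)
    (W.toList ++ bs) (by
      rw [List.length_append, Finset.length_toList, Fintype.card_sum, Fintype.card_sum,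
        Fintype.card_fin, Fintype.card_coe, Fintype.card_coe]
      omega)
    (by
      intro b hb
      rcases List.mem_append.1 hb with hb | hb
      · exact hW b (Finset.mem_toList.1 hb)
      · exact hbs b hb)
    (by
      intro I
      by_cases hI : ∃ j : Fin u, Sum.inr (Sum.inr j) ∈ I
      · obtain ⟨j, hj⟩ := hI
        have h1 : (W.toList ++ bs).countP
            (fun b => @decide (InSg (wt Ω D u) I b) (Classical.dec _)) =
            (W.toList ++ bs).length := by
          rw [List.countP_eq_length]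
          intro b _
          exact @decide_eq_true _ (Classical.dec _) (inSg_one Ω D u hj b)
        rw [h1, List.length_append, Finset.length_toList]
        refine (Finset.card_le_univ I).trans ?_
        rw [Fintype.card_sum, Fintype.card_sum,
          Fintype.card_fin, Fintype.card_coe, Fintype.card_coe]
        omega
      · push Not at hI
        obtain ⟨h1, h2⟩ := card_le_image Ω D u hDΩ I hI
        refine h1.trans ((hcrit _ h2).trans ?_)
        rw [List.countP_append]
        refine add_le_add ?_ ?_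
        · rw [List.countP_eq_length_filter, ← List.toFinset_card_of_nodup
            (W.nodup_toList.filter _)]
          apply Finset.card_le_card
          intro b hb
          rw [Finset.mem_filter] at hb
          rw [List.mem_toFinset, List.mem_filter, Finset.mem_toList]
          exact ⟨hb.1, @decide_eq_true _ (Classical.dec _) (inSg_of_cl Ω D u I b hb.2)⟩
        · apply List.countP_mono_left
          intro b _ hb
          exact @decide_eq_true _ (Classical.dec _) (inSg_of_cl Ω D u I b (by simpa using hb)))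
  refine ⟨P, hP, ?_⟩
  rw [List.map_append, List.prod_append] at hPe
  have e1 : (W.toList.map (fun b => (1 : Polynomial ℤ) - X ^ b)).prod =
      ∏ b ∈ W, ((1 : Polynomial ℤ) - X ^ b) := by
    rw [Finset.prod_map_toList]
  have e2 : ∏ i, ((1 : Polynomial ℤ) - X ^ (wt Ω D u i)) =
      (∏ a ∈ Ω, ((1 : Polynomial ℤ) - X ^ a)) * (∏ a ∈ D, ((1 : Polynomial ℤ) - X ^ a)) *
          (1 - X) ^ u := by
    rw [Fintype.prod_sum_type, Fintype.prod_sum_type, ← mul_assoc]
    congr 1
    · congr 1
      · exact Finset.prod_coe_sort Ω (fun a => (1 : Polynomial ℤ) - X ^ a)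
      · exact Finset.prod_coe_sort D (fun a => (1 : Polynomial ℤ) - X ^ a)
    · simp [wt]
  rw [e1, e2] at hPe
  exact hPe

end Pool.Agent.Q266.CIP
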