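import Mathlib
import Pool.Agent.TH416.CI.Main
import Pool.Agent.TH416.CI.Comb

set_option autoImplicit false

/-!
# A window criterion for the semigroup condition of weighted complete intersections
-/

namespace Pool.Agent.Q266.CIW

open scoped Pointwise
open Pool.Agent.TH416.CI

/-- the semigroup (with zero) generated by a finite set of naturals -/
abbrev cl (A : Finset ℕ) : AddSubmonoid ℕ := AddSubmonoid.closure (A : Set ℕ)

theorem mem_cl {A : Finset ℕ} {a : ℕ} (h : a ∈ A) : a ∈ cl A :=
  AddSubmonoid.subset_closure (by exact_mod_cast h)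

theorem mul_mem_cl {A : Finset ℕ} {a : ℕ} (h : a ∈ cl A) (c : ℕ) : c * a ∈ cl A := by
  rw [← smul_eq_mul]
  exact AddSubmonoid.nsmul_mem _ h c

/-- dense sets of an initial interval generate everything from two thirds on -/
theorem dense (N : ℕ) (A : Finset ℕ) (hA : ∀ a ∈ A, 1 ≤ a ∧ a ≤ N) (h : 2 * N < 3 * A.card) :
    ∀ y : ℕ, 2 * N ≤ 3 * y → y ∈ cl A := by
  classical
  intro y
  induction y using Nat.strong_induction_on with
  | _ y ih =>
    intro hy
    rcases Nat.lt_or_ge N y with hN | hN
    · -- subtract an element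
      obtain ⟨a, ha, ha'⟩ : ∃ a ∈ A, 3 * a + 2 * N ≤ 3 * y := by
        by_contra hcon
        push Not at hcon
        have hsub : A ⊆ Finset.Icc (N / 3 + 2) N := by
          intro a ha
          have h1 := hA a ha
          have h2 := hcon a ha
          rw [Finset.mem_Icc]
          omega
        have h1 := Finset.card_le_card hsub
        rw [Nat.card_Icc] at h1
        omega
      have h1 := hA a ha
      have h2 := ih (y - a) (by omega) (by omega)
      have h3 : y = (y - a) + a := by omega
      rw [h3]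
      exact add_mem h2 (mem_cl ha)
    · by_contra hcon
      have hyA : y ∉ A := fun h => hcon (mem_cl h)
      set U := A.filter (fun a => a < y) with hU
      have hdis : Disjoint U (U.image (fun a => y - a)) := by
        rw [Finset.disjoint_left]
        intro x hx hx'
        obtain ⟨b, hb, hb'⟩ := Finset.mem_image.1 hx'
        rw [hU, Finset.mem_filter] at hx hb
        have : y = x + b := by omega
        apply hcon
        rw [this]
        exact add_mem (mem_cl hx.1) (mem_cl hb.1)
      have hsub : U ∪ U.image (fun a => y - a) ⊆ Finset.Icc 1 (y - 1) := by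
        intro x hx
        rw [Finset.mem_union] at hx
        rw [Finset.mem_Icc]
        rcases hx with hx | hx
        · rw [hU, Finset.mem_filter] at hx
          have := hA x hx.1
          omega
        · obtain ⟨b, hb, hb'⟩ := Finset.mem_image.1 hx
          rw [hU, Finset.mem_filter] at hb
          have := hA b hb.1
          omega
      have hci : (U.image (fun a => y - a)).card = U.card := by
        apply Finset.card_image_of_injOn
        intro a ha b hb hab
        have ha' := Finset.mem_coe.1 ha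
        have hb' := Finset.mem_coe.1 hb
        rw [hU, Finset.mem_filter] at ha' hb'
        simp only at hab
        omega
      have h1 := Finset.card_le_card hsub
      rw [Finset.card_union_of_disjoint hdis, hci, Nat.card_Icc] at h1
      have h2 : A ⊆ U ∪ Finset.Icc (y + 1) N := by
        intro a ha
        rw [Finset.mem_union, Finset.mem_Icc, hU, Finset.mem_filter]
        have := hA a ha
        rcases Nat.lt_trichotomy a y with h | h | h
        · exact Or.inl ⟨ha, h⟩
        · rw [h] at ha
          exact absurd ha hyA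
        · exact Or.inr (by omega)
      have h3 := (Finset.card_le_card h2).trans (Finset.card_union_le _ _)
      rw [Nat.card_Icc] at h3
      omega

theorem dense_mul (g N : ℕ) (hg : 0 < g) (A : Finset ℕ) (hA : ∀ a ∈ A, 1 ≤ a ∧ a ≤ g * N)
    (hgA : ∀ a ∈ A, g ∣ a) (h : 2 * N < 3 * A.card) :
    ∀ x : ℕ, g ∣ x → 2 * (g * N) ≤ 3 * x → x ∈ cl A := by
  classical
  set A' := A.image (fun a => a / g) with hA'
  have hinj : Set.InjOn (fun a => a / g) (A : Set ℕ) := by
    intro a ha b hb hab
    obtain ⟨c, rfl⟩ := hgA a ha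
    obtain ⟨d, rfl⟩ := hgA b hb
    simp only [Nat.mul_div_cancel_left _ hg] at hab
    rw [hab]
  have hc : A'.card = A.card := Finset.card_image_of_injOn hinj
  have hA1 : ∀ a ∈ A', 1 ≤ a ∧ a ≤ N := by
    intro a ha
    obtain ⟨b, hb, rfl⟩ := Finset.mem_image.1 ha
    obtain ⟨c, rfl⟩ := hgA b hb
    have h1 := hA _ hb
    rw [Nat.mul_div_cancel_left _ hg]
    constructor
    · rcases Nat.eq_zero_or_pos c with rfl | h
      · simp at h1
      · exact h
    · exact Nat.le_of_mul_le_mul_left h1.2 hg
  have hd := dense N A' hA1 (by rw [hc]; exact h)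
  intro x hx hxN
  obtain ⟨y, rfl⟩ := hx
  have h1 : 2 * N ≤ 3 * y := by
    have : g * (2 * N) ≤ g * (3 * y) := by nlinarith
    exact Nat.le_of_mul_le_mul_left this hg
  have h2 := hd y h1
  have key : ∀ z ∈ cl A', g * z ∈ cl A := by
    intro z hz
    induction hz using AddSubmonoid.closure_induction with
    | mem z hz =>
      obtain ⟨b, hb, rfl⟩ := Finset.mem_image.1 (Finset.mem_coe.1 hz)
      obtain ⟨c, rfl⟩ := hgA b hb
      simp only [Nat.mul_div_cancel_left _ hg]
      exact mem_cl hb
    | zero => simp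
    | add x y _ _ hx hy =>
      rw [mul_add]
      exact add_mem hx hy
  exact key y h2

/-- the top representatives -/
noncomputable def top (M R : ℕ) (A : Finset ℕ) : Finset ℕ := by
  classical
  exact (Finset.Ioc (R - M) R).filter (fun b => b ∈ cl A)

theorem mem_top {M R : ℕ} {A : Finset ℕ} {x : ℕ} :
    x ∈ top M R A ↔ (R - M < x ∧ x ≤ R) ∧ x ∈ cl A := by
  classical
  rw [top, Finset.mem_filter, Finset.mem_Ioc]

theorem dich (A : Finset ℕ) (M R : ℕ) (hMA : M ∈ A) (hA : ∀ a ∈ A, 1 ≤ a ∧ a ≤ M)
    (hMR : M ≤ R) (hR : 2 * M ≤ R + 2) :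
    3 * A.card ≤ 2 * (top M R A).card ∨
      ∃ g : ℕ, 0 < g ∧ (∀ a ∈ A, g ∣ a) ∧ ∀ x : ℕ, g ∣ x → 2 * M ≤ 3 * x → x ∈ cl A := by
  classical
  have hM1 := hA M hMA
  have hNZ : NeZero M := ⟨by omega⟩
  -- the criterion for belonging to the semigroup
  have hrep : ∀ x c : ℕ, c ∈ cl A → c ≤ R → R - M < x → (x : ZMod M) = (c : ZMod M) → x ∈ cl A := by
    intro x c hc hcR hx hxc
    have hle : c ≤ x := by
      by_contra hlt
      push Not at hlt
      have h1 : ((c - x : ℕ) : ZMod M) = 0 := by
        rw [Nat.cast_sub hlt.le, hxc, sub_self]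
      rw [ZMod.natCast_eq_zero_iff] at h1
      have := Nat.le_of_dvd (by omega) h1
      omega
    have h1 : ((x - c : ℕ) : ZMod M) = 0 := by
      rw [Nat.cast_sub hle, hxc, sub_self]
    rw [ZMod.natCast_eq_zero_iff] at h1
    obtain ⟨j, hj⟩ := h1
    have h2 : x = c + j * M := by
      rw [mul_comm] at hj
      omega
    rw [h2]
    exact add_mem hc (mul_mem_cl (mem_cl hMA) j)
  set B : Finset (ZMod M) := A.image (fun a : ℕ => (a : ZMod M)) with hB
  have hBcard : B.card = A.card := by
    apply Finset.card_image_of_injOn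
    intro a ha a' ha' haa
    have h1 := hA a ha
    have h2 := hA a' ha'
    simp only at haa
    rw [ZMod.natCast_eq_natCast_iff'] at haa
    rcases h1.2.lt_or_eq with h3 | h3
    · rcases h2.2.lt_or_eq with h4 | h4
      · rwa [Nat.mod_eq_of_lt h3, Nat.mod_eq_of_lt h4] at haa
      · rw [Nat.mod_eq_of_lt h3, h4, Nat.mod_self] at haa
        omega
    · rcases h2.2.lt_or_eq with h4 | h4
      · rw [Nat.mod_eq_of_lt h4, h3, Nat.mod_self] at haa
        omega
      · omega
  have h0B : (0 : ZMod M) ∈ B := Finset.mem_image.2 ⟨M, hMA, by simp⟩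
  -- every element of `B + B` is the class of an element of the semigroup which is at most `R`
  have hBB : ∀ s ∈ B + B, ∃ c ∈ cl A, c ≤ R ∧ s = (c : ZMod M) := by
    intro s hs
    rw [Finset.mem_add] at hs
    obtain ⟨b, hb, b', hb', rfl⟩ := hs
    obtain ⟨a, ha, rfl⟩ := Finset.mem_image.1 hb
    obtain ⟨a', ha', rfl⟩ := Finset.mem_image.1 hb'
    have h1 := hA a ha
    have h2 := hA a' ha'
    rcases h1.2.lt_or_eq with h3 | h3
    · rcases h2.2.lt_or_eq with h4 | h4
      · exact ⟨a + a', add_mem (mem_cl ha) (mem_cl ha'), by omega, by push_cast; rfl⟩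
      · refine ⟨a, mem_cl ha, by omega, ?_⟩
        rw [h4]
        simp
    · refine ⟨a', mem_cl ha', by omega, ?_⟩
      rw [h3]
      simp
  have hwin : (B + B).card ≤ (top M R A).card := by
    apply Finset.card_le_card_of_injOn (fun s => R - ((R : ℕ) - s : ZMod M).val)
    · intro s hs
      obtain ⟨c, hc, hcR, hsc⟩ := hBB s hs
      have hv := ZMod.val_lt (((R : ℕ) : ZMod M) - s)
      rw [Finset.mem_coe, mem_top]
      beta_reduce
      refine ⟨by omega, hrep _ c hc hcR (by omega) ?_⟩
      rw [Nat.cast_sub (by omega), ZMod.natCast_zmod_val, hsc]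
      ring
    · intro s hs s' hs' hss
      have hv := ZMod.val_lt (((R : ℕ) : ZMod M) - s)
      have hv' := ZMod.val_lt (((R : ℕ) : ZMod M) - s')
      simp only at hss
      have h1 : (((R : ℕ) : ZMod M) - s).val = (((R : ℕ) : ZMod M) - s').val := by
        omega
      have h2 := ZMod.val_injective M h1
      exact sub_right_injective h2
  by_cases hsm : 2 * (B + B).card < 3 * B.card
  · right
    obtain ⟨g, hg, hgM, hgS⟩ := exists_gen (M := M) (by omega) (B + B)
      (by simpa using Finset.add_mem_add h0B h0B) (add_closed_of_small B h0B hsm)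
    have hgA : ∀ a ∈ A, g ∣ a := by
      intro a ha
      rw [← hgS]
      have := Finset.add_mem_add (Finset.mem_image_of_mem (fun a : ℕ => (a : ZMod M)) ha) h0B
      simpa using this
    obtain ⟨N, rfl⟩ := hgM
    have hN : N ≤ (B + B).card := by
      have : N = ((Finset.range N).image (fun i => ((g * i : ℕ) : ZMod (g * N)))).card := by
        rw [Finset.card_image_of_injOn, Finset.card_range]
        intro i hi j hj hij
        have hi' := Finset.mem_range.1 (Finset.mem_coe.1 hi)
        have hj' := Finset.mem_range.1 (Finset.mem_coe.1 hj)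
        simp only at hij
        rw [ZMod.natCast_eq_natCast_iff', Nat.mod_eq_of_lt (Nat.mul_lt_mul_of_pos_left hi' hg),
          Nat.mod_eq_of_lt (Nat.mul_lt_mul_of_pos_left hj' hg)] at hij
        exact Nat.eq_of_mul_eq_mul_left hg hij
      refine this.le.trans (Finset.card_le_card ?_)
      intro s hs
      obtain ⟨i, _, rfl⟩ := Finset.mem_image.1 hs
      rw [hgS]
      exact dvd_mul_right _ _
    exact ⟨g, hg, hgA, dense_mul g N hg A hA hgA (by omega)⟩
  · left
    omega

/-- iterated sums of a finite set -/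
theorem iter (D : Finset ℕ) (hD : D.Nonempty) (lo hi : ℕ) (h : ∀ a ∈ D, lo < a ∧ a ≤ hi) :
    ∀ c : ℕ, ∃ S : Finset ℕ, S.Nonempty ∧ (c + 1) * D.card ≤ S.card + c ∧
      ∀ x ∈ S, x ∈ cl D ∧ (c + 1) * (lo + 1) ≤ x ∧ x ≤ (c + 1) * hi := by
  classical
  intro c
  induction c with
  | zero =>
    refine ⟨D, hD, by omega, ?_⟩
    intro x hx
    have := h x hx
    exact ⟨mem_cl hx, by omega, by omega⟩
  | succ c ih =>
    obtain ⟨S, hS, hc, hx⟩ := ih
    refine ⟨S + D, hS.add hD, ?_, ?_⟩
    · have h1 := cauchy_davenport_add_of_linearOrder_isCancelAdd hS hD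
      have h2 := hD.card_pos
      have h3 := hS.card_pos
      have h4 : (c + 1 + 1) * D.card = (c + 1) * D.card + D.card := by ring
      omega
    · intro x hx'
      rw [Finset.mem_add] at hx'
      obtain ⟨a, ha, b, hb, rfl⟩ := hx'
      obtain ⟨h1, h2, h3⟩ := hx a ha
      have h4 := h b hb
      refine ⟨add_mem h1 (mem_cl hb), ?_, ?_⟩
      · have : (c + 1 + 1) * (lo + 1) = (c + 1) * (lo + 1) + (lo + 1) := by ring
        omega
      · have : (c + 1 + 1) * hi = (c + 1) * hi + hi := by ring
        omega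

open Classical in
/-- The window criterion. -/
theorem window (Ω D W : Finset ℕ) (K R c lo hi : ℕ)
    (hΩ : ∀ a ∈ Ω, 1 ≤ a ∧ a ≤ K) (hKR : K ≤ R) (hKR2 : 2 * K ≤ R + 2)
    (hWtop : Finset.Ioc (R - K) R ⊆ W) (hWK : ∀ x ∈ W, 2 * K ≤ 3 * x)
    (hD : ∀ a ∈ D, lo < a ∧ a ≤ hi) (hc : 2 ≤ c)
    (hDW : Finset.Icc ((c + 1) * (lo + 1)) ((c + 1) * hi) ⊆ W)
    (hg : ∀ g : ℕ, 0 < g → (Ω.filter (fun a => g ∣ a)).card + (D.filter (fun a => g ∣ a)).card ≤
      (W.filter (fun a => g ∣ a)).card) :
    ∀ A ⊆ Ω, A.card + (A ∩ D).card ≤ (W.filter (fun b => b ∈ cl A)).card := by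
  intro A hAΩ
  rcases A.eq_empty_or_nonempty with rfl | hne
  · simp
  by_cases hk : A.card + 2 ≤ 2 * (A ∩ D).card
  · have hne₁ : (A ∩ D).Nonempty := by
      rw [← Finset.card_pos]
      omega
    obtain ⟨S, hS, hSc, hSx⟩ := iter (A ∩ D) hne₁ lo hi
      (fun a ha => hD a (Finset.mem_inter.1 ha).2) c
    have hsub : S ⊆ W.filter (fun b => b ∈ cl A) := by
      intro x hx
      obtain ⟨h1, h2, h3⟩ := hSx x hx
      rw [Finset.mem_filter]
      refine ⟨hDW (Finset.mem_Icc.2 ⟨h2, h3⟩), ?_⟩
      exact AddSubmonoid.closure_mono (by exact_mod_cast Finset.inter_subset_left) h1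
    have h1 := Finset.card_le_card hsub
    have h2 : 1 ≤ (A ∩ D).card := hne₁.card_pos
    obtain ⟨e, rfl⟩ := Nat.exists_eq_add_of_le hc
    have h3 : (2 + e + 1) * (A ∩ D).card = 3 * (A ∩ D).card + e * (A ∩ D).card := by ring
    have h4 : e * 1 ≤ e * (A ∩ D).card := Nat.mul_le_mul_left e h2
    omega
  · obtain ⟨M, hMA, hM⟩ : ∃ M ∈ A, ∀ a ∈ A, a ≤ M :=
      ⟨A.max' hne, A.max'_mem hne, fun a ha => A.le_max' a ha⟩
    have hMK := hΩ M (hAΩ hMA)
    rcases dich A M R hMA (fun a ha => ⟨(hΩ a (hAΩ ha)).1, hM a ha⟩) (by omega) (by omega) with h | h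
    · have hsub : top M R A ⊆ W.filter (fun b => b ∈ cl A) := by
        intro x hx
        rw [mem_top] at hx
        rw [Finset.mem_filter]
        refine ⟨hWtop (Finset.mem_Ioc.2 ⟨by omega, hx.1.2⟩), hx.2⟩
      have h1 := Finset.card_le_card hsub
      omega
    · obtain ⟨g, hg0, hgA, hgx⟩ := h
      have h1 : A ⊆ Ω.filter (fun a => g ∣ a) := by
        intro a ha
        rw [Finset.mem_filter]
        exact ⟨hAΩ ha, hgA a ha⟩
      have h2 : A ∩ D ⊆ D.filter (fun a => g ∣ a) := by
        intro a ha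
        rw [Finset.mem_inter] at ha
        rw [Finset.mem_filter]
        exact ⟨ha.2, hgA a ha.1⟩
      have h3 : W.filter (fun a => g ∣ a) ⊆ W.filter (fun b => b ∈ cl A) := by
        intro x hx
        rw [Finset.mem_filter] at hx
        rw [Finset.mem_filter]
        exact ⟨hx.1, hgx x hx.2 (by have := hWK x hx.1; omega)⟩
      have e1 := Finset.card_le_card h1
      have e2 := Finset.card_le_card h2
      have e3 := Finset.card_le_card h3
      have e4 := hg g hg0
      omega

end Pool.Agent.Q266.CIW
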