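import Mathlib

set_option autoImplicit false

/-!
The least power of `X` in the ideal `(p ^ k, (1 + X) ^ q - 1)` of `ℤ[X]`, `q = p ^ t`, by a weight
argument.
-/

namespace Q266.CycWeight

open Polynomial Finset

/-- polynomials all of whose terms have weight at least `n`, where `X` has weight `1` and `p` has
weight `φ` -/
def W (p φ n : ℕ) : Set ℤ[X] := {f | ∀ j a, a * φ + j < n → (p : ℤ) ^ (a + 1) ∣ f.coeff j}

variable {p φ : ℕ}

theorem W_mono {n n' : ℕ} (h : n ≤ n') {f : ℤ[X]} (hf : f ∈ W p φ n') : f ∈ W p φ n :=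
  fun j a hj => hf j a (by omega)

theorem W_zero (f : ℤ[X]) : f ∈ W p φ 0 := fun j a h => by omega

theorem W_add {n : ℕ} {f g : ℤ[X]} (hf : f ∈ W p φ n) (hg : g ∈ W p φ n) : f + g ∈ W p φ n :=
  fun j a h => by rw [coeff_add]; exact dvd_add (hf j a h) (hg j a h)

theorem W_neg {n : ℕ} {f : ℤ[X]} (hf : f ∈ W p φ n) : -f ∈ W p φ n :=
  fun j a h => by rw [coeff_neg]; exact (dvd_neg).2 (hf j a h)

theorem W_sub {n : ℕ} {f g : ℤ[X]} (hf : f ∈ W p φ n) (hg : g ∈ W p φ n) : f - g ∈ W p φ n := by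
  rw [sub_eq_add_neg]; exact W_add hf (W_neg hg)

theorem W_iff (hφ : 0 < φ) {n : ℕ} {f : ℤ[X]} :
    f ∈ W p φ n ↔ ∀ j, ∃ a, n ≤ a * φ + j ∧ (p : ℤ) ^ a ∣ f.coeff j := by
  constructor
  · intro h j
    have hex : ∃ a, n ≤ a * φ + j := ⟨n, by nlinarith⟩
    classical
    refine ⟨Nat.find hex, Nat.find_spec hex, ?_⟩
    rcases Nat.eq_zero_or_pos (Nat.find hex) with h0 | h0
    · rw [h0, pow_zero]; exact one_dvd _
    · have h1 := Nat.find_min hex (m := Nat.find hex - 1) (by omega)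
      have h2 := h j (Nat.find hex - 1) (by omega)
      rwa [Nat.sub_add_cancel h0] at h2
  · intro h j b hb
    obtain ⟨a, ha, hd⟩ := h j
    refine (pow_dvd_pow _ ?_).trans hd
    by_contra hcon
    have : a * φ ≤ b * φ := Nat.mul_le_mul_right _ (by omega)
    omega

theorem W_mul (hφ : 0 < φ) {n m : ℕ} {f g : ℤ[X]} (hf : f ∈ W p φ n) (hg : g ∈ W p φ m) :
    f * g ∈ W p φ (n + m) := by
  intro j a h
  rw [coeff_mul]
  apply Finset.dvd_sum
  rintro ⟨i, l⟩ hil
  rw [HasAntidiagonal.mem_antidiagonal] at hil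
  obtain ⟨a1, h1, d1⟩ := (W_iff hφ).1 hf i
  obtain ⟨a2, h2, d2⟩ := (W_iff hφ).1 hg l
  have h3 : (p : ℤ) ^ (a1 + a2) ∣ f.coeff i * g.coeff l := by
    rw [pow_add]; exact mul_dvd_mul d1 d2
  refine (pow_dvd_pow _ ?_).trans h3
  by_contra hcon
  have : (a1 + a2) * φ ≤ a * φ := Nat.mul_le_mul_right _ (by omega)
  rw [add_mul] at this
  simp only at hil
  omega

theorem W_X_pow (n : ℕ) : (X ^ n : ℤ[X]) ∈ W p φ n := by
  intro j a h
  have : j ≠ n := by
    rintro rfl
    have := Nat.zero_le (a * φ)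
    omega
  rw [coeff_X_pow, if_neg this]
  exact dvd_zero _

theorem W_C_pow (c : ℤ) (hc : (p : ℤ) ∣ c) : (C c : ℤ[X]) ∈ W p φ φ := by
  intro j a h
  rw [coeff_C]
  split_ifs with hj
  · subst hj
    have : a = 0 := by
      rcases Nat.eq_zero_or_pos a with h0 | h0
      · exact h0
      · have : 1 * φ ≤ a * φ := Nat.mul_le_mul_right _ h0
        omega
    rw [this, zero_add, pow_one]
    exact hc
  · exact dvd_zero _

/-- `F = (1 + X) ^ q - 1` -/
noncomputable def F (q : ℕ) : ℤ[X] := (X + 1) ^ q - 1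

theorem F_coeff {q : ℕ} (i : ℕ) : (F q).coeff i = if i = 0 then 0 else (q.choose i : ℤ) := by
  unfold F
  rw [coeff_sub, coeff_X_add_one_pow]
  split_ifs with h
  · subst h; simp
  · rw [coeff_one, if_neg (by omega)]; simp

theorem F_monic {q : ℕ} (hq : 0 < q) : (F q).Monic := by
  unfold F
  have h1 : ((X + 1 : ℤ[X]) ^ q).Monic := by
    have : (X + C 1 : ℤ[X]).Monic := monic_X_add_C 1
    rw [C_1] at this
    exact this.pow q
  apply h1.sub_of_left
  rw [degree_one]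
  have h2 : ((X + 1 : ℤ[X]) ^ q).natDegree = q := by
    have : (X + C 1 : ℤ[X]).natDegree = 1 := natDegree_X_add_C 1
    rw [C_1] at this
    rw [natDegree_pow, this, mul_one]
  rw [degree_eq_natDegree h1.ne_zero, h2]
  exact_mod_cast hq

theorem F_natDegree {q : ℕ} (hq : 0 < q) : (F q).natDegree = q := by
  apply le_antisymm
  · rw [natDegree_le_iff_coeff_eq_zero]
    intro i hi
    rw [F_coeff, if_neg (by omega), Nat.choose_eq_zero_of_lt hi]
    rfl
  · apply le_natDegree_of_ne_zero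
    rw [F_coeff, if_neg (by omega), Nat.choose_self]
    simp

/-- division with remainder respects weights -/
theorem W_div (hφ : 0 < φ) {q n : ℕ} (hq : 0 < q) (hF : F q ∈ W p φ q) (d : ℕ) : ∀ f : ℤ[X],
    f.natDegree ≤ d → f ∈ W p φ n → ∃ g, f - F q * g ∈ W p φ n ∧ (f - F q * g).degree < q := by
  induction d using Nat.strong_induction_on with
  | _ d ih =>
    intro f hfd hf
    by_cases hdq : d < q
    · refine ⟨0, ?_, ?_⟩
      · rwa [mul_zero, sub_zero]
      · rw [mul_zero, sub_zero]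
        exact (degree_le_natDegree).trans_lt (by exact_mod_cast (by omega : f.natDegree < q))
    · obtain ⟨e, rfl⟩ := Nat.exists_eq_add_of_le (not_lt.1 hdq)
      set c := f.coeff (q + e) with hc
      have h1 : C c * X ^ e ∈ W p φ (n - q) := by
        intro j a h
        rw [coeff_C_mul_X_pow]
        split_ifs with hj
        · subst hj
          exact hf (q + j) a (by omega)
        · exact dvd_zero _
      have h2 : F q * (C c * X ^ e) ∈ W p φ n := by
        apply W_mono (n' := q + (n - q)) (by omega)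
        exact W_mul hφ hF h1
      have h3 := W_sub hf h2
      have h4 : (f - F q * (C c * X ^ e)).natDegree ≤ q + e - 1 := by
        rw [natDegree_le_iff_coeff_eq_zero]
        intro i hi
        rw [coeff_sub, ← mul_assoc, mul_comm (F q), mul_assoc, coeff_C_mul, coeff_mul_X_pow']
        rcases Nat.lt_or_ge (q + e) i with hlt | hge
        · rw [coeff_eq_zero_of_natDegree_lt (by omega), if_pos (by omega), F_coeff,
            if_neg (by omega), Nat.choose_eq_zero_of_lt (by omega)]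
          simp
        · have : i = q + e := by omega
          subst this
          rw [if_pos (by omega), Nat.add_sub_cancel, F_coeff, if_neg (by omega), Nat.choose_self]
          simp [hc]
      obtain ⟨g, hg1, hg2⟩ := ih (q + e - 1) (by omega) _ h4 h3
      refine ⟨C c * X ^ e + g, ?_, ?_⟩
      · convert hg1 using 1; ring
      · convert hg2 using 2; ring

section Prime

variable {t : ℕ} (hp : p.Prime) (ht : 1 ≤ t)

include hp ht

theorem coeff_weight {i : ℕ} (hi : 0 < i) (hiq : i < p ^ t) (hir : ¬ p ^ (t - 1) ∣ i) :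
    p ^ 2 ∣ (p ^ t).choose i := by
  have h1 : p ^ t * (p ^ t - 1).choose (i - 1) = (p ^ t).choose i * i := by
    have := Nat.add_one_mul_choose_eq (p ^ t - 1) (i - 1)
    rwa [Nat.sub_add_cancel (Nat.pos_of_ne_zero (by positivity [hp.pos])), Nat.sub_add_cancel hi] at this
  by_contra hcon
  apply hir
  have hc0 : (p ^ t).choose i ≠ 0 := (Nat.choose_pos hiq.le).ne'
  obtain ⟨e, c', hc', hce⟩ := Nat.exists_eq_pow_mul_and_not_dvd hc0 p hp.ne_one
  have he : e ≤ 1 := by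
    by_contra he
    apply hcon
    rw [hce]
    exact Dvd.dvd.mul_right (pow_dvd_pow p (by omega)) c'
  have h2 : p ^ t ∣ p ^ e * i * c' := by
    rw [hce] at h1
    exact ⟨_, by rw [h1]; ring⟩
  have hcop : Nat.Coprime (p ^ t) c' :=
    Nat.Coprime.pow_left _ ((Nat.Prime.coprime_iff_not_dvd hp).2 hc')
  have h3 : p ^ t ∣ p ^ e * i := hcop.dvd_of_dvd_mul_right h2
  have h4 : p ^ (t - 1) * p ∣ p * i := by
    rw [← pow_succ, Nat.sub_add_cancel ht]
    refine h3.trans ?_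
    apply Nat.mul_dvd_mul_right
    calc p ^ e ∣ p ^ 1 := pow_dvd_pow p he
      _ = p := pow_one p
  rw [mul_comm p i] at h4
  exact Nat.dvd_of_mul_dvd_mul_right hp.pos h4

theorem tail_mem : F (p ^ t) - X ^ (p ^ t) - C (((p ^ t).choose (p ^ (t - 1)) : ℕ) : ℤ) * X ^ (p ^ (t - 1))
    ∈ W p (p ^ t - p ^ (t - 1)) (p ^ t + 1) := by
  have hpp : 2 ≤ p := hp.two_le
  have hr : 0 < p ^ (t - 1) := pow_pos hp.pos _
  have hq : p ^ t = p * p ^ (t - 1) := by
    rw [← pow_succ', Nat.sub_add_cancel ht]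
  have h2r : 2 * p ^ (t - 1) ≤ p ^ t := by rw [hq]; exact Nat.mul_le_mul_right _ hpp
  intro j a h
  rw [coeff_sub, coeff_sub, F_coeff, coeff_X_pow, coeff_C_mul_X_pow]
  by_cases hj0 : j = 0
  · subst hj0
    rw [if_pos rfl, if_neg (by omega), if_neg (by omega)]
    simp
  rw [if_neg hj0]
  rcases Nat.lt_or_ge (p ^ t) j with hjq | hjq
  · rw [Nat.choose_eq_zero_of_lt hjq, if_neg (by omega), if_neg (by omega)]
    simp
  by_cases hjq2 : j = p ^ t
  · rw [hjq2, Nat.choose_self, if_pos rfl, if_neg (by omega)]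
    simp
  rw [if_neg hjq2]
  by_cases hjr : j = p ^ (t - 1)
  · rw [if_pos hjr, hjr]
    simp
  rw [if_neg hjr, sub_zero, sub_zero]
  by_cases hdvd : p ^ (t - 1) ∣ j
  · obtain ⟨i, hi⟩ := hdvd
    have hi2 : 2 ≤ i := by
      rcases i with _ | _ | i
      · simp at hi; exact absurd hi hj0
      · simp at hi; exact absurd hi hjr
      · omega
    have h3 : p ^ (t - 1) * 2 ≤ j := by rw [hi]; exact Nat.mul_le_mul_left _ hi2
    have ha : a = 0 := by
      rcases Nat.eq_zero_or_pos a with h0 | h0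
      · exact h0
      · have : 1 * (p ^ t - p ^ (t - 1)) ≤ a * (p ^ t - p ^ (t - 1)) := Nat.mul_le_mul_right _ h0
        omega
    rw [ha, zero_add, pow_one]
    exact_mod_cast hp.dvd_choose_pow hj0 hjq2
  · have ha : a ≤ 1 := by
      by_contra ha
      have : 2 * (p ^ t - p ^ (t - 1)) ≤ a * (p ^ t - p ^ (t - 1)) := Nat.mul_le_mul_right _ (by omega)
      omega
    have h4 := coeff_weight hp ht (Nat.pos_of_ne_zero hj0) (by omega) hdvd
    have h5 : (p : ℤ) ^ 2 ∣ ((p ^ t).choose j : ℤ) := by exact_mod_cast h4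
    exact (pow_dvd_pow _ (by omega)).trans h5

/-- `C(q, q / p) = p u` with `u` prime to `p` -/
theorem choose_eq : ∃ u : ℤ, ¬ (p : ℤ) ∣ u ∧ (((p ^ t).choose (p ^ (t - 1)) : ℕ) : ℤ) = p * u := by
  have hr : 0 < p ^ (t - 1) := pow_pos hp.pos _
  have hq : p ^ t = p * p ^ (t - 1) := by
    rw [← pow_succ', Nat.sub_add_cancel ht]
  have hlt : p ^ (t - 1) < p ^ t := Nat.pow_lt_pow_right hp.one_lt (by omega)
  refine ⟨((p ^ t - 1).choose (p ^ (t - 1) - 1) : ℕ), ?_, ?_⟩
  · have key : ∀ j, j < p ^ t → ¬ p ∣ (p ^ t - 1).choose j := by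
      intro j
      induction j with
      | zero => intro _; simp [hp.one_lt.ne']
      | succ j ih =>
        intro hj hd
        apply ih (by omega)
        have h1 : (p ^ t).choose (j + 1) = (p ^ t - 1).choose j + (p ^ t - 1).choose (j + 1) := by
          have := Nat.choose_succ_succ (p ^ t - 1) j
          rwa [Nat.succ_eq_add_one, Nat.sub_add_cancel (by omega)] at this
        have h2 : p ∣ (p ^ t).choose (j + 1) := hp.dvd_choose_pow (by omega) (by omega)
        rw [h1] at h2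
        exact (Nat.dvd_add_left hd).1 h2
    intro h
    exact key (p ^ (t - 1) - 1) (by omega) (by exact_mod_cast h)
  · have h1 : p ^ t * (p ^ t - 1).choose (p ^ (t - 1) - 1) = (p ^ t).choose (p ^ (t - 1)) * p ^ (t - 1) := by
      have := Nat.add_one_mul_choose_eq (p ^ t - 1) (p ^ (t - 1) - 1)
      rwa [Nat.sub_add_cancel (by omega), Nat.sub_add_cancel hr] at this
    have h2 : (p * (p ^ t - 1).choose (p ^ (t - 1) - 1)) * p ^ (t - 1)
        = (p ^ t).choose (p ^ (t - 1)) * p ^ (t - 1) := by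
      rw [← h1]
      conv_rhs => rw [hq]
      ring_nf
      rw [hq]
    have h3 := Nat.eq_of_mul_eq_mul_right hr h2
    rw [← h3]
    push_cast
    ring


theorem F_mem : F (p ^ t) ∈ W p (p ^ t - p ^ (t - 1)) (p ^ t) := by
  have hr : 0 < p ^ (t - 1) := pow_pos hp.pos _
  have hlt : p ^ (t - 1) < p ^ t := Nat.pow_lt_pow_right hp.one_lt (by omega)
  obtain ⟨u, _, hu⟩ := choose_eq hp ht
  have h1 := tail_mem hp ht
  have h2 : C (((p ^ t).choose (p ^ (t - 1)) : ℕ) : ℤ) * X ^ (p ^ (t - 1))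
      ∈ W p (p ^ t - p ^ (t - 1)) (p ^ t) := by
    have h3 := W_mul (by omega) (W_C_pow (p := p) (φ := p ^ t - p ^ (t - 1)) _ ⟨u, hu⟩)
      (W_X_pow (p ^ (t - 1)))
    rwa [Nat.sub_add_cancel hlt.le] at h3
  have h3 := W_add (W_add (W_mono (by omega) h1) h2) (W_X_pow (p ^ t))
  convert h3 using 1
  ring

/-- the ideal `(p ^ k, F)` -/
def I (p t k : ℕ) : Set ℤ[X] := {f | ∃ a b : ℤ[X], f = C ((p : ℤ) ^ k) * a + F (p ^ t) * b}

theorem upper {k : ℕ} (hk : 1 ≤ k) :
    (X ^ (p ^ t + (k - 1) * (p ^ t - p ^ (t - 1))) : ℤ[X]) ∈ I p t k := by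
  have hr : 0 < p ^ (t - 1) := pow_pos hp.pos _
  have hlt : p ^ (t - 1) < p ^ t := Nat.pow_lt_pow_right hp.one_lt (by omega)
  obtain ⟨g, hg1, hg2⟩ := W_div (p := p) (φ := p ^ t - p ^ (t - 1)) (q := p ^ t) (by omega) (by omega)
    (F_mem hp ht) _ _ le_rfl (W_X_pow (p ^ t + (k - 1) * (p ^ t - p ^ (t - 1))))
  have h1 : C ((p : ℤ) ^ k) ∣
      X ^ (p ^ t + (k - 1) * (p ^ t - p ^ (t - 1))) - F (p ^ t) * g := by
    rw [C_dvd_iff_dvd_coeff]
    intro i
    rcases Nat.lt_or_ge i (p ^ t) with hi | hi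
    · have h2 := hg1 i (k - 1) (by omega)
      rwa [Nat.sub_add_cancel hk] at h2
    · rw [coeff_eq_zero_of_degree_lt (hg2.trans_le (by exact_mod_cast hi))]
      exact dvd_zero _
  obtain ⟨a, ha⟩ := h1
  exact ⟨a, g, by rw [← ha]; ring⟩

theorem lead (j : ℕ) : ∃ u : ℤ, ¬ (p : ℤ) ∣ u ∧ ∃ g : ℤ[X],
    X ^ (p ^ t - 1 + j * (p ^ t - p ^ (t - 1))) - C ((p : ℤ) ^ j * u) * X ^ (p ^ t - 1)
      - F (p ^ t) * g ∈ W p (p ^ t - p ^ (t - 1)) (p ^ t + j * (p ^ t - p ^ (t - 1))) := by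
  have hr : 0 < p ^ (t - 1) := pow_pos hp.pos _
  have hlt : p ^ (t - 1) < p ^ t := Nat.pow_lt_pow_right hp.one_lt (by omega)
  set φ := p ^ t - p ^ (t - 1) with hφ
  have hφ0 : 0 < φ := by omega
  obtain ⟨v, hv, hvc⟩ := choose_eq hp ht
  have hpz : Prime (p : ℤ) := Nat.prime_iff_prime_int.1 hp
  induction j with
  | zero =>
    refine ⟨1, hpz.not_dvd_one, 0, ?_⟩
    have : (X ^ (p ^ t - 1 + 0 * φ) - C ((p : ℤ) ^ 0 * 1) * X ^ (p ^ t - 1) - F (p ^ t) * 0 : ℤ[X])
        = 0 := by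
      simp
    rw [this]
    intro j a _
    simp
  | succ j ih =>
    obtain ⟨u, hu, g, hg⟩ := ih
    refine ⟨-(v * u), ?_, X ^ ((j + 1) * φ - 1) - C ((p : ℤ) * v) * g, ?_⟩
    · rw [dvd_neg]
      intro h
      rcases hpz.dvd_or_dvd h with h | h
      · exact hv h
      · exact hu h
    · have h1 := tail_mem hp ht
      rw [hvc, ← hφ] at h1
      have hpos : 1 ≤ (j + 1) * φ := Nat.mul_pos (by omega) hφ0
      have h2 := W_mul hφ0 h1 (W_X_pow ((j + 1) * φ - 1))
      have h3 := W_mul hφ0 (W_C_pow (p := p) (φ := φ) ((p : ℤ) * v) (dvd_mul_right _ _)) hg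
      have h4 : p ^ t + 1 + ((j + 1) * φ - 1) = p ^ t + (j + 1) * φ := by omega
      have h5 : φ + (p ^ t + j * φ) = p ^ t + (j + 1) * φ := by ring
      rw [h4] at h2
      rw [h5] at h3
      have h6 := W_neg (W_add h2 h3)
      have e1 : p ^ t - 1 + (j + 1) * φ = p ^ t + ((j + 1) * φ - 1) := by omega
      have e2 : p ^ (t - 1) + ((j + 1) * φ - 1) = p ^ t - 1 + j * φ := by
        have : (j + 1) * φ = j * φ + φ := by ring
        omega
      convert h6 using 1
      rw [e1]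
      have e3 : (X : ℤ[X]) ^ (p ^ (t - 1)) * X ^ ((j + 1) * φ - 1) = X ^ (p ^ t - 1 + j * φ) := by
        rw [← pow_add, e2]
      rw [pow_add]
      simp only [map_mul, map_neg, map_pow, pow_succ]
      linear_combination (-(C (p : ℤ) * C v)) * e3

theorem lower {k : ℕ} (hk : 1 ≤ k) {N : ℕ} (hN : (X ^ N : ℤ[X]) ∈ I p t k) :
    p ^ t + (k - 1) * (p ^ t - p ^ (t - 1)) ≤ N := by
  have hr : 0 < p ^ (t - 1) := pow_pos hp.pos _
  have hlt : p ^ (t - 1) < p ^ t := Nat.pow_lt_pow_right hp.one_lt (by omega)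
  by_contra hcon
  set φ := p ^ t - p ^ (t - 1) with hφ
  have hφ0 : 0 < φ := by omega
  obtain ⟨a, b, hab⟩ := hN
  -- the next power below
  have h1 : (X ^ (p ^ t - 1 + (k - 1) * φ) : ℤ[X]) = X ^ N * X ^ (p ^ t - 1 + (k - 1) * φ - N) := by
    rw [← pow_add]; congr 1; omega
  obtain ⟨u, hu, g, hg⟩ := lead hp ht (k - 1)
  rw [← hφ] at hg
  obtain ⟨g', hg1, hg2⟩ := W_div (p := p) (φ := φ) (q := p ^ t) hφ0 (by omega)
    (F_mem hp ht) _ _ le_rfl hg
  set Y := (X : ℤ[X]) ^ (p ^ t - 1 + (k - 1) * φ - N) with hY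
  set w := X ^ (p ^ t - 1 + (k - 1) * φ) - C ((p : ℤ) ^ (k - 1) * u) * X ^ (p ^ t - 1)
      - F (p ^ t) * g - F (p ^ t) * g' with hw
  -- reduce `a * Y`
  have hdiv := modByMonic_add_div (a * Y) (F (p ^ t))
  have hdeg : (a * Y %ₘ F (p ^ t)).degree < (p ^ t : ℕ) := by
    have := degree_modByMonic_lt (a * Y) (F_monic (q := p ^ t) (by omega))
    rwa [degree_eq_natDegree (F_monic (q := p ^ t) (by omega)).ne_zero, F_natDegree (by omega)] at this
  set ρ := a * Y %ₘ F (p ^ t) with hρ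
  set σ := a * Y /ₘ F (p ^ t) with hσ
  have key : C ((p : ℤ) ^ (k - 1) * u) * X ^ (p ^ t - 1) + w - C ((p : ℤ) ^ k) * ρ
      = F (p ^ t) * (b * Y + C ((p : ℤ) ^ k) * σ - g - g') := by
    rw [hw, h1, hab]
    linear_combination (-C ((p : ℤ) ^ k)) * hdiv
  have hzero : C ((p : ℤ) ^ (k - 1) * u) * X ^ (p ^ t - 1) + w - C ((p : ℤ) ^ k) * ρ = 0 := by
    by_contra hne
    have hd : (C ((p : ℤ) ^ (k - 1) * u) * X ^ (p ^ t - 1) + w - C ((p : ℤ) ^ k) * ρ).degree
        < ((p ^ t : ℕ) : WithBot ℕ) := by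
      refine (degree_sub_le _ _).trans_lt (max_lt ?_ ?_)
      · refine (degree_add_le _ _).trans_lt (max_lt ?_ hg2)
        refine (degree_C_mul_X_pow_le _ _).trans_lt ?_
        exact_mod_cast (by omega : p ^ t - 1 < p ^ t)
      · refine lt_of_le_of_lt ?_ hdeg
        rw [degree_le_iff_coeff_zero]
        intro m hm
        rw [coeff_C_mul, coeff_eq_zero_of_degree_lt hm, mul_zero]
    have hm : (F (p ^ t)).Monic := F_monic (by omega)
    have h2 : (F (p ^ t)).degree ≤ (C ((p : ℤ) ^ (k - 1) * u) * X ^ (p ^ t - 1) + w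
        - C ((p : ℤ) ^ k) * ρ).degree := degree_le_of_dvd ⟨_, key⟩ hne
    rw [degree_eq_natDegree hm.ne_zero, F_natDegree (by omega)] at h2
    exact absurd hd (not_lt.2 h2)
  have hcoef := congrArg (fun f : ℤ[X] => f.coeff (p ^ t - 1)) hzero
  simp only [coeff_sub, coeff_add, coeff_C_mul, coeff_X_pow, coeff_zero, if_true, mul_one] at hcoef
  have hwd : (p : ℤ) ^ k ∣ w.coeff (p ^ t - 1) := by
    have h2 := hg1 (p ^ t - 1) (k - 1) (by omega)
    rwa [Nat.sub_add_cancel hk] at h2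
  have hd2 : (p : ℤ) ^ k ∣ (p : ℤ) ^ (k - 1) * u := by
    have e : (p : ℤ) ^ (k - 1) * u = (p : ℤ) ^ k * ρ.coeff (p ^ t - 1) - w.coeff (p ^ t - 1) := by
      linarith
    rw [e]
    exact dvd_sub (dvd_mul_right _ _) hwd
  have hpk : (p : ℤ) ^ k = (p : ℤ) ^ (k - 1) * p := by
    rw [← pow_succ, Nat.sub_add_cancel hk]
  rw [hpk] at hd2
  have hp0 : (p : ℤ) ^ (k - 1) ≠ 0 := pow_ne_zero _ (by exact_mod_cast hp.ne_zero)
  exact hu ((mul_dvd_mul_iff_left hp0).1 hd2)

end Prime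

end Q266.CycWeight
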