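import Mathlib
import Pool.Agent.Q266.CycWeight

set_option autoImplicit false

/-!
The powers `(1 + X) ^ N` modulo `(m, X ^ n - 1)`.
-/

namespace Q266.CycWeight

open Polynomial Finset

/-- the ideal `(c, f)` of `ℤ[X]` -/
noncomputable def K (c : ℤ) (f : ℤ[X]) : Ideal ℤ[X] := Ideal.span {C c, f}

theorem mem_K {c : ℤ} {f g : ℤ[X]} : g ∈ K c f ↔ ∃ a b : ℤ[X], g = C c * a + f * b := by
  unfold K
  rw [Ideal.mem_span_pair]
  constructor
  · rintro ⟨a, b, h⟩; exact ⟨a, b, by rw [← h]; ring⟩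
  · rintro ⟨a, b, h⟩; exact ⟨a, b, by rw [h]; ring⟩

theorem K_C (c : ℤ) (f : ℤ[X]) : C c ∈ K c f := mem_K.2 ⟨1, 0, by ring⟩

theorem K_f (c : ℤ) (f : ℤ[X]) : f ∈ K c f := mem_K.2 ⟨0, 1, by ring⟩

theorem K_le {c d : ℤ} {f g : ℤ[X]} (hc : d ∣ c) (hf : g ∣ f) : K c f ≤ K d g := by
  intro x hx
  obtain ⟨a, b, rfl⟩ := mem_K.1 hx
  obtain ⟨c', rfl⟩ := hc
  obtain ⟨f', rfl⟩ := hf
  exact mem_K.2 ⟨C c' * a, f' * b, by rw [C_mul]; ring⟩

theorem mem_K_iff_dvd {c : ℤ} {f g : ℤ[X]} (hf : f.Monic) :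
    g ∈ K c f ↔ ∀ i, c ∣ (g %ₘ f).coeff i := by
  rw [mem_K]
  constructor
  · rintro ⟨a, b, rfl⟩ i
    have h1 : (C c * a + f * b) %ₘ f = C c * (a %ₘ f) := by
      rw [add_modByMonic, (modByMonic_eq_zero_iff_dvd hf).2 ⟨b, rfl⟩, add_zero, ← smul_eq_C_mul,
        smul_modByMonic, smul_eq_C_mul]
    rw [h1, coeff_C_mul]
    exact dvd_mul_right _ _
  · intro h
    obtain ⟨a, ha⟩ := (C_dvd_iff_dvd_coeff c (g %ₘ f)).2 h
    exact ⟨a, g /ₘ f, by rw [← ha]; exact (modByMonic_add_div g f).symm⟩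

/-- `X ^ N ∈ (p ^ k, F)` -/
theorem X_pow_mem {p t k N : ℕ} (hp : p.Prime) (ht : 1 ≤ t) (hk : 1 ≤ k) :
    (X ^ N : ℤ[X]) ∈ K ((p : ℤ) ^ k) (F (p ^ t)) ↔
      p ^ t + (k - 1) * (p ^ t - p ^ (t - 1)) ≤ N := by
  constructor
  · intro h
    exact lower hp ht hk (mem_K.1 h)
  · intro h
    have h1 : (X ^ (p ^ t + (k - 1) * (p ^ t - p ^ (t - 1))) : ℤ[X]) ∈ K ((p : ℤ) ^ k) (F (p ^ t)) :=
      mem_K.2 (upper hp ht hk)
    have h2 : (X ^ N : ℤ[X]) = X ^ (N - (p ^ t + (k - 1) * (p ^ t - p ^ (t - 1)))) *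
        X ^ (p ^ t + (k - 1) * (p ^ t - p ^ (t - 1))) := by
      rw [← pow_add]; congr 1; omega
    rw [h2]
    exact Ideal.mul_mem_left _ _ h1

/-- `(X + 1) ^ N ∈ (p ^ k, (-X) ^ q - 1)` -/
theorem X_add_one_pow_mem {p t k N : ℕ} (hp : p.Prime) (ht : 1 ≤ t) (hk : 1 ≤ k) :
    ((X + 1) ^ N : ℤ[X]) ∈ K ((p : ℤ) ^ k) ((-X) ^ (p ^ t) - 1) ↔
      p ^ t + (k - 1) * (p ^ t - p ^ (t - 1)) ≤ N := by
  rw [← X_pow_mem hp ht hk, mem_K, mem_K]
  constructor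
  · rintro ⟨a, b, h⟩
    refine ⟨(-1) ^ N * a.comp (-X - 1), (-1) ^ N * b.comp (-X - 1), ?_⟩
    have h1 := congrArg (fun f : ℤ[X] => f.comp (-X - 1)) h
    simp only [add_comp, sub_comp, mul_comp, pow_comp, neg_comp, X_comp, C_comp, one_comp] at h1
    unfold F
    have e1 : (-X - 1 + 1 : ℤ[X]) = -X := by ring
    have e2 : (-(-X - 1) : ℤ[X]) = X + 1 := by ring
    rw [e1, e2, neg_pow] at h1
    have h3 : ((-1 : ℤ[X]) ^ N) * (-1) ^ N = 1 := by rw [← mul_pow]; norm_num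
    calc (X : ℤ[X]) ^ N = (-1) ^ N * ((-1) ^ N * X ^ N) := by rw [← mul_assoc, h3, one_mul]
      _ = _ := by rw [h1]; ring
  · rintro ⟨a, b, h⟩
    refine ⟨(-1) ^ N * a.comp (-X - 1), (-1) ^ N * b.comp (-X - 1), ?_⟩
    have h1 := congrArg (fun f : ℤ[X] => f.comp (-X - 1)) h
    unfold F at h1
    simp only [add_comp, sub_comp, mul_comp, pow_comp, X_comp, C_comp, one_comp] at h1
    have e1 : (-X - 1 + 1 : ℤ[X]) = -X := by ring
    have e2 : (-X - 1 : ℤ[X]) ^ N = (-1) ^ N * (X + 1) ^ N := by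
      rw [← mul_pow]; congr 1; ring
    rw [e1, e2] at h1
    have h3 : ((-1 : ℤ[X]) ^ N) * (-1) ^ N = 1 := by rw [← mul_pow]; norm_num
    calc (X + 1 : ℤ[X]) ^ N = (-1) ^ N * ((-1) ^ N * (X + 1) ^ N) := by
          rw [← mul_assoc, h3, one_mul]
      _ = _ := by rw [h1]; ring

/-- the comparison of the two factors of `X ^ n - 1` -/
theorem factor {p k N : ℕ} (hp : p.Prime) {h f g : ℤ[X]} (hfg : h = f * g)
    (hg : ¬ (p : ℤ) ∣ g.eval (-1)) {M₀ : ℕ} (hM : ((X + 1) ^ M₀ : ℤ[X]) ∈ K ((p : ℤ) ^ k) f)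
    (hfin : ∃ i P : ℕ, 0 < P ∧ ((X + 1) ^ i * ((X + 1) ^ P - 1) : ℤ[X]) ∈ K ((p : ℤ) ^ k) h) :
    (∃ P : ℕ, 0 < P ∧ ((X + 1) ^ N * ((X + 1) ^ P - 1) : ℤ[X]) ∈ K ((p : ℤ) ^ k) h) ↔
      ((X + 1) ^ N : ℤ[X]) ∈ K ((p : ℤ) ^ k) f := by
  constructor
  · rintro ⟨P, hP, h1⟩
    have h2 := K_le (dvd_refl ((p : ℤ) ^ k)) (⟨g, hfg⟩ : f ∣ h) h1
    have h3 : ((X + 1) ^ N * (((X + 1) ^ P) ^ M₀ - 1) : ℤ[X]) ∈ K ((p : ℤ) ^ k) f := by
      have e : ((X + 1) ^ P : ℤ[X]) - 1 ∣ ((X + 1) ^ P) ^ M₀ - 1 := sub_one_dvd_pow_sub_one _ _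
      obtain ⟨c, hc⟩ := e
      rw [hc, ← mul_assoc]
      exact Ideal.mul_mem_right _ _ h2
    have h4 : ((X + 1) ^ N * ((X + 1) ^ P) ^ M₀ : ℤ[X]) ∈ K ((p : ℤ) ^ k) f := by
      obtain ⟨P', rfl⟩ : ∃ P', P = P' + 1 := ⟨P - 1, by omega⟩
      have e : ((X + 1) ^ N * ((X + 1) ^ (P' + 1)) ^ M₀ : ℤ[X])
          = ((X + 1) ^ N * (X + 1) ^ (P' * M₀)) * (X + 1) ^ M₀ := by
        rw [← pow_mul, add_mul, one_mul, pow_add, mul_assoc]
      rw [e]
      exact Ideal.mul_mem_left _ _ hM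
    have h5 := Ideal.sub_mem _ h4 h3
    convert h5 using 1
    ring
  · intro h1
    obtain ⟨i, P, hP, h2⟩ := hfin
    refine ⟨P, hP, ?_⟩
    have h3 := K_le (dvd_refl ((p : ℤ) ^ k)) (⟨f, by rw [hfg, mul_comm]⟩ : g ∣ h) h2
    -- `X + 1` is invertible modulo `(p ^ k, g)`
    have hunit : ∃ v : ℤ[X], 1 - (X + 1) * v ∈ K ((p : ℤ) ^ k) g := by
      obtain ⟨b, hb⟩ : (X - C (-1) : ℤ[X]) ∣ g - C (g.eval (-1)) := X_sub_C_dvd_sub_C_eval
      have hpz : Prime (p : ℤ) := Nat.prime_iff_prime_int.1 hp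
      have hcop : IsCoprime ((p : ℤ) ^ k) (g.eval (-1)) :=
        ((hpz.coprime_iff_not_dvd).2 hg).pow_left
      obtain ⟨x, y, hxy⟩ := hcop
      refine ⟨-(C y * b), mem_K.2 ⟨C x, C y, ?_⟩⟩
      have h4 : C x * C ((p : ℤ) ^ k) + C y * C (g.eval (-1)) = (1 : ℤ[X]) := by
        rw [← C_mul, ← C_mul, ← C_add, hxy, C_1]
      have h5 : (X : ℤ[X]) - C (-1) = X + 1 := by rw [C_neg, C_1]; ring
      rw [h5] at hb
      linear_combination (-1 : ℤ[X]) * h4 - (C y) * hb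
    have h6 : ∀ i : ℕ, ∀ w : ℤ[X], (X + 1) ^ i * w ∈ K ((p : ℤ) ^ k) g → w ∈ K ((p : ℤ) ^ k) g := by
      intro i
      induction i with
      | zero => intro w hw; simpa using hw
      | succ i ih =>
        intro w hw
        apply ih
        obtain ⟨v, hv⟩ := hunit
        have h7 := Ideal.mul_mem_left _ v hw
        have h8 := Ideal.mul_mem_left _ ((X + 1) ^ i * w) hv
        have h9 := Ideal.add_mem _ h7 h8
        convert h9 using 1
        ring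
    have h7 := h6 i _ h3
    obtain ⟨a, b, hab⟩ := mem_K.1 h1
    obtain ⟨c, d, hcd⟩ := mem_K.1 h7
    refine mem_K.2 ⟨a * (C ((p : ℤ) ^ k) * c + g * d) + f * b * c, b * d, ?_⟩
    rw [hab, hcd, hfg]
    ring

/-- the exponent for prime powers -/
def nu (p k n : ℕ) : ℕ :=
  if Even n then
    if p ∣ n then
      p ^ padicValNat p n + (k - 1) * (p ^ padicValNat p n - p ^ (padicValNat p n - 1))
    else 1
  else if p = 2 then k else 1

theorem prime_pow {p k n N : ℕ} (hp : p.Prime) (hk : 1 ≤ k) (hn : 0 < n) (hN : 1 ≤ N)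
    (hfin : ∃ i P : ℕ, 0 < P ∧
      ((X + 1) ^ i * ((X + 1) ^ P - 1) : ℤ[X]) ∈ K ((p : ℤ) ^ k) (X ^ n - 1)) :
    (∃ P : ℕ, 0 < P ∧ ((X + 1) ^ N * ((X + 1) ^ P - 1) : ℤ[X]) ∈ K ((p : ℤ) ^ k) (X ^ n - 1)) ↔
      nu p k n ≤ N := by
  have hpz : Prime (p : ℤ) := Nat.prime_iff_prime_int.1 hp
  unfold nu
  by_cases hev : Even n
  · rw [if_pos hev]
    set t := padicValNat p n with ht
    have : Fact p.Prime := ⟨hp⟩
    obtain ⟨n', hn'⟩ : p ^ t ∣ n := pow_padicValNat_dvd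
    have hpn' : ¬ p ∣ n' := by
      intro h
      have h1 : p ^ (t + 1) ∣ n := by
        rw [pow_succ, hn']; exact Nat.mul_dvd_mul_left _ h
      exact pow_succ_padicValNat_not_dvd hn.ne' h1
    have hfg : (X ^ n - 1 : ℤ[X]) = ((-X) ^ (p ^ t) - 1) * ∑ i ∈ range n', ((-X) ^ (p ^ t)) ^ i := by
      rw [mul_geom_sum, ← pow_mul, ← hn', neg_pow, hev.neg_one_pow, one_mul]
    have hg : ¬ (p : ℤ) ∣ (∑ i ∈ range n', ((-X : ℤ[X]) ^ (p ^ t)) ^ i).eval (-1) := by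
      rw [eval_finsetSum]
      simp only [eval_pow, eval_neg, eval_X, neg_neg, one_pow, sum_const, card_range, nsmul_eq_mul,
        mul_one]
      intro h
      exact hpn' (by exact_mod_cast h)
    by_cases hpn : p ∣ n
    · rw [if_pos hpn]
      have ht1 : 1 ≤ t := by
        rw [ht]
        exact one_le_padicValNat_of_dvd hn.ne' hpn
      rw [factor hp hfg hg ((X_add_one_pow_mem hp ht1 hk).2 le_rfl) hfin,
        X_add_one_pow_mem hp ht1 hk]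
    · rw [if_neg hpn]
      have ht0 : t = 0 := padicValNat.eq_zero_of_not_dvd hpn
      have h1 : ∀ M, 1 ≤ M → ((X + 1) ^ M : ℤ[X]) ∈ K ((p : ℤ) ^ k) ((-X) ^ (p ^ t) - 1) := by
        intro M hM
        rw [ht0, pow_zero, pow_one]
        obtain ⟨M', rfl⟩ := Nat.exists_eq_add_of_le hM
        exact mem_K.2 ⟨0, -(X + 1) ^ M', by ring⟩
      rw [factor hp hfg hg (h1 1 le_rfl) hfin]
      exact ⟨fun _ => hN, fun _ => h1 N hN⟩
  · rw [if_neg hev]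
    have hodd : Odd n := Nat.not_even_iff_odd.1 hev
    by_cases hp2 : p = 2
    · rw [if_pos hp2]
      have hfg : (X ^ n - 1 : ℤ[X]) = (X - 1) * ∑ i ∈ range n, X ^ i := by
        rw [mul_geom_sum]
      have hg : ¬ (p : ℤ) ∣ (∑ i ∈ range n, (X : ℤ[X]) ^ i).eval (-1) := by
        rw [eval_finsetSum]
        simp only [eval_pow, eval_X]
        have h1 := geom_sum_mul (-1 : ℤ) n
        rw [hodd.neg_one_pow] at h1
        have h2 : ∑ i ∈ range n, (-1 : ℤ) ^ i = 1 := by linarith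
        rw [h2]
        exact hpz.not_dvd_one
      have h1 : ∀ M, ((X + 1) ^ M : ℤ[X]) ∈ K ((p : ℤ) ^ k) (X - 1) ↔ k ≤ M := by
        intro M
        have e : (X - 1 : ℤ[X]) ∣ (X + 1) ^ M - C ((2 : ℤ) ^ M) := by
          have h2 : (X + 1 : ℤ[X]) - C 2 = X - 1 := by
            have : (C 2 : ℤ[X]) = 2 := rfl
            rw [this]; ring
          rw [C_pow, ← h2]
          exact sub_dvd_pow_sub_pow _ _ _
        constructor
        · intro h
          obtain ⟨a, b, hab⟩ := mem_K.1 h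
          have h2 := congrArg (fun f : ℤ[X] => f.eval 1) hab
          simp only [eval_pow, eval_add, eval_mul, eval_C, eval_sub, eval_X, eval_one, sub_self,
            zero_mul, add_zero] at h2
          have h3 : (2 : ℤ) ^ k ∣ 2 ^ M := ⟨a.eval 1, by rw [hp2] at h2; push_cast at h2; linarith⟩
          have h4 : 2 ^ k ∣ 2 ^ M := by exact_mod_cast h3
          exact (Nat.pow_dvd_pow_iff_le_right (by norm_num)).1 h4
        · intro h
          obtain ⟨c, hc⟩ := e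
          refine mem_K.2 ⟨C ((2 : ℤ) ^ (M - k)), c, ?_⟩
          rw [← C_mul, hp2]
          have : ((2 : ℕ) : ℤ) ^ k * 2 ^ (M - k) = 2 ^ M := by
            push_cast
            rw [← pow_add, Nat.add_sub_cancel' h]
          rw [this, ← hc]
          ring
      rw [factor hp hfg hg ((h1 k).2 le_rfl) hfin, h1]
    · rw [if_neg hp2]
      have hfg : (X ^ n - 1 : ℤ[X]) = 1 * (X ^ n - 1) := by rw [one_mul]
      have hg : ¬ (p : ℤ) ∣ (X ^ n - 1 : ℤ[X]).eval (-1) := by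
        simp only [eval_sub, eval_pow, eval_X, eval_one, hodd.neg_one_pow]
        intro h
        have h2 : (p : ℤ) ∣ 2 := by
          rw [← dvd_neg]
          have e : (-1 : ℤ) - 1 = -2 := by norm_num
          rwa [e] at h
        have h3 : p ∣ 2 := by exact_mod_cast h2
        exact hp2 ((Nat.prime_dvd_prime_iff_eq hp Nat.prime_two).1 h3)
      have h1 : ∀ M, ((X + 1) ^ M : ℤ[X]) ∈ K ((p : ℤ) ^ k) 1 := by
        intro M
        exact mem_K.2 ⟨0, (X + 1) ^ M, by ring⟩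
      rw [factor hp hfg hg (h1 1) hfin]
      exact ⟨fun _ => hN, fun _ => h1 N⟩

/-- general moduli -/
theorem general {m n N : ℕ} (hm : 0 < m) (hn : 0 < n) (hN : 1 ≤ N)
    (hfin : ∃ i P : ℕ, 0 < P ∧
      ((X + 1) ^ i * ((X + 1) ^ P - 1) : ℤ[X]) ∈ K (m : ℤ) (X ^ n - 1)) :
    (∃ P : ℕ, 0 < P ∧ ((X + 1) ^ N * ((X + 1) ^ P - 1) : ℤ[X]) ∈ K (m : ℤ) (X ^ n - 1)) ↔
      ∀ p ∈ m.primeFactors, nu p (m.factorization p) n ≤ N := by
  have hle : ∀ p : ℕ, K (m : ℤ) (X ^ n - 1) ≤ K ((p : ℤ) ^ (m.factorization p)) (X ^ n - 1) := by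
    intro p
    apply K_le _ (dvd_refl _)
    exact_mod_cast Nat.ordProj_dvd m p
  have hk : ∀ p ∈ m.primeFactors, 1 ≤ m.factorization p := by
    intro p hp
    exact (Nat.prime_of_mem_primeFactors hp).factorization_pos_of_dvd hm.ne'
      (Nat.dvd_of_mem_primeFactors hp)
  constructor
  · rintro ⟨P, hP, h⟩ p hp
    have hpp := Nat.prime_of_mem_primeFactors hp
    obtain ⟨i, Q, hQ, h'⟩ := hfin
    exact (prime_pow hpp (hk p hp) hn hN ⟨i, Q, hQ, hle p h'⟩).1 ⟨P, hP, hle p h⟩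
  · intro h
    have h1 : ∀ p ∈ m.primeFactors, ∃ P : ℕ, 0 < P ∧ ((X + 1) ^ N * ((X + 1) ^ P - 1) : ℤ[X]) ∈
        K ((p : ℤ) ^ (m.factorization p)) (X ^ n - 1) := by
      intro p hp
      obtain ⟨i, Q, hQ, h'⟩ := hfin
      exact (prime_pow (Nat.prime_of_mem_primeFactors hp) (hk p hp) hn hN ⟨i, Q, hQ, hle p h'⟩).2
        (h p hp)
    choose! P hP hPm using h1
    refine ⟨∏ p ∈ m.primeFactors, P p, Finset.prod_pos hP, ?_⟩
    have hmon : (X ^ n - 1 : ℤ[X]).Monic := by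
      have := monic_X_pow_sub_C (1 : ℤ) hn.ne'
      rwa [C_1] at this
    rw [mem_K_iff_dvd hmon]
    intro i
    have h2 : ∀ p ∈ m.primeFactors, (p : ℤ) ^ (m.factorization p) ∣
        (((X + 1) ^ N * ((X + 1) ^ (∏ p ∈ m.primeFactors, P p) - 1)) %ₘ (X ^ n - 1) : ℤ[X]).coeff i := by
      intro p hp
      apply (mem_K_iff_dvd hmon).1
      obtain ⟨c, hc⟩ : P p ∣ ∏ p ∈ m.primeFactors, P p := Finset.dvd_prod_of_mem P hp
      rw [hc, pow_mul]
      obtain ⟨d, hd⟩ := sub_one_dvd_pow_sub_one ((X + 1 : ℤ[X]) ^ P p) c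
      rw [hd, ← mul_assoc]
      exact Ideal.mul_mem_right _ _ (hPm p hp)
    have h3 : ((∏ p ∈ m.primeFactors, p ^ (m.factorization p) : ℕ) : ℤ) ∣
        (((X + 1) ^ N * ((X + 1) ^ (∏ p ∈ m.primeFactors, P p) - 1)) %ₘ (X ^ n - 1) : ℤ[X]).coeff i := by
      push_cast
      apply Finset.prod_dvd_of_coprime
      · intro p hp q hq hpq
        apply IsCoprime.pow
        rw [Nat.isCoprime_iff_coprime]
        exact (Nat.coprime_primes (Nat.prime_of_mem_primeFactors hp)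
          (Nat.prime_of_mem_primeFactors hq)).2 hpq
      · intro p hp
        exact h2 p hp
    have h4 : ∏ p ∈ m.primeFactors, p ^ (m.factorization p) = m := by
      have := Nat.prod_factorization_pow_eq_self hm.ne'
      exact this
    rwa [h4] at h3

end Q266.CycWeight
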