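import Pool.Agent.Q279.QS.Theta

/-!
# Theta identities: `φ(-q) = 1 - 2T`, `φ(q) φ(-q) = φ(-q^2)^2`, Jacobi's four square formula
-/

set_option autoImplicit false

namespace Q266.DS

open PowerSeries Q279.QS

/-- `∑_{n ∈ ℤ} X^{n^2}` -/
noncomputable def Phi : ℤ⟦X⟧ := TS (fun n : ℤ => n ^ 2) (fun _ => (1 : ℤ))

/-- `∑_{n ∈ ℤ} (-1)^n X^{n^2}` -/
noncomputable def phm : ℤ⟦X⟧ := TS (fun n : ℤ => n ^ 2) (fun n => (-1 : ℤ) ^ n.natAbs)

/-- `∑_{k ≥ 1} X^{k^2}` -/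
noncomputable def s1 : ℤ⟦X⟧ := TS (fun k : ℕ => ((k : ℤ) + 1) ^ 2) (fun _ => (1 : ℤ))

/-- `s_m = ∑_{k ≥ 1} X^{m k^2}` -/
noncomputable def sE (m : ℕ) (hm : m ≠ 0) : ℤ⟦X⟧ := expand m hm s1

theorem FF_nsq : FF fun k : ℕ => ((k : ℤ) + 1) ^ 2 := FF_nat fun n => by nlinarith

theorem FF_nsq0 : FF fun k : ℕ => ((k : ℤ)) ^ 2 := FF_nat fun n => by
  have : (0 : ℤ) ≤ n := Int.natCast_nonneg n
  rcases Nat.eq_zero_or_pos n with h | h
  · subst h; simp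
  · have h1 : (1 : ℤ) ≤ n := by exact_mod_cast h
    nlinarith

/-- peel off the zero term -/
theorem TS_peel {e : ℕ → ℤ} (he : FF e) (c : ℕ → ℤ) (h0 : e 0 = 0) :
    TS e c = C (c 0) + TS (fun n => e (n + 1)) (fun n => c (n + 1)) := by
  have h1 : Function.Bijective (fun x : Unit ⊕ ℕ => x.elim (fun _ => 0) (fun n => n + 1)) := by
    constructor
    · rintro (a | a) (b | b) h <;> simp at h ⊢
      exact h
    · intro n
      rcases n with _ | n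
      · exact ⟨Sum.inl (), rfl⟩
      · exact ⟨Sum.inr n, rfl⟩
  rw [← TS_equiv (Equiv.ofBijective _ h1) e c]
  simp only [Equiv.ofBijective_apply]
  rw [TS_sum_type (he.comp_injective h1.1)]
  simp only [Sum.elim_inl, Sum.elim_inr]
  congr 1
  ext n
  rw [coeff_TS, coeff_C, finsum_unique, h0]
  refine if_congr ?_ rfl rfl
  constructor
  · intro h; exact_mod_cast h.symm
  · intro h; rw [h]; rfl

theorem Phi_eq : Phi = 1 + 2 * s1 := by
  rw [Phi, TS_int FF_sq, TS_peel FF_nsq0 _ (by norm_num)]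
  have e1 : (TS (fun n : ℕ => (-((n : ℤ) + 1)) ^ 2) (fun n : ℕ => (1 : ℤ))) = s1 :=
    TS_congr (fun n => by ring) fun _ => rfl
  have e2 : (TS (fun n : ℕ => (((n + 1 : ℕ) : ℤ)) ^ 2) (fun n : ℕ => (1 : ℤ))) = s1 :=
    TS_congr (fun n => by push_cast; ring) fun _ => rfl
  rw [e1, e2]
  simp
  ring

/-- `T = ∑_{k ≥ 1} (-1)^{k+1} X^{k^2}` -/
noncomputable def T1 : ℤ⟦X⟧ := TS (fun k : ℕ => ((k : ℤ) + 1) ^ 2) (fun k => (-1 : ℤ) ^ k)

theorem phm_eq : phm = 1 - 2 * T1 := by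
  rw [phm, TS_int FF_sq, TS_peel FF_nsq0 _ (by norm_num)]
  have e1 : (TS (fun n : ℕ => (-((n : ℤ) + 1)) ^ 2)
      (fun n : ℕ => (-1 : ℤ) ^ (-((n : ℤ) + 1)).natAbs)) = -T1 := by
    rw [T1, ← TS_neg]
    refine TS_congr (fun n => by ring) fun n => ?_
    have : (-((n : ℤ) + 1)).natAbs = n + 1 := by omega
    rw [this, pow_succ]; ring
  have e2 : (TS (fun n : ℕ => (((n + 1 : ℕ) : ℤ)) ^ 2)
      (fun n : ℕ => (-1 : ℤ) ^ (((n + 1 : ℕ) : ℤ)).natAbs)) = -T1 := by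
    rw [T1, ← TS_neg]
    refine TS_congr (fun n => by push_cast; ring) fun n => ?_
    rw [Int.natAbs_natCast, pow_succ]; ring
  rw [e1, e2]
  simp
  ring

theorem T1_eq : T1 = s1 - 2 * sE 4 (by norm_num) := by
  have h1 : T1 = s1 - TS (fun k : ℕ => ((k : ℤ) + 1) ^ 2) (fun k => 1 - (-1 : ℤ) ^ k) := by
    rw [T1, s1, ← TS_sub FF_nsq]
    exact TS_congr (fun _ => rfl) fun n => by ring
  rw [h1]
  congr 1
  have h2 : Function.Bijective (fun x : ℕ ⊕ ℕ => x.elim (fun n => 2 * n) (fun n => 2 * n + 1)) := by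
    constructor
    · rintro (a | a) (b | b) h <;> simp at h ⊢ <;> omega
    · intro n
      rcases Nat.even_or_odd' n with ⟨m, h | h⟩
      · exact ⟨Sum.inl m, h.symm⟩
      · exact ⟨Sum.inr m, h.symm⟩
  rw [← TS_equiv (Equiv.ofBijective _ h2)]
  simp only [Equiv.ofBijective_apply]
  rw [TS_sum_type (FF_nsq.comp_injective h2.1)]
  simp only [Sum.elim_inl, Sum.elim_inr]
  have e1 : TS (fun i : ℕ => (((2 * i : ℕ) : ℤ) + 1) ^ 2) (fun i => 1 - (-1 : ℤ) ^ (2 * i)) = 0 := by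
    ext n
    rw [map_zero]
    refine coeff_TS_of_zero fun i _ => ?_
    rw [pow_mul]; norm_num
  rw [e1, zero_add, sE, s1, expand_TS]
  have h4 : (2 : ℤ⟦X⟧) = C 2 := (map_ofNat C 2).symm
  have hFF : FF fun i : ℕ => ((4 : ℕ) : ℤ) * ((i : ℤ) + 1) ^ 2 :=
    FF_nat fun n => by push_cast; nlinarith
  rw [h4, ← TS_smul 2 hFF]
  refine TS_congr (fun n => by push_cast; ring) fun n => ?_
  rw [pow_succ, pow_mul]; norm_num

end Q266.DS
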