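import Pool.Agent.Q266.DS1

/-!
# Jacobi's four square formula (after Hirschhorn)
-/

set_option autoImplicit false

namespace Q266.DS

open PowerSeries Q279.QS

theorem phm_sg : phm = TS (fun n : ℤ => n ^ 2) (fun n => sg n) :=
  TS_congr (fun _ => rfl) neg_one_pow_natAbs

theorem ng_TS {ι : Type*} {e : ι → ℤ} (he : FF e) (c : ι → ℤ) :
    ng (TS e c) = TS e (fun i => sg (e i) * c i) := by
  ext n
  rw [coeff_rescale, coeff_TS' he, coeff_TS' he, Finset.mul_sum]
  refine Finset.sum_congr rfl fun i hi => ?_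
  have : e i = n := by
    rw [Set.Finite.mem_toFinset] at hi
    exact hi
  rw [this, sg_natCast]

theorem sg_sq (n : ℤ) : sg (n ^ 2) = sg n := by
  have h : n ^ 2 = n + 2 * tri n := by rw [two_tri]; ring
  rw [h, sg_add, sg_two_mul, mul_one]

theorem ng_phm : ng phm = Phi := by
  rw [phm_sg, ng_TS FF_sq, Phi]
  refine TS_congr (fun _ => rfl) fun n => ?_
  rw [sg_sq, sg_mul_self]

theorem ng_eul_one : ng (eul 1) * eul 1 * eul 4 = eul 2 ^ 3 := by
  have h1 : ng (eul 1) = oddP (-1) * eul 2 := by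
    have h := congrArg ng (eul_one_eq)
    rw [map_mul, ng_eul_two, ← ng_oddP, ng_ng] at h
    exact h
  rw [h1]
  linear_combination eul 2 * oddP_neg

theorem Phi_eul : Phi * (eul 1 * eul 4) ^ 2 = eul 2 ^ 5 := by
  have h1 : ng (eul 1) ^ 2 = eul 2 * Phi := by
    have h := congrArg ng gauss_phi
    rw [map_pow, map_mul, ng_eul_two] at h
    rw [h]
    exact congrArg (fun z => eul 2 * z) ng_phm
  have h2 := ng_eul_one
  have h3 : eul 2 ≠ 0 := eul_ne_zero (by norm_num)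
  refine mul_left_cancel₀ h3 ?_
  linear_combination (-(eul 1 * eul 4) ^ 2) * h1 + (ng (eul 1) * eul 1 * eul 4 + eul 2 ^ 3) * h2

theorem phm_eul : phm * eul 2 = eul 1 ^ 2 := by
  rw [mul_comm]; exact gauss_phi.symm

theorem phm_two : expand 2 (by norm_num) phm * eul 4 = eul 2 ^ 2 := by
  have h := congrArg (expand 2 (by norm_num)) phm_eul
  rw [map_mul, map_pow, expand_eul _ (by norm_num), expand_eul _ (by norm_num)] at h
  exact h

/-- `φ(q) φ(-q) = φ(-q^2)^2` -/
theorem phi_mul : Phi * phm = (expand 2 (by norm_num) phm) ^ 2 := by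
  have h1 := Phi_eul
  have h2 := phm_eul
  have h3 := phm_two
  have n1 : eul 1 ≠ 0 := eul_ne_zero (by norm_num)
  have n2 : eul 2 ≠ 0 := eul_ne_zero (by norm_num)
  have n4 : eul 4 ≠ 0 := eul_ne_zero (by norm_num)
  have n5 : eul 2 * (eul 1 * eul 4) ^ 2 ≠ 0 := mul_ne_zero n2 (pow_ne_zero _ (mul_ne_zero n1 n4))
  refine mul_right_cancel₀ n5 ?_
  calc Phi * phm * (eul 2 * (eul 1 * eul 4) ^ 2) = (Phi * (eul 1 * eul 4) ^ 2) * (phm * eul 2) := by
        ring
    _ = eul 2 ^ 5 * eul 1 ^ 2 := by rw [h1, h2]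
    _ = (eul 2 ^ 2) ^ 2 * (eul 2 * eul 1 ^ 2) := by ring
    _ = ((expand 2 (by norm_num) phm) * eul 4) ^ 2 * (eul 2 * eul 1 ^ 2) := by rw [h3]
    _ = _ := by ring

/-- `∑_{l ∈ ℤ} X^{l^2+l}` -/
noncomputable def Aa : ℤ⟦X⟧ := TS (fun l : ℤ => l ^ 2 + l) (fun _ => (1 : ℤ))

theorem FF_ll : FF fun l : ℤ => l ^ 2 + l := fun m =>
  (Set.finite_Icc (-m - 2) m).subset fun n hn => by
    have h2 : n ^ 2 + n = m := hn
    rw [Set.mem_Icc]
    constructor
    · by_contra h
      nlinarith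
    · by_contra h
      nlinarith [sq_nonneg n]

theorem ll_nonneg (l : ℤ) : 0 ≤ l ^ 2 + l := by
  have := up_nonneg l
  have h2 := two_up l
  nlinarith

theorem Aa_eul : Aa * eul 2 = 2 * eul 4 ^ 2 := by
  have h1 : Aa = 2 * TS (fun n : ℤ => 4 * n ^ 2 - 2 * n) (fun _ => (1 : ℤ)) := by
    have h2 : Function.Bijective
        (fun x : ℤ ⊕ ℤ => x.elim (fun n => 2 * n - 1) (fun n => -2 * n)) := by
      constructor
      · rintro (a | a) (b | b) h <;> simp at h ⊢ <;> omega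
      · intro n
        rcases Int.even_or_odd' n with ⟨m, h | h⟩
        · exact ⟨Sum.inr (-m), by simp; omega⟩
        · exact ⟨Sum.inl (m + 1), by simp; omega⟩
    rw [Aa, ← TS_equiv (Equiv.ofBijective _ h2)]
    simp only [Equiv.ofBijective_apply]
    rw [TS_sum_type (FF_ll.comp_injective h2.1)]
    simp only [Sum.elim_inl, Sum.elim_inr]
    rw [two_mul]
    congr 1
    · exact TS_congr (fun n => by ring) fun _ => rfl
    · exact TS_congr (fun n => by ring) fun _ => rfl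
  have h := congrArg (expand 2 (by norm_num)) gauss_psi
  rw [map_mul, map_pow, expand_eul _ (by norm_num), expand_eul _ (by norm_num), expand_TS] at h
  have h3 : TS (fun i : ℤ => ((2 : ℕ) : ℤ) * (2 * i ^ 2 - i)) (fun _ : ℤ => (1 : ℤ)) =
      TS (fun n : ℤ => 4 * n ^ 2 - 2 * n) (fun _ => (1 : ℤ)) :=
    TS_congr (fun n => by push_cast; ring) fun _ => rfl
  rw [h3] at h
  rw [h1, show 4 = 2 * 2 by norm_num, h]
  ring

/-- the square of Jacobi's identity -/
theorem hirsch : 2 * eul 1 ^ 6 = Aa * Phi + 4 * (th Aa * Phi - Aa * th Phi) := by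
  have hJ := jacobi_int
  have hFFu := FF_up.add FF_up up_nonneg up_nonneg
  have sq0 : ∀ n : ℤ, 0 ≤ n ^ 2 := fun n => sq_nonneg n
  have hFFr := FF_ll.add FF_sq ll_nonneg sq0
  -- the double sum with symmetrised weights
  have h1 : 4 * eul 1 ^ 6 = TS (fun p : ℤ × ℤ => up p.1 + up p.2)
      (fun p => (sg p.1 * (2 * p.1 + 1)) * (sg p.2 * (2 * p.2 + 1))) := by
    have h2 : TS up (fun i => sg i * (2 * i + 1)) = 2 * eul 1 ^ 3 := by
      have h3 : (fun i : ℤ => sg i * (2 * i + 1)) = fun i : ℤ => 2 * (sg i * i) + sg i := by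
        funext i; ring
      rw [h3, TS_add FF_up, TS_smul 2 FF_up, TS_up_sg, add_zero, hJ, map_ofNat]
    have h7 := TS_mul FF_up FF_up up_nonneg up_nonneg (fun i => sg i * (2 * i + 1))
      (fun i => sg i * (2 * i + 1))
    rw [h2] at h7
    refine Eq.trans ?_ h7
    ring
  set e : ℤ × ℤ → ℤ := fun p => up p.1 + up p.2 with he
  set c : ℤ × ℤ → ℤ := fun p => (sg p.1 * (2 * p.1 + 1)) * (sg p.2 * (2 * p.2 + 1)) with hc
  let ph : (ℤ × ℤ) ⊕ (ℤ × ℤ) → ℤ × ℤ := fun x =>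
    x.elim (fun p => (p.1 + p.2, p.1 - p.2)) (fun p => (p.1 + p.2, -1 - (p.1 - p.2)))
  have hph : Function.Bijective ph := by
    constructor
    · rintro (⟨a, a'⟩ | ⟨a, a'⟩) (⟨b, b'⟩ | ⟨b, b'⟩) h <;>
        simp only [ph, Sum.elim_inl, Sum.elim_inr, Prod.mk.injEq] at h
      · obtain ⟨h3, h4⟩ := h
        have : a = b := by omega
        have : a' = b' := by omega
        simp [*]
      · exfalso; omega
      · exfalso; omega
      · obtain ⟨h3, h4⟩ := h
        have : a = b := by omega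
        have : a' = b' := by omega
        simp [*]
    · rintro ⟨i, j⟩
      rcases Int.even_or_odd' (i + j) with ⟨m, h | h⟩
      · refine ⟨Sum.inl (m, i - m), ?_⟩
        simp only [ph, Sum.elim_inl, Prod.mk.injEq]
        omega
      · refine ⟨Sum.inr (i - m - 1, m + 1), ?_⟩
        simp only [ph, Sum.elim_inr, Prod.mk.injEq]
        omega
  have h4 : TS e c = 2 * TS (fun p : ℤ × ℤ => (p.1 ^ 2 + p.1) + p.2 ^ 2)
      (fun p => (2 * p.1 + 1) ^ 2 - 4 * p.2 ^ 2) := by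
    rw [← TS_equiv (Equiv.ofBijective ph hph)]
    simp only [Equiv.ofBijective_apply]
    rw [TS_sum_type (hFFu.comp_injective hph.1), two_mul]
    congr 1
    · refine TS_congr (fun p => ?_) fun p => ?_
      · simp only [he, ph, Sum.elim_inl]
        have e1 := two_up (p.1 + p.2)
        have e2 := two_up (p.1 - p.2)
        linarith
      · simp only [hc, ph, Sum.elim_inl]
        rw [sg_add, sg_sub]
        linear_combination ((2 * (p.1 + p.2) + 1) * (2 * (p.1 - p.2) + 1) *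
          (sg p.2 * sg p.2)) * sg_mul_self p.1 + ((2 * (p.1 + p.2) + 1) * (2 * (p.1 - p.2) + 1)) *
          sg_mul_self p.2
    · refine TS_congr (fun p => ?_) fun p => ?_
      · simp only [he, ph, Sum.elim_inr]
        have e1 := two_up (p.1 + p.2)
        have e2 := two_up (-1 - (p.1 - p.2))
        linarith
      · simp only [hc, ph, Sum.elim_inr]
        rw [sg_add, sg_sub, sg_sub, show (-1 : ℤ) = -(1 : ℤ) by norm_num, sg_neg, sg_one]
        linear_combination ((2 * (p.1 + p.2) + 1) * (2 * (p.1 - p.2) + 1) *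
          (sg p.2 * sg p.2)) * sg_mul_self p.1 + ((2 * (p.1 + p.2) + 1) * (2 * (p.1 - p.2) + 1)) *
          sg_mul_self p.2
  have h5 : TS (fun p : ℤ × ℤ => (p.1 ^ 2 + p.1) + p.2 ^ 2)
      (fun p => (2 * p.1 + 1) ^ 2 - 4 * p.2 ^ 2) =
      Aa * Phi + 4 * (th Aa * Phi - Aa * th Phi) := by
    have t1 : th Aa = TS (fun l : ℤ => l ^ 2 + l) (fun l => (l ^ 2 + l) * 1) := th_TS FF_ll _
    have t2 : th Phi = TS (fun n : ℤ => n ^ 2) (fun n => n ^ 2 * 1) := th_TS FF_sq _
    have h44 : (4 : ℤ⟦X⟧) = C 4 := (map_ofNat C 4).symm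
    rw [t1, t2, Aa, Phi, TS_mul FF_ll FF_sq ll_nonneg sq0, TS_mul FF_ll FF_sq ll_nonneg sq0,
      TS_mul FF_ll FF_sq ll_nonneg sq0, ← TS_sub hFFr, h44, ← TS_smul 4 hFFr, ← TS_add hFFr]
    refine TS_congr (fun _ => rfl) fun p => ?_
    ring
  have h6 : (2 : ℤ⟦X⟧) * (2 * eul 1 ^ 6) = 2 * (Aa * Phi + 4 * (th Aa * Phi - Aa * th Phi)) := by
    rw [← h5, ← h4, ← h1]; ring
  exact mul_left_cancel₀ two_ps_ne h6

end Q266.DS
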