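import Pool.Agent.Q266.DS2
import Pool.Agent.Q279.QS.Dual

/-!
# The generating function of the signed part sum over distinct partitions
-/

set_option autoImplicit false

namespace Q266.DS

open PowerSeries Q279.QS Filter Topology
open scoped PowerSeries.WithPiTopology

/-- `Q = ∏ (1 + X^m)` -/
noncomputable def Qs : ℤ⟦X⟧ := ∏' i : ℕ, (1 + X ^ (i + 1))

theorem mult_Qs : Multipliable fun i : ℕ => (1 + X ^ (i + 1) : ℤ⟦X⟧) :=
  multipliable_of_dvd fun i => ⟨1, by ring⟩

theorem Qs_eul : Qs * eul 1 = eul 2 := by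
  unfold Qs eul
  rw [← mult_Qs.tprod_mul (mult_eul 1 le_rfl)]
  refine tprod_congr fun i => ?_
  ring

/-- `E = ∏ (1 + X^{2m})` -/
noncomputable def Es : ℤ⟦X⟧ := expand 2 (by norm_num) Qs

theorem Es_eul : Es * eul 2 = eul 4 := by
  have h := congrArg (expand 2 (by norm_num)) Qs_eul
  rw [map_mul, expand_eul _ (by norm_num), expand_eul _ (by norm_num)] at h
  exact h

/-- even part of the product -/
noncomputable def evp (i : ℕ) : ℤ⟦X⟧ := if Odd (i + 1) then 1 else 1 + X ^ (i + 1)

theorem mult_evp : Multipliable evp := by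
  refine multipliable_of_dvd fun i => ?_
  unfold evp
  split_ifs
  · simp
  · exact ⟨1, by ring⟩

theorem tprod_evp : ∏' i, evp i = Es := by
  have h0 : ∀ i, evp (2 * i) = 1 := fun i => by
    unfold evp; rw [if_pos ⟨i, rfl⟩]
  have h1 : ∀ i, evp (2 * i + 1) = expand 2 (by norm_num) (1 + X ^ (i + 1)) := fun i => by
    unfold evp
    rw [if_neg (by rintro ⟨m, hm⟩; omega), map_add, map_one, map_pow, expand_X, ← pow_mul]
    congr 2
  have h2 : Multipliable fun i : ℕ =>
      (expand 2 (by norm_num) (1 + X ^ (i + 1) : ℤ⟦X⟧) : ℤ⟦X⟧) := by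
    refine multipliable_of_dvd fun i => ⟨X ^ (i + 1), ?_⟩
    rw [map_add, map_one, map_pow, expand_X]; ring
  rw [tprod_even_odd mult_evp]
  · simp only [h0, h1, tprod_one, one_mul]
    rw [Es, Qs, expand_tprod _ mult_Qs]
  · simp only [h0]; exact multipliable_one
  · simp only [h1]; exact h2

/-- the weight character -/
noncomputable def wd (i c : ℕ) : D :=
  if c = 1 then du 1 (if Odd i then (i : ℤ) else -(i : ℤ)) else 0

theorem factor (i : ℕ) :
    (1 + ∑' j, wd (i + 1) (j + 1) • (X : D⟦X⟧) ^ ((i + 1) * (j + 1))) =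
      dl 1 (od i) * dl (-1) (evp i) := by
  rw [tsum_eq_single 0]
  · unfold wd od evp
    rw [if_pos (by rfl)]
    split_ifs with h
    · rw [map_one, mul_one, map_add, map_one, dl_X_pow, one_mul]
      simp
    · rw [map_one, one_mul, map_add, map_one, dl_X_pow]
      simp
  · intro j hj
    unfold wd
    rw [if_neg (by omega), zero_smul]

theorem gen_eq : Nat.Partition.genFun wd = dl 1 (oddP (-1)) * dl (-1) Es := by
  rw [← tprod_evp, ← tprod_od, dl_tprod _ mult_evp, dl_tprod _ mult_od,
    Nat.Partition.genFun_eq_tprod]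
  have h := (mult_od.map (dl 1) (continuous_dl _)).tprod_mul
    (mult_evp.map (dl (-1)) (continuous_dl _))
  exact (tprod_congr factor).trans h

/-- the `ε`-part of the generating function -/
noncomputable def gD : ℤ⟦X⟧ := mk fun n => (coeff n (Nat.Partition.genFun wd)).snd

theorem gD_eq : gD = th (oddP (-1)) * Es - oddP (-1) * th Es := by
  ext n
  have h := congrArg (fun F => (coeff n F).snd) gen_eq
  simp only [coeff_dl, du_snd, du_fst, coeff_mul, TrivSqZeroExt.snd_sum,
    TrivSqZeroExt.snd_mul] at h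
  rw [gD, coeff_mk, h, map_sub, coeff_mul, coeff_mul, ← Finset.sum_sub_distrib]
  refine Finset.sum_congr rfl fun p _ => ?_
  rw [coeff_th, coeff_th]
  simp only [smul_eq_mul, MulOpposite.smul_eq_mul_unop, MulOpposite.unop_op]
  ring

theorem O_mul_E : oddP (-1) * Es = Qs := by
  have n1 : eul 1 ≠ 0 := eul_ne_zero (by norm_num)
  have n2 : eul 2 ≠ 0 := eul_ne_zero (by norm_num)
  have n4 : eul 4 ≠ 0 := eul_ne_zero (by norm_num)
  refine mul_right_cancel₀ (mul_ne_zero (mul_ne_zero n1 n2) n4) ?_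
  have h1 := oddP_neg
  have h2 := Es_eul
  have h3 := Qs_eul
  calc oddP (-1) * Es * (eul 1 * eul 2 * eul 4) =
        (oddP (-1) * eul 1 * eul 4) * (Es * eul 2) := by ring
    _ = (eul 2 * eul 2 * eul 4) := by rw [h1, h2]; ring
    _ = (Qs * eul 1) * (eul 2 * eul 4) := by rw [h3]; ring
    _ = _ := by ring

end Q266.DS
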