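import Pool.Agent.Q266.DS3

/-!
# `D = θQ - 4 Q V(q^2) - 16 (..)`, and the reduction modulo 16
-/

set_option autoImplicit false

namespace Q266.DS

open PowerSeries Q279.QS

/-- the inverse of `f_k` -/
noncomputable def ie (k : ℕ) : ℤ⟦X⟧ := invOfUnit (eul k) 1

theorem ie_mul {k : ℕ} (hk : 1 ≤ k) : eul k * ie k = 1 :=
  mul_invOfUnit _ 1 (by rw [constCoeff_eul hk]; simp)

theorem th_one : th 1 = 0 := by
  ext n
  rw [coeff_th, coeff_one, map_zero]
  split_ifs with h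
  · rw [h]; simp
  · simp

theorem th_ie {k : ℕ} (hk : 1 ≤ k) : th (ie k) = - (th (eul k) * ie k ^ 2) := by
  have h1 := ie_mul hk
  have h2 : th (eul k) * ie k + eul k * th (ie k) = 0 := by
    rw [← th_mul, h1, th_one]
  linear_combination (ie k) * h2 - (th (ie k)) * h1

/-- logarithmic derivative -/
noncomputable def Lg (k : ℕ) : ℤ⟦X⟧ := th (eul k) * ie k

theorem th_sq (F : ℤ⟦X⟧) : th (F ^ 2) = 2 * F * th F := by
  rw [pow_two, th_mul]; ring

theorem th_two (F : ℤ⟦X⟧) : th (2 * F) = 2 * th F := by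
  rw [two_mul, th_add]; ring

theorem Phi_form : Phi = eul 2 ^ 5 * (ie 1 * ie 4) ^ 2 := by
  have h := Phi_eul
  have h1 := ie_mul (k := 1) le_rfl
  have h4 := ie_mul (k := 4) (by norm_num)
  have h14 : (eul 1 * eul 4) ^ 2 * (ie 1 * ie 4) ^ 2 = 1 := by
    calc (eul 1 * eul 4) ^ 2 * (ie 1 * ie 4) ^ 2 = (eul 1 * ie 1) ^ 2 * (eul 4 * ie 4) ^ 2 := by ring
      _ = 1 := by rw [h1, h4]; ring
  calc Phi = Phi * ((eul 1 * eul 4) ^ 2 * (ie 1 * ie 4) ^ 2) := by rw [h14, mul_one]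
    _ = (Phi * (eul 1 * eul 4) ^ 2) * (ie 1 * ie 4) ^ 2 := by ring
    _ = _ := by rw [h]

theorem Aa_form : Aa = 2 * eul 4 ^ 2 * ie 2 := by
  have h := Aa_eul
  have h2 := ie_mul (k := 2) (by norm_num)
  calc Aa = (Aa * eul 2) * ie 2 := by rw [mul_assoc, h2, mul_one]
    _ = _ := by rw [h]

theorem th_Phi : th Phi = Phi * (5 * Lg 2 - 2 * Lg 1 - 2 * Lg 4) := by
  have h5 : th (eul 2 ^ 5) = 5 * eul 2 ^ 4 * th (eul 2) := by
    have := th_pow (eul 2) 4
    simpa using this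
  have h2 := ie_mul (k := 2) (by norm_num)
  rw [Phi_form, th_mul, h5, th_sq, th_mul, th_ie (by norm_num), th_ie (by norm_num)]
  unfold Lg
  linear_combination (-5 * eul 2 ^ 4 * th (eul 2) * (ie 1 * ie 4) ^ 2) * h2

theorem th_Aa : th Aa = Aa * (2 * Lg 4 - Lg 2) := by
  have h4 := ie_mul (k := 4) (by norm_num)
  rw [Aa_form, th_mul, th_two, th_sq, th_ie (by norm_num)]
  unfold Lg
  linear_combination (-4 * eul 4 * th (eul 4) * ie 2) * h4

theorem phm_form : phm = eul 1 ^ 2 * ie 2 := by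
  have h := phm_eul
  have h2 := ie_mul (k := 2) (by norm_num)
  calc phm = (phm * eul 2) * ie 2 := by rw [mul_assoc, h2, mul_one]
    _ = _ := by rw [h]

/-- **Jacobi's four square theorem** -/
theorem four_sq : phm ^ 4 = 1 + 8 * Lg 1 - 24 * Lg 2 + 16 * Lg 4 := by
  have h1 := ie_mul (k := 1) le_rfl
  have h2 := ie_mul (k := 2) (by norm_num)
  have h4 := ie_mul (k := 4) (by norm_num)
  have hH := hirsch
  rw [th_Phi, th_Aa] at hH
  have hAP : Aa * Phi = 2 * eul 2 ^ 4 * ie 1 ^ 2 := by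
    rw [Phi_form, Aa_form]
    calc 2 * eul 4 ^ 2 * ie 2 * (eul 2 ^ 5 * (ie 1 * ie 4) ^ 2) =
        2 * eul 2 ^ 4 * ie 1 ^ 2 * (eul 2 * ie 2) * (eul 4 * ie 4) ^ 2 := by ring
      _ = _ := by rw [h2, h4]; ring
  set w := 1 + 8 * Lg 1 - 24 * Lg 2 + 16 * Lg 4 with hw
  have h6 : 2 * eul 1 ^ 6 = (2 * eul 2 ^ 4 * ie 1 ^ 2) * w := by
    rw [← hAP, hw]
    linear_combination hH
  have h7 : eul 1 ^ 6 = eul 2 ^ 4 * ie 1 ^ 2 * w := by
    refine mul_left_cancel₀ two_ps_ne ?_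
    linear_combination h6
  rw [phm_form]
  calc (eul 1 ^ 2 * ie 2) ^ 4 = eul 1 ^ 6 * eul 1 ^ 2 * ie 2 ^ 4 := by ring
    _ = (eul 1 * ie 1) ^ 2 * (eul 2 * ie 2) ^ 4 * w := by rw [h7]; ring
    _ = w := by rw [h1, h2]; ring

theorem Qs_form : Qs = eul 2 * ie 1 := by
  have h := Qs_eul
  have h1 := ie_mul (k := 1) le_rfl
  calc Qs = (Qs * eul 1) * ie 1 := by rw [mul_assoc, h1, mul_one]
    _ = _ := by rw [h]

theorem Es_form : Es = eul 4 * ie 2 := by
  have h := Es_eul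
  have h1 := ie_mul (k := 2) (by norm_num)
  calc Es = (Es * eul 2) * ie 2 := by rw [mul_assoc, h1, mul_one]
    _ = _ := by rw [h]

theorem th_Qs : th Qs = Qs * (Lg 2 - Lg 1) := by
  have h2 := ie_mul (k := 2) (by norm_num)
  rw [Qs_form, th_mul, th_ie (by norm_num)]
  unfold Lg
  linear_combination (-th (eul 2) * ie 1) * h2

theorem th_Es : th Es = Es * (Lg 4 - Lg 2) := by
  have h2 := ie_mul (k := 4) (by norm_num)
  rw [Es_form, th_mul, th_ie (by norm_num)]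
  unfold Lg
  linear_combination (-th (eul 4) * ie 2) * h2

theorem gD_form : gD = th Qs - 2 * Qs * (Lg 4 - Lg 2) := by
  have h1 : th Qs = th (oddP (-1)) * Es + oddP (-1) * th Es := by
    rw [← O_mul_E, th_mul]
  rw [gD_eq, h1, th_Es]
  linear_combination (2 * (Lg 4 - Lg 2)) * (-O_mul_E)

theorem th_expand (F : ℤ⟦X⟧) : th (expand 2 (by norm_num) F) = 2 * expand 2 (by norm_num) (th F) := by
  ext n
  rw [coeff_th, coeff_expand, show (2 : ℤ⟦X⟧) = C 2 from (map_ofNat C 2).symm, coeff_C_mul,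
    coeff_expand]
  split_ifs with h
  · obtain ⟨m, rfl⟩ := h
    rw [Nat.mul_div_cancel_left _ (by norm_num), coeff_th]
    push_cast
    ring
  · simp

theorem expand_ie {k : ℕ} (hk : 1 ≤ k) : expand 2 (by norm_num) (ie k) = ie (2 * k) := by
  have h1 := congrArg (expand 2 (by norm_num)) (ie_mul hk)
  rw [map_mul, expand_eul _ hk, map_one] at h1
  have h2 := ie_mul (k := 2 * k) (by omega)
  have h3 : eul (2 * k) ≠ 0 := eul_ne_zero (by omega)
  refine mul_left_cancel₀ h3 ?_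
  rw [h1, h2]

theorem Lg_two {k : ℕ} (hk : 1 ≤ k) : Lg (2 * k) = 2 * expand 2 (by norm_num) (Lg k) := by
  unfold Lg
  rw [map_mul, expand_ie hk, ← expand_eul (by norm_num) hk, th_expand]
  ring

/-- `V = T - 3T^2 + 4T^3 - 2T^4` -/
noncomputable def Vs : ℤ⟦X⟧ := T1 - 3 * T1 ^ 2 + 4 * T1 ^ 3 - 2 * T1 ^ 4

theorem eight_ps_ne : (8 : ℤ⟦X⟧) ≠ 0 := by
  intro h
  have := congrArg (constantCoeff (R := ℤ)) h
  rw [map_ofNat, map_zero] at this
  norm_num at this

/-- the master formula -/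
theorem gD_master : ∃ U : ℤ⟦X⟧, gD = th Qs - 4 * Qs * expand 2 (by norm_num) Vs - 16 * Qs * U := by
  obtain ⟨W, hW⟩ : ∃ W, W = Lg 2 - Lg 1 := ⟨_, rfl⟩
  have h2 : Lg 2 = 2 * expand 2 (by norm_num) (Lg 1) := Lg_two (k := 1) le_rfl
  have h4 : Lg 4 = 2 * expand 2 (by norm_num) (Lg 2) := Lg_two (k := 2) (by norm_num)
  have hU : Lg 4 - Lg 2 = 2 * expand 2 (by norm_num) W := by
    rw [hW, map_sub, mul_sub, ← h4, ← h2]
  have hV : Vs = W - 4 * expand 2 (by norm_num) W := by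
    refine mul_left_cancel₀ eight_ps_ne ?_
    have h5 := four_sq
    rw [phm_eq] at h5
    unfold Vs
    linear_combination (-1) * h5 - 8 * hW - 16 * hU
  have hW2 : expand 2 (by norm_num) W = expand 2 (by norm_num) Vs +
      4 * expand 2 (by norm_num) (expand 2 (by norm_num) W) := by
    have h := congrArg (expand 2 (by norm_num)) hV
    rw [map_sub, map_mul, map_ofNat] at h
    linear_combination -h
  refine ⟨expand 2 (by norm_num) (expand 2 (by norm_num) W), ?_⟩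
  rw [gD_form, hU]
  linear_combination (-4 * Qs) * hW2

end Q266.DS
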