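import Pool.Agent.Q266.DS4

/-!
# Reduction modulo 16 and the vanishing coefficients
-/

set_option autoImplicit false

namespace Q266.DS

open PowerSeries Q279.QS

noncomputable abbrev s2 : ℤ⟦X⟧ := sE 2 (by norm_num)
noncomputable abbrev s4 : ℤ⟦X⟧ := sE 4 (by norm_num)
noncomputable abbrev s8 : ℤ⟦X⟧ := sE 8 (by norm_num)

theorem sE_eq (m : ℕ) (hm : m ≠ 0) :
    sE m hm = TS (fun k : ℕ => (m : ℤ) * ((k : ℤ) + 1) ^ 2) (fun _ => (1 : ℤ)) := by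
  rw [sE, s1, expand_TS]

theorem expand_s1 : expand 2 (by norm_num) s1 = s2 := rfl

theorem expand_sE {m k : ℕ} (hm : m ≠ 0) (hk : k ≠ 0) (h : 2 * m = k) :
    expand 2 (by norm_num) (sE m hm) = sE k hk := by
  subst h
  rw [sE_eq, sE_eq, expand_TS]
  exact TS_congr (fun n => by push_cast; ring) fun _ => rfl

theorem frob (F : ℤ⟦X⟧) : ∃ r : ℤ⟦X⟧, F ^ 2 = expand 2 (by norm_num) F + 2 * r := by
  haveI : Fact (Nat.Prime 2) := ⟨by norm_num⟩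
  have h := red_pow 2 F
  rw [← red_expand] at h
  have h2 : ∀ n, (2 : ℤ) ∣ coeff n (F ^ 2 - expand 2 (by norm_num) F) := by
    intro n
    have h3 := (coeff_red_eq_zero (p := 2) (n := n)
      (F := F ^ 2 - expand 2 (by norm_num) F)).1 (by rw [map_sub, h, sub_self, map_zero])
    exact_mod_cast h3
  refine ⟨mk fun n => coeff n (F ^ 2 - expand 2 (by norm_num) F) / 2, ?_⟩
  ext n
  rw [map_add, show (2 : ℤ⟦X⟧) = C 2 from (map_ofNat C 2).symm, coeff_C_mul, coeff_mk,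
    Int.mul_ediv_cancel' (h2 n), map_sub]
  ring

theorem four_ps_ne : (4 : ℤ⟦X⟧) ≠ 0 := by
  intro h
  have := congrArg (constantCoeff (R := ℤ)) h
  rw [map_ofNat, map_zero] at this
  norm_num at this

theorem expand_T1 : expand 2 (by norm_num) T1 = s2 - 2 * s8 := by
  rw [T1_eq, map_sub, map_mul, map_ofNat, expand_s1, expand_sE (k := 8) _ (by norm_num) (by norm_num)]

/-- the relation coming from `φ(q) φ(-q) = φ(-q^2)^2` -/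
theorem star : s1 ^ 2 = s4 + 2 * s1 * s4 - s2 ^ 2 - 4 * s8 ^ 2 + s2 - 2 * s8 + 4 * s2 * s8 := by
  have h := phi_mul
  rw [Phi_eq, phm_eq, map_sub, map_one, map_mul, map_ofNat, expand_T1, T1_eq] at h
  refine mul_left_cancel₀ four_ps_ne ?_
  linear_combination -h

theorem Qs_T : Qs * (1 - 2 * T1) = eul 1 := by
  rw [← phm_eq, Qs_form, phm_form]
  have h1 := ie_mul (k := 1) le_rfl
  have h2 := ie_mul (k := 2) (by norm_num)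
  linear_combination (eul 2 * ie 2 * eul 1) * h1 + eul 1 * h2

theorem mod16 : ∃ R : ℤ⟦X⟧, gD =
    th (eul 1 * (1 + 2 * s1 + 4 * s2 - 8 * s8 + 8 * s1 * s4 + 8 * s1 * s2 - 4 * s2 ^ 2)) -
    eul 1 * (4 * s2 + 4 * s2 ^ 2 + 8 * s1 * s2 + 8 * s1 * s4) + 16 * R := by
  obtain ⟨U, hU⟩ := gD_master
  obtain ⟨r2, h2⟩ := frob s2
  rw [expand_sE (k := 4) _ (by norm_num) (by norm_num)] at h2
  obtain ⟨r4, h4⟩ := frob s4
  rw [expand_sE (k := 8) _ (by norm_num) (by norm_num)] at h4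
  have hT : T1 = s1 - 2 * s4 := T1_eq
  have hV : expand 2 (by norm_num) Vs = (s2 - 2 * s8) - 3 * (s2 - 2 * s8) ^ 2 +
      4 * (s2 - 2 * s8) ^ 3 - 2 * (s2 - 2 * s8) ^ 4 := by
    unfold Vs
    rw [map_sub, map_add, map_sub, map_mul, map_mul, map_mul, map_pow, map_pow, map_pow, map_ofNat,
      map_ofNat, map_ofNat, expand_T1]
  have hQ := Qs_T
  have hst := star
  -- (1)
  have hQ1 : Qs = eul 1 * (1 + 2 * T1 + 4 * T1 ^ 2 + 8 * T1 ^ 3) + 16 * (T1 ^ 4 * Qs) := by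
    linear_combination (1 + 2 * T1 + 4 * T1 ^ 2 + 8 * T1 ^ 3) * hQ
  -- (2)
  obtain ⟨R1, hR1⟩ : ∃ R1 : ℤ⟦X⟧, 1 + 2 * T1 + 4 * T1 ^ 2 + 8 * T1 ^ 3 =
      (1 + 2 * s1 + 4 * s2 - 8 * s8 + 8 * s1 * s4 + 8 * s1 * s2 - 4 * s2 ^ 2) + 16 * R1 := by
    refine ⟨-s8 ^ 2 + s2 * s8 - s1 * s4 + s4 ^ 2 - 2 * s1 ^ 2 * s4 - s1 * r2 - 2 * s1 * s8 ^ 2 -
      s1 * s8 + 2 * s1 * s2 * s8 + 6 * s1 * s4 ^ 2 - 4 * s4 ^ 3, ?_⟩
    rw [hT]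
    linear_combination (4 + 8 * s1) * hst + (-8 * s1) * h2
  -- (3)
  obtain ⟨R2, hR2⟩ : ∃ R2 : ℤ⟦X⟧, 4 * (1 + 2 * T1 + 4 * T1 ^ 2 + 8 * T1 ^ 3) *
      expand 2 (by norm_num) Vs =
      (4 * s2 + 4 * s2 ^ 2 + 8 * s1 * s2 + 8 * s1 * s4) + 16 * R2 := by
    obtain ⟨V, hV'⟩ : ∃ V, V = (s2 - 2 * s8) - 3 * (s2 - 2 * s8) ^ 2 +
      4 * (s2 - 2 * s8) ^ 3 - 2 * (s2 - 2 * s8) ^ 4 := ⟨_, rfl⟩
    refine ⟨((s1 - 2 * s4) ^ 2 + 2 * (s1 - 2 * s4) ^ 3) * V - s4 * V +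
      (1 + 2 * s1) * (-(s2 - 2 * s8) ^ 2 + (s2 - 2 * s8) ^ 3) +
      (1 + 2 * s1) * (-s2 * s8 + s8 ^ 2) - (1 + 2 * s1) * s8 -
      (1 + 2 * s1) * (r4 + 2 * (r2 - 2 * s2 * s8 + 2 * s8 ^ 2) * s4 +
        2 * (r2 - 2 * s2 * s8 + 2 * s8 ^ 2) ^ 2) + s1 * r2, ?_⟩
    rw [hV, hT, hV']
    linear_combination (-8 * (1 + 2 * s1) * ((s2 - 2 * s8) ^ 2 + s4 +
      2 * (r2 - 2 * s2 * s8 + 2 * s8 ^ 2)) + 8 * s1) * h2 + (-8 * (1 + 2 * s1)) * h4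
  have hQ2 : Qs = eul 1 * (1 + 2 * s1 + 4 * s2 - 8 * s8 + 8 * s1 * s4 + 8 * s1 * s2 - 4 * s2 ^ 2) +
      16 * (eul 1 * R1 + T1 ^ 4 * Qs) := by
    linear_combination hQ1 + eul 1 * hR1
  have hth : th Qs = th (eul 1 * (1 + 2 * s1 + 4 * s2 - 8 * s8 + 8 * s1 * s4 + 8 * s1 * s2 -
      4 * s2 ^ 2)) + 16 * th (eul 1 * R1 + T1 ^ 4 * Qs) := by
    have h5 : ∀ F : ℤ⟦X⟧, th (16 * F) = 16 * th F := by
      intro F
      ext n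
      rw [show (16 : ℤ⟦X⟧) = C 16 from (map_ofNat C 16).symm, coeff_th, coeff_C_mul, coeff_C_mul,
        coeff_th]
      ring
    rw [← h5, ← th_add, ← hQ2]
  refine ⟨th (eul 1 * R1 + T1 ^ 4 * Qs) - eul 1 * R2 -
    4 * T1 ^ 4 * Qs * expand 2 (by norm_num) Vs - Qs * U, ?_⟩
  rw [hU, hth]
  linear_combination (-4 * expand 2 (by norm_num) Vs) * hQ1 - eul 1 * hR2

end Q266.DS
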