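import Pool.Agent.Q266.DS5

/-!
# Vanishing of coefficients when `5` exactly divides `24n+1`, and the congruences
-/

set_option autoImplicit false

namespace Q266.DS

open PowerSeries Q279.QS

theorem te_sq (i : ℤ) : 24 * te 1 2 i + 1 = (6 * i - 1) ^ 2 := by
  have := two_tri i
  unfold te
  push_cast
  linear_combination 36 * this

theorem z5a : ∀ x y : ZMod 5, x ^ 2 + 24 * 2 * y ^ 2 = 0 → x = 0 ∧ y = 0 := by decide

theorem z5b : ∀ x y : ZMod 5, x ^ 2 + 24 * 8 * y ^ 2 = 0 → x = 0 ∧ y = 0 := by decide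

theorem z5c : ∀ x : ZMod 5, x ^ 2 = 0 → x = 0 := by decide

theorem z5d : ∀ x y : ZMod 5, x ^ 2 + 24 * y ^ 2 = 0 → x = y ∨ x = -y := by decide

theorem dvd_of_cast {x : ℤ} (h : (x : ZMod 5) = 0) : (5 : ℤ) ∣ x :=
  (ZMod.intCast_zmod_eq_zero_iff_dvd x 5).1 h

theorem no_rep {n : ℕ} (h25 : ¬ 25 ∣ 24 * n + 1) {x y : ℤ} (m : ℤ)
    (h : x ^ 2 + m * y ^ 2 = 24 * n + 1) (hx : (5 : ℤ) ∣ x) (hy : (5 : ℤ) ∣ y) : False := by
  apply h25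
  obtain ⟨a, ha⟩ := hx
  obtain ⟨b, hb⟩ := hy
  have : (25 : ℤ) ∣ ((24 * n + 1 : ℕ) : ℤ) := by
    push_cast
    rw [← h, ha, hb]
    exact ⟨a ^ 2 + m * b ^ 2, by ring⟩
  exact_mod_cast this

theorem cast_zero {n : ℕ} (h5 : 5 ∣ 24 * n + 1) {x y : ℤ} {m : ℤ}
    (h : x ^ 2 + m * y ^ 2 = 24 * n + 1) : (x : ZMod 5) ^ 2 + (m : ZMod 5) * (y : ZMod 5) ^ 2 = 0 := by
  have h1 : (5 : ℤ) ∣ ((24 * n + 1 : ℕ) : ℤ) := by exact_mod_cast h5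
  have h2 := (ZMod.intCast_zmod_eq_zero_iff_dvd _ 5).2 h1
  have h3 := congrArg (Int.cast (R := ZMod 5)) h
  push_cast at h2 h3
  rw [h3, h2]

theorem FF_te12 : FF (te 1 2) := FF_te le_rfl (by norm_num)

theorem coeff_eul {n : ℕ} (h5 : 5 ∣ 24 * n + 1) (h25 : ¬ 25 ∣ 24 * n + 1) :
    coeff n (eul 1) = 0 := by
  rw [Q279.QS.pentagonal]
  refine coeff_TS_of_zero fun i hi => ?_
  exfalso
  have h1 := te_sq i
  rw [hi] at h1
  have h2 : (6 * i - 1) ^ 2 + 0 * (0 : ℤ) ^ 2 = 24 * n + 1 := by rw [h1]; ring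
  have h3 := cast_zero h5 h2
  have h4 : ((6 * i - 1 : ℤ) : ZMod 5) = 0 := z5c _ (by push_cast at h3 ⊢; simpa using h3)
  exact no_rep h25 0 h2 (dvd_of_cast h4) (dvd_zero 5)

theorem coeff_eul_sE {n m : ℕ} (hm : m ≠ 0) (h5 : 5 ∣ 24 * n + 1) (h25 : ¬ 25 ∣ 24 * n + 1)
    (hz : ∀ x y : ZMod 5, x ^ 2 + 24 * (m : ZMod 5) * y ^ 2 = 0 → x = 0 ∧ y = 0) :
    coeff n (eul 1 * sE m hm) = 0 := by
  have hF : FF (fun k : ℕ => (m : ℤ) * ((k : ℤ) + 1) ^ 2) := FF_nat fun k => by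
    have : (1 : ℤ) ≤ m := by exact_mod_cast Nat.one_le_iff_ne_zero.2 hm
    nlinarith [sq_nonneg ((k : ℤ) + 1)]
  rw [Q279.QS.pentagonal, sE_eq, TS_mul FF_te12 hF (te_nonneg 1 2) (fun k => by positivity)]
  refine coeff_TS_of_zero fun p hp => ?_
  exfalso
  have h1 := te_sq p.1
  have h2 : (6 * p.1 - 1) ^ 2 + (24 * m : ℤ) * ((p.2 : ℤ) + 1) ^ 2 = 24 * n + 1 := by
    rw [← h1, ← hp]; ring
  have h3 := cast_zero h5 h2
  have h4 := hz _ _ (by push_cast at h3 ⊢; exact h3)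
  have h6 : (((p.2 : ℤ) + 1 : ℤ) : ZMod 5) = 0 := by push_cast at h4 ⊢; exact h4.2
  have h7 : ((6 * p.1 - 1 : ℤ) : ZMod 5) = 0 := by push_cast at h4 ⊢; exact h4.1
  exact no_rep h25 _ h2 (dvd_of_cast h7) (dvd_of_cast h6)

/-- the involution -/
def inv (p : ℤ × ℤ) : ℤ × ℤ :=
  if (5 : ℤ) ∣ p.1 - 1 - p.2 then ((1 - p.1 - 4 * p.2) / 5, (p.2 - 6 * p.1 + 1) / 5)
  else ((1 - p.1 + 4 * p.2) / 5, (p.2 + 6 * p.1 - 1) / 5)

theorem sgn_flip (m m' : ℤ) (k : ℤ) (h : 5 * m' = 1 - m - 4 * k) :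
    sg m + sg m' = 0 := by
  have h1 : m' = 1 - m + 2 * (- 2 * k - 2 * m') := by linarith
  rw [h1, sg_add, sg_two_mul, sg_sub, sg_one]
  ring

theorem coeff_eul_Phi {n : ℕ} (h5 : 5 ∣ 24 * n + 1) (h25 : ¬ 25 ∣ 24 * n + 1) :
    coeff n (eul 1 * Phi) = 0 := by
  have sq0 : ∀ n : ℤ, 0 ≤ n ^ 2 := fun n => sq_nonneg n
  have hF := FF_te12.add FF_sq (te_nonneg 1 2) sq0
  rw [Q279.QS.pentagonal, Phi, TS_mul FF_te12 FF_sq (te_nonneg 1 2) sq0, coeff_TS' hF]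
  have key : ∀ p : ℤ × ℤ, te 1 2 p.1 + p.2 ^ 2 = n ↔
      (6 * p.1 - 1) ^ 2 + 24 * p.2 ^ 2 = 24 * n + 1 := by
    intro p
    have h1 := te_sq p.1
    constructor
    · intro h
      rw [← h1, ← h]; ring
    · intro h
      rw [← h1] at h
      linarith
  have hmem : ∀ p : ℤ × ℤ, p ∈ (hF (n : ℤ)).toFinset ↔
      (6 * p.1 - 1) ^ 2 + 24 * p.2 ^ 2 = 24 * n + 1 := by
    intro p
    rw [Set.Finite.mem_toFinset, Set.mem_ofPred_eq]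
    exact key p
  -- the two cases
  have hcase : ∀ p : ℤ × ℤ, (6 * p.1 - 1) ^ 2 + 24 * p.2 ^ 2 = 24 * n + 1 →
      ((5 : ℤ) ∣ p.1 - 1 - p.2 ∧ ¬ (5 : ℤ) ∣ p.1 - 1 + p.2) ∨
      ((5 : ℤ) ∣ p.1 - 1 + p.2 ∧ ¬ (5 : ℤ) ∣ p.1 - 1 - p.2) := by
    intro p hp
    have h3 := cast_zero h5 hp
    have h4 := z5d _ _ (by push_cast at h3 ⊢; exact h3)
    have h6 : (5 : ℤ) ∣ (6 * p.1 - 1) - p.2 ∨ (5 : ℤ) ∣ (6 * p.1 - 1) + p.2 := by
      rcases h4 with h | h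
      · left
        refine dvd_of_cast ?_
        push_cast at h ⊢
        rw [h]; ring
      · right
        refine dvd_of_cast ?_
        push_cast at h ⊢
        rw [h]; ring
    by_cases ha : (5 : ℤ) ∣ p.1 - 1 - p.2
    · by_cases hb : (5 : ℤ) ∣ p.1 - 1 + p.2
      · exfalso
        exact no_rep h25 24 hp (by omega) (by omega)
      · exact Or.inl ⟨ha, hb⟩
    · refine Or.inr ⟨?_, ha⟩
      rcases h6 with h | h
      · exfalso; apply ha; omega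
      · omega
  -- basic properties of the involution
  have hA : ∀ p : ℤ × ℤ, (5 : ℤ) ∣ p.1 - 1 - p.2 →
      5 * (inv p).1 = 1 - p.1 - 4 * p.2 ∧ 5 * (inv p).2 = p.2 - 6 * p.1 + 1 := by
    intro p hp
    unfold inv
    rw [if_pos hp]
    constructor
    · show 5 * ((1 - p.1 - 4 * p.2) / 5) = _
      omega
    · show 5 * ((p.2 - 6 * p.1 + 1) / 5) = _
      omega
  have hB : ∀ p : ℤ × ℤ, (5 : ℤ) ∣ p.1 - 1 + p.2 → ¬ (5 : ℤ) ∣ p.1 - 1 - p.2 →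
      5 * (inv p).1 = 1 - p.1 + 4 * p.2 ∧ 5 * (inv p).2 = p.2 + 6 * p.1 - 1 := by
    intro p hp hp'
    unfold inv
    rw [if_neg hp']
    constructor
    · show 5 * ((1 - p.1 + 4 * p.2) / 5) = _
      omega
    · show 5 * ((p.2 + 6 * p.1 - 1) / 5) = _
      omega
  have hN : ∀ p : ℤ × ℤ, (6 * p.1 - 1) ^ 2 + 24 * p.2 ^ 2 = 24 * n + 1 →
      (6 * (inv p).1 - 1) ^ 2 + 24 * (inv p).2 ^ 2 = 24 * n + 1 := by
    intro p hp
    rcases hcase p hp with ⟨h1, _⟩ | ⟨h1, h2⟩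
    · obtain ⟨e1, e2⟩ := hA p h1
      have e3 : 5 * (6 * (inv p).1 - 1) = -((6 * p.1 - 1) + 24 * p.2) := by linarith
      have e4 : 5 * (inv p).2 = p.2 - (6 * p.1 - 1) := by linarith
      have e5 : (5 * (6 * (inv p).1 - 1)) ^ 2 + 24 * (5 * (inv p).2) ^ 2 =
          25 * (24 * n + 1) := by rw [e3, e4, ← hp]; ring
      linarith
    · obtain ⟨e1, e2⟩ := hB p h1 h2
      have e3 : 5 * (6 * (inv p).1 - 1) = -((6 * p.1 - 1) - 24 * p.2) := by linarith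
      have e4 : 5 * (inv p).2 = p.2 + (6 * p.1 - 1) := by linarith
      have e5 : (5 * (6 * (inv p).1 - 1)) ^ 2 + 24 * (5 * (inv p).2) ^ 2 =
          25 * (24 * n + 1) := by rw [e3, e4, ← hp]; ring
      linarith
  refine Finset.sum_involution (fun p _ => inv p) ?_ ?_ ?_ ?_
  · intro p hp
    rw [hmem] at hp
    simp only [mul_one, neg_one_pow_natAbs]
    rcases hcase p hp with ⟨h1, _⟩ | ⟨h1, h2⟩
    · exact sgn_flip p.1 _ p.2 (hA p h1).1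
    · exact sgn_flip p.1 _ (-p.2) (by rw [(hB p h1 h2).1]; ring)
  · intro p hp hne heq
    rw [hmem] at hp
    have h0 : sg p.1 + sg (inv p).1 = 0 := by
      rcases hcase p hp with ⟨h1, _⟩ | ⟨h1, h2⟩
      · exact sgn_flip p.1 _ p.2 (hA p h1).1
      · exact sgn_flip p.1 _ (-p.2) (by rw [(hB p h1 h2).1]; ring)
    rw [heq] at h0
    apply hne
    simp only [mul_one, neg_one_pow_natAbs]
    linarith
  · intro p hp
    rw [hmem] at hp ⊢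
    exact hN p hp
  · intro p hp
    rw [hmem] at hp
    have hp2 := hN p hp
    rcases hcase p hp with ⟨h1, _⟩ | ⟨h1, h2⟩
    · obtain ⟨e1, e2⟩ := hA p h1
      have h3 : (5 : ℤ) ∣ (inv p).1 - 1 - (inv p).2 := by omega
      obtain ⟨e3, e4⟩ := hA (inv p) h3
      refine Prod.ext ?_ ?_
      · omega
      · omega
    · obtain ⟨e1, e2⟩ := hB p h1 h2
      have h3 : (5 : ℤ) ∣ (inv p).1 - 1 + (inv p).2 := by omega
      have h4 : ¬ (5 : ℤ) ∣ (inv p).1 - 1 - (inv p).2 := by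
        rcases hcase (inv p) hp2 with ⟨_, h⟩ | ⟨_, h⟩
        · exact absurd h3 h
        · exact h
      obtain ⟨e3, e4⟩ := hB (inv p) h3 h4
      refine Prod.ext ?_ ?_
      · omega
      · omega

theorem coeff_eul_s1 {n : ℕ} (h5 : 5 ∣ 24 * n + 1) (h25 : ¬ 25 ∣ 24 * n + 1) :
    coeff n (eul 1 * s1) = 0 := by
  have h1 := coeff_eul_Phi h5 h25
  rw [Phi_eq, mul_add, mul_one, map_add, coeff_eul h5 h25, zero_add,
    show eul 1 * (2 * s1) = C 2 * (eul 1 * s1) by rw [map_ofNat]; ring, coeff_C_mul] at h1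
  linarith

theorem gD_mod {n : ℕ} (h5 : 5 ∣ 24 * n + 1) (h25 : ¬ 25 ∣ 24 * n + 1) :
    ∃ a b R : ℤ, coeff n gD = 8 * (n - 1) * a - 4 * (n + 1) * b + 16 * R := by
  obtain ⟨R, hR⟩ := mod16
  have v0 := coeff_eul h5 h25
  have v1 := coeff_eul_s1 h5 h25
  have v2 : coeff n (eul 1 * s2) = 0 := coeff_eul_sE _ h5 h25 (by exact_mod_cast z5a)
  have v8 : coeff n (eul 1 * s8) = 0 := coeff_eul_sE _ h5 h25 (by exact_mod_cast z5b)
  have e1 : eul 1 * (1 + 2 * s1 + 4 * s2 - 8 * s8 + 8 * s1 * s4 + 8 * s1 * s2 - 4 * s2 ^ 2) =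
      eul 1 + C 2 * (eul 1 * s1) + C 4 * (eul 1 * s2) - C 8 * (eul 1 * s8) +
      C 8 * (eul 1 * (s1 * s4 + s1 * s2)) - C 4 * (eul 1 * s2 ^ 2) := by
    simp only [map_ofNat]
    ring
  have e2 : eul 1 * (4 * s2 + 4 * s2 ^ 2 + 8 * s1 * s2 + 8 * s1 * s4) =
      C 4 * (eul 1 * s2) + C 8 * (eul 1 * (s1 * s4 + s1 * s2)) + C 4 * (eul 1 * s2 ^ 2) := by
    simp only [map_ofNat]
    ring
  refine ⟨coeff n (eul 1 * (s1 * s4 + s1 * s2)), coeff n (eul 1 * s2 ^ 2), coeff n R, ?_⟩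
  rw [hR, e1, e2, show (16 : ℤ⟦X⟧) = C 16 from (map_ofNat C 16).symm, map_add, map_sub, coeff_th,
    coeff_C_mul]
  simp only [map_add, map_sub, coeff_C_mul, v0, v1, v2, v8]
  ring

theorem gD_eight {n : ℕ} (hn : n % 2 = 1) (h5 : 5 ∣ 24 * n + 1) (h25 : ¬ 25 ∣ 24 * n + 1) :
    (8 : ℤ) ∣ coeff n gD := by
  obtain ⟨a, b, R, h⟩ := gD_mod h5 h25
  obtain ⟨m, hm⟩ : ∃ m : ℤ, (n : ℤ) = 2 * m + 1 := ⟨n / 2, by omega⟩
  rw [h, hm]
  exact ⟨(2 * m) * a - (m + 1) * b + 2 * R, by ring⟩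

theorem gD_sixteen {n : ℕ} (hn : n % 4 = 3) (h5 : 5 ∣ 24 * n + 1) (h25 : ¬ 25 ∣ 24 * n + 1) :
    (16 : ℤ) ∣ coeff n gD := by
  obtain ⟨a, b, R, h⟩ := gD_mod h5 h25
  obtain ⟨m, hm⟩ : ∃ m : ℤ, (n : ℤ) = 4 * m + 3 := ⟨n / 4, by omega⟩
  rw [h, hm]
  exact ⟨(2 * m + 1) * a - (m + 1) * b + R, by ring⟩

end Q266.DS
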