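import Mathlib

set_option autoImplicit false

/-! The Domb numbers: the recurrence, and a telescoping sum. -/

namespace Q266.Domb

open Finset

/-- The Domb numbers. -/
def s (n : ℕ) : ℕ := ∑ k ∈ range (n + 1),
  n.choose k ^ 2 * (2 * k).choose k * (2 * (n - k)).choose (n - k)

/-- The weights of the Cauchy product. -/
def c (k : ℕ) : ℚ := (k.centralBinom : ℚ) / (k.factorial : ℚ) ^ 2

theorem c_succ (k : ℕ) : ((k : ℚ) + 1) ^ 3 * c (k + 1) = 2 * (2 * k + 1) * c k := by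
  have h1 : ((k : ℚ) + 1) * ((k + 1).centralBinom : ℚ) = 2 * (2 * k + 1) * (k.centralBinom : ℚ) := by
    exact_mod_cast Nat.succ_mul_centralBinom_succ k
  have h2 : ((k + 1).factorial : ℚ) = (k + 1) * (k.factorial : ℚ) := by
    rw [Nat.factorial_succ]; push_cast; ring
  have h3 : (k.factorial : ℚ) ≠ 0 := by exact_mod_cast Nat.factorial_ne_zero k
  have h4 : (k : ℚ) + 1 ≠ 0 := by positivity
  rw [c, c, h2]
  field_simp
  linear_combination h1

/-- Weighted Cauchy square. -/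
def T (n : ℕ) (g : ℚ → ℚ → ℚ) : ℚ := ∑ q ∈ antidiagonal n, g q.1 q.2 * (c q.1 * c q.2)

theorem T_swap (n : ℕ) (g : ℚ → ℚ → ℚ) : T n g = T n (fun x y => g y x) := by
  rw [T, T, ← Finset.Nat.sum_antidiagonal_swap]
  apply sum_congr rfl
  intro q _
  simp only [Prod.fst_swap, Prod.snd_swap]
  ring

theorem T_congr {n : ℕ} {g g' : ℚ → ℚ → ℚ} (h : ∀ x y : ℚ, x + y = n → g x y = g' x y) :
    T n g = T n g' := by
  apply sum_congr rfl
  intro q hq
  rw [h]
  have := mem_antidiagonal.1 hq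
  exact_mod_cast this

theorem T_add (n : ℕ) (g g' : ℚ → ℚ → ℚ) : T n (fun x y => g x y + g' x y) = T n g + T n g' := by
  rw [T, T, T, ← sum_add_distrib]
  apply sum_congr rfl
  intro q _
  ring

theorem T_mul (n : ℕ) (a : ℚ) (g : ℚ → ℚ → ℚ) : T n (fun x y => a * g x y) = a * T n g := by
  rw [T, T, mul_sum]
  apply sum_congr rfl
  intro q _
  ring

theorem T_shift (n : ℕ) (g : ℚ → ℚ → ℚ) : T (n + 1) (fun x y => x ^ 3 * g x y) =
    T n (fun x y => 2 * (2 * x + 1) * g (x + 1) y) := by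
  rw [T, T, Finset.Nat.sum_antidiagonal_succ]
  simp only [Nat.cast_zero]
  rw [show (0 : ℚ) ^ 3 * g 0 ((n + 1 : ℕ) : ℚ) * (c 0 * c (n + 1)) = 0 by ring, zero_add]
  apply sum_congr rfl
  intro q _
  have h := c_succ q.1
  push_cast
  linear_combination (g (q.1 + 1) q.2 * c q.2) * h

theorem T_shift' (n : ℕ) (g : ℚ → ℚ → ℚ) : T (n + 1) (fun x y => y ^ 3 * g x y) =
    T n (fun x y => 2 * (2 * y + 1) * g x (y + 1)) := by
  rw [T_swap (n + 1), T_shift n (fun x y => g y x), T_swap n]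

/-- The Cauchy square. -/
def t (n : ℕ) : ℚ := T n (fun _ _ => 1)

theorem T_const (n : ℕ) (a : ℚ) : T n (fun _ _ => a) = a * t n := by
  have := T_mul n a (fun _ _ => 1)
  simpa [t] using this

theorem u_eq (m : ℕ) : 3 * T (m + 1) (fun x y => x * y) = ((m : ℚ) + 1) ^ 2 * t (m + 1) - 4 * t m := by
  have h1 : T (m + 1) (fun _ _ => ((m : ℚ) + 1) ^ 3) = T (m + 1) (fun x y =>
      (x ^ 3 * 1 + y ^ 3 * 1) + (3 * ((m : ℚ) + 1)) * (x * y)) := by
    apply T_congr
    intro x y h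
    push_cast at h
    rw [← h]; ring
  rw [T_const, T_add, T_add, T_mul, T_shift m (fun _ _ => 1), T_shift' m (fun _ _ => 1)] at h1
  rw [← T_add] at h1
  have h2 : T m (fun x y => 2 * (2 * x + 1) * 1 + 2 * (2 * y + 1) * 1) = T m (fun _ _ => 4 * ((m : ℚ) + 1)) := by
    apply T_congr
    intro x y h
    linear_combination 4 * h
  rw [h2, T_const] at h1
  have h4 : (m : ℚ) + 1 ≠ 0 := by positivity
  apply mul_left_cancel₀ h4
  linear_combination -h1

theorem t_rec (m : ℕ) : ((m : ℚ) + 2) ^ 5 * t (m + 2) =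
    2 * (2 * ((m : ℚ) + 1) + 1) * (5 * ((m : ℚ) + 1) ^ 2 + 5 * ((m : ℚ) + 1) + 2) * t (m + 1) -
      64 * ((m : ℚ) + 1) * t m := by
  have h1 : T (m + 1 + 1) (fun _ _ => ((m : ℚ) + 2) ^ 5) = T (m + 1 + 1) (fun x y =>
      x ^ 3 * (x ^ 2 + 5 * (x * y) + 10 * y ^ 2) + y ^ 3 * (y ^ 2 + 5 * (x * y) + 10 * x ^ 2)) := by
    apply T_congr
    intro x y h
    push_cast at h
    have h' : (m : ℚ) + 2 = x + y := by rw [h]; ring
    rw [h']; ring
  rw [T_const, T_add, T_shift (m + 1) (fun x y => x ^ 2 + 5 * (x * y) + 10 * y ^ 2),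
    T_shift' (m + 1) (fun x y => y ^ 2 + 5 * (x * y) + 10 * x ^ 2), ← T_add] at h1
  have h2 : T (m + 1) (fun x y => 2 * (2 * x + 1) * ((x + 1) ^ 2 + 5 * ((x + 1) * y) + 10 * y ^ 2) +
      2 * (2 * y + 1) * ((y + 1) ^ 2 + 5 * (x * (y + 1)) + 10 * x ^ 2)) = T (m + 1) (fun x y =>
      (4 * ((m : ℚ) + 1) ^ 3 + 30 * ((m : ℚ) + 1) ^ 2 + 18 * ((m : ℚ) + 1) + 4) +
        (48 * ((m : ℚ) + 1)) * (x * y)) := by
    apply T_congr
    intro x y h
    push_cast at h
    rw [← h]; ring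
  rw [h2, T_add, T_const, T_mul] at h1
  have h3 := u_eq m
  rw [show m + 2 = m + 1 + 1 by ring, h1]
  linear_combination (16 * ((m : ℚ) + 1)) * h3

theorem s_eq (n : ℕ) : (s n : ℚ) = (n.factorial : ℚ) ^ 2 * t n := by
  rw [s, t, T, Finset.Nat.sum_antidiagonal_eq_sum_range_succ_mk, mul_sum]
  push_cast
  apply sum_congr rfl
  intro k hk
  have hk' : k ≤ n := by have := mem_range.1 hk; omega
  have h1 : (n.choose k : ℚ) * (k.factorial : ℚ) * ((n - k).factorial : ℚ) = (n.factorial : ℚ) := by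
    exact_mod_cast Nat.choose_mul_factorial_mul_factorial hk'
  have h3 : (k.factorial : ℚ) ≠ 0 := by exact_mod_cast Nat.factorial_ne_zero k
  have h4 : ((n - k).factorial : ℚ) ≠ 0 := by exact_mod_cast Nat.factorial_ne_zero (n - k)
  simp only [one_mul]
  rw [c, c, ← h1, Nat.centralBinom, Nat.centralBinom]
  field_simp

/-- The recurrence of the Domb numbers. -/
theorem s_rec (m : ℕ) : ((m : ℚ) + 2) ^ 3 * (s (m + 2) : ℚ) =
    2 * (2 * ((m : ℚ) + 1) + 1) * (5 * ((m : ℚ) + 1) ^ 2 + 5 * ((m : ℚ) + 1) + 2) * (s (m + 1) : ℚ) -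
      64 * ((m : ℚ) + 1) ^ 3 * (s m : ℚ) := by
  have h := t_rec m
  rw [s_eq, s_eq, s_eq]
  have h2 : ((m + 2).factorial : ℚ) = (m + 2) * ((m + 1) * (m.factorial : ℚ)) := by
    rw [Nat.factorial_succ, Nat.factorial_succ]; push_cast; ring
  have h3 : ((m + 1).factorial : ℚ) = (m + 1) * (m.factorial : ℚ) := by
    rw [Nat.factorial_succ]; push_cast; ring
  rw [h2, h3]
  linear_combination ((m : ℚ) + 1) ^ 2 * (m.factorial : ℚ) ^ 2 * h

theorem s_zero : s 0 = 1 := by decide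
theorem s_one : s 1 = 4 := by decide

/-- The telescoping sum. -/
theorem sum_eq (m : ℕ) : 6 * ∑ n ∈ range (m + 1), (3 * (n : ℚ) ^ 2 + n) * 16 ^ (m - n) * (s n : ℚ) =
    ((m : ℚ) + 1) ^ 3 * ((s (m + 1) : ℚ) - 4 * s m) := by
  induction m with
  | zero => simp [s_zero, s_one]
  | succ m ih =>
    rw [sum_range_succ]
    have h1 : ∑ n ∈ range (m + 1), (3 * (n : ℚ) ^ 2 + n) * 16 ^ (m + 1 - n) * (s n : ℚ) =
        16 * ∑ n ∈ range (m + 1), (3 * (n : ℚ) ^ 2 + n) * 16 ^ (m - n) * (s n : ℚ) := by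
      rw [mul_sum]
      apply sum_congr rfl
      intro n hn
      have : n ≤ m := by have := mem_range.1 hn; omega
      rw [show m + 1 - n = (m - n) + 1 by omega, pow_succ]
      ring
    rw [h1, mul_add]
    have h2 := s_rec m
    simp only [Nat.sub_self, pow_zero]
    push_cast
    linear_combination 16 * ih - h2

end Q266.Domb
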