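import Mathlib
import Pool.Agent.Q266.Domb1

set_option autoImplicit false

/-! The Domb numbers modulo `3` and modulo `8`. -/

namespace Q266.Domb

open Finset

instance : Fact (Nat.Prime 3) := ⟨Nat.prime_three⟩

theorem lucas3 (n k : ℕ) : ((n.choose k : ℕ) : ZMod 3) =
    (((n % 3).choose (k % 3) : ℕ) : ZMod 3) * (((n / 3).choose (k / 3) : ℕ) : ZMod 3) := by
  have h := Choose.choose_modEq_choose_mod_mul_choose_div_nat (n := n) (k := k) (p := 3)
  have := (ZMod.natCast_eq_natCast_iff _ _ _).2 h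
  rw [this]; push_cast; ring

theorem w0 (k : ℕ) : (((2 * (3 * k)).choose (3 * k) : ℕ) : ZMod 3) = ((2 * k).choose k : ℕ) := by
  rw [lucas3, show 2 * (3 * k) % 3 = 0 by omega, show 3 * k % 3 = 0 by omega,
    show 2 * (3 * k) / 3 = 2 * k by omega, show 3 * k / 3 = k by omega]
  simp

theorem w1 (k : ℕ) : (((2 * (3 * k + 1)).choose (3 * k + 1) : ℕ) : ZMod 3) =
    2 * ((2 * k).choose k : ℕ) := by
  rw [lucas3, show 2 * (3 * k + 1) % 3 = 2 by omega, show (3 * k + 1) % 3 = 1 by omega,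
    show 2 * (3 * k + 1) / 3 = 2 * k by omega, show (3 * k + 1) / 3 = k by omega]
  simp

theorem w2 (k : ℕ) : (((2 * (3 * k + 2)).choose (3 * k + 2) : ℕ) : ZMod 3) = 0 := by
  rw [lucas3, show 2 * (3 * k + 2) % 3 = 1 by omega, show (3 * k + 2) % 3 = 2 by omega]
  simp

theorem sum_three {M : Type*} [AddCommMonoid M] (f : ℕ → M) (n : ℕ) :
    ∑ k ∈ range (3 * n), f k = ∑ k ∈ range n, (f (3 * k) + f (3 * k + 1) + f (3 * k + 2)) := by
  induction n with
  | zero => simp
  | succ n ih =>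
    rw [show 3 * (n + 1) = 3 * n + 1 + 1 + 1 by ring, sum_range_succ, sum_range_succ,
      sum_range_succ, ih, sum_range_succ]
    simp only [add_assoc]

theorem ch (n k r j : ℕ) (hr : r < 3) (hj : j < 3) : (((3 * n + r).choose (3 * k + j) : ℕ) : ZMod 3) =
    ((r.choose j : ℕ) : ZMod 3) * ((n.choose k : ℕ) : ZMod 3) := by
  rw [lucas3, show (3 * n + r) % 3 = r by omega, show (3 * k + j) % 3 = j by omega,
    show (3 * n + r) / 3 = n by omega, show (3 * k + j) / 3 = k by omega]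

theorem three_zero : (3 : ZMod 3) = 0 := by decide

theorem s_three (n r : ℕ) (hr : r < 3) : ((s (3 * n + r) : ℕ) : ZMod 3) = (s n : ZMod 3) := by
  have h1 : ((s (3 * n + r) : ℕ) : ZMod 3) = ∑ k ∈ range (3 * (n + 1)),
      (((3 * n + r).choose k : ℕ) : ZMod 3) ^ 2 * (((2 * k).choose k : ℕ) : ZMod 3) *
        (((2 * (3 * n + r - k)).choose (3 * n + r - k) : ℕ) : ZMod 3) := by
    rw [s]
    push_cast
    apply sum_subset
    · intro x hx
      have := mem_range.1 hx
      exact mem_range.2 (by omega)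
    · intro x hx hx'
      have h2 : ¬ x < 3 * n + r + 1 := fun h => hx' (mem_range.2 h)
      rw [Nat.choose_eq_zero_of_lt (show 3 * n + r < x by omega)]
      simp
  rw [h1, sum_three, s]
  push_cast
  apply sum_congr rfl
  intro k hk
  have hk' : k ≤ n := by have := mem_range.1 hk; omega
  have c0 := ch n k r 0 hr (by norm_num)
  have c1 := ch n k r 1 hr (by norm_num)
  have c2 := ch n k r 2 hr (by norm_num)
  rw [add_zero] at c0
  rw [c0, c1, c2, w0, w1, w2]
  have t3 := three_zero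
  interval_cases r
  · have e0 := w0 (n - k)
    rw [show 3 * (n - k) = 3 * n + 0 - 3 * k by omega] at e0
    rw [e0]
    simp
  · have e0 := w1 (n - k)
    have e1 := w0 (n - k)
    rw [show 3 * (n - k) + 1 = 3 * n + 1 - 3 * k by omega] at e0
    rw [show 3 * (n - k) = 3 * n + 1 - (3 * k + 1) by omega] at e1
    rw [e0, e1]
    simp
    linear_combination (((n.choose k : ℕ) : ZMod 3) ^ 2 * (((2 * k).choose k : ℕ) : ZMod 3) *
        (((2 * (n - k)).choose (n - k) : ℕ) : ZMod 3)) * t3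
  · have e0 := w2 (n - k)
    have e1 := w1 (n - k)
    rw [show 3 * (n - k) + 2 = 3 * n + 2 - 3 * k by omega] at e0
    rw [show 3 * (n - k) + 1 = 3 * n + 2 - (3 * k + 1) by omega] at e1
    rw [e0, e1]
    simp
    linear_combination 5 * (((n.choose k : ℕ) : ZMod 3) ^ 2 * (((2 * k).choose k : ℕ) : ZMod 3) *
        (((2 * (n - k)).choose (n - k) : ℕ) : ZMod 3)) * t3

theorem s_mod3' (n : ℕ) : ((s n : ℕ) : ZMod 3) = 1 := by
  induction n using Nat.strong_induction_on with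
  | _ n ih =>
    rcases Nat.eq_zero_or_pos n with rfl | hn
    · rw [s_zero]; simp
    · have h := s_three (n / 3) (n % 3) (Nat.mod_lt _ (by norm_num))
      rw [Nat.div_add_mod] at h
      rw [h]
      exact ih _ (by omega)

theorem s_mod3 (n : ℕ) : s n % 3 = 1 := by
  have h := s_mod3' n
  have h2 : ((s n : ℕ) : ZMod 3) = ((1 : ℕ) : ZMod 3) := by rw [h]; simp
  have := (ZMod.natCast_eq_natCast_iff' _ _ _).1 h2
  simpa using this

theorem even_cb {k : ℕ} (hk : 1 ≤ k) : 2 ∣ (2 * k).choose k := by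
  have := Nat.two_dvd_centralBinom_of_one_le hk
  exact this

/-- The terms of the Domb numbers. -/
def f (n k : ℕ) : ℕ := n.choose k ^ 2 * (2 * k).choose k * (2 * (n - k)).choose (n - k)

theorem f_symm {n k : ℕ} (h : k ≤ n) : f n (n - k) = f n k := by
  rw [f, f, Nat.choose_symm h, show n - (n - k) = k by omega]
  ring

theorem f_four {n k : ℕ} (h1 : 1 ≤ k) (h2 : k < n) : 4 ∣ f n k := by
  have a := even_cb h1
  have b := even_cb (show 1 ≤ n - k by omega)
  rw [f, mul_assoc]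
  exact Dvd.dvd.mul_left (by simpa using mul_dvd_mul a b) _

theorem f_mid {m : ℕ} (h : 1 ≤ m) : 8 ∣ f (2 * m) m := by
  rw [f, show 2 * m - m = m by omega]
  have a := even_cb h
  obtain ⟨z, hz⟩ := a
  rw [hz]
  exact ⟨2 * z ^ 4, by ring⟩

/-- The inner part of the sum is divisible by `8`. -/
theorem inner (n : ℕ) (hn : 1 ≤ n) : 8 ∣ ∑ k ∈ range (n - 1), f n (k + 1) := by
  rcases Nat.even_or_odd' n with ⟨m, hm | hm⟩
  · subst hm
    have hm1 : 1 ≤ m := by omega
    rw [show 2 * m - 1 = (m - 1) + 1 + (m - 1) by omega, sum_range_add, sum_range_succ]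
    have e : ∑ x ∈ range (m - 1), f (2 * m) (m - 1 + 1 + x + 1) = ∑ k ∈ range (m - 1), f (2 * m) (k + 1) := by
      rw [← sum_range_reflect]
      apply sum_congr rfl
      intro x hx
      have := mem_range.1 hx
      rw [← f_symm (show x + 1 ≤ 2 * m by omega)]
      congr 1
      omega
    rw [e, show m - 1 + 1 = m by omega]
    have h4 : 4 ∣ ∑ k ∈ range (m - 1), f (2 * m) (k + 1) := by
      apply dvd_sum
      intro x hx
      have := mem_range.1 hx
      exact f_four (by omega) (by omega)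
    have h8 := f_mid hm1
    omega
  · subst hm
    rw [show 2 * m + 1 - 1 = m + m by omega, sum_range_add]
    have e : ∑ x ∈ range m, f (2 * m + 1) (m + x + 1) = ∑ k ∈ range m, f (2 * m + 1) (k + 1) := by
      rw [← sum_range_reflect]
      apply sum_congr rfl
      intro x hx
      have := mem_range.1 hx
      rw [← f_symm (show x + 1 ≤ 2 * m + 1 by omega)]
      congr 1
      omega
    rw [e]
    have h4 : 4 ∣ ∑ k ∈ range m, f (2 * m + 1) (k + 1) := by
      apply dvd_sum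
      intro x hx
      have := mem_range.1 hx
      exact f_four (by omega) (by omega)
    omega

theorem s_split (n : ℕ) (hn : 1 ≤ n) : s n = 2 * n.centralBinom + ∑ k ∈ range (n - 1), f n (k + 1) := by
  have h0 : s n = ∑ k ∈ range (n + 1), f n k := rfl
  rw [h0, sum_range_succ]
  have h1 : ∑ k ∈ range n, f n k = ∑ k ∈ range (n - 1), f n (k + 1) + f n 0 := by
    obtain ⟨m, rfl⟩ : ∃ m, n = m + 1 := ⟨n - 1, by omega⟩
    rw [sum_range_succ']
    rfl
  rw [h1]
  have h2 : f n 0 = n.centralBinom := by simp [f, Nat.centralBinom]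
  have h3 : f n n = n.centralBinom := by simp [f, Nat.centralBinom]
  rw [h2, h3]; ring

theorem s_mod8 (n : ℕ) (hn : 1 ≤ n) : s n % 8 = 2 * n.centralBinom % 8 := by
  have h1 := s_split n hn
  have h2 := inner n hn
  omega

/-- The exponent of `2` in the central binomial coefficient. -/
def e (n : ℕ) : ℕ := padicValNat 2 n.centralBinom

theorem e_zero : e 0 = 0 := by simp [e]

theorem e_succ (n : ℕ) : padicValNat 2 (n + 1) + e (n + 1) = 1 + e n := by
  have h := Nat.succ_mul_centralBinom_succ n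
  have h1 := congrArg (padicValNat 2) h
  rw [padicValNat.mul (by omega) (Nat.centralBinom_ne_zero _), padicValNat.mul (by omega)
    (Nat.centralBinom_ne_zero _), padicValNat.mul (by norm_num) (by omega), padicValNat.self (by norm_num),
    padicValNat.eq_zero_of_not_dvd (show ¬ 2 ∣ 2 * n + 1 by omega)] at h1
  rw [e, e]
  omega

theorem e_odd (m : ℕ) : e (2 * m + 1) = 1 + e (2 * m) := by
  have h := e_succ (2 * m)
  rw [padicValNat.eq_zero_of_not_dvd (show ¬ 2 ∣ 2 * m + 1 by omega)] at h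
  omega

theorem e_even (m : ℕ) : e (2 * m) = e m := by
  induction m with
  | zero => rfl
  | succ m ih =>
    have h1 := e_succ (2 * m + 1)
    have h2 := e_odd m
    have h3 := e_succ m
    have h4 : padicValNat 2 (2 * m + 1 + 1) = 1 + padicValNat 2 (m + 1) := by
      rw [show 2 * m + 1 + 1 = 2 * (m + 1) by ring, padicValNat.mul (by norm_num) (by omega),
        padicValNat.self (by norm_num)]
    rw [show 2 * (m + 1) = 2 * m + 1 + 1 by ring]
    omega

theorem e_eq_zero {n : ℕ} (h : e n = 0) : n = 0 := by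
  by_contra h0
  have h1 := Nat.two_dvd_centralBinom_of_one_le (show 0 < n by omega)
  have h2 : 1 ≤ padicValNat 2 n.centralBinom :=
    one_le_padicValNat_of_dvd (Nat.centralBinom_ne_zero _) h1
  rw [e] at h
  omega

theorem e_one_iff (n : ℕ) : e n = 1 ↔ ∃ k, n = 2 ^ k := by
  induction n using Nat.strong_induction_on with
  | _ n ih =>
    rcases Nat.even_or_odd' n with ⟨m, hm | hm⟩
    · subst hm
      rcases Nat.eq_zero_or_pos m with rfl | hm
      · constructor
        · intro h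
          rw [mul_zero, e_zero] at h
          omega
        · rintro ⟨k, hk⟩
          have : 0 < 2 ^ k := by positivity
          omega
      · rw [e_even, ih m (by omega)]
        constructor
        · rintro ⟨k, rfl⟩
          exact ⟨k + 1, by ring⟩
        · rintro ⟨k, hk⟩
          rcases k with _ | k
          · omega
          · exact ⟨k, by rw [pow_succ] at hk; omega⟩
    · subst hm
      rw [e_odd, e_even]
      constructor
      · intro h
        have : m = 0 := e_eq_zero (by omega)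
        exact ⟨0, by rw [this]; rfl⟩
      · rintro ⟨k, hk⟩
        rcases k with _ | k
        · have : m = 0 := by omega
          rw [this, e_zero]
        · rw [pow_succ] at hk; omega

/-- The central binomial coefficient modulo `4`. -/
theorem cb_mod4 (n : ℕ) (hn : 1 ≤ n) : n.centralBinom % 4 = 2 ↔ ∃ k, n = 2 ^ k := by
  rw [← e_one_iff]
  have h1 := Nat.two_dvd_centralBinom_of_one_le (show 0 < n by omega)
  have h2 : 1 ≤ e n := one_le_padicValNat_of_dvd (Nat.centralBinom_ne_zero _) h1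
  have h3 : 4 ∣ n.centralBinom ↔ 2 ≤ e n := by
    rw [show 4 = 2 ^ 2 by norm_num, padicValNat_dvd_iff_le (Nat.centralBinom_ne_zero _)]
    rfl
  omega

/-- The integer `12 a_m`. -/
def B (M : ℕ) : ℤ := (20 * (M + 2) ^ 2 - 10 * (M + 2) + 8) * (s (M + 1) : ℤ) -
  64 * (M + 1) ^ 2 * (s M : ℤ) - ((M + 2) ^ 2 + (M + 2) + 1) * (s (M + 2) : ℤ)

theorem B_eq (M : ℕ) : ((M : ℚ) + 1) * (B M : ℚ) = (s (M + 2) : ℚ) - 4 * s (M + 1) := by
  have h := s_rec M
  rw [B]
  push_cast
  linear_combination -h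

theorem B_mod3 (M : ℕ) : (3 : ℤ) ∣ B M := by
  have h0 := s_mod3 M
  have h1 := s_mod3 (M + 1)
  have h2 := s_mod3 (M + 2)
  obtain ⟨x, hx⟩ : ∃ x : ℕ, s M = 3 * x + 1 := ⟨s M / 3, by omega⟩
  obtain ⟨y, hy⟩ : ∃ y : ℕ, s (M + 1) = 3 * y + 1 := ⟨s (M + 1) / 3, by omega⟩
  obtain ⟨z, hz⟩ : ∃ z : ℕ, s (M + 2) = 3 * z + 1 := ⟨s (M + 2) / 3, by omega⟩
  rw [B, hx, hy, hz]
  refine ⟨(20 * ((M : ℤ) + 2) ^ 2 - 10 * (M + 2) + 8) * y - 64 * ((M : ℤ) + 1) ^ 2 * x -
    (((M : ℤ) + 2) ^ 2 + (M + 2) + 1) * z + (-1 - 21 * M - 15 * (M : ℤ) ^ 2), ?_⟩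
  push_cast
  ring

theorem B_mod8 (M : ℕ) : ∃ v : ℤ, B M = 4 * v ∧ (Odd v ↔ ∃ k, M + 2 = 2 ^ k) := by
  have h1 := s_mod8 (M + 1) (by omega)
  have h2 := s_mod8 (M + 2) (by omega)
  obtain ⟨c1, hc1⟩ := Nat.two_dvd_centralBinom_of_one_le (show 0 < M + 1 by omega)
  obtain ⟨c2, hc2⟩ := Nat.two_dvd_centralBinom_of_one_le (show 0 < M + 2 by omega)
  obtain ⟨y, hy⟩ : ∃ y : ℕ, s (M + 1) = 4 * y := ⟨s (M + 1) / 4, by omega⟩
  obtain ⟨z, hz⟩ : ∃ z : ℤ, (s (M + 2) : ℤ) = 8 * z + 4 * c2 := ⟨((s (M + 2) : ℤ) - 4 * c2) / 8, by omega⟩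
  obtain ⟨t, ht⟩ : ∃ t : ℤ, ((M : ℤ) + 2) ^ 2 + (M + 2) + 1 = 2 * t + 1 := by
    obtain ⟨t, ht⟩ := Int.even_mul_succ_self ((M : ℤ) + 2)
    exact ⟨t, by linear_combination ht⟩
  refine ⟨2 * ((10 * ((M : ℤ) + 2) ^ 2 - 5 * (M + 2) + 4) * y) - 16 * (((M : ℤ) + 1) ^ 2 * (s M : ℤ)) -
    2 * ((2 * t + 1) * z + t * c2) - c2, ?_, ?_⟩
  · rw [B, hy, hz, ht]
    push_cast
    ring
  · rw [show M + 2 = M + 1 + 1 by ring, ← cb_mod4 (M + 1 + 1) (by omega), show M + 1 + 1 = M + 2 by ring, hc2]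
    rw [Int.odd_iff]
    generalize (10 * ((M : ℤ) + 2) ^ 2 - 5 * (M + 2) + 4) * y = X
    generalize ((M : ℤ) + 1) ^ 2 * (s M : ℤ) = Y
    generalize (2 * t + 1) * z + t * c2 = Z
    omega

/-- The integrality of `a_m` and its parity. -/
theorem Q2 (M : ℕ) : ∃ v : ℤ, (s (M + 2) : ℚ) - 4 * s (M + 1) = 12 * ((M : ℚ) + 1) * v ∧
    (Odd v ↔ ∃ k, M + 2 = 2 ^ k) := by
  obtain ⟨v, hv, hv'⟩ := B_mod8 M
  have h3 := B_mod3 M
  obtain ⟨w, hw⟩ : (3 : ℤ) ∣ v := by omega
  refine ⟨w, ?_, ?_⟩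
  · have h := B_eq M
    rw [← h, hv, hw]
    push_cast
    ring
  · rw [← hv', hw, Int.odd_iff, Int.odd_iff]
    omega

end Q266.Domb
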