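import Mathlib
import Pool.Agent.Q266.Domb2
import Pool.Agent.Q278.MG2

set_option autoImplicit false

/-! The Domb numbers `s_p` and `s_{p-1}` modulo `p ^ 3`. -/

namespace Q266.Domb

open Finset Q278 Q278.Loc Q278.Unit Q278.EE Q278.MG

def H (m : ℕ) : ℚ := ∑ i ∈ range m, 1 / ((i : ℚ) + 1)
def Hs (m : ℕ) : ℚ := ∑ i ∈ range m, 1 / ((i : ℚ) + 1) ^ 2
def Od (m : ℕ) : ℚ := ∑ i ∈ range m, 1 / (2 * (i : ℚ) + 1)
def Os (m : ℕ) : ℚ := ∑ i ∈ range m, 1 / (2 * (i : ℚ) + 1) ^ 2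

theorem H_succ (m : ℕ) : H (m + 1) = H m + 1 / ((m : ℚ) + 1) := sum_range_succ _ _
theorem Hs_succ (m : ℕ) : Hs (m + 1) = Hs m + 1 / ((m : ℚ) + 1) ^ 2 := sum_range_succ _ _
theorem Od_succ (m : ℕ) : Od (m + 1) = Od m + 1 / (2 * (m : ℚ) + 1) := sum_range_succ _ _
theorem Os_succ (m : ℕ) : Os (m + 1) = Os m + 1 / (2 * (m : ℚ) + 1) ^ 2 := sum_range_succ _ _

/-- The convolution of the harmonic numbers with the inverses. -/
theorem conv (n : ℕ) : ∑ k ∈ range n, H (n - 1 - k) / ((k : ℚ) + 1) = H n ^ 2 - Hs n := by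
  induction n with
  | zero => simp [H, Hs]
  | succ n ih =>
    rw [sum_range_succ, show n + 1 - 1 - n = 0 by omega]
    have h0 : H 0 = 0 := by simp [H]
    rw [h0, zero_div, add_zero]
    have h1 : ∑ k ∈ range n, H (n + 1 - 1 - k) / ((k : ℚ) + 1) =
        ∑ k ∈ range n, H (n - 1 - k) / ((k : ℚ) + 1) +
          ∑ k ∈ range n, (1 / ((n : ℚ) + 1)) * (1 / ((n : ℚ) - k) + 1 / ((k : ℚ) + 1)) := by
      rw [← sum_add_distrib]
      apply sum_congr rfl
      intro k hk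
      have hk' := mem_range.1 hk
      rw [show n + 1 - 1 - k = (n - 1 - k) + 1 by omega, H_succ]
      have e : ((n - 1 - k : ℕ) : ℚ) + 1 = (n : ℚ) - k := by
        rw [Nat.sub_sub, Nat.cast_sub (by omega)]; push_cast; ring
      rw [e]
      have a1 : (n : ℚ) - k ≠ 0 := by
        have : (k : ℚ) < n := by exact_mod_cast hk'
        linarith
      have a2 : (k : ℚ) + 1 ≠ 0 := by positivity
      have a3 : (n : ℚ) + 1 ≠ 0 := by positivity
      field_simp
      ring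
    rw [h1, ih, ← mul_sum, sum_add_distrib]
    have h2 : ∑ k ∈ range n, 1 / ((n : ℚ) - k) = H n := by
      rw [H, ← sum_range_reflect]
      apply sum_congr rfl
      intro k hk
      have hk' := mem_range.1 hk
      rw [Nat.sub_sub, Nat.cast_sub (by omega)]
      push_cast
      congr 1
      ring
    rw [h2, ← H, H_succ, Hs_succ]
    have a3 : (n : ℚ) + 1 ≠ 0 := by positivity
    field_simp
    ring

/-- The sum of the odd harmonic numbers over the odd numbers. -/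
theorem oconv (n : ℕ) : ∑ k ∈ range n, Od (k + 1) / (2 * (k : ℚ) + 1) = (Od n ^ 2 + Os n) / 2 := by
  induction n with
  | zero => simp [Od, Os]
  | succ n ih =>
    rw [sum_range_succ, ih, Od_succ, Os_succ]
    have a3 : 2 * (n : ℚ) + 1 ≠ 0 := by positivity
    field_simp
    ring

variable {p h : ℕ} [hp : Fact p.Prime] (hP : p = 2 * h + 1) (h5 : 5 ≤ p)

include hP

theorem odd_U {i : ℕ} (hi : i < h) : U (PI.O p) (2 * (i : ℚ) + 1) := by
  have h1 : ¬ (p : ℤ) ∣ p * 0 + (2 * i + 1) := not_dvd_of_lt hP (by positivity) (by omega) _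
  have h4 := U_int h1
  push_cast at h4
  rw [mul_zero, zero_add] at h4
  exact h4

theorem pe_U {i : ℕ} (hi : i < h) : U (PI.O p) ((p : ℚ) - 2 * (i + 1)) := by
  have h1 : ¬ (p : ℤ) ∣ p * 0 + (p - 2 * (i + 1)) := not_dvd_of_lt hP (by omega) (by omega) _
  have h4 := U_int h1
  push_cast at h4
  rw [mul_zero, zero_add] at h4
  exact h4

theorem H_mem {m : ℕ} (hm : m ≤ h) : H m ∈ PI.O p := by
  refine (PI.O p).sum_mem fun i hi => ?_
  rw [one_div]
  exact (i_U hP (by have := mem_range.1 hi; omega)).2.1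

theorem Od_mem {m : ℕ} (hm : m ≤ h) : Od m ∈ PI.O p := by
  refine (PI.O p).sum_mem fun i hi => ?_
  rw [one_div]
  exact (odd_U hP (by have := mem_range.1 hi; omega)).2.1

include h5 in
theorem Hs_I : Hs h ∈ I (PI.O p) (p : ℚ) 1 := H2 hP h5

/-- `O_h = - H_h / 2` modulo `p ^ 2`. -/
theorem Od_I (h5 : 5 ≤ p) : Od h + H h / 2 ∈ I (PI.O p) (p : ℚ) 2 := by
  have two := two_U hP
  have e1 : Od h = ∑ i ∈ range h, 1 / ((p : ℚ) - 2 * (i + 1)) := by
    rw [Od, ← sum_range_reflect]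
    apply sum_congr rfl
    intro i hi
    have := mem_range.1 hi
    rw [hP, Nat.sub_sub, Nat.cast_sub (by omega)]
    push_cast
    congr 1
    ring
  have e2 : Od h + H h / 2 + (p / 4) * Hs h =
      ∑ i ∈ range h, (p : ℚ) ^ 2 * (1 / ((2 * ((i : ℚ) + 1)) ^ 2 * (p - 2 * (i + 1)))) := by
    rw [e1, H, Hs, sum_div, mul_sum, ← sum_add_distrib, ← sum_add_distrib]
    apply sum_congr rfl
    intro i hi
    have n1 := (i_U hP (mem_range.1 hi)).2.2
    have n2 := (pe_U hP (mem_range.1 hi)).2.2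
    field_simp
    ring
  have h1 : Od h + H h / 2 + (p / 4) * Hs h ∈ I (PI.O p) (p : ℚ) 2 := by
    rw [e2, ← mul_sum]
    refine ⟨_, ?_, rfl⟩
    refine (PI.O p).sum_mem fun i hi => ?_
    rw [one_div]
    exact (((two.mul (i_U hP (mem_range.1 hi))).pow 2).mul (pe_U hP (mem_range.1 hi))).2.1
  have h2 : (p / 4) * Hs h ∈ I (PI.O p) (p : ℚ) 2 := by
    have four : (1 / 4 : ℚ) ∈ PI.O p := by
      have := (two.pow 2).2.1
      norm_num at this ⊢
      exact this
    have := mul_O four (mul_I (self_pow (O := PI.O p) (π := (p : ℚ)) 1) (Hs_I hP h5))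
    convert this using 1
    ring
  have h3 := (I (PI.O p) (p : ℚ) 2).sub_mem h1 h2
  convert h3 using 1
  ring

theorem Os_I (h5 : 5 ≤ p) : Os h ∈ I (PI.O p) (p : ℚ) 1 := by
  have two := two_U hP
  have e1 : Os h = ∑ i ∈ range h, 1 / ((p : ℚ) - 2 * (i + 1)) ^ 2 := by
    rw [Os, ← sum_range_reflect]
    apply sum_congr rfl
    intro i hi
    have := mem_range.1 hi
    rw [hP, Nat.sub_sub, Nat.cast_sub (by omega)]
    push_cast
    congr 2
    ring
  have e2 : Os h - (1 / 4) * Hs h = ∑ i ∈ range h, (p : ℚ) ^ 1 *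
      ((4 * (i + 1) - p) * (1 / ((2 * ((i : ℚ) + 1)) ^ 2 * (p - 2 * (i + 1)) ^ 2))) := by
    rw [e1, Hs, mul_sum, ← sum_sub_distrib]
    apply sum_congr rfl
    intro i hi
    have n1 := (i_U hP (mem_range.1 hi)).2.2
    have n2 := (pe_U hP (mem_range.1 hi)).2.2
    field_simp
    ring
  have h1 : Os h - (1 / 4) * Hs h ∈ I (PI.O p) (p : ℚ) 1 := by
    rw [e2, ← mul_sum]
    refine ⟨_, ?_, rfl⟩
    refine (PI.O p).sum_mem fun i hi => (PI.O p).mul_mem ?_ ?_
    · exact_mod_cast intCast_mem (PI.O p) (4 * (i + 1) - p)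
    · rw [one_div]
      exact (((two.mul (i_U hP (mem_range.1 hi))).pow 2).mul ((pe_U hP (mem_range.1 hi)).pow 2)).2.1
  have h2 : (1 / 4) * Hs h ∈ I (PI.O p) (p : ℚ) 1 := by
    have four : (1 / 4 : ℚ) ∈ PI.O p := by
      have := (two.pow 2).2.1
      norm_num at this ⊢
      exact this
    exact mul_O four (Hs_I hP h5)
  have h3 := (I (PI.O p) (p : ℚ) 1).add_mem h1 h2
  convert h3 using 1
  ring

/-- The mixed sum. -/
def X (h : ℕ) : ℚ := ∑ k ∈ range h, H k / (2 * (k : ℚ) + 1)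

theorem X_I (h5 : 5 ≤ p) : X h + H h ^ 2 / 2 ∈ I (PI.O p) (p : ℚ) 1 := by
  have two := two_U hP
  have e1 : X h = ∑ k ∈ range h, H (h - 1 - k) / ((p : ℚ) - 2 * (k + 1)) := by
    rw [X, ← sum_range_reflect]
    apply sum_congr rfl
    intro i hi
    have := mem_range.1 hi
    congr 1
    rw [hP, Nat.sub_sub, Nat.cast_sub (by omega)]
    push_cast
    ring
  have e2 : X h + (H h ^ 2 - Hs h) / 2 = ∑ k ∈ range h, (p : ℚ) ^ 1 *
      (H (h - 1 - k) * (1 / ((2 * ((k : ℚ) + 1)) * (p - 2 * (k + 1))))) := by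
    rw [e1, ← conv, sum_div, ← sum_add_distrib]
    apply sum_congr rfl
    intro i hi
    have n1 := (i_U hP (mem_range.1 hi)).2.2
    have n2 := (pe_U hP (mem_range.1 hi)).2.2
    field_simp
    ring
  have h1 : X h + (H h ^ 2 - Hs h) / 2 ∈ I (PI.O p) (p : ℚ) 1 := by
    rw [e2, ← mul_sum]
    refine ⟨_, ?_, rfl⟩
    refine (PI.O p).sum_mem fun i hi => (PI.O p).mul_mem (H_mem hP (by omega)) ?_
    rw [one_div]
    exact ((two.mul (i_U hP (mem_range.1 hi))).mul (pe_U hP (mem_range.1 hi))).2.1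
  have h2 := mul_O two.2.1 (Hs_I hP h5)
  have h3 := (I (PI.O p) (p : ℚ) 1).add_mem h1 h2
  convert h3 using 1
  ring

end Q266.Domb
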