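import Mathlib
import Pool.Agent.Q266.Domb3

set_option autoImplicit false

/-! The Domb numbers `s_p` and `s_{p-1}` modulo `p ^ 3`, continued. -/

namespace Q266.Domb

open Finset Q278 Q278.Loc Q278.Unit Q278.EE Q278.MG

variable {p h : ℕ} [hp : Fact p.Prime] (hP : p = 2 * h + 1) (h5 : 5 ≤ p)

/-- The ratio of consecutive terms. -/
theorem f_ratio (n k : ℕ) (hk : k + 1 ≤ n) :
    ((k : ℚ) + 1) ^ 3 * (2 * n - 2 * k - 1) * (f n (k + 1) : ℚ) =
      ((n : ℚ) - k) ^ 3 * (2 * k + 1) * (f n k : ℚ) := by
  have h1 : (n.choose (k + 1) : ℚ) * (k + 1) = (n.choose k : ℚ) * (n - k) := by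
    have := Nat.choose_succ_right_eq n k
    have h2 : ((n.choose (k + 1) * (k + 1) : ℕ) : ℚ) = ((n.choose k * (n - k) : ℕ) : ℚ) := by rw [this]
    rw [Nat.cast_mul, Nat.cast_mul, Nat.cast_sub (by omega)] at h2
    push_cast at h2
    exact h2
  have h2 : ((k : ℚ) + 1) * ((2 * (k + 1)).choose (k + 1) : ℚ) = 2 * (2 * k + 1) * ((2 * k).choose k : ℚ) := by
    exact_mod_cast Nat.succ_mul_centralBinom_succ k
  obtain ⟨r, hr⟩ : ∃ r, n = k + 1 + r := ⟨n - (k + 1), by omega⟩
  have h3 : ((r : ℚ) + 1) * ((2 * (r + 1)).choose (r + 1) : ℚ) = 2 * (2 * r + 1) * ((2 * r).choose r : ℚ) := by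
    exact_mod_cast Nat.succ_mul_centralBinom_succ r
  have hn : (n : ℚ) = k + 1 + r := by rw [hr]; push_cast; ring
  rw [f, f, show n - (k + 1) = r by omega, show n - k = r + 1 by omega]
  push_cast
  rw [hn] at h1 ⊢
  set A := (n.choose (k + 1) : ℚ)
  set B := (n.choose k : ℚ)
  set C := ((2 * (k + 1)).choose (k + 1) : ℚ)
  set D := ((2 * k).choose k : ℚ)
  set E := ((2 * (r + 1)).choose (r + 1) : ℚ)
  set F := ((2 * r).choose r : ℚ)
  have e1 : A ^ 2 * ((k : ℚ) + 1) ^ 2 = B ^ 2 * ((r : ℚ) + 1) ^ 2 := by
    have : A * ((k : ℚ) + 1) = B * ((r : ℚ) + 1) := by rw [h1]; ring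
    calc A ^ 2 * ((k : ℚ) + 1) ^ 2 = (A * ((k : ℚ) + 1)) ^ 2 := by ring
      _ = _ := by rw [this]; ring
  calc ((k : ℚ) + 1) ^ 3 * (2 * (k + 1 + r) - 2 * k - 1) * (A ^ 2 * C * F)
      = (A ^ 2 * ((k : ℚ) + 1) ^ 2) * (((k : ℚ) + 1) * C) * ((2 * (r : ℚ) + 1) * F) := by ring
    _ = (B ^ 2 * ((r : ℚ) + 1) ^ 2) * (2 * (2 * k + 1) * D) * ((r + 1) * E / 2) := by
        rw [e1, h2, h3]; ring
    _ = _ := by ring

include hP h5

/-- The terms, modulo `p ^ 3`. -/
theorem g_I (k : ℕ) (hk : k < h) : (2 * (k : ℚ) + 1) * (f (2 * h) k : ℚ) +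
    p * (1 - 3 * p * H k + 2 * p * Od (k + 1)) ∈ I (PI.O p) (p : ℚ) 3 := by
  have two := two_U hP
  induction k with
  | zero =>
    have h0 : (f (2 * h) 0 : ℚ) = ((2 * h).centralBinom : ℚ) := by simp [f, Nat.centralBinom]
    have h1 : (p : ℚ) * (p.centralBinom : ℚ) = 2 * (2 * p - 1) * ((2 * h).centralBinom : ℚ) := by
      have := Nat.succ_mul_centralBinom_succ (2 * h)
      have h2 : (((2 * h + 1) * (2 * h + 1).centralBinom : ℕ) : ℚ) =
          ((2 * (2 * (2 * h) + 1) * (2 * h).centralBinom : ℕ) : ℚ) := by rw [this]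
      rw [hP]
      push_cast at h2 ⊢
      rw [h2]; ring
    obtain ⟨w, hw, e⟩ := wol hP h5
    have hU : U (PI.O p) (2 * (p : ℚ) - 1) := by
      have h1 : ¬ (p : ℤ) ∣ (2 * p - 1) := by
        intro hd
        have : (p : ℤ) ∣ 1 := by
          have h2 := dvd_sub (Dvd.intro_left (2 : ℤ) rfl : (p : ℤ) ∣ 2 * p) hd
          simpa using h2
        have := Int.le_of_dvd one_pos this
        omega
      have h4 := U_int h1
      push_cast at h4
      exact h4
    have n1 := hU.2.2
    have hH : H 0 = 0 := by simp [H]
    have hO : Od (0 + 1) = 1 := by simp [Od]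
    have e2 : (p.centralBinom : ℚ) = 2 * (1 + p ^ 3 * w) := by linarith
    rw [e2] at h1
    have h3 : ((2 * h).centralBinom : ℚ) = p * (1 + p ^ 3 * w) / (2 * p - 1) := by
      rw [eq_div_iff n1]
      linarith
    rw [h0, hH, hO, h3]
    obtain ⟨d, hd⟩ : ∃ d : ℚ, d = 2 * (p : ℚ) - 1 := ⟨_, rfl⟩
    rw [← hd] at n1 hU ⊢
    refine ⟨(p * w + 4) * d⁻¹, ?_, ?_⟩
    · have := hU.2.1
      (repeat' (first
                  | assumption
                  | exact p_mem
                  | exact natCast_mem _ _
                  | exact intCast_mem _ _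
                  | exact Subring.one_mem _
                  | exact ofNat_mem _ _
                  | apply Subring.mul_mem
                  | apply Subring.add_mem
                  | apply Subring.sub_mem
                  | apply Subring.neg_mem
                  | apply Subring.pow_mem))
    · push_cast
      field_simp
      rw [hd]
      ring
  | succ k ih =>
    have ih' := ih (by omega)
    have hr := f_ratio (2 * h) k (by omega)
    have uk := i_U hP (show k < h by omega)
    have ub : U (PI.O p) (2 * (k : ℚ) + 3) := by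
      have := odd_U hP (show k + 1 < h by omega)
      push_cast at this
      convert this using 1
      ring
    have uc : U (PI.O p) (2 * (p : ℚ) - (2 * k + 3)) := by
      have h1 : ¬ (p : ℤ) ∣ p * 1 + (p - (2 * k + 3)) :=
        not_dvd_of_lt hP (by omega) (by omega) _
      have h4 := U_int h1
      push_cast at h4
      convert h4 using 1
      ring
    have hH : H k ∈ PI.O p := H_mem hP (by omega)
    have hO : Od (k + 1) ∈ PI.O p := Od_mem hP (by omega)
    have na := uk.2.2
    have nb := ub.2.2
    have nc := uc.2.2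
    have hh : ((2 * h : ℕ) : ℚ) = p - 1 := by rw [hP]; push_cast; ring
    rw [hh] at hr
    -- the ratio
    set a : ℚ := (k : ℚ) + 1 with ha
    set b : ℚ := 2 * (k : ℚ) + 3 with hb
    set φ : ℚ := b * (p - a) ^ 3 / (a ^ 3 * (2 * p - b)) with hφ
    have e1 : (2 * ((k + 1 : ℕ) : ℚ) + 1) * (f (2 * h) (k + 1) : ℚ) =
        φ * ((2 * (k : ℚ) + 1) * (f (2 * h) k : ℚ)) := by
      have e2 : a ^ 3 * (2 * p - b) * (f (2 * h) (k + 1) : ℚ) =
          (p - a) ^ 3 * (2 * k + 1) * (f (2 * h) k : ℚ) := by
        rw [ha, hb]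
        linear_combination hr
      have e3 : (2 * ((k + 1 : ℕ) : ℚ) + 1) = b := by push_cast; rw [hb]; ring
      rw [e3, hφ]
      rw [div_mul_eq_mul_div, eq_div_iff (mul_ne_zero (pow_ne_zero 3 na) nc)]
      linear_combination b * e2
    have e4 : φ - (1 - 3 * p / a + 2 * p / b) =
        p ^ 2 * ((b ^ 2 * p - 3 * a * b ^ 2 + 6 * a ^ 2 * b - 4 * a ^ 3) / (a ^ 3 * b * (2 * p - b))) := by
      rw [hφ]
      obtain ⟨d, hd⟩ : ∃ d : ℚ, d = 2 * (p : ℚ) - b := ⟨_, rfl⟩
      rw [← hd] at nc ⊢
      field_simp
      rw [hd]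
      ring
    have ma : a ∈ PI.O p := uk.1
    have mb : b ∈ PI.O p := ub.1
    have mc := uc.1
    have m1 := ((uk.pow 3).mul (ub.mul uc)).2.1
    have m2 := ((uk.pow 3).mul uc).2.1
    have hφO : φ ∈ PI.O p := by
      rw [hφ, div_eq_mul_inv]
      (repeat' (first
                  | assumption
                  | exact p_mem
                  | exact natCast_mem _ _
                  | exact intCast_mem _ _
                  | exact Subring.one_mem _
                  | exact ofNat_mem _ _
                  | apply Subring.mul_mem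
                  | apply Subring.add_mem
                  | apply Subring.sub_mem
                  | apply Subring.neg_mem
                  | apply Subring.pow_mem))
    have hQ : (b ^ 2 * p - 3 * a * b ^ 2 + 6 * a ^ 2 * b - 4 * a ^ 3) / (a ^ 3 * b * (2 * p - b)) ∈ PI.O p := by
      rw [div_eq_mul_inv, mul_assoc (a ^ 3)]
      (repeat' (first
                  | assumption
                  | exact p_mem
                  | exact natCast_mem _ _
                  | exact intCast_mem _ _
                  | exact Subring.one_mem _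
                  | exact ofNat_mem _ _
                  | apply Subring.mul_mem
                  | apply Subring.add_mem
                  | apply Subring.sub_mem
                  | apply Subring.neg_mem
                  | apply Subring.pow_mem))
    set Q := (b ^ 2 * p - 3 * a * b ^ 2 + 6 * a ^ 2 * b - 4 * a ^ 3) / (a ^ 3 * b * (2 * p - b))
    obtain ⟨w, hw, e5⟩ := ih'
    have e6 : (2 * (k : ℚ) + 1) * (f (2 * h) k : ℚ) =
        (p : ℚ) ^ 3 * w - p * (1 - 3 * p * H k + 2 * p * Od (k + 1)) := by linarith
    have e7 : φ = (1 - 3 * p / a + 2 * p / b) + p ^ 2 * Q := by linarith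
    have ia := uk.2.1
    have ib := ub.2.1
    rw [e1, e6, H_succ, Od_succ (k + 1)]
    have e8 : 2 * ((k + 1 : ℕ) : ℚ) + 1 = b := by push_cast; rw [hb]; ring
    rw [e8, ← ha]
    refine ⟨φ * w - Q * (1 - 3 * p * H k + 2 * p * Od (k + 1)) -
      (-3 * a⁻¹ + 2 * b⁻¹) * (-3 * H k + 2 * Od (k + 1)), ?_, ?_⟩
    · (repeat' (first
                  | assumption
                  | exact p_mem
                  | exact natCast_mem _ _
                  | exact intCast_mem _ _
                  | exact Subring.one_mem _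
                  | exact ofNat_mem _ _
                  | apply Subring.mul_mem
                  | apply Subring.add_mem
                  | apply Subring.sub_mem
                  | apply Subring.neg_mem
                  | apply Subring.pow_mem))
    · rw [e7]
      field_simp
      ring

/-- The sum of the lower half. -/
theorem low_I : ∑ k ∈ range h, (f (2 * h) k : ℚ) + p * Od h - 3 * p ^ 2 * X h +
    p ^ 2 * (Od h ^ 2 + Os h) ∈ I (PI.O p) (p : ℚ) 3 := by
  have e : ∑ k ∈ range h, (f (2 * h) k : ℚ) + p * Od h - 3 * p ^ 2 * X h +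
      p ^ 2 * (Od h ^ 2 + Os h) = ∑ k ∈ range h, (2 * (k : ℚ) + 1)⁻¹ *
      ((2 * (k : ℚ) + 1) * (f (2 * h) k : ℚ) + p * (1 - 3 * p * H k + 2 * p * Od (k + 1))) := by
    have e1 : Od h ^ 2 + Os h = 2 * ∑ k ∈ range h, Od (k + 1) / (2 * (k : ℚ) + 1) := by
      rw [oconv]; ring
    rw [e1, X, Od]
    simp only [mul_sum]
    rw [← sum_add_distrib, ← sum_sub_distrib, ← sum_add_distrib]
    apply sum_congr rfl
    intro k hk
    have n1 := (odd_U hP (mem_range.1 hk)).2.2
    field_simp
    ring
  rw [e]
  refine AddSubgroup.sum_mem _ fun k hk => ?_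
  exact mul_O (odd_U hP (mem_range.1 hk)).2.1 (g_I hP h5 k (mem_range.1 hk))

omit h5 hP hp in
/-- Splitting of `s_{p-1}`. -/
theorem s_half (h : ℕ) : (s (2 * h) : ℚ) = (h.centralBinom : ℚ) ^ 4 + 2 * ∑ k ∈ range h, (f (2 * h) k : ℚ) := by
  have h0 : s (2 * h) = ∑ k ∈ range (h + 1 + h), f (2 * h) k := by
    rw [show h + 1 + h = 2 * h + 1 by ring]; rfl
  rw [h0, sum_range_add, sum_range_succ]
  have e : ∑ x ∈ range h, f (2 * h) (h + 1 + x) = ∑ k ∈ range h, f (2 * h) k := by
    rw [← sum_range_reflect]
    apply sum_congr rfl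
    intro x hx
    have := mem_range.1 hx
    rw [← f_symm (show x ≤ 2 * h by omega)]
    congr 1
    omega
  have e2 : f (2 * h) h = h.centralBinom ^ 4 := by
    rw [f, show 2 * h - h = h by omega, Nat.centralBinom]
    ring
  rw [e, e2]
  push_cast
  ring

omit h5 in
/-- The expansion of the product. -/
theorem prod_I (m : ℕ) (hm : m ≤ h) : ∏ i ∈ range m, (1 - (p : ℚ) / ((i : ℚ) + 1)) -
    (1 - p * H m + p ^ 2 * ((H m ^ 2 - Hs m) / 2)) ∈ I (PI.O p) (p : ℚ) 3 := by
  have two := two_U hP
  induction m with
  | zero => simp [H, Hs]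
  | succ m ih =>
    have ih' := ih (by omega)
    have uk := i_U hP (show m < h by omega)
    have ia := uk.2.1
    have na := uk.2.2
    have hH := H_mem hP (show m ≤ h by omega)
    have hS : Hs m ∈ PI.O p := by
      refine (PI.O p).sum_mem fun i hi => ?_
      rw [one_div]
      exact ((i_U hP (by have := mem_range.1 hi; omega)).pow 2).2.1
    have ht := two.2.1
    obtain ⟨w, hw, e⟩ := ih'
    have e2 : ∏ i ∈ range m, (1 - (p : ℚ) / ((i : ℚ) + 1)) = p ^ 3 * w +
        (1 - p * H m + p ^ 2 * ((H m ^ 2 - Hs m) / 2)) := by linarith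
    rw [prod_range_succ, e2, H_succ, Hs_succ]
    refine ⟨w * (1 - p * ((m : ℚ) + 1)⁻¹) - ((H m ^ 2 - Hs m) * 2⁻¹) * ((m : ℚ) + 1)⁻¹, ?_, ?_⟩
    · (repeat' (first
                  | assumption
                  | exact p_mem
                  | exact natCast_mem _ _
                  | exact intCast_mem _ _
                  | exact Subring.one_mem _
                  | exact ofNat_mem _ _
                  | apply Subring.mul_mem
                  | apply Subring.add_mem
                  | apply Subring.sub_mem
                  | apply Subring.neg_mem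
                  | apply Subring.pow_mem))
    · field_simp
      ring

theorem sixteen_I : (16 : ℚ) ^ h - (1 - p * H h + p ^ 2 * (H h ^ 2 / 2)) ∈ I (PI.O p) (p : ℚ) 3 := by
  have two := two_U hP
  have h1 := prod_I hP h le_rfl
  have h2 := morley hP h5
  have e := Alt.cb_B h
  have e1 : ∏ i ∈ range h, (1 - ((2 * h + 1 : ℕ) : ℚ) / ((i + 1 : ℕ) : ℚ)) =
      ∏ i ∈ range h, (1 - (p : ℚ) / ((i : ℚ) + 1)) := by
    rw [hP]
    apply prod_congr rfl
    intro i _
    push_cast
    rfl
  rw [e, e1] at h2
  have h3 : (-1 : ℚ) ^ h ∈ PI.O p := by (repeat' (first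
                                                    | assumption
                                                    | exact p_mem
                                                    | exact natCast_mem _ _
                                                    | exact intCast_mem _ _
                                                    | exact Subring.one_mem _
                                                    | exact ofNat_mem _ _
                                                    | apply Subring.mul_mem
                                                    | apply Subring.add_mem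
                                                    | apply Subring.sub_mem
                                                    | apply Subring.neg_mem
                                                    | apply Subring.pow_mem))
  have h4 := mul_O h3 h2
  have h5' : (-1 : ℚ) ^ h * (-1) ^ h = 1 := by rw [← mul_pow]; norm_num
  have e4 : (-1 : ℚ) ^ h * ((-1) ^ h * ∏ i ∈ range h, (1 - (p : ℚ) / ((i : ℚ) + 1)) - (-1) ^ h * 16 ^ h) =
      ∏ i ∈ range h, (1 - (p : ℚ) / ((i : ℚ) + 1)) - 16 ^ h := by
    linear_combination (∏ i ∈ range h, (1 - (p : ℚ) / ((i : ℚ) + 1)) - 16 ^ h) * h5'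
  rw [e4] at h4
  have h6 := mul_O two.2.1 (mul_I (self_pow (O := PI.O p) (π := (p : ℚ)) 2) (Hs_I hP h5))
  have h7 := (I (PI.O p) (p : ℚ) 3).sub_mem ((I (PI.O p) (p : ℚ) 3).sub_mem h1 h4) h6
  convert h7 using 1
  ring

end Q266.Domb
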