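import Mathlib
import Pool.Agent.Q266.Domb4

set_option autoImplicit false

/-! The congruence modulo `p ^ 6` for the sum of the Domb numbers. -/

namespace Q266.Domb

open Finset Q278 Q278.Loc Q278.Unit Q278.EE Q278.MG

variable {p h : ℕ} [hp : Fact p.Prime] (hP : p = 2 * h + 1) (h5 : 5 ≤ p)

omit hp in
theorem div_I [Fact p.Prime] {k : ℕ} {x : ℚ} (hx : (p : ℚ) * x ∈ I (PI.O p) (p : ℚ) (k + 1)) :
    x ∈ I (PI.O p) (p : ℚ) k := by
  obtain ⟨w, hw, e⟩ := hx
  have hp0 : (p : ℚ) ≠ 0 := by
    have := (Fact.out : p.Prime).ne_zero
    exact_mod_cast this
  refine ⟨w, hw, ?_⟩
  apply mul_left_cancel₀ hp0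
  rw [e]; ring

/-- The Fermat quotient. -/
def q (p : ℕ) : ℚ := ((2 : ℚ) ^ (p - 1) - 1) / p

include hP in
theorem pq : (p : ℚ) * q p = 4 ^ h - 1 := by
  have hp0 : (p : ℚ) ≠ 0 := by
    have := hp.out.ne_zero
    exact_mod_cast this
  rw [q, mul_div_cancel₀ _ hp0, hP, show 2 * h + 1 - 1 = 2 * h by omega, pow_mul]
  norm_num

include hP in
theorem q_mem : q p ∈ PI.O p := by
  have h2 : ¬ (p : ℤ) ∣ 2 := not_dvd_two hP
  have hc : IsCoprime (2 : ℤ) (p : ℤ) := by
    rw [isCoprime_comm]
    exact ((Nat.prime_iff_prime_int.1 hp.out).coprime_iff_not_dvd).2 h2
  have h3 := Int.ModEq.pow_card_sub_one_eq_one hp.out hc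
  obtain ⟨z, hz⟩ := (Int.modEq_iff_dvd.1 h3.symm)
  have hp0 : (p : ℚ) ≠ 0 := by
    have := hp.out.ne_zero
    exact_mod_cast this
  have : q p = (z : ℚ) := by
    rw [q, div_eq_iff hp0]
    have : ((2 ^ (p - 1) - 1 : ℤ) : ℚ) = ((p * z : ℤ) : ℚ) := by rw [hz]
    push_cast at this
    rw [this]; ring
  rw [this]
  exact intCast_mem _ _

include hP h5

theorem H_I : H h + 2 * q p - p * q p ^ 2 ∈ I (PI.O p) (p : ℚ) 2 := by
  have two := two_U hP
  have hq := q_mem (p := p) hP
  have hH : H h ∈ PI.O p := H_mem hP le_rfl
  have ht := two.2.1
  have h1 := sixteen_I hP h5
  have e : (16 : ℚ) ^ h = (1 + p * q p) ^ 2 := by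
    rw [pq hP]
    rw [show (1 + ((4 : ℚ) ^ h - 1)) ^ 2 = 4 ^ h * 4 ^ h by ring, ← mul_pow]
    norm_num
  rw [e] at h1
  have h2 : 2 * q p + p * q p ^ 2 + H h - p * (H h ^ 2 / 2) ∈ I (PI.O p) (p : ℚ) 2 := by
    apply div_I
    convert h1 using 1
    ring
  have hD : H h + 2 * q p ∈ I (PI.O p) (p : ℚ) 1 := by
    have h3 := mono (O := PI.O p) p_mem (show 1 ≤ 2 by norm_num) h2
    have h4 : (p : ℚ) ^ 1 * (H h ^ 2 * 2⁻¹ - q p ^ 2) ∈ I (PI.O p) (p : ℚ) 1 := by
      refine ⟨_, ?_, rfl⟩
      (repeat' (first
                  | assumption
                  | exact p_mem
                  | exact natCast_mem _ _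
                  | exact intCast_mem _ _
                  | exact Subring.one_mem _
                  | exact ofNat_mem _ _
                  | apply Subring.mul_mem
                  | apply Subring.add_mem
                  | apply Subring.sub_mem
                  | apply Subring.neg_mem
                  | apply Subring.pow_mem))
    have h5 := (I (PI.O p) (p : ℚ) 1).add_mem h3 h4
    convert h5 using 1
    ring
  have h3 : (p : ℚ) * (2⁻¹ * ((H h - 2 * q p) * (H h + 2 * q p))) ∈ I (PI.O p) (p : ℚ) 2 := by
    have m1 : 2⁻¹ * (H h - 2 * q p) ∈ PI.O p := by (repeat' (first
                                                               | assumption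
                                                               | exact p_mem
                                                               | exact natCast_mem _ _
                                                               | exact intCast_mem _ _
                                                               | exact Subring.one_mem _
                                                               | exact ofNat_mem _ _
                                                               | apply Subring.mul_mem
                                                               | apply Subring.add_mem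
                                                               | apply Subring.sub_mem
                                                               | apply Subring.neg_mem
                                                               | apply Subring.pow_mem))
    have := mul_O m1 (mul_I (self_pow (O := PI.O p) (π := (p : ℚ)) 1) hD)
    convert this using 1
    ring
  have h4 := (I (PI.O p) (p : ℚ) 2).add_mem h2 h3
  convert h4 using 1
  ring

theorem low_I' : ∑ k ∈ range h, (f (2 * h) k : ℚ) + p * q p + (13 / 2) * p ^ 2 * q p ^ 2 ∈
    I (PI.O p) (p : ℚ) 3 := by
  have two := two_U hP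
  have hq := q_mem (p := p) hP
  have hH : H h ∈ PI.O p := H_mem hP le_rfl
  have hO : Od h ∈ PI.O p := Od_mem hP le_rfl
  have ht := two.2.1
  have hp1 := self_pow (O := PI.O p) (π := (p : ℚ)) 1
  have hp2 := self_pow (O := PI.O p) (π := (p : ℚ)) 2
  have h1 := low_I hP h5
  -- `p (O + H/2)`
  have a1 := mul_I hp1 (Od_I hP h5)
  -- `p^2 (X + H^2/2)`
  have a2 := mul_O (ofNat_mem (PI.O p) 3) (mul_I hp2 (X_I hP h5))
  have a3 := mul_I hp2 (Os_I hP h5)
  have a4 : (p : ℚ) ^ 2 * ((Od h - H h / 2) * (Od h + H h / 2)) ∈ I (PI.O p) (p : ℚ) 3 := by
    have m1 : (p : ℚ) ^ 2 * (Od h - H h / 2) ∈ PI.O p := by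
      rw [div_eq_mul_inv]; (repeat' (first
                                       | assumption
                                       | exact p_mem
                                       | exact natCast_mem _ _
                                       | exact intCast_mem _ _
                                       | exact Subring.one_mem _
                                       | exact ofNat_mem _ _
                                       | apply Subring.mul_mem
                                       | apply Subring.add_mem
                                       | apply Subring.sub_mem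
                                       | apply Subring.neg_mem
                                       | apply Subring.pow_mem))
    have := mul_O ((PI.O p).sub_mem hO ((PI.O p).mul_mem hH ht)) (mul_I hp2 (Od_I hP h5))
    have h3 := mono (O := PI.O p) p_mem (show 3 ≤ 2 + 2 by norm_num) this
    convert h3 using 1
    ring
  have hHI := H_I hP h5
  have a5 := mul_O ht (mul_I hp1 hHI)
  have hD : H h + 2 * q p ∈ I (PI.O p) (p : ℚ) 1 := by
    have h3 := mono (O := PI.O p) p_mem (show 1 ≤ 2 by norm_num) hHI
    have h4 : (p : ℚ) ^ 1 * (q p ^ 2) ∈ I (PI.O p) (p : ℚ) 1 := by
      refine ⟨_, ?_, rfl⟩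
      (repeat' (first
                  | assumption
                  | exact p_mem
                  | exact natCast_mem _ _
                  | exact intCast_mem _ _
                  | exact Subring.one_mem _
                  | exact ofNat_mem _ _
                  | apply Subring.mul_mem
                  | apply Subring.add_mem
                  | apply Subring.sub_mem
                  | apply Subring.neg_mem
                  | apply Subring.pow_mem))
    have h5 := (I (PI.O p) (p : ℚ) 1).add_mem h3 h4
    convert h5 using 1
    ring
  have a6 : (p : ℚ) ^ 2 * ((7 / 4) * ((H h - 2 * q p) * (H h + 2 * q p))) ∈ I (PI.O p) (p : ℚ) 3 := by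
    have m1 : 7 * 2⁻¹ * 2⁻¹ * (H h - 2 * q p) ∈ PI.O p := by (repeat' (first
                                                                         | assumption
                                                                         | exact p_mem
                                                                         | exact natCast_mem _ _
                                                                         | exact intCast_mem _ _
                                                                         | exact Subring.one_mem _
                                                                         | exact ofNat_mem _ _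
                                                                         | apply Subring.mul_mem
                                                                         | apply Subring.add_mem
                                                                         | apply Subring.sub_mem
                                                                         | apply Subring.neg_mem
                                                                         | apply Subring.pow_mem))
    have := mul_O m1 (mul_I hp2 hD)
    convert this using 1
    ring
  have b1 := (I (PI.O p) (p : ℚ) 3).sub_mem h1 a1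
  have b2 := (I (PI.O p) (p : ℚ) 3).add_mem b1 a2
  have b3 := (I (PI.O p) (p : ℚ) 3).sub_mem b2 a3
  have b4 := (I (PI.O p) (p : ℚ) 3).sub_mem b3 a4
  have b5 := (I (PI.O p) (p : ℚ) 3).add_mem b4 a5
  have b6 := (I (PI.O p) (p : ℚ) 3).sub_mem b5 a6
  convert b6 using 1
  ring

/-- `s_{p-1}` modulo `p ^ 3`. -/
theorem s_pred : (s (2 * h) : ℚ) - (1 + p * q p) ^ 6 ∈ I (PI.O p) (p : ℚ) 3 := by
  have hq := q_mem (p := p) hP
  have h1 := low_I' hP h5
  have h2 := morley hP h5
  have e : (16 : ℚ) ^ h = (1 + p * q p) ^ 2 := by
    rw [pq hP]
    rw [show (1 + ((4 : ℚ) ^ h - 1)) ^ 2 = 4 ^ h * 4 ^ h by ring, ← mul_pow]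
    norm_num
  rw [e] at h2
  set ε : ℚ := (-1) ^ h with hε
  have hε2 : ε ^ 2 = 1 := by rw [hε, ← pow_mul, mul_comm, pow_mul]; norm_num
  have mε : ε ∈ PI.O p := by rw [hε]; (repeat' (first
                                                  | assumption
                                                  | exact p_mem
                                                  | exact natCast_mem _ _
                                                  | exact intCast_mem _ _
                                                  | exact Subring.one_mem _
                                                  | exact ofNat_mem _ _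
                                                  | apply Subring.mul_mem
                                                  | apply Subring.add_mem
                                                  | apply Subring.sub_mem
                                                  | apply Subring.neg_mem
                                                  | apply Subring.pow_mem))
  have m1 : ((h.centralBinom : ℚ) + ε * (1 + p * q p) ^ 2) * ((h.centralBinom : ℚ) ^ 2 + (1 + p * q p) ^ 4) ∈
      PI.O p := by (repeat' (first
                               | assumption
                               | exact p_mem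
                               | exact natCast_mem _ _
                               | exact intCast_mem _ _
                               | exact Subring.one_mem _
                               | exact ofNat_mem _ _
                               | apply Subring.mul_mem
                               | apply Subring.add_mem
                               | apply Subring.sub_mem
                               | apply Subring.neg_mem
                               | apply Subring.pow_mem))
  have h3 := mul_O m1 h2
  have e3 : ((h.centralBinom : ℚ) + ε * (1 + p * q p) ^ 2) * ((h.centralBinom : ℚ) ^ 2 + (1 + p * q p) ^ 4) *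
      ((h.centralBinom : ℚ) - ε * (1 + p * q p) ^ 2) = (h.centralBinom : ℚ) ^ 4 - (1 + p * q p) ^ 8 := by
    linear_combination (-((h.centralBinom : ℚ) ^ 2 * (1 + p * q p) ^ 4) - (1 + p * q p) ^ 8) * hε2
  rw [e3] at h3
  have h4 : (p : ℚ) ^ 3 * (q p ^ 3 * (36 + 55 * (p * q p) + 50 * (p * q p) ^ 2 + 27 * (p * q p) ^ 3 +
      8 * (p * q p) ^ 4 + (p * q p) ^ 5)) ∈ I (PI.O p) (p : ℚ) 3 := by
    refine ⟨_, ?_, rfl⟩
    (repeat' (first
                | assumption
                | exact p_mem
                | exact natCast_mem _ _
                | exact intCast_mem _ _
                | exact Subring.one_mem _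
                | exact ofNat_mem _ _
                | apply Subring.mul_mem
                | apply Subring.add_mem
                | apply Subring.sub_mem
                | apply Subring.neg_mem
                | apply Subring.pow_mem))
  have h5 := mul_O (ofNat_mem (PI.O p) 2) h1
  have h6 := (I (PI.O p) (p : ℚ) 3).add_mem ((I (PI.O p) (p : ℚ) 3).add_mem h3 h5) h4
  rw [s_half]
  convert h6 using 1
  ring

omit h5 in
/-- The terms of `s_p`. -/
theorem f_dvd (k : ℕ) (h1 : 1 ≤ k) (h2 : k < p) : p ^ 3 ∣ f p k := by
  have hpp := hp.out
  have d1 : p ∣ p.choose k := hpp.dvd_choose_self (by omega) h2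
  have d2 : p ∣ (2 * k).choose k * (2 * (p - k)).choose (p - k) := by
    rcases Nat.lt_or_ge (2 * k) p with h3 | h3
    · apply Dvd.dvd.mul_left
      have := hpp.dvd_choose_add (a := p - k) (b := p - k) (by omega) (by omega) (by omega)
      rw [two_mul]
      exact this
    · apply Dvd.dvd.mul_right
      have := hpp.dvd_choose_add (a := k) (b := k) (by omega) (by omega) (by omega)
      rw [two_mul]
      exact this
  rw [f, mul_assoc]
  have := mul_dvd_mul (pow_dvd_pow_of_dvd d1 2) d2
  rw [← pow_succ] at this
  exact this

/-- `s_p` modulo `p ^ 3`. -/
theorem s_self : (s p : ℚ) - 4 ∈ I (PI.O p) (p : ℚ) 3 := by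
  have h1 := s_split p (by omega)
  have h2 : p ^ 3 ∣ ∑ k ∈ range (p - 1), f p (k + 1) := by
    apply dvd_sum
    intro k hk
    have := mem_range.1 hk
    exact f_dvd hP (k + 1) (by omega) (by omega)
  obtain ⟨z, hz⟩ := h2
  have h3 := mul_O (ofNat_mem (PI.O p) 4) (wol hP h5)
  have h4 : (p : ℚ) ^ 3 * (z : ℚ) ∈ I (PI.O p) (p : ℚ) 3 := ⟨_, natCast_mem _ _, rfl⟩
  have h5 := (I (PI.O p) (p : ℚ) 3).add_mem h3 h4
  rw [h1, hz]
  convert h5 using 1
  push_cast
  ring

/-- The main congruence. -/
theorem main_I : ∑ n ∈ range p, (3 * (n : ℚ) ^ 2 + n) / 16 ^ n * (s n : ℚ) -
    (-4 * p ^ 4 * q p + 6 * p ^ 5 * q p ^ 2) ∈ I (PI.O p) (p : ℚ) 6 := by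
  have hq := q_mem (p := p) hP
  have h1 := sum_eq (2 * h)
  have e1 : ∑ n ∈ range (2 * h + 1), (3 * (n : ℚ) ^ 2 + n) * 16 ^ (2 * h - n) * (s n : ℚ) =
      16 ^ (2 * h) * ∑ n ∈ range p, (3 * (n : ℚ) ^ 2 + n) / 16 ^ n * (s n : ℚ) := by
    rw [mul_sum, ← hP]
    apply sum_congr rfl
    intro n hn
    have hn' : n ≤ 2 * h := by have := mem_range.1 hn; omega
    have h2 : (16 : ℚ) ^ (2 * h) = 16 ^ (2 * h - n) * 16 ^ n := by rw [← pow_add]; congr 1; omega
    rw [h2]
    field_simp
  have e2 : (16 : ℚ) ^ (2 * h) = (1 + p * q p) ^ 4 := by
    rw [pq hP, pow_mul]
    rw [show (1 + ((4 : ℚ) ^ h - 1)) ^ 4 = (4 ^ h) ^ 4 by ring, ← pow_mul, ← pow_mul,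
      show (16 : ℚ) = 4 ^ 2 by norm_num, ← pow_mul]
    congr 1
    ring
  rw [e1, e2] at h1
  have e3 : ((2 * h : ℕ) : ℚ) + 1 = p := by rw [hP]; push_cast; ring
  rw [e3, ← hP] at h1
  set S := ∑ n ∈ range p, (3 * (n : ℚ) ^ 2 + n) / 16 ^ n * (s n : ℚ)
  have hU : U (PI.O p) (6 * (16 : ℚ) ^ (2 * h)) := by
    have two := two_U hP
    have three : U (PI.O p) (3 : ℚ) := by
      have h1 : ¬ (p : ℤ) ∣ 3 := by
        intro h; have := Int.le_of_dvd (by norm_num) h; omega
      exact_mod_cast U_int h1
    have h16 := (two.mul three).mul ((two.pow 4).pow (2 * h))
    norm_num at h16
    exact h16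
  have h2 : 6 * (16 : ℚ) ^ (2 * h) * (S - (-4 * p ^ 4 * q p + 6 * p ^ 5 * q p ^ 2)) ∈ I (PI.O p) (p : ℚ) 6 := by
    have a1 := s_self hP h5
    have a2 := mul_O (ofNat_mem (PI.O p) 4) (s_pred hP h5)
    have a3 : (p : ℚ) ^ 3 * (q p ^ 3 * (80 + 180 * (p * q p) + 144 * (p * q p) ^ 2 + 40 * (p * q p) ^ 3)) ∈
        I (PI.O p) (p : ℚ) 3 := by
      refine ⟨_, ?_, rfl⟩
      (repeat' (first
                  | assumption
                  | exact p_mem
                  | exact natCast_mem _ _
                  | exact intCast_mem _ _
                  | exact Subring.one_mem _
                  | exact ofNat_mem _ _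
                  | apply Subring.mul_mem
                  | apply Subring.add_mem
                  | apply Subring.sub_mem
                  | apply Subring.neg_mem
                  | apply Subring.pow_mem))
    have a4 := (I (PI.O p) (p : ℚ) 3).sub_mem ((I (PI.O p) (p : ℚ) 3).sub_mem a1 a2) a3
    have a5 := mul_I (self_pow (O := PI.O p) (π := (p : ℚ)) 3) a4
    convert a5 using 1
    rw [e2]
    linear_combination h1
  exact of_unit_mul hU.2.2 hU.2.1 h2

end Q266.Domb
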