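import Mathlib

/-!
# The ring Z[φ] as pairs of integers, powers of φ

`(a, b)` stands for `a φ + b`.
-/

namespace Pool.Agent.Q266.FP

/-- the golden ratio. -/
noncomputable def gr : ℝ := Real.goldenRatio

theorem gr_sq : gr * gr = gr + 1 := by
  have := Real.goldenRatio_sq
  unfold gr
  rw [← this]; ring

theorem gr_pos : 0 < gr := Real.goldenRatio_pos

theorem gr_ne : gr ≠ 0 := gr_pos.ne'

theorem gr_one_lt : 1 < gr := Real.one_lt_goldenRatio

theorem gr_irr : Irrational gr := Real.goldenRatio_irrational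

theorem gr_gt : 1.6180339 < gr := by
  by_contra h
  push Not at h
  have h1 := gr_sq
  have h2 := gr_one_lt
  nlinarith

theorem gr_lt : gr < 1.618034 := by
  by_contra h
  push Not at h
  have h1 := gr_sq
  have h2 := gr_one_lt
  nlinarith

/-- pairs of integers. -/
abbrev Z2 := ℤ × ℤ

/-- the real embedding. -/
noncomputable def ph (x : Z2) : ℝ := x.1 * gr + x.2

/-- the conjugate embedding. -/
noncomputable def cj (x : Z2) : ℝ := x.1 * (1 - gr) + x.2

theorem ph_add (x y : Z2) : ph (x + y) = ph x + ph y := by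
  simp only [ph, Prod.fst_add, Prod.snd_add]; push_cast; ring
theorem cj_add (x y : Z2) : cj (x + y) = cj x + cj y := by
  simp only [cj, Prod.fst_add, Prod.snd_add]; push_cast; ring
theorem ph_neg (x : Z2) : ph (-x) = -ph x := by
  simp only [ph, Prod.fst_neg, Prod.snd_neg]; push_cast; ring
theorem cj_neg (x : Z2) : cj (-x) = -cj x := by
  simp only [cj, Prod.fst_neg, Prod.snd_neg]; push_cast; ring
theorem ph_sub (x y : Z2) : ph (x - y) = ph x - ph y := by
  rw [sub_eq_add_neg, ph_add, ph_neg]; ring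
theorem cj_sub (x y : Z2) : cj (x - y) = cj x - cj y := by
  rw [sub_eq_add_neg, cj_add, cj_neg]; ring
theorem ph_zero : ph 0 = 0 := by simp [ph]
theorem cj_zero : cj 0 = 0 := by simp [cj]

theorem ph_inj {x y : Z2} (h : ph x = ph y) : x = y := by
  have h1 : ((x.1 - y.1 : ℤ) : ℝ) * gr = ((y.2 - x.2 : ℤ) : ℝ) := by
    simp only [ph] at h; push_cast; linarith
  by_cases h0 : x.1 - y.1 = 0
  · rw [h0] at h1
    have h2 : (y.2 - x.2 : ℤ) = 0 := by
      have : ((y.2 - x.2 : ℤ) : ℝ) = 0 := by rw [← h1]; simp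
      exact_mod_cast this
    ext
    · omega
    · omega
  · exfalso
    have h2 : gr = ((y.2 - x.2 : ℤ) : ℝ) / ((x.1 - y.1 : ℤ) : ℝ) := by
      have : ((x.1 - y.1 : ℤ) : ℝ) ≠ 0 := by exact_mod_cast h0
      field_simp
      linarith
    apply gr_irr
    exact ⟨((y.2 - x.2 : ℤ) : ℚ) / ((x.1 - y.1 : ℤ) : ℚ), by rw [h2]; push_cast; rfl⟩

theorem cj_inj {x y : Z2} (h : cj x = cj y) : x = y := by
  have h1 : ((x.1 - y.1 : ℤ) : ℝ) * gr = ((x.1 - y.1 + x.2 - y.2 : ℤ) : ℝ) := by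
    simp only [cj] at h; push_cast; linarith
  by_cases h0 : x.1 - y.1 = 0
  · rw [h0] at h1
    have h2 : (0 + x.2 - y.2 : ℤ) = 0 := by
      have : ((0 + x.2 - y.2 : ℤ) : ℝ) = 0 := by rw [← h1]; simp
      exact_mod_cast this
    ext
    · omega
    · omega
  · exfalso
    have h2 : gr = ((x.1 - y.1 + x.2 - y.2 : ℤ) : ℝ) / ((x.1 - y.1 : ℤ) : ℝ) := by
      have : ((x.1 - y.1 : ℤ) : ℝ) ≠ 0 := by exact_mod_cast h0
      field_simp
      linarith
    apply gr_irr
    exact ⟨((x.1 - y.1 + x.2 - y.2 : ℤ) : ℚ) / ((x.1 - y.1 : ℤ) : ℚ), by rw [h2]; push_cast; rfl⟩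

/-- `φ ^ k`. -/
def P (k : ℤ) : Z2 := (Int.fib k, Int.fib (k - 1))

theorem P_zero : P 0 = (0, 1) := by decide
theorem P_one : P 1 = (1, 0) := by decide
theorem P_two : P 2 = (1, 1) := by decide

theorem P_rec (k : ℤ) : P (k + 2) = P (k + 1) + P k := by
  unfold P
  ext
  · simp only [Prod.fst_add]
    rw [Int.fib_add_two]; ring
  · simp only [Prod.snd_add]
    have e1 : k + 2 - 1 = (k - 1) + 2 := by ring
    have e2 : k + 1 - 1 = (k - 1) + 1 := by ring
    rw [e1, e2, Int.fib_add_two]; ring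

theorem ph_P (k : ℤ) : ph (P k) = gr ^ k := by
  have key : ph (P k) = gr ^ k ∧ ph (P (k + 1)) = gr ^ (k + 1) := by
    induction k using Int.induction_on with
    | zero =>
      constructor
      · rw [P_zero]; simp [ph]
      · norm_num [P_one, ph]
    | succ n ih =>
      refine ⟨ih.2, ?_⟩
      have e : (n : ℤ) + 1 + 1 = n + 2 := by ring
      rw [e, P_rec, ph_add, ih.1, ih.2, zpow_add₀ gr_ne, zpow_add₀ gr_ne]
      simp only [zpow_ofNat, pow_one, pow_two, gr_sq]; ring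
    | pred n ih =>
      have h1 : ph (P (-(n : ℤ) - 1)) = gr ^ (-(n : ℤ) - 1) := by
        have e := P_rec (-(n : ℤ) - 1)
        have e1 : -(n : ℤ) - 1 + 2 = -(n : ℤ) + 1 := by ring
        have e2 : -(n : ℤ) - 1 + 1 = -(n : ℤ) := by ring
        rw [e1, e2] at e
        have e3 := congrArg ph e
        rw [ph_add, ih.1, ih.2] at e3
        have e4 : ph (P (-(n : ℤ) - 1)) = gr ^ (-(n : ℤ) + 1) - gr ^ (-(n : ℤ)) := by linarith
        rw [e4, zpow_add₀ gr_ne, zpow_sub₀ gr_ne, zpow_one]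
        have h5 := gr_ne
        field_simp
        have := gr_sq
        nlinarith
      refine ⟨h1, ?_⟩
      have e2 : -(n : ℤ) - 1 + 1 = -(n : ℤ) := by ring
      rw [e2]
      exact ih.1
  exact key.1

theorem psi_ne : (1 - gr) ≠ 0 := by
  have := gr_one_lt
  intro h; linarith

theorem psi_sq : (1 - gr) * (1 - gr) = (1 - gr) + 1 := by
  have := gr_sq
  nlinarith

theorem psi_mul : (1 - gr) * gr = -1 := by
  have := gr_sq
  linarith

theorem cj_P (k : ℤ) : cj (P k) = (1 - gr) ^ k := by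
  have key : cj (P k) = (1 - gr) ^ k ∧ cj (P (k + 1)) = (1 - gr) ^ (k + 1) := by
    induction k using Int.induction_on with
    | zero =>
      constructor
      · rw [P_zero]; simp [cj]
      · norm_num [P_one, cj]
    | succ n ih =>
      refine ⟨ih.2, ?_⟩
      have e : (n : ℤ) + 1 + 1 = n + 2 := by ring
      rw [e, P_rec, cj_add, ih.1, ih.2, zpow_add₀ psi_ne, zpow_add₀ psi_ne]
      simp only [zpow_ofNat, pow_one, pow_two, psi_sq]; ring
    | pred n ih =>
      have h1 : cj (P (-(n : ℤ) - 1)) = (1 - gr) ^ (-(n : ℤ) - 1) := by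
        have e := P_rec (-(n : ℤ) - 1)
        have e1 : -(n : ℤ) - 1 + 2 = -(n : ℤ) + 1 := by ring
        have e2 : -(n : ℤ) - 1 + 1 = -(n : ℤ) := by ring
        rw [e1, e2] at e
        have e3 := congrArg cj e
        rw [cj_add, ih.1, ih.2] at e3
        have e4 : cj (P (-(n : ℤ) - 1)) = (1 - gr) ^ (-(n : ℤ) + 1) - (1 - gr) ^ (-(n : ℤ)) := by
          linarith
        rw [e4, zpow_add₀ psi_ne, zpow_sub₀ psi_ne, zpow_one]
        have h5 := psi_ne
        field_simp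
        have := gr_sq
        nlinarith
      refine ⟨h1, ?_⟩
      have e2 : -(n : ℤ) - 1 + 1 = -(n : ℤ) := by ring
      rw [e2]
      exact ih.1
  exact key.1

/-- multiplication by `φ ^ n`. -/
def sc (n : ℤ) (x : Z2) : Z2 := x.1 • P (n + 1) + x.2 • P n

theorem ph_zsmul (a : ℤ) (x : Z2) : ph (a • x) = a * ph x := by
  simp only [ph, Prod.smul_fst, Prod.smul_snd, smul_eq_mul]; push_cast; ring
theorem cj_zsmul (a : ℤ) (x : Z2) : cj (a • x) = a * cj x := by
  simp only [cj, Prod.smul_fst, Prod.smul_snd, smul_eq_mul]; push_cast; ring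

theorem ph_sc (n : ℤ) (x : Z2) : ph (sc n x) = gr ^ n * ph x := by
  unfold sc
  rw [ph_add, ph_zsmul, ph_zsmul, ph_P, ph_P, zpow_add₀ gr_ne, zpow_one, ph]
  ring

theorem cj_sc (n : ℤ) (x : Z2) : cj (sc n x) = (1 - gr) ^ n * cj x := by
  unfold sc
  rw [cj_add, cj_zsmul, cj_zsmul, cj_P, cj_P, zpow_add₀ psi_ne, zpow_one, cj]
  ring

theorem sc_add (n : ℤ) (x y : Z2) : sc n (x + y) = sc n x + sc n y := by
  apply ph_inj; rw [ph_add, ph_sc, ph_sc, ph_sc, ph_add]; ring
theorem sc_neg (n : ℤ) (x : Z2) : sc n (-x) = -sc n x := by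
  apply ph_inj; rw [ph_neg, ph_sc, ph_sc, ph_neg]; ring
theorem sc_sub (n : ℤ) (x y : Z2) : sc n (x - y) = sc n x - sc n y := by
  apply ph_inj; rw [ph_sub, ph_sc, ph_sc, ph_sc, ph_sub]; ring
theorem sc_sc (m n : ℤ) (x : Z2) : sc m (sc n x) = sc (m + n) x := by
  apply ph_inj; rw [ph_sc, ph_sc, ph_sc, zpow_add₀ gr_ne]; ring
theorem sc_zero' (x : Z2) : sc 0 x = x := by
  apply ph_inj; rw [ph_sc]; simp
theorem sc_P (n k : ℤ) : sc n (P k) = P (n + k) := by
  apply ph_inj; rw [ph_sc, ph_P, ph_P, zpow_add₀ gr_ne]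
theorem sc_of_zero (n : ℤ) : sc n 0 = 0 := by
  apply ph_inj; rw [ph_sc, ph_zero]; ring
theorem sc_one (x : Z2) : sc 1 x = (x.1 + x.2, x.1) := by
  unfold sc
  have h : P (1 + 1) = (1, 1) := by decide
  rw [h, P_one]
  ext <;> simp

/-- a term `± φ ^ k`. -/
def tm (q : ℤ × Bool) : Z2 := if q.2 then P q.1 else -P q.1

/-- the sum of a multiset of terms. -/
def sm (M : Multiset (ℤ × Bool)) : Z2 := (M.map tm).sum

theorem sm_add (M N : Multiset (ℤ × Bool)) : sm (M + N) = sm M + sm N := by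
  simp [sm]
theorem sm_cons (q : ℤ × Bool) (N : Multiset (ℤ × Bool)) : sm (q ::ₘ N) = tm q + sm N := by
  simp [sm]
theorem sm_zero : sm 0 = 0 := by simp [sm]

/-- `x` is a sum of `m` terms `± φ ^ k`. -/
def Rep (m : ℕ) (x : Z2) : Prop := ∃ M : Multiset (ℤ × Bool), M.card = m ∧ sm M = x

/-- negation of a multiset of terms. -/
def ng (M : Multiset (ℤ × Bool)) : Multiset (ℤ × Bool) := M.map (fun q => (q.1, !q.2))

theorem tm_ng (q : ℤ × Bool) : tm (q.1, !q.2) = -tm q := by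
  rcases q with ⟨k, b⟩
  cases b <;> simp [tm]

theorem sm_ng (M : Multiset (ℤ × Bool)) : sm (ng M) = -sm M := by
  induction M using Multiset.induction_on with
  | empty => simp [ng, sm]
  | cons q N ih =>
    have : ng (q ::ₘ N) = (q.1, !q.2) ::ₘ ng N := by simp [ng]
    rw [this, sm_cons, sm_cons, ih, tm_ng]; abel

theorem card_ng (M : Multiset (ℤ × Bool)) : (ng M).card = M.card := by simp [ng]

/-- shift of a multiset of terms. -/
def sh (n : ℤ) (M : Multiset (ℤ × Bool)) : Multiset (ℤ × Bool) := M.map (fun q => (n + q.1, q.2))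

theorem sm_sh (n : ℤ) (M : Multiset (ℤ × Bool)) : sm (sh n M) = sc n (sm M) := by
  induction M using Multiset.induction_on with
  | empty => simp [sh, sm, sc_of_zero]
  | cons q N ih =>
    have : sh n (q ::ₘ N) = (n + q.1, q.2) ::ₘ sh n N := by simp [sh]
    rw [this, sm_cons, sm_cons, ih, sc_add]
    congr 1
    rcases q with ⟨k, b⟩
    cases b <;> simp [tm, sc_P, sc_neg]

theorem card_sh (n : ℤ) (M : Multiset (ℤ × Bool)) : (sh n M).card = M.card := by simp [sh]

theorem Rep.sc {m : ℕ} {x : Z2} (n : ℤ) (h : Rep m x) : Rep m (FP.sc n x) := by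
  obtain ⟨M, h1, h2⟩ := h
  exact ⟨sh n M, by rw [card_sh, h1], by rw [sm_sh, h2]⟩

theorem Rep.neg {m : ℕ} {x : Z2} (h : Rep m x) : Rep m (-x) := by
  obtain ⟨M, h1, h2⟩ := h
  exact ⟨ng M, by rw [card_ng, h1], by rw [sm_ng, h2]⟩

end Pool.Agent.Q266.FP
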