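import Pool.Agent.Q266.FP1

/-!
# Minimal expansions: every sum of `m` powers of φ has an expansion with gaps at least 3
-/

namespace Pool.Agent.Q266.FP

/-- the real value of a term. -/
noncomputable def rt (q : ℤ × Bool) : ℝ := if q.2 then gr ^ q.1 else -gr ^ q.1

/-- the real value of a multiset of terms. -/
noncomputable def rs (M : Multiset (ℤ × Bool)) : ℝ := (M.map rt).sum

theorem rs_cons (q : ℤ × Bool) (N : Multiset (ℤ × Bool)) : rs (q ::ₘ N) = rt q + rs N := by
  simp [rs]

theorem ph_sm (M : Multiset (ℤ × Bool)) : ph (sm M) = rs M := by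
  induction M using Multiset.induction_on with
  | empty => simp [sm, rs, ph_zero]
  | cons q N ih =>
    rw [sm_cons, rs_cons, ph_add, ih]
    congr 1
    rcases q with ⟨k, b⟩
    cases b <;> simp [tm, rt, ph_P, ph_neg]

/-- conjugation of terms. -/
def st (q : ℤ × Bool) : ℤ × Bool := (-q.1, if Even q.1 then q.2 else !q.2)

theorem st_st (q : ℤ × Bool) : st (st q) = q := by
  rcases q with ⟨k, b⟩
  unfold st
  by_cases h : Even k <;> simp [h]

theorem psi_zpow (k : ℤ) : (1 - gr) ^ k = if Even k then gr ^ (-k) else -gr ^ (-k) := by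
  have h : (1 - gr) = -gr⁻¹ := by
    have := psi_mul
    field_simp [gr_ne]
    linarith
  rw [h]
  split_ifs with he
  · rw [Even.neg_zpow he, inv_zpow, zpow_neg]
  · rw [Odd.neg_zpow (Int.not_even_iff_odd.mp he), inv_zpow, zpow_neg]

theorem cj_sm (M : Multiset (ℤ × Bool)) : cj (sm M) = rs (M.map st) := by
  induction M using Multiset.induction_on with
  | empty => simp [sm, rs, cj_zero]
  | cons q N ih =>
    rw [sm_cons, Multiset.map_cons, rs_cons, cj_add, ih]
    congr 1
    rcases q with ⟨k, b⟩
    unfold st rt tm
    cases b <;> by_cases he : Even k <;> simp [cj_P, cj_neg, psi_zpow, he]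

/-- minimal multisets of terms. -/
def Min (M : Multiset (ℤ × Bool)) : Prop := ∀ M', sm M' = sm M → M.card ≤ M'.card

theorem Min.le {M : Multiset (ℤ × Bool)} (h : Min M) {A A' : Multiset (ℤ × Bool)} (hA : A ≤ M)
    (hs : sm A' = sm A) : A.card ≤ A'.card := by
  obtain ⟨N, rfl⟩ := Multiset.le_iff_exists_add.mp hA
  have := h (A' + N) (by rw [sm_add, sm_add, hs])
  simp only [Multiset.card_add] at this
  omega

theorem sm_pair (q q' : ℤ × Bool) : sm {q, q'} = tm q + tm q' := by
  have : ({q, q'} : Multiset (ℤ × Bool)) = q ::ₘ q' ::ₘ 0 := rfl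
  rw [this, sm_cons, sm_cons, sm_zero, add_zero]

theorem sm_single (q : ℤ × Bool) : sm {q} = tm q := by
  have : ({q} : Multiset (ℤ × Bool)) = q ::ₘ 0 := rfl
  rw [this, sm_cons, sm_zero, add_zero]

theorem P_rec1 (k : ℤ) : P (k + 1) = P k + P (k - 1) := by
  have := P_rec (k - 1)
  rw [show k - 1 + 2 = k + 1 by ring, show k - 1 + 1 = k by ring] at this
  exact this

/-- local properties. -/
structure Loc (M : Multiset (ℤ × Bool)) : Prop where
  opp : ∀ q q' : ℤ × Bool, ({q, q'} : Multiset (ℤ × Bool)) ≤ M → q.2 ≠ q'.2 → 3 ≤ |q.1 - q'.1|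
  same : ∀ q q' : ℤ × Bool, ({q, q'} : Multiset (ℤ × Bool)) ≤ M → q.2 = q'.2 →
    q.1 = q'.1 ∨ 2 ≤ |q.1 - q'.1|
  trip : ∀ q, M.count q ≤ 2

theorem Min.not_single {M : Multiset (ℤ × Bool)} (h : Min M) {q q' : ℤ × Bool}
    (hA : ({q, q'} : Multiset (ℤ × Bool)) ≤ M) (r : ℤ × Bool) : tm q + tm q' ≠ tm r := by
  intro e
  have := h.le (A' := {r}) hA (by rw [sm_pair, sm_single, e])
  simp at this

theorem Min.not_zero {M : Multiset (ℤ × Bool)} (h : Min M) {q q' : ℤ × Bool}
    (hA : ({q, q'} : Multiset (ℤ × Bool)) ≤ M) : tm q + tm q' ≠ 0 := by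
  intro e
  have := h.le (A' := 0) hA (by rw [sm_pair, sm_zero, e])
  simp at this

theorem Min.loc {M : Multiset (ℤ × Bool)} (h : Min M) : Loc M := by
  constructor
  · rintro ⟨k, b⟩ ⟨k', b'⟩ hA hb
    by_contra hlt
    push Not at hlt
    simp only at hb hlt
    have hd : k' = k ∨ k' = k - 1 ∨ k' = k - 2 ∨ k' = k + 1 ∨ k' = k + 2 := by
      rw [abs_lt] at hlt; omega
    have r1 := P_rec1 k
    have r2 := P_rec1 (k - 1)
    have r3 := P_rec1 (k + 1)
    rw [show k - 1 + 1 = k by ring, show k - 1 - 1 = k - 2 by ring] at r2
    rw [show k + 1 + 1 = k + 2 by ring, show k + 1 - 1 = k by ring] at r3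
    rcases b with _ | _ <;> rcases b' with _ | _
    · exact hb rfl
    · rcases hd with rfl | rfl | rfl | rfl | rfl
      · exact h.not_zero hA (by simp [tm])
      · exact h.not_single hA (k - 2, false) (by simp only [tm]; simp; linear_combination -r2)
      · exact h.not_single hA (k - 1, false) (by simp only [tm]; simp; linear_combination -r2)
      · exact h.not_single hA (k - 1, true) (by simp only [tm]; simp; linear_combination r1)
      · exact h.not_single hA (k + 1, true) (by simp only [tm]; simp; linear_combination r3)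
    · rcases hd with rfl | rfl | rfl | rfl | rfl
      · exact h.not_zero hA (by simp [tm])
      · exact h.not_single hA (k - 2, true) (by simp only [tm]; simp; linear_combination r2)
      · exact h.not_single hA (k - 1, true) (by simp only [tm]; simp; linear_combination r2)
      · exact h.not_single hA (k - 1, false) (by simp only [tm]; simp; linear_combination -r1)
      · exact h.not_single hA (k + 1, false) (by simp only [tm]; simp; linear_combination -r3)
    · exact hb rfl
  · rintro ⟨k, b⟩ ⟨k', b'⟩ hA hb
    by_contra hlt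
    push Not at hlt
    simp only at hb hlt
    subst hb
    have hd : k' = k - 1 ∨ k' = k + 1 := by
      have := hlt.2
      rw [abs_lt] at this; omega
    have r1 := P_rec1 k
    have r3 := P_rec1 (k + 1)
    rw [show k + 1 + 1 = k + 2 by ring, show k + 1 - 1 = k by ring] at r3
    rcases b with _ | _
    · rcases hd with rfl | rfl
      · exact h.not_single hA (k + 1, false) (by simp only [tm]; simp; linear_combination r1)
      · exact h.not_single hA (k + 2, false) (by simp only [tm]; simp; linear_combination r3)
    · rcases hd with rfl | rfl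
      · exact h.not_single hA (k + 1, true) (by simp only [tm]; simp; linear_combination -r1)
      · exact h.not_single hA (k + 2, true) (by simp only [tm]; simp; linear_combination -r3)
  · rintro ⟨k, b⟩
    by_contra hlt
    push Not at hlt
    have h3 : Multiset.replicate 3 (k, b) ≤ M := Multiset.le_count_iff_replicate_le.mp hlt
    have r1 := P_rec1 k
    have r2 := P_rec1 (k - 1)
    have r3 := P_rec1 (k + 1)
    rw [show k - 1 + 1 = k by ring, show k - 1 - 1 = k - 2 by ring] at r2
    rw [show k + 1 + 1 = k + 2 by ring, show k + 1 - 1 = k by ring] at r3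
    have hs : sm {(k + 2, b), (k - 2, b)} = sm (Multiset.replicate 3 (k, b)) := by
      rw [sm_pair]
      simp only [sm, Multiset.map_replicate, Multiset.sum_replicate]
      cases b
      · simp only [tm]; simp; linear_combination -r1 + r2 - r3
      · simp only [tm]; simp; linear_combination r1 - r2 + r3
    have := h.le h3 hs
    simp at this

theorem pair_comm_le {q q' : ℤ × Bool} {M : Multiset (ℤ × Bool)}
    (h : ({q, q'} : Multiset (ℤ × Bool)) ≤ M) : ({q', q} : Multiset (ℤ × Bool)) ≤ M := by
  rwa [Multiset.pair_comm] at h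

theorem Loc.st {M : Multiset (ℤ × Bool)} (h : Loc M) : Loc (M.map FP.st) := by
  have hback : ∀ q q' : ℤ × Bool, ({q, q'} : Multiset (ℤ × Bool)) ≤ M.map FP.st →
      ({FP.st q, FP.st q'} : Multiset (ℤ × Bool)) ≤ M := by
    intro q q' hq
    have h1 := Multiset.map_le_map (f := FP.st) hq
    rw [Multiset.map_map] at h1
    have h2 : M.map (FP.st ∘ FP.st) = M := by
      conv_rhs => rw [← Multiset.map_id M]
      apply Multiset.map_congr rfl
      intro x _
      exact st_st x
    rw [h2] at h1
    simpa using h1
  have hne : ∀ q q' : ℤ × Bool, |(FP.st q).1 - (FP.st q').1| = |q.1 - q'.1| := by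
    intro q q'
    simp only [FP.st]
    rw [show -q.1 - -q'.1 = -(q.1 - q'.1) by ring, abs_neg]
  constructor
  · intro q q' hq hb
    have h1 := hback q q' hq
    rw [← hne]
    by_cases hs : (FP.st q).2 = (FP.st q').2
    · rcases h.same _ _ h1 hs with h2 | h2
      · exfalso
        simp only [FP.st] at h2 hs
        have h3 : q.1 = q'.1 := by omega
        rw [h3] at hs
        apply hb
        by_cases he : Even q'.1
        · simpa [he] using hs
        · simpa [he] using hs
      · have hodd : ¬ (Even q.1 ↔ Even q'.1) := by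
          intro hiff
          apply hb
          simp only [FP.st] at hs
          by_cases he : Even q.1
          · have he' := hiff.mp he
            simpa [he, he'] using hs
          · have he' : ¬ Even q'.1 := fun h => he (hiff.mpr h)
            simpa [he, he'] using hs
        have hodd2 : ¬ Even (q.1 - q'.1) := by
          rw [Int.even_sub]; exact hodd
        rw [hne] at h2 ⊢
        rcases abs_cases (q.1 - q'.1) with ⟨h4, _⟩ | ⟨h4, _⟩
        · rw [h4] at h2 ⊢
          rw [Int.even_iff] at hodd2
          omega
        · rw [h4] at h2 ⊢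
          rw [Int.even_iff] at hodd2
          omega
    · exact h.opp _ _ h1 hs
  · intro q q' hq hb
    have h1 := hback q q' hq
    by_cases hs : (FP.st q).2 = (FP.st q').2
    · rcases h.same _ _ h1 hs with h2 | h2
      · left
        simp only [FP.st] at h2
        omega
      · right
        rw [← hne]; exact h2
    · right
      have := h.opp _ _ h1 hs
      rw [← hne]; omega
  · intro q
    have h1 : (M.map FP.st).count q = M.count (FP.st q) := by
      conv_lhs => rw [← st_st q]
      apply Multiset.count_map_eq_count' FP.st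
      intro a b hab
      have := congrArg FP.st hab
      rwa [st_st, st_st] at this
    rw [h1]
    exact h.trip _

end Pool.Agent.Q266.FP
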