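import Pool.Agent.Q266.FP2

namespace Pool.Agent.Q266.FP

theorem zmono {a b : ℤ} (h : a ≤ b) : gr ^ a ≤ gr ^ b := zpow_le_zpow_right₀ gr_one_lt.le h

theorem zpos (a : ℤ) : 0 < gr ^ a := zpow_pos gr_pos a

theorem zrec (k : ℤ) : gr ^ (k + 1) = gr ^ k + gr ^ (k - 1) := by
  have := congrArg ph (P_rec1 k)
  rwa [ph_add, ph_P, ph_P, ph_P] at this

theorem pair_le {α : Type*} [DecidableEq α] {a b : α} {N : Multiset α} (hab : a ≠ b) (ha : a ∈ N)
    (hb : b ∈ N) : ({a, b} : Multiset α) ≤ N := by
  have : ({a, b} : Multiset α) = a ::ₘ {b} := rfl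
  rw [this, Multiset.cons_le_of_notMem (by simpa using hab)]
  exact ⟨ha, Multiset.singleton_le.mpr hb⟩

/-- multisets of exponents without adjacent elements and with multiplicities at most 2. -/
theorem sumQ (n : ℕ) : ∀ (N : Multiset ℤ) (L : ℤ), N.card = n → (∀ a ∈ N, a ≤ L) →
    (∀ a b, ({a, b} : Multiset ℤ) ≤ N → a = b ∨ 2 ≤ |a - b|) → (∀ a, N.count a ≤ 2) →
    (N.map (fun a => gr ^ a)).sum ≤ 2 * gr ^ (L + 1) := by
  induction n using Nat.strong_induction_on with
  | _ n ih =>
    intro N L hn hL hp hc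
    by_cases h0 : N = 0
    · subst h0
      simp
      exact (zpos _).le
    · obtain ⟨t, ht, htm⟩ := Finset.exists_max_image N.toFinset id
        (by rwa [Multiset.toFinset_nonempty])
      have htN : t ∈ N := Multiset.mem_toFinset.mp ht
      have hle : ∀ a ∈ N, a ≤ t := fun a ha => htm a (Multiset.mem_toFinset.mpr ha)
      set N' := N.filter (fun a => ¬ (a = t)) with hN'
      have hsplit : N.filter (fun a => a = t) + N' = N := Multiset.filter_add_not _ _
      have hcard : N'.card < n := by
        have h1 := congrArg Multiset.card hsplit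
        rw [Multiset.card_add] at h1
        have h2 : 0 < (N.filter (fun a => a = t)).card := by
          rw [Multiset.card_pos_iff_exists_mem]
          exact ⟨t, Multiset.mem_filter.mpr ⟨htN, rfl⟩⟩
        omega
      have hN'le : N' ≤ N := Multiset.filter_le _ _
      have h1 := ih N'.card hcard N' (t - 2) rfl (by
        intro a ha
        rw [hN', Multiset.mem_filter] at ha
        rcases hp a t (pair_le ha.2 ha.1 htN) with h | h
        · exact absurd h ha.2
        · have := hle a ha.1
          rw [abs_of_nonpos (by omega)] at h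
          omega) (fun a b hab => hp a b (hab.trans hN'le))
          (fun a => (Multiset.count_le_of_le a hN'le).trans (hc a))
      rw [show t - 2 + 1 = t - 1 by ring] at h1
      have h2 : ((N.filter (fun a => a = t)).map (fun a => gr ^ a)).sum ≤ 2 * gr ^ t := by
        rw [Multiset.filter_eq', Multiset.map_replicate, Multiset.sum_replicate, nsmul_eq_mul]
        have : ((N.count t : ℕ) : ℝ) ≤ 2 := by exact_mod_cast hc t
        exact mul_le_mul_of_nonneg_right this (zpos t).le
      have h3 : (N.map (fun a => gr ^ a)).sum =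
          ((N.filter (fun a => a = t)).map (fun a => gr ^ a)).sum
            + (N'.map (fun a => gr ^ a)).sum := by
        conv_lhs => rw [← hsplit]
        rw [Multiset.map_add, Multiset.sum_add]
      rw [h3]
      have h4 := zrec t
      have h5 : gr ^ (t + 1) ≤ gr ^ (L + 1) := zmono (by have := hL t htN; omega)
      linarith

theorem rs_add (M N : Multiset (ℤ × Bool)) : rs (M + N) = rs M + rs N := by simp [rs]

/-- the largest exponent is controlled by the sum. -/
theorem Loc.bound {M : Multiset (ℤ × Bool)} (h : Loc M) {q0 : ℤ × Bool} (h0 : q0 ∈ M)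
    (hmax : ∀ q ∈ M, q.1 ≤ q0.1) : gr ^ (q0.1 - 3) ≤ |rs M| := by
  set A := M.filter (fun q => q.2 = q0.2) with hA
  set C := M.filter (fun q => ¬ q.2 = q0.2) with hC
  have hsplit : A + C = M := Multiset.filter_add_not _ _
  -- the terms with the opposite sign
  set B := C.map Prod.fst with hB
  have hCle : C ≤ M := Multiset.filter_le _ _
  have hBC : B.map (fun a => (a, !q0.2)) = C := by
    rw [hB, Multiset.map_map]
    conv_rhs => rw [← Multiset.map_id C]
    apply Multiset.map_congr rfl
    intro q hq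
    rw [hC, Multiset.mem_filter] at hq
    rcases q with ⟨k, b⟩
    simp only [Function.comp, id]
    have : b ≠ q0.2 := hq.2
    rcases b with _ | _ <;> cases hq0 : q0.2 <;> simp_all
  have hq1 : (B.map (fun a => gr ^ a)).sum ≤ 2 * gr ^ (q0.1 - 3 + 1) := by
    apply sumQ B.card B (q0.1 - 3) rfl
    · intro a ha
      rw [hB, Multiset.mem_map] at ha
      obtain ⟨q, hq, rfl⟩ := ha
      rw [hC, Multiset.mem_filter] at hq
      have hne : q ≠ q0 := fun e => hq.2 (by rw [e])
      have h1 := h.opp q q0 (pair_le hne hq.1 h0) hq.2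
      have h2 := hmax q hq.1
      rw [abs_of_nonpos (by omega)] at h1
      omega
    · intro a b hab
      have h1 := Multiset.map_le_map (f := fun a => (a, !q0.2)) hab
      rw [hBC] at h1
      have h2 : ({(a, !q0.2), (b, !q0.2)} : Multiset (ℤ × Bool)) ≤ M := by
        have : ({(a, !q0.2), (b, !q0.2)} : Multiset (ℤ × Bool)) ≤ C := by simpa using h1
        exact this.trans hCle
      exact h.same _ _ h2 rfl
    · intro a
      have h1 : B.count a = C.count (a, !q0.2) := by
        rw [← hBC]
        rw [Multiset.count_map_eq_count' (fun a => (a, !q0.2)) B]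
        intro x y hxy
        simpa using hxy
      rw [h1]
      exact (Multiset.count_le_of_le _ hCle).trans (h.trip _)
  have hposA : gr ^ q0.1 ≤ (A.map (fun q => gr ^ q.1)).sum := by
    apply Multiset.single_le_sum (s := A.map (fun q => gr ^ q.1))
    · intro x hx
      rw [Multiset.mem_map] at hx
      obtain ⟨q, _, rfl⟩ := hx
      exact (zpos _).le
    · rw [Multiset.mem_map]
      exact ⟨q0, Multiset.mem_filter.mpr ⟨h0, rfl⟩, rfl⟩
  have hsignA : rs A = (if q0.2 then 1 else -1) * (A.map (fun q => gr ^ q.1)).sum := by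
    rw [rs, ← Multiset.sum_map_mul_left]
    congr 1
    apply Multiset.map_congr rfl
    intro q hq
    rw [hA, Multiset.mem_filter] at hq
    unfold rt
    rw [hq.2]
    cases q0.2 <;> simp
  have hsignC : rs C = (if q0.2 then -1 else 1) * (B.map (fun a => gr ^ a)).sum := by
    rw [rs, hB, Multiset.map_map, ← Multiset.sum_map_mul_left]
    congr 1
    apply Multiset.map_congr rfl
    intro q hq
    rw [hC, Multiset.mem_filter] at hq
    unfold rt
    simp only [Function.comp]
    have : q.2 ≠ q0.2 := hq.2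
    cases hb : q.2 <;> cases hq0 : q0.2 <;> simp_all
  have hrs : rs M = rs A + rs C := by rw [← rs_add, hsplit]
  have e1 := zrec q0.1
  have e2 := zrec (q0.1 - 1)
  have e3 := zrec (q0.1 - 2)
  rw [show q0.1 - 1 + 1 = q0.1 by ring, show q0.1 - 1 - 1 = q0.1 - 2 by ring] at e2
  rw [show q0.1 - 2 + 1 = q0.1 - 1 by ring, show q0.1 - 2 - 1 = q0.1 - 3 by ring] at e3
  rw [show q0.1 - 3 + 1 = q0.1 - 2 by ring] at hq1
  have hfin : gr ^ (q0.1 - 3) ≤ (A.map (fun q => gr ^ q.1)).sum - (B.map (fun a => gr ^ a)).sum := by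
    linarith
  rw [hrs, hsignA, hsignC]
  cases q0.2
  · simp only [Bool.false_eq_true, if_false]
    rw [show -1 * (A.map (fun q => gr ^ q.1)).sum + 1 * (B.map (fun a => gr ^ a)).sum
      = -((A.map (fun q => gr ^ q.1)).sum - (B.map (fun a => gr ^ a)).sum) by ring, abs_neg]
    exact hfin.trans (le_abs_self _)
  · simp only [if_true]
    rw [show 1 * (A.map (fun q => gr ^ q.1)).sum + -1 * (B.map (fun a => gr ^ a)).sum
      = ((A.map (fun q => gr ^ q.1)).sum - (B.map (fun a => gr ^ a)).sum) by ring]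
    exact hfin.trans (le_abs_self _)

/-- all exponents of a local multiset are bounded above in terms of the sum. -/
theorem Loc.bound_all {M : Multiset (ℤ × Bool)} (h : Loc M) {q : ℤ × Bool} (hq : q ∈ M) :
    gr ^ (q.1 - 3) ≤ |rs M| := by
  obtain ⟨t, ht, htm⟩ := Finset.exists_max_image M.toFinset (fun q => q.1)
    ⟨q, Multiset.mem_toFinset.mpr hq⟩
  have h1 := h.bound (Multiset.mem_toFinset.mp ht)
    (fun q hq => htm q (Multiset.mem_toFinset.mpr hq))
  have h2 := htm q (Multiset.mem_toFinset.mpr hq)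
  exact (zmono (by omega)).trans h1

/-- gaps at least `3`. -/
def Good (M : Multiset (ℤ × Bool)) : Prop :=
  ∀ q q' : ℤ × Bool, ({q, q'} : Multiset (ℤ × Bool)) ≤ M → 3 ≤ |q.1 - q'.1|

/-- the energy. -/
noncomputable def en (M : Multiset (ℤ × Bool)) : ℝ :=
  (M.map (fun q => gr ^ q.1 + gr ^ (-q.1))).sum

theorem en_add (M N : Multiset (ℤ × Bool)) : en (M + N) = en M + en N := by simp [en]

theorem en_pair (q q' : ℤ × Bool) :
    en {q, q'} = gr ^ q.1 + gr ^ (-q.1) + (gr ^ q'.1 + gr ^ (-q'.1)) := by
  have : ({q, q'} : Multiset (ℤ × Bool)) = q ::ₘ q' ::ₘ 0 := rfl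
  rw [this, en]
  simp

/-- a bad pair of a minimal multiset can be replaced by a pair of larger energy. -/
theorem Min.improve {M : Multiset (ℤ × Bool)} (h : Min M) {q q' : ℤ × Bool}
    (hq : ({q, q'} : Multiset (ℤ × Bool)) ≤ M) (hbad : |q.1 - q'.1| < 3) :
    ∃ M', M'.card = M.card ∧ sm M' = sm M ∧
      ∃ k : ℤ, (k = q.1 ∨ k = q'.1) ∧ en M + gr ^ (-k) ≤ en M' := by
  have hloc := h.loc
  have hs : q.2 = q'.2 := by
    by_contra hne
    have := hloc.opp q q' hq hne
    omega
  obtain ⟨N, hN⟩ := Multiset.le_iff_exists_add.mp hq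
  -- normal shape
  have key : ∀ k : ℤ, ∀ b : Bool, (({q, q'} : Multiset (ℤ × Bool)) = {(k, b), (k, b)} ∨
      ({q, q'} : Multiset (ℤ × Bool)) = {(k, b), (k - 2, b)}) → (k = q.1 ∨ k = q'.1) →
      ∃ M', M'.card = M.card ∧ sm M' = sm M ∧
      ∃ k : ℤ, (k = q.1 ∨ k = q'.1) ∧ en M + gr ^ (-k) ≤ en M' := by
    intro k b hk hkq
    have r1 := P_rec1 k
    have r2 := P_rec1 (k - 1)
    have r3 := P_rec1 (k - 2)
    rw [show k - 1 + 1 = k by ring, show k - 1 - 1 = k - 2 by ring] at r2
    rw [show k - 2 + 1 = k - 1 by ring, show k - 2 - 1 = k - 3 by ring] at r3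
    have s1 := zrec k
    have s2 := zrec (k - 1)
    have s3 := zrec (k - 2)
    rw [show k - 1 + 1 = k by ring, show k - 1 - 1 = k - 2 by ring] at s2
    rw [show k - 2 + 1 = k - 1 by ring, show k - 2 - 1 = k - 3 by ring] at s3
    have t0 := zrec (-k)
    have t1 := zrec (-k + 1)
    have t2 := zrec (-k + 2)
    rw [show -k + 1 + 1 = -k + 2 by ring, show -k + 1 - 1 = -k by ring] at t1
    rw [show -k + 2 + 1 = -k + 3 by ring, show -k + 2 - 1 = -k + 1 by ring] at t2
    have v1 := zrec (-k - 1)
    have v2 := zrec (-k - 2)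
    rw [show -k - 1 + 1 = -k by ring, show -k - 1 - 1 = -k - 2 by ring] at v1
    rw [show -k - 2 + 1 = -k - 1 by ring, show -k - 2 - 1 = -k - 3 by ring] at v2
    have v3 := zpos (-k - 3)
    have u0 := zpos (-k)
    have u1 := zpos (-k - 1)
    have u2 := zpos (k - 3)
    have u3 := zpos (-k + 1)
    rcases hk with hk | hk
    · refine ⟨{(k + 1, b), (k - 2, b)} + N, ?_, ?_, k, hkq, ?_⟩
      · rw [hN, hk]; simp
      · rw [hN, hk, sm_add, sm_add, sm_pair, sm_pair]
        congr 1
        cases b <;> simp only [tm] <;> simp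
        · linear_combination -r1 + r2
        · linear_combination r1 - r2
      · rw [hN, hk, en_add, en_add, en_pair, en_pair]
        simp only
        rw [show -(k + 1) = -k - 1 by ring, show -(k - 2) = -k + 2 by ring]
        linarith
    · refine ⟨{(k + 1, b), (k - 3, !b)} + N, ?_, ?_, k, hkq, ?_⟩
      · rw [hN, hk]; simp
      · rw [hN, hk, sm_add, sm_add, sm_pair, sm_pair]
        congr 1
        cases b <;> simp only [tm] <;> simp
        · linear_combination -r1 - r3
        · linear_combination r1 + r3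
      · rw [hN, hk, en_add, en_add, en_pair, en_pair]
        simp only
        rw [show -(k + 1) = -k - 1 by ring, show -(k - 2) = -k + 2 by ring,
          show -(k - 3) = -k + 3 by ring]
        linarith
  rcases q with ⟨k, b⟩
  rcases q' with ⟨k', b'⟩
  simp only at hs hbad
  subst hs
  rcases hloc.same _ _ hq rfl with h1 | h1
  · simp only at h1
    subst h1
    exact key k b (Or.inl rfl) (Or.inl rfl)
  · simp only at h1
    have : |k - k'| = 2 := by omega
    rcases (abs_eq (by norm_num : (0 : ℤ) ≤ 2)).mp this with h2 | h2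
    · have : k' = k - 2 := by omega
      subst this
      exact key k b (Or.inr rfl) (Or.inl rfl)
    · have : k = k' - 2 := by omega
      subst this
      exact key k' b (Or.inr (Multiset.pair_comm _ _)) (Or.inr rfl)

/-- **Gaps at least three.** -/
theorem good_exists {m : ℕ} {x : Z2} (h : Rep m x) :
    ∃ M : Multiset (ℤ × Bool), M.card ≤ m ∧ sm M = x ∧ Good M := by
  classical
  obtain ⟨m0, hm0, hmin⟩ : ∃ m0, Rep m0 x ∧ ∀ m', Rep m' x → m0 ≤ m' :=
    ⟨Nat.find ⟨m, h⟩, Nat.find_spec (⟨m, h⟩ : ∃ m, Rep m x),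
      fun m' h' => Nat.find_min' (⟨m, h⟩ : ∃ m, Rep m x) h'⟩
  have hm0m : m0 ≤ m := hmin m h
  have hMin : ∀ M, M.card = m0 → sm M = x → Min M := by
    intro M h1 h2 M' h3
    rw [h1]
    exact hmin _ ⟨M', rfl, by rw [h3, h2]⟩
  by_cases hx : x = 0
  · have h0 : m0 = 0 := by
      have := hmin 0 ⟨0, rfl, by rw [sm_zero, hx]⟩
      omega
    refine ⟨0, by simp, by rw [sm_zero, hx], ?_⟩
    intro q q' hq
    exfalso
    have := Multiset.card_le_card hq
    simp at this
  · obtain ⟨B, hB⟩ := pow_unbounded_of_one_lt (max |ph x| |cj x|) gr_one_lt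
    have hB1 : |ph x| < gr ^ (B : ℤ) := by
      rw [zpow_natCast]; exact lt_of_le_of_lt (le_max_left _ _) hB
    have hB2 : |cj x| < gr ^ (B : ℤ) := by
      rw [zpow_natCast]; exact lt_of_le_of_lt (le_max_right _ _) hB
    have hbd : ∀ M, M.card = m0 → sm M = x → ∀ q ∈ M, q.1 ≤ B + 3 ∧ -q.1 ≤ B + 3 := by
      intro M h1 h2 q hq
      have hloc := (hMin M h1 h2).loc
      constructor
      · by_contra hlt
        push Not at hlt
        have h3 := hloc.bound_all hq
        rw [← ph_sm, h2] at h3
        have h4 : gr ^ (B : ℤ) ≤ gr ^ (q.1 - 3) := zmono (by omega)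
        linarith
      · by_contra hlt
        push Not at hlt
        have h3 := hloc.st.bound_all (Multiset.mem_map_of_mem st hq)
        rw [← cj_sm, h2] at h3
        have h4 : gr ^ (B : ℤ) ≤ gr ^ ((st q).1 - 3) := zmono (by simp only [st]; omega)
        linarith
    set S : Set ℝ := {e | ∃ M, M.card = m0 ∧ sm M = x ∧ en M = e} with hS
    have hne : S.Nonempty := by
      obtain ⟨M, h1, h2⟩ := hm0
      exact ⟨en M, M, h1, h2, rfl⟩
    have hbdd : BddAbove S := by
      refine ⟨m0 * (2 * gr ^ ((B : ℤ) + 3)), ?_⟩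
      rintro e ⟨M, h1, h2, rfl⟩
      have h3 := hbd M h1 h2
      rw [← h1, en]
      have : ((M.map (fun q => gr ^ q.1 + gr ^ (-q.1))).sum) ≤
          (M.map (fun q => gr ^ q.1 + gr ^ (-q.1))).card • (2 * gr ^ ((B : ℤ) + 3)) := by
        apply Multiset.sum_le_card_nsmul
        intro y hy
        rw [Multiset.mem_map] at hy
        obtain ⟨q, hq, rfl⟩ := hy
        have h4 := h3 q hq
        have h5 := zmono h4.1
        have h6 := zmono h4.2
        linarith
      rw [Multiset.card_map, nsmul_eq_mul] at this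
      exact this
    have hc : sSup S - gr ^ (-((B : ℤ) + 3)) < sSup S := by
      have := zpos (-((B : ℤ) + 3)); linarith
    obtain ⟨e, ⟨M, h1, h2, rfl⟩, he⟩ := exists_lt_of_lt_csSup hne hc
    refine ⟨M, by omega, h2, ?_⟩
    intro q q' hq
    by_contra hbad
    push Not at hbad
    obtain ⟨M', h3, h4, k, hk, h5⟩ := (hMin M h1 h2).improve hq hbad
    have h6 : en M' ≤ sSup S := le_csSup hbdd ⟨M', by rw [h3, h1], by rw [h4, h2], rfl⟩
    have hqM : q ∈ M := Multiset.mem_of_le hq (by simp)
    have hqM' : q' ∈ M := Multiset.mem_of_le hq (by simp)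
    have h7 : gr ^ (-((B : ℤ) + 3)) ≤ gr ^ (-k) := by
      apply zmono
      rcases hk with rfl | rfl
      · have := (hbd M h1 h2 q hqM).1; omega
      · have := (hbd M h1 h2 q' hqM').1; omega
    linarith

end Pool.Agent.Q266.FP
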