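import Pool.Agent.Q266.FP3

namespace Pool.Agent.Q266.FP

theorem gr2 : gr ^ (2 : ℤ) = gr + 1 := by
  rw [show (2 : ℤ) = ((2 : ℕ) : ℤ) by rfl, zpow_natCast, pow_two, gr_sq]
theorem gr1 : gr ^ (1 : ℤ) = gr := by simp
theorem gr0 : gr ^ (0 : ℤ) = 1 := by simp
theorem gr3 : gr ^ (3 : ℤ) = 2 * gr + 1 := by
  have := zrec 2
  norm_num at this
  have h2 := gr2
  norm_num at h2
  rw [show (3 : ℤ) = ((3 : ℕ) : ℤ) by rfl, zpow_natCast]
  have : gr ^ 3 = gr ^ 2 + gr := by linarith
  rw [this, h2]; ring

/-- sums of powers with gaps at least `3`. -/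
theorem gapSum (n : ℕ) : ∀ (N : Multiset ℤ) (L : ℤ), N.card = n → (∀ a ∈ N, a ≤ L) →
    (∀ a b, ({a, b} : Multiset ℤ) ≤ N → 3 ≤ |a - b|) →
    (N.map (fun a => gr ^ a)).sum < gr ^ (L + 2) / 2 := by
  induction n using Nat.strong_induction_on with
  | _ n ih =>
    intro N L hn hL hp
    by_cases h0 : N = 0
    · subst h0
      simp
      exact zpos _
    · obtain ⟨t, ht, htm⟩ := Finset.exists_max_image N.toFinset id
        (by rwa [Multiset.toFinset_nonempty])
      have htN : t ∈ N := Multiset.mem_toFinset.mp ht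
      have hle : ∀ a ∈ N, a ≤ t := fun a ha => htm a (Multiset.mem_toFinset.mpr ha)
      have hcons : t ::ₘ N.erase t = N := Multiset.cons_erase htN
      have hcard : (N.erase t).card < n := by
        rw [← hn]; exact Multiset.card_erase_lt_of_mem htN
      have hN'le : N.erase t ≤ N := Multiset.erase_le _ _
      have h1 := ih (N.erase t).card hcard (N.erase t) (t - 3) rfl (by
        intro a ha
        have h2 : ({a, t} : Multiset ℤ) ≤ N := by
          rw [Multiset.pair_comm, ← hcons]
          have : ({t, a} : Multiset ℤ) = t ::ₘ {a} := rfl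
          rw [this]
          exact Multiset.cons_le_cons _ (Multiset.singleton_le.mpr ha)
        have h3 := hp a t h2
        have h4 := hle a (Multiset.mem_of_le hN'le ha)
        rw [abs_of_nonpos (by omega)] at h3
        omega) (fun a b hab => hp a b (hab.trans hN'le))
      rw [show t - 3 + 2 = t - 1 by ring] at h1
      have h3 : (N.map (fun a => gr ^ a)).sum = gr ^ t + ((N.erase t).map (fun a => gr ^ a)).sum := by
        conv_lhs => rw [← hcons]
        rw [Multiset.map_cons, Multiset.sum_cons]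
      rw [h3]
      have h4 := zrec t
      have h6 := zrec (t + 1)
      rw [show t + 1 + 1 = t + 2 by ring, show t + 1 - 1 = t by ring] at h6
      have h5 : gr ^ (t + 2) ≤ gr ^ (L + 2) := zmono (by have := hL t htN; omega)
      linarith

theorem Good.le {M N : Multiset (ℤ × Bool)} (h : Good M) (hN : N ≤ M) : Good N :=
  fun q q' hq => h q q' (hq.trans hN)

theorem Good.inj {M : Multiset (ℤ × Bool)} (h : Good M) {q q' : ℤ × Bool} (hq : q ∈ M)
    (hq' : q' ∈ M) (he : q.1 = q'.1) : q = q' := by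
  by_contra hne
  have := h q q' (pair_le hne hq hq')
  rw [he] at this
  simp at this

theorem abs_rs_le (M : Multiset (ℤ × Bool)) : |rs M| ≤ (M.map (fun q => gr ^ q.1)).sum := by
  induction M using Multiset.induction_on with
  | empty => simp [rs]
  | cons q N ih =>
    rw [rs_cons, Multiset.map_cons, Multiset.sum_cons]
    have h1 : |rt q| = gr ^ q.1 := by
      unfold rt
      split_ifs
      · exact abs_of_pos (zpos _)
      · rw [abs_neg]; exact abs_of_pos (zpos _)
    calc |rt q + rs N| ≤ |rt q| + |rs N| := abs_add_le _ _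
      _ ≤ _ := by rw [h1]; linarith

theorem pair_map_le {α β : Type*} [DecidableEq α] [DecidableEq β] {f : α → β} {M : Multiset α}
    {a b : β} (h : ({a, b} : Multiset β) ≤ M.map f) :
    ∃ x y, f x = a ∧ f y = b ∧ ({x, y} : Multiset α) ≤ M := by
  have h1 : a ∈ M.map f := Multiset.mem_of_le h (by simp)
  obtain ⟨x, hx, rfl⟩ := Multiset.mem_map.mp h1
  have h2 : M = x ::ₘ M.erase x := (Multiset.cons_erase hx).symm
  have h3 : ({b} : Multiset β) ≤ (M.erase x).map f := by
    have h4 : ({f x, b} : Multiset β) = f x ::ₘ {b} := rfl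
    rw [h4, h2, Multiset.map_cons] at h
    exact (Multiset.cons_le_cons_iff _).mp h
  have h4 : b ∈ (M.erase x).map f := Multiset.singleton_le.mp h3
  obtain ⟨y, hy, rfl⟩ := Multiset.mem_map.mp h4
  refine ⟨x, y, rfl, rfl, ?_⟩
  have h5 : ({x, y} : Multiset α) = x ::ₘ {y} := rfl
  rw [h5, h2]
  exact Multiset.cons_le_cons _ (Multiset.singleton_le.mpr hy)

/-- the real bound for a good multiset with exponents at most `L`. -/
theorem Good.abs_lt {M : Multiset (ℤ × Bool)} (h : Good M) {L : ℤ} (hL : ∀ q ∈ M, q.1 ≤ L) :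
    |rs M| < gr ^ (L + 2) / 2 := by
  refine lt_of_le_of_lt (abs_rs_le M) ?_
  have h1 := gapSum (M.map Prod.fst).card (M.map Prod.fst) L rfl (by
    intro a ha
    obtain ⟨q, hq, rfl⟩ := Multiset.mem_map.mp ha
    exact hL q hq) (by
    intro a b hab
    obtain ⟨x, y, rfl, rfl, hxy⟩ := pair_map_le hab
    exact h x y hxy)
  rw [Multiset.map_map] at h1
  exact h1

theorem Good.map_st {M : Multiset (ℤ × Bool)} (h : Good M) : Good (M.map st) := by
  intro q q' hq
  obtain ⟨x, y, rfl, rfl, hxy⟩ := pair_map_le hq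
  have := h x y hxy
  simp only [st]
  rw [show -x.1 - -y.1 = -(x.1 - y.1) by ring, abs_neg]
  exact this

/-- the part with exponents at least `κ`. -/
def up (κ : ℤ) (M : Multiset (ℤ × Bool)) : Multiset (ℤ × Bool) := M.filter (fun q => κ ≤ q.1)
/-- the part with exponents below `κ`. -/
def dn (κ : ℤ) (M : Multiset (ℤ × Bool)) : Multiset (ℤ × Bool) := M.filter (fun q => ¬ κ ≤ q.1)
/-- the part with exponent `κ`. -/
def eqp (κ : ℤ) (M : Multiset (ℤ × Bool)) : Multiset (ℤ × Bool) := M.filter (fun q => q.1 = κ)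

theorem up_add_dn (κ : ℤ) (M : Multiset (ℤ × Bool)) : up κ M + dn κ M = M :=
  Multiset.filter_add_not _ _

theorem up_succ (κ : ℤ) (M : Multiset (ℤ × Bool)) : up κ M = up (κ + 1) M + eqp κ M := by
  have h1 : up κ M = (up κ M).filter (fun q => κ + 1 ≤ q.1)
      + (up κ M).filter (fun q => ¬ κ + 1 ≤ q.1) := (Multiset.filter_add_not _ _).symm
  rw [h1]
  congr 1
  · unfold up
    rw [Multiset.filter_filter]
    apply Multiset.filter_congr
    intro q _
    constructor
    · rintro ⟨h, _⟩; exact h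
    · intro h; exact ⟨h, by omega⟩
  · unfold up eqp
    rw [Multiset.filter_filter]
    apply Multiset.filter_congr
    intro q _
    constructor
    · rintro ⟨h, h'⟩; omega
    · intro h; exact ⟨by omega, by omega⟩

theorem Good.eqp_sm {M : Multiset (ℤ × Bool)} (h : Good M) (κ : ℤ) :
    (eqp κ M = 0) ∨ ∃ b, eqp κ M = {(κ, b)} := by
  by_cases h0 : eqp κ M = 0
  · exact Or.inl h0
  · right
    obtain ⟨q, hq⟩ := Multiset.exists_mem_of_ne_zero h0
    have hq1 : q.1 = κ := (Multiset.mem_filter.mp hq).2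
    refine ⟨q.2, ?_⟩
    have h1 : eqp κ M = q ::ₘ (eqp κ M).erase q := (Multiset.cons_erase hq).symm
    have h2 : (eqp κ M).erase q = 0 := by
      by_contra hne
      obtain ⟨q', hq'⟩ := Multiset.exists_mem_of_ne_zero hne
      have h3 : ({q, q'} : Multiset (ℤ × Bool)) ≤ eqp κ M := by
        have : ({q, q'} : Multiset (ℤ × Bool)) = q ::ₘ {q'} := rfl
        rw [h1, this]
        exact Multiset.cons_le_cons _ (Multiset.singleton_le.mpr hq')
      have h4 := h q q' (h3.trans (Multiset.filter_le _ _))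
      have h5 : q'.1 = κ := (Multiset.mem_filter.mp (Multiset.mem_of_mem_erase hq')).2
      rw [hq1, h5] at h4
      simp at h4
    rw [h1, h2, ← hq1]
    rfl

theorem Good.ph_dn {M : Multiset (ℤ × Bool)} (h : Good M) (κ : ℤ) :
    |ph (sm (dn κ M))| < gr ^ (κ + 1) / 2 := by
  rw [ph_sm]
  have := (h.le (N := dn κ M) (Multiset.filter_le _ _)).abs_lt (L := κ - 1) (by
    intro q hq
    have := (Multiset.mem_filter.mp hq).2
    omega)
  rwa [show κ - 1 + 2 = κ + 1 by ring] at this

theorem Good.cj_up {M : Multiset (ℤ × Bool)} (h : Good M) (κ : ℤ) :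
    |cj (sm (up κ M))| < gr ^ (2 - κ) / 2 := by
  rw [cj_sm]
  have := (h.le (N := up κ M) (Multiset.filter_le _ _)).map_st.abs_lt (L := -κ) (by
    intro q hq
    obtain ⟨x, hx, rfl⟩ := Multiset.mem_map.mp hq
    have := (Multiset.mem_filter.mp hx).2
    simp only [st]
    omega)
  rwa [show -κ + 2 = 2 - κ by ring] at this

/-- the enumeration for the reflection lemma. -/
theorem enum1 (a b : ℤ) (ha : a % 2 = 1) (hb : b % 2 = 1)
    (h1 : |(a : ℝ) * gr + b| < 2 * gr + 2) (h2 : |(a : ℝ) * (1 - gr) + b| < 2 * gr) :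
    (a = 1 ∧ b = 1) ∨ (a = -1 ∧ b = -1) ∨ (a = 1 ∧ b = -1) ∨ (a = -1 ∧ b = 1) ∨
    (a = 1 ∧ b = 3) ∨ (a = -1 ∧ b = -3) ∨ (a = 3 ∧ b = -1) ∨ (a = -3 ∧ b = 1) := by
  have g1 := gr_gt
  have g2 := gr_lt
  rw [abs_lt] at h1 h2
  have ha1 : a < 4 := by
    by_contra h
    push Not at h
    have h' : (4 : ℝ) ≤ a := by exact_mod_cast h
    nlinarith
  have ha2 : -4 < a := by
    by_contra h
    push Not at h
    have h' : (a : ℝ) ≤ -4 := by exact_mod_cast h
    nlinarith
  have hb1 : b < 6 := by
    by_contra h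
    push Not at h
    have h' : (6 : ℝ) ≤ b := by exact_mod_cast h
    interval_cases a <;> first | (exfalso; omega) | (exfalso; norm_num at h1 h2; linarith)
  have hb2 : -6 < b := by
    by_contra h
    push Not at h
    have h' : (b : ℝ) ≤ -6 := by exact_mod_cast h
    interval_cases a <;> first | (exfalso; omega) | (exfalso; norm_num at h1 h2; linarith)
  interval_cases a <;> first
    | (exfalso; omega)
    | (interval_cases b <;> first
        | (exfalso; omega)
        | (simp; done)
        | (exfalso; norm_num at h1 h2; linarith))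

end Pool.Agent.Q266.FP
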