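import Pool.Agent.Q266.FP4

namespace Pool.Agent.Q266.FP

/-- the remainder of the reflection at the cut `κ`. -/
def er (S : Z2) (M : Multiset (ℤ × Bool)) (κ : ℤ) : Z2 := S - sm (up κ M) - sm (up κ M)

theorem er_ph {S y : Z2} {M : Multiset (ℤ × Bool)} (hy : sm M = y) (κ : ℤ) :
    ph (er S M κ) = ph (S - y - y) + 2 * ph (sm (dn κ M)) := by
  have h : y = sm (up κ M) + sm (dn κ M) := by rw [← sm_add, up_add_dn, hy]
  unfold er
  rw [h]
  simp only [ph_sub, ph_add]
  ring

theorem er_cj {S : Z2} {M : Multiset (ℤ × Bool)} (κ : ℤ) :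
    cj (er S M κ) = cj S - 2 * cj (sm (up κ M)) := by
  unfold er
  simp only [cj_sub]
  ring

theorem er_parity {S : Z2} {M : Multiset (ℤ × Bool)} (κ : ℤ) :
    (er S M κ).1 % 2 = S.1 % 2 ∧ (er S M κ).2 % 2 = S.2 % 2 := by
  unfold er
  simp only [Prod.fst_sub, Prod.snd_sub]
  constructor <;> omega

theorem er_succ {S : Z2} {M : Multiset (ℤ × Bool)} (κ : ℤ) :
    er S M κ = er S M (κ + 1) - sm (eqp κ M) - sm (eqp κ M) := by
  unfold er
  rw [up_succ κ M, sm_add]
  abel

theorem tm_cases {e : Z2} (h : (e.1 = 1 ∧ e.2 = 1) ∨ (e.1 = -1 ∧ e.2 = -1) ∨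
    (e.1 = 1 ∧ e.2 = -1) ∨ (e.1 = -1 ∧ e.2 = 1)) : ∃ r, e = tm r := by
  rcases e with ⟨a, b⟩
  simp only at h
  rcases h with ⟨rfl, rfl⟩ | ⟨rfl, rfl⟩ | ⟨rfl, rfl⟩ | ⟨rfl, rfl⟩
  · exact ⟨(2, true), by decide⟩
  · exact ⟨(2, false), by decide⟩
  · exact ⟨(-1, true), by decide⟩
  · exact ⟨(-1, false), by decide⟩

theorem sm_eqp {M : Multiset (ℤ × Bool)} (hM : Good M) (κ : ℤ) :
    sm (eqp κ M) = 0 ∨ sm (eqp κ M) = P κ ∨ sm (eqp κ M) = -P κ := by
  rcases hM.eqp_sm κ with h | ⟨b, h⟩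
  · left; rw [h, sm_zero]
  · right
    rw [h, sm_single]
    cases b
    · right; simp [tm]
    · left; simp [tm]

/-- **The cut.** -/
theorem reflect0 {S y : Z2} (h1 : S.1 % 2 = 1) (h2 : S.2 % 2 = 1) (hc : |cj S| < gr)
    (hp : |ph (S - y - y)| ≤ gr + 1) {M : Multiset (ℤ × Bool)} (hM : Good M) (hy : sm M = y) :
    ∃ κ r, er S M κ = tm r := by
  have g1 := gr_gt
  have g2 := gr_lt
  have hpar := fun κ => er_parity (S := S) (M := M) κ
  have bph : ∀ κ, |ph (er S M κ)| < gr + 1 + gr ^ (κ + 1) := by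
    intro κ
    rw [er_ph hy]
    have := hM.ph_dn κ
    calc _ ≤ |ph (S - y - y)| + |2 * ph (sm (dn κ M))| := abs_add_le _ _
      _ < _ := by rw [abs_mul, abs_two]; linarith
  have bcj : ∀ κ, |cj (er S M κ)| < gr + gr ^ (2 - κ) := by
    intro κ
    rw [er_cj]
    have := hM.cj_up κ
    calc _ ≤ |cj S| + |2 * cj (sm (up κ M))| := abs_sub _ _
      _ < _ := by rw [abs_mul, abs_two]; linarith
  have p1 := bph 1
  have c1 := bcj 1
  have p0 := bph 0
  have c2 := bcj 2
  norm_num at p1 c1 p0 c2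
  have hgr2 : gr ^ 2 = gr + 1 := by rw [pow_two, gr_sq]
  rw [hgr2] at p1
  have e1 := enum1 (er S M 1).1 (er S M 1).2 (by rw [(hpar 1).1]; exact h1)
    (by rw [(hpar 1).2]; exact h2) (by unfold ph at p1; linarith) (by unfold cj at c1; linarith)
  rcases e1 with h | h | h | h | h | h | h | h
  · obtain ⟨r, hr⟩ := tm_cases (e := er S M 1) (by tauto)
    exact ⟨1, r, hr⟩
  · obtain ⟨r, hr⟩ := tm_cases (e := er S M 1) (by tauto)
    exact ⟨1, r, hr⟩
  · obtain ⟨r, hr⟩ := tm_cases (e := er S M 1) (by tauto)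
    exact ⟨1, r, hr⟩
  · obtain ⟨r, hr⟩ := tm_cases (e := er S M 1) (by tauto)
    exact ⟨1, r, hr⟩
  · -- (1, 3): go to `κ = 0`
    have hs := er_succ (S := S) (M := M) 0
    norm_num at hs
    rw [hs] at p0
    unfold ph at p0
    have hP0 : P 0 = (0, 1) := by decide
    rcases sm_eqp hM 0 with hd | hd | hd
    · rw [hd] at p0
      simp only [Prod.fst_sub, Prod.snd_sub, Prod.fst_zero, Prod.snd_zero, h.1, h.2] at p0
      exfalso
      norm_num at p0
      rw [abs_lt] at p0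
      linarith
    · rw [hd, hP0] at hs
      obtain ⟨r, hr⟩ := tm_cases (e := er S M 0) (by
        rw [hs]; left
        simp only [Prod.fst_sub, Prod.snd_sub, h.1, h.2]; norm_num)
      exact ⟨0, r, hr⟩
    · rw [hd, hP0] at p0
      simp only [Prod.fst_sub, Prod.snd_sub, Prod.fst_neg, Prod.snd_neg, h.1, h.2] at p0
      exfalso
      norm_num at p0
      rw [abs_lt] at p0
      linarith
  · have hs := er_succ (S := S) (M := M) 0
    norm_num at hs
    rw [hs] at p0
    unfold ph at p0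
    have hP0 : P 0 = (0, 1) := by decide
    rcases sm_eqp hM 0 with hd | hd | hd
    · rw [hd] at p0
      simp only [Prod.fst_sub, Prod.snd_sub, Prod.fst_zero, Prod.snd_zero, h.1, h.2] at p0
      exfalso
      norm_num at p0
      rw [abs_lt] at p0
      linarith
    · rw [hd, hP0] at p0
      simp only [Prod.fst_sub, Prod.snd_sub, h.1, h.2] at p0
      exfalso
      norm_num at p0
      rw [abs_lt] at p0
      linarith
    · rw [hd, hP0] at hs
      obtain ⟨r, hr⟩ := tm_cases (e := er S M 0) (by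
        rw [hs]; right; left
        simp only [Prod.fst_sub, Prod.snd_sub, Prod.fst_neg, Prod.snd_neg, h.1, h.2]; norm_num)
      exact ⟨0, r, hr⟩
  · -- (3, -1): go to `κ = 2`
    have hs := er_succ (S := S) (M := M) 1
    norm_num at hs
    have hs' : er S M 2 = er S M 1 + sm (eqp 1 M) + sm (eqp 1 M) := by rw [hs]; abel
    rw [hs'] at c2
    unfold cj at c2
    have hP1 : P 1 = (1, 0) := by decide
    rcases sm_eqp hM 1 with hd | hd | hd
    · rw [hd] at c2
      simp only [Prod.fst_add, Prod.snd_add, Prod.fst_zero, Prod.snd_zero, h.1, h.2] at c2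
      exfalso
      norm_num at c2
      rw [abs_lt] at c2
      linarith
    · rw [hd, hP1] at c2
      simp only [Prod.fst_add, Prod.snd_add, h.1, h.2] at c2
      exfalso
      norm_num at c2
      rw [abs_lt] at c2
      linarith
    · rw [hd, hP1] at hs'
      obtain ⟨r, hr⟩ := tm_cases (e := er S M 2) (by
        rw [hs']; right; right; left
        simp only [Prod.fst_add, Prod.snd_add, Prod.fst_neg, Prod.snd_neg, h.1, h.2]; norm_num)
      exact ⟨2, r, hr⟩
  · have hs := er_succ (S := S) (M := M) 1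
    norm_num at hs
    have hs' : er S M 2 = er S M 1 + sm (eqp 1 M) + sm (eqp 1 M) := by rw [hs]; abel
    rw [hs'] at c2
    unfold cj at c2
    have hP1 : P 1 = (1, 0) := by decide
    rcases sm_eqp hM 1 with hd | hd | hd
    · rw [hd] at c2
      simp only [Prod.fst_add, Prod.snd_add, Prod.fst_zero, Prod.snd_zero, h.1, h.2] at c2
      exfalso
      norm_num at c2
      rw [abs_lt] at c2
      linarith
    · rw [hd, hP1] at hs'
      obtain ⟨r, hr⟩ := tm_cases (e := er S M 2) (by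
        rw [hs']; right; right; right
        simp only [Prod.fst_add, Prod.snd_add, h.1, h.2]; norm_num)
      exact ⟨2, r, hr⟩
    · rw [hd, hP1] at c2
      simp only [Prod.fst_add, Prod.snd_add, Prod.fst_neg, Prod.snd_neg, h.1, h.2] at c2
      exfalso
      norm_num at c2
      rw [abs_lt] at c2
      linarith

/-- **Reflection lemma** at scale `0`. -/
theorem Rep.reflect0 {S y : Z2} (h1 : S.1 % 2 = 1) (h2 : S.2 % 2 = 1) (hc : |cj S| < gr)
    (hp : |ph (S - y - y)| ≤ gr + 1) {m : ℕ} (h : Rep m y) : ∃ m' ≤ m + 1, Rep m' (S - y) := by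
  obtain ⟨M, hcard, hy, hM⟩ := good_exists h
  obtain ⟨κ, r, hr⟩ := FP.reflect0 h1 h2 hc hp hM hy
  refine ⟨M.card + 1, by omega, r ::ₘ (up κ M + ng (dn κ M)), ?_, ?_⟩
  · rw [Multiset.card_cons, Multiset.card_add, card_ng]
    congr 1
    rw [← Multiset.card_add, up_add_dn]
  · rw [sm_cons, sm_add, sm_ng, ← hr]
    have h : y = sm (up κ M) + sm (dn κ M) := by rw [← sm_add, up_add_dn, hy]
    unfold er
    rw [h]
    abel

/-- **Reflection lemma** at scale `t`: `S = φ ^ t (2 z + φ ^ 2)`. -/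
theorem rep_reflect {z y : Z2} (t : ℤ) (hz1 : -1 < cj z) (hz2 : cj z < gr - 1)
    (hp : |ph (sc t (z + z + P 2) - y - y)| ≤ gr ^ (t + 2)) {m : ℕ} (h : Rep m y) :
    ∃ m' ≤ m + 1, Rep m' (sc t (z + z + P 2) - y) := by
  have g1 := gr_gt
  have g2 := gr_lt
  have hS1 : (z + z + P 2).1 % 2 = 1 := by
    rw [P_two]; simp only [Prod.fst_add]; omega
  have hS2 : (z + z + P 2).2 % 2 = 1 := by
    rw [P_two]; simp only [Prod.snd_add]; omega
  have hc : |cj (z + z + P 2)| < gr := by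
    have : cj (P 2) = 2 - gr := by rw [P_two]; simp [cj]; ring
    rw [cj_add, cj_add, this, abs_lt]
    constructor <;> linarith
  have hpt := zpos t
  have hp' : |ph ((z + z + P 2) - sc (-t) y - sc (-t) y)| ≤ gr + 1 := by
    have e : sc t (z + z + P 2) - y - y = sc t ((z + z + P 2) - sc (-t) y - sc (-t) y) := by
      rw [sc_sub, sc_sub, sc_sc, show t + -t = 0 by ring, sc_zero']
    rw [e, ph_sc, abs_mul, abs_of_pos hpt, zpow_add₀ gr_ne, gr2] at hp
    exact le_of_mul_le_mul_left hp hpt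
  obtain ⟨m', hm', hrep⟩ := (h.sc (-t)).reflect0 hS1 hS2 hc hp'
  refine ⟨m', hm', ?_⟩
  have := hrep.sc t
  rwa [sc_sub, sc_sc, show t + -t = 0 by ring, sc_zero'] at this

end Pool.Agent.Q266.FP
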