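import Pool.Agent.Q266.FP5

namespace Pool.Agent.Q266.FP

theorem tm_inj {q q' : ℤ × Bool} (h : tm q = tm q') : q = q' := by
  have h1 := congrArg ph h
  rcases q with ⟨k, b⟩
  rcases q' with ⟨k', b'⟩
  have e1 := zpos k
  have e2 := zpos k'
  have hinj : gr ^ k = gr ^ k' → k = k' := fun h => zpow_right_injective₀ gr_pos gr_one_lt.ne' h
  cases b <;> cases b' <;> simp only [tm] at h1 <;> simp [ph_neg, ph_P] at h1
  · rw [hinj h1]
  · linarith
  · linarith
  · rw [hinj h1]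

theorem P_odd (k : ℤ) : ¬ ((P k).1 % 2 = 0 ∧ (P k).2 % 2 = 0) := by
  rintro ⟨h1, h2⟩
  obtain ⟨a, ha⟩ := Int.dvd_of_emod_eq_zero h1
  obtain ⟨b, hb⟩ := Int.dvd_of_emod_eq_zero h2
  have h3 : P k = (a, b) + (a, b) := by
    ext
    · simp only [Prod.fst_add]; omega
    · simp only [Prod.snd_add]; omega
  have h4 := congrArg (sc (-k)) h3
  rw [sc_P, sc_add, show -k + k = 0 by ring, P_zero] at h4
  have h5 := congrArg Prod.snd h4
  simp only [Prod.snd_add] at h5
  omega

theorem enum2 (a b : ℤ) (hab : ¬ (a % 2 = 0 ∧ b % 2 = 0))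
    (h1 : |(a : ℝ) * gr + b| < gr + 0.05) (h2 : |(a : ℝ) * (1 - gr) + b| < gr + 1 + 0.05) :
    (a = 0 ∧ b = 1) ∨ (a = 0 ∧ b = -1) ∨ (a = 1 ∧ b = 0) ∨ (a = -1 ∧ b = 0) ∨
    (a = 1 ∧ b = -1) ∨ (a = -1 ∧ b = 1) ∨ (a = 1 ∧ b = -2) ∨ (a = -1 ∧ b = 2) := by
  have g1 := gr_gt
  have g2 := gr_lt
  rw [abs_lt] at h1 h2
  have ha1 : a < 2 := by
    by_contra h
    push Not at h
    have h' : (2 : ℝ) ≤ a := by exact_mod_cast h
    nlinarith
  have ha2 : -2 < a := by
    by_contra h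
    push Not at h
    have h' : (a : ℝ) ≤ -2 := by exact_mod_cast h
    nlinarith
  have hb1 : b < 4 := by
    by_contra h
    push Not at h
    have h' : (4 : ℝ) ≤ b := by exact_mod_cast h
    interval_cases a <;> (exfalso; norm_num at h1 h2; linarith)
  have hb2 : -4 < b := by
    by_contra h
    push Not at h
    have h' : (b : ℝ) ≤ -4 := by exact_mod_cast h
    interval_cases a <;> (exfalso; norm_num at h1 h2; linarith)
  interval_cases a <;> interval_cases b <;> first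
        | (exfalso; omega)
        | (simp; done)
        | (exfalso; linarith [h1.1, h1.2, h2.1, h2.2])
        | (exfalso; push_cast at h1 h2; linarith [h1.1, h1.2, h2.1, h2.2])

theorem gr_pow_bounds : (0.0345 : ℝ) > gr ^ (-7 : ℤ) ∧ 3.62 * gr ^ (-9 : ℤ) < 0.05 := by
  have g1 := gr_gt
  have e7 : gr ^ 7 = 13 * gr + 8 := by
    have := gr_sq
    have h2 : gr ^ 2 = gr + 1 := by rw [pow_two, gr_sq]
    calc gr ^ 7 = (gr ^ 2) ^ 3 * gr := by ring
      _ = 13 * gr + 8 := by rw [h2]; nlinarith [gr_sq]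
  have e9 : gr ^ 9 = 34 * gr + 21 := by
    have h2 : gr ^ 2 = gr + 1 := by rw [pow_two, gr_sq]
    calc gr ^ 9 = gr ^ 7 * gr ^ 2 := by ring
      _ = 34 * gr + 21 := by rw [e7, h2]; nlinarith [gr_sq]
  have z7 : gr ^ (-7 : ℤ) = (gr ^ 7)⁻¹ := by
    rw [zpow_neg]; norm_cast
  have z9 : gr ^ (-9 : ℤ) = (gr ^ 9)⁻¹ := by
    rw [zpow_neg]; norm_cast
  rw [z7, z9, e7, e9]
  constructor
  · rw [gt_iff_lt, inv_lt_comm₀ (by linarith) (by norm_num)]
    norm_num
    linarith
  · rw [← div_eq_mul_inv, div_lt_iff₀ (by linarith)]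
    linarith

/-- states -/
def Stt (n : ℤ) (M : Multiset (ℤ × Bool)) (κ j : ℤ) : Prop :=
  -2 ≤ j ∧ j ≤ 1 ∧ ∃ b, er (P n) M κ = tm (κ + j, b)

theorem stt_exists {n : ℤ} {y c0 : Z2} {M : Multiset (ℤ × Bool)} (hM : Good M) (hy : sm M = y)
    (h2y : y + y = P n + c0) (hc0 : |ph c0| ≤ 3.62) {κ : ℤ} (h9 : 9 ≤ κ) (hn : κ ≤ n - 7) :
    ∃ j, Stt n M κ j := by
  have hph : |ph (er (P n) M κ)| < gr ^ (κ + 1) + 3.62 := by
    rw [er_ph hy]
    have h1 : ph (P n - y - y) = -ph c0 := by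
      have : P n - y - y = -c0 := by
        have : P n = y + y - c0 := by rw [h2y]; abel
        rw [this]; abel
      rw [this, ph_neg]
    rw [h1]
    have := hM.ph_dn κ
    calc _ ≤ |-ph c0| + |2 * ph (sm (dn κ M))| := abs_add_le _ _
      _ < _ := by rw [abs_neg, abs_mul, abs_two]; linarith
  have hcj : |cj (er (P n) M κ)| < gr ^ (-n) + gr ^ (2 - κ) := by
    rw [er_cj]
    have := hM.cj_up κ
    have h1 : |cj (P n)| = gr ^ (-n) := by
      rw [cj_P, psi_zpow]
      split_ifs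
      · exact abs_of_pos (zpos _)
      · rw [abs_neg]; exact abs_of_pos (zpos _)
    calc _ ≤ |cj (P n)| + |2 * cj (sm (up κ M))| := abs_sub _ _
      _ < _ := by rw [abs_mul, abs_two, h1]; linarith
  set e := sc (-κ) (er (P n) M κ) with he
  have hback : er (P n) M κ = sc κ e := by
    rw [he, sc_sc, show κ + -κ = 0 by ring, sc_zero']
  have b1 : |ph e| < gr + 0.05 := by
    rw [he, ph_sc, abs_mul, abs_of_pos (zpos _)]
    have h1 : gr ^ (-κ) * |ph (er (P n) M κ)| < gr ^ (-κ) * (gr ^ (κ + 1) + 3.62) :=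
      mul_lt_mul_of_pos_left hph (zpos _)
    have h2 : gr ^ (-κ) * gr ^ (κ + 1) = gr := by
      rw [← zpow_add₀ gr_ne, show -κ + (κ + 1) = 1 by ring, zpow_one]
    have h3 : gr ^ (-κ) ≤ gr ^ (-9 : ℤ) := zmono (by omega)
    have h4 := gr_pow_bounds.2
    rw [mul_add, h2] at h1
    linarith
  have b2 : |cj e| < gr + 1 + 0.05 := by
    rw [he, cj_sc, abs_mul]
    have h0 : |(1 - gr) ^ (-κ)| = gr ^ κ := by
      rw [psi_zpow]
      split_ifs
      · rw [abs_of_pos (zpos _), neg_neg]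
      · rw [abs_neg, abs_of_pos (zpos _), neg_neg]
    rw [h0]
    have h1 : gr ^ κ * |cj (er (P n) M κ)| < gr ^ κ * (gr ^ (-n) + gr ^ (2 - κ)) :=
      mul_lt_mul_of_pos_left hcj (zpos _)
    have h2 : gr ^ κ * gr ^ (2 - κ) = gr + 1 := by
      rw [← zpow_add₀ gr_ne, show κ + (2 - κ) = 2 by ring, gr2]
    have h3 : gr ^ κ * gr ^ (-n) ≤ gr ^ (-7 : ℤ) := by
      rw [← zpow_add₀ gr_ne]; exact zmono (by omega)
    have h4 := gr_pow_bounds.1
    rw [mul_add, h2] at h1
    linarith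
  have hpar : ¬ (e.1 % 2 = 0 ∧ e.2 % 2 = 0) := by
    have h1 : e = P (n - κ) - sc (-κ) (sm (up κ M)) - sc (-κ) (sm (up κ M)) := by
      rw [he, er, sc_sub, sc_sub, sc_P, show -κ + n = n - κ by ring]
    have h2 := P_odd (n - κ)
    rw [h1]
    simp only [Prod.fst_sub, Prod.snd_sub]
    omega
  have henum := enum2 e.1 e.2 hpar b1 b2
  have fin : ∀ (j : ℤ) (b : Bool), -2 ≤ j → j ≤ 1 → e = tm (j, b) → ∃ j, Stt n M κ j := by
    intro j b h1 h2 h3
    refine ⟨j, h1, h2, b, ?_⟩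
    rw [hback, h3]
    cases b <;> simp [tm, sc_P, sc_neg]
  have hfst : ∀ x : Z2, x.1 = e.1 → x.2 = e.2 → e = x := fun x h1 h2 => (Prod.ext h1 h2).symm
  rcases henum with h | h | h | h | h | h | h | h
  · exact fin 0 true (by norm_num) (by norm_num) (hfst _ (by rw [h.1]; decide) (by rw [h.2]; decide))
  · exact fin 0 false (by norm_num) (by norm_num) (hfst _ (by rw [h.1]; decide) (by rw [h.2]; decide))
  · exact fin 1 true (by norm_num) (by norm_num) (hfst _ (by rw [h.1]; decide) (by rw [h.2]; decide))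
  · exact fin 1 false (by norm_num) (by norm_num) (hfst _ (by rw [h.1]; decide) (by rw [h.2]; decide))
  · exact fin (-1) true (by norm_num) (by norm_num) (hfst _ (by rw [h.1]; decide) (by rw [h.2]; decide))
  · exact fin (-1) false (by norm_num) (by norm_num) (hfst _ (by rw [h.1]; decide) (by rw [h.2]; decide))
  · exact fin (-2) false (by norm_num) (by norm_num) (hfst _ (by rw [h.1]; decide) (by rw [h.2]; decide))
  · exact fin (-2) true (by norm_num) (by norm_num) (hfst _ (by rw [h.1]; decide) (by rw [h.2]; decide))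

theorem sc_tm (n k : ℤ) (b : Bool) : sc n (tm (k, b)) = tm (n + k, b) := by
  cases b <;> simp [tm, sc_P, sc_neg]

/-- the transition inequality. -/
theorem stt_step {n : ℤ} {M : Multiset (ℤ × Bool)} (hM : Good M) {κ j j' : ℤ}
    (h : Stt n M (κ + 1) j) (h' : Stt n M κ j') :
    (eqp κ M = 0 ∧ j' = j + 1) ∨ ((eqp κ M).card = 1 ∧ j ≤ j' + 2) := by
  obtain ⟨h1, h2, b, h3⟩ := h
  obtain ⟨h1', h2', b', h3'⟩ := h'
  rw [er_succ, h3] at h3'
  rcases hM.eqp_sm κ with h0 | ⟨c, h0⟩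
  · left
    refine ⟨h0, ?_⟩
    rw [h0, sm_zero, sub_zero, sub_zero] at h3'
    have := tm_inj h3'
    simp only [Prod.mk.injEq] at this
    omega
  · right
    refine ⟨by rw [h0]; simp, ?_⟩
    by_contra hlt
    push Not at hlt
    have hj : j = 1 := by omega
    have hj' : j' = -2 := by omega
    subst hj; subst hj'
    rw [h0, sm_single] at h3'
    have h4 := congrArg (sc (-κ)) h3'
    rw [sc_sub, sc_sub, sc_tm, sc_tm, sc_tm] at h4
    rw [show -κ + (κ + 1 + 1) = 2 by ring, show -κ + κ = 0 by ring,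
      show -κ + (κ + -2) = -2 by ring] at h4
    revert h4
    cases b <;> cases b' <;> cases c <;> decide

theorem card_up_succ (κ : ℤ) (M : Multiset (ℤ × Bool)) :
    (up κ M).card = (up (κ + 1) M).card + (eqp κ M).card := by
  conv_lhs => rw [up_succ, Multiset.card_add]

/-- **The weight of one half of a power of φ.** -/
theorem half_weight {n : ℤ} {y c0 : Z2} (h2y : y + y = P n + c0) (hc0 : |ph c0| ≤ 3.62)
    {m : ℕ} (h : Rep m y) : n ≤ 3 * m + 19 := by
  obtain ⟨M, hcard, hy, hM⟩ := good_exists h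
  by_contra hlt
  push Not at hlt
  have key : ∀ d : ℕ, (d : ℤ) ≤ n - 16 → ∀ j, Stt n M (n - 7 - d) j →
      (d : ℤ) ≤ 3 * (up (n - 7 - d) M).card + j + 2 := by
    intro d
    induction d with
    | zero =>
      intro _ j hj
      have := hj.1
      push_cast
      have h1 : (0 : ℤ) ≤ 3 * ((up (n - 7 - (0 : ℕ)) M).card : ℤ) := by positivity
      push_cast at h1
      omega
    | succ d ih =>
      intro hd j' hj'
      push_cast at hd hj' ⊢
      obtain ⟨j, hj⟩ := stt_exists hM hy h2y hc0 (κ := n - 7 - d) (by omega) (by omega)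
      have h1 := ih (by omega) j hj
      have e : n - 7 - (d : ℤ) = (n - 7 - (d + 1)) + 1 := by ring
      rw [e] at hj h1
      have h2 := card_up_succ (n - 7 - ((d : ℤ) + 1)) M
      rcases stt_step hM hj hj' with ⟨h3, h4⟩ | ⟨h3, h4⟩
      · rw [h3, Multiset.card_zero] at h2
        rw [h2]
        push_cast
        omega
      · rw [h3] at h2
        rw [h2]
        push_cast
        omega
  obtain ⟨d, hd⟩ : ∃ d : ℕ, (d : ℤ) = n - 16 := ⟨(n - 16).toNat, by
    rw [Int.toNat_of_nonneg]; omega⟩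
  obtain ⟨j, hj⟩ := stt_exists hM hy h2y hc0 (κ := n - 7 - d) (by omega) (by omega)
  have h1 := key d (by omega) j hj
  have h2 : (up (n - 7 - d) M).card ≤ M.card := Multiset.card_le_card (Multiset.filter_le _ _)
  have h3 := hj.2.1
  have h4 : ((up (n - 7 - d) M).card : ℤ) ≤ m := by exact_mod_cast h2.trans hcard
  omega

end Pool.Agent.Q266.FP
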