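import Pool.Agent.Q266.FP6

/-!
# The Fibonacci word and the positions in Z[φ]
-/

namespace Pool.Agent.Q266.FW

/-- the morphism `a ↦ ab`, `b ↦ a` (`a` is `true`). -/
def sub (c : Bool) : List Bool := if c then [true, false] else [true]

/-- the iterates of the morphism on the word `a`. -/
def W : ℕ → List Bool
  | 0 => [true]
  | k + 1 => (W k).flatMap sub

/-- the Fibonacci word. -/
def fw (n : ℕ) : Bool := (W n).getD n false

theorem W_prefix_succ (k : ℕ) : W k <+: W (k + 1) := by
  induction k with
  | zero => exact ⟨[false], rfl⟩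
  | succ k ih =>
    obtain ⟨t, ht⟩ := ih
    refine ⟨t.flatMap sub, ?_⟩
    change (W k).flatMap sub ++ t.flatMap sub = (W (k + 1)).flatMap sub
    rw [← ht, List.flatMap_append]

theorem W_prefix {j k : ℕ} (h : j ≤ k) : W j <+: W k := by
  induction k, h using Nat.le_induction with
  | base => exact List.prefix_refl _
  | succ k _ ih => exact ih.trans (W_prefix_succ k)

theorem length_flatMap_sub (l : List Bool) : (l.flatMap sub).length = l.length + l.count true := by
  induction l with
  | nil => simp
  | cons c l ih =>
    rw [List.flatMap_cons, List.length_append, ih]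
    cases c <;> simp [sub] <;> omega

theorem W_head (k : ℕ) : [true] <+: W k := W_prefix (Nat.zero_le k)

theorem count_W_pos (k : ℕ) : 1 ≤ (W k).count true := by
  obtain ⟨t, ht⟩ := W_head k
  rw [← ht]; simp

theorem length_W (k : ℕ) : k + 1 ≤ (W k).length := by
  induction k with
  | zero => simp [W]
  | succ k ih =>
    change k + 1 + 1 ≤ ((W k).flatMap sub).length
    rw [length_flatMap_sub]
    have := count_W_pos k
    omega

theorem fw_eq {n k : ℕ} (h : n < (W k).length) : (W k)[n]? = some (fw n) := by
  have key : ∀ j k : ℕ, j ≤ k → n < (W j).length → (W k)[n]? = (W j)[n]? := by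
    intro j k hjk hn
    obtain ⟨t, ht⟩ := W_prefix hjk
    rw [← ht, List.getElem?_append_left hn]
  have hn : n < (W n).length := length_W n
  have h1 : (W n)[n]? = some (fw n) := by
    unfold fw
    rw [List.getD_eq_getElem?_getD, List.getElem?_eq_getElem hn]
    simp
  rw [← h1]
  rcases le_total k n with h2 | h2
  · exact (key k n h2 h).symm
  · exact key n k h2 hn

/-- the prefix of length `n`. -/
def pf (n : ℕ) : List Bool := (List.range n).map fw

theorem pf_succ (n : ℕ) : pf (n + 1) = pf n ++ [fw n] := by
  unfold pf
  rw [List.range_succ, List.map_append]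
  rfl

theorem length_pf (n : ℕ) : (pf n).length = n := by simp [pf]

theorem pf_getElem? {n i : ℕ} (h : i < n) : (pf n)[i]? = some (fw i) := by
  unfold pf
  rw [List.getElem?_map, List.getElem?_range h]
  rfl

theorem pf_eq_take {n k : ℕ} (h : n ≤ (W k).length) : pf n = (W k).take n := by
  apply List.ext_getElem?
  intro i
  rcases Nat.lt_or_ge i n with hi | hi
  · rw [pf_getElem? hi, List.getElem?_take_of_lt hi, fw_eq (by omega)]
  · rw [List.getElem?_eq_none (by rw [length_pf]; exact hi),
      List.getElem?_eq_none (by rw [List.length_take]; omega)]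

/-- the image of the position `n` under the morphism. -/
def g (n : ℕ) : ℕ := ((pf n).flatMap sub).length

theorem pf_flatMap (n : ℕ) : (pf n).flatMap sub = pf (g n) := by
  have h1 : n ≤ (W n).length := by have := length_W n; omega
  obtain ⟨t, ht⟩ := List.take_prefix n (W n)
  have h2 : (pf n).flatMap sub ++ t.flatMap sub = W (n + 1) := by
    rw [pf_eq_take h1]
    change _ = (W n).flatMap sub
    conv_rhs => rw [← ht]
    rw [List.flatMap_append]
  have h3 : g n ≤ (W (n + 1)).length := by
    rw [← h2, List.length_append]; unfold g; omega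
  rw [pf_eq_take h3, ← h2]
  unfold g
  rw [List.take_left']
  rfl

theorem g_zero : g 0 = 0 := rfl

theorem pf_g_succ (n : ℕ) : pf (g (n + 1)) = pf (g n) ++ sub (fw n) := by
  rw [← pf_flatMap, ← pf_flatMap, pf_succ, List.flatMap_append]
  simp

theorem g_succ (n : ℕ) : g (n + 1) = g n + (if fw n then 2 else 1) := by
  have h := congrArg List.length (pf_g_succ n)
  rw [length_pf, List.length_append, length_pf] at h
  rw [h]
  cases fw n <;> simp [sub]

theorem g_lt_succ (n : ℕ) : g n < g (n + 1) := by
  rw [g_succ]; split_ifs <;> omega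

theorem g_strictMono : StrictMono g := strictMono_nat_of_lt_succ g_lt_succ

theorem le_g (n : ℕ) : n ≤ g n := g_strictMono.le_apply

/-- the letter at a block start is `a`. -/
theorem fw_g (n : ℕ) : fw (g n) = true := by
  have h := congrArg (fun l => l[g n]?) (pf_g_succ n)
  rw [pf_getElem? (g_lt_succ n), List.getElem?_append_right (by rw [length_pf]), length_pf,
    Nat.sub_self] at h
  unfold sub at h
  split_ifs at h <;> simpa using h

/-- the second letter of a block. -/
theorem fw_g_add_one {n : ℕ} (hn : fw n = true) : fw (g n + 1) = false := by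
  have h := congrArg (fun l => l[g n + 1]?) (pf_g_succ n)
  have h1 : g n + 1 < g (n + 1) := by rw [g_succ, hn]; simp
  rw [pf_getElem? h1, List.getElem?_append_right (by rw [length_pf]; omega), length_pf,
    show g n + 1 - g n = 1 by omega, hn] at h
  simpa [sub] using h

/-- every index is a block start or the second letter of a block. -/
theorem index_cases (i : ℕ) : (∃ n, i = g n) ∨ (∃ n, i = g n + 1 ∧ fw n = true) := by
  induction i with
  | zero => exact Or.inl ⟨0, rfl⟩
  | succ i ih =>
    rcases ih with ⟨n, hn⟩ | ⟨n, hn, h1⟩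
    · by_cases h : fw n = true
      · exact Or.inr ⟨n, by omega, h⟩
      · left
        refine ⟨n + 1, ?_⟩
        rw [g_succ, if_neg h, hn]
    · left
      refine ⟨n + 1, ?_⟩
      rw [g_succ, if_pos h1, hn]

theorem fw_true_iff (i : ℕ) : fw i = true ↔ ∃ n, i = g n := by
  constructor
  · intro h
    rcases index_cases i with h1 | ⟨n, h1, h2⟩
    · exact h1
    · rw [h1, fw_g_add_one h2] at h
      simp at h
  · rintro ⟨n, rfl⟩
    exact fw_g n

theorem fw_false {i : ℕ} (h : fw i = false) : ∃ n, i = g n + 1 ∧ fw n = true := by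
  rcases index_cases i with ⟨n, h1⟩ | h1
  · rw [h1, fw_g] at h
    simp at h
  · exact h1

/-! ## positions -/

open Pool.Agent.Q266.FP

/-- the letter as an element of Z[φ]. -/
def lt (c : Bool) : Z2 := if c then P 1 else P 0

/-- the position `n` as an element of Z[φ]. -/
def z : ℕ → Z2
  | 0 => 0
  | n + 1 => z n + lt (fw n)

theorem z_succ (n : ℕ) : z (n + 1) = z n + lt (fw n) := rfl

theorem z_index (n : ℕ) : (z n).1 + (z n).2 = n := by
  induction n with
  | zero => rfl
  | succ n ih =>
    rw [z_succ, Prod.fst_add, Prod.snd_add]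
    have : (lt (fw n)).1 + (lt (fw n)).2 = 1 := by
      cases fw n <;> decide
    push_cast
    omega

theorem z_g (n : ℕ) : z (g n) = sc 1 (z n) := by
  induction n with
  | zero => rw [g_zero]; exact (sc_of_zero 1).symm
  | succ n ih =>
    rw [g_succ, z_succ, sc_add, ← ih]
    cases h : fw n
    · simp only [Bool.false_eq_true, if_false]
      rw [z_succ, fw_g]
      congr 1
    · simp only [if_true]
      rw [show g n + 2 = (g n + 1) + 1 by ring, z_succ, z_succ, fw_g, fw_g_add_one h, add_assoc]
      congr 1

theorem ph_lt_pos (c : Bool) : 1 ≤ ph (lt c) := by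
  have := gr_one_lt
  cases c
  · simp [lt, ph_P]
  · simp [lt, ph_P]; exact this.le

theorem ph_z_mono {i j : ℕ} (h : i ≤ j) : ph (z i) ≤ ph (z j) := by
  induction j, h using Nat.le_induction with
  | base => exact le_refl _
  | succ j _ ih =>
    rw [z_succ, ph_add]
    have := ph_lt_pos (fw j)
    linarith

theorem ph_z_strictMono {i j : ℕ} (h : i < j) : ph (z i) < ph (z j) := by
  have h1 := ph_z_mono (show i + 1 ≤ j from h)
  rw [z_succ, ph_add] at h1
  have := ph_lt_pos (fw i)
  linarith

theorem ph_z_le_iff {i j : ℕ} : ph (z i) ≤ ph (z j) ↔ i ≤ j := by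
  constructor
  · intro h
    by_contra hlt
    push Not at hlt
    have := ph_z_strictMono hlt
    linarith
  · exact ph_z_mono

/-- the window. -/
theorem cj_z (n : ℕ) : -1 < cj (z n) ∧ cj (z n) < gr - 1 := by
  induction n using Nat.strong_induction_on with
  | _ n ih =>
    have g1 := gr_gt
    have g2 := gr_lt
    rcases index_cases n with ⟨m, hm⟩ | ⟨m, hm, hf⟩
    · rcases Nat.eq_zero_or_pos m with h0 | h0
      · subst h0
        rw [g_zero] at hm
        subst hm
        have : cj (z 0) = 0 := cj_zero
        rw [this]
        constructor <;> linarith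
      · have hlt : m < g m := by
          have h1 := g_strictMono h0
          have h2 : ∀ k : ℕ, 1 ≤ k → k < g k := by
            intro k hk
            induction k, hk using Nat.le_induction with
            | base => decide
            | succ k _ ih => have := g_lt_succ k; omega
          exact h2 m h0
        have h3 := ih m (by omega)
        rw [hm, z_g, cj_sc, zpow_one]
        have h4 := gr_sq
        constructor <;> nlinarith
    · have hlt : m < g m + 1 := by have := le_g m; omega
      have h3 := ih m (by omega)
      rw [hm, z_succ, fw_g, z_g, cj_add, cj_sc, zpow_one]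
      have : cj (lt true) = 1 - gr := by simp [lt, cj_P]
      rw [this]
      have h4 := gr_sq
      constructor <;> nlinarith

/-- completeness of the window. -/
theorem z_of_window {x : Z2} {n : ℕ} (hx : x.1 + x.2 = n) (h1 : -1 < cj x) (h2 : cj x < gr - 1) :
    x = z n := by
  obtain ⟨h3, h4⟩ := cj_z n
  have h5 := z_index n
  have h6 : cj x - cj (z n) = -((x.1 - (z n).1 : ℤ) : ℝ) * gr := by
    have : ((x.2 : ℤ) : ℝ) = (z n).1 + (z n).2 - x.1 := by
      have : x.2 = (z n).1 + (z n).2 - x.1 := by omega
      exact_mod_cast this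
    unfold cj
    rw [this]
    push_cast
    ring
  have g1 := gr_gt
  have h7 : x.1 - (z n).1 = 0 := by
    by_contra hne
    rcases lt_or_gt_of_ne hne with h | h
    · have : ((x.1 - (z n).1 : ℤ) : ℝ) ≤ -1 := by exact_mod_cast (by omega : x.1 - (z n).1 ≤ -1)
      nlinarith
    · have : (1 : ℝ) ≤ ((x.1 - (z n).1 : ℤ) : ℝ) := by
        exact_mod_cast (by omega : 1 ≤ x.1 - (z n).1)
      nlinarith
  ext <;> omega

theorem fw_z {n : ℕ} : z (n + 1) = z n + lt (fw n) := rfl

end Pool.Agent.Q266.FW
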