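import Pool.Agent.Q266.FW1

/-!
# Palindromic factors of the Fibonacci word
-/

namespace Pool.Agent.Q266.FW

open Pool.Agent.Q266.FP

/-- the factor between the positions `i` and `j` is a palindrome. -/
def Pal (i j : ℕ) : Prop := ∀ t, i ≤ t → t < j → fw t = fw (i + j - 1 - t)

theorem Pal_self (i : ℕ) : Pal i i := fun t h1 h2 => absurd h2 (by omega)

theorem Pal_one (i : ℕ) : Pal i (i + 1) := by
  intro t h1 h2
  rw [show i + (i + 1) - 1 - t = t by omega]

theorem Pal_ext {i j : ℕ} (h : i + 2 ≤ j) : Pal i j ↔ fw i = fw (j - 1) ∧ Pal (i + 1) (j - 1) := by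
  constructor
  · intro hp
    refine ⟨?_, ?_⟩
    · have := hp i (le_refl _) (by omega)
      rwa [show i + j - 1 - i = j - 1 by omega] at this
    · intro t h1 h2
      have := hp t (by omega) (by omega)
      rwa [show i + j - 1 - t = i + 1 + (j - 1) - 1 - t by omega] at this
  · rintro ⟨h1, h2⟩ t h3 h4
    rcases Nat.eq_or_lt_of_le h3 with h5 | h5
    · rw [← h5, show i + j - 1 - i = j - 1 by omega]; exact h1
    · rcases Nat.lt_or_ge t (j - 1) with h6 | h6
      · have := h2 t (by omega) h6
        rwa [show i + 1 + (j - 1) - 1 - t = i + j - 1 - t by omega] at this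
      · have h7 : t = j - 1 := by omega
        rw [h7, show i + j - 1 - (j - 1) = i by omega]; exact h1.symm

theorem Pal_concentric {i j p q : ℕ} (h : Pal i j) (h1 : i ≤ p) (h2 : p + q = i + j) : Pal p q := by
  intro t h3 h4
  have := h t (by omega) (by omega)
  rwa [← h2] at this

theorem g_pred {j : ℕ} (hj : 1 ≤ j) : g j = g (j - 1) + (if fw (j - 1) then 2 else 1) := by
  have := g_succ (j - 1)
  rwa [show j - 1 + 1 = j by omega] at this

/-- the image of a palindrome, followed by `a`, is a palindrome. -/
theorem Pal_E1 (n : ℕ) : ∀ i j : ℕ, j = i + n → Pal i j → Pal (g i) (g j + 1) := by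
  induction n using Nat.strong_induction_on with
  | _ n ih =>
    intro i j hn hp
    rcases Nat.lt_or_ge n 2 with h2 | h2
    · interval_cases n
      · rw [hn]; exact Pal_one _
      · rw [hn, g_succ]
        cases hf : fw i
        · simp only [Bool.false_eq_true, if_false]
          rw [Pal_ext (by omega)]
          refine ⟨?_, ?_⟩
          · have h3 : g i + 1 = g (i + 1) := by rw [g_succ, hf]; simp
            rw [show g i + 1 + 1 - 1 = g (i + 1) by omega, fw_g, fw_g]
          · exact Pal_self _
        · simp only [if_true]
          rw [Pal_ext (by omega)]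
          refine ⟨?_, ?_⟩
          · have h3 : g i + 2 = g (i + 1) := by rw [g_succ, hf]; simp
            rw [show g i + 2 + 1 - 1 = g (i + 1) by omega, fw_g, fw_g]
          · exact Pal_one _
    · obtain ⟨h3, h4⟩ := (Pal_ext (by omega)).mp hp
      have h5 := ih (n - 2) (by omega) (i + 1) (j - 1) (by omega) h4
      have h6 := g_succ i
      have h7 := g_pred (j := j) (by omega)
      have h8 := g_strictMono.monotone (show i + 1 ≤ j - 1 by omega)
      cases hf : fw i
      · rw [hf] at h6
        rw [← h3, hf] at h7
        simp only [Bool.false_eq_true, if_false] at h6 h7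
        rw [Pal_ext (by omega)]
        refine ⟨?_, ?_⟩
        · rw [show g j + 1 - 1 = g j by omega, fw_g, fw_g]
        · rw [← h6, show g j + 1 - 1 = g (j - 1) + 1 by omega]
          exact h5
      · rw [hf] at h6
        have hf' : fw (j - 1) = true := by rw [← h3, hf]
        rw [hf'] at h7
        simp only [if_true] at h6 h7
        rw [Pal_ext (by omega)]
        refine ⟨?_, ?_⟩
        · rw [show g j + 1 - 1 = g j by omega, fw_g, fw_g]
        · rw [Pal_ext (by omega)]
          refine ⟨?_, ?_⟩
          · rw [show g j + 1 - 1 - 1 = g (j - 1) + 1 by omega, fw_g_add_one hf,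
              fw_g_add_one hf']
          · rw [show g i + 1 + 1 = g (i + 1) by omega,
              show g j + 1 - 1 - 1 = g (j - 1) + 1 by omega]
            exact h5

/-- converse. -/
theorem Pal_E1_inv (n : ℕ) : ∀ i j : ℕ, j = i + n → Pal (g i) (g j + 1) → Pal i j := by
  induction n using Nat.strong_induction_on with
  | _ n ih =>
    intro i j hn hp
    rcases Nat.lt_or_ge n 2 with h2 | h2
    · interval_cases n
      · rw [hn]; exact Pal_self _
      · rw [hn]; exact Pal_one _
    · have h6 := g_succ i
      have h7 := g_pred (j := j) (by omega)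
      have h8 := g_strictMono.monotone (show i + 1 ≤ j - 1 by omega)
      have hgi : g i + 1 ≤ g (i + 1) := g_lt_succ i
      have hgj : g (j - 1) + 1 ≤ g j := by rw [h7]; split_ifs <;> omega
      obtain ⟨_, hp1⟩ := (Pal_ext (by omega)).mp hp
      rw [show g j + 1 - 1 = g j by omega] at hp1
      have hlet : fw (g i + 1) = fw (g j - 1) := by
        have := hp1 (g i + 1) (le_refl _) (by omega)
        rwa [show g i + 1 + g j - 1 - (g i + 1) = g j - 1 by omega] at this
      rw [Pal_ext (by omega)]
      cases hf : fw i
      · rw [hf] at h6
        simp only [Bool.false_eq_true, if_false] at h6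
        have h9 : fw (g j - 1) = true := by rw [← hlet, ← h6, fw_g]
        have h10 : fw (j - 1) = false := by
          by_contra hne
          have hne' : fw (j - 1) = true := by simpa using hne
          rw [hne'] at h7
          simp only [if_true] at h7
          rw [show g j - 1 = g (j - 1) + 1 by omega, fw_g_add_one hne'] at h9
          simp at h9
        rw [h10] at h7
        simp only [Bool.false_eq_true, if_false] at h7
        refine ⟨by rw [h10], ih (n - 2) (by omega) (i + 1) (j - 1) (by omega) ?_⟩
        rw [h6, show g (j - 1) + 1 = g j by omega]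
        exact hp1
      · rw [hf] at h6
        simp only [if_true] at h6
        have h9 : fw (g j - 1) = false := by rw [← hlet, fw_g_add_one hf]
        have h10 : fw (j - 1) = true := by
          by_contra hne
          have hne' : fw (j - 1) = false := by simpa using hne
          rw [hne'] at h7
          simp only [Bool.false_eq_true, if_false] at h7
          rw [show g j - 1 = g (j - 1) by omega, fw_g] at h9
          simp at h9
        rw [h10] at h7
        simp only [if_true] at h7
        refine ⟨by rw [h10], ih (n - 2) (by omega) (i + 1) (j - 1) (by omega) ?_⟩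
        obtain ⟨_, hp2⟩ := (Pal_ext (by omega)).mp hp1
        rw [h6, show g i + 2 = g i + 1 + 1 by ring, show g (j - 1) + 1 = g j - 1 by omega]
        exact hp2

/-- iterated image of positions. -/
theorem z_iter (t n : ℕ) : z (g^[t] n) = sc t (z n) := by
  induction t with
  | zero => simp [sc_zero']
  | succ t ih =>
    rw [Function.iterate_succ_apply', z_g, ih, sc_sc]
    push_cast
    rw [add_comm]

theorem iter_mono (t : ℕ) : Monotone (g^[t]) := g_strictMono.monotone.iterate t

/-- **Structure of palindromic factors.** -/
theorem Pal_structure (l : ℕ) : ∀ i j : ℕ, j = i + l → 1 ≤ l → Pal i j →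
    ∃ t n : ℕ, z i + z j + P 2 = sc t (z n + z n + P 2) ∧ g^[t] n ≤ i := by
  induction l using Nat.strong_induction_on with
  | _ l ih =>
    -- the lifting of the structure by one level
    have lift : ∀ i j : ℕ, (∃ t n : ℕ, z i + z j + P 2 = sc t (z n + z n + P 2) ∧ g^[t] n ≤ i) →
        ∃ t n : ℕ, z (g i) + z (g j + 1) + P 2 = sc t (z n + z n + P 2) ∧ g^[t] n ≤ g i := by
      rintro i j ⟨t, n, h1, h2⟩
      refine ⟨t + 1, n, ?_, ?_⟩
      · rw [z_succ, fw_g, z_g, z_g]
        have h3 : sc 1 (z i) + (sc 1 (z j) + lt true) + P 2 = sc 1 (z i + z j + P 2) := by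
          rw [sc_add, sc_add, sc_P]
          have : P (1 + 2) = lt true + P 2 := by decide
          rw [this]; abel
        rw [h3, h1, sc_sc]
        push_cast
        rw [add_comm]
      · rw [Function.iterate_succ_apply']
        exact g_strictMono.monotone h2
    have base : ∀ i : ℕ, ∃ t n : ℕ, z i + z i + P 2 = sc t (z n + z n + P 2) ∧ g^[t] n ≤ i :=
      fun i => ⟨0, i, by push_cast; rw [sc_zero'], le_refl _⟩
    intro i j hl hl1 hp
    -- both letters
    have hends : fw i = fw (j - 1) := by
      have := hp i (le_refl _) (by omega)
      rwa [show i + j - 1 - i = j - 1 by omega] at this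
    cases hf : fw i
    · -- starts with `b`
      obtain ⟨m, hm, hfm⟩ := fw_false hf
      obtain ⟨m', hm', hfm'⟩ := fw_false (by rw [← hends, hf] : fw (j - 1) = false)
      have hgm' : g (m' + 1) = g m' + 2 := by rw [g_succ, hfm']; simp
      have hj : j = g (m' + 1) := by omega
      have hmm' : m ≤ m' := by
        by_contra hlt
        push Not at hlt
        have := g_strictMono hlt
        omega
      have hext : Pal (g m) (g (m' + 1) + 1) := by
        rw [Pal_ext (by omega)]
        refine ⟨?_, ?_⟩
        · rw [show g (m' + 1) + 1 - 1 = g (m' + 1) by omega, fw_g, fw_g]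
        · rw [← hm, show g (m' + 1) + 1 - 1 = j by omega]
          exact hp
      have hinv := Pal_E1_inv (m' + 1 - m) m (m' + 1) (by omega) hext
      have hsum : z (g m) + z (g (m' + 1) + 1) = z i + z j := by
        rw [hm, z_succ, z_succ, fw_g, fw_g, hj]
        abel
      -- structure for `(m, m'+1)`
      have hstr : ∃ t n : ℕ, z m + z (m' + 1) + P 2 = sc t (z n + z n + P 2) ∧ g^[t] n ≤ m := by
        rcases Nat.lt_or_ge m m' with h1 | h1
        · -- at least two letters
          apply ih (m' + 1 - m) _ m (m' + 1) (by omega) (by omega) hinv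
          -- lengths
          have h2 : g (m + 1) = g m + 2 := by rw [g_succ, hfm]; simp
          have h3 : ∀ a b : ℕ, a ≤ b → b - a ≤ g b - g a := by
            intro a b hab
            induction b, hab using Nat.le_induction with
            | base => simp
            | succ b hab ih =>
              have := g_lt_succ b
              have := g_strictMono.monotone hab
              omega
          have h4 := h3 (m + 1) m' (by omega)
          have h5 := g_strictMono.monotone (show m + 1 ≤ m' by omega)
          omega
        · have h2 : m' = m := by omega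
          subst h2
          obtain ⟨m1, hm1⟩ := (fw_true_iff m').mp hfm
          have h3 : z m' + z (m' + 1) = z (g m1) + z (g m1 + 1) := by rw [← hm1]
          rw [h3]
          obtain ⟨t, n, h4, h5⟩ := lift m1 m1 (base m1)
          exact ⟨t, n, h4, by rw [hm1]; exact h5⟩
      obtain ⟨t, n, h1, h2⟩ := lift m (m' + 1) hstr
      rw [hsum] at h1
      exact ⟨t, n, h1, by omega⟩
    · -- starts with `a`
      obtain ⟨m, hm⟩ := (fw_true_iff i).mp hf
      obtain ⟨m', hm'⟩ := (fw_true_iff (j - 1)).mp (by rw [← hends, hf])
      have hj : j = g m' + 1 := by omega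
      have hmm' : m ≤ m' := by
        by_contra hlt
        push Not at hlt
        have := g_strictMono hlt
        omega
      have hinv := Pal_E1_inv (m' - m) m m' (by omega) (by rw [← hm, ← hj]; exact hp)
      rw [hm, hj]
      apply lift
      rcases Nat.eq_or_lt_of_le hmm' with h1 | h1
      · rw [← h1]; exact base m
      · apply ih (m' - m) _ m m' (by omega) (by omega) hinv
        have h3 : ∀ a b : ℕ, a ≤ b → b - a ≤ g b - g a := by
          intro a b hab
          induction b, hab using Nat.le_induction with
          | base => simp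
          | succ b hab ih =>
            have := g_lt_succ b
            have := g_strictMono.monotone hab
            omega
        have h4 := h3 m m' hmm'
        have h5 := g_strictMono.monotone hmm'
        omega

/-- the central words at the block boundaries. -/
theorem Pal_central (t n : ℕ) : ∃ j, g^[t] n ≤ j ∧ z j = sc t (z n) + P (t + 2) - P 2 ∧
    Pal (g^[t] n) j := by
  induction t with
  | zero =>
    refine ⟨n, le_refl _, ?_, Pal_self _⟩
    push_cast
    rw [sc_zero']
    simp
  | succ t ih =>
    obtain ⟨j, h1, h2, h3⟩ := ih
    refine ⟨g j + 1, ?_, ?_, ?_⟩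
    · rw [Function.iterate_succ_apply']
      have := g_strictMono.monotone h1
      omega
    · rw [z_succ, fw_g, z_g, h2, sc_sub, sc_add, sc_sc, sc_P, sc_P]
      push_cast
      rw [show 1 + (t : ℤ) = t + 1 by ring, show 1 + ((t : ℤ) + 2) = t + 1 + 2 by ring]
      have : P 3 = lt true + P 2 := by decide
      rw [this]; abel
    · rw [Function.iterate_succ_apply']
      exact Pal_E1 (j - g^[t] n) _ _ (by omega) h3

/-- **Palindromes from central words.** -/
theorem Pal_of_sum {p q t n : ℕ} (h : z p + z q + P 2 = sc t (z n + z n + P 2))
    (hp : g^[t] n ≤ p) : Pal p q := by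
  obtain ⟨j, h1, h2, h3⟩ := Pal_central t n
  apply Pal_concentric h3 hp
  have h4 : z p + z q = z (g^[t] n) + z j := by
    rw [z_iter, h2]
    have : z p + z q = sc t (z n + z n + P 2) - P 2 := by rw [← h]; abel
    rw [this, sc_add, sc_add, sc_P]; abel
  have h5 := congrArg (fun x : Z2 => x.1 + x.2) h4
  simp only [Prod.fst_add, Prod.snd_add] at h5
  have i1 := z_index p
  have i2 := z_index q
  have i3 := z_index (g^[t] n)
  have i4 := z_index j
  have : (p : ℤ) + q = g^[t] n + j := by linarith
  exact_mod_cast this

end Pool.Agent.Q266.FW
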