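import Pool.Agent.Q266.FW2

/-!
# Prefix palindromic length
-/

namespace Pool.Agent.Q266.FW

/-- palindromes are non-empty words equal to their reversal. -/
def IsPal (p : List Bool) : Prop := p ≠ [] ∧ p.reverse = p

/-- the prefix palindromic length of the Fibonacci word. -/
noncomputable def PPL (n : ℕ) : ℕ :=
  sInf {k | ∃ L : List (List Bool), L.length = k ∧ (∀ p ∈ L, IsPal p) ∧ L.flatten = pf n}

/-- decompositions. -/
inductive Dec : ℕ → ℕ → Prop
  | zero : Dec 0 0
  | step {k i j : ℕ} : Dec k i → i < j → Pal i j → Dec (k + 1) j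

theorem drop_getElem? {i j t : ℕ} (h : t < j - i) : ((pf j).drop i)[t]? = some (fw (i + t)) := by
  rw [List.getElem?_drop, pf_getElem? (by omega)]

theorem length_drop' (i j : ℕ) : ((pf j).drop i).length = j - i := by
  rw [List.length_drop, length_pf]

theorem pal_iff {i j : ℕ} : ((pf j).drop i).reverse = (pf j).drop i ↔ Pal i j := by
  constructor
  · intro h t h1 h2
    have h3 := congrArg (fun l => l[t - i]?) h
    have h4 : ((pf j).drop i).reverse[t - i]? = some (fw (i + j - 1 - t)) := by
      rw [List.getElem?_reverse (by rw [length_drop']; omega), length_drop',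
        drop_getElem? (by omega)]
      congr 2
      omega
    have h5 : ((pf j).drop i)[t - i]? = some (fw t) := by
      rw [drop_getElem? (by omega)]
      congr 2
      omega
    simp only [h4, h5, Option.some.injEq] at h3
    exact h3.symm
  · intro h
    apply List.ext_getElem?
    intro t
    rcases Nat.lt_or_ge t (j - i) with h1 | h1
    · rw [List.getElem?_reverse (by rw [length_drop']; exact h1), length_drop',
        drop_getElem? (by omega), drop_getElem? h1]
      have := h (i + t) (by omega) (by omega)
      rw [this]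
      congr 2
      omega
    · rw [List.getElem?_eq_none (by rw [List.length_reverse, length_drop']; exact h1),
        List.getElem?_eq_none (by rw [length_drop']; exact h1)]

theorem pf_take {i j : ℕ} (h : i ≤ j) : (pf j).take i = pf i := by
  apply List.ext_getElem?
  intro t
  rcases Nat.lt_or_ge t i with h1 | h1
  · rw [List.getElem?_take_of_lt h1, pf_getElem? (by omega), pf_getElem? h1]
  · rw [List.getElem?_eq_none (by rw [List.length_take]; omega),
      List.getElem?_eq_none (by rw [length_pf]; exact h1)]

theorem Dec.list {k n : ℕ} (h : Dec k n) :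
    ∃ L : List (List Bool), L.length = k ∧ (∀ p ∈ L, IsPal p) ∧ L.flatten = pf n := by
  induction h with
  | zero => exact ⟨[], rfl, by simp, rfl⟩
  | @step k i j _ hij hp ih =>
    obtain ⟨L, h1, h2, h3⟩ := ih
    refine ⟨L ++ [(pf j).drop i], by simp [h1], ?_, ?_⟩
    · intro p hp'
      rw [List.mem_append, List.mem_singleton] at hp'
      rcases hp' with h4 | h4
      · exact h2 p h4
      · rw [h4]
        refine ⟨?_, pal_iff.mpr hp⟩
        intro h5
        have := congrArg List.length h5
        rw [length_drop'] at this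
        simp at this
        omega
    · rw [List.flatten_append, h3]
      simp only [List.flatten_cons, List.flatten_nil, List.append_nil]
      rw [← pf_take hij.le, List.take_append_drop]

theorem Dec.of_list (L : List (List Bool)) : ∀ n, (∀ p ∈ L, IsPal p) → L.flatten = pf n →
    Dec L.length n := by
  induction L using List.reverseRecOn with
  | nil =>
    intro n _ h
    have := congrArg List.length h
    rw [length_pf] at this
    simp at this
    rw [← this]
    exact Dec.zero
  | append_singleton L p ih =>
    intro n h1 h2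
    rw [List.flatten_append] at h2
    simp only [List.flatten_cons, List.flatten_nil, List.append_nil] at h2
    set i := L.flatten.length with hi
    have h3 : i ≤ n := by
      have := congrArg List.length h2
      rw [length_pf, List.length_append] at this
      omega
    have h4 : L.flatten = pf i := by
      have := congrArg (fun l => l.take i) h2
      simp only [pf_take h3] at this
      rw [← this, hi, List.take_left']
      rfl
    have h5 : p = (pf n).drop i := by
      rw [← h2, hi, List.drop_left']
      rfl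
    have h6 := h1 p (by simp)
    have h7 : i < n := by
      by_contra hlt
      push Not at hlt
      apply h6.1
      rw [h5]
      apply List.eq_nil_of_length_eq_zero
      rw [length_drop']
      omega
    rw [List.length_append]
    refine Dec.step (ih i (fun q hq => h1 q (by simp [hq])) h4) h7 ?_
    rw [← pal_iff, ← h5]
    exact h6.2

theorem dec_self (n : ℕ) : Dec n n := by
  induction n with
  | zero => exact Dec.zero
  | succ n ih => exact Dec.step ih (by omega) (Pal_one n)

theorem PPL_le {k n : ℕ} (h : Dec k n) : PPL n ≤ k := Nat.sInf_le h.list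

theorem dec_PPL (n : ℕ) : Dec (PPL n) n := by
  have hne : {k | ∃ L : List (List Bool), L.length = k ∧ (∀ p ∈ L, IsPal p) ∧
      L.flatten = pf n}.Nonempty := ⟨n, (dec_self n).list⟩
  obtain ⟨L, h1, h2, h3⟩ := Nat.sInf_mem hne
  have := Dec.of_list L n h2 h3
  rw [h1] at this
  exact this

theorem Dec.lower {h : ℕ → ℕ} (h0 : h 0 = 0) (hs : ∀ i j, i < j → Pal i j → h j ≤ h i + 1)
    {k n : ℕ} (hd : Dec k n) : h n ≤ k := by
  induction hd with
  | zero => rw [h0]
  | step _ hij hp ih => exact (hs _ _ hij hp).trans (by omega)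

theorem PPL_zero : PPL 0 = 0 := Nat.le_zero.mp (PPL_le Dec.zero)

theorem PPL_lower {h : ℕ → ℕ} (h0 : h 0 = 0) (hs : ∀ i j, i < j → Pal i j → h j ≤ h i + 1)
    (n : ℕ) : h n ≤ PPL n := (dec_PPL n).lower h0 hs

theorem PPL_step {i j : ℕ} (hij : i < j) (h : Pal i j) : PPL j ≤ PPL i + 1 :=
  PPL_le ((dec_PPL i).step hij h)

/-- a palindromic suffix of a palindrome: the complement is a product of two palindromes. -/
theorem two_pal {m i j : ℕ} (hmi : m ≤ i) (hij : i ≤ j) (h1 : Pal m j) (h2 : Pal i j) :
    ∃ l, m ≤ l ∧ l ≤ i ∧ Pal m l ∧ Pal l i := by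
  rcases Nat.eq_or_lt_of_le hmi with h0 | h0
  · exact ⟨m, le_refl _, hmi, Pal_self m, by rw [← h0]; exact Pal_self m⟩
  obtain ⟨d, hd⟩ : ∃ d, i = m + d := ⟨i - m, by omega⟩
  have hd0 : 0 < d := by omega
  have hper : ∀ y, m ≤ y → y + d < j → fw y = fw (y + d) := by
    intro y hy1 hy2
    have e1 := h2 (y + d) (by omega) hy2
    have e2 := h1 (m + j - 1 - y) (by omega) (by omega)
    rw [show m + j - 1 - (m + j - 1 - y) = y by omega] at e2
    rw [show i + j - 1 - (y + d) = m + j - 1 - y by omega, e2] at e1
    exact e1.symm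
  have hmul : ∀ q y, m ≤ y → y + q * d < j → fw y = fw (y + q * d) := by
    intro q
    induction q with
    | zero => intro y _ _; simp
    | succ q ih =>
      intro y hy1 hy2
      rw [Nat.succ_mul] at hy2
      rw [ih y hy1 (by omega), hper (y + q * d) (by omega) (by omega)]
      congr 1
      ring
  set r := (j - m) % d with hr
  set q := (j - m) / d with hq
  have hdiv : q * d + r = j - m := by rw [mul_comm]; exact Nat.div_add_mod _ _
  have hrd : r < d := Nat.mod_lt _ hd0
  have hq1 : 1 ≤ q := by
    rw [hq]
    exact Nat.div_pos (by omega) hd0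
  refine ⟨m + r, by omega, by omega, ?_, ?_⟩
  · intro t ht1 ht2
    have e1 := h1 t ht1 (by omega)
    have e2 := hmul q (m + (m + r) - 1 - t) (by omega) (by omega)
    rw [e1, e2]
    congr 1
    omega
  · intro t ht1 ht2
    have e1 := h1 t (by omega) (by omega)
    obtain ⟨q', hq'⟩ : ∃ q', q = q' + 1 := ⟨q - 1, by omega⟩
    have hdiv' : q' * d + d + r = j - m := by
      rw [← hdiv, hq', Nat.succ_mul]
    have e2 := hmul q' (m + r + i - 1 - t) (by omega) (by omega)
    rw [e1, e2]
    congr 1
    omega

theorem Dec.ext {k m l : ℕ} (h : Dec k m) (hml : m ≤ l) (hp : Pal m l) :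
    ∃ k' ≤ k + 1, Dec k' l := by
  rcases Nat.eq_or_lt_of_le hml with h0 | h0
  · exact ⟨k, by omega, h0 ▸ h⟩
  · exact ⟨k + 1, le_refl _, h.step h0 hp⟩

/-- Saarela's inequality. -/
theorem Dec.back (j : ℕ) : ∀ k i, Dec k j → i ≤ j → Pal i j → ∃ k' ≤ k + 1, Dec k' i := by
  induction j using Nat.strong_induction_on with
  | _ j ih =>
    intro k i hd hij hp
    rcases Nat.eq_or_lt_of_le hij with h0 | h0
    · exact ⟨k, by omega, h0 ▸ hd⟩
    · cases hd with
      | zero => omega
      | @step k0 m _ hd hmj hpm =>
        rcases Nat.le_total m i with h1 | h1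
        · obtain ⟨l, h2, h3, h4, h5⟩ := two_pal h1 hij hpm hp
          obtain ⟨k1, hk1, hd1⟩ := hd.ext h2 h4
          obtain ⟨k2, hk2, hd2⟩ := hd1.ext h3 h5
          exact ⟨k2, by omega, hd2⟩
        · obtain ⟨l, h2, h3, h4, h5⟩ := two_pal h1 hmj.le hp hpm
          obtain ⟨k1, hk1, hd1⟩ := ih m hmj k0 l hd h3 h5
          obtain ⟨k2, hk2, hd2⟩ := ih l (by omega) k1 i hd1 h2 h4
          exact ⟨k2, by omega, hd2⟩

theorem PPL_back {i j : ℕ} (hij : i ≤ j) (h : Pal i j) : PPL i ≤ PPL j + 1 := by
  obtain ⟨k', h1, h2⟩ := Dec.back j (PPL j) i (dec_PPL j) hij h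
  exact (PPL_le h2).trans h1

/-- the palindromic steps are 1-Lipschitz. -/
theorem PPL_pal {i j : ℕ} (h : (i ≤ j ∧ Pal i j) ∨ (j ≤ i ∧ Pal j i)) : PPL j ≤ PPL i + 1 := by
  rcases h with ⟨h1, h⟩ | ⟨h1, h⟩
  · rcases Nat.eq_or_lt_of_le h1 with h2 | h2
    · rw [h2]; omega
    · exact PPL_step h2 h
  · exact PPL_back h1 h

end Pool.Agent.Q266.FW
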