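import Pool.Agent.Q266.FW3

/-!
# The lower bound
-/

namespace Pool.Agent.Q266.FW

open Pool.Agent.Q266.FP

theorem rep_exists (x : Z2) : ∃ m, Rep m x := by
  have hpos : ∀ (k : ℤ) (n : ℕ), ∃ m, Rep m ((n : ℤ) • P k) := by
    intro k n
    refine ⟨n, Multiset.replicate n (k, true), by simp, ?_⟩
    simp [sm, tm]
  have hz : ∀ (k a : ℤ), ∃ m, Rep m (a • P k) := by
    intro k a
    rcases Int.eq_nat_or_neg a with ⟨n, rfl | rfl⟩
    · exact hpos k n
    · obtain ⟨m, hm⟩ := hpos k n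
      refine ⟨m, ?_⟩
      have := hm.neg
      rwa [← neg_smul] at this
  obtain ⟨m1, M1, h1, h2⟩ := hz 1 x.1
  obtain ⟨m0, M0, h3, h4⟩ := hz 0 x.2
  refine ⟨m1 + m0, M1 + M0, by simp [h1, h3], ?_⟩
  rw [sm_add, h2, h4, P_one, P_zero]
  ext <;> simp

open Classical in
/-- the weight. -/
noncomputable def wt (x : Z2) : ℕ := Nat.find (rep_exists x)

theorem rep_wt (x : Z2) : Rep (wt x) x := by
  classical
  exact Nat.find_spec (rep_exists x)

theorem wt_le {m : ℕ} {x : Z2} (h : Rep m x) : wt x ≤ m := by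
  classical
  exact Nat.find_min' (rep_exists x) h

theorem wt_zero : wt 0 = 0 := Nat.le_zero.mp (wt_le ⟨0, rfl, sm_zero⟩)

/-- the potential. -/
noncomputable def pot (n : ℕ) : ℕ := min (wt (z n)) (wt (z n + P 2))

theorem pot_zero : pot 0 = 0 := by
  unfold pot
  have : z 0 = 0 := rfl
  rw [this, wt_zero]
  simp

theorem pot_step (i j : ℕ) (hij : i < j) (hp : Pal i j) : pot j ≤ pot i + 1 := by
  obtain ⟨t, n, h1, h2⟩ := Pal_structure (j - i) i j (by omega) (by omega) hp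
  have hw := cj_z n
  have g1 := gr_gt
  -- phase bounds
  have hP2 : ph (P 2) = gr ^ (2 : ℤ) := ph_P 2
  have hi : gr ^ (t : ℤ) * ph (z n) ≤ ph (z i) := by
    have := ph_z_mono h2
    rwa [z_iter, ph_sc] at this
  have hS : ph (z i) + ph (z j) + ph (P 2) = gr ^ (t : ℤ) * (2 * ph (z n) + gr ^ (2 : ℤ)) := by
    have := congrArg ph h1
    rw [ph_add, ph_add, ph_sc, ph_add, ph_add, hP2] at this
    rw [hP2, this]; ring
  have ht2 : gr ^ ((t : ℤ) + 2) = gr ^ (t : ℤ) * gr ^ (2 : ℤ) := zpow_add₀ gr_ne _ _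
  have hlt : ph (z i) < ph (z j) := ph_z_strictMono hij
  have hL : ph (z j) - ph (z i) ≤ gr ^ ((t : ℤ) + 2) - gr ^ (2 : ℤ) := by
    rw [ht2]; rw [hP2] at hS; nlinarith
  have hmono : gr ^ (2 : ℤ) ≤ gr ^ ((t : ℤ) + 2) := zmono (by omega)
  have c1 : |ph (sc t (z n + z n + P 2) - z i - z i)| ≤ gr ^ ((t : ℤ) + 2) := by
    have e : sc t (z n + z n + P 2) - z i - z i = z j - z i + P 2 := by rw [← h1]; abel
    rw [e, ph_add, ph_sub, hP2, abs_le]
    have := zpos 2
    constructor <;> linarith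
  have c2 : |ph (sc t (z n + z n + P 2) - (z i + P 2) - (z i + P 2))| ≤ gr ^ ((t : ℤ) + 2) := by
    have e : sc t (z n + z n + P 2) - (z i + P 2) - (z i + P 2) = z j - z i - P 2 := by
      rw [← h1]; abel
    rw [e, ph_sub, ph_sub, hP2, abs_le]
    have := zpos 2
    constructor <;> linarith
  obtain ⟨m1, hm1, hr1⟩ := rep_reflect t hw.1 hw.2 c1 (rep_wt (z i))
  obtain ⟨m2, hm2, hr2⟩ := rep_reflect t hw.1 hw.2 c2 (rep_wt (z i + P 2))
  have e1 : sc t (z n + z n + P 2) - z i = z j + P 2 := by rw [← h1]; abel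
  have e2 : sc t (z n + z n + P 2) - (z i + P 2) = z j := by rw [← h1]; abel
  rw [e1] at hr1
  rw [e2] at hr2
  have w1 := wt_le hr1
  have w2 := wt_le hr2
  unfold pot
  omega

theorem pot_le_PPL (n : ℕ) : pot n ≤ PPL n := PPL_lower pot_zero pot_step n

/-- the special positions `(φ^(3k+1) - φ)/2`. -/
def xs : ℕ → Z2
  | 0 => 0
  | k + 1 => xs k + P (3 * k + 2)

theorem xs_double (k : ℕ) : xs k + xs k = P (3 * k + 1) - P 1 := by
  induction k with
  | zero => decide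
  | succ k ih =>
    have e : xs (k + 1) + xs (k + 1) = (xs k + xs k) + (P (3 * k + 2) + P (3 * k + 2)) := by
      change xs k + P (3 * k + 2) + (xs k + P (3 * k + 2)) = _
      abel
    rw [e, ih]
    push_cast
    have r1 := P_rec (3 * (k : ℤ) + 1)
    have r2 := P_rec (3 * (k : ℤ) + 2)
    rw [show 3 * (k : ℤ) + 1 + 2 = 3 * k + 3 by ring, show 3 * (k : ℤ) + 1 + 1 = 3 * k + 2 by ring]
      at r1
    rw [show 3 * (k : ℤ) + 2 + 2 = 3 * (k + 1) + 1 by ring,
      show 3 * (k : ℤ) + 2 + 1 = 3 * k + 3 by ring] at r2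
    rw [r2, r1]; abel

theorem xs_index (k : ℕ) : 0 ≤ (xs k).1 + (xs k).2 := by
  induction k with
  | zero => decide
  | succ k ih =>
    change 0 ≤ (xs k + P (3 * k + 2)).1 + (xs k + P (3 * k + 2)).2
    rw [Prod.fst_add, Prod.snd_add]
    have h1 : 0 ≤ (P (3 * (k : ℤ) + 2)).1 := by
      change 0 ≤ Int.fib (3 * (k : ℤ) + 2)
      have : (3 * (k : ℤ) + 2) = ((3 * k + 2 : ℕ) : ℤ) := by push_cast; ring
      rw [this, Int.fib_natCast]; positivity
    have h2 : 0 ≤ (P (3 * (k : ℤ) + 2)).2 := by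
      change 0 ≤ Int.fib (3 * (k : ℤ) + 2 - 1)
      have : (3 * (k : ℤ) + 2 - 1) = ((3 * k + 1 : ℕ) : ℤ) := by push_cast; ring
      rw [this, Int.fib_natCast]; positivity
    omega

theorem xs_pos (k : ℕ) : ∃ n : ℕ, z n = xs k := by
  have g1 := gr_gt
  have g2 := gr_lt
  obtain ⟨n, hn⟩ : ∃ n : ℕ, (xs k).1 + (xs k).2 = n := ⟨((xs k).1 + (xs k).2).toNat, by
    rw [Int.toNat_of_nonneg (xs_index k)]⟩
  have hd := congrArg cj (xs_double k)
  rw [cj_add, cj_sub, cj_P, cj_P, zpow_one] at hd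
  have hk : (1 - gr) ^ (3 * (k : ℤ) + 1) < gr - 1 ∧ 1 - gr ≤ (1 - gr) ^ (3 * (k : ℤ) + 1) := by
    rcases Nat.eq_zero_or_pos k with h0 | h0
    · subst h0
      norm_num
      linarith
    · have h1 : |(1 - gr) ^ (3 * (k : ℤ) + 1)| ≤ gr ^ (-2 : ℤ) := by
        rw [psi_zpow]
        have h2 : gr ^ (-(3 * (k : ℤ) + 1)) ≤ gr ^ (-2 : ℤ) := zmono (by omega)
        split_ifs
        · rw [abs_of_pos (zpos _)]; exact h2
        · rw [abs_neg, abs_of_pos (zpos _)]; exact h2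
      have h3 : gr ^ (-2 : ℤ) = 2 - gr := by
        have := zrec (-1)
        have h4 := zrec 0
        norm_num at this h4
        have h5 := gr_sq
        rw [show (-2 : ℤ) = -1 - 1 by norm_num, zpow_sub₀ gr_ne, zpow_neg, zpow_one]
        have := gr_ne
        field_simp
        nlinarith
      rw [h3, abs_le] at h1
      constructor <;> linarith [h1.1, h1.2]
  refine ⟨n, (z_of_window hn ?_ ?_).symm⟩
  · linarith [hk.1, hk.2]
  · linarith [hk.1, hk.2]

/-- **The lower bound**: `PPL n ≥ k - 6` for the special positions. -/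
theorem lower_bound (k : ℕ) : ∃ n : ℕ, z n = xs k ∧ (k : ℤ) - 6 ≤ PPL n := by
  obtain ⟨n, hn⟩ := xs_pos k
  refine ⟨n, hn, ?_⟩
  have g1 := gr_gt
  have g2 := gr_lt
  have hd := xs_double k
  have h1 := half_weight (n := 3 * k + 1) (y := z n) (c0 := -P 1) (by rw [hn, hd]; abel)
    (by rw [ph_neg, ph_P, zpow_one, abs_neg, abs_of_pos gr_pos]; linarith) (rep_wt (z n))
  have h2 := half_weight (n := 3 * k + 1) (y := z n + P 2) (c0 := -P 1 + P 2 + P 2)
    (by
      rw [hn]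
      have : xs k + P 2 + (xs k + P 2) = (xs k + xs k) + P 2 + P 2 := by abel
      rw [this, hd]; abel)
    (by
      rw [ph_add, ph_add, ph_neg, ph_P, ph_P, zpow_one, gr2, abs_of_pos (by linarith)]
      linarith) (rep_wt (z n + P 2))
  have h3 := pot_le_PPL n
  unfold pot at h3
  omega

end Pool.Agent.Q266.FW
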