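import Pool.Agent.Q266.FW4

/-!
# The upper bound: the finite strategy
-/

namespace Pool.Agent.Q266.FW

open Pool.Agent.Q266.FP

/-- an edge of the graph of palindromes. -/
theorem edge {n1 n2 t n : ℕ} (h : z n1 + z n2 + P 2 = sc t (z n + z n + P 2))
    (hL : |ph (z n1) - ph (z n2)| ≤ gr ^ ((t : ℤ) + 2) - gr ^ (2 : ℤ)) :
    PPL n2 ≤ PPL n1 + 1 := by
  have hP2 : ph (P 2) = gr ^ (2 : ℤ) := ph_P 2
  have ht2 : gr ^ ((t : ℤ) + 2) = gr ^ (t : ℤ) * gr ^ (2 : ℤ) := zpow_add₀ gr_ne _ _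
  have key : ∀ p q : ℕ, p ≤ q → z p + z q + P 2 = sc t (z n + z n + P 2) →
      |ph (z p) - ph (z q)| ≤ gr ^ ((t : ℤ) + 2) - gr ^ (2 : ℤ) → Pal p q := by
    intro p q hpq hs hl
    apply Pal_of_sum hs
    rw [← ph_z_le_iff, z_iter, ph_sc]
    have hS := congrArg ph hs
    rw [ph_add, ph_add, ph_sc, ph_add, ph_add, hP2] at hS
    rw [abs_le] at hl
    rw [ht2] at hl
    nlinarith [hl.1, hl.2]
  apply PPL_pal
  rcases Nat.le_total n1 n2 with h1 | h1
  · exact Or.inl ⟨h1, key n1 n2 h1 h hL⟩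
  · refine Or.inr ⟨h1, key n2 n1 h1 ?_ ?_⟩
    · rw [← h]; abel
    · rw [abs_sub_comm]; exact hL

/-- the vertex of scale `κ`. -/
def vz (κ : ℤ) (η : Z2) (s : Bool) : Z2 := if s then sc κ η else sc κ η - P 2

/-- signed element. -/
def sg (s : Bool) (x : Z2) : Z2 := if s then x else -x

/-- normalised conjugate. -/
noncomputable def nx (s : Bool) (η : Z2) : ℝ := if s then cj η else -cj η

theorem abs_nx (s : Bool) (η : Z2) : |nx s η| = |cj η| := by
  unfold nx; split_ifs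
  · rfl
  · exact abs_neg _

theorem nx_step (s : Bool) (η D : Z2) : nx (!s) (η + sg s D) = -(nx s η + cj D) := by
  cases s <;> simp [nx, sg, cj_add, cj_neg] <;> ring

theorem ph_sg (s : Bool) (x : Z2) : |ph (sg s x)| = |ph x| := by
  unfold sg; split_ifs
  · rfl
  · rw [ph_neg, abs_neg]

theorem idx_nonneg {x : Z2} (h1 : -1 < cj x) (h2 : 0 ≤ ph x) : 0 ≤ x.1 + x.2 := by
  have g1 := gr_gt
  have e : ((x.1 + x.2 : ℤ) : ℝ) * (2 * gr - 1) = gr * ph x + (gr - 1) * cj x := by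
    unfold ph cj; push_cast
    have := gr_sq
    nlinarith
  by_contra hlt
  push Not at hlt
  have h3 : ((x.1 + x.2 : ℤ) : ℝ) ≤ -1 := by exact_mod_cast (by omega : x.1 + x.2 ≤ -1)
  have h4 : 0 ≤ gr * ph x := mul_nonneg gr_pos.le h2
  nlinarith

theorem pos_of_window {x : Z2} (h1 : -1 < cj x) (h2 : cj x < gr - 1) (h3 : 0 ≤ ph x) :
    ∃ n : ℕ, z n = x := by
  have h4 := idx_nonneg h1 h3
  obtain ⟨n, hn⟩ : ∃ n : ℕ, x.1 + x.2 = n := ⟨(x.1 + x.2).toNat, by
    rw [Int.toNat_of_nonneg h4]⟩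
  exact ⟨n, (z_of_window hn h1 h2).symm⟩

theorem cj_P2 : cj (P 2) = 2 - gr := by rw [P_two]; simp [cj]; ring

/-- **One step of the strategy.** -/
theorem vstep {κ : ℕ} {η D c : Z2} {s : Bool} {t' : ℤ} (hκ : 0 ≤ (κ : ℤ) + t') (hκ0 : 10 ≤ κ)
    (hc : sc t' (c + c + P 2) = D) (hcj : |2 * nx s η + cj D| < gr ^ (1 - t'))
    (hph : gr ^ (t' + 2) ≤ ph (η + η + sg s D)) (hA : ph D ≤ gr ^ (t' + 2))
    (hB : 0.1 ≤ gr ^ (t' + 2) + ph D) {n1 n2 : ℕ} (h1 : z n1 = vz κ η s)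
    (h2 : z n2 = vz κ (η + sg s D) (!s)) : PPL n1 ≤ PPL n2 + 1 := by
  obtain ⟨t, ht⟩ := Int.eq_ofNat_of_zero_le hκ
  -- the centre
  set x : Z2 := sc (-t') η + (if s then c else -c - P 2) with hx
  have hx2 : sc t' (x + x + P 2) = η + η + sg s D := by
    have e1 : sc t' (sc (-t') η) = η := by rw [sc_sc, show t' + -t' = 0 by ring, sc_zero']
    rw [hx]
    cases s
    · simp only [Bool.false_eq_true, if_false, sg]
      have : sc (-t') η + (-c - P 2) + (sc (-t') η + (-c - P 2)) + P 2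
          = sc (-t') η + sc (-t') η - (c + c + P 2) := by abel
      rw [this, sc_sub, sc_add, e1, hc]; abel
    · simp only [if_true, sg]
      have : sc (-t') η + c + (sc (-t') η + c) + P 2
          = sc (-t') η + sc (-t') η + (c + c + P 2) := by abel
      rw [this, sc_add, sc_add, e1, hc]
  have g1 := gr_gt
  have hcjx : |cj (x + x + P 2)| < gr := by
    have e1 := congrArg cj hx2
    rw [cj_sc] at e1
    have e2 : |cj (η + η + sg s D)| = |2 * nx s η + cj D| := by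
      cases s
      · simp only [sg, nx, Bool.false_eq_true, if_false]
        rw [cj_add, cj_add, cj_neg, ← abs_neg]
        congr 1; ring
      · simp only [sg, nx, if_true]
        rw [cj_add, cj_add]
        congr 1; ring
    have e3 : |(1 - gr) ^ t'| = gr ^ (-t') := by
      rw [psi_zpow]
      split_ifs
      · rw [abs_of_pos (zpos _)]
      · rw [abs_neg, abs_of_pos (zpos _)]
    have e4 : gr ^ (-t') * |cj (x + x + P 2)| < gr ^ (-t') * gr := by
      rw [← e3, ← abs_mul, e1, e2, e3]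
      have : gr ^ (-t') * gr = gr ^ (1 - t') := by
        rw [show 1 - t' = -t' + 1 by ring, zpow_add₀ gr_ne, zpow_one]
      rw [this]; exact hcj
    exact lt_of_mul_lt_mul_left e4 (zpos _).le
  rw [cj_add, cj_add, cj_P2, abs_lt] at hcjx
  have hphx : 0 ≤ ph x := by
    have e1 := congrArg ph hx2
    rw [ph_sc, ph_add, ph_add, ph_P] at e1
    rw [← e1, zpow_add₀ gr_ne] at hph
    have := le_of_mul_le_mul_left hph (zpos t')
    linarith
  obtain ⟨n, hn⟩ := pos_of_window (x := x) (by linarith [hcjx.1]) (by linarith [hcjx.2]) hphx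
  have hsum : z n1 + z n2 + P 2 = sc t (z n + z n + P 2) := by
    have e1 : sc (κ : ℤ) (η + η + sg s D) = sc t (x + x + P 2) := by
      rw [← hx2, sc_sc]
      congr 1
    rw [hn, ← e1, h1, h2]
    cases s
    · simp only [vz, sg, Bool.false_eq_true, if_false, Bool.not_false, if_true]
      rw [sc_add, sc_add, sc_add]; abel
    · simp only [vz, sg, if_true, Bool.not_true, Bool.false_eq_true, if_false]
      rw [sc_add, sc_add, sc_add]; abel
  have hL : |ph (z n2) - ph (z n1)| ≤ gr ^ ((t : ℤ) + 2) - gr ^ (2 : ℤ) := by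
    have e1 : |ph (z n2) - ph (z n1)| = |gr ^ (κ : ℤ) * ph D - gr ^ (2 : ℤ)| := by
      rw [h1, h2]
      cases s
      · simp only [vz, sg, Bool.false_eq_true, if_false, Bool.not_false, if_true]
        rw [ph_sub, ph_sc, ph_sc, ph_add, ph_neg, ph_P, ← abs_neg]
        congr 1; ring
      · simp only [vz, sg, if_true, Bool.not_true, Bool.false_eq_true, if_false]
        rw [ph_sub, ph_sc, ph_sc, ph_add, ph_P]
        congr 1; ring
    rw [e1]
    have e2 : gr ^ ((t : ℤ) + 2) = gr ^ (κ : ℤ) * gr ^ (t' + 2) := by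
      rw [← zpow_add₀ gr_ne]; congr 1; rw [← ht]; ring
    rw [e2, abs_le]
    have e3 : (100 : ℝ) ≤ gr ^ (κ : ℤ) := by
      have e4 : gr ^ (10 : ℤ) ≤ gr ^ (κ : ℤ) := zmono (by exact_mod_cast hκ0)
      have e5 : gr ^ (10 : ℤ) = 55 * gr + 34 := by
        have h2 : gr ^ 2 = gr + 1 := by rw [pow_two, gr_sq]
        have h4 : gr ^ 4 = 3 * gr + 2 := by
          calc gr ^ 4 = (gr ^ 2) ^ 2 := by ring
            _ = 3 * gr + 2 := by rw [h2]; nlinarith [gr_sq]
        have h8 : gr ^ 8 = 21 * gr + 13 := by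
          calc gr ^ 8 = (gr ^ 4) ^ 2 := by ring
            _ = 21 * gr + 13 := by rw [h4]; nlinarith [gr_sq]
        have : gr ^ (10 : ℤ) = gr ^ 10 := by norm_cast
        rw [this]
        calc gr ^ 10 = gr ^ 8 * gr ^ 2 := by ring
          _ = 55 * gr + 34 := by rw [h8, h2]; nlinarith [gr_sq]
      rw [e5] at e4
      linarith
    have g2 := gr_lt
    rw [gr2]
    constructor
    · have : gr ^ (κ : ℤ) * 0.1 ≤ gr ^ (κ : ℤ) * (gr ^ (t' + 2) + ph D) :=
        mul_le_mul_of_nonneg_left hB (zpos _).le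
      linarith
    · have : gr ^ (κ : ℤ) * ph D ≤ gr ^ (κ : ℤ) * gr ^ (t' + 2) :=
        mul_le_mul_of_nonneg_left hA (zpos _).le
      linarith
  have hsum' : z n2 + z n1 + P 2 = sc t (z n + z n + P 2) := by rw [← hsum]; abel
  exact edge hsum' hL

theorem vz_pos {κ : ℕ} {η : Z2} (s : Bool) (hκ : 10 ≤ κ) (hc : |cj η| ≤ 3) (hp : 1 ≤ ph η) :
    ∃ n : ℕ, z n = vz κ η s := by
  have g1 := gr_gt
  have g2 := gr_lt
  have e1 : |cj (sc (κ : ℤ) η)| ≤ 0.3 := by
    rw [cj_sc, abs_mul]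
    have e3 : |(1 - gr) ^ (κ : ℤ)| = gr ^ (-(κ : ℤ)) := by
      rw [psi_zpow]
      split_ifs
      · rw [abs_of_pos (zpos _)]
      · rw [abs_neg, abs_of_pos (zpos _)]
    rw [e3]
    have e4 : gr ^ (-(κ : ℤ)) ≤ gr ^ (-7 : ℤ) := zmono (by omega)
    have e5 := gr_pow_bounds.1
    have e6 := zpos (-(κ : ℤ))
    have e7 := abs_nonneg (cj η)
    nlinarith
  rw [abs_le] at e1
  have e2 : gr ^ (2 : ℤ) ≤ ph (sc (κ : ℤ) η) := by
    rw [ph_sc]
    have : gr ^ (2 : ℤ) ≤ gr ^ (κ : ℤ) := zmono (by omega)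
    have h3 := zpos (κ : ℤ)
    calc gr ^ (2 : ℤ) ≤ gr ^ (κ : ℤ) := this
      _ = gr ^ (κ : ℤ) * 1 := (mul_one _).symm
      _ ≤ gr ^ (κ : ℤ) * ph η := mul_le_mul_of_nonneg_left hp h3.le
  have e3 := zpos 2
  cases s
  · simp only [vz, Bool.false_eq_true, if_false]
    apply pos_of_window
    · rw [cj_sub, cj_P2]; linarith [e1.1]
    · rw [cj_sub, cj_P2]; linarith [e1.2]
    · rw [ph_sub, ph_P]; linarith
  · simp only [vz, if_true]
    apply pos_of_window
    · linarith [e1.1]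
    · linarith [e1.2]
    · linarith

end Pool.Agent.Q266.FW
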