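import Pool.Agent.Q266.FW5

/-!
# The strategy
-/

namespace Pool.Agent.Q266.FW

open Pool.Agent.Q266.FP

theorem grn1 : gr ^ (-1 : ℤ) = gr - 1 := by
  have h : gr * (gr - 1) = 1 := by nlinarith [gr_sq]
  rw [zpow_neg, zpow_one]
  exact (eq_inv_of_mul_eq_one_right h).symm

theorem grn2 : gr ^ (-2 : ℤ) = 2 - gr := by
  rw [show (-2 : ℤ) = -1 + -1 by norm_num, zpow_add₀ gr_ne, grn1]
  nlinarith [gr_sq]

theorem grn3 : gr ^ (-3 : ℤ) = 2 * gr - 3 := by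
  rw [show (-3 : ℤ) = -2 + -1 by norm_num, zpow_add₀ gr_ne, grn1, grn2]
  nlinarith [gr_sq]

theorem grn6 : gr ^ (-6 : ℤ) = 13 - 8 * gr := by
  rw [show (-6 : ℤ) = -3 + -3 by norm_num, zpow_add₀ gr_ne, grn3]
  nlinarith [gr_sq]

theorem gr4 : gr ^ (4 : ℤ) = 3 * gr + 2 := by
  rw [show (4 : ℤ) = 2 + 2 by norm_num, zpow_add₀ gr_ne, gr2]
  nlinarith [gr_sq]

theorem gr5 : gr ^ (5 : ℤ) = 5 * gr + 3 := by
  rw [show (5 : ℤ) = 4 + 1 by norm_num, zpow_add₀ gr_ne, gr4, gr1]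
  nlinarith [gr_sq]

theorem gr6 : gr ^ (6 : ℤ) = 8 * gr + 5 := by
  rw [show (6 : ℤ) = 4 + 2 by norm_num, zpow_add₀ gr_ne, gr4, gr2]
  nlinarith [gr_sq]

theorem mv {κ : ℕ} (hκ0 : 10 ≤ κ) {η : Z2} {s : Bool} (D c : Z2) (t' : ℤ) (ht : -4 ≤ t')
    (hc : sc t' (c + c + P 2) = D) (hcj : |2 * nx s η + cj D| < gr ^ (1 - t'))
    (hp : 30 ≤ ph η) (hG : gr ^ (t' + 2) ≤ 20) (hD : |ph D| ≤ 20) (hA : ph D ≤ gr ^ (t' + 2))
    (hB : 0.1 ≤ gr ^ (t' + 2) + ph D) (h3 : |nx s η + cj D| ≤ 3) {n1 : ℕ}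
    (h1 : z n1 = vz κ η s) :
    ∃ n2, z n2 = vz κ (η + sg s D) (!s) ∧ PPL n1 ≤ PPL n2 + 1 := by
  have e1 : |ph (sg s D)| ≤ 20 := by rw [ph_sg]; exact hD
  rw [abs_le] at e1
  obtain ⟨n2, hn2⟩ := vz_pos (κ := κ) (η := η + sg s D) (!s) hκ0
    (by rw [← abs_nx (!s), nx_step, abs_neg]; exact h3)
    (by rw [ph_add]; linarith [e1.1])
  refine ⟨n2, hn2, vstep (by omega) hκ0 hc hcj ?_ hA hB h1 hn2⟩
  rw [ph_add, ph_add]
  linarith [e1.1]

/-- the outcome of the strategy. -/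
def Out (κ : ℕ) (η : Z2) (s : Bool) (n : ℕ) : Prop :=
  ∃ (j κ' : ℕ) (η' : Z2) (s' : Bool) (n' : ℕ), 1 ≤ j ∧ j ≤ 2 ∧ κ ≤ κ' ∧ z n' = vz κ' η' s' ∧
    |cj η'| ≤ 1 ∧ PPL n ≤ PPL n' + j ∧ ph η' ≤ gr ^ (-3 * (j : ℤ)) * (ph η + 40) ∧
    gr ^ (-6 : ℤ) * (ph η - 40) ≤ ph η'

theorem abs_psi_zpow (k : ℤ) : |(1 - gr) ^ k| = gr ^ (-k) := by
  rw [psi_zpow]
  split_ifs
  · rw [abs_of_pos (zpos _)]
  · rw [abs_neg, abs_of_pos (zpos _)]

/-- final rescaling. -/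
theorem out_of {κ : ℕ} {η : Z2} {s : Bool} {n j : ℕ} (hj1 : 1 ≤ j) (hj2 : j ≤ 2) {η1 : Z2}
    {s1 : Bool} {n1 : ℕ} (h1 : z n1 = vz κ η1 s1) (hc : |cj η1| ≤ gr ^ (-3 * (j : ℤ)))
    (hP : PPL n ≤ PPL n1 + j) (hu : ph η1 ≤ ph η + 40) (hl : ph η - 40 ≤ ph η1)
    (hp : 40 ≤ ph η) : Out κ η s n := by
  refine ⟨j, κ + 3 * j, sc (-3 * (j : ℤ)) η1, s1, n1, hj1, hj2, by omega, ?_, ?_, hP, ?_, ?_⟩
  · rw [h1]
    unfold vz
    rw [sc_sc]
    push_cast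
    rw [show (κ : ℤ) + 3 * j + -3 * j = κ by ring]
  · rw [cj_sc, abs_mul, abs_psi_zpow]
    have h2 : gr ^ (-(-3 * (j : ℤ))) * gr ^ (-3 * (j : ℤ)) = 1 := by
      rw [← zpow_add₀ gr_ne, show -(-3 * (j : ℤ)) + -3 * j = 0 by ring, zpow_zero]
    calc gr ^ (-(-3 * (j : ℤ))) * |cj η1| ≤ gr ^ (-(-3 * (j : ℤ))) * gr ^ (-3 * (j : ℤ)) :=
          mul_le_mul_of_nonneg_left hc (zpos _).le
      _ = 1 := h2
  · rw [ph_sc]
    exact mul_le_mul_of_nonneg_left hu (zpos _).le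
  · rw [ph_sc]
    calc gr ^ (-6 : ℤ) * (ph η - 40) ≤ gr ^ (-3 * (j : ℤ)) * (ph η - 40) :=
          mul_le_mul_of_nonneg_right (zmono (by omega)) (by linarith)
      _ ≤ _ := mul_le_mul_of_nonneg_left hl (zpos _).le

/-- one move. -/
theorem one_mv {κ : ℕ} (hκ0 : 10 ≤ κ) {η : Z2} {s : Bool} (D c : Z2) (t' : ℤ) (ht : -4 ≤ t')
    (hc : sc t' (c + c + P 2) = D) (hcj : |2 * nx s η + cj D| < gr ^ (1 - t'))
    (hp : 100 ≤ ph η) (hG : gr ^ (t' + 2) ≤ 20) (hD : |ph D| ≤ 20) (hA : ph D ≤ gr ^ (t' + 2))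
    (hB : 0.1 ≤ gr ^ (t' + 2) + ph D) (h3 : |nx s η + cj D| ≤ 2 * gr - 3) {n1 : ℕ}
    (h1 : z n1 = vz κ η s) : Out κ η s n1 := by
  have g2 := gr_lt
  obtain ⟨n2, h2, h4⟩ := mv hκ0 D c t' ht hc hcj (by linarith) hG hD hA hB (by linarith) h1
  have e1 : |ph (sg s D)| ≤ 20 := by rw [ph_sg]; exact hD
  rw [abs_le] at e1
  refine out_of (j := 1) (by norm_num) (by norm_num) h2 ?_ h4 ?_ ?_ (by linarith)
  · rw [← abs_nx (!s), nx_step, abs_neg, Nat.cast_one, mul_one, grn3]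
    exact h3
  · rw [ph_add]; linarith [e1.2]
  · rw [ph_add]; linarith [e1.1]

/-- two moves. -/
theorem two_mv {κ : ℕ} (hκ0 : 10 ≤ κ) {η : Z2} {s : Bool} (D c : Z2) (t' : ℤ) (ht : -4 ≤ t')
    (hc : sc t' (c + c + P 2) = D) (hcj : |2 * nx s η + cj D| < gr ^ (1 - t'))
    (hp : 100 ≤ ph η) (hG : gr ^ (t' + 2) ≤ 20) (hD : |ph D| ≤ 20) (hA : ph D ≤ gr ^ (t' + 2))
    (hB : 0.1 ≤ gr ^ (t' + 2) + ph D) (h3 : |nx s η + cj D| ≤ 3) {n1 : ℕ}
    (h1 : z n1 = vz κ η s) (D' c' : Z2) (u' : ℤ) (hu : -4 ≤ u')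
    (hc' : sc u' (c' + c' + P 2) = D') (hcj' : |2 * -(nx s η + cj D) + cj D'| < gr ^ (1 - u'))
    (hG' : gr ^ (u' + 2) ≤ 20) (hD' : |ph D'| ≤ 20) (hA' : ph D' ≤ gr ^ (u' + 2))
    (hB' : 0.1 ≤ gr ^ (u' + 2) + ph D') (h3' : |-(nx s η + cj D) + cj D'| ≤ 13 - 8 * gr) :
    Out κ η s n1 := by
  have g1 := gr_gt
  obtain ⟨n2, h2, h4⟩ := mv hκ0 D c t' ht hc hcj (by linarith) hG hD hA hB (by linarith) h1
  have e1 : |ph (sg s D)| ≤ 20 := by rw [ph_sg]; exact hD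
  rw [abs_le] at e1
  have e2 := nx_step s η D
  have e1' : |ph (sg (!s) D')| ≤ 20 := by rw [ph_sg]; exact hD'
  rw [abs_le] at e1'
  obtain ⟨n3, h5, h6⟩ := mv hκ0 (η := η + sg s D) (s := !s) D' c' u' hu hc'
    (by rw [e2]; exact hcj') (by rw [ph_add]; linarith [e1.1]) hG' hD' hA' hB'
    (by rw [e2]; linarith) h2
  refine out_of (j := 2) (by norm_num) (by norm_num) h5 ?_ (by omega) ?_ ?_ (by linarith)
  · rw [← abs_nx (!(!s)), nx_step, e2, abs_neg,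
      show (-3 : ℤ) * ((2 : ℕ) : ℤ) = -6 by norm_num, grn6]
    exact h3'
  · rw [ph_add, ph_add]; linarith [e1.2, e1'.2]
  · rw [ph_add, ph_add]; linarith [e1.1, e1'.1]

theorem cj_mk (a b : ℤ) : cj (a, b) = a * (1 - gr) + b := rfl
theorem ph_mk (a b : ℤ) : ph (a, b) = a * gr + b := rfl

/-- **The strategy.** -/
theorem strat {κ : ℕ} (hκ0 : 10 ≤ κ) {η : Z2} {s : Bool} (hc : |cj η| ≤ 1) (hp : 100 ≤ ph η)
    {n : ℕ} (h1 : z n = vz κ η s) : Out κ η s n := by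
  have g1 := gr_gt
  have g2 := gr_lt
  -- strict inequalities
  have hlt : |nx s η| < 1 := by
    rw [abs_nx]
    rcases lt_or_eq_of_le hc with h | h
    · exact h
    · exfalso
      rcases (abs_eq (by norm_num)).mp h with h2 | h2
      · have h3 : η = (0, 1) := cj_inj (by rw [h2]; simp [cj])
        rw [h3] at hp
        norm_num [ph] at hp
      · have h3 : η = (0, -1) := cj_inj (by rw [h2]; simp [cj])
        rw [h3] at hp
        norm_num [ph] at hp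
  rw [abs_lt] at hlt
  obtain ⟨hx1, hx2⟩ := hlt
  by_cases c1 : nx s η ≤ 2 * gr - 4
  · -- case 1
    refine one_mv hκ0 (0, 1) 0 (-2) (by norm_num) (by decide) ?_ hp ?_ ?_ ?_ ?_ ?_ h1 <;>
    (simp only [cj_mk, ph_mk, Int.reduceAdd, Int.reduceSub, Int.reduceNeg, gr0, gr1, gr2, gr3,
       gr4, gr5, gr6, grn1, grn2, grn3, grn6, sub_neg_eq_add, Int.cast_neg, Int.cast_ofNat,
       Int.cast_one, Int.cast_zero]
     first
       | linarith
       | (rw [abs_lt]; constructor <;> linarith)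
       | (rw [abs_le]; constructor <;> linarith))
  push Not at c1
  by_cases c2 : nx s η ≤ 9 - 6 * gr
  · -- case 2
    refine two_mv hκ0 (1, 1) 0 0 (by norm_num) (by decide) ?_ hp ?_ ?_ ?_ ?_ ?_ h1
      (-1, -1) (-1, 0) 3 (by norm_num) (by decide) ?_ ?_ ?_ ?_ ?_ ?_ <;>
    (simp only [cj_mk, ph_mk, Int.reduceAdd, Int.reduceSub, Int.reduceNeg, gr0, gr1, gr2, gr3,
       gr4, gr5, gr6, grn1, grn2, grn3, grn6, sub_neg_eq_add, Int.cast_neg, Int.cast_ofNat,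
       Int.cast_one, Int.cast_zero]
     first
       | linarith
       | (rw [abs_lt]; constructor <;> linarith)
       | (rw [abs_le]; constructor <;> linarith))
  push Not at c2
  by_cases c3 : nx s η < 7 * gr - 12
  · -- case 3
    refine two_mv hκ0 (6, 5) (-2, 3) 4 (by norm_num) (by decide) ?_ hp ?_ ?_ ?_ ?_ ?_ h1
      (-1, 0) (-1, 0) 2 (by norm_num) (by decide) ?_ ?_ ?_ ?_ ?_ ?_ <;>
    (simp only [cj_mk, ph_mk, Int.reduceAdd, Int.reduceSub, Int.reduceNeg, gr0, gr1, gr2, gr3,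
       gr4, gr5, gr6, grn1, grn2, grn3, grn6, sub_neg_eq_add, Int.cast_neg, Int.cast_ofNat,
       Int.cast_one, Int.cast_zero]
     first
       | linarith
       | (rw [abs_lt]; constructor <;> linarith)
       | (rw [abs_le]; constructor <;> linarith))
  push Not at c3
  by_cases c4 : nx s η ≤ 14 - 9 * gr
  · -- case 4
    refine two_mv hκ0 (-1, 1) (-1, 0) 0 (by norm_num) (by decide) ?_ hp ?_ ?_ ?_ ?_ ?_ h1
      (0, 1) 0 (-2) (by norm_num) (by decide) ?_ ?_ ?_ ?_ ?_ ?_ <;>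
    (simp only [cj_mk, ph_mk, Int.reduceAdd, Int.reduceSub, Int.reduceNeg, gr0, gr1, gr2, gr3,
       gr4, gr5, gr6, grn1, grn2, grn3, grn6, sub_neg_eq_add, Int.cast_neg, Int.cast_ofNat,
       Int.cast_one, Int.cast_zero]
     first
       | linarith
       | (rw [abs_lt]; constructor <;> linarith)
       | (rw [abs_le]; constructor <;> linarith))
  push Not at c4
  by_cases c5 : nx s η ≤ 3 * gr - 5
  · -- case 5
    refine one_mv hκ0 (1, 1) 0 0 (by norm_num) (by decide) ?_ hp ?_ ?_ ?_ ?_ ?_ h1 <;>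
    (simp only [cj_mk, ph_mk, Int.reduceAdd, Int.reduceSub, Int.reduceNeg, gr0, gr1, gr2, gr3,
       gr4, gr5, gr6, grn1, grn2, grn3, grn6, sub_neg_eq_add, Int.cast_neg, Int.cast_ofNat,
       Int.cast_one, Int.cast_zero]
     first
       | linarith
       | (rw [abs_lt]; constructor <;> linarith)
       | (rw [abs_le]; constructor <;> linarith))
  push Not at c5
  by_cases c6 : nx s η ≤ 0
  · -- no move
    refine out_of (j := 1) (by norm_num) (by norm_num) h1 ?_ (by omega) (by linarith)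
      (by linarith) (by linarith)
    rw [← abs_nx s, Nat.cast_one, mul_one, grn3, abs_le]
    constructor <;> linarith
  push Not at c6
  by_cases c7 : nx s η ≤ 4 * gr - 6
  · refine one_mv hκ0 (2, 1) 0 1 (by norm_num) (by decide) ?_ hp ?_ ?_ ?_ ?_ ?_ h1 <;>
    (simp only [cj_mk, ph_mk, Int.reduceAdd, Int.reduceSub, Int.reduceNeg, gr0, gr1, gr2, gr3,
       gr4, gr5, gr6, grn1, grn2, grn3, grn6, sub_neg_eq_add, Int.cast_neg, Int.cast_ofNat,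
       Int.cast_one, Int.cast_zero]
     first
       | linarith
       | (rw [abs_lt]; constructor <;> linarith)
       | (rw [abs_le]; constructor <;> linarith))
  push Not at c7
  by_cases c8 : nx s η ≤ 3 * gr - 4
  · refine one_mv hκ0 (1, 0) 0 (-1) (by norm_num) (by decide) ?_ hp ?_ ?_ ?_ ?_ ?_ h1 <;>
    (simp only [cj_mk, ph_mk, Int.reduceAdd, Int.reduceSub, Int.reduceNeg, gr0, gr1, gr2, gr3,
       gr4, gr5, gr6, grn1, grn2, grn3, grn6, sub_neg_eq_add, Int.cast_neg, Int.cast_ofNat,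
       Int.cast_one, Int.cast_zero]
     first
       | linarith
       | (rw [abs_lt]; constructor <;> linarith)
       | (rw [abs_le]; constructor <;> linarith))
  push Not at c8
  refine one_mv hκ0 (0, -1) (-1, 0) 1 (by norm_num) (by decide) ?_ hp ?_ ?_ ?_ ?_ ?_ h1 <;>
    (simp only [cj_mk, ph_mk, Int.reduceAdd, Int.reduceSub, Int.reduceNeg, gr0, gr1, gr2, gr3,
       gr4, gr5, gr6, grn1, grn2, grn3, grn6, sub_neg_eq_add, Int.cast_neg, Int.cast_ofNat,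
       Int.cast_one, Int.cast_zero]
     first
       | linarith
       | (rw [abs_lt]; constructor <;> linarith)
       | (rw [abs_le]; constructor <;> linarith))

end Pool.Agent.Q266.FW
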