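import Pool.Agent.Q266.FW6

/-!
# The upper bound
-/

namespace Pool.Agent.Q266.FW

open Pool.Agent.Q266.FP

theorem PPL_add (n k : ℕ) : PPL (n + k) ≤ PPL n + k := by
  induction k with
  | zero => simp
  | succ k ih =>
    have : PPL (n + k + 1) ≤ PPL (n + k) + 1 :=
      PPL_step (Nat.lt_succ_self (n + k)) (Pal_one (n + k))
    rw [← Nat.add_assoc]
    omega

theorem PPL_sub (n k : ℕ) : PPL n ≤ PPL (n + k) + k := by
  induction k with
  | zero => simp
  | succ k ih =>
    have : PPL (n + k) ≤ PPL (n + k + 1) + 1 :=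
      PPL_back (Nat.le_succ (n + k)) (Pal_one (n + k))
    rw [← Nat.add_assoc n k 1]
    omega

theorem z_inj_index {m n : ℕ} {d : ℤ} (h : (z m).1 + (z m).2 = (z n).1 + (z n).2 + d) :
    (m : ℤ) = n + d := by
  rw [z_index, z_index] at h; exact h

/-- one letter of the desubstituted word costs at most three palindromes. -/
theorem PPL_iter_succ {t : ℕ} (ht : 2 ≤ t) (p : ℕ) :
    PPL (g^[t] (p + 1)) ≤ PPL (g^[t] p) + 3 ∧ g^[t] p ≤ g^[t] (p + 1) := by
  obtain ⟨t, rfl⟩ := Nat.exists_eq_add_of_le ht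
  refine ⟨?_, iter_mono _ (Nat.le_succ p)⟩
  have fin : ∀ j : ℕ, g^[2 + t] p ≤ j → Pal (g^[2 + t] p) j →
      z (g^[2 + t] (p + 1)) = z j + P 2 → PPL (g^[2 + t] (p + 1)) ≤ PPL (g^[2 + t] p) + 3 := by
    intro j h1 h2 h3
    have h4 : ((g^[2 + t] (p + 1) : ℕ) : ℤ) = j + 2 := by
      apply z_inj_index
      rw [h3, P_two]
      simp only [Prod.fst_add, Prod.snd_add]
      ring
    have h5 : g^[2 + t] (p + 1) = j + 2 := by exact_mod_cast h4
    rw [h5]
    have h6 := PPL_add j 2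
    have h7 := PPL_pal (Or.inl ⟨h1, h2⟩)
    omega
  cases hf : fw p
  · obtain ⟨j, h1, h2, h3⟩ := Pal_central t (g (g p))
    have e1 : g^[t] (g (g p)) = g^[2 + t] p := by
      rw [Nat.add_comm 2 t, Function.iterate_add_apply]; rfl
    rw [e1] at h1 h3
    refine fin j h1 h3 ?_
    rw [h2, z_iter, z_succ, hf, sc_add, z_g, z_g, sc_sc, sc_sc]
    simp only [lt, Bool.false_eq_true, if_false]
    rw [sc_P]
    push_cast
    rw [show (t : ℤ) + 1 + 1 = 2 + t by ring, show (t : ℤ) + 2 = 2 + t + 0 by ring]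
    abel
  · obtain ⟨j, h1, h2, h3⟩ := Pal_central (t + 1) (g p)
    have e1 : g^[t + 1] (g p) = g^[2 + t] p := by
      rw [← Function.iterate_succ_apply]; congr 1; omega
    rw [e1] at h1 h3
    refine fin j h1 h3 ?_
    rw [h2, z_iter, z_succ, hf, sc_add, z_g, sc_sc]
    simp only [lt, if_true]
    rw [sc_P]
    push_cast
    rw [show (t : ℤ) + 1 + 1 = 2 + t by ring, show (t : ℤ) + 1 + 2 = 2 + t + 1 by ring]
    abel

theorem g_iter_zero (t : ℕ) : g^[t] 0 = 0 := by
  induction t with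
  | zero => rfl
  | succ t ih => rw [Function.iterate_succ_apply', ih, g_zero]

theorem PPL_iter {t : ℕ} (ht : 2 ≤ t) (p : ℕ) : PPL (g^[t] p) ≤ 3 * p := by
  induction p with
  | zero => rw [g_iter_zero, PPL_zero]
  | succ p ih => have := (PPL_iter_succ ht p).1; omega

theorem le_ph_z (p : ℕ) : (p : ℝ) ≤ ph (z p) := by
  induction p with
  | zero => simp [z, ph]
  | succ p ih =>
    rw [z_succ, ph_add]
    have := ph_lt_pos (fw p)
    push_cast
    linarith

theorem ph_z_le (p : ℕ) : ph (z p) ≤ gr * p := by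
  induction p with
  | zero => simp [z, ph]
  | succ p ih =>
    rw [z_succ, ph_add]
    have g1 := gr_gt
    have : ph (lt (fw p)) ≤ gr := by
      cases fw p
      · simp only [lt, Bool.false_eq_true, if_false]
        rw [ph_P, zpow_zero]; linarith
      · simp only [lt, if_true]
        rw [ph_P, zpow_one]
    push_cast
    linarith

theorem z_eq_iff {m n : ℕ} (h : z m = z n) : m = n := by
  have := z_inj_index (m := m) (n := n) (d := 0) (by rw [h]; ring)
  omega

/-- the base case. -/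
theorem base {κ : ℕ} (hκ : 10 ≤ κ) {η : Z2} {s : Bool} (hc : |cj η| ≤ 1) (h0 : 0 ≤ ph η)
    (hp : ph η ≤ 120) {n : ℕ} (h1 : z n = vz κ η s) : PPL n ≤ 950 := by
  have g1 := gr_gt
  have g2 := gr_lt
  obtain ⟨t, rfl⟩ := Nat.exists_eq_add_of_le hκ
  have hcj : |cj (sc 2 η)| ≤ 2 - gr := by
    rw [cj_sc, abs_mul, abs_psi_zpow, grn2]
    calc (2 - gr) * |cj η| ≤ (2 - gr) * 1 := mul_le_mul_of_nonneg_left hc (by linarith)
      _ = _ := mul_one _
  rw [abs_le] at hcj
  have hph : ph (sc 2 η) ≤ 315 := by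
    rw [ph_sc, gr2]
    nlinarith
  obtain ⟨p, hz⟩ := pos_of_window (x := sc 2 η) (by linarith [hcj.1]) (by linarith [hcj.2])
    (by rw [ph_sc]; exact mul_nonneg (zpos 2).le h0)
  have hp3 : p ≤ 315 := by
    have h2 := le_ph_z p
    rw [hz] at h2
    exact_mod_cast h2.trans hph
  have h3 : z (g^[8 + t] p) = sc (10 + t : ℕ) η := by
    rw [z_iter, hz, sc_sc]
    congr 1
    push_cast; ring
  have h4 := PPL_iter (t := 8 + t) (by omega) p
  cases s
  · simp only [vz, Bool.false_eq_true, if_false] at h1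
    rw [← h3] at h1
    have h5 : ((g^[8 + t] p : ℕ) : ℤ) = n + 2 := by
      apply z_inj_index
      rw [h1, P_two]
      simp only [Prod.fst_sub, Prod.snd_sub]
      ring
    have h6 : g^[8 + t] p = n + 2 := by exact_mod_cast h5
    rw [h6] at h4
    have h7 := PPL_sub n 2
    omega
  · simp only [vz, if_true] at h1
    rw [← h3] at h1
    rw [z_eq_iff h1]
    omega

theorem main_ind (m : ℕ) : ∀ {κ : ℕ}, 10 ≤ κ → ∀ {η : Z2} {s : Bool}, |cj η| ≤ 1 → 0 ≤ ph η →
    ph η ≤ gr ^ (3 * (m : ℤ)) + 100 → ∀ {n : ℕ}, z n = vz κ η s → PPL n ≤ m + 950 := by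
  induction m using Nat.strong_induction_on with
  | _ m ih =>
    intro κ hκ η s hc h0 hp n h1
    have g1 := gr_gt
    have g2 := gr_lt
    rcases le_or_gt (ph η) 120 with h2 | h2
    · have := base hκ hc h0 h2 h1
      omega
    have hm : 3 ≤ m := by
      by_contra hlt
      have h3 : gr ^ (3 * (m : ℤ)) ≤ gr ^ (6 : ℤ) := zmono (by omega)
      rw [gr6] at h3
      linarith
    obtain ⟨j, κ', η', s', n', hj1, hj2, hκ', h3, h4, h5, h6, h7⟩ :=
      strat hκ hc (by linarith) h1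
    have e1 : gr ^ (-3 * (j : ℤ)) * gr ^ (3 * (m : ℤ)) = gr ^ (3 * ((m - j : ℕ) : ℤ)) := by
      rw [← zpow_add₀ gr_ne]
      congr 1
      rw [Nat.cast_sub (by omega)]; ring
    have e2 : gr ^ (-3 * (j : ℤ)) ≤ 2 * gr - 3 := by
      rw [← grn3]; exact zmono (by omega)
    have h8 : ph η' ≤ gr ^ (3 * ((m - j : ℕ) : ℤ)) + 100 := by
      rw [← e1]
      have h9 : gr ^ (-3 * (j : ℤ)) * (ph η + 40) ≤
          gr ^ (-3 * (j : ℤ)) * (gr ^ (3 * (m : ℤ)) + 140) :=
        mul_le_mul_of_nonneg_left (by linarith) (zpos _).le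
      rw [mul_add] at h9
      linarith
    have h0' : 0 ≤ ph η' := by
      have := mul_nonneg (zpos (-6)).le (show (0 : ℝ) ≤ ph η - 40 by linarith)
      linarith
    have := ih (m - j) (by omega) (by omega) h4 h0' h8 h3
    omega

/-- **The upper bound.** -/
theorem upper_bound (N m : ℕ) (h : gr * N ≤ gr ^ (3 * (m : ℤ))) : PPL N ≤ m + 1100 := by
  -- the largest block boundary below
  obtain ⟨p, hp1, hp2⟩ : ∃ p, g^[10] p ≤ N ∧ N < g^[10] (p + 1) := by
    have hmono : StrictMono (g^[10]) := g_strictMono.iterate 10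
    have hex : ∃ q, N < g^[10] q := ⟨N + 1, lt_of_lt_of_le (Nat.lt_succ_self N) (hmono.le_apply)⟩
    classical
    have hq := Nat.find_spec hex
    have hq0 : Nat.find hex ≠ 0 := by
      intro h0
      rw [h0, g_iter_zero] at hq
      omega
    obtain ⟨p, hp⟩ := Nat.exists_eq_succ_of_ne_zero hq0
    refine ⟨p, ?_, ?_⟩
    · have := Nat.find_min hex (m := p) (by omega)
      omega
    · rw [hp] at hq; exact hq
  have hgap : g^[10] (p + 1) ≤ g^[10] p + 144 := by
    have h2 : z (g^[10] (p + 1)) = z (g^[10] p) + sc 10 (lt (fw p)) := by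
      rw [z_iter, z_iter, z_succ, sc_add]
      rfl
    have h3 : (z (g^[10] (p + 1))).1 + (z (g^[10] (p + 1))).2 =
        (z (g^[10] p)).1 + (z (g^[10] p)).2 + ((sc 10 (lt (fw p))).1 + (sc 10 (lt (fw p))).2) := by
      rw [h2]; simp only [Prod.fst_add, Prod.snd_add]; ring
    have h4 := z_inj_index h3
    have h5 : (sc 10 (lt (fw p))).1 + (sc 10 (lt (fw p))).2 ≤ 144 := by
      cases fw p <;> decide
    omega
  have hN : N = g^[10] p + (N - g^[10] p) := by omega
  have h6 := PPL_add (g^[10] p) (N - g^[10] p)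
  rw [← hN] at h6
  have h7 : PPL (g^[10] p) ≤ m + 950 := by
    have hcz := cj_z p
    have g2 := gr_lt
    refine main_ind m (κ := 10) (le_refl _) (η := z p) (s := true) ?_ ?_ ?_ (n := g^[10] p) ?_
    · rw [abs_le]; constructor <;> linarith [hcz.1, hcz.2]
    · exact (Nat.cast_nonneg p).trans (le_ph_z p)
    · have h8 := ph_z_le p
      have h9 : p ≤ N := (g_strictMono.iterate 10).le_apply.trans hp1
      have h10 : gr * p ≤ gr * N := mul_le_mul_of_nonneg_left (by exact_mod_cast h9) gr_pos.le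
      linarith
    · rw [z_iter]; rfl
  omega

end Pool.Agent.Q266.FW
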