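import Pool.Agent.Q266.FW7

/-!
# The constant
-/

namespace Pool.Agent.Q266.FW

open Pool.Agent.Q266.FP Filter

theorem limsup_log {f : ℕ → ℝ} {L C : ℝ} (hC : 0 ≤ C) (h0 : ∀ n, 0 ≤ f n)
    (hu : ∀ n : ℕ, 1 ≤ n → f n ≤ L * Real.log n + C)
    (hl : ∀ N : ℕ, ∃ n : ℕ, N ≤ n ∧ L * Real.log n - C ≤ f n) :
    limsup (fun n : ℕ => f n / Real.log n) atTop = L := by
  have htend : Tendsto (fun n : ℕ => C / Real.log n) atTop (nhds 0) :=
    Tendsto.div_atTop tendsto_const_nhds (Real.tendsto_log_atTop.comp tendsto_natCast_atTop_atTop)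
  have hev : ∀ ε : ℝ, 0 < ε → ∀ᶠ n : ℕ in atTop, C / Real.log n < ε := fun ε hε =>
    htend.eventually_lt_const hε
  have hpos : ∀ n : ℕ, 2 ≤ n → 0 < Real.log n := fun n hn =>
    Real.log_pos (by exact_mod_cast hn)
  have hup : ∀ ε : ℝ, 0 < ε → ∀ᶠ n : ℕ in atTop, f n / Real.log n ≤ L + ε := by
    intro ε hε
    filter_upwards [hev ε hε, eventually_ge_atTop 2] with n h1 h2
    have h3 := hpos n h2
    rw [div_lt_iff₀ h3] at h1
    rw [div_le_iff₀ h3]
    have := hu n (by omega)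
    linarith
  have hbdd : IsBoundedUnder (· ≤ ·) atTop (fun n : ℕ => f n / Real.log n) :=
    ⟨L + 1, by simpa using hup 1 one_pos⟩
  have hcob : IsCoboundedUnder (· ≤ ·) atTop (fun n : ℕ => f n / Real.log n) :=
    isCoboundedUnder_le_of_le atTop (x := 0) (fun n => div_nonneg (h0 n)
      (Real.log_natCast_nonneg n))
  apply le_antisymm
  · apply le_of_forall_pos_le_add
    intro ε hε
    exact limsup_le_of_le hcob (hup ε hε)
  · rw [← sub_nonneg]
    apply le_of_forall_pos_le_add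
    intro ε hε
    have : L - ε ≤ limsup (fun n : ℕ => f n / Real.log n) atTop := by
      apply le_limsup_of_frequently_le _ hbdd
      rw [frequently_atTop]
      intro N
      obtain ⟨N', hN'⟩ := eventually_atTop.mp (hev ε hε)
      obtain ⟨n, hn1, hn2⟩ := hl (max N (max N' 2))
      have h2 : 2 ≤ n := (le_max_right _ _).trans ((le_max_right _ _).trans hn1)
      refine ⟨n, (le_max_left _ _).trans hn1, ?_⟩
      have h3 := hpos n h2
      have h4 := hN' n ((le_max_left _ _).trans ((le_max_right _ _).trans hn1))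
      rw [div_lt_iff₀ h3] at h4
      rw [le_div_iff₀ h3]
      linarith
    linarith

/-- logarithm of the golden ratio. -/
theorem log_gr_pos : 0 < Real.log gr := Real.log_pos gr_one_lt

theorem log_gr_lt : Real.log gr < 1 := by
  have := Real.log_lt_sub_one_of_pos gr_pos gr_one_lt.ne'
  have := gr_lt
  linarith

theorem upper_log (n : ℕ) (hn : 1 ≤ n) :
    (PPL n : ℝ) ≤ 1 / (3 * Real.log gr) * Real.log n + 1102 := by
  have h1 := log_gr_pos
  have hn0 : (0 : ℝ) < n := by exact_mod_cast hn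
  have hln : 0 ≤ Real.log n := Real.log_natCast_nonneg n
  set y : ℝ := (Real.log gr + Real.log n) / (3 * Real.log gr) with hy
  have hy0 : 0 ≤ y := by positivity
  have h2 : y ≤ (⌈y⌉₊ : ℝ) := Nat.le_ceil y
  have h3 : (⌈y⌉₊ : ℝ) < y + 1 := Nat.ceil_lt_add_one hy0
  have h4 : gr * n ≤ gr ^ (3 * ((⌈y⌉₊ : ℕ) : ℤ)) := by
    rw [← Real.log_le_log_iff (mul_pos gr_pos hn0) (zpos _), Real.log_mul gr_ne hn0.ne',
      Real.log_zpow]
    push_cast
    rw [hy, div_le_iff₀ (by positivity)] at h2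
    linarith
  have h5 : (PPL n : ℝ) ≤ (⌈y⌉₊ : ℝ) + 1100 := by exact_mod_cast upper_bound n ⌈y⌉₊ h4
  have h6 : y = 1 / (3 * Real.log gr) * Real.log n + 1 / 3 := by
    rw [hy]; field_simp
    ring
  linarith

theorem lower_log (N : ℕ) : ∃ n : ℕ, N ≤ n ∧
    1 / (3 * Real.log gr) * Real.log n - 7 ≤ PPL n := by
  obtain ⟨n, hn, hP⟩ := lower_bound (N + 6)
  have h1 := log_gr_pos
  have hle : PPL n ≤ n := by
    have := PPL_add 0 n
    rw [PPL_zero] at this
    simpa using this
  push_cast at hP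
  have hNn : N ≤ n := by
    have : (N : ℤ) ≤ n := by
      have : ((PPL n : ℕ) : ℤ) ≤ n := by exact_mod_cast hle
      linarith
    exact_mod_cast this
  refine ⟨n, hNn, ?_⟩
  have h2 : (n : ℝ) ≤ gr ^ (3 * ((N + 6 : ℕ) : ℤ) + 1) := by
    have h3 := le_ph_z n
    have h4 := congrArg ph (xs_double (N + 6))
    rw [← hn, ph_add, ph_sub, ph_P, ph_P, zpow_one] at h4
    have h5 := gr_pos
    have h6 := zpos (3 * ((N + 6 : ℕ) : ℤ) + 1)
    linarith
  have hP' : (N : ℝ) ≤ PPL n := by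
    have : (N : ℤ) ≤ PPL n := by linarith
    exact_mod_cast this
  rcases Nat.eq_zero_or_pos n with h0 | h0
  · rw [h0]
    simp only [CharP.cast_eq_zero, Real.log_zero, mul_zero]
    have : (0 : ℝ) ≤ PPL 0 := Nat.cast_nonneg _
    linarith
  have hn0 : (0 : ℝ) < n := by exact_mod_cast h0
  have h7 : Real.log n ≤ (3 * (N + 6) + 1) * Real.log gr := by
    have := Real.log_le_log hn0 h2
    rw [Real.log_zpow] at this
    push_cast at this
    exact this
  have h8 : 1 / (3 * Real.log gr) * Real.log n ≤ N + 6 + 1 / 3 := by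
    rw [one_div, inv_mul_le_iff₀ (by positivity)]
    linarith
  linarith

end Pool.Agent.Q266.FW
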