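import Mathlib

/-!
Divisibility between products of factorials from a floor inequality (Legendre), and a few facts on
the exponent of two in a factorial.
-/

namespace Q266.FacDvd

open Finset

/-- If `∑ ⌊a/q⌋ ≤ ∑ ⌊b/q⌋` for every `q ≥ 2`, then `∏ a! ∣ ∏ b!`. -/
theorem fac_dvd (A B : List ℕ)
    (h : ∀ q, 2 ≤ q → (A.map (fun a => a / q)).sum ≤ (B.map (fun a => a / q)).sum) :
    (A.map Nat.factorial).prod ∣ (B.map Nat.factorial).prod := by
  have key : ∀ (p : ℕ), p.Prime → ∀ (T : List ℕ) (N : ℕ), (∀ a ∈ T, Nat.log p a < N) →
      ((T.map Nat.factorial).prod).factorization p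
        = ∑ i ∈ Ico 1 N, (T.map (fun a => a / p ^ i)).sum := by
    intro p hp T N
    induction T with
    | nil => intro _; simp
    | cons a T ih =>
      intro hT
      have h1 : Nat.log p a < N := hT a (by simp)
      have h2 := ih (fun b hb => hT b (by simp [hb]))
      have hne : (T.map Nat.factorial).prod ≠ 0 := by
        apply List.prod_ne_zero
        intro h0
        rw [List.mem_map] at h0
        obtain ⟨b, _, hb⟩ := h0
        exact Nat.factorial_ne_zero b hb
      rw [List.map_cons, List.prod_cons, Nat.factorization_mul (Nat.factorial_ne_zero a) hne,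
        Finsupp.add_apply, h2, Nat.factorization_factorial hp h1, ← Finset.sum_add_distrib]
      apply Finset.sum_congr rfl
      intro i _
      simp
  have hneA : (A.map Nat.factorial).prod ≠ 0 := by
    apply List.prod_ne_zero
    intro h0
    rw [List.mem_map] at h0
    obtain ⟨b, _, hb⟩ := h0
    exact Nat.factorial_ne_zero b hb
  have hneB : (B.map Nat.factorial).prod ≠ 0 := by
    apply List.prod_ne_zero
    intro h0
    rw [List.mem_map] at h0
    obtain ⟨b, _, hb⟩ := h0
    exact Nat.factorial_ne_zero b hb
  rw [← Nat.factorization_prime_le_iff_dvd hneA hneB]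
  intro p hp
  have hlog : ∀ (T : List ℕ), ∀ a ∈ T, Nat.log p a < T.sum + 1 := by
    intro T a ha
    have h1 : a ≤ T.sum := List.single_le_sum (fun _ _ => Nat.zero_le _) a ha
    have h2 : Nat.log p a ≤ a := Nat.log_le_self p a
    omega
  have hA : ∀ a ∈ A, Nat.log p a < A.sum + B.sum + 1 := by
    intro a ha
    have := hlog A a ha
    omega
  have hB : ∀ a ∈ B, Nat.log p a < A.sum + B.sum + 1 := by
    intro a ha
    have := hlog B a ha
    omega
  rw [key p hp A _ hA, key p hp B _ hB]
  apply Finset.sum_le_sum
  intro i hi
  apply h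
  rw [Finset.mem_Ico] at hi
  calc 2 ≤ p := hp.two_le
    _ = p ^ 1 := (pow_one p).symm
    _ ≤ p ^ i := Nat.pow_le_pow_right hp.pos hi.1

/-- exponent of two in `m!` -/
def v (m : ℕ) : ℕ := (Nat.factorial m).factorization 2

theorem v_double (m : ℕ) : v (2 * m) = v m + m :=
  Nat.factorization_factorial_mul Nat.prime_two

theorem v_succ_double (m : ℕ) : v (2 * m + 1) = v m + m := by
  rw [← v_double m]
  unfold v
  rw [Nat.factorial_succ, Nat.factorization_mul (by omega) (Nat.factorial_ne_zero _)]
  rw [Finsupp.add_apply, Nat.factorization_eq_zero_of_not_dvd (by omega), zero_add]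

theorem v_zero : v 0 = 0 := by simp [v]
theorem v_one : v 1 = 0 := by simp [v]

theorem v_lt (m : ℕ) (hm : m ≠ 0) : v m < m := by
  induction m using Nat.strong_induction_on with
  | _ m ih =>
    rcases Nat.even_or_odd' m with ⟨j, hj | hj⟩
    · subst hj
      rw [v_double]
      have := ih j (by omega) (by omega)
      omega
    · subst hj
      rw [v_succ_double]
      rcases Nat.eq_zero_or_pos j with h0 | h0
      · subst h0; simp [v_zero]
      · have := ih j (by omega) (by omega)
        omega

theorem v_le (m : ℕ) : v m ≤ m := by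
  rcases Nat.eq_zero_or_pos m with h0 | h0
  · subst h0; simp [v_zero]
  · exact (v_lt m (by omega)).le

/-- if `v m` is as large as possible then `m` is a power of two -/
theorem v_add_two_le (m : ℕ) (hm : m ≠ 0) (hp : ∀ j : ℕ, m ≠ 2 ^ j) : v m + 2 ≤ m := by
  induction m using Nat.strong_induction_on with
  | _ m ih =>
    rcases Nat.even_or_odd' m with ⟨j, hj | hj⟩
    · subst hj
      rw [v_double]
      have := ih j (by omega) (by omega) (by
        intro i hi
        apply hp (i + 1)
        rw [hi, pow_succ]; ring)
      omega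
    · subst hj
      rw [v_succ_double]
      rcases Nat.eq_zero_or_pos j with h0 | h0
      · exfalso
        apply hp 0
        simp [h0]
      · have := v_lt j (by omega)
        omega

theorem v_two_pow (j : ℕ) : v (2 ^ j) + 1 = 2 ^ j := by
  induction j with
  | zero => simp [v_one]
  | succ j ih => rw [pow_succ, mul_comm, v_double]; omega

theorem v_three : v 3 = 1 := by
  have := v_succ_double 1
  rw [v_one] at this
  simpa using this

theorem v_three_two_pow (j : ℕ) : v (3 * 2 ^ j) + 2 = 3 * 2 ^ j := by
  induction j with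
  | zero => simp [v_three]
  | succ j ih =>
    have : 3 * 2 ^ (j + 1) = 2 * (3 * 2 ^ j) := by rw [pow_succ]; ring
    rw [this, v_double]; omega

theorem v_add_le (a b : ℕ) : v a + v b ≤ v (a + b) := by
  unfold v
  have h := (Nat.factorization_le_iff_dvd (mul_ne_zero (Nat.factorial_ne_zero a)
    (Nat.factorial_ne_zero b)) (Nat.factorial_ne_zero (a + b))).2
    (Nat.factorial_mul_factorial_dvd_factorial_add a b)
  have h2 := h 2
  rw [Nat.factorization_mul (Nat.factorial_ne_zero a) (Nat.factorial_ne_zero b)] at h2
  simpa using h2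

end Q266.FacDvd
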