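import Mathlib

/-!
Exponent of a prime in a product of factorials, level by level (Legendre).
-/

namespace Q266.FacVal

open Finset

theorem prod_fac_ne (T : List ℕ) : (T.map Nat.factorial).prod ≠ 0 := by
  apply List.prod_ne_zero
  intro h0
  rw [List.mem_map] at h0
  obtain ⟨b, _, hb⟩ := h0
  exact Nat.factorial_ne_zero b hb

theorem fac_val_log (p : ℕ) (hp : p.Prime) (T : List ℕ) (N : ℕ) (hT : ∀ a ∈ T, Nat.log p a < N) :
    ((T.map Nat.factorial).prod).factorization p
      = ∑ i ∈ Ico 1 N, (T.map (fun a => a / p ^ i)).sum := by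
  induction T with
  | nil => simp
  | cons a T ih =>
    have h1 : Nat.log p a < N := hT a (by simp)
    have h2 := ih (fun b hb => hT b (by simp [hb]))
    rw [List.map_cons, List.prod_cons, Nat.factorization_mul (Nat.factorial_ne_zero a)
      (prod_fac_ne T), Finsupp.add_apply, h2, Nat.factorization_factorial hp h1,
      ← Finset.sum_add_distrib]
    apply Finset.sum_congr rfl
    intro i _
    simp

theorem log_lt_sum (p : ℕ) (T : List ℕ) : ∀ a ∈ T, Nat.log p a < T.sum + 1 := by
  intro a ha
  have h1 : a ≤ T.sum := List.single_le_sum (fun _ _ => Nat.zero_le _) a ha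
  have h2 : Nat.log p a ≤ a := Nat.log_le_self p a
  omega

/-- levels `i > K` have no deficit, levels `1 ≤ i ≤ K` have deficit at most `1` -/
theorem val_le_add (p : ℕ) (hp : p.Prime) (A B : List ℕ) (K : ℕ)
    (h1 : ∀ i, 1 ≤ i → (A.map (fun a => a / p ^ i)).sum ≤ (B.map (fun a => a / p ^ i)).sum + 1)
    (h2 : ∀ i, K < i → (A.map (fun a => a / p ^ i)).sum ≤ (B.map (fun a => a / p ^ i)).sum) :
    ((A.map Nat.factorial).prod).factorization p
      ≤ ((B.map Nat.factorial).prod).factorization p + K := by
  have hA : ∀ a ∈ A, Nat.log p a < A.sum + B.sum + K + 1 := by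
    intro a ha
    have := log_lt_sum p A a ha
    omega
  have hB : ∀ a ∈ B, Nat.log p a < A.sum + B.sum + K + 1 := by
    intro a ha
    have := log_lt_sum p B a ha
    omega
  rw [fac_val_log p hp A _ hA, fac_val_log p hp B _ hB]
  have h3 : ∑ i ∈ Ico 1 (A.sum + B.sum + K + 1), (A.map (fun a => a / p ^ i)).sum
      ≤ ∑ i ∈ Ico 1 (A.sum + B.sum + K + 1), ((B.map (fun a => a / p ^ i)).sum +
        (if i ≤ K then 1 else 0)) := by
    apply Finset.sum_le_sum
    intro i hi
    rw [Finset.mem_Ico] at hi
    split_ifs with h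
    · exact h1 i hi.1
    · simpa using h2 i (by omega)
  refine h3.trans ?_
  rw [Finset.sum_add_distrib]
  have h4 : ∑ i ∈ Ico 1 (A.sum + B.sum + K + 1), (if i ≤ K then 1 else 0) ≤ K := by
    rw [← Finset.sum_filter, Finset.sum_const, smul_eq_mul, mul_one]
    calc _ ≤ (Finset.Ico 1 (K + 1)).card := by
          apply Finset.card_le_card
          intro i hi
          rw [Finset.mem_filter, Finset.mem_Ico] at hi
          rw [Finset.mem_Ico]
          omega
      _ = K := by simp
  omega

theorem val_le (p : ℕ) (hp : p.Prime) (A B : List ℕ)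
    (h : ∀ i, 1 ≤ i → (A.map (fun a => a / p ^ i)).sum ≤ (B.map (fun a => a / p ^ i)).sum) :
    ((A.map Nat.factorial).prod).factorization p
      ≤ ((B.map Nat.factorial).prod).factorization p := by
  have := val_le_add p hp A B 0 (fun i hi => (h i hi).trans (Nat.le_succ _)) (fun i hi => h i hi)
  simpa using this

/-- one level with a surplus -/
theorem val_lt (p : ℕ) (hp : p.Prime) (A B : List ℕ)
    (h : ∀ i, 1 ≤ i → (A.map (fun a => a / p ^ i)).sum ≤ (B.map (fun a => a / p ^ i)).sum)
    (j : ℕ) (hj : 1 ≤ j)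
    (hlt : (A.map (fun a => a / p ^ j)).sum < (B.map (fun a => a / p ^ j)).sum) :
    ((A.map Nat.factorial).prod).factorization p
      < ((B.map Nat.factorial).prod).factorization p := by
  have hA : ∀ a ∈ A, Nat.log p a < A.sum + B.sum + j + 1 := by
    intro a ha
    have := log_lt_sum p A a ha
    omega
  have hB : ∀ a ∈ B, Nat.log p a < A.sum + B.sum + j + 1 := by
    intro a ha
    have := log_lt_sum p B a ha
    omega
  rw [fac_val_log p hp A _ hA, fac_val_log p hp B _ hB]
  apply Finset.sum_lt_sum
  · intro i hi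
    rw [Finset.mem_Ico] at hi
    exact h i hi.1
  · exact ⟨j, by rw [Finset.mem_Ico]; omega, hlt⟩

theorem val_eq (p : ℕ) (hp : p.Prime) (A B : List ℕ)
    (h : ∀ i, 1 ≤ i → (A.map (fun a => a / p ^ i)).sum = (B.map (fun a => a / p ^ i)).sum) :
    ((A.map Nat.factorial).prod).factorization p
      = ((B.map Nat.factorial).prod).factorization p :=
  le_antisymm (val_le p hp A B fun i hi => (h i hi).le) (val_le p hp B A fun i hi => (h i hi).ge)

/-- If `a * r = b` with `v_p(a) < v_p(b)` then `p ∣ r`. -/
theorem dvd_of_val_lt {p a b r : ℕ} (hb : b ≠ 0) (h : a * r = b)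
    (hlt : a.factorization p < b.factorization p) : p ∣ r := by
  have ha : a ≠ 0 := by rintro rfl; simp at h; exact hb h.symm
  have hr : r ≠ 0 := by rintro rfl; simp at h; exact hb h.symm
  rw [← h, Nat.factorization_mul ha hr, Finsupp.add_apply] at hlt
  exact Nat.dvd_of_factorization_pos (by omega)

theorem not_dvd_of_val_eq {p a b r : ℕ} (hp : p.Prime) (hb : b ≠ 0) (h : a * r = b)
    (heq : a.factorization p = b.factorization p) : ¬ p ∣ r := by
  have ha : a ≠ 0 := by rintro rfl; simp at h; exact hb h.symm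
  have hr : r ≠ 0 := by rintro rfl; simp at h; exact hb h.symm
  rw [← h, Nat.factorization_mul ha hr, Finsupp.add_apply] at heq
  intro hd
  have := hp.factorization_pos_of_dvd hr hd
  omega

end Q266.FacVal
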