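import Mathlib
import Pool.Agent.Q266.FacDvd

/-!
Rationals whose denominator is odd / a power of two / prime to `p`, and divisibility between products
of factorials up to powers of two.
-/

namespace Q266.IntTools

open Finset

/-- Divisibility up to a power of `2`: only odd moduli need the floor inequality. -/
theorem fac_dvd_two (A B : List ℕ)
    (h : ∀ q, 2 < q → q % 2 = 1 → (A.map (fun a => a / q)).sum ≤ (B.map (fun a => a / q)).sum) :
    ∃ e : ℕ, (A.map Nat.factorial).prod ∣ 2 ^ e * (B.map Nat.factorial).prod := by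
  have key : ∀ (p : ℕ), p.Prime → ∀ (T : List ℕ) (N : ℕ), (∀ a ∈ T, Nat.log p a < N) →
      ((T.map Nat.factorial).prod).factorization p
        = ∑ i ∈ Ico 1 N, (T.map (fun a => a / p ^ i)).sum := by
    intro p hp T N
    induction T with
    | nil => intro _; simp
    | cons a T ih =>
      intro hT
      have h1 : Nat.log p a < N := hT a (by simp)
      have h2 := ih (fun b hb => hT b (by simp [hb]))
      have hne : (T.map Nat.factorial).prod ≠ 0 := by
        apply List.prod_ne_zero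
        intro h0
        rw [List.mem_map] at h0
        obtain ⟨b, _, hb⟩ := h0
        exact Nat.factorial_ne_zero b hb
      rw [List.map_cons, List.prod_cons, Nat.factorization_mul (Nat.factorial_ne_zero a) hne,
        Finsupp.add_apply, h2, Nat.factorization_factorial hp h1, ← Finset.sum_add_distrib]
      apply Finset.sum_congr rfl
      intro i _
      simp
  have hneA : (A.map Nat.factorial).prod ≠ 0 := by
    apply List.prod_ne_zero
    intro h0
    rw [List.mem_map] at h0
    obtain ⟨b, _, hb⟩ := h0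
    exact Nat.factorial_ne_zero b hb
  have hneB : (B.map Nat.factorial).prod ≠ 0 := by
    apply List.prod_ne_zero
    intro h0
    rw [List.mem_map] at h0
    obtain ⟨b, _, hb⟩ := h0
    exact Nat.factorial_ne_zero b hb
  refine ⟨((A.map Nat.factorial).prod).factorization 2, ?_⟩
  have h2ne : (2 : ℕ) ^ ((A.map Nat.factorial).prod).factorization 2 ≠ 0 := by positivity
  rw [← Nat.factorization_prime_le_iff_dvd hneA (mul_ne_zero h2ne hneB)]
  intro p hp
  rw [Nat.factorization_mul h2ne hneB, Finsupp.add_apply]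
  by_cases hp2 : p = 2
  · subst hp2
    rw [Nat.Prime.factorization_pow Nat.prime_two, Finsupp.single_eq_same]
    omega
  have hlog : ∀ (T : List ℕ), ∀ a ∈ T, Nat.log p a < T.sum + 1 := by
    intro T a ha
    have h1 : a ≤ T.sum := List.single_le_sum (fun _ _ => Nat.zero_le _) a ha
    have h2 : Nat.log p a ≤ a := Nat.log_le_self p a
    omega
  have hA : ∀ a ∈ A, Nat.log p a < A.sum + B.sum + 1 := by
    intro a ha
    have := hlog A a ha
    omega
  have hB : ∀ a ∈ B, Nat.log p a < A.sum + B.sum + 1 := by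
    intro a ha
    have := hlog B a ha
    omega
  rw [key p hp A _ hA, key p hp B _ hB]
  apply le_trans _ (Nat.le_add_left _ _)
  apply Finset.sum_le_sum
  intro i hi
  rw [Finset.mem_Ico] at hi
  have hodd : Odd p := hp.odd_of_ne_two hp2
  have h2 := hp.two_le
  apply h
  · calc 2 < p := by omega
      _ = p ^ 1 := (pow_one p).symm
      _ ≤ p ^ i := Nat.pow_le_pow_right hp.pos hi.1
  · exact Nat.odd_iff.1 (hodd.pow)

/-- `x` has an odd denominator. -/
def OI (x : ℚ) : Prop := ∃ B : ℕ, B % 2 = 1 ∧ ∃ z : ℤ, (B : ℚ) * x = z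

/-- the denominator of `x` is a power of two. -/
def TI (x : ℚ) : Prop := ∃ A : ℕ, ∃ z : ℤ, (2 : ℚ) ^ A * x = z

theorem OI.add {x y : ℚ} (hx : OI x) (hy : OI y) : OI (x + y) := by
  obtain ⟨B, hB, z, hz⟩ := hx
  obtain ⟨C, hC, w, hw⟩ := hy
  refine ⟨B * C, by rw [Nat.mul_mod, hB, hC], C * z + B * w, ?_⟩
  push_cast
  rw [← hz, ← hw]
  ring

theorem TI.add {x y : ℚ} (hx : TI x) (hy : TI y) : TI (x + y) := by
  obtain ⟨B, z, hz⟩ := hx
  obtain ⟨C, w, hw⟩ := hy
  refine ⟨B + C, 2 ^ C * z + 2 ^ B * w, ?_⟩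
  push_cast
  rw [← hz, ← hw, pow_add]
  ring

theorem OI.mul {x y : ℚ} (hx : OI x) (hy : OI y) : OI (x * y) := by
  obtain ⟨B, hB, z, hz⟩ := hx
  obtain ⟨C, hC, w, hw⟩ := hy
  refine ⟨B * C, by rw [Nat.mul_mod, hB, hC], z * w, ?_⟩
  push_cast
  rw [← hz, ← hw]
  ring

theorem TI.mul {x y : ℚ} (hx : TI x) (hy : TI y) : TI (x * y) := by
  obtain ⟨B, z, hz⟩ := hx
  obtain ⟨C, w, hw⟩ := hy
  refine ⟨B + C, z * w, ?_⟩
  push_cast
  rw [← hz, ← hw, pow_add]
  ring

theorem OI.int (z : ℤ) : OI (z : ℚ) := ⟨1, rfl, z, by simp⟩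
theorem TI.int (z : ℤ) : TI (z : ℚ) := ⟨0, z, by simp⟩

theorem TI.half : TI (1 / 2) := ⟨1, 1, by norm_num⟩

theorem TI.pow_inv (e : ℕ) : TI (1 / 2 ^ e) := ⟨e, 1, by
  have : (2 : ℚ) ^ e ≠ 0 := by positivity
  field_simp
  norm_num⟩

theorem OI.sum {ι : Type*} (s : Finset ι) (f : ι → ℚ) (h : ∀ i ∈ s, OI (f i)) :
    OI (∑ i ∈ s, f i) := by
  classical
  induction s using Finset.induction_on with
  | empty => simpa using OI.int 0
  | insert a s ha ih =>
    rw [Finset.sum_insert ha]
    exact (h a (by simp)).add (ih fun i hi => h i (by simp [hi]))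

theorem TI.sum {ι : Type*} (s : Finset ι) (f : ι → ℚ) (h : ∀ i ∈ s, TI (f i)) :
    TI (∑ i ∈ s, f i) := by
  classical
  induction s using Finset.induction_on with
  | empty => simpa using TI.int 0
  | insert a s ha ih =>
    rw [Finset.sum_insert ha]
    exact (h a (by simp)).add (ih fun i hi => h i (by simp [hi]))

/-- a rational whose denominator is odd and a power of two is an integer -/
theorem int_of_OI_TI {x : ℚ} (h1 : OI x) (h2 : TI x) : ∃ z : ℤ, x = z := by
  obtain ⟨B, hB, z, hz⟩ := h1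
  obtain ⟨A, w, hw⟩ := h2
  have hc : IsCoprime (B : ℤ) ((2 : ℤ) ^ A) := by
    apply IsCoprime.pow_right
    rw [Int.isCoprime_iff_gcd_eq_one]
    have : Nat.Coprime B 2 := by
      rw [Nat.coprime_two_right, Nat.odd_iff]
      exact hB
    exact_mod_cast this
  obtain ⟨u, v, huv⟩ := hc
  refine ⟨u * z + v * w, ?_⟩
  push_cast
  rw [← hz, ← hw]
  have h3 : (u : ℚ) * B + v * 2 ^ A = 1 := by exact_mod_cast huv
  calc x = ((u : ℚ) * B + v * 2 ^ A) * x := by rw [h3, one_mul]
    _ = _ := by ring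

/-- quotient of naturals with odd denominator -/
theorem OI.of_div {a b : ℕ} {x : ℚ} (hb : b % 2 = 1) (h : x = (a : ℚ) / b) : OI x := by
  refine ⟨b, hb, a, ?_⟩
  have : (b : ℚ) ≠ 0 := by
    have : b ≠ 0 := by rintro rfl; simp at hb
    exact_mod_cast this
  rw [h]
  field_simp
  norm_num

theorem TI.of_dvd {a b e : ℕ} {x : ℚ} (hb : b ≠ 0) (hd : b ∣ 2 ^ e * a) (h : x = (a : ℚ) / b) :
    TI x := by
  obtain ⟨c, hc⟩ := hd
  refine ⟨e, c, ?_⟩
  have hb' : (b : ℚ) ≠ 0 := by exact_mod_cast hb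
  rw [h]
  have h2 : (2 : ℚ) ^ e * a = b * c := by exact_mod_cast hc
  field_simp
  push_cast
  linarith

end Q266.IntTools
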