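import Mathlib

set_option autoImplicit false

/-! # A code of linearized polynomials in characteristic two

`L/F` is an extension with an automorphism `s` such that `s³ = 1` and whose fixed field is `F`.
The code consists of the maps `x ↦ (u + s² u)² x + b₁ s x + b₂ s² x`, `u = b₁ + s b₂`. -/

namespace Pool.Agent.Q266.Mrd

variable {F L : Type} [Field F] [Field L] [Algebra F L]

/-- the map `x ↦ b₀ x + b₁ s x + b₂ s² x` -/
def lp (s : L ≃ₐ[F] L) (b0 b1 b2 : L) : L →ₗ[F] L where
  toFun x := b0 * x + b1 * s x + b2 * s (s x)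
  map_add' x y := by simp only [map_add]; ring
  map_smul' c x := by
    have h1 : s (c • x) = c • s x := map_smul s c x
    have h2 : s (c • s x) = c • s (s x) := map_smul s c (s x)
    rw [h1, h2]
    simp only [Algebra.smul_def, RingHom.id_apply]
    ring

/-- the value `u` -/
def uu (s : L ≃ₐ[F] L) (b1 b2 : L) : L := b1 + s b2

/-- the first coefficient -/
def b00 (s : L ≃ₐ[F] L) (b1 b2 : L) : L := (uu s b1 b2 + s (s (uu s b1 b2))) ^ 2

/-- a member of the code -/
def cm (s : L ≃ₐ[F] L) (b1 b2 : L) : L →ₗ[F] L := lp s (b00 s b1 b2) b1 b2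

lemma lp_apply (s : L ≃ₐ[F] L) (b0 b1 b2 x : L) :
    lp s b0 b1 b2 x = b0 * x + b1 * s x + b2 * s (s x) := rfl

/-- linear independence of `1, s, s²` -/
lemma lp_eq_zero {s : L ≃ₐ[F] L} (h1 : ∃ x, s x ≠ x) (h2 : ∃ x, s (s x) ≠ x)
    {b0 b1 b2 : L} (h : ∀ x, b0 * x + b1 * s x + b2 * s (s x) = 0) :
    b0 = 0 ∧ b1 = 0 ∧ b2 = 0 := by
  have hli := linearIndependent_monoidHom L L
  let g : Fin 3 → (L →* L) := ![MonoidHom.id L, (s : L →* L), ((s : L →* L).comp (s : L →* L))]
  have hg : Function.Injective g := by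
    obtain ⟨x, hx⟩ := h1
    obtain ⟨y, hy⟩ := h2
    have e01 : g 0 ≠ g 1 := fun e => hx (DFunLike.congr_fun e x).symm
    have e02 : g 0 ≠ g 2 := fun e => hy (DFunLike.congr_fun e y).symm
    have e12 : g 1 ≠ g 2 := fun e => by
      have h3 : s x = s (s x) := DFunLike.congr_fun e x
      exact hx (s.injective h3).symm
    intro i j hij
    fin_cases i <;> fin_cases j <;> first | rfl | (exfalso; first | exact e01 hij | exact e01 hij.symm | exact e02 hij | exact e02 hij.symm | exact e12 hij | exact e12 hij.symm)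
  have hli2 := hli.comp g hg
  rw [Fintype.linearIndependent_iff] at hli2
  have h3 := hli2 ![b0, b1, b2] (by
    ext x
    simp only [Fin.sum_univ_three, g, Function.comp]
    simpa using h x)
  exact ⟨h3 0, h3 1, h3 2⟩

lemma lp_inj {s : L ≃ₐ[F] L} (h1 : ∃ x, s x ≠ x) (h2 : ∃ x, s (s x) ≠ x)
    {b0 b1 b2 c0 c1 c2 : L} (h : lp s b0 b1 b2 = lp s c0 c1 c2) :
    b0 = c0 ∧ b1 = c1 ∧ b2 = c2 := by
  have h3 := lp_eq_zero (s := s) h1 h2 (b0 := b0 - c0) (b1 := b1 - c1) (b2 := b2 - c2) (by
    intro x
    have h4 := LinearMap.congr_fun h x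
    rw [lp_apply, lp_apply] at h4
    linear_combination h4)
  exact ⟨sub_eq_zero.1 h3.1, sub_eq_zero.1 h3.2.1, sub_eq_zero.1 h3.2.2⟩

/-- a root of a quadratic over the fixed field of `s` is fixed by `s` -/
lemma quad_fix {s : L ≃ₐ[F] L} (h3 : ∀ x, s (s (s x)) = x) (h2 : (2 : L) = 0)
    {r t v : L} (ht : s t = t) (hv : s v = v) (h : r = (r * t + v) ^ 2) : s r = r := by
  have ha : s r = (s r * t + v) ^ 2 := by
    have := congrArg s h
    simpa [ht, hv] using this
  -- d = r + s r
  have hd : (r + s r) * (t ^ 2 * (r + s r) + 1) = 0 := by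
    linear_combination h + ha + (t ^ 2 * r ^ 2 + t ^ 2 * (s r) ^ 2 + t ^ 2 * r * s r +
      r * t * v + s r * t * v + v ^ 2) * h2
  rcases mul_eq_zero.1 hd with h4 | h4
  · have : s r = -r := by linear_combination h4
    rw [this]
    linear_combination (-r) * h2
  · -- d is fixed by s
    have h5 := congrArg s h4
    simp only [map_add, map_mul, map_pow, map_one, map_zero, ht] at h5
    have h6 : t ^ 2 * (r + s (s r)) = 0 := by
      linear_combination h4 + h5 - (t ^ 2 * s r + 1) * h2
    have ht0 : t ^ 2 ≠ 0 := by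
      intro h0
      rw [h0] at h4
      simp at h4
    have h7 : r + s (s r) = 0 := (mul_eq_zero.1 h6).resolve_left ht0
    have h8 : s (s r) = r := by linear_combination h7 - r * h2
    have h9 : s r = s (s (s r)) := by rw [h8]
    rw [h9, h3]


/-- a nonzero member of the code does not take its values in a line -/
lemma not_rank_one {s : L ≃ₐ[F] L} (h1 : ∃ x, s x ≠ x) (h2' : ∃ x, s (s x) ≠ x)
    (h3 : ∀ x, s (s (s x)) = x) (h2 : (2 : L) = 0) {b1 b2 : L} (hne : cm s b1 b2 ≠ 0)
    {a : L} (h : ∀ x, ∃ c : F, cm s b1 b2 x = c • a) : False := by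
  have ha : a ≠ 0 := by
    rintro rfl
    apply hne
    ext x
    obtain ⟨c, hc⟩ := h x
    rw [hc, smul_zero]
    rfl
  -- the quotient is fixed
  have hfix : ∀ x, s (cm s b1 b2 x / a) = cm s b1 b2 x / a := by
    intro x
    obtain ⟨c, hc⟩ := h x
    rw [hc, Algebra.smul_def, mul_div_cancel_right₀ _ ha, AlgEquiv.commutes]
  set b0 := b00 s b1 b2 with hb0
  have hsa : s a ≠ 0 := fun h0 => ha (by simpa using h0)
  have hrel := lp_eq_zero (s := s) h1 h2' (b0 := s (b2 / a) - b0 / a) (b1 := s (b0 / a) - b1 / a)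
    (b2 := s (b1 / a) - b2 / a) (by
      intro x
      have h4 := hfix x
      have h5 : cm s b1 b2 x = b0 * x + b1 * s x + b2 * s (s x) := rfl
      rw [h5] at h4
      simp only [map_div₀, map_add, map_mul, h3] at h4 ⊢
      field_simp at h4 ⊢
      linear_combination h4)
  obtain ⟨e0, e1, e2⟩ := hrel
  set b := b0 / a with hb
  have hb0' : b0 = a * b := by rw [hb]; field_simp
  have hb1' : b1 = a * s b := by
    have : b1 / a = s b := by linear_combination -e1
    rw [← this]; field_simp
  have hb2' : b2 = a * s (s b) := by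
    have h5 : b1 / a = s b := by linear_combination -e1
    have : b2 / a = s (s b) := by rw [← h5]; linear_combination -e2
    rw [← this]; field_simp
  have hbne : b ≠ 0 := by
    intro hb0''
    apply hne
    ext x
    have h5 : cm s b1 b2 x = b0 * x + b1 * s x + b2 * s (s x) := rfl
    rw [h5, hb0', hb1', hb2', hb0'']
    simp
  -- the equation
  set t := b + s b + s (s b) with ht
  set v := a + s a + s (s a) with hv
  have hst : s t = t := by rw [ht]; simp only [map_add, h3]; ring
  have hsv : s v = v := by rw [hv]; simp only [map_add, h3]; ring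
  have heq : a * b = (a * t + b * v) ^ 2 := by
    rw [← hb0', hb0, b00, uu]
    have hx : b1 + s b2 + s (s (b1 + s b2)) = a * t + b * v := by
      rw [hb1', hb2']
      simp only [map_add, map_mul, h3]
      rw [ht, hv]
      linear_combination (-(a * b)) * h2
    rw [hx]
  set r := a / b with hr
  have har : a = r * b := by rw [hr]; field_simp
  have hreq : r = (r * t + v) ^ 2 := by
    have h5 : b ^ 2 * r = b ^ 2 * (r * t + v) ^ 2 := by
      have := heq
      rw [har] at this
      linear_combination this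
    exact mul_left_cancel₀ (pow_ne_zero 2 hbne) h5
  have hsr := quad_fix h3 h2 hst hsv hreq
  have hvr : v = r * t := by
    rw [hv, ht, har]
    simp only [map_mul, hsr]
    ring
  have hr0 : r = 0 := by
    rw [hreq, hvr]
    linear_combination (2 * r ^ 2 * t ^ 2) * h2
  apply ha
  rw [har, hr0, zero_mul]

end Pool.Agent.Q266.Mrd
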