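import Mathlib
import Pool.Agent.Q266.MrdA

set_option autoImplicit false

/-! # The matrix code -/

namespace Pool.Agent.Q266.Mrd

open Module

variable {F L : Type} [Field F] [Field L] [Algebra F L]

lemma lp_add (s : L ≃ₐ[F] L) (b0 b1 b2 c0 c1 c2 : L) :
    lp s b0 b1 b2 + lp s c0 c1 c2 = lp s (b0 + c0) (b1 + c1) (b2 + c2) := by
  ext x
  show lp s b0 b1 b2 x + lp s c0 c1 c2 x = _
  simp only [lp_apply]
  ring

lemma lp_smul (s : L ≃ₐ[F] L) (c : F) (b0 b1 b2 : L) :
    c • lp s b0 b1 b2 =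
      lp s (algebraMap F L c * b0) (algebraMap F L c * b1) (algebraMap F L c * b2) := by
  ext x
  show c • lp s b0 b1 b2 x = _
  simp only [lp_apply, Algebra.smul_def]
  ring

lemma b00_add (s : L ≃ₐ[F] L) (h2 : (2 : L) = 0) (b1 b2 c1 c2 : L) :
    b00 s b1 b2 + b00 s c1 c2 = b00 s (b1 + c1) (b2 + c2) := by
  simp only [b00, uu, map_add]
  linear_combination (-(b1 + s b2 + (s (s b1) + s (s (s b2)))) *
    (c1 + s c2 + (s (s c1) + s (s (s c2))))) * h2

lemma cm_add (s : L ≃ₐ[F] L) (h2 : (2 : L) = 0) (b1 b2 c1 c2 : L) :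
    cm s b1 b2 + cm s c1 c2 = cm s (b1 + c1) (b2 + c2) := by
  rw [cm, cm, lp_add, b00_add s h2, cm]

lemma b00_smul (s : L ≃ₐ[F] L) (c : F) (b1 b2 : L) :
    b00 s (algebraMap F L c * b1) (algebraMap F L c * b2) =
      (algebraMap F L c) ^ 2 * b00 s b1 b2 := by
  simp only [b00, uu, map_add, map_mul, AlgEquiv.commutes]
  ring

/-- a member of the code with a proper scalar multiple in the code -/
lemma scalar_fix {s : L ≃ₐ[F] L} (h1 : ∃ x, s x ≠ x) (h2' : ∃ x, s (s x) ≠ x)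
    (h3 : ∀ x, s (s (s x)) = x) (h2 : (2 : L) = 0) {b1 b2 c1 c2 : L} {c : F} (hc0 : c ≠ 0)
    (hc1 : c ≠ 1) (h : c • cm s b1 b2 = cm s c1 c2) : s (uu s b1 b2) = uu s b1 b2 := by
  rw [cm, lp_smul, cm] at h
  obtain ⟨e0, e1, e2⟩ := lp_inj h1 h2' h
  rw [← e1, ← e2, b00_smul] at e0
  have h4 : algebraMap F L c * (algebraMap F L c - 1) * b00 s b1 b2 = 0 := by
    linear_combination -e0
  have h5 : algebraMap F L c ≠ 0 := by
    rw [Ne, map_eq_zero]; exact hc0
  have h6 : algebraMap F L c - 1 ≠ 0 := by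
    intro h7
    apply hc1
    have : algebraMap F L c = algebraMap F L 1 := by rw [map_one]; linear_combination h7
    exact (algebraMap F L).injective this
  have h7 : b00 s b1 b2 = 0 := (mul_eq_zero.1 h4).resolve_left (mul_ne_zero h5 h6)
  have h8 : uu s b1 b2 + s (s (uu s b1 b2)) = 0 := by
    rw [b00] at h7
    exact pow_eq_zero_iff (two_ne_zero) |>.1 h7
  have h9 : s (s (uu s b1 b2)) = uu s b1 b2 := by
    linear_combination h8 - (uu s b1 b2) * h2
  have h10 := h3 (uu s b1 b2)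
  rw [h9] at h10
  exact h10

/-- a member of the code with `u = 0` is singular -/
lemma singular_of_uu {s : L ≃ₐ[F] L} (h3 : ∀ x, s (s (s x)) = x) (h2 : (2 : L) = 0) {b1 b2 : L}
    (hu : uu s b1 b2 = 0) : cm s b1 b2 (s (s b2)) = 0 := by
  have hb : b1 = s b2 := by
    rw [uu] at hu
    linear_combination hu - (s b2) * h2
  have h0 : b00 s b1 b2 = 0 := by
    rw [b00, hu]; simp
  rw [cm, h0, lp_apply, hb, h3]
  linear_combination (s b2 * b2) * h2

variable (s : L ≃ₐ[F] L) (b : Basis (Fin 3) F L)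

/-- the matrix code -/
def code : Set (Matrix (Fin 3) (Fin 3) F) :=
  {M | ∃ b1 b2 : L, M = LinearMap.toMatrix b b (cm s b1 b2)}

variable {s b}

lemma code_add (h2 : (2 : L) = 0) {M N : Matrix (Fin 3) (Fin 3) F} (hM : M ∈ code s b)
    (hN : N ∈ code s b) : M + N ∈ code s b := by
  obtain ⟨b1, b2, rfl⟩ := hM
  obtain ⟨c1, c2, rfl⟩ := hN
  exact ⟨b1 + c1, b2 + c2, by rw [← cm_add s h2, map_add]⟩

lemma code_sub (h2 : (2 : L) = 0) {M N : Matrix (Fin 3) (Fin 3) F} (hM : M ∈ code s b)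
    (hN : N ∈ code s b) : M - N ∈ code s b := by
  have h2F : (2 : F) = 0 := by
    apply (algebraMap F L).injective
    rw [map_zero, map_ofNat]
    exact h2
  have : M - N = M + N := by
    ext i j
    simp only [Matrix.sub_apply, Matrix.add_apply]
    linear_combination (-(N i j)) * h2F
  rw [this]
  exact code_add h2 hM hN

lemma rank_toMatrix (f : L →ₗ[F] L) :
    (LinearMap.toMatrix b b f).rank = finrank F (LinearMap.range f) := by
  rw [Matrix.rank_eq_finrank_range_toLin _ b b, Matrix.toLin_toMatrix]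

lemma rank_ge_two [FiniteDimensional F L] (h1 : ∃ x, s x ≠ x) (h2' : ∃ x, s (s x) ≠ x)
    (h3 : ∀ x, s (s (s x)) = x) (h2 : (2 : L) = 0) {M : Matrix (Fin 3) (Fin 3) F}
    (hM : M ∈ code s b) (hne : M ≠ 0) : 2 ≤ M.rank := by
  obtain ⟨b1, b2, rfl⟩ := hM
  rw [rank_toMatrix]
  by_contra hcon
  have h4 : finrank F (LinearMap.range (cm s b1 b2)) ≤ 1 := by omega
  rw [finrank_le_one_iff] at h4
  obtain ⟨a, ha⟩ := h4
  refine not_rank_one h1 h2' h3 h2 (b1 := b1) (b2 := b2) ?_ (a := (a : L)) ?_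
  · intro h0
    apply hne
    rw [h0, map_zero]
  · intro x
    obtain ⟨c, hc⟩ := ha ⟨cm s b1 b2 x, LinearMap.mem_range_self _ x⟩
    exact ⟨c, by rw [← Submodule.coe_smul, hc]⟩

lemma det_eq_zero_of {f : L →ₗ[F] L} {x : L} (hx : x ≠ 0) (h : f x = 0) :
    (LinearMap.toMatrix b b f).det = 0 := by
  rw [LinearMap.det_toMatrix]
  by_contra hcon
  have : FiniteDimensional F L := Module.Finite.of_basis b
  have h1 : IsUnit (LinearMap.det f) := isUnit_iff_ne_zero.2 hcon
  have h4 := (LinearMap.isUnit_iff_isUnit_det f).2 h1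
  obtain ⟨g, hg⟩ := h4.exists_left_inv
  have h5 : g (f x) = x := LinearMap.congr_fun hg x
  rw [h, map_zero] at h5
  exact hx h5.symm

lemma rank_of_singular [FiniteDimensional F L] {f : L →ₗ[F] L} {x : L} (hx : x ≠ 0)
    (h : f x = 0) : (LinearMap.toMatrix b b f).rank ≤ 2 := by
  rw [rank_toMatrix]
  have h1 := LinearMap.finrank_range_add_finrank_ker f
  have h2 : finrank F L = 3 := by rw [finrank_eq_card_basis b]; rfl
  have h3 : 1 ≤ finrank F (LinearMap.ker f) := by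
    rw [Nat.one_le_iff_ne_zero, ← pos_iff_ne_zero, finrank_pos_iff_exists_ne_zero]
    exact ⟨⟨x, h⟩, fun h0 => hx (congrArg Subtype.val h0)⟩
  omega

/-- the size of the code -/
lemma card_code [Finite L] (h1 : ∃ x, s x ≠ x) (h2' : ∃ x, s (s x) ≠ x) :
    Nat.card (code s b) = Nat.card L ^ 2 := by
  have e : (L × L) ≃ code s b := Equiv.ofBijective
    (fun p => ⟨LinearMap.toMatrix b b (cm s p.1 p.2), p.1, p.2, rfl⟩) (by
      constructor
      · rintro ⟨x, y⟩ ⟨z, w⟩ h
        have h3 := (LinearMap.toMatrix b b).injective (congrArg Subtype.val h)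
        obtain ⟨-, e1, e2⟩ := lp_inj h1 h2' h3
        exact Prod.ext e1 e2
      · rintro ⟨M, x, y, rfl⟩
        exact ⟨(x, y), rfl⟩)
  rw [← Nat.card_congr e, Nat.card_prod, sq]

/-- the core of the argument: additive subsets of the code with room for a scalar multiple -/
lemma core [Finite L] (h1 : ∃ x, s x ≠ x) (h2' : ∃ x, s (s x) ≠ x)
    (h3 : ∀ x, s (s (s x)) = x) (h2 : (2 : L) = 0) (hfix : Nat.card {x : L // s x = x} ≤ Nat.card F)
    (X : AddSubgroup (Matrix (Fin 3) (Fin 3) F)) (hX : ∀ M ∈ X, M ∈ code s b) {c : F}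
    (hc0 : c ≠ 0) (hc1 : c ≠ 1) (hcX : ∀ M ∈ X, c • M ∈ code s b)
    (hcard : Nat.card F < Nat.card X) : ∃ M ∈ X, M ≠ 0 ∧ M.det = 0 := by
  choose p r hpr using hX
  have hu : ∀ M (hM : M ∈ X), s (uu s (p M hM) (r M hM)) = uu s (p M hM) (r M hM) := by
    intro M hM
    obtain ⟨c1, c2, hc⟩ := hcX M hM
    rw [hpr M hM] at hc
    rw [← map_smul] at hc
    exact scalar_fix h1 h2' h3 h2 hc0 hc1 ((LinearMap.toMatrix b b).injective hc)
  let U : X → {x : L // s x = x} := fun M => ⟨_, hu M.1 M.2⟩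
  have hFin : Finite {x : L // s x = x} := inferInstance
  have hXfin : Finite X := Nat.finite_of_card_ne_zero (by omega)
  have hni : ¬ Function.Injective U := by
    intro hinj
    have := Nat.card_le_card_of_injective U hinj
    omega
  rw [Function.Injective] at hni
  push Not at hni
  obtain ⟨M, N, hMN, hne⟩ := hni
  have hmem : M.1 - N.1 ∈ X := X.sub_mem M.2 N.2
  refine ⟨M.1 - N.1, hmem, fun h0 => hne (Subtype.ext (sub_eq_zero.1 h0)), ?_⟩
  have e := hpr _ hmem
  have hne' : M.1 - N.1 ≠ 0 := fun h0 => hne (Subtype.ext (sub_eq_zero.1 h0))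
  have hsum : cm s (p _ hmem) (r _ hmem) + cm s (p N.1 N.2) (r N.1 N.2) =
      cm s (p M.1 M.2) (r M.1 M.2) := by
    apply (LinearMap.toMatrix b b).injective
    rw [map_add, ← hpr, ← hpr, ← hpr]
    abel
  rw [cm_add s h2] at hsum
  obtain ⟨-, e1, e2⟩ := lp_inj h1 h2' hsum
  have hU : uu s (p M.1 M.2) (r M.1 M.2) = uu s (p N.1 N.2) (r N.1 N.2) :=
    congrArg Subtype.val hMN
  have hu0 : uu s (p _ hmem) (r _ hmem) = 0 := by
    rw [← e1, ← e2] at hU
    simp only [uu, map_add] at hU ⊢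
    linear_combination hU
  have hs := singular_of_uu h3 h2 hu0
  rw [e]
  refine det_eq_zero_of (x := s (s (r _ hmem))) ?_ hs
  intro h0
  have hr0 : r _ hmem = 0 := by simpa using h0
  apply hne'
  rw [e]
  have hp0 : p _ hmem = 0 := by
    rw [uu, hr0, map_zero, add_zero] at hu0
    exact hu0
  rw [hp0, hr0]
  have : cm s (0 : L) 0 = 0 := by
    ext x
    rw [cm, lp_apply, b00, uu]
    simp
  rw [this, map_zero]

end Pool.Agent.Q266.Mrd
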