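import Pool.Agent.Q266.DS4

/-!
# Binary lattice sums: the modular equation of degree 3 and relatives
-/

set_option autoImplicit false

namespace Q266.PD

open PowerSeries Q279.QS Q266.DS

/-- splitting a double sum along a bijection `ℤ² ⊔ ℤ² ≃ ℤ²` -/
theorem TS_split {e c : ℤ × ℤ → ℤ} (he : FF e) {f g : ℤ × ℤ → ℤ × ℤ}
    (hb : Function.Bijective (Sum.elim f g)) :
    TS e c = TS (fun p => e (f p)) (fun p => c (f p)) + TS (fun p => e (g p)) (fun p => c (g p)) := by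
  rw [← TS_equiv (Equiv.ofBijective _ hb)]
  simp only [Equiv.ofBijective_apply]
  rw [TS_sum_type (he.comp_injective hb.1)]
  simp only [Sum.elim_inl, Sum.elim_inr]

/-- `y = φ(q^3)` -/
noncomputable def Ph3 : ℤ⟦X⟧ := expand 3 (by norm_num) Phi

/-- `y' = φ(-q^3)` -/
noncomputable def pm3 : ℤ⟦X⟧ := expand 3 (by norm_num) phm

/-- `ψ` -/
noncomputable def Psi : ℤ⟦X⟧ := TS (fun n : ℤ => 2 * n ^ 2 - n) (fun _ => (1 : ℤ))

/-- `ψ(q^2)`, `ψ(q^6)` -/
noncomputable def Psi2 : ℤ⟦X⟧ := expand 2 (by norm_num) Psi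
noncomputable def Psi6 : ℤ⟦X⟧ := expand 3 (by norm_num) Psi2

theorem Ph3_eq : Ph3 = TS (fun n : ℤ => 3 * n ^ 2) (fun _ => (1 : ℤ)) := by
  rw [Ph3, Phi, expand_TS]; rfl

theorem pm3_eq : pm3 = TS (fun n : ℤ => 3 * n ^ 2) (fun n => sg n) := by
  rw [pm3, phm_sg, expand_TS]; rfl

theorem FF_3sq : FF fun n : ℤ => 3 * n ^ 2 := fun m =>
  (Set.finite_Icc (-m) m).subset fun n hn => by
    have h2 : 3 * n ^ 2 = m := hn
    rw [Set.mem_Icc]
    constructor <;> nlinarith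

theorem sq0 (n : ℤ) : 0 ≤ n ^ 2 := sq_nonneg n
theorem sq3 (n : ℤ) : 0 ≤ 3 * n ^ 2 := by positivity

theorem Aa_two : Aa = 2 * Psi2 := by
  have h1 := Aa_eul
  have h2 := congrArg (expand 2 (by norm_num)) gauss_psi
  rw [map_mul, map_pow, expand_eul _ (by norm_num), expand_eul _ (by norm_num)] at h2
  have h3 : eul (2 * 1) ≠ 0 := eul_ne_zero (by norm_num)
  refine mul_right_cancel₀ h3 ?_
  have h4 : (2 : ℤ⟦X⟧) * Psi2 * eul (2 * 1) = 2 * (eul (2 * 1) * expand 2 (by norm_num)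
    (TS (fun n : ℤ => 2 * n ^ 2 - n) (fun _ => (1 : ℤ)))) := by
    unfold Psi2 Psi; ring
  rw [h4, ← h2]
  exact h1

/-- the map `(k, m) ↦ (k + 2m + 1, k)` and `(k, m) ↦ (k + 2m, k)` -/
def fo (p : ℤ × ℤ) : ℤ × ℤ := (p.1 + 2 * p.2 + 1, p.1)
def fe (p : ℤ × ℤ) : ℤ × ℤ := (p.1 + 2 * p.2, p.1)

theorem bij1 : Function.Bijective (Sum.elim fo fe) := by
  constructor
  · rintro (⟨a, a'⟩ | ⟨a, a'⟩) (⟨b, b'⟩ | ⟨b, b'⟩) h <;>
      simp only [fo, fe, Sum.elim_inl, Sum.elim_inr, Prod.mk.injEq] at h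
    · obtain ⟨h3, h4⟩ := h
      have : a = b := by omega
      have : a' = b' := by omega
      simp [*]
    · exfalso; omega
    · exfalso; omega
    · obtain ⟨h3, h4⟩ := h
      have : a = b := by omega
      have : a' = b' := by omega
      simp [*]
  · rintro ⟨i, j⟩
    rcases Int.even_or_odd' (i - j) with ⟨m, h | h⟩
    · refine ⟨Sum.inr (j, m), ?_⟩
      simp only [fe, Sum.elim_inr, Prod.mk.injEq, and_true]
      omega
    · refine ⟨Sum.inl (j, m), ?_⟩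
      simp only [fo, Sum.elim_inl, Prod.mk.injEq, and_true]
      omega

theorem sg_fo (p : ℤ × ℤ) : sg (fo p).1 * sg (fo p).2 = -1 := by
  simp only [fo]
  rw [← sg_add, show p.1 + 2 * p.2 + 1 + p.1 = 2 * (p.1 + p.2) + 1 by ring, sg_add, sg_two_mul,
    sg_one]
  norm_num

theorem sg_fe (p : ℤ × ℤ) : sg (fe p).1 * sg (fe p).2 = 1 := by
  simp only [fe]
  rw [← sg_add, show p.1 + 2 * p.2 + p.1 = 2 * (p.1 + p.2) by ring, sg_two_mul]

theorem FF_q3 : FF fun p : ℤ × ℤ => p.1 ^ 2 + 3 * p.2 ^ 2 := FF_sq.add FF_3sq sq0 sq3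
theorem FF_q1 : FF fun p : ℤ × ℤ => p.1 ^ 2 + p.2 ^ 2 := FF_sq.add FF_sq sq0 sq0

theorem sq_cases (n : ℤ) : sg n = 1 ∨ sg n = -1 := by
  have h := sg_mul_self n
  have h2 : (sg n - 1) * (sg n + 1) = 0 := by linarith
  rcases mul_eq_zero.1 h2 with h | h
  · left; linarith
  · right; linarith

/-- the odd part of `x^2 + 3 y^2` -/
noncomputable def O3 : ℤ⟦X⟧ := TS (fun p : ℤ × ℤ => (fo p).1 ^ 2 + 3 * (fo p).2 ^ 2) (fun _ => (1 : ℤ))

theorem FF_O3 : FF fun p : ℤ × ℤ => (fo p).1 ^ 2 + 3 * (fo p).2 ^ 2 :=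
  FF_q3.comp_injective (g := fo) (by
    have := bij1.1.comp Sum.inl_injective
    exact this)

theorem two_TS {ι : Type*} {e : ι → ℤ} (he : FF e) (c : ι → ℤ) :
    TS e (fun i => 2 * c i) = 2 * TS e c := by
  rw [TS_smul 2 he, map_ofNat]

theorem R3a : Phi * Ph3 - phm * pm3 = 2 * O3 := by
  rw [Phi, Ph3_eq, phm_sg, pm3_eq, TS_mul FF_sq FF_3sq sq0 sq3, TS_mul FF_sq FF_3sq sq0 sq3,
    ← TS_sub FF_q3, TS_split FF_q3 bij1]
  have h1 : TS (fun p : ℤ × ℤ => (fe p).1 ^ 2 + 3 * (fe p).2 ^ 2)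
      (fun p => (1 : ℤ) * 1 - sg (fe p).1 * sg (fe p).2) = 0 := by
    ext n
    rw [map_zero]
    refine coeff_TS_of_zero fun i _ => ?_
    rw [sg_fe]; ring
  rw [h1, add_zero, O3, ← two_TS FF_O3]
  refine TS_congr (fun _ => rfl) fun p => ?_
  rw [sg_fo]; ring

theorem FF_ll3 : FF fun l : ℤ => 3 * (l ^ 2 + l) := fun m =>
  (FF_ll (m / 3)).subset fun n hn => by
    have h : 3 * (n ^ 2 + n) = m := hn
    show n ^ 2 + n = m / 3
    omega

theorem ll3_nonneg (l : ℤ) : 0 ≤ 3 * (l ^ 2 + l) := by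
  have := ll_nonneg l
  linarith

theorem X_mul_TS {ι : Type*} {e : ι → ℤ} (he : FF e) (h0 : ∀ i, 0 ≤ e i) (c : ι → ℤ) :
    X * TS e c = TS (fun i => e i + 1) c := by
  classical
  have he' : FF fun i => e i + 1 := fun n => (he (n - 1)).subset fun i hi => by
    have h : e i + 1 = n := hi
    show e i = n - 1
    linarith
  ext n
  rcases n with _ | n
  · rw [coeff_zero_X_mul]
    symm
    refine coeff_TS_of_zero fun i hi => ?_
    have := h0 i
    push_cast at hi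
    omega
  · rw [coeff_succ_X_mul, coeff_TS, coeff_TS]
    refine finsum_congr fun i => if_congr ?_ rfl rfl
    push_cast
    constructor <;> intro h <;> linarith

/-- `(k, m) ↦ (m + 2k, m)` and `(m + 2 k, -1 - m)`  -/
def ga (p : ℤ × ℤ) : ℤ × ℤ := (p.2 + 2 * p.1, p.2)
def gb (p : ℤ × ℤ) : ℤ × ℤ := (p.2 + 2 * p.1, -1 - p.2)

theorem bij2 : Function.Bijective (Sum.elim ga gb) := by
  constructor
  · rintro (⟨a, a'⟩ | ⟨a, a'⟩) (⟨b, b'⟩ | ⟨b, b'⟩) h <;>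
      simp only [ga, gb, Sum.elim_inl, Sum.elim_inr, Prod.mk.injEq] at h
    · obtain ⟨h3, h4⟩ := h
      have : a' = b' := by omega
      have : a = b := by omega
      simp [*]
    · exfalso; omega
    · exfalso; omega
    · obtain ⟨h3, h4⟩ := h
      have : a' = b' := by omega
      have : a = b := by omega
      simp [*]
  · rintro ⟨i, j⟩
    rcases Int.even_or_odd' (i - j) with ⟨m, h | h⟩
    · refine ⟨Sum.inl (m, j), ?_⟩
      simp only [ga, Sum.elim_inl, Prod.mk.injEq, and_true]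
      omega
    · refine ⟨Sum.inr (m + 1 + j, -1 - j), ?_⟩
      simp only [gb, Sum.elim_inr, Prod.mk.injEq]
      omega

/-- **modular equation of degree 3** -/
theorem R3 : Phi * Ph3 - phm * pm3 = 4 * X * Psi2 * Psi6 := by
  have hA3 : expand 3 (by norm_num) Aa = TS (fun l : ℤ => 3 * (l ^ 2 + l)) (fun _ => (1 : ℤ)) := by
    rw [Aa, expand_TS]; rfl
  have hA3' : expand 3 (by norm_num) Aa = 2 * Psi6 := by
    rw [Aa_two, map_mul, map_ofNat]; rfl
  have hFF := FF_ll.add FF_ll3 ll_nonneg ll3_nonneg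
  have h0 : ∀ p : ℤ × ℤ, 0 ≤ p.1 ^ 2 + p.1 + 3 * (p.2 ^ 2 + p.2) := fun p => by
    have := ll_nonneg p.1
    have := ll3_nonneg p.2
    linarith
  have h1 : X * (Aa * expand 3 (by norm_num) Aa) = 2 * O3 := by
    rw [hA3, Aa, TS_mul FF_ll FF_ll3 ll_nonneg ll3_nonneg, X_mul_TS hFF h0]
    have hFF1 : FF fun p : ℤ × ℤ => p.1 ^ 2 + p.1 + 3 * (p.2 ^ 2 + p.2) + 1 := fun n =>
      (hFF (n - 1)).subset fun i hi => by
        have h : i.1 ^ 2 + i.1 + 3 * (i.2 ^ 2 + i.2) + 1 = n := hi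
        show i.1 ^ 2 + i.1 + 3 * (i.2 ^ 2 + i.2) = n - 1
        linarith
    rw [TS_split hFF1 bij2, O3, two_mul]
    congr 1
    · refine TS_congr (fun p => ?_) fun _ => by ring
      simp only [ga, fo]; ring
    · refine TS_congr (fun p => ?_) fun _ => by ring
      simp only [gb, fo]; ring
  rw [R3a, ← h1, hA3', Aa_two]
  ring

end Q266.PD
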