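import Pool.Agent.Q266.PD1

/-!
# Further lattice sums
-/

set_option autoImplicit false

namespace Q266.PD

open PowerSeries Q279.QS Q266.DS

/-- `k^2 + k m + m^2` with the sign of `k` -/
noncomputable def Hk : ℤ⟦X⟧ := TS (fun p : ℤ × ℤ => p.1 ^ 2 + p.1 * p.2 + p.2 ^ 2) (fun p => sg p.1)

theorem FF_hex : FF fun p : ℤ × ℤ => p.1 ^ 2 + p.1 * p.2 + p.2 ^ 2 := fun n => by
  have h1 : Function.Injective fun p : ℤ × ℤ => (2 * p.1 + p.2, p.2) := by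
    rintro ⟨a, b⟩ ⟨c, d⟩ h
    simp only [Prod.mk.injEq] at h
    obtain ⟨h3, h4⟩ := h
    have : a = c := by omega
    simp [*]
  have h := FF_q3.comp_injective h1 (4 * n)
  refine h.subset fun p hp => ?_
  have hp' : p.1 ^ 2 + p.1 * p.2 + p.2 ^ 2 = n := hp
  show (2 * p.1 + p.2) ^ 2 + 3 * p.2 ^ 2 = 4 * n
  rw [← hp']; ring

def ha (p : ℤ × ℤ) : ℤ × ℤ := (2 * p.2, p.1 - p.2)
def hb (p : ℤ × ℤ) : ℤ × ℤ := (2 * p.2 + 1, p.1)

theorem bij3 : Function.Bijective (Sum.elim ha hb) := by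
  constructor
  · rintro (⟨a, a'⟩ | ⟨a, a'⟩) (⟨b, b'⟩ | ⟨b, b'⟩) h <;>
      simp only [ha, hb, Sum.elim_inl, Sum.elim_inr, Prod.mk.injEq] at h
    · obtain ⟨h3, h4⟩ := h
      have : a' = b' := by omega
      have : a = b := by omega
      simp [*]
    · exfalso; omega
    · exfalso; omega
    · obtain ⟨h3, h4⟩ := h
      have : a' = b' := by omega
      have : a = b := by omega
      simp [*]
  · rintro ⟨i, j⟩
    rcases Int.even_or_odd' i with ⟨m, h | h⟩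
    · refine ⟨Sum.inl (j + m, m), ?_⟩
      simp only [ha, Sum.elim_inl, Prod.mk.injEq]
      omega
    · refine ⟨Sum.inr (j, m), ?_⟩
      simp only [hb, Sum.elim_inr, Prod.mk.injEq, and_true]
      omega

def hc (p : ℤ × ℤ) : ℤ × ℤ := (2 * p.1, p.2)
def hd (p : ℤ × ℤ) : ℤ × ℤ := (-(2 * p.2 + 1) - 2 * p.1, p.2)

theorem bij4 : Function.Bijective (Sum.elim hc hd) := by
  constructor
  · rintro (⟨a, a'⟩ | ⟨a, a'⟩) (⟨b, b'⟩ | ⟨b, b'⟩) h <;>
      simp only [hc, hd, Sum.elim_inl, Sum.elim_inr, Prod.mk.injEq] at h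
    · obtain ⟨h3, h4⟩ := h
      have : a' = b' := by omega
      have : a = b := by omega
      simp [*]
    · exfalso; omega
    · exfalso; omega
    · obtain ⟨h3, h4⟩ := h
      have : a' = b' := by omega
      have : a = b := by omega
      simp [*]
  · rintro ⟨i, j⟩
    rcases Int.even_or_odd' i with ⟨m, h | h⟩
    · refine ⟨Sum.inl (m, j), ?_⟩
      simp only [hc, Sum.elim_inl, Prod.mk.injEq, and_true]
      omega
    · refine ⟨Sum.inr (-m - j - 1, j), ?_⟩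
      simp only [hd, Sum.elim_inr, Prod.mk.injEq, and_true]
      omega

theorem FF_hex' : FF fun p : ℤ × ℤ => p.1 ^ 2 + p.1 * p.2 + p.2 ^ 2 := FF_hex

theorem Hk_eq : Hk = phm * pm3 := by
  have h1 : phm * pm3 = Phi * Ph3 - 2 * O3 := by
    linear_combination -R3a
  have h2 : Phi * Ph3 = TS (fun p : ℤ × ℤ => p.1 ^ 2 + 3 * p.2 ^ 2) (fun _ => (1 : ℤ)) := by
    rw [Phi, Ph3_eq, TS_mul FF_sq FF_3sq sq0 sq3]
    exact TS_congr (fun _ => rfl) fun _ => by ring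
  have hFFb : FF fun p : ℤ × ℤ => (hb p).1 ^ 2 + (hb p).1 * (hb p).2 + (hb p).2 ^ 2 :=
    FF_hex.comp_injective (g := hb) (bij3.1.comp Sum.inr_injective)
  rw [h1, h2, Hk, TS_split FF_hex bij3, sub_eq_add_neg]
  congr 1
  · refine TS_congr (fun p => ?_) fun p => ?_
    · simp only [ha]; ring
    · simp only [ha]; rw [sg_two_mul]
  · rw [TS_split hFFb bij4, two_mul, neg_add]
    congr 1
    · rw [O3, ← TS_neg]
      refine TS_congr (fun p => ?_) fun p => ?_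
      · simp only [hb, hc, fo]; ring
      · simp only [hb, hc]
        rw [sg_add, sg_two_mul, sg_one]; norm_num
    · rw [O3, ← TS_neg]
      refine TS_congr (fun p => ?_) fun p => ?_
      · simp only [hb, hd, fo]; ring
      · simp only [hb, hd]
        rw [sg_add, sg_two_mul, sg_one]; norm_num

theorem add_zero_of_mul {a b : ℤ} (h1 : a * a = 1) (h2 : a * b = -1) : a + b = 0 := by
  have h3 : a * (a + b) = 0 := by linarith [mul_add a a b]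
  rcases mul_eq_zero.1 h3 with h | h
  · rw [h] at h1; norm_num at h1
  · exact h

/-- `φ(q) φ(-q^3) + φ(-q) φ(q^3) = 2 φ(-q^4) φ(-q^12)` -/
theorem XI : Phi * pm3 + phm * Ph3 =
    2 * (expand 4 (by norm_num) phm * expand 4 (by norm_num) pm3) := by
  rw [← map_mul, ← Hk_eq, Hk, expand_TS, Phi, Ph3_eq, phm_sg, pm3_eq, TS_mul FF_sq FF_3sq sq0 sq3,
    TS_mul FF_sq FF_3sq sq0 sq3, ← TS_add FF_q3, TS_split FF_q3 bij1]
  have h1 : TS (fun p : ℤ × ℤ => (fo p).1 ^ 2 + 3 * (fo p).2 ^ 2)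
      (fun p => (1 : ℤ) * sg (fo p).2 + sg (fo p).1 * 1) = 0 := by
    ext n
    rw [map_zero]
    refine coeff_TS_of_zero fun i _ => ?_
    have := add_zero_of_mul (sg_mul_self (fo i).1) (sg_fo i)
    linarith
  have hF : FF fun p : ℤ × ℤ => ((4 : ℕ) : ℤ) * (p.1 ^ 2 + p.1 * p.2 + p.2 ^ 2) := fun n =>
    (FF_hex (n / 4)).subset fun i hi => by
      have h : ((4 : ℕ) : ℤ) * (i.1 ^ 2 + i.1 * i.2 + i.2 ^ 2) = n := hi
      show i.1 ^ 2 + i.1 * i.2 + i.2 ^ 2 = n / 4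
      push_cast at h
      omega
  rw [h1, zero_add, ← two_TS hF]
  refine TS_congr (fun p => ?_) fun p => ?_
  · simp only [fe]; push_cast; ring
  · simp only [fe]; rw [sg_add, sg_two_mul]; ring

def ia (p : ℤ × ℤ) : ℤ × ℤ := (p.1 + p.2, p.1 - p.2)
def ib (p : ℤ × ℤ) : ℤ × ℤ := (p.1 + p.2 + 1, p.1 - p.2)

theorem bij5 : Function.Bijective (Sum.elim ia ib) := by
  constructor
  · rintro (⟨a, a'⟩ | ⟨a, a'⟩) (⟨b, b'⟩ | ⟨b, b'⟩) h <;>
      simp only [ia, ib, Sum.elim_inl, Sum.elim_inr, Prod.mk.injEq] at h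
    · obtain ⟨h3, h4⟩ := h
      have : a' = b' := by omega
      have : a = b := by omega
      simp [*]
    · exfalso; omega
    · exfalso; omega
    · obtain ⟨h3, h4⟩ := h
      have : a' = b' := by omega
      have : a = b := by omega
      simp [*]
  · rintro ⟨i, j⟩
    rcases Int.even_or_odd' (i + j) with ⟨m, h | h⟩
    · refine ⟨Sum.inl (m, i - m), ?_⟩
      simp only [ia, Sum.elim_inl, Prod.mk.injEq]
      omega
    · refine ⟨Sum.inr (m, i - m - 1), ?_⟩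
      simp only [ib, Sum.elim_inr, Prod.mk.injEq]
      omega

theorem sg_ia (p : ℤ × ℤ) : sg (ia p).1 * sg (ia p).2 = 1 := by
  simp only [ia]
  rw [← sg_add, show p.1 + p.2 + (p.1 - p.2) = 2 * p.1 by ring, sg_two_mul]

theorem sg_ib (p : ℤ × ℤ) : sg (ib p).1 * sg (ib p).2 = -1 := by
  simp only [ib]
  rw [← sg_add, show p.1 + p.2 + 1 + (p.1 - p.2) = 2 * p.1 + 1 by ring, sg_add, sg_two_mul, sg_one]
  norm_num

theorem sum_sq : Phi ^ 2 + phm ^ 2 = 2 * (expand 2 (by norm_num) Phi) ^ 2 := by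
  have h2 : (expand 2 (by norm_num) Phi) ^ 2 =
      expand 2 (by norm_num) (TS (fun p : ℤ × ℤ => p.1 ^ 2 + p.2 ^ 2) (fun _ => (1 : ℤ))) := by
    rw [← map_pow, pow_two, Phi, TS_mul FF_sq FF_sq sq0 sq0]
    congr 1
  have hF : FF fun p : ℤ × ℤ => ((2 : ℕ) : ℤ) * (p.1 ^ 2 + p.2 ^ 2) := fun n =>
    (FF_q1 (n / 2)).subset fun i hi => by
      have h : ((2 : ℕ) : ℤ) * (i.1 ^ 2 + i.2 ^ 2) = n := hi
      show i.1 ^ 2 + i.2 ^ 2 = n / 2
      push_cast at h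
      omega
  rw [h2, expand_TS, pow_two, pow_two, phm_sg, Phi, TS_mul FF_sq FF_sq sq0 sq0,
    TS_mul FF_sq FF_sq sq0 sq0, ← TS_add FF_q1, TS_split FF_q1 bij5, ← two_TS hF]
  have h1 : TS (fun p : ℤ × ℤ => (ib p).1 ^ 2 + (ib p).2 ^ 2)
      (fun p => (1 : ℤ) * 1 + sg (ib p).1 * sg (ib p).2) = 0 := by
    ext n
    rw [map_zero]
    refine coeff_TS_of_zero fun i _ => ?_
    rw [sg_ib]; ring
  rw [h1, add_zero]
  refine TS_congr (fun p => ?_) fun p => ?_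
  · simp only [ia]; push_cast; ring
  · rw [sg_ia]; ring

theorem diff_sq : Phi ^ 2 - phm ^ 2 = 8 * X * (expand 2 (by norm_num) Psi2) ^ 2 := by
  have h3 : (expand 2 (by norm_num) Aa) ^ 2 = 4 * (expand 2 (by norm_num) Psi2) ^ 2 := by
    rw [Aa_two, map_mul, map_ofNat]; ring
  have hAA : FF fun p : ℤ × ℤ => p.1 ^ 2 + p.1 + (p.2 ^ 2 + p.2) :=
    FF_ll.add FF_ll ll_nonneg ll_nonneg
  have hF : FF fun p : ℤ × ℤ => ((2 : ℕ) : ℤ) * (p.1 ^ 2 + p.1 + (p.2 ^ 2 + p.2)) := fun n =>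
    (hAA (n / 2)).subset fun i hi => by
      have h : ((2 : ℕ) : ℤ) * (i.1 ^ 2 + i.1 + (i.2 ^ 2 + i.2)) = n := hi
      show i.1 ^ 2 + i.1 + (i.2 ^ 2 + i.2) = n / 2
      push_cast at h
      omega
  have h0 : ∀ p : ℤ × ℤ, 0 ≤ ((2 : ℕ) : ℤ) * (p.1 ^ 2 + p.1 + (p.2 ^ 2 + p.2)) := fun p => by
    have := ll_nonneg p.1
    have := ll_nonneg p.2
    push_cast
    linarith
  have hF' : FF fun p : ℤ × ℤ => ((2 : ℕ) : ℤ) * (p.1 ^ 2 + p.1 + (p.2 ^ 2 + p.2)) + 1 := fun n =>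
    (hF (n - 1)).subset fun i hi => by
      have h : ((2 : ℕ) : ℤ) * (i.1 ^ 2 + i.1 + (i.2 ^ 2 + i.2)) + 1 = n := hi
      show ((2 : ℕ) : ℤ) * (i.1 ^ 2 + i.1 + (i.2 ^ 2 + i.2)) = n - 1
      linarith
  have h2 : X * (expand 2 (by norm_num) Aa) ^ 2 =
      TS (fun p : ℤ × ℤ => ((2 : ℕ) : ℤ) * (p.1 ^ 2 + p.1 + (p.2 ^ 2 + p.2)) + 1)
        (fun _ => (1 : ℤ)) := by
    rw [← map_pow, pow_two, Aa, TS_mul FF_ll FF_ll ll_nonneg ll_nonneg, expand_TS, X_mul_TS hF h0]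
    exact TS_congr (fun _ => rfl) fun _ => by ring
  have h4 : Phi ^ 2 - phm ^ 2 = 2 * (X * (expand 2 (by norm_num) Aa) ^ 2) := by
    rw [h2, pow_two, pow_two, phm_sg, Phi, TS_mul FF_sq FF_sq sq0 sq0,
      TS_mul FF_sq FF_sq sq0 sq0, ← TS_sub FF_q1, TS_split FF_q1 bij5, ← two_TS hF']
    have h1 : TS (fun p : ℤ × ℤ => (ia p).1 ^ 2 + (ia p).2 ^ 2)
        (fun p => (1 : ℤ) * 1 - sg (ia p).1 * sg (ia p).2) = 0 := by
      ext n
      rw [map_zero]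
      refine coeff_TS_of_zero fun i _ => ?_
      rw [sg_ia]; ring
    rw [h1, zero_add]
    refine TS_congr (fun p => ?_) fun p => ?_
    · simp only [ib]; push_cast; ring
    · rw [sg_ib]; ring
  rw [h4, h3]; ring

theorem Psi_eul : eul 2 ^ 2 = eul 1 * Psi := gauss_psi

theorem Psi2_eul : eul 4 ^ 2 = eul 2 * Psi2 := by
  have h2 := congrArg (expand 2 (by norm_num)) Psi_eul
  rw [map_mul, map_pow, expand_eul _ (by norm_num), expand_eul _ (by norm_num)] at h2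
  exact h2

/-- `φ(q) ψ(q^2) = ψ(q)^2` -/
theorem Phi_Psi2 : Phi * Psi2 = Psi ^ 2 := by
  have h1 := Phi_eul
  have h2 := Psi2_eul
  have h3 := Psi_eul
  have n1 : eul 1 ≠ 0 := eul_ne_zero (by norm_num)
  have n2 : eul 2 ≠ 0 := eul_ne_zero (by norm_num)
  have n4 : eul 4 ≠ 0 := eul_ne_zero (by norm_num)
  refine mul_right_cancel₀ (mul_ne_zero n2 (pow_ne_zero 2 (mul_ne_zero n1 n4))) ?_
  calc Phi * Psi2 * (eul 2 * (eul 1 * eul 4) ^ 2) = (Phi * (eul 1 * eul 4) ^ 2) * (eul 2 * Psi2) := by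
        ring
    _ = eul 2 ^ 5 * eul 4 ^ 2 := by rw [h1, h2]
    _ = (eul 2 ^ 2) ^ 2 * (eul 2 * eul 4 ^ 2) := by ring
    _ = (eul 1 * Psi) ^ 2 * (eul 2 * eul 4 ^ 2) := by rw [h3]
    _ = _ := by ring

/-- `φ(q)^4 - φ(-q)^4 = 16 q ψ(q^2)^4` -/
theorem R9 : Phi ^ 4 - phm ^ 4 = 16 * X * Psi2 ^ 4 := by
  have h1 := sum_sq
  have h2 := diff_sq
  have h3 := congrArg (expand 2 (by norm_num)) Phi_Psi2
  rw [map_mul, map_pow] at h3
  have h4 : expand 2 (by norm_num) Psi = Psi2 := rfl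
  rw [h4] at h3
  calc Phi ^ 4 - phm ^ 4 = (Phi ^ 2 - phm ^ 2) * (Phi ^ 2 + phm ^ 2) := by ring
    _ = 16 * X * (expand 2 (by norm_num) Phi * expand 2 (by norm_num) Psi2) ^ 2 := by
      rw [h1, h2]; ring
    _ = _ := by rw [h3]; ring

end Q266.PD
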