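import Pool.Agent.Q266.PD2

/-!
# The multiplier equations of degree 3, by an order argument
-/

set_option autoImplicit false

namespace Q266.PD

open PowerSeries Q279.QS Q266.DS

theorem ng_Phi : ng Phi = phm := by
  rw [← ng_phm, ng_ng]

theorem ng_expand3 (F : ℤ⟦X⟧) : ng (expand 3 (by norm_num) F) = expand 3 (by norm_num) (ng F) := by
  ext n
  rw [coeff_rescale, coeff_expand, coeff_expand]
  split_ifs with h
  · obtain ⟨m, rfl⟩ := h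
    rw [Nat.mul_div_cancel_left _ (by norm_num), coeff_rescale, pow_mul]
    norm_num
  · simp

theorem ng_Ph3 : ng Ph3 = pm3 := by
  rw [Ph3, ng_expand3, ng_Phi]; rfl

theorem ng_pm3 : ng pm3 = Ph3 := by
  rw [← ng_Ph3, ng_ng]

theorem exp_exp {a b c : ℕ} (ha : a ≠ 0) (hb : b ≠ 0) (hc : c ≠ 0) (h : a * b = c) (F : ℤ⟦X⟧) :
    expand a ha (expand b hb F) = expand c hc F := by
  subst h
  exact (expand_mul a ha b hb F).symm

theorem exp_comm {a b : ℕ} (ha : a ≠ 0) (hb : b ≠ 0) (F : ℤ⟦X⟧) :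
    expand a ha (expand b hb F) = expand b hb (expand a ha F) := by
  rw [exp_exp ha hb (mul_ne_zero ha hb) rfl, exp_exp hb ha (mul_ne_zero ha hb) (mul_comm b a)]

theorem phi_mul3 : Ph3 * pm3 = (expand 2 (by norm_num) pm3) ^ 2 := by
  have h := congrArg (expand 3 (by norm_num)) phi_mul
  rw [map_mul, map_pow, exp_comm] at h
  exact h

theorem phi_mul_2 : expand 2 (by norm_num) Phi * expand 2 (by norm_num) phm =
    (expand 4 (by norm_num) phm) ^ 2 := by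
  have h := congrArg (expand 2 (by norm_num)) phi_mul
  rw [map_mul, map_pow, exp_exp (c := 4) _ _ (by norm_num) (by norm_num)] at h
  exact h

theorem phi_mul3_2 : expand 2 (by norm_num) Ph3 * expand 2 (by norm_num) pm3 =
    (expand 4 (by norm_num) pm3) ^ 2 := by
  have h := congrArg (expand 2 (by norm_num)) phi_mul3
  rw [map_mul, map_pow, exp_exp (c := 4) _ _ (by norm_num) (by norm_num)] at h
  exact h

/-- `q ↦ -q^2` -/
noncomputable def EE : ℤ⟦X⟧ →+* ℤ⟦X⟧ :=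
  ((expand 2 (by norm_num) : ℤ⟦X⟧ →ₐ[ℤ] ℤ⟦X⟧) : ℤ⟦X⟧ →+* ℤ⟦X⟧).comp ng

theorem EE_apply (F : ℤ⟦X⟧) : EE F = expand 2 (by norm_num) (ng F) := rfl

/-- `δ` -/
noncomputable def dI : ℤ⟦X⟧ := 4 * (Phi * phm) * (Ph3 * pm3) - 3 * Ph3 ^ 4 - 2 * Phi ^ 2 * Ph3 ^ 2 + Phi ^ 4

/-- `δ_X` -/
noncomputable def dX : ℤ⟦X⟧ := (Phi * phm) ^ 2 + Phi ^ 2 * pm3 ^ 2 + phm ^ 2 * Ph3 ^ 2 -
  3 * (Ph3 * pm3) ^ 2

theorem EE_dI : EE dI = dX := by
  have e1 : EE Phi = expand 2 (by norm_num) phm := by rw [EE_apply, ng_Phi]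
  have e2 : EE phm = expand 2 (by norm_num) Phi := by rw [EE_apply]; exact congrArg _ ng_phm
  have e3 : EE Ph3 = expand 2 (by norm_num) pm3 := by rw [EE_apply, ng_Ph3]
  have e4 : EE pm3 = expand 2 (by norm_num) Ph3 := by rw [EE_apply, ng_pm3]
  unfold dI dX
  simp only [map_sub, map_add, map_mul, map_pow, map_ofNat, e1, e2, e3, e4]
  have a1 := phi_mul
  have a2 := phi_mul3
  have a3 := phi_mul_2
  have a4 := phi_mul3_2
  have a5 := XI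
  obtain ⟨u, hu⟩ : ∃ u, u = expand 2 (by norm_num) Phi := ⟨_, rfl⟩
  obtain ⟨u', hu'⟩ : ∃ u', u' = expand 2 (by norm_num) phm := ⟨_, rfl⟩
  obtain ⟨v, hv⟩ : ∃ v, v = expand 2 (by norm_num) Ph3 := ⟨_, rfl⟩
  obtain ⟨v', hv'⟩ : ∃ v', v' = expand 2 (by norm_num) pm3 := ⟨_, rfl⟩
  obtain ⟨w, hw⟩ : ∃ w, w = expand 4 (by norm_num) phm := ⟨_, rfl⟩
  obtain ⟨w', hw'⟩ : ∃ w', w' = expand 4 (by norm_num) pm3 := ⟨_, rfl⟩
  rw [← hu', ← hv', ← hu, ← hv]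
  rw [← hu'] at a1
  rw [← hv'] at a2
  rw [← hu, ← hu', ← hw] at a3
  rw [← hv, ← hv', ← hw'] at a4
  rw [← hw, ← hw'] at a5
  have b1 : 4 * (w * w') ^ 2 = (Phi * pm3 + phm * Ph3) ^ 2 := by rw [a5]; ring
  have b2 : 4 * (u' * u) * (v' * v) = 4 * (w * w') ^ 2 := by
    linear_combination (4 * (v' * v)) * a3 + 4 * w ^ 2 * a4
  rw [b2, b1, show v' ^ 4 = (v' ^ 2) ^ 2 by ring, show u' ^ 4 = (u' ^ 2) ^ 2 by ring, ← a1, ← a2]
  ring

/-- homogeneous `B` and `K` -/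
noncomputable def bB : ℤ⟦X⟧ := Phi ^ 3 * pm3 ^ 2 + 3 * Phi * phm ^ 2 * Ph3 ^ 2 - 4 * phm ^ 3 * pm3 * Ph3
noncomputable def bK : ℤ⟦X⟧ := bB * Phi ^ 3 + bB * (4 * phm * pm3 - 2 * Phi * Ph3) * Ph3 +
  3 * (Phi * (Phi ^ 2 * pm3 ^ 2 - phm ^ 2 * Ph3 ^ 2)) * Phi * Ph3 ^ 2

theorem Modeq : (Phi * Ph3 - phm * pm3) ^ 4 = (Phi ^ 4 - phm ^ 4) * (Ph3 ^ 4 - pm3 ^ 4) := by
  have h1 := R3
  have h2 := R9
  have h3 := congrArg (expand 3 (by norm_num)) R9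
  rw [map_sub, map_mul, map_mul, map_pow, map_pow, map_pow, map_ofNat, expand_X] at h3
  have h4 : Ph3 ^ 4 - pm3 ^ 4 = 16 * X ^ 3 * Psi6 ^ 4 := h3
  rw [h1, h2, h4]
  ring

theorem key_rel : (bB ^ 2 + phm ^ 2 * bK) * dI = Phi ^ 2 * bK * dX := by
  have h := Modeq
  unfold bK bB dI dX
  linear_combination (12 * Phi * Ph3 ^ 3 * phm * pm3) * h

end Q266.PD
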