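import Pool.Agent.Q266.PD3

/-!
# The order argument, and its consequences
-/

set_option autoImplicit false

namespace Q266.PD

open PowerSeries Q279.QS Q266.DS

theorem cofNat (n : ℕ) [n.AtLeastTwo] : coeff 1 (ofNat(n) : ℤ⟦X⟧) = 0 := by
  rw [show (ofNat(n) : ℤ⟦X⟧) = C (ofNat(n) : ℤ) from (map_ofNat C n).symm, coeff_C,
    if_neg (by norm_num)]

theorem s1_zero : constantCoeff s1 = 0 := by
  rw [← coeff_zero_eq_constantCoeff_apply, s1,
    coeff_TS_nat (K := 1) (fun n => by nlinarith) _ (by norm_num)]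
  simp

theorem s1_one : coeff 1 s1 = 1 := by
  rw [s1, coeff_TS_nat (K := 2) (fun n => by nlinarith) _ (by norm_num)]
  rw [Finset.sum_range_succ, Finset.sum_range_one]
  simp

theorem Phi_c0 : constantCoeff Phi = 1 := by
  rw [Phi_eq, map_add, map_mul, s1_zero, map_one]; simp

theorem Phi_c1 : coeff 1 Phi = 2 := by
  rw [Phi_eq]
  simp only [map_add, coeff_one_mul, s1_zero, s1_one, cofNat, map_ofNat, coeff_one]
  norm_num

theorem phm_c0 : constantCoeff phm = 1 := by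
  rw [← ng_Phi, ← coeff_zero_eq_constantCoeff_apply, coeff_rescale,
    coeff_zero_eq_constantCoeff_apply, Phi_c0]
  norm_num

theorem phm_c1 : coeff 1 phm = -2 := by
  rw [← ng_Phi, coeff_rescale, Phi_c1]
  norm_num

theorem Ph3_c0 : constantCoeff Ph3 = 1 := by
  rw [Ph3, ← coeff_zero_eq_constantCoeff_apply, coeff_expand, if_pos (dvd_zero 3), Nat.zero_div,
    coeff_zero_eq_constantCoeff_apply, Phi_c0]

theorem Ph3_c1 : coeff 1 Ph3 = 0 := by
  rw [Ph3, coeff_expand, if_neg (by norm_num)]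

theorem pm3_c0 : constantCoeff pm3 = 1 := by
  rw [pm3, ← coeff_zero_eq_constantCoeff_apply, coeff_expand, if_pos (dvd_zero 3), Nat.zero_div,
    coeff_zero_eq_constantCoeff_apply, phm_c0]

theorem pm3_c1 : coeff 1 pm3 = 0 := by
  rw [pm3, coeff_expand, if_neg (by norm_num)]

theorem bB_c0 : constantCoeff bB = 0 := by
  unfold bB
  simp only [map_sub, map_add, map_mul, map_pow, map_ofNat, Phi_c0, phm_c0, Ph3_c0, pm3_c0]
  norm_num

theorem bK_c0 : constantCoeff bK = 0 := by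
  unfold bK
  simp only [map_sub, map_add, map_mul, map_pow, map_ofNat, Phi_c0, phm_c0, Ph3_c0, pm3_c0, bB_c0]
  norm_num

theorem bB_c1 : coeff 1 bB = 24 := by
  unfold bB
  simp only [map_sub, map_add, coeff_one_mul, coeff_one_pow, map_mul, map_pow, map_ofNat,
    Phi_c0, phm_c0, Ph3_c0, pm3_c0, Phi_c1, phm_c1, Ph3_c1, pm3_c1, cofNat]
  norm_num

theorem bK_c1 : coeff 1 bK = 96 := by
  unfold bK
  simp only [map_sub, map_add, coeff_one_mul, coeff_one_pow, map_mul, map_pow, map_ofNat,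
    Phi_c0, phm_c0, Ph3_c0, pm3_c0, Phi_c1, phm_c1, Ph3_c1, pm3_c1, cofNat, bB_c0, bB_c1]
  norm_num

theorem T_c0 : constantCoeff (bB ^ 2 + phm ^ 2 * bK) = 0 := by
  simp only [map_add, map_mul, map_pow, bB_c0, bK_c0]
  norm_num

theorem T_c1 : coeff 1 (bB ^ 2 + phm ^ 2 * bK) = 96 := by
  simp only [map_add, coeff_one_mul, coeff_one_pow, map_mul, map_pow, bB_c0, bB_c1, bK_c0, bK_c1,
    phm_c0, phm_c1]
  norm_num

theorem dI_c0 : constantCoeff dI = 0 := by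
  unfold dI
  simp only [map_sub, map_add, map_mul, map_pow, map_ofNat, Phi_c0, phm_c0, Ph3_c0, pm3_c0]
  norm_num

theorem dI_zero : dI = 0 := by
  by_contra hne
  set n := dI.order.toNat with hn
  have h1 : coeff n dI ≠ 0 := coeff_order hne
  have h2 : ∀ k < n, coeff k dI = 0 := fun k hk => coeff_of_lt_order_toNat k hk
  have hn1 : 1 ≤ n := by
    by_contra h
    have : n = 0 := by omega
    rw [this, coeff_zero_eq_constantCoeff_apply] at h1
    exact h1 dI_c0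
  -- order of `dX`
  have h3 : X ^ (2 * n) ∣ dX := by
    rw [← EE_dI, EE_apply, X_pow_dvd_iff]
    intro m hm
    rw [coeff_expand]
    split_ifs with hd
    · rw [coeff_rescale, h2 _ (by omega), mul_zero]
    · rfl
  have h4 : (X : ℤ⟦X⟧) ∣ bK := X_dvd_iff.2 bK_c0
  have h5 : X ^ (2 * n + 1) ∣ (bB ^ 2 + phm ^ 2 * bK) * dI := by
    rw [key_rel, show Phi ^ 2 * bK * dX = dX * bK * Phi ^ 2 by ring, pow_succ]
    exact (mul_dvd_mul h3 h4).mul_right _
  obtain ⟨t, ht⟩ : (X : ℤ⟦X⟧) ∣ bB ^ 2 + phm ^ 2 * bK := X_dvd_iff.2 T_c0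
  have ht0 : constantCoeff t = 96 := by
    have h := T_c1
    rw [ht, show (1 : ℕ) = 0 + 1 from rfl, coeff_succ_X_mul, coeff_zero_eq_constantCoeff_apply] at h
    exact h
  obtain ⟨g, hg⟩ : X ^ n ∣ dI := X_pow_dvd_iff.2 h2
  have hg0 : constantCoeff g ≠ 0 := by
    intro h
    apply h1
    rw [hg, coeff_X_pow_mul', if_pos le_rfl, Nat.sub_self, coeff_zero_eq_constantCoeff_apply, h]
  have h6 : (bB ^ 2 + phm ^ 2 * bK) * dI = X ^ (n + 1) * (t * g) := by
    rw [ht, hg]; ring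
  rw [h6] at h5
  have h7 := X_pow_dvd_iff.1 h5 (n + 1) (by omega)
  rw [coeff_X_pow_mul', if_pos le_rfl, Nat.sub_self, coeff_zero_eq_constantCoeff_apply, map_mul,
    ht0] at h7
  rcases mul_eq_zero.1 h7 with h | h
  · norm_num at h
  · exact hg0 h

/-- (III) -/
theorem III : 4 * (Phi * phm) * (Ph3 * pm3) = (3 * Ph3 ^ 2 - Phi ^ 2) * (Phi ^ 2 + Ph3 ^ 2) := by
  have h := dI_zero
  unfold dI at h
  linear_combination h

/-- (X) -/
theorem XX : (Phi ^ 2 + Ph3 ^ 2) * (phm ^ 2 + pm3 ^ 2) = 4 * (Ph3 * pm3) ^ 2 := by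
  have h : dX = 0 := by rw [← EE_dI, dI_zero, map_zero]
  unfold dX at h
  linear_combination h

theorem ne_of_c0 {F : ℤ⟦X⟧} (h : constantCoeff F = 1) : F ≠ 0 := by
  intro h2
  rw [h2, map_zero] at h
  norm_num at h

theorem Phi_ne : Phi ≠ 0 := ne_of_c0 Phi_c0
theorem phm_ne : phm ≠ 0 := ne_of_c0 phm_c0
theorem Ph3_ne : Ph3 ≠ 0 := ne_of_c0 Ph3_c0
theorem pm3_ne : pm3 ≠ 0 := ne_of_c0 pm3_c0

/-- (II) -/
theorem eqII : phm * (Phi ^ 2 + Ph3 ^ 2) ^ 2 = 4 * Phi * Ph3 * pm3 ^ 3 := by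
  have h1 := III
  have h2 := XX
  refine mul_left_cancel₀ phm_ne ?_
  linear_combination (-pm3 ^ 2) * h1 + (Phi ^ 2 + Ph3 ^ 2) * h2

/-- (I) -/
theorem eqI : Phi * (phm ^ 2 + pm3 ^ 2) ^ 2 = 4 * phm * pm3 * Ph3 ^ 3 := by
  have h := congrArg ng eqII
  simp only [map_mul, map_pow, map_add, map_ofNat, ng_Phi, ng_Ph3, ng_pm3] at h
  have h2 : ng phm = Phi := ng_phm
  rw [h2] at h
  exact h

end Q266.PD
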