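import Pool.Agent.Q266.PD4

/-!
# Eta quotients for `Ω(-q)`, `Θ(q)`; the identities (VI) and (R5)
-/

set_option autoImplicit false

namespace Q266.PD

open PowerSeries Q279.QS Q266.DS Filter Topology
open scoped PowerSeries.WithPiTopology

/-- splitting a product modulo 3 -/
theorem tprod_three {u : ℕ → ℤ⟦X⟧} (hu : Multipliable u)
    (h0 : Multipliable fun i => u (3 * i)) (h1 : Multipliable fun i => u (3 * i + 1))
    (h2 : Multipliable fun i => u (3 * i + 2)) :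
    ∏' i, u i = (∏' i, u (3 * i)) * (∏' i, u (3 * i + 1)) * ∏' i, u (3 * i + 2) := by
  rw [← h0.tprod_mul h1, ← (h0.mul h1).tprod_mul h2]
  symm
  refine tprod_eq_of_coeff ((h0.mul h1).mul h2) fun m => ?_
  have h3 := eventually_coeff hu m
  rw [eventually_atTop] at h3 ⊢
  obtain ⟨N, hN⟩ := h3
  refine ⟨N, fun M hM => ?_⟩
  rw [← hN (3 * M) (by omega)]
  congr 1
  clear hM
  induction M with
  | zero => simp
  | succ M ih => rw [Finset.prod_range_succ, ih, show 3 * (M + 1) = 3 * M + 1 + 1 + 1 by ring,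
      Finset.prod_range_succ, Finset.prod_range_succ, Finset.prod_range_succ]; ring

/-- `Ω(-q) = ∑ (-1)^n X^{3n^2-2n}` -/
noncomputable def Om : ℤ⟦X⟧ := TS (fun n : ℤ => 3 * n ^ 2 - 2 * n) (fun n => sg n)

/-- `Θ(q) = ∑ X^{n(3n-1)/2}` -/
noncomputable def Th : ℤ⟦X⟧ := TS (te 1 2) (fun _ => (1 : ℤ))

theorem expand_oddP : expand 3 (by norm_num) (oddP 1) = ∏' i : ℕ, (1 - X ^ (3 + 6 * i) : ℤ⟦X⟧) := by
  unfold oddP
  rw [expand_tprod _ (mult_aux 1 1 2 le_rfl (by norm_num))]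
  refine tprod_congr fun i => ?_
  simp only [map_one, one_mul, map_sub, map_pow, expand_X]
  rw [← pow_mul]
  congr 2
  ring

theorem Om_eul : Om * eul 2 * eul 3 = eul 1 * eul 6 ^ 2 := by
  have h := jtp 1 5 le_rfl (by norm_num) 1 (by norm_num)
  norm_num only at h
  have h3 : TS (te 1 5) (fun n : ℤ => (-1 : ℤ) ^ n.natAbs) = Om := by
    refine TS_congr (fun n => ?_) neg_one_pow_natAbs
    have := two_tri n
    unfold te
    push_cast
    linarith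
  rw [h3] at h
  have h6 : (∏' i : ℕ, (1 - X ^ (6 * (i + 1)) : ℤ⟦X⟧)) = eul 6 := rfl
  rw [h6] at h
  have h5 : oddP 1 = (∏' i : ℕ, (1 - C (1 : ℤ) * X ^ (1 + 6 * i) : ℤ⟦X⟧)) *
      expand 3 (by norm_num) (oddP 1) * (∏' i : ℕ, (1 - C (1 : ℤ) * X ^ (5 + 6 * i) : ℤ⟦X⟧)) := by
    rw [expand_oddP]
    have e0 : ∀ i : ℕ, (1 - C (1 : ℤ) * X ^ (1 + 2 * (3 * i)) : ℤ⟦X⟧) =
        1 - C (1 : ℤ) * X ^ (1 + 6 * i) := fun i => by congr 3; ring
    have e1 : ∀ i : ℕ, (1 - C (1 : ℤ) * X ^ (1 + 2 * (3 * i + 1)) : ℤ⟦X⟧) =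
        1 - C (1 : ℤ) * X ^ (3 + 6 * i) := fun i => by congr 3; ring
    have e2 : ∀ i : ℕ, (1 - C (1 : ℤ) * X ^ (1 + 2 * (3 * i + 2)) : ℤ⟦X⟧) =
        1 - C (1 : ℤ) * X ^ (5 + 6 * i) := fun i => by congr 3; ring
    have e3 : ∀ i : ℕ, (1 - C (1 : ℤ) * X ^ (3 + 6 * i) : ℤ⟦X⟧) = 1 - X ^ (3 + 6 * i) :=
      fun i => by rw [map_one, one_mul]
    have m0 := mult_aux 1 1 6 le_rfl (by norm_num)
    have m1 := mult_aux 1 3 6 (by norm_num) (by norm_num)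
    have m2 := mult_aux 1 5 6 (by norm_num) (by norm_num)
    unfold oddP
    rw [tprod_three (mult_aux 1 1 2 le_rfl (by norm_num)) (m0.congr fun i => (e0 i).symm)
      (m1.congr fun i => (e1 i).symm) (m2.congr fun i => (e2 i).symm)]
    simp only [e0, e1, e2, e3]
  have h7 := eul_one_eq
  have h8 := congrArg (expand 3 (by norm_num)) eul_one_eq
  rw [map_mul, expand_eul _ (by norm_num), expand_eul _ (by norm_num)] at h8
  norm_num only at h8
  rw [h8, h7, ← h]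
  linear_combination (-eul 2 * eul 6 ^ 2) * h5

theorem Th_eul : Th * eul 6 * eul 1 = eul 2 * eul 3 ^ 2 := by
  have h := jtp 1 2 le_rfl (by norm_num) (-1) (by norm_num)
  have h3 : TS (te 1 2) (fun n : ℤ => (-(-1) : ℤ) ^ n.natAbs) = Th :=
    TS_congr (fun _ => rfl) fun n => by norm_num
  rw [h3] at h
  norm_num only at h
  have h6 : (∏' i : ℕ, (1 - X ^ (3 * (i + 1)) : ℤ⟦X⟧)) = eul 3 := rfl
  rw [h6] at h
  have h5 : Qs = (∏' i : ℕ, (1 - C (-1 : ℤ) * X ^ (1 + 3 * i) : ℤ⟦X⟧)) *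
      (∏' i : ℕ, (1 - C (-1 : ℤ) * X ^ (2 + 3 * i) : ℤ⟦X⟧)) * expand 3 (by norm_num) Qs := by
    have e0 : ∀ i : ℕ, (1 + X ^ (3 * i + 1) : ℤ⟦X⟧) = 1 - C (-1 : ℤ) * X ^ (1 + 3 * i) :=
      fun i => by rw [map_neg, map_one, add_comm (3 * i)]; ring
    have e1 : ∀ i : ℕ, (1 + X ^ (3 * i + 1 + 1) : ℤ⟦X⟧) = 1 - C (-1 : ℤ) * X ^ (2 + 3 * i) :=
      fun i => by rw [map_neg, map_one, show 3 * i + 1 + 1 = 2 + 3 * i by ring]; ring
    have e2 : ∀ i : ℕ, (1 + X ^ (3 * i + 2 + 1) : ℤ⟦X⟧) = 1 + X ^ (3 * (i + 1)) :=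
      fun i => by congr 1
    have m0 := mult_aux (-1) 1 3 le_rfl (by norm_num)
    have m1 := mult_aux (-1) 2 3 (by norm_num) (by norm_num)
    have m2 : Multipliable fun i : ℕ => (1 + X ^ (3 * (i + 1)) : ℤ⟦X⟧) := by
      refine multipliable_of_dvd fun i => ⟨X ^ (2 * (i + 1)), ?_⟩
      rw [← pow_add]
      rw [show i + 1 + 2 * (i + 1) = 3 * (i + 1) by ring]
      ring
    have h9 : expand 3 (by norm_num) Qs = ∏' i : ℕ, (1 + X ^ (3 * (i + 1)) : ℤ⟦X⟧) := by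
      unfold Qs
      rw [expand_tprod _ mult_Qs]
      refine tprod_congr fun i => ?_
      rw [map_add, map_one, map_pow, expand_X, ← pow_mul]
    rw [h9]
    unfold Qs
    rw [tprod_three mult_Qs (m0.congr fun i => (e0 i).symm) (m1.congr fun i => (e1 i).symm)
      (m2.congr fun i => (e2 i).symm)]
    simp only [e0, e1, e2]
  have h7 := Qs_eul
  have h8 := congrArg (expand 3 (by norm_num)) Qs_eul
  rw [map_mul, expand_eul _ (by norm_num), expand_eul _ (by norm_num)] at h8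
  norm_num only at h8
  have h10 : (∏' i : ℕ, (1 - C (-1 : ℤ) * X ^ (1 + 3 * i) : ℤ⟦X⟧)) *
      (∏' i : ℕ, (1 - C (-1 : ℤ) * X ^ (2 + 3 * i) : ℤ⟦X⟧)) * eul 3 = Th := h
  rw [← h7, ← h8, ← h10]
  linear_combination (-eul 1 * eul 3 ^ 2) * h5

end Q266.PD
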