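import Pool.Agent.Q266.PD5

/-!
# Eta quotients in the fraction field, and the identities (VI), (R5)
-/

set_option autoImplicit false

namespace Q266.PD

open PowerSeries Q279.QS Q266.DS

abbrev K := FractionRing ℤ⟦X⟧

/-- the embedding in the fraction field -/
noncomputable abbrev ka : ℤ⟦X⟧ →+* K := algebraMap ℤ⟦X⟧ K

theorem ka_inj : Function.Injective ka := IsFractionRing.injective ℤ⟦X⟧ K

noncomputable def e (k : ℕ) : K := ka (eul k)

theorem e_ne {k : ℕ} (hk : 1 ≤ k) : e k ≠ 0 := by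
  intro h
  exact eul_ne_zero hk (ka_inj (by rw [map_zero]; exact h))

theorem e1n : e 1 ≠ 0 := e_ne le_rfl
theorem e2n : e 2 ≠ 0 := e_ne (by norm_num)
theorem e3n : e 3 ≠ 0 := e_ne (by norm_num)
theorem e4n : e 4 ≠ 0 := e_ne (by norm_num)
theorem e6n : e 6 ≠ 0 := e_ne (by norm_num)
theorem e12n : e 12 ≠ 0 := e_ne (by norm_num)

theorem kPhi : ka Phi = e 2 ^ 5 / (e 1 * e 4) ^ 2 := by
  rw [eq_div_iff (pow_ne_zero 2 (mul_ne_zero e1n e4n))]
  have h := congrArg ka Phi_eul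
  simpa [e] using h

theorem kphm : ka phm = e 1 ^ 2 / e 2 := by
  rw [eq_div_iff e2n]
  have h := congrArg ka phm_eul
  simpa [e] using h

theorem Ph3_eul : Ph3 * (eul 3 * eul 12) ^ 2 = eul 6 ^ 5 := by
  have h := congrArg (expand 3 (by norm_num)) Phi_eul
  rw [map_mul, map_pow, map_mul, map_pow, expand_eul _ (by norm_num), expand_eul _ (by norm_num),
    expand_eul _ (by norm_num)] at h
  exact h

theorem pm3_eul : pm3 * eul 6 = eul 3 ^ 2 := by
  have h := congrArg (expand 3 (by norm_num)) phm_eul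
  rw [map_mul, map_pow, expand_eul _ (by norm_num), expand_eul _ (by norm_num)] at h
  exact h

theorem Psi6_eul : eul 12 ^ 2 = eul 6 * Psi6 := by
  have h := congrArg (expand 3 (by norm_num)) Psi2_eul
  rw [map_mul, map_pow, expand_eul _ (by norm_num), expand_eul _ (by norm_num)] at h
  exact h

theorem kPh3 : ka Ph3 = e 6 ^ 5 / (e 3 * e 12) ^ 2 := by
  rw [eq_div_iff (pow_ne_zero 2 (mul_ne_zero e3n e12n))]
  have h := congrArg ka Ph3_eul
  simpa [e] using h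

theorem kpm3 : ka pm3 = e 3 ^ 2 / e 6 := by
  rw [eq_div_iff e6n]
  have h := congrArg ka pm3_eul
  simpa [e] using h

theorem kPsi2 : ka Psi2 = e 4 ^ 2 / e 2 := by
  rw [eq_div_iff e2n]
  have h := congrArg ka Psi2_eul
  rw [map_mul, map_pow] at h
  unfold e
  rw [h]; ring

theorem kPsi6 : ka Psi6 = e 12 ^ 2 / e 6 := by
  rw [eq_div_iff e6n]
  have h := congrArg ka Psi6_eul
  rw [map_mul, map_pow] at h
  unfold e
  rw [h]; ring

theorem kOm : ka Om = e 1 * e 6 ^ 2 / (e 2 * e 3) := by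
  rw [eq_div_iff (mul_ne_zero e2n e3n)]
  have h := congrArg ka Om_eul
  rw [map_mul, map_mul, map_mul, map_pow] at h
  unfold e
  rw [← h]; ring

theorem kTh : ka Th = e 2 * e 3 ^ 2 / (e 1 * e 6) := by
  rw [eq_div_iff (mul_ne_zero e1n e6n)]
  have h := congrArg ka Th_eul
  rw [map_mul, map_mul, map_mul, map_pow] at h
  unfold e
  rw [← h]; ring

theorem kng1 : ka (ng (eul 1)) = e 2 ^ 3 / (e 1 * e 4) := by
  rw [eq_div_iff (mul_ne_zero e1n e4n)]
  have h := congrArg ka ng_eul_one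
  rw [map_mul, map_mul, map_pow] at h
  unfold e
  rw [← h]; ring

theorem ng_eul_three : ng (eul 3) * eul 3 * eul 12 = eul 6 ^ 3 := by
  have h := congrArg (expand 3 (by norm_num)) ng_eul_one
  rw [map_mul, map_mul, map_pow, ← ng_expand3, expand_eul _ (by norm_num),
    expand_eul _ (by norm_num), expand_eul _ (by norm_num)] at h
  exact h

theorem kng3 : ka (ng (eul 3)) = e 6 ^ 3 / (e 3 * e 12) := by
  rw [eq_div_iff (mul_ne_zero e3n e12n)]
  have h := congrArg ka ng_eul_three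
  rw [map_mul, map_mul, map_pow] at h
  unfold e
  rw [← h]; ring

theorem ng_eul_six : ng (eul 6) = eul 6 := by
  have h := expand_eul (k := 3) (by norm_num) (j := 2) (by norm_num)
  rw [show 3 * 2 = 6 by norm_num] at h
  rw [← h, ng_expand3, ng_eul_two]

theorem kThm : ka (ng Th) = e 1 * e 4 * e 6 ^ 5 / (e 2 ^ 2 * e 3 ^ 2 * e 12 ^ 2) := by
  have h := congrArg ka (congrArg ng Th_eul)
  rw [map_mul ng, map_mul ng, map_mul ng, map_pow ng, ng_eul_two, ng_eul_six, map_mul ka,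
    map_mul ka, map_mul ka, map_pow ka, kng1, kng3] at h
  have h2 : ka (ng Th) * e 6 * (e 2 ^ 3 / (e 1 * e 4)) = e 2 * (e 6 ^ 3 / (e 3 * e 12)) ^ 2 := h
  have n1 := e1n
  have n2 := e2n
  have n3 := e3n
  have n4 := e4n
  have n6 := e6n
  have n12 := e12n
  have h3 : ka (ng Th) = e 2 * (e 6 ^ 3 / (e 3 * e 12)) ^ 2 / (e 6 * (e 2 ^ 3 / (e 1 * e 4))) := by
    rw [eq_div_iff (mul_ne_zero n6 (div_ne_zero (pow_ne_zero 3 n2) (mul_ne_zero n1 n4))), ← h2]
    ring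
  rw [h3]
  field_simp

theorem kPsm : ka (ng Psi) = e 1 * e 4 / e 2 := by
  have h := congrArg ka (congrArg ng Psi_eul)
  rw [map_mul ng, map_pow ng, ng_eul_two, map_mul ka, map_pow ka, kng1] at h
  have h2 : e 2 ^ 2 = e 2 ^ 3 / (e 1 * e 4) * ka (ng Psi) := h
  have n1 := e1n
  have n2 := e2n
  have n4 := e4n
  field_simp at h2 ⊢
  linear_combination -h2

/-- `ψ(-q^3)` -/
noncomputable def Ps3 : ℤ⟦X⟧ := expand 3 (by norm_num) (ng Psi)

theorem Psm_eul : ng Psi * eul 2 = eul 1 * eul 4 := by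
  refine ka_inj ?_
  rw [map_mul, map_mul, kPsm]
  have n2 := e2n
  show e 1 * e 4 / e 2 * e 2 = e 1 * e 4
  field_simp

theorem Ps3_eul : Ps3 * eul 6 = eul 3 * eul 12 := by
  have h := congrArg (expand 3 (by norm_num)) Psm_eul
  rw [map_mul, map_mul, expand_eul _ (by norm_num), expand_eul _ (by norm_num),
    expand_eul _ (by norm_num)] at h
  exact h

theorem kPs3 : ka Ps3 = e 3 * e 12 / e 6 := by
  rw [eq_div_iff e6n]
  have h := congrArg ka Ps3_eul
  simpa [e] using h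

theorem th_c0 : constantCoeff Th = 1 := by
  have h := congrArg (constantCoeff (R := ℤ)) Th_eul
  simp only [map_mul, map_pow, constCoeff_eul (show 1 ≤ 6 by norm_num),
    constCoeff_eul (show 1 ≤ 1 by norm_num), constCoeff_eul (show 1 ≤ 2 by norm_num),
    constCoeff_eul (show 1 ≤ 3 by norm_num)] at h
  linarith

theorem thm_c0 : constantCoeff (ng Th) = 1 := by
  rw [← coeff_zero_eq_constantCoeff_apply, coeff_rescale, coeff_zero_eq_constantCoeff_apply, th_c0]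
  norm_num

theorem om_c0 : constantCoeff Om = 1 := by
  have h := congrArg (constantCoeff (R := ℤ)) Om_eul
  simp only [map_mul, map_pow, constCoeff_eul (show 1 ≤ 6 by norm_num),
    constCoeff_eul (show 1 ≤ 1 by norm_num), constCoeff_eul (show 1 ≤ 2 by norm_num),
    constCoeff_eul (show 1 ≤ 3 by norm_num)] at h
  linarith

/-- (VI), first form -/
theorem VIa : (phm ^ 2 + pm3 ^ 2) * eul 12 = 2 * ng Th * Om * eul 3 := by
  have n1 := e1n
  have n2 := e2n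
  have n3 := e3n
  have n4 := e4n
  have n6 := e6n
  have n12 := e12n
  have h1 : Phi * ((phm ^ 2 + pm3 ^ 2) * eul 12) ^ 2 = Phi * (2 * ng Th * Om * eul 3) ^ 2 := by
    have h := eqI
    calc Phi * ((phm ^ 2 + pm3 ^ 2) * eul 12) ^ 2 = (Phi * (phm ^ 2 + pm3 ^ 2) ^ 2) * eul 12 ^ 2 := by
          ring
      _ = 4 * phm * pm3 * Ph3 ^ 3 * eul 12 ^ 2 := by rw [h]
      _ = _ := by
        refine ka_inj ?_
        simp only [map_mul, map_pow, map_ofNat, kphm, kpm3, kPh3, kPhi, kThm, kOm]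
        show 4 * (e 1 ^ 2 / e 2) * (e 3 ^ 2 / e 6) * (e 6 ^ 5 / (e 3 * e 12) ^ 2) ^ 3 * e 12 ^ 2 =
          e 2 ^ 5 / (e 1 * e 4) ^ 2 * (2 * (e 1 * e 4 * e 6 ^ 5 / (e 2 ^ 2 * e 3 ^ 2 * e 12 ^ 2)) *
            (e 1 * e 6 ^ 2 / (e 2 * e 3)) * e 3) ^ 2
        field_simp
        ring
  have h2 := mul_left_cancel₀ Phi_ne h1
  have h3 : ((phm ^ 2 + pm3 ^ 2) * eul 12 - 2 * ng Th * Om * eul 3) *
      ((phm ^ 2 + pm3 ^ 2) * eul 12 + 2 * ng Th * Om * eul 3) = 0 := by linear_combination h2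
  rcases mul_eq_zero.1 h3 with h | h
  · linear_combination h
  · exfalso
    have h4 := congrArg (constantCoeff (R := ℤ)) h
    simp only [map_add, map_mul, map_pow, map_ofNat, phm_c0, pm3_c0, thm_c0, om_c0, map_zero,
      constCoeff_eul (show 1 ≤ 12 by norm_num), constCoeff_eul (show 1 ≤ 3 by norm_num)] at h4
    norm_num at h4

/-- (VI) -/
theorem VI : (2 * ng Th * Om - Ps3 * pm3) * eul 3 = phm ^ 2 * eul 12 := by
  have h := VIa
  have n3 := e3n
  have n6 := e6n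
  have n12 := e12n
  have h2 : Ps3 * pm3 * eul 3 = pm3 ^ 2 * eul 12 := by
    refine ka_inj ?_
    simp only [map_mul, map_pow, kPs3, kpm3]
    show e 3 * e 12 / e 6 * (e 3 ^ 2 / e 6) * e 3 = (e 3 ^ 2 / e 6) ^ 2 * e 12
    field_simp
  linear_combination -h - h2

/-- (R5) -/
theorem R5 : pm3 ^ 4 - phm ^ 4 = 8 * X * pm3 * Om ^ 3 := by
  have n1 := e1n
  have n2 := e2n
  have n3 := e3n
  have n4 := e4n
  have n6 := e6n
  have n12 := e12n
  have hIII : 4 * (phm * Phi) * (pm3 * Ph3) = (3 * pm3 ^ 2 - phm ^ 2) * (phm ^ 2 + pm3 ^ 2) := by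
    have h := congrArg ng III
    simp only [map_mul, map_pow, map_add, map_sub, map_ofNat, ng_Phi, ng_Ph3, ng_pm3] at h
    have h2 : ng phm = Phi := ng_phm
    rw [h2] at h
    exact h
  have hI := eqI
  have hR3 := R3
  have hR9 : Ph3 ^ 4 - pm3 ^ 4 = 16 * X ^ 3 * Psi6 ^ 4 := by
    have h3 := congrArg (expand 3 (by norm_num)) R9
    rw [map_sub, map_mul, map_mul, map_pow, map_pow, map_pow, map_ofNat, expand_X] at h3
    exact h3
  obtain ⟨D, hD⟩ : ∃ D, D = phm ^ 2 - pm3 ^ 2 := ⟨_, rfl⟩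
  obtain ⟨G, hG⟩ : ∃ G, G = phm ^ 2 + 3 * pm3 ^ 2 := ⟨_, rfl⟩
  have hDG : D * G = -16 * X * phm * pm3 * Psi2 * Psi6 := by
    rw [hD, hG]
    linear_combination hIII - 4 * phm * pm3 * hR3
  have hS3 : (phm ^ 2 + pm3 ^ 2) ^ 3 * (3 * pm3 ^ 2 - phm ^ 2) = 16 * phm ^ 2 * pm3 ^ 2 * Ph3 ^ 4 := by
    linear_combination (-(phm ^ 2 + pm3 ^ 2) ^ 2) * hIII + (4 * phm * pm3 * Ph3) * hI
  have hD3 : D ^ 3 * G = -256 * X ^ 3 * phm ^ 2 * pm3 ^ 2 * Psi6 ^ 4 := by
    rw [hD, hG]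
    linear_combination (-1 : ℤ⟦X⟧) * hS3 - 16 * phm ^ 2 * pm3 ^ 2 * hR9
  have hX : (X : ℤ⟦X⟧) ≠ 0 := X_ne_zero
  have hP6 : Psi6 ≠ 0 := by
    intro h
    have h2 := Psi6_eul
    rw [h, mul_zero] at h2
    exact pow_ne_zero 2 (eul_ne_zero (by norm_num)) h2
  have hP2 : Psi2 ≠ 0 := by
    intro h
    have h2 := Psi2_eul
    rw [h, mul_zero] at h2
    exact pow_ne_zero 2 (eul_ne_zero (by norm_num)) h2
  have h16 : (-16 : ℤ⟦X⟧) ≠ 0 := by
    intro h
    have := congrArg (constantCoeff (R := ℤ)) h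
    rw [map_neg, map_ofNat, map_zero] at this
    norm_num at this
  have hD2 : D ^ 2 * Psi2 = 16 * X ^ 2 * phm * pm3 * Psi6 ^ 3 := by
    have hne : -16 * X * phm * pm3 * Psi6 ≠ 0 :=
      mul_ne_zero (mul_ne_zero (mul_ne_zero (mul_ne_zero h16 hX) phm_ne) pm3_ne) hP6
    refine mul_left_cancel₀ hne ?_
    linear_combination (-D ^ 2) * hDG + hD3
  -- squares
  have hsq : (Psi2 * Phi) * (pm3 ^ 4 - phm ^ 4) ^ 2 = (Psi2 * Phi) * (8 * X * pm3 * Om ^ 3) ^ 2 := by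
    have h1 : (Psi2 * Phi) * (pm3 ^ 4 - phm ^ 4) ^ 2 = (D ^ 2 * Psi2) * (Phi *
        (phm ^ 2 + pm3 ^ 2) ^ 2) := by rw [hD]; ring
    rw [h1, hD2, hI]
    have h2 : Psi2 * Phi * Om ^ 6 = phm ^ 2 * Psi6 ^ 3 * Ph3 ^ 3 := by
      refine ka_inj ?_
      simp only [map_mul, map_pow, kPsi2, kPsi6, kPhi, kPh3, kphm, kOm]
      field_simp
    linear_combination (-64 * X ^ 2 * pm3 ^ 2) * h2
  have h2 := mul_left_cancel₀ (mul_ne_zero hP2 Phi_ne) hsq
  have h3 : (pm3 ^ 4 - phm ^ 4 - 8 * X * pm3 * Om ^ 3) * (pm3 ^ 4 - phm ^ 4 + 8 * X * pm3 * Om ^ 3) =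
      0 := by linear_combination h2
  rcases mul_eq_zero.1 h3 with h | h
  · linear_combination h
  · exfalso
    have h4 := congrArg (coeff 1) h
    have c8 : coeff 1 (8 * X * pm3 * Om ^ 3) = (8 : ℤ) := by
      rw [show 8 * X * pm3 * Om ^ 3 = X * (8 * pm3 * Om ^ 3) by ring,
        show (1 : ℕ) = 0 + 1 from rfl, coeff_succ_X_mul, coeff_zero_eq_constantCoeff_apply]
      simp only [map_mul, map_pow, map_ofNat, pm3_c0, om_c0]
      norm_num
    rw [map_add, map_sub, c8] at h4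
    simp only [coeff_one_pow, pm3_c0, pm3_c1, phm_c0, phm_c1, map_zero] at h4
    norm_num at h4

end Q266.PD
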