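import Pool.Agent.Q266.PD6

/-!
# 3-dissections, and the generating function of `ped(9n+7)`
-/

set_option autoImplicit false

namespace Q266.PD

open PowerSeries Q279.QS Q266.DS

/-- splitting a sum over `ℤ` modulo 3 -/
theorem TS_int_three {e : ℤ → ℤ} (he : FF e) (c : ℤ → ℤ) :
    TS e c = TS (fun k => e (3 * k)) (fun k => c (3 * k)) +
      (TS (fun k => e (3 * k + 1)) (fun k => c (3 * k + 1)) +
        TS (fun k => e (3 * k - 1)) (fun k => c (3 * k - 1))) := by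
  have hb : Function.Bijective (Sum.elim (fun k : ℤ => 3 * k)
      (Sum.elim (fun k : ℤ => 3 * k + 1) (fun k : ℤ => 3 * k - 1))) := by
    constructor
    · rintro (a | a | a) (b | b | b) h <;> simp at h ⊢ <;> omega
    · intro n
      have h3 : n % 3 = 0 ∨ n % 3 = 1 ∨ n % 3 = 2 := by omega
      rcases h3 with h | h | h
      · exact ⟨Sum.inl (n / 3), by simp; omega⟩
      · exact ⟨Sum.inr (Sum.inl (n / 3)), by simp; omega⟩
      · exact ⟨Sum.inr (Sum.inr (n / 3 + 1)), by simp; omega⟩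
  rw [← TS_equiv (Equiv.ofBijective _ hb)]
  simp only [Equiv.ofBijective_apply]
  rw [TS_sum_type (he.comp_injective hb.1),
    TS_sum_type ((he.comp_injective hb.1).comp_injective Sum.inr_injective)]
  simp only [Sum.elim_inl, Sum.elim_inr]

theorem FF_Om : FF fun n : ℤ => 3 * n ^ 2 - 2 * n := fun m =>
  (Set.finite_Icc (-m - 1) (m + 1)).subset fun n hn => by
    have h2 : 3 * n ^ 2 - 2 * n = m := hn
    rw [Set.mem_Icc]
    constructor <;> nlinarith [sq_nonneg (n - 1), sq_nonneg (n + 1), sq_nonneg n]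

theorem sg_three (k : ℤ) : sg (3 * k) = sg k := by
  rw [show 3 * k = 2 * k + k by ring, sg_add, sg_two_mul, one_mul]

/-- `φ(-q) = φ(-q^9) - 2 q Ω(-q^3)` -/
theorem phm_dis : phm = expand 3 (by norm_num) pm3 - 2 * X * expand 3 (by norm_num) Om := by
  have hF3 : FF fun n : ℤ => ((3 : ℕ) : ℤ) * (3 * n ^ 2 - 2 * n) := fun n =>
    (FF_Om (n / 3)).subset fun i hi => by
      have h : ((3 : ℕ) : ℤ) * (3 * i ^ 2 - 2 * i) = n := hi
      show 3 * i ^ 2 - 2 * i = n / 3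
      push_cast at h
      omega
  have h0 : ∀ n : ℤ, 0 ≤ ((3 : ℕ) : ℤ) * (3 * n ^ 2 - 2 * n) := fun n => by
    push_cast
    rcases le_or_gt n 0 with h | h
    · nlinarith
    · nlinarith
  have hX : X * expand 3 (by norm_num) Om =
      TS (fun n : ℤ => ((3 : ℕ) : ℤ) * (3 * n ^ 2 - 2 * n) + 1) (fun n => sg n) := by
    rw [Om, expand_TS, X_mul_TS hF3 h0]
  rw [phm_sg, TS_int_three FF_sq]
  have e0 : TS (fun k : ℤ => (3 * k) ^ 2) (fun k => sg (3 * k)) = expand 3 (by norm_num) pm3 := by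
    rw [pm3_eq, expand_TS]
    exact TS_congr (fun k => by push_cast; ring) sg_three
  have e2 : TS (fun k : ℤ => (3 * k - 1) ^ 2) (fun k => sg (3 * k - 1)) =
      -(X * expand 3 (by norm_num) Om) := by
    rw [hX, ← TS_neg]
    refine TS_congr (fun k => by push_cast; ring) fun k => ?_
    rw [sg_sub, sg_three, sg_one]; ring
  have e1 : TS (fun k : ℤ => (3 * k + 1) ^ 2) (fun k => sg (3 * k + 1)) =
      -(X * expand 3 (by norm_num) Om) := by
    rw [← e2, ← TS_equiv (Equiv.neg ℤ) (fun k : ℤ => (3 * k - 1) ^ 2)]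
    simp only [Equiv.neg_apply]
    refine TS_congr (fun k => by ring) fun k => ?_
    rw [show 3 * -k - 1 = -(3 * k + 1) by ring, sg_neg]
  rw [e0, e1, e2]
  ring

theorem FF_psi : FF fun n : ℤ => 2 * n ^ 2 - n := fun m =>
  (Set.finite_Icc (-m) m).subset fun n hn => by
    have h2 : 2 * n ^ 2 - n = m := hn
    rw [Set.mem_Icc]
    constructor <;> nlinarith [sq_nonneg (n - 1), sq_nonneg (n + 1), sq_nonneg n]

theorem psi_nonneg (n : ℤ) : 0 ≤ 2 * n ^ 2 - n := by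
  rcases le_or_gt n 0 with h | h <;> nlinarith

theorem Th_split : Th = TS (fun k : ℤ => 6 * k ^ 2 - k) (fun _ => (1 : ℤ)) +
    TS (fun k : ℤ => 6 * k ^ 2 - 5 * k + 1) (fun _ => (1 : ℤ)) := by
  have hb : Function.Bijective (Sum.elim (fun k : ℤ => 2 * k) (fun k : ℤ => 1 - 2 * k)) := by
    constructor
    · rintro (a | a) (b | b) h <;> simp at h ⊢ <;> omega
    · intro n
      rcases Int.even_or_odd' n with ⟨m, h | h⟩
      · exact ⟨Sum.inl m, by simp; omega⟩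
      · exact ⟨Sum.inr (-m), by simp; omega⟩
  rw [Th, ← TS_equiv (Equiv.ofBijective _ hb)]
  simp only [Equiv.ofBijective_apply]
  rw [TS_sum_type ((FF_te le_rfl (by norm_num)).comp_injective hb.1)]
  simp only [Sum.elim_inl, Sum.elim_inr]
  congr 1
  · refine TS_congr (fun k => ?_) fun _ => rfl
    have := two_tri (2 * k)
    unfold te
    push_cast
    linarith
  · refine TS_congr (fun k => ?_) fun _ => rfl
    have := two_tri (1 - 2 * k)
    unfold te
    push_cast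
    linarith

/-- `ψ(q) = Θ(q^3) + q ψ(q^9)` -/
theorem Psi_dis : Psi = expand 3 (by norm_num) Th +
    X * expand 3 (by norm_num) (expand 3 (by norm_num) Psi) := by
  have hF9 : FF fun n : ℤ => ((3 : ℕ) : ℤ) * (((3 : ℕ) : ℤ) * (2 * n ^ 2 - n)) := fun n =>
    (FF_psi (n / 9)).subset fun i hi => by
      have h : ((3 : ℕ) : ℤ) * (((3 : ℕ) : ℤ) * (2 * i ^ 2 - i)) = n := hi
      show 2 * i ^ 2 - i = n / 9
      push_cast at h
      omega
  have h0 : ∀ n : ℤ, 0 ≤ ((3 : ℕ) : ℤ) * (((3 : ℕ) : ℤ) * (2 * n ^ 2 - n)) := fun n => by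
    have := psi_nonneg n
    positivity
  rw [Th_split, map_add]
  unfold Psi
  rw [expand_TS (k := 3) _ (fun n : ℤ => 2 * n ^ 2 - n), expand_TS, expand_TS, expand_TS,
    X_mul_TS hF9 h0, TS_int_three FF_psi]
  have e1 : TS (fun k : ℤ => 2 * (3 * k + 1) ^ 2 - (3 * k + 1)) (fun _ => (1 : ℤ)) =
      TS (fun n : ℤ => ((3 : ℕ) : ℤ) * (((3 : ℕ) : ℤ) * (2 * n ^ 2 - n)) + 1) (fun _ => (1 : ℤ)) := by
    rw [← TS_equiv (Equiv.neg ℤ) (fun k : ℤ => 2 * (3 * k + 1) ^ 2 - (3 * k + 1))]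
    simp only [Equiv.neg_apply]
    exact TS_congr (fun k => by push_cast; ring) fun _ => rfl
  have e0 : TS (fun k : ℤ => 2 * (3 * k) ^ 2 - 3 * k) (fun _ => (1 : ℤ)) =
      TS (fun i : ℤ => ((3 : ℕ) : ℤ) * (6 * i ^ 2 - i)) (fun _ => (1 : ℤ)) :=
    TS_congr (fun k => by push_cast; ring) fun _ => rfl
  have e2 : TS (fun k : ℤ => 2 * (3 * k - 1) ^ 2 - (3 * k - 1)) (fun _ => (1 : ℤ)) =
      TS (fun i : ℤ => ((3 : ℕ) : ℤ) * (6 * i ^ 2 - 5 * i + 1)) (fun _ => (1 : ℤ)) :=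
    TS_congr (fun k => by push_cast; ring) fun _ => rfl
  rw [e0, e1, e2]
  ring

/-- `ψ(-q) = Θ(-q^3) - q ψ(-q^9)` -/
theorem Psm_dis : ng Psi = expand 3 (by norm_num) (ng Th) - X * expand 3 (by norm_num) Ps3 := by
  have h := congrArg ng Psi_dis
  rw [map_add, map_mul, ng_X, ng_expand3, ng_expand3, ng_expand3] at h
  rw [h]
  unfold Ps3
  ring

/-- the operator `U_{3,r}` -/
noncomputable def U (r : ℕ) (F : ℤ⟦X⟧) : ℤ⟦X⟧ := mk fun n => coeff (3 * n + r) F

theorem coeff_U (r n : ℕ) (F : ℤ⟦X⟧) : coeff n (U r F) = coeff (3 * n + r) F := by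
  rw [U, coeff_mk]

theorem U_add (r : ℕ) (F G : ℤ⟦X⟧) : U r (F + G) = U r F + U r G := by
  ext n; simp [coeff_U]

theorem U_mul {r : ℕ} (hr : r < 3) (D F : ℤ⟦X⟧) :
    U r (expand 3 (by norm_num) D * F) = D * U r F := by
  ext n
  rw [coeff_U, coeff_mul, coeff_mul]
  symm
  refine Finset.sum_bij_ne_zero (fun p _ _ => (3 * p.1, 3 * p.2 + r)) ?_ ?_ ?_ ?_
  · rintro ⟨a, b⟩ h _
    rw [Finset.HasAntidiagonal.mem_antidiagonal] at h ⊢
    simp only at h ⊢
    omega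
  · rintro ⟨a, b⟩ h _ ⟨c, d⟩ h' _ heq
    simp only [Prod.mk.injEq] at heq ⊢
    omega
  · rintro ⟨a, b⟩ h hne
    rw [Finset.HasAntidiagonal.mem_antidiagonal] at h
    simp only at h hne
    rw [coeff_expand] at hne
    split_ifs at hne with hd
    · obtain ⟨a', rfl⟩ := hd
      refine ⟨(a', (b - r) / 3), ?_, ?_, ?_⟩
      · rw [Finset.HasAntidiagonal.mem_antidiagonal]
        simp only
        omega
      · rw [coeff_U]
        have hb : 3 * ((b - r) / 3) + r = b := by omega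
        simp only [hb]
        rwa [Nat.mul_div_cancel_left _ (by norm_num)] at hne
      · simp only [Prod.mk.injEq]
        constructor
        · trivial
        · omega
    · simp at hne
  · rintro ⟨a, b⟩ _ _
    simp only
    rw [coeff_expand, if_pos (Dvd.intro _ rfl), Nat.mul_div_cancel_left _ (by norm_num), coeff_U]

theorem U_expand {r j : ℕ} (hr : r < 3) (hj : j < 3) (F : ℤ⟦X⟧) :
    U r (X ^ j * expand 3 (by norm_num) F) = if r = j then F else 0 := by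
  ext n
  rw [coeff_U, coeff_X_pow_mul']
  by_cases h : r = j
  · subst h
    rw [if_pos (by omega), if_pos rfl, Nat.add_sub_cancel, coeff_expand, if_pos (Dvd.intro _ rfl),
      Nat.mul_div_cancel_left _ (by norm_num)]
  · rw [if_neg h, map_zero]
    split_ifs with h2
    · rw [coeff_expand, if_neg (by omega)]
    · rfl

theorem U_three (r : ℕ) (hr : r < 3) (A B D : ℤ⟦X⟧) :
    U r (expand 3 (by norm_num) A + X * expand 3 (by norm_num) B +
      X ^ 2 * expand 3 (by norm_num) D) =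
    (if r = 0 then A else 0) + (if r = 1 then B else 0) + (if r = 2 then D else 0) := by
  rw [U_add, U_add]
  congr 1
  · congr 1
    · have := U_expand (r := r) (j := 0) hr (by norm_num) A
      rwa [pow_zero, one_mul] at this
    · have := U_expand (r := r) (j := 1) hr (by norm_num) B
      rwa [pow_one] at this
  · exact U_expand (r := r) (j := 2) hr (by norm_num) D

/-- the denominator -/
noncomputable def Dn : ℤ⟦X⟧ := pm3 ^ 3 - 8 * X * Om ^ 3

theorem Dn_eq : pm3 * Dn = phm ^ 4 := by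
  unfold Dn
  linear_combination R5

/-- first step -/
theorem step1 {P : ℤ⟦X⟧} (hP : P * eul 1 = eul 4) :
    phm ^ 2 * U 1 P * eul 3 = pm3 ^ 2 * eul 12 := by
  have h1 : P * phm = ng Psi := by
    have hne : eul 2 ≠ 0 := eul_ne_zero (by norm_num)
    refine mul_right_cancel₀ hne ?_
    rw [Psm_eul, mul_assoc, phm_eul]
    linear_combination (eul 1) * hP
  obtain ⟨a, ha⟩ : ∃ a, a = expand 3 (by norm_num) pm3 := ⟨_, rfl⟩
  obtain ⟨o, ho⟩ : ∃ o, o = expand 3 (by norm_num) Om := ⟨_, rfl⟩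
  obtain ⟨c, hc⟩ : ∃ c, c = expand 3 (by norm_num) (ng Th) := ⟨_, rfl⟩
  obtain ⟨d, hd⟩ : ∃ d, d = expand 3 (by norm_num) Ps3 := ⟨_, rfl⟩
  have h2 : phm = a - 2 * X * o := by rw [ha, ho]; exact phm_dis
  have h3 : ng Psi = c - X * d := by rw [hc, hd]; exact Psm_dis
  have hDn : expand 3 (by norm_num) Dn = a ^ 3 - 8 * X ^ 3 * o ^ 3 := by
    unfold Dn
    rw [map_sub, map_mul, map_mul, map_pow, map_pow, map_ofNat, expand_X, ← ha, ← ho]
  have h4 : expand 3 (by norm_num) Dn * P =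
      expand 3 (by norm_num) (ng Th * pm3 ^ 2 - 4 * X * Ps3 * Om ^ 2) +
      X * expand 3 (by norm_num) (2 * ng Th * pm3 * Om - Ps3 * pm3 ^ 2) +
      X ^ 2 * expand 3 (by norm_num) (4 * ng Th * Om ^ 2 - 2 * Ps3 * pm3 * Om) := by
    rw [hDn]
    simp only [map_sub, map_mul, map_pow, map_ofNat, expand_X, ← ha, ← ho, ← hc, ← hd]
    rw [h2, h3] at h1
    linear_combination (a ^ 2 + 2 * a * X * o + 4 * X ^ 2 * o ^ 2) * h1
  have h5 := congrArg (U 1) h4
  rw [U_mul (by norm_num), U_three 1 (by norm_num)] at h5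
  norm_num at h5
  -- h5 : Dn * U 1 P = ...
  have h6 := VI
  have hne : pm3 * phm ^ 2 ≠ 0 := mul_ne_zero pm3_ne (pow_ne_zero 2 phm_ne)
  have h7 := Dn_eq
  refine mul_left_cancel₀ (pow_ne_zero 2 phm_ne) ?_
  linear_combination (-U 1 P * eul 3) * h7 + (pm3 * eul 3) * h5 + pm3 ^ 2 * h6

/-- second step -/
theorem step2 {P : ℤ⟦X⟧} (hP : P * eul 1 = eul 4) :
    phm ^ 6 * U 2 (U 1 P) * eul 1 = 12 * (eul 4 * pm3 ^ 4 * Om ^ 2) := by
  have h1 := step1 hP
  obtain ⟨P1, hP1⟩ : ∃ P1, P1 = U 1 P := ⟨_, rfl⟩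
  rw [← hP1] at h1 ⊢
  obtain ⟨a, ha⟩ : ∃ a, a = expand 3 (by norm_num) pm3 := ⟨_, rfl⟩
  obtain ⟨o, ho⟩ : ∃ o, o = expand 3 (by norm_num) Om := ⟨_, rfl⟩
  obtain ⟨f, hf⟩ : ∃ f, f = expand 3 (by norm_num) phm := ⟨_, rfl⟩
  have h2 : phm = a - 2 * X * o := by rw [ha, ho]; exact phm_dis
  have hpm3 : pm3 = f := by rw [hf]; rfl
  have e1 : expand 3 (by norm_num) (eul 1) = eul 3 := by
    rw [expand_eul _ le_rfl]
  have e4 : expand 3 (by norm_num) (eul 4) = eul 12 := by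
    rw [expand_eul _ (by norm_num)]
  have hDn : expand 3 (by norm_num) Dn = a ^ 3 - 8 * X ^ 3 * o ^ 3 := by
    unfold Dn
    rw [map_sub, map_mul, map_mul, map_pow, map_pow, map_ofNat, expand_X, ← ha, ← ho]
  have h4 : expand 3 (by norm_num) (Dn ^ 2 * eul 1) * P1 =
      expand 3 (by norm_num) (phm ^ 2 * eul 4 * (pm3 ^ 4 + 16 * X * pm3 * Om ^ 3)) +
      X * expand 3 (by norm_num) (phm ^ 2 * eul 4 * (4 * pm3 ^ 3 * Om + 16 * X * Om ^ 4)) +
      X ^ 2 * expand 3 (by norm_num) (phm ^ 2 * eul 4 * (12 * pm3 ^ 2 * Om ^ 2)) := by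
    simp only [map_add, map_mul, map_pow, map_ofNat, expand_X, ← ha, ← ho, ← hf, hDn, e1, e4]
    rw [h2, hpm3] at h1
    linear_combination ((a ^ 2 + 2 * a * X * o + 4 * X ^ 2 * o ^ 2) ^ 2) * h1
  have h5 := congrArg (U 2) h4
  rw [U_mul (by norm_num), U_three 2 (by norm_num)] at h5
  norm_num at h5
  have h7 := Dn_eq
  refine mul_left_cancel₀ (pow_ne_zero 2 phm_ne) ?_
  linear_combination (-(pm3 * Dn + phm ^ 4) * U 2 P1 * eul 1) * h7 + pm3 ^ 2 * h5

end Q266.PD
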