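import Pool.Agent.Q266.PD7
import Pool.Agent.Q266.DS5

/-!
# Reduction modulo 16
-/

set_option autoImplicit false

namespace Q266.PD

open PowerSeries Q279.QS Q266.DS

/-- inverse of a series with constant coefficient 1 -/
noncomputable def iv (F : ℤ⟦X⟧) : ℤ⟦X⟧ := invOfUnit F 1

theorem iv_mul {F : ℤ⟦X⟧} (h : constantCoeff F = 1) : F * iv F = 1 :=
  mul_invOfUnit F 1 (by rw [h]; simp)

/-- `G = f_2^4 f_3^6 f_4 / f_1^11` -/
noncomputable def Gs : ℤ⟦X⟧ := eul 4 * pm3 ^ 4 * Om ^ 2 * iv (phm ^ 6 * eul 1)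

theorem Gs_eq : phm ^ 6 * Gs * eul 1 = eul 4 * pm3 ^ 4 * Om ^ 2 := by
  have h : constantCoeff (phm ^ 6 * eul 1) = 1 := by
    rw [map_mul, map_pow, phm_c0, constCoeff_eul le_rfl]; norm_num
  have h2 := iv_mul h
  unfold Gs
  linear_combination (eul 4 * pm3 ^ 4 * Om ^ 2) * h2

theorem step3 {P : ℤ⟦X⟧} (hP : P * eul 1 = eul 4) : U 2 (U 1 P) = 12 * Gs := by
  have h1 := step2 hP
  have h2 := Gs_eq
  have hne : phm ^ 6 * eul 1 ≠ 0 := mul_ne_zero (pow_ne_zero 6 phm_ne) (eul_ne_zero le_rfl)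
  refine mul_left_cancel₀ hne ?_
  linear_combination h1 - 12 * h2

theorem kGs : ka Gs = e 2 ^ 4 * e 3 ^ 6 * e 4 / e 1 ^ 11 := by
  have h := congrArg ka Gs_eq
  rw [map_mul, map_mul, map_pow, map_mul, map_mul, map_pow, map_pow, kphm, kpm3, kOm] at h
  have n1 := e1n
  have n2 := e2n
  have n3 := e3n
  have n4 := e4n
  have n6 := e6n
  have h2 : (e 1 ^ 2 / e 2) ^ 6 * ka Gs * e 1 =
      e 4 * (e 3 ^ 2 / e 6) ^ 4 * (e 1 * e 6 ^ 2 / (e 2 * e 3)) ^ 2 := h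
  have h3 : ka Gs = e 4 * (e 3 ^ 2 / e 6) ^ 4 * (e 1 * e 6 ^ 2 / (e 2 * e 3)) ^ 2 /
      ((e 1 ^ 2 / e 2) ^ 6 * e 1) := by
    rw [eq_div_iff (mul_ne_zero (pow_ne_zero 6 (div_ne_zero (pow_ne_zero 2 n1) n2)) n1), ← h2]
    ring
  rw [h3]
  field_simp

theorem Gs_exact : Gs * (Phi * phm ^ 6) = ng (eul 1) * (pm3 ^ 4 * Ph3 * Psi6) := by
  refine ka_inj ?_
  simp only [map_mul ka, map_pow ka, kGs, kPhi, kphm, kpm3, kPh3, kPsi6, kng1]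
  have n1 := e1n
  have n2 := e2n
  have n3 := e3n
  have n4 := e4n
  have n6 := e6n
  have n12 := e12n
  field_simp

theorem phm8 : ∃ r : ℤ⟦X⟧, phm ^ 8 = 1 + 16 * r := by
  rw [phm_eq]
  exact ⟨-T1 + 7 * T1 ^ 2 - 28 * T1 ^ 3 + 70 * T1 ^ 4 - 112 * T1 ^ 5 + 112 * T1 ^ 6 - 64 * T1 ^ 7 +
    16 * T1 ^ 8, by ring⟩

/-- `a(-q)` -/
noncomputable def Am : ℤ⟦X⟧ := 2 * (phm * pm3) - Phi * Ph3

/-- (m3) -/
theorem m3 : ∃ r : ℤ⟦X⟧, Gs = ng (eul 1) * Am * (Psi6 * (Ph3 * pm3) ^ 2) + 16 * r := by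
  obtain ⟨r, hr⟩ := phm8
  have hex := Gs_exact
  have hR := R3
  have hc : constantCoeff (Phi * phm ^ 6) = 1 := by
    rw [map_mul, map_pow, Phi_c0, phm_c0]; norm_num
  obtain ⟨t, ht⟩ : ∃ t, t = iv (Phi * phm ^ 6) := ⟨_, rfl⟩
  have hiv : Phi * phm ^ 6 * t = 1 := by rw [ht]; exact iv_mul hc
  -- `A Φ Φ_3 = (φ φ_3)^2 - 16 X^2 ..`
  have h1 : Am * Phi * Ph3 = (phm * pm3) ^ 2 - 16 * (X * Psi2 * Psi6) ^ 2 := by
    unfold Am
    linear_combination (-(Phi * Ph3 - phm * pm3 + 4 * X * Psi2 * Psi6)) * hR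
  have h2 : (ng (eul 1) * Am * (Psi6 * (Ph3 * pm3) ^ 2)) * (Phi * phm ^ 6) =
      ng (eul 1) * (pm3 ^ 4 * Ph3 * Psi6) + 16 * (ng (eul 1) * Psi6 * Ph3 * pm3 ^ 2 *
        (pm3 ^ 2 * r - phm ^ 6 * (X * Psi2 * Psi6) ^ 2)) := by
    linear_combination (ng (eul 1) * Psi6 * Ph3 * pm3 ^ 2 * phm ^ 6) * h1 +
      (ng (eul 1) * Psi6 * Ph3 * pm3 ^ 4) * hr
  refine ⟨-(ng (eul 1) * Psi6 * Ph3 * pm3 ^ 2 *
        (pm3 ^ 2 * r - phm ^ 6 * (X * Psi2 * Psi6) ^ 2)) * t, ?_⟩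
  linear_combination (-Gs + ng (eul 1) * Am * (Psi6 * (Ph3 * pm3) ^ 2)) * hiv + t * hex - t * h2

theorem th_Psi : th Psi = Psi * (2 * Lg 2 - Lg 1) := by
  have h1 := congrArg th Psi_eul
  rw [th_sq, th_mul] at h1
  have i1 := ie_mul (k := 1) le_rfl
  have i2 := ie_mul (k := 2) (by norm_num)
  have h2 := Psi_eul
  unfold Lg
  -- th Psi = (2 eul 2 th(eul 2) - th(eul 1) Psi) * ie 1
  have h3 : th Psi = (2 * eul 2 * th (eul 2) - th (eul 1) * Psi) * ie 1 := by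
    linear_combination (-th Psi) * i1 - (ie 1) * h1
  rw [h3]
  -- Psi * 2 * th(eul 2) * ie 2 = 2 eul 2 th(eul 2) ie 1
  have h4 : Psi * ie 2 = eul 2 * ie 1 := by
    linear_combination (-Psi * ie 2) * i1 - (ie 1 * ie 2) * h2 + (eul 2 * ie 1) * i2
  linear_combination (-2 * th (eul 2)) * h4

/-- (m2) -/
theorem m2 : ∃ r : ℤ⟦X⟧, Psi * phm ^ 4 = Psi + 8 * th Psi + 16 * r := by
  have h2 : Lg 2 = 2 * expand 2 (by norm_num) (Lg 1) := Lg_two (k := 1) le_rfl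
  refine ⟨Psi * (Lg 4 - Lg 2 + Lg 1 - 3 * expand 2 (by norm_num) (Lg 1)), ?_⟩
  rw [four_sq, th_Psi]
  linear_combination (-24 * Psi) * h2

theorem m2' : ∃ r : ℤ⟦X⟧, Psi6 * (Ph3 * pm3) ^ 2 =
    expand 6 (by norm_num) (Psi + 8 * th Psi) + 16 * r := by
  obtain ⟨r, hr⟩ := m2
  have h := congrArg (expand 6 (by norm_num)) hr
  rw [map_mul, map_pow, map_add, map_mul, map_ofNat] at h
  have e1 : expand 6 (by norm_num) Psi = Psi6 := by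
    unfold Psi6 Psi2
    rw [exp_exp (c := 6) _ _ (by norm_num) (by norm_num)]
  have e2 : Ph3 * pm3 = (expand 6 (by norm_num) phm) ^ 2 := by
    rw [phi_mul3, pm3, exp_exp (c := 6) _ _ (by norm_num) (by norm_num)]
  refine ⟨expand 6 (by norm_num) r, ?_⟩
  rw [e2, ← h, e1]
  ring

theorem th_neg (F : ℤ⟦X⟧) : th (-F) = - th F := by ext n; simp

theorem th_sub (F G : ℤ⟦X⟧) : th (F - G) = th F - th G := by
  rw [sub_eq_add_neg, th_add, th_neg, ← sub_eq_add_neg]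

theorem th_expand3 (F : ℤ⟦X⟧) : th (expand 3 (by norm_num) F) = 3 * expand 3 (by norm_num) (th F) := by
  ext n
  rw [coeff_th, coeff_expand, show (3 : ℤ⟦X⟧) = C 3 from (map_ofNat C 3).symm, coeff_C_mul,
    coeff_expand]
  split_ifs with h
  · obtain ⟨m, rfl⟩ := h
    rw [Nat.mul_div_cancel_left _ (by norm_num), coeff_th]
    push_cast
    ring
  · simp

/-- `θ s_1 ≡ s_1 - s_4 (mod 2)` -/
theorem th_s1 : ∃ r : ℤ⟦X⟧, th s1 = s1 - s4 + 2 * r := by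
  have h1 : T1 = s1 - 2 * s4 := T1_eq
  have hd : ∀ k : ℕ, (4 : ℤ) ∣ 2 * ((k : ℤ) + 1) ^ 2 - 1 - (-1) ^ k := by
    intro k
    rcases Nat.even_or_odd' k with ⟨m, h | h⟩
    · subst h
      rw [pow_mul]
      norm_num
      exact ⟨2 * (m : ℤ) ^ 2 + 2 * m, by ring⟩
    · subst h
      have h9 : (-1 : ℤ) ^ (2 * m + 1) = -1 := by rw [pow_succ, pow_mul]; norm_num
      rw [h9]
      push_cast
      exact ⟨2 * ((m : ℤ) + 1) ^ 2, by ring⟩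
  have h2 : 2 * th s1 = s1 + T1 + 4 * TS (fun k : ℕ => ((k : ℤ) + 1) ^ 2)
      (fun k => (2 * ((k : ℤ) + 1) ^ 2 - 1 - (-1) ^ k) / 4) := by
    have h4 : (4 : ℤ⟦X⟧) = C 4 := (map_ofNat C 4).symm
    have h5 : (2 : ℤ⟦X⟧) = C 2 := (map_ofNat C 2).symm
    rw [s1, th_TS FF_nsq, T1, h4, h5, ← TS_smul 4 FF_nsq, ← TS_smul 2 FF_nsq, ← TS_add FF_nsq,
      ← TS_add FF_nsq]
    refine TS_congr (fun _ => rfl) fun k => ?_
    rw [Int.mul_ediv_cancel' (hd k)]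
    ring
  refine ⟨TS (fun k : ℕ => ((k : ℤ) + 1) ^ 2)
      (fun k => (2 * ((k : ℤ) + 1) ^ 2 - 1 - (-1) ^ k) / 4), ?_⟩
  refine mul_left_cancel₀ two_ps_ne ?_
  rw [h2, h1]
  ring

/-- `Θ(q) φ(-q) = f_1 φ(-q^3)` -/
theorem Th_phm : Th * phm = eul 1 * pm3 := by
  refine ka_inj ?_
  rw [map_mul, map_mul, kTh, kphm, kpm3]
  have n1 := e1n
  have n2 := e2n
  have n6 := e6n
  show e 2 * e 3 ^ 2 / (e 1 * e 6) * (e 1 ^ 2 / e 2) = e 1 * (e 3 ^ 2 / e 6)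
  field_simp

theorem th_phm : th phm = phm * (2 * Lg 1 - Lg 2) := by
  have i1 := ie_mul (k := 1) le_rfl
  rw [phm_form, th_mul, th_ie (by norm_num), th_sq]
  unfold Lg
  linear_combination (-2 * eul 1 * th (eul 1) * ie 2) * i1

/-- (m1): `f_1 a(q) ≡ (1 + 4θ) Θ (mod 16)` -/
theorem m1 : ∃ r : ℤ⟦X⟧, eul 1 * (2 * (Phi * Ph3) - phm * pm3) = Th + 4 * th Th + 16 * r := by
  have h1 := Th_phm
  have h2 := congrArg th h1
  rw [th_mul, th_mul, th_phm] at h2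
  -- th(eul 1) = eul 1 * Lg 1
  have i1 := ie_mul (k := 1) le_rfl
  have h3 : th (eul 1) = eul 1 * Lg 1 := by
    unfold Lg; linear_combination (-th (eul 1)) * i1
  rw [h3] at h2
  -- the logarithmic derivative `W = L2 - L1`
  obtain ⟨W, hW⟩ : ∃ W, W = Lg 2 - Lg 1 := ⟨_, rfl⟩
  have h4 : phm * th Th = eul 1 * (pm3 * W + th pm3) := by
    rw [hW]
    linear_combination h2 - (2 * Lg 1 - Lg 2) * h1
  -- `8 W = 1 - φ^4 + 32 U`
  have hW8 : ∃ u, W = Vs + 4 * u := by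
    have g2 : Lg 2 = 2 * expand 2 (by norm_num) (Lg 1) := Lg_two (k := 1) le_rfl
    have g4 : Lg 4 = 2 * expand 2 (by norm_num) (Lg 2) := Lg_two (k := 2) (by norm_num)
    refine ⟨expand 2 (by norm_num) W, ?_⟩
    have hU : Lg 4 - Lg 2 = 2 * expand 2 (by norm_num) W := by
      rw [hW, map_sub, mul_sub, ← g4, ← g2]
    refine mul_left_cancel₀ eight_ps_ne ?_
    have h5 := four_sq
    rw [phm_eq] at h5
    unfold Vs
    linear_combination h5 + 8 * hW + 16 * hU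
  obtain ⟨u, hu⟩ := hW8
  obtain ⟨r1, hr1⟩ := th_s1
  obtain ⟨r2, hr2⟩ := frob T1
  -- expansions
  obtain ⟨v, hv⟩ : ∃ v, v = expand 3 (by norm_num) s1 := ⟨_, rfl⟩
  obtain ⟨v4, hv4⟩ : ∃ v4, v4 = expand 3 (by norm_num) s4 := ⟨_, rfl⟩
  obtain ⟨T3, hT3⟩ : ∃ T3, T3 = expand 3 (by norm_num) T1 := ⟨_, rfl⟩
  obtain ⟨T2, hT2⟩ : ∃ T2, T2 = expand 2 (by norm_num) T1 := ⟨_, rfl⟩
  have eT3 : T3 = v - 2 * v4 := by
    rw [hT3, T1_eq, map_sub, map_mul, map_ofNat, ← hv, ← hv4]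
  have ePh3 : Ph3 = 1 + 2 * v := by
    rw [Ph3, Phi_eq, map_add, map_one, map_mul, map_ofNat, ← hv]
  have epm3 : pm3 = 1 - 2 * T3 := by
    rw [pm3, phm_eq, map_sub, map_one, map_mul, map_ofNat, ← hT3]
  have ep2 : expand 2 (by norm_num) phm = 1 - 2 * T2 := by
    rw [phm_eq, map_sub, map_one, map_mul, map_ofNat, ← hT2]
  rw [← hT2] at hr2
  -- `θ T3 ≡ v - v4 (mod 2)`
  have eth : ∃ w, th T3 = v - v4 + 2 * w := by
    refine ⟨v - v4 + 3 * expand 3 (by norm_num) r1 - th v4, ?_⟩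
    have g : th v = 3 * (v - v4 + 2 * expand 3 (by norm_num) r1) := by
      rw [hv, th_expand3, hr1, map_add, map_sub, map_mul, map_ofNat, ← hv, ← hv4]
    rw [eT3, th_sub, th_two, g]
    ring
  obtain ⟨w, hw⟩ := eth
  have ethp : th pm3 = -2 * th T3 := by
    rw [epm3, th_sub, th_one, th_two]; ring
  have hpp := phi_mul
  rw [ep2] at hpp
  have hphm : phm = 1 - 2 * T1 := phm_eq
  -- everything multiplied by `phm`
  have key : ∃ R, phm * (eul 1 * (2 * (Phi * Ph3) - phm * pm3)) =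
      phm * (Th + 4 * th Th) + 16 * R := by
    refine ⟨eul 1 * ((v - v4) + r2 + T2 ^ 2 + 2 * r2 * T2 + 2 * r2 ^ 2 - v * T2 + v * T2 ^ 2 -
      T1 ^ 3 - T1 ^ 2 * T3 + 2 * T1 ^ 3 * T3 - T1 ^ 4 * T3 - u * (1 - 2 * T3) + w), ?_⟩
    have l1 : phm * (eul 1 * (2 * (Phi * Ph3) - phm * pm3)) =
        eul 1 * (2 * (1 - 2 * T2) ^ 2 * (1 + 2 * v) - (1 - 2 * T1) ^ 2 * (1 - 2 * T3)) := by
      calc phm * (eul 1 * (2 * (Phi * Ph3) - phm * pm3)) =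
          eul 1 * (2 * (Phi * phm) * Ph3 - phm ^ 2 * pm3) := by ring
        _ = _ := by rw [hpp, ePh3, epm3, hphm]
    have l2 : phm * (Th + 4 * th Th) = eul 1 * ((1 - 2 * T3) +
        4 * ((1 - 2 * T3) * (Vs + 4 * u) - 2 * (v - v4 + 2 * w))) := by
      calc phm * (Th + 4 * th Th) = Th * phm + 4 * (phm * th Th) := by ring
        _ = _ := by
          rw [h1, h4, ethp, hw, hu, epm3]; ring
    rw [l1, l2]
    unfold Vs
    linear_combination (4 * eul 1) * eT3 + (eul 1 * (8 + 8 * (T1 ^ 2 + T2 + 2 * r2))) * hr2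
  obtain ⟨R, hR⟩ := key
  have hiv := iv_mul phm_c0
  refine ⟨iv phm * R, ?_⟩
  linear_combination (-(eul 1 * (2 * (Phi * Ph3) - phm * pm3)) + Th + 4 * th Th) * hiv + iv phm * hR

end Q266.PD
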