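import Pool.Agent.Q266.PD8
import Pool.Agent.Q266.DS3

/-!
# Vanishing modulo 16, generating function of `ped`
-/

set_option autoImplicit false

namespace Q266.PD

open PowerSeries Q279.QS Q266.DS Filter Topology
open scoped PowerSeries.WithPiTopology

theorem Am_ng : ng (2 * (Phi * Ph3) - phm * pm3) = Am := by
  have h2 : ng phm = Phi := ng_phm
  rw [map_sub, map_mul, map_mul, map_mul, map_ofNat, ng_Phi, ng_Ph3, h2, ng_pm3, Am]

/-- `G ≡ ((1+4θ)Θ)(-q) · ((1+8θ)ψ)(q^6) (mod 16)` -/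
theorem G_form : ∃ r : ℤ⟦X⟧, Gs = ng (Th + 4 * th Th) * expand 6 (by norm_num) (Psi + 8 * th Psi) +
    16 * r := by
  obtain ⟨r1, h1⟩ := m1
  obtain ⟨r2, h2⟩ := m2'
  obtain ⟨r3, h3⟩ := m3
  have h4 := congrArg ng h1
  rw [map_mul, Am_ng, map_add (ng) (Th + 4 * th Th), map_mul ng 16, map_ofNat] at h4
  rw [h4, h2] at h3
  refine ⟨r3 + ng r1 * (expand 6 (by norm_num) (Psi + 8 * th Psi) + 16 * r2) +
    ng (Th + 4 * th Th) * r2, ?_⟩
  rw [h3]
  ring

theorem FF_te12 : FF (te 1 2) := FF_te le_rfl (by norm_num)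

theorem G_coeff {m : ℕ} (h : ∀ i j : ℤ, (6 * i - 1) ^ 2 + 18 * (4 * j - 1) ^ 2 ≠ 24 * m + 19) :
    (16 : ℤ) ∣ coeff m Gs := by
  obtain ⟨r, hr⟩ := G_form
  have e1 : ng (Th + 4 * th Th) = TS (te 1 2) (fun i => sg (te 1 2 i) * (1 + 4 * te 1 2 i)) := by
    have h4 : (4 : ℤ⟦X⟧) = C 4 := (map_ofNat C 4).symm
    rw [Th, th_TS FF_te12, h4, ← TS_smul 4 FF_te12, ← TS_add FF_te12, ng_TS FF_te12]
    exact TS_congr (fun _ => rfl) fun i => by ring
  have e2 : expand 6 (by norm_num) (Psi + 8 * th Psi) =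
      TS (fun n : ℤ => ((6 : ℕ) : ℤ) * (2 * n ^ 2 - n)) (fun n => 1 + 8 * (2 * n ^ 2 - n)) := by
    have h8 : (8 : ℤ⟦X⟧) = C 8 := (map_ofNat C 8).symm
    rw [Psi, th_TS FF_psi, h8, ← TS_smul 8 FF_psi, ← TS_add FF_psi, expand_TS]
    exact TS_congr (fun _ => rfl) fun i => by ring
  have hF6 : FF fun n : ℤ => ((6 : ℕ) : ℤ) * (2 * n ^ 2 - n) := fun n =>
    (FF_psi (n / 6)).subset fun i hi => by
      have h : ((6 : ℕ) : ℤ) * (2 * i ^ 2 - i) = n := hi
      show 2 * i ^ 2 - i = n / 6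
      push_cast at h
      omega
  have h0 : ∀ n : ℤ, 0 ≤ ((6 : ℕ) : ℤ) * (2 * n ^ 2 - n) := fun n => by
    have := psi_nonneg n
    positivity
  have h3 : coeff m (ng (Th + 4 * th Th) * expand 6 (by norm_num) (Psi + 8 * th Psi)) = 0 := by
    rw [e1, e2, TS_mul FF_te12 hF6 (te_nonneg 1 2) h0]
    refine coeff_TS_of_zero fun p hp => ?_
    exfalso
    apply h p.1 p.2
    have h5 := two_tri p.1
    have h6 : 24 * te 1 2 p.1 + 1 = (6 * p.1 - 1) ^ 2 := by
      unfold te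
      push_cast
      linear_combination 36 * h5
    rw [← h6, ← sub_eq_zero]
    have hp' : te 1 2 p.1 + ((6 : ℕ) : ℤ) * (2 * p.2 ^ 2 - p.2) = m := hp
    push_cast at hp'
    linear_combination 24 * hp'
  rw [hr, map_add, h3, zero_add, show (16 : ℤ⟦X⟧) = C 16 from (map_ofNat C 16).symm, coeff_C_mul]
  exact Dvd.intro _ rfl

/-- if `-2` is a non-residue then `p ∣ u^2 + 2 w^2` forces `p ∣ u, w` -/
theorem inert {p : ℕ} [Fact p.Prime] (hp : legendreSym p (-2) = -1) {u w : ℤ}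
    (h : (p : ℤ) ∣ u ^ 2 + 2 * w ^ 2) : (p : ℤ) ∣ u ∧ (p : ℤ) ∣ w := by
  have hns : ¬ IsSquare (((-2 : ℤ)) : ZMod p) := (legendreSym.eq_neg_one_iff p).1 hp
  have h1 : ((u : ZMod p)) ^ 2 + 2 * (w : ZMod p) ^ 2 = 0 := by
    have := (ZMod.intCast_zmod_eq_zero_iff_dvd _ p).2 h
    push_cast at this
    exact this
  have hw : (w : ZMod p) = 0 := by
    by_contra hw
    apply hns
    refine ⟨(u : ZMod p) * (w : ZMod p)⁻¹, ?_⟩
    field_simp
    push_cast
    linear_combination -h1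
  have hu : (u : ZMod p) = 0 := by
    rw [hw] at h1
    have h2 : (u : ZMod p) ^ 2 = 0 := by linear_combination h1
    exact pow_eq_zero_iff (two_ne_zero) |>.1 h2
  exact ⟨(ZMod.intCast_zmod_eq_zero_iff_dvd _ p).1 hu, (ZMod.intCast_zmod_eq_zero_iff_dvd _ p).1 hw⟩

theorem even_val {p : ℕ} [hpf : Fact p.Prime] (hp : legendreSym p (-2) = -1) :
    ∀ N : ℕ, 0 < N → (∃ u w : ℤ, u ^ 2 + 2 * w ^ 2 = N) → Even (padicValNat p N) := by
  intro N
  induction N using Nat.strong_induction_on with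
  | _ N ih =>
    intro hN ⟨u, w, h⟩
    by_cases hd : p ∣ N
    · have hd' : (p : ℤ) ∣ u ^ 2 + 2 * w ^ 2 := by rw [h]; exact_mod_cast hd
      obtain ⟨⟨a, ha⟩, ⟨b, hb⟩⟩ := inert hp hd'
      have hp0 : 0 < p := hpf.out.pos
      have h2 : ((N : ℕ) : ℤ) = (p : ℤ) ^ 2 * (a ^ 2 + 2 * b ^ 2) := by
        rw [← h, ha, hb]; ring
      have h3 : p ^ 2 ∣ N := by
        have : ((p ^ 2 : ℕ) : ℤ) ∣ (N : ℤ) := by
          rw [h2]; push_cast; exact Dvd.intro _ rfl
        exact_mod_cast this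
      obtain ⟨M, hM⟩ := h3
      have hM0 : 0 < M := by
        rcases Nat.eq_zero_or_pos M with h | h
        · rw [h] at hM; omega
        · exact h
      have h4 : a ^ 2 + 2 * b ^ 2 = (M : ℤ) := by
        have h5 : ((p : ℤ) ^ 2) * (a ^ 2 + 2 * b ^ 2) = (p : ℤ) ^ 2 * M := by
          rw [← h2, hM]; push_cast; ring
        exact mul_left_cancel₀ (pow_ne_zero 2 (by exact_mod_cast hp0.ne')) h5
      have hlt : M < N := by
        rw [hM]
        have h2p := hpf.out.two_le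
        have h4p : 4 ≤ p ^ 2 := by nlinarith
        nlinarith
      have h6 := ih M hlt hM0 ⟨a, b, h4⟩
      rw [hM, padicValNat.mul (pow_ne_zero 2 hp0.ne') hM0.ne', padicValNat.prime_pow]
      exact (even_two).add h6
    · rw [padicValNat.eq_zero_of_not_dvd hd]
      exact Even.zero

/-- the weight -/
def wp (i c : ℕ) : ℤ := if Even i then (if c = 1 then 1 else 0) else 1

/-- the generating function of `ped` -/
noncomputable def Pd : ℤ⟦X⟧ := Nat.Partition.genFun wp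

/-- odd part of the denominator -/
noncomputable def odn (i : ℕ) : ℤ⟦X⟧ := if Odd (i + 1) then 1 - X ^ (i + 1) else 1

theorem mult_odn : Multipliable odn := by
  refine multipliable_of_dvd fun i => ?_
  unfold odn
  split_ifs
  · exact ⟨-1, by ring⟩
  · simp

theorem tprod_odn : ∏' i, odn i = oddP 1 := by
  have h0 : ∀ i, odn (2 * i) = 1 - C 1 * X ^ (1 + 2 * i) := fun i => by
    unfold odn; rw [if_pos ⟨i, rfl⟩, add_comm 1 (2 * i)]; simp
  have h1 : ∀ i, odn (2 * i + 1) = 1 := fun i => by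
    unfold odn
    rw [if_neg (by rintro ⟨m, hm⟩; omega)]
  rw [tprod_even_odd mult_odn]
  · simp only [h0, h1, tprod_one, mul_one]
    rfl
  · simp only [h0]; exact mult_aux 1 1 2 le_rfl (by norm_num)
  · simp only [h1]; exact multipliable_one

theorem summable_C (i : ℕ) :
    Summable fun j => C (wp (i + 1) (j + 1)) * (X : ℤ⟦X⟧) ^ ((i + 1) * (j + 1)) := by
  have hs1 := Nat.Partition.summable_genFun_term wp i
  refine hs1.congr fun j => ?_
  rw [PowerSeries.smul_eq_C_mul]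

theorem pfactor (i : ℕ) :
    (1 + ∑' j, C (wp (i + 1) (j + 1)) * (X : ℤ⟦X⟧) ^ ((i + 1) * (j + 1))) * odn i = evp i := by
  have hs1 := summable_C i
  unfold odn evp
  split_ifs with h
  · have h1 : ∀ j, C (wp (i + 1) (j + 1)) * (X : ℤ⟦X⟧) ^ ((i + 1) * (j + 1)) =
        (X ^ (i + 1)) ^ (j + 1) := by
      intro j
      unfold wp
      rw [if_neg (Nat.not_even_iff_odd.2 h), map_one, one_mul, ← pow_mul]
    simp only [h1] at hs1 ⊢
    set y : ℤ⟦X⟧ := X ^ (i + 1) with hy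
    have hs : Summable fun j => y ^ j := (summable_nat_add_iff 1).1 hs1
    have h2 : 1 + ∑' j, y ^ (j + 1) = ∑' j, y ^ j := by
      rw [hs.tsum_eq_zero_add, pow_zero]
    rw [h2]
    exact hs.tsum_pow_mul_one_sub
  · rw [mul_one, tsum_eq_single 0]
    · unfold wp
      rw [if_pos (Nat.not_odd_iff_even.1 h), if_pos rfl]
      simp
    · intro j hj
      unfold wp
      rw [if_pos (Nat.not_odd_iff_even.1 h), if_neg (by omega), map_zero, zero_mul]

theorem Pd_odd : Pd * oddP 1 = Es := by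
  unfold Pd
  rw [← tprod_evp, ← tprod_odn, Nat.Partition.genFun_eq_tprod]
  have h := (Nat.Partition.multipliable_genFun wp).tprod_mul mult_odn
  refine h.symm.trans (tprod_congr fun i => ?_)
  rw [← pfactor i]
  congr 2
  exact tsum_congr fun j => smul_eq_C_mul _ _

theorem Pd_eul : Pd * eul 1 = eul 4 := by
  rw [eul_one_eq, ← Es_eul, ← Pd_odd]
  ring

/-- the main divisibility -/
theorem ped_main {m : ℕ} (h : ∀ i j : ℤ, (6 * i - 1) ^ 2 + 18 * (4 * j - 1) ^ 2 ≠ 24 * m + 19) :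
    (192 : ℤ) ∣ coeff (9 * m + 7) Pd := by
  have h1 := congrArg (coeff m) (step3 Pd_eul)
  rw [coeff_U, coeff_U, show 3 * (3 * m + 2) + 1 = 9 * m + 7 by ring,
    show (12 : ℤ⟦X⟧) = C 12 from (map_ofNat C 12).symm, coeff_C_mul] at h1
  rw [h1]
  obtain ⟨k, hk⟩ := G_coeff h
  exact ⟨k, by rw [hk]; ring⟩

end Q266.PD
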