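import Mathlib

/-!
Rationals whose denominator is prime to `p`, in a form convenient for sums of quotients.
-/

namespace Q266.PInt

open Finset

/-- `x` is `p`-integral: some multiplier prime to `p` clears the denominator. -/
def PI (p : ℕ) (x : ℚ) : Prop := ∃ B : ℕ, ¬ p ∣ B ∧ ∃ z : ℤ, (B : ℚ) * x = z

theorem PI.add {p : ℕ} (hp : p.Prime) {x y : ℚ} (hx : PI p x) (hy : PI p y) : PI p (x + y) := by
  obtain ⟨B, hB, z, hz⟩ := hx
  obtain ⟨C, hC, w, hw⟩ := hy
  refine ⟨B * C, fun h => ?_, C * z + B * w, ?_⟩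
  · rcases (hp.dvd_mul).1 h with h | h
    · exact hB h
    · exact hC h
  · push_cast
    rw [← hz, ← hw]
    ring

theorem PI.mul {p : ℕ} (hp : p.Prime) {x y : ℚ} (hx : PI p x) (hy : PI p y) : PI p (x * y) := by
  obtain ⟨B, hB, z, hz⟩ := hx
  obtain ⟨C, hC, w, hw⟩ := hy
  refine ⟨B * C, fun h => ?_, z * w, ?_⟩
  · rcases (hp.dvd_mul).1 h with h | h
    · exact hB h
    · exact hC h
  · push_cast
    rw [← hz, ← hw]
    ring

theorem PI.int {p : ℕ} (hp : p.Prime) (z : ℤ) : PI p (z : ℚ) :=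
  ⟨1, fun h => hp.one_lt.ne' (Nat.dvd_one.1 h), z, by simp⟩

theorem PI.neg {p : ℕ} {x : ℚ} (hx : PI p x) : PI p (-x) := by
  obtain ⟨B, hB, z, hz⟩ := hx
  exact ⟨B, hB, -z, by push_cast; rw [← hz]; ring⟩

theorem PI.sub {p : ℕ} (hp : p.Prime) {x y : ℚ} (hx : PI p x) (hy : PI p y) : PI p (x - y) := by
  rw [sub_eq_add_neg]
  exact hx.add hp hy.neg

theorem PI.sum {p : ℕ} (hp : p.Prime) {ι : Type*} (s : Finset ι) (f : ι → ℚ)
    (h : ∀ i ∈ s, PI p (f i)) : PI p (∑ i ∈ s, f i) := by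
  classical
  induction s using Finset.induction_on with
  | empty => simpa using PI.int hp 0
  | insert a s ha ih =>
    rw [Finset.sum_insert ha]
    exact (h a (by simp)).add hp (ih fun i hi => h i (by simp [hi]))

/-- inverse of a natural number prime to `p` -/
theorem PI.inv {p : ℕ} {b : ℕ} (hb : ¬ p ∣ b) : PI p (1 / (b : ℚ)) := by
  refine ⟨b, hb, 1, ?_⟩
  have : (b : ℚ) ≠ 0 := by
    have : b ≠ 0 := by rintro rfl; exact hb (dvd_zero _)
    exact_mod_cast this
  field_simp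
  norm_num

theorem PI.pow {p : ℕ} (hp : p.Prime) {x : ℚ} (hx : PI p x) (k : ℕ) : PI p (x ^ k) := by
  induction k with
  | zero => simpa using PI.int hp 1
  | succ k ih => rw [pow_succ]; exact ih.mul hp hx

/-- quotient of naturals -/
theorem PI.of_val {p : ℕ} (hp : p.Prime) {a b : ℕ} {x : ℚ} (ha : a ≠ 0) (hb : b ≠ 0)
    (h : x * b = a) (hv : b.factorization p ≤ a.factorization p) : PI p x := by
  have hpd : p ^ (b.factorization p) ∣ a := (hp.pow_dvd_iff_le_factorization ha).2 hv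
  obtain ⟨c, hc⟩ := hpd
  have hb2 := Nat.ordProj_mul_ordCompl_eq_self b p
  refine ⟨b / p ^ (b.factorization p), Nat.not_dvd_ordCompl hp hb, c, ?_⟩
  have hp0 : (p : ℚ) ^ (b.factorization p) ≠ 0 := by
    have : (p : ℚ) ≠ 0 := by exact_mod_cast hp.ne_zero
    exact pow_ne_zero _ this
  generalize b / p ^ (b.factorization p) = d at *
  have h1 : (p : ℚ) ^ (b.factorization p) * d = b := by exact_mod_cast hb2
  have h2 : (a : ℚ) = (p : ℚ) ^ (b.factorization p) * c := by exact_mod_cast hc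
  have h3 : (p : ℚ) ^ (b.factorization p) * ((d : ℚ) * x) = (p : ℚ) ^ (b.factorization p) * c := by
    rw [← h2, ← h, ← mul_assoc, h1]; ring
  have := mul_left_cancel₀ hp0 h3
  exact_mod_cast this

/-- a quotient which is not `p`-integral -/
theorem not_PI_of_val {p : ℕ} {a b : ℕ} {x : ℚ} (ha : a ≠ 0) (hb : b ≠ 0)
    (h : x * b = a) (hv : a.factorization p < b.factorization p) : ¬ PI p x := by
  rintro ⟨B, hB, z, hz⟩
  have hB0 : B ≠ 0 := by rintro rfl; exact hB (dvd_zero _)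
  have h1 : (B : ℚ) * a = z * b := by rw [← h, ← hz]; ring
  have h2 : (B : ℤ) * a = z * b := by exact_mod_cast h1
  have h3 : B * a = z.natAbs * b := by
    have := congrArg Int.natAbs h2
    simpa [Int.natAbs_mul] using this
  have hz0 : z.natAbs ≠ 0 := by
    intro h0
    rw [h0, zero_mul] at h3
    exact (mul_ne_zero hB0 ha) h3
  have h4 := congrArg (fun t : ℕ => t.factorization p) h3
  simp only [Nat.factorization_mul hB0 ha, Nat.factorization_mul hz0 hb, Finsupp.add_apply] at h4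
  have h5 : B.factorization p = 0 := Nat.factorization_eq_zero_of_not_dvd hB
  omega

/-- a rational which is `p`-integral for every prime is an integer -/
theorem int_of_PI {x : ℚ} (h : ∀ p : ℕ, p.Prime → PI p x) : ∃ z : ℤ, x = z := by
  by_cases h1 : x.den = 1
  · exact ⟨x.num, (Rat.den_eq_one_iff x).1 h1 |>.symm⟩
  · exfalso
    obtain ⟨p, hp, hd⟩ := Nat.exists_prime_and_dvd h1
    obtain ⟨B, hB, z, hz⟩ := h p hp
    have hB0 : B ≠ 0 := by rintro rfl; exact hB (dvd_zero _)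
    have hB1 : (B : ℚ) ≠ 0 := by exact_mod_cast hB0
    have hx : x = ((z : ℤ) : ℚ) / ((B : ℤ) : ℚ) := by
      rw [← hz]; push_cast; field_simp
    have h2 : ((x.den : ℕ) : ℤ) ∣ (B : ℤ) := by
      rw [hx, ← Rat.divInt_eq_div]
      exact Rat.den_dvd z B
    apply hB
    have h3 : x.den ∣ B := by exact_mod_cast h2
    exact hd.trans h3

/-- a multiple of `p` times the inverse of `p` -/
theorem not_dvd_of_not_PI {p : ℕ} (hp : p.Prime) {x : ℚ} (z : ℤ) (h : (p : ℚ) * x = z)
    (hn : ¬ PI p x) : ¬ (p : ℤ) ∣ z := by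
  rintro ⟨d, rfl⟩
  apply hn
  have hp0 : (p : ℚ) ≠ 0 := by exact_mod_cast hp.ne_zero
  have : x = d := by
    apply mul_left_cancel₀ hp0
    rw [h]
    push_cast
    ring
  rw [this]
  exact PI.int hp d

end Q266.PInt
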