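import Mathlib

/-!
Valuations of elements of the field of rational functions at a prime of `ℤ[X]`, in predicate form.
-/

namespace Q266.QVal

open Polynomial Finset

/-- the field of rational functions in `q` -/
abbrev K : Type := RatFunc ℤ

/-- polynomials as rational functions -/
noncomputable abbrev ι : ℤ[X] →+* K := algebraMap ℤ[X] K

theorem ι_inj : Function.Injective ι := RatFunc.algebraMap_injective ℤ

theorem ι_ne {p : ℤ[X]} (h : p ≠ 0) : ι p ≠ 0 := by
  intro h0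
  apply h
  apply ι_inj
  rw [h0, map_zero]

/-- `x` has exact valuation `e` at `p` -/
def V (p : ℤ[X]) (x : K) (e : ℤ) : Prop :=
  ∃ u w : ℤ[X], ¬ p ∣ u ∧ ¬ p ∣ w ∧ x * ι w = ι p ^ e * ι u

/-- `x` has valuation at least `e` at `p` -/
def I (p : ℤ[X]) (x : K) (e : ℤ) : Prop :=
  ∃ u w : ℤ[X], ¬ p ∣ w ∧ x * ι w = ι p ^ e * ι u

variable {p : ℤ[X]}

theorem ne_zero_of_not_dvd {u : ℤ[X]} (h : ¬ p ∣ u) : u ≠ 0 := by
  rintro rfl; exact h (dvd_zero _)

theorem V.ne_zero (hp : Prime p) {x : K} {e : ℤ} (h : V p x e) : x ≠ 0 := by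
  obtain ⟨u, w, hu, hw, h⟩ := h
  rintro rfl
  rw [zero_mul] at h
  exact (mul_ne_zero (zpow_ne_zero _ (ι_ne hp.ne_zero)) (ι_ne (ne_zero_of_not_dvd hu))) h.symm

theorem V.mul (hp : Prime p) {x y : K} {e f : ℤ} (hx : V p x e) (hy : V p y f) :
    V p (x * y) (e + f) := by
  obtain ⟨u, w, hu, hw, h⟩ := hx
  obtain ⟨u', w', hu', hw', h'⟩ := hy
  refine ⟨u * u', w * w', ?_, ?_, ?_⟩
  · intro hd; rcases hp.dvd_or_dvd hd with h1 | h1
    · exact hu h1
    · exact hu' h1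
  · intro hd; rcases hp.dvd_or_dvd hd with h1 | h1
    · exact hw h1
    · exact hw' h1
  · rw [zpow_add₀ (ι_ne hp.ne_zero), map_mul, map_mul]
    calc x * y * (ι w * ι w') = (x * ι w) * (y * ι w') := by ring
      _ = _ := by rw [h, h']; ring

theorem V.inv (hp : Prime p) {x : K} {e : ℤ} (hx : V p x e) : V p x⁻¹ (-e) := by
  have hx0 := hx.ne_zero hp
  obtain ⟨u, w, hu, hw, h⟩ := hx
  refine ⟨w, u, hw, hu, ?_⟩
  have h1 : ι p ^ e ≠ 0 := zpow_ne_zero _ (ι_ne hp.ne_zero)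
  rw [zpow_neg]
  field_simp
  rw [h]
  ring

theorem V.div (hp : Prime p) {x y : K} {e f : ℤ} (hx : V p x e) (hy : V p y f) :
    V p (x / y) (e - f) := by
  rw [div_eq_mul_inv, sub_eq_add_neg]
  exact hx.mul hp (hy.inv hp)

theorem V.one (hp : Prime p) : V p 1 0 :=
  ⟨1, 1, hp.not_dvd_one, hp.not_dvd_one, by simp⟩

theorem V.pow (hp : Prime p) {x : K} {e : ℤ} (hx : V p x e) (n : ℕ) : V p (x ^ n) (n * e) := by
  induction n with
  | zero => simpa using V.one hp
  | succ n ih =>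
    rw [pow_succ]
    have := ih.mul hp hx
    have e1 : ((n + 1 : ℕ) : ℤ) * e = n * e + e := by push_cast; ring
    rw [e1]
    exact this

theorem V.prod (hp : Prime p) {α : Type*} (s : Finset α) (x : α → K) (e : α → ℤ)
    (h : ∀ i ∈ s, V p (x i) (e i)) : V p (∏ i ∈ s, x i) (∑ i ∈ s, e i) := by
  classical
  induction s using Finset.induction_on with
  | empty => simpa using V.one hp
  | insert a s ha ih =>
    rw [Finset.prod_insert ha, Finset.sum_insert ha]
    exact (h a (by simp)).mul hp (ih fun i hi => h i (by simp [hi]))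

theorem V.of_not_dvd (hp : Prime p) {u : ℤ[X]} (hu : ¬ p ∣ u) : V p (ι u) 0 :=
  ⟨u, 1, hu, hp.not_dvd_one, by simp⟩

theorem V.neg_one (hp : Prime p) {x : K} {e : ℤ} (hx : V p x e) : V p (-x) e := by
  obtain ⟨u, w, hu, hw, h⟩ := hx
  refine ⟨-u, w, fun hd => hu ((dvd_neg).1 hd), hw, ?_⟩
  rw [map_neg, neg_mul, h]
  ring

theorem V.toI (hp : Prime p) {x : K} {e f : ℤ} (hx : V p x e) (hf : f ≤ e) : I p x f := by
  obtain ⟨u, w, _, hw, h⟩ := hx
  obtain ⟨n, hn⟩ : ∃ n : ℕ, e = f + n := ⟨(e - f).toNat, by omega⟩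
  refine ⟨p ^ n * u, w, hw, ?_⟩
  rw [h, hn, zpow_add₀ (ι_ne hp.ne_zero), map_mul, map_pow, zpow_natCast]
  ring

theorem I.add (hp : Prime p) {x y : K} {e : ℤ} (hx : I p x e) (hy : I p y e) : I p (x + y) e := by
  obtain ⟨u, w, hw, h⟩ := hx
  obtain ⟨u', w', hw', h'⟩ := hy
  refine ⟨u * w' + u' * w, w * w', ?_, ?_⟩
  · intro hd; rcases hp.dvd_or_dvd hd with h1 | h1
    · exact hw h1
    · exact hw' h1
  · rw [map_add, map_mul, map_mul, map_mul]
    calc (x + y) * (ι w * ι w') = (x * ι w) * ι w' + (y * ι w') * ι w := by ring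
      _ = _ := by rw [h, h']; ring

theorem I.mul (hp : Prime p) {x y : K} {e f : ℤ} (hx : I p x e) (hy : I p y f) :
    I p (x * y) (e + f) := by
  obtain ⟨u, w, hw, h⟩ := hx
  obtain ⟨u', w', hw', h'⟩ := hy
  refine ⟨u * u', w * w', ?_, ?_⟩
  · intro hd; rcases hp.dvd_or_dvd hd with h1 | h1
    · exact hw h1
    · exact hw' h1
  · rw [zpow_add₀ (ι_ne hp.ne_zero), map_mul, map_mul]
    calc x * y * (ι w * ι w') = (x * ι w) * (y * ι w') := by ring
      _ = _ := by rw [h, h']; ring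

theorem I.zero (hp : Prime p) (e : ℤ) : I p 0 e := ⟨0, 1, hp.not_dvd_one, by simp⟩

theorem I.neg {x : K} {e : ℤ} (hx : I p x e) : I p (-x) e := by
  obtain ⟨u, w, hw, h⟩ := hx
  exact ⟨-u, w, hw, by rw [map_neg, neg_mul, h]; ring⟩

theorem I.sum (hp : Prime p) {α : Type*} (s : Finset α) (x : α → K) (e : ℤ)
    (h : ∀ i ∈ s, I p (x i) e) : I p (∑ i ∈ s, x i) e := by
  classical
  induction s using Finset.induction_on with
  | empty => simpa using I.zero hp e
  | insert a s ha ih =>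
    rw [Finset.sum_insert ha]
    exact (h a (by simp)).add hp (ih fun i hi => h i (by simp [hi]))

theorem I.of_poly (hp : Prime p) (u : ℤ[X]) : I p (ι u) 0 := ⟨u, 1, hp.not_dvd_one, by simp⟩

theorem I.dvd (hp : Prime p) {A : ℤ[X]} {e : ℕ} (h : I p (ι A) e) : p ^ e ∣ A := by
  obtain ⟨u, w, hw, h⟩ := h
  rw [zpow_natCast, ← map_pow, ← map_mul, ← map_mul] at h
  have h2 : A * w = p ^ e * u := ι_inj h
  have h3 : p ^ e ∣ A * w := ⟨u, h2⟩
  exact hp.pow_dvd_of_dvd_mul_right e hw h3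

/-! ### cyclotomic primes -/

theorem cyc_prime {d : ℕ} (hd : 0 < d) : Prime (cyclotomic d ℤ) :=
  (cyclotomic.irreducible hd).prime

theorem cyc_dvd_iff {d j : ℕ} (hd : 0 < d) (hj : 0 < j) : cyclotomic d ℤ ∣ X ^ j - 1 ↔ d ∣ j := by
  constructor
  · intro h
    rw [← prod_cyclotomic_eq_X_pow_sub_one hj ℤ] at h
    rw [(cyc_prime hd).dvd_finsetProd_iff] at h
    obtain ⟨i, hi, hdi⟩ := h
    have hi0 : 0 < i := Nat.pos_of_mem_divisors hi
    have hass : Associated (cyclotomic d ℤ) (cyclotomic i ℤ) :=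
      (cyc_prime hd).associated_of_dvd (cyc_prime hi0) hdi
    have heq : cyclotomic d ℤ = cyclotomic i ℤ :=
      eq_of_monic_of_associated (cyclotomic.monic d ℤ) (cyclotomic.monic i ℤ) hass
    have : d = i := cyclotomic_injective heq
    rw [this]
    exact Nat.dvd_of_mem_divisors hi
  · intro h
    exact (cyclotomic.dvd_X_pow_sub_one d ℤ).trans (by
      obtain ⟨c, rfl⟩ := h
      rw [pow_mul]
      exact sub_one_dvd_pow_sub_one _ _)

/-- the variable -/
noncomputable abbrev q : K := RatFunc.X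

theorem ι_X : ι X = q := RatFunc.algebraMap_X

theorem one_sub_eq (j : ℕ) : (1 : K) - q ^ j = ι (-(X ^ j - 1)) := by
  rw [map_neg, map_sub, map_pow, map_one, ι_X]; ring

/-- the indicator of divisibility -/
def δ (d j : ℕ) : ℤ := if d ∣ j then 1 else 0

theorem V_one_sub {d j : ℕ} (hd : 0 < d) (hj : 0 < j) : V (cyclotomic d ℤ) (1 - q ^ j) (δ d j) := by
  have hp := cyc_prime hd
  rw [one_sub_eq]
  unfold δ
  split_ifs with h
  · have h1 : cyclotomic d ℤ ∣ X ^ j - 1 := (cyc_dvd_iff hd hj).2 h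
    obtain ⟨u, hu⟩ := h1
    refine ⟨-u, 1, ?_, hp.not_dvd_one, ?_⟩
    · intro hdv
      have h2 : cyclotomic d ℤ ∣ u := (dvd_neg).1 hdv
      obtain ⟨v, hv⟩ := h2
      -- the square of the cyclotomic polynomial divides `X ^ j - 1`
      have hsep : (X ^ j - 1 : ℚ[X]).Separable := by
        have : (X ^ j - 1 : ℚ[X]) = X ^ j - C 1 := by simp
        rw [this]
        exact separable_X_pow_sub_C (1 : ℚ) (by exact_mod_cast hj.ne') one_ne_zero
      have hsq : (map (Int.castRingHom ℚ) (cyclotomic d ℤ)) * (map (Int.castRingHom ℚ)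
          (cyclotomic d ℤ)) ∣ (X ^ j - 1 : ℚ[X]) := by
        refine ⟨map (Int.castRingHom ℚ) v, ?_⟩
        have : (X ^ j - 1 : ℚ[X]) = map (Int.castRingHom ℚ) (X ^ j - 1) := by simp
        rw [this, hu, hv, Polynomial.map_mul, Polynomial.map_mul]
        ring
      have hunit := hsep.squarefree _ hsq
      rw [map_cyclotomic_int] at hunit
      exact (cyclotomic.irreducible_rat hd).not_isUnit hunit
    · rw [hu]
      simp [mul_comm]
  · apply V.of_not_dvd hp
    intro h1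
    exact h ((cyc_dvd_iff hd hj).1 ((dvd_neg).1 h1))

theorem V_q {d : ℕ} (hd : 0 < d) (hd1 : d ≠ 0) : V (cyclotomic d ℤ) q 0 := by
  have hp := cyc_prime hd
  rw [← ι_X]
  apply V.of_not_dvd hp
  intro h
  have h1 : cyclotomic d ℤ ∣ X ^ d - 1 := cyclotomic.dvd_X_pow_sub_one d ℤ
  have h2 : cyclotomic d ℤ ∣ 1 := by
    have h3 : cyclotomic d ℤ ∣ X ^ d := dvd_pow h hd1
    have : (1 : ℤ[X]) = X ^ d - (X ^ d - 1) := by ring
    rw [this]
    exact dvd_sub h3 h1
  exact hp.not_dvd_one h2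

theorem one_sub_ne {j : ℕ} (hj : 0 < j) : (1 : K) - q ^ j ≠ 0 :=
  (V_one_sub (d := 1) one_pos hj).ne_zero (cyc_prime one_pos)

end Q266.QVal
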