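import Mathlib
import Pool.Agent.Q266.QVal

/-!
`q`-shifted factorials, Gaussian binomials as products of cyclotomic polynomials.
-/

namespace Q266.QVal

open Polynomial Finset

/-- `(a; x)_m` -/
noncomputable def poch (a x : K) (m : ℕ) : K := ∏ j ∈ range m, (1 - a * x ^ j)

theorem poch_zero (a x : K) : poch a x 0 = 1 := by simp [poch]

theorem poch_succ (a x : K) (m : ℕ) : poch a x (m + 1) = poch a x m * (1 - a * x ^ m) := by
  unfold poch; rw [Finset.prod_range_succ]

theorem one_add_ne {j : ℕ} (hj : 0 < j) : (1 : K) + q ^ j ≠ 0 := by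
  intro h
  have h1 := one_sub_ne (j := 2 * j) (by omega)
  apply h1
  have : (1 : K) - q ^ (2 * j) = (1 + q ^ j) * (1 - q ^ j) := by ring
  rw [this, h, zero_mul]

/-- exponents of a shifted factorial in `q` -/
theorem poch_q (a b : ℕ) (m : ℕ) : poch (q ^ a) (q ^ b) m = ∏ j ∈ range m, (1 - q ^ (a + b * j)) := by
  unfold poch
  apply Finset.prod_congr rfl
  intro j _
  rw [pow_add, pow_mul]

theorem poch_q_ne (a b : ℕ) (ha : 0 < a) (m : ℕ) : poch (q ^ a) (q ^ b) m ≠ 0 := by
  rw [poch_q]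
  exact Finset.prod_ne_zero_iff.2 fun j _ => one_sub_ne (by omega)

theorem poch_neg_ne (m : ℕ) : poch (-q) q m ≠ 0 := by
  unfold poch
  refine Finset.prod_ne_zero_iff.2 fun j _ => ?_
  have : (1 : K) - -q * q ^ j = 1 + q ^ (j + 1) := by ring
  rw [this]
  exact one_add_ne (by omega)

theorem V_poch {d : ℕ} (hd : 0 < d) (a b : ℕ) (ha : 0 < a) (m : ℕ) :
    V (cyclotomic d ℤ) (poch (q ^ a) (q ^ b) m) (∑ j ∈ range m, δ d (a + b * j)) := by
  rw [poch_q]
  exact V.prod (cyc_prime hd) _ _ _ fun j _ => V_one_sub hd (by omega)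

/-- counting multiples -/
theorem sum_delta (d g e : ℕ) (h : ∀ j : ℕ, d ∣ g * j ↔ e ∣ j) (m : ℕ) :
    ∑ j ∈ range m, δ d (g + g * j) = ((m / e : ℕ) : ℤ) := by
  induction m with
  | zero => simp
  | succ m ih =>
    rw [Finset.sum_range_succ, ih, Nat.succ_div]
    unfold δ
    have h1 : d ∣ g + g * m ↔ e ∣ m + 1 := by
      rw [← h (m + 1)]
      have : g * (m + 1) = g + g * m := by ring
      rw [this]
    simp only [h1]
    split_ifs <;> simp

/-- `(q;q)_m` as a product of cyclotomic polynomials -/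
theorem one_sub_prod (N j : ℕ) (hj : 0 < j) (hN : j ≤ N) :
    (1 : K) - q ^ j = -∏ d ∈ Icc 1 N, ι (cyclotomic d ℤ) ^ (if d ∣ j then 1 else 0) := by
  rw [one_sub_eq, map_neg, ← prod_cyclotomic_eq_X_pow_sub_one hj ℤ, map_prod]
  congr 1
  have hsub : j.divisors ⊆ Icc 1 N := by
    intro d hd
    rw [Finset.mem_Icc]
    exact ⟨Nat.pos_of_mem_divisors hd, (Nat.divisor_le hd).trans hN⟩
  rw [← Finset.prod_subset hsub]
  · apply Finset.prod_congr rfl
    intro d hd
    rw [if_pos (Nat.dvd_of_mem_divisors hd), pow_one]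
  · intro d _ hd2
    rw [if_neg, pow_zero]
    intro h
    exact hd2 (Nat.mem_divisors.2 ⟨h, hj.ne'⟩)

theorem qq_prod (N m : ℕ) (hN : m ≤ N) :
    poch q q m = (-1) ^ m * ∏ d ∈ Icc 1 N, ι (cyclotomic d ℤ) ^ (m / d) := by
  induction m with
  | zero => simp [poch_zero]
  | succ m ih =>
    rw [poch_succ, ih (by omega)]
    have h1 : (1 : K) - q * q ^ m = 1 - q ^ (m + 1) := by rw [pow_succ']
    rw [h1, one_sub_prod N (m + 1) (by omega) hN, pow_succ (-1 : K)]
    have h2 : ∏ d ∈ Icc 1 N, ι (cyclotomic d ℤ) ^ ((m + 1) / d)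
        = (∏ d ∈ Icc 1 N, ι (cyclotomic d ℤ) ^ (m / d)) *
          ∏ d ∈ Icc 1 N, ι (cyclotomic d ℤ) ^ (if d ∣ m + 1 then 1 else 0) := by
      rw [← Finset.prod_mul_distrib]
      apply Finset.prod_congr rfl
      intro d _
      rw [← pow_add, Nat.succ_div]
    rw [h2]
    ring

/-- Gaussian binomial coefficient -/
noncomputable def gauss (m j : ℕ) : K := poch q q m / (poch q q j * poch q q (m - j))

/-- Gaussian binomial coefficient as a polynomial -/
noncomputable def gaussP (m j : ℕ) : ℤ[X] :=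
  ∏ d ∈ Icc 1 m, cyclotomic d ℤ ^ (m / d - j / d - (m - j) / d)

theorem div_add_le (a b d : ℕ) : a / d + b / d ≤ (a + b) / d := Nat.div_add_div_le_add_div

theorem gaussP_eq (m j : ℕ) (h : j ≤ m) : ι (gaussP m j) = gauss m j := by
  have hne : ∀ m', poch q q m' ≠ 0 := fun m' => by
    have := poch_q_ne 1 1 one_pos m'
    simpa using this
  unfold gauss
  rw [eq_div_iff (mul_ne_zero (hne j) (hne (m - j))), qq_prod m j h, qq_prod m (m - j) (by omega),
    qq_prod m m le_rfl]
  unfold gaussP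
  rw [map_prod]
  have h1 : ((-1 : K) ^ j) * (-1) ^ (m - j) = (-1) ^ m := by
    rw [← pow_add]; congr 1; omega
  have h2 : (∏ d ∈ Icc 1 m, ι (cyclotomic d ℤ ^ (m / d - j / d - (m - j) / d))) *
      ((∏ d ∈ Icc 1 m, ι (cyclotomic d ℤ) ^ (j / d)) *
        ∏ d ∈ Icc 1 m, ι (cyclotomic d ℤ) ^ ((m - j) / d))
      = ∏ d ∈ Icc 1 m, ι (cyclotomic d ℤ) ^ (m / d) := by
    rw [← Finset.prod_mul_distrib, ← Finset.prod_mul_distrib]
    apply Finset.prod_congr rfl
    intro d _
    rw [map_pow, ← pow_add, ← pow_add]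
    congr 1
    have := div_add_le j (m - j) d
    rw [show j + (m - j) = m by omega] at this
    omega
  calc (∏ d ∈ Icc 1 m, ι (cyclotomic d ℤ ^ (m / d - j / d - (m - j) / d))) *
        (((-1) ^ j * ∏ d ∈ Icc 1 m, ι (cyclotomic d ℤ) ^ (j / d)) *
        ((-1) ^ (m - j) * ∏ d ∈ Icc 1 m, ι (cyclotomic d ℤ) ^ ((m - j) / d)))
      = ((-1 : K) ^ j * (-1) ^ (m - j)) * ((∏ d ∈ Icc 1 m, ι (cyclotomic d ℤ ^ (m / d - j / d -
        (m - j) / d))) * ((∏ d ∈ Icc 1 m, ι (cyclotomic d ℤ) ^ (j / d)) *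
        ∏ d ∈ Icc 1 m, ι (cyclotomic d ℤ) ^ ((m - j) / d))) := by ring
    _ = _ := by rw [h1, h2]

theorem cyc_dvd_gaussP (m j d : ℕ) (hd : 0 < d) (hlt : j / d + (m - j) / d < m / d) :
    cyclotomic d ℤ ∣ gaussP m j := by
  have hdm : d ≤ m := by
    by_contra hcon
    rw [Nat.div_eq_of_lt (by omega : m < d)] at hlt
    exact Nat.not_lt_zero _ hlt
  have h1 : cyclotomic d ℤ ∣ cyclotomic d ℤ ^ (m / d - j / d - (m - j) / d) :=
    dvd_pow_self _ (by omega)
  exact h1.trans (Finset.dvd_prod_of_mem (fun d => cyclotomic d ℤ ^ (m / d - j / d - (m - j) / d))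
    (Finset.mem_Icc.2 ⟨hd, hdm⟩))

/-- a polynomial divisible by the cyclotomic factors of a Gaussian binomial coefficient with simple
factors is divisible by it -/
theorem gaussP_dvd (m j : ℕ) (hle : ∀ d, 0 < d → m / d ≤ j / d + (m - j) / d + 1) (A : ℤ[X])
    (h : ∀ d, 0 < d → j / d + (m - j) / d < m / d → cyclotomic d ℤ ∣ A) : gaussP m j ∣ A := by
  unfold gaussP
  suffices H : ∀ s : Finset ℕ, (∀ d ∈ s, 0 < d) →
      (∏ d ∈ s, cyclotomic d ℤ ^ (m / d - j / d - (m - j) / d)) ∣ A from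
    H _ fun d hd => (Finset.mem_Icc.1 hd).1
  intro s
  induction s using Finset.induction_on with
  | empty => intro _; simp
  | insert a s ha ih =>
    intro hs
    rw [Finset.prod_insert ha]
    obtain ⟨c, hc⟩ := ih fun d hd => hs d (by simp [hd])
    have ha0 : 0 < a := hs a (by simp)
    have hle' := hle a ha0
    rcases Nat.eq_zero_or_pos (m / a - j / a - (m - j) / a) with h0 | h0
    · rw [h0, pow_zero, one_mul]
      exact ⟨c, hc⟩
    · have h1 : m / a - j / a - (m - j) / a = 1 := by omega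
      rw [h1, pow_one]
      have h2 := h a ha0 (by omega)
      rw [hc] at h2 ⊢
      have hpr := cyc_prime ha0
      rcases hpr.dvd_or_dvd h2 with h3 | h3
      · exfalso
        rw [hpr.dvd_finsetProd_iff] at h3
        obtain ⟨i, hi, hdi⟩ := h3
        have hi0 : 0 < i := hs i (by simp [hi])
        have hdi' := hpr.dvd_of_dvd_pow hdi
        have hass : Associated (cyclotomic a ℤ) (cyclotomic i ℤ) :=
          hpr.associated_of_dvd (cyc_prime hi0) hdi'
        have heq : cyclotomic a ℤ = cyclotomic i ℤ :=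
          eq_of_monic_of_associated (cyclotomic.monic a ℤ) (cyclotomic.monic i ℤ) hass
        have : a = i := cyclotomic_injective heq
        subst this
        exact ha hi
      · obtain ⟨e, rfl⟩ := h3
        exact ⟨e, by ring⟩

end Q266.QVal
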