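import Mathlib
import Pool.Agent.Q266.QPoch

/-!
Congruences modulo the square of a cyclotomic polynomial for block sums: a first order expansion
around `1` combined with the vanishing of a cyclic sum at a root of unity.
-/

namespace Q266.QVal

open Polynomial Finset

theorem I.mono {p : ℤ[X]} (hp : Prime p) {x : K} {e f : ℤ} (hx : I p x e) (hf : f ≤ e) :
    I p x f := by
  obtain ⟨u, w, hw, h⟩ := hx
  obtain ⟨n, hn⟩ : ∃ n : ℕ, e = f + n := ⟨(e - f).toNat, by omega⟩
  refine ⟨p ^ n * u, w, hw, ?_⟩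
  rw [h, hn, zpow_add₀ (ι_ne hp.ne_zero), map_mul, map_pow, zpow_natCast]
  ring

/-- congruences can be multiplied -/
theorem congr_mul {p : ℤ[X]} (hp : Prime p) {x y x' y' : K} {e : ℤ} (hx : I p x 0)
    (hy' : I p y' 0) (h : I p (x - y) e) (h' : I p (x' - y') e) :
    I p (x * x' - y * y') e := by
  have : x * x' - y * y' = x * (x' - y') + (x - y) * y' := by ring
  rw [this]
  refine I.add hp ?_ ?_
  · simpa using hx.mul hp h'
  · simpa using h.mul hp hy'

theorem I.prod0 {p : ℤ[X]} (hp : Prime p) {α : Type*} (s : Finset α) (x : α → K)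
    (h : ∀ i ∈ s, I p (x i) 0) : I p (∏ i ∈ s, x i) 0 := by
  classical
  induction s using Finset.induction_on with
  | empty => simpa using (V.one hp).toI hp le_rfl
  | insert a s ha ih =>
    rw [Finset.prod_insert ha]
    simpa using (h a (by simp)).mul hp (ih fun i hi => h i (by simp [hi]))

theorem congr_prod {p : ℤ[X]} (hp : Prime p) {α : Type*} (s : Finset α) (x y : α → K) (e : ℤ)
    (hx : ∀ i ∈ s, I p (x i) 0) (hy : ∀ i ∈ s, I p (y i) 0)
    (h : ∀ i ∈ s, I p (x i - y i) e) : I p (∏ i ∈ s, x i - ∏ i ∈ s, y i) e := by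
  classical
  induction s using Finset.induction_on with
  | empty => simpa using I.zero hp e
  | insert a s ha ih =>
    rw [Finset.prod_insert ha, Finset.prod_insert ha]
    exact congr_mul hp (hx a (by simp)) (I.prod0 hp s y fun i hi => hy i (by simp [hi]))
      (h a (by simp)) (ih (fun i hi => hx i (by simp [hi])) (fun i hi => hy i (by simp [hi]))
        fun i hi => h i (by simp [hi]))

/-- divisibility by a cyclotomic polynomial is vanishing at a primitive root of unity -/
theorem cyc_dvd_iff_root {n : ℕ} (hn : 0 < n) {ζ : ℂ} (hζ : IsPrimitiveRoot ζ n) (f : ℤ[X]) :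
    cyclotomic n ℤ ∣ f ↔ aeval ζ f = 0 := by
  rw [cyclotomic_eq_minpoly hζ hn]
  exact (minpoly.isIntegrallyClosed_dvd_iff (hζ.isIntegral hn) f).symm

/-- first order expansion around `1` -/
theorem dvd_sq_of_expand {Φ : ℤ[X]} (P : ℤ[X][X]) (y : ℤ[X]) (hy : Φ ∣ y - 1)
    (h1 : Φ ^ 2 ∣ P.eval 1) (h2 : Φ ∣ P.derivative.eval 1) : Φ ^ 2 ∣ P.eval y := by
  obtain ⟨k, hk⟩ := P.binomExpansion 1 (y - 1)
  have e : (1 : ℤ[X]) + (y - 1) = y := by ring
  rw [e] at hk
  rw [hk]
  refine dvd_add (dvd_add h1 ?_) ?_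
  · rw [sq]; exact mul_dvd_mul h2 hy
  · exact Dvd.dvd.mul_left (pow_dvd_pow_of_dvd hy 2) _

/-- sums over the cosets of the roots of unity pick out coefficients -/
theorem cyc_sum {n : ℕ} {ω : ℂ} (hω : IsPrimitiveRoot ω n) (E : ℂ[X]) (t0 : ℕ)
    (ht0 : n ∣ t0) (hc : ∀ t, n ∣ t → t ≠ t0 → E.coeff t = 0) (x : ℂ) :
    ∑ i ∈ range n, E.eval (ω ^ i * x) = n * E.coeff t0 * x ^ t0 := by
  have h1 : ∀ i, E.eval (ω ^ i * x)
      = ∑ t ∈ range (E.natDegree + t0 + 1), E.coeff t * (ω ^ t) ^ i * x ^ t := by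
    intro i
    rw [eval_eq_sum_range' (n := E.natDegree + t0 + 1) (by omega)]
    apply Finset.sum_congr rfl
    intro t _
    rw [mul_pow, ← pow_mul, ← pow_mul, mul_comm i t, mul_assoc]
  simp only [h1]
  rw [Finset.sum_comm]
  have h2 : ∀ t ∈ range (E.natDegree + t0 + 1), t ≠ t0 →
      ∑ i ∈ range n, E.coeff t * (ω ^ t) ^ i * x ^ t = 0 := by
    intro t _ ht
    by_cases hd : n ∣ t
    · simp [hc t hd ht]
    · have hne : ω ^ t ≠ 1 := fun h => hd ((hω.pow_eq_one_iff_dvd t).1 h)
      have hpow : (ω ^ t) ^ n = 1 := by rw [← pow_mul, mul_comm, pow_mul, hω.pow_eq_one, one_pow]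
      have hg : ∑ i ∈ range n, (ω ^ t) ^ i = 0 := by
        have := geom_sum_mul (ω ^ t) n
        rw [hpow, sub_self] at this
        rcases mul_eq_zero.1 this with h | h
        · exact h
        · exact absurd (sub_eq_zero.1 h) hne
      rw [← Finset.sum_mul, ← Finset.mul_sum, hg]
      ring
  rw [Finset.sum_eq_single_of_mem t0 (by simp) h2]
  have hone : ω ^ t0 = 1 := (hω.pow_eq_one_iff_dvd t0).2 ht0
  rw [hone]
  simp
  ring

/-- the derivative of the block polynomial vanishes at `1` -/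
theorem deriv_zero {n : ℕ} {ω : ℂ} (hω : IsPrimitiveRoot ω n) (E : ℂ[X]) (m t0 : ℕ)
    (hm : m < n) (ht0 : n ∣ t0) (hc : ∀ t, n ∣ t → t ≠ t0 → E.coeff t = 0)
    (hv : ∀ i, m < i → i < n → (X - 1) ^ 2 ∣ E.comp (C (ω ^ i) * X))
    (h0 : ∑ i ∈ range (m + 1), E.eval (ω ^ i) = 0) :
    (∑ i ∈ range (m + 1), E.comp (C (ω ^ i) * X)).derivative.eval 1 = 0 := by
  have hv1 : ∀ i, m < i → i < n → E.eval (ω ^ i) = 0 := by
    intro i h1 h2
    obtain ⟨R, hR⟩ := hv i h1 h2
    have := congrArg (eval 1) hR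
    simpa using this
  have hsplit : ∀ (f : ℕ → ℂ), ∑ i ∈ range n, f i
      = ∑ i ∈ range (m + 1), f i + ∑ i ∈ Ico (m + 1) n, f i := by
    intro f
    rw [Finset.sum_range_add_sum_Ico f (by omega)]
  have hcoef : (n : ℂ) * E.coeff t0 = 0 := by
    have h := cyc_sum hω E t0 ht0 hc 1
    simp only [mul_one, one_pow] at h
    rw [← h, hsplit, h0, zero_add]
    apply Finset.sum_eq_zero
    intro i hi
    rw [Finset.mem_Ico] at hi
    exact hv1 i (by omega) hi.2
  have hall : ∑ i ∈ range n, E.comp (C (ω ^ i) * X) = 0 := by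
    apply Polynomial.funext
    intro x
    rw [eval_finsetSum, eval_zero]
    have h := cyc_sum hω E t0 ht0 hc x
    rw [hcoef, zero_mul] at h
    rw [← h]
    apply Finset.sum_congr rfl
    intro i _
    simp
  have hpoly : ∑ i ∈ range (m + 1), E.comp (C (ω ^ i) * X)
      = -∑ i ∈ Ico (m + 1) n, E.comp (C (ω ^ i) * X) := by
    rw [eq_neg_iff_add_eq_zero, Finset.sum_range_add_sum_Ico _ (by omega), hall]
  have hdvd : (X - 1 : ℂ[X]) ^ 2 ∣ ∑ i ∈ range (m + 1), E.comp (C (ω ^ i) * X) := by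
    rw [hpoly, dvd_neg]
    apply Finset.dvd_sum
    intro i hi
    rw [Finset.mem_Ico] at hi
    exact hv i (by omega) hi.2
  obtain ⟨R, hR⟩ := hdvd
  rw [hR]
  simp [derivative_pow]

/-- the block principle -/
theorem block_dvd {n : ℕ} (hn : 0 < n) {ζ ω : ℂ} (hζ : IsPrimitiveRoot ζ n)
    (hω : IsPrimitiveRoot ω n) (E : ℂ[X]) (P : ℤ[X][X]) (m t0 : ℕ)
    (hP : P.map (aeval ζ : ℤ[X] →ₐ[ℤ] ℂ).toRingHom = ∑ i ∈ range (m + 1), E.comp (C (ω ^ i) * X))
    (hm : m < n) (ht0 : n ∣ t0) (hc : ∀ t, n ∣ t → t ≠ t0 → E.coeff t = 0)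
    (hv : ∀ i, m < i → i < n → (X - 1) ^ 2 ∣ E.comp (C (ω ^ i) * X))
    (h1 : cyclotomic n ℤ ^ 2 ∣ P.eval 1) (y : ℤ[X]) (hy : cyclotomic n ℤ ∣ y - 1) :
    cyclotomic n ℤ ^ 2 ∣ P.eval y := by
  apply dvd_sq_of_expand P y hy h1
  rw [cyc_dvd_iff_root hn hζ]
  have hev : ∀ Q : ℤ[X][X], aeval ζ (Q.eval 1) = (Q.map (aeval ζ : ℤ[X] →ₐ[ℤ] ℂ).toRingHom).eval 1 := by
    intro Q
    rw [eval_map]
    have := (Polynomial.hom_eval₂ Q (RingHom.id ℤ[X]) (aeval ζ : ℤ[X] →ₐ[ℤ] ℂ).toRingHom 1)
    rw [RingHom.comp_id, map_one] at this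
    exact this
  rw [hev, ← derivative_map, hP]
  apply deriv_zero hω E m t0 hm ht0 hc hv
  have h2 : cyclotomic n ℤ ∣ P.eval 1 := (dvd_pow_self _ two_ne_zero).trans h1
  rw [cyc_dvd_iff_root hn hζ, hev, hP, eval_finsetSum] at h2
  simpa using h2

/-- shifting a product of roots of unity -/
theorem prod_shift {M : Type*} [CommMonoid M] (f : ℂ → M) (w : ℂ) (a : ℕ → ℂ) (m i : ℕ)
    (hi : i ≤ m) (ha : ∀ s, a s = w ^ (m + s + 1)) :
    (∏ l ∈ range i, f (a l)) * ∏ l ∈ Ico i m, f (w ^ (l + 1))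
      = ∏ l ∈ range m, f (w ^ (l + 1 + i)) := by
  rw [← Finset.prod_range_mul_prod_Ico (fun l => f (w ^ (l + 1 + i))) (show m - i ≤ m by omega),
    mul_comm]
  congr 1
  · rw [Finset.prod_Ico_eq_prod_range]
    apply Finset.prod_congr rfl
    intro l _
    rw [show i + l + 1 = l + 1 + i by ring]
  · rw [Finset.prod_Ico_eq_prod_range, show m - (m - i) = i by omega]
    apply Finset.prod_congr rfl
    intro l _
    rw [ha, show m - i + l + 1 + i = m + l + 1 by omega]

/-- counting odd minus even multiples -/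
theorem delta_sum {n m : ℕ} (hn : n = 2 * m + 1) (k : ℕ) :
    ∑ l ∈ range k, (δ n (1 + 2 * l) - δ n (2 + 2 * l)) = if m < k % n then 1 else 0 := by
  induction k with
  | zero => simp
  | succ k ih =>
    rw [Finset.sum_range_succ, ih]
    have hn0 : 0 < n := by omega
    have hr := Nat.mod_lt k hn0
    have hk := Nat.div_add_mod k n
    have h1 : n ∣ 1 + 2 * k ↔ k % n = m := by
      constructor
      · rintro ⟨c, hc⟩
        generalize k % n = r at *
        generalize k / n = x at *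
        -- 1 + 2 r = n (c - 2 x)
        have e : 1 + 2 * r + n * (2 * x) = n * c := by rw [← hc, ← hk]; ring
        have h2 : 2 * x < c + 1 := by
          by_contra hcon
          push Not at hcon
          have := Nat.mul_le_mul_left n hcon
          have e2 : n * (c + 1) = n * c + n := by ring
          omega
        have h3 : c < 2 * x + 2 := by
          by_contra hcon
          push Not at hcon
          have := Nat.mul_le_mul_left n hcon
          have e2 : n * (2 * x + 2) = n * (2 * x) + 2 * n := by ring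
          omega
        have h4 : c = 2 * x ∨ c = 2 * x + 1 := by omega
        rcases h4 with h4 | h4
        · subst h4; omega
        · subst h4
          have e2 : n * (2 * x + 1) = n * (2 * x) + n := by ring
          omega
      · intro h
        refine ⟨2 * (k / n) + 1, ?_⟩
        have : n * (2 * (k / n) + 1) = 2 * (n * (k / n)) + n := by ring
        omega
    have h2 : n ∣ 2 + 2 * k ↔ k % n + 1 = n := by
      constructor
      · rintro ⟨c, hc⟩
        have hco : Nat.Coprime n 2 := by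
          exact Nat.coprime_two_right.2 ⟨m, hn⟩
        have hd : n ∣ 2 * (k + 1) := ⟨c, by rw [← hc]; ring⟩
        obtain ⟨e, he⟩ := hco.dvd_of_dvd_mul_left hd
        generalize k % n = r at *
        generalize k / n = x at *
        have e1 : r + 1 + n * x = n * e := by rw [← he, ← hk]; ring
        have h2 : x < e := by
          by_contra hcon
          push Not at hcon
          have := Nat.mul_le_mul_left n hcon
          omega
        have h3 : e < x + 2 := by
          by_contra hcon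
          push Not at hcon
          have := Nat.mul_le_mul_left n hcon
          have e2 : n * (x + 2) = n * x + 2 * n := by ring
          omega
        have h4 : e = x + 1 := by omega
        subst h4
        have e2 : n * (x + 1) = n * x + n := by ring
        omega
      · intro h
        refine ⟨2 * (k / n) + 2, ?_⟩
        have : n * (2 * (k / n) + 2) = 2 * (n * (k / n)) + 2 * n := by ring
        omega
    have h3 : (k + 1) % n = if k % n + 1 = n then 0 else k % n + 1 := by
      have : (k + 1) % n = (k % n + 1) % n := (Nat.mod_add_mod k n 1).symm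
      rw [this]
      split_ifs with h
      · rw [h, Nat.mod_self]
      · exact Nat.mod_eq_of_lt (by omega)
    unfold δ
    rw [h3]
    simp only [h1, h2]
    split_ifs <;> omega

theorem V_A {n m : ℕ} (hn : n = 2 * m + 1) (k : ℕ) :
    V (cyclotomic n ℤ) (poch (q ^ 1) (q ^ 2) k / poch (q ^ 2) (q ^ 2) k)
      (if m < k % n then 1 else 0) := by
  have hn0 : 0 < n := by omega
  have h := (V_poch hn0 1 2 (by norm_num) k).div (cyc_prime hn0) (V_poch hn0 2 2 (by norm_num) k)
  rw [← Finset.sum_sub_distrib, delta_sum hn] at h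
  exact h

theorem V_B {n m : ℕ} (hn : n = 2 * m + 1) (k : ℕ) :
    V (cyclotomic n ℤ) (poch (q ^ 2) (q ^ 4) k / poch (q ^ 4) (q ^ 4) k)
      (if m < k % n then 1 else 0) := by
  have hn0 : 0 < n := by omega
  have h := (V_poch hn0 2 4 (by norm_num) k).div (cyc_prime hn0) (V_poch hn0 4 4 (by norm_num) k)
  rw [← Finset.sum_sub_distrib] at h
  have hco : Nat.Coprime n 2 := by exact Nat.coprime_two_right.2 ⟨m, hn⟩
  have h2 : ∀ a, δ n (2 * a) = δ n a := by
    intro a
    unfold δ
    have : n ∣ 2 * a ↔ n ∣ a := ⟨fun h => hco.dvd_of_dvd_mul_left h, fun h => h.mul_left 2⟩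
    simp only [this]
  have h3 : ∑ l ∈ range k, (δ n (2 + 4 * l) - δ n (4 + 4 * l))
      = ∑ l ∈ range k, (δ n (1 + 2 * l) - δ n (2 + 2 * l)) := by
    apply Finset.sum_congr rfl
    intro l _
    rw [show 2 + 4 * l = 2 * (1 + 2 * l) by ring, show 4 + 4 * l = 2 * (2 + 2 * l) by ring, h2, h2]
  rw [h3, delta_sum hn] at h
  exact h

end Q266.QVal
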