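import Mathlib
import Pool.Agent.Q266.QBlock

/-!
From valuations to reduced fractions.
-/

namespace Q266.QVal

open Polynomial Finset

theorem reduced_of_I {p : ℤ[X]} (hp : Prime p) {x : K} {e : ℕ} (h : I p x e) :
    ∃ A B : ℤ[X], B ≠ 0 ∧ IsRelPrime A B ∧ x = ι A / ι B ∧ IsRelPrime B (p ^ e) ∧ p ^ e ∣ A := by
  obtain ⟨A, B, hAB, hx⟩ := IsFractionRing.exists_reduced_fraction ℤ[X] (K := K) x
  have hB : (B : ℤ[X]) ≠ 0 := nonZeroDivisors.ne_zero B.2
  have hx2 : x = ι A / ι (B : ℤ[X]) := by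
    rw [← hx, IsFractionRing.mk'_eq_div]
  obtain ⟨u, w, hw, hI⟩ := h
  have h1 : A * w = p ^ e * u * B := by
    apply ι_inj
    have hB' : ι (B : ℤ[X]) ≠ 0 := ι_ne hB
    rw [hx2, zpow_natCast, div_mul_eq_mul_div, div_eq_iff hB'] at hI
    simp only [map_mul, map_pow]
    exact hI
  have h3 : p ^ e ∣ A := by
    apply hp.pow_dvd_of_dvd_mul_right e hw
    exact ⟨u * B, by rw [h1]; ring⟩
  refine ⟨A, B, hB, hAB, hx2, ?_, h3⟩
  intro d hd1 hd2
  rcases Nat.eq_zero_or_pos e with rfl | he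
  · rw [pow_zero] at hd2
    exact isUnit_of_dvd_one hd2
  · -- if `p` divides `B` then it does not divide `A`
    obtain ⟨i, _, hi⟩ := (dvd_prime_pow hp e).1 hd2
    rcases Nat.eq_zero_or_pos i with rfl | hi0
    · rw [pow_zero] at hi
      exact hi.symm.isUnit isUnit_one
    · exfalso
      have hpB : p ∣ (B : ℤ[X]) := (dvd_pow_self p hi0.ne').trans (hi.symm.dvd.trans hd1)
      have hpA : p ∣ A := (dvd_pow_self p he.ne').trans h3
      exact hp.not_isUnit (hAB hpA hpB)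

end Q266.QVal
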