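import Mathlib
import Pool.Agent.Q266.QPoch

/-!
A terminating `q`-WZ pair for the `q`-analogue of the `(8k+1)` sum.
-/

namespace Q266.QEight

open Polynomial Finset Q266.QVal

noncomputable def F (n k : ℕ) : K :=
  if k ≤ n then (1 - q ^ (8 * (n - k) + 6 * k + 1)) / (1 - q) * q ^ (2 * (n - k) ^ 2) *
    poch (q ^ 1) (q ^ 2) (n - k) ^ 2 * poch (q ^ 1) (q ^ 2) (2 * n + k) /
    (poch (q ^ 2) (q ^ 2) (2 * (n - k)) * poch (q ^ 6) (q ^ 6) n ^ 2 * poch (q ^ 3) (q ^ 6) k)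
  else 0

noncomputable def G (n k : ℕ) : K :=
  if k + 1 ≤ n then -((1 - q ^ (6 * n)) ^ 2 / (1 - q) * q ^ (2 * (n - (k + 1)) ^ 2) *
    poch (q ^ 1) (q ^ 2) (n - (k + 1)) ^ 2 * poch (q ^ 1) (q ^ 2) (2 * n + k) /
    (poch (q ^ 2) (q ^ 2) (2 * (n - (k + 1))) * poch (q ^ 6) (q ^ 6) n ^ 2 *
      poch (q ^ 3) (q ^ 6) (k + 1)))
  else 0

/-- the identity behind the pair, over any field -/
theorem ident {𝔽 : Type*} [Field 𝔽] (x M L O Q E S T W D0 D1 D2 D3 D4 : 𝔽)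
    (hE : E ≠ 0) (hS : S ≠ 0) (hT : T ≠ 0) (h0 : D0 ≠ 0) (h1 : D1 ≠ 0) (h2 : D2 ≠ 0)
    (h3 : D3 ≠ 0) (h4 : D4 ≠ 0)
    (e1 : D1 = 1 - x ^ 3 * L ^ 6) (e2 : D2 = 1 - x ^ 2 * M ^ 4) (e3 : D3 = 1 - x ^ 4 * M ^ 4) :
    (1 - M ^ 8 * L ^ 6 * x ^ 7) / D0 * W * O ^ 2 * (Q * (1 - x ^ 5 * M ^ 4 * L ^ 6)) /
        (E * S ^ 2 * (T * D1))
      - (1 - M ^ 8 * L ^ 6 * x ^ 9) / D0 * (W * (M ^ 4 * x ^ 2)) *
        (O * (1 - x * M ^ 2)) ^ 2 * Q / (E * D2 * D3 * S ^ 2 * T)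
    = -(D4 ^ 2 / D0 * (W * (M ^ 4 * x ^ 2)) * (O * (1 - x * M ^ 2)) ^ 2 *
        (Q * (1 - x ^ 5 * M ^ 4 * L ^ 6) * (1 - x ^ 7 * M ^ 4 * L ^ 6)) /
        (E * D2 * D3 * (S * D4) ^ 2 * (T * D1)))
      - -((1 - (x * L * M) ^ 6) ^ 2 / D0 * W * O ^ 2 * Q / (E * S ^ 2 * (T * D1))) := by
  field_simp
  subst e1 e2 e3
  ring

theorem qpow_arg (a b m : ℕ) : (q : K) ^ a * (q ^ b) ^ m = q ^ (a + b * m) := by
  rw [pow_add, pow_mul]

theorem pair (n k : ℕ) : F n (k + 1) - F n k = G (n + 1) k - G n k := by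
  rcases Nat.lt_or_ge n k with h | h
  · have h1 : ¬ (k + 1 ≤ n) := by omega
    have h2 : ¬ (k ≤ n) := by omega
    have h4 : ¬ (k + 1 ≤ n + 1) := by omega
    simp only [F, G, h1, h2, h4, if_false, sub_zero]
  have hq0 : (1 : K) - q ≠ 0 := by simpa using one_sub_ne (j := 1) one_pos
  rcases Nat.eq_or_lt_of_le h with h | h
  · subst h
    have h1 : ¬ (k + 1 ≤ k) := by omega
    simp only [F, G, h1, le_refl, if_true, if_false, Nat.sub_self]
    have s1 : 2 * (k + 1) + k = 2 * k + k + 1 + 1 := by ring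
    rw [s1, poch_succ (q ^ 1) (q ^ 2) (2 * k + k + 1), poch_succ (q ^ 1) (q ^ 2) (2 * k + k),
      poch_succ (q ^ 6), poch_succ (q ^ 3), qpow_arg, qpow_arg, qpow_arg, qpow_arg]
    have g1 := poch_q_ne 6 6 (by norm_num) k
    have g2 := poch_q_ne 3 6 (by norm_num) k
    have g3 := poch_q_ne 1 2 (by norm_num) (2 * k + k)
    have g4 : (1 : K) - q ^ (3 + 6 * k) ≠ 0 := one_sub_ne (by omega)
    have g5 : (1 : K) - q ^ (6 + 6 * k) ≠ 0 := one_sub_ne (by omega)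
    have e1 : 6 * (k + 1) = 6 + 6 * k := by ring
    have e2 : 1 + 2 * (2 * k + k) = 8 * 0 + 6 * k + 1 := by ring
    have e3 : 1 + 2 * (2 * k + k + 1) = 3 + 6 * k := by ring
    rw [e1, e2, e3]
    simp only [mul_zero, poch_zero, ne_eq, OfNat.ofNat_ne_zero, not_false_eq_true, zero_pow,
      pow_zero, one_pow, mul_one, one_mul, zero_sub, sub_zero]
    generalize poch (q ^ 6) (q ^ 6) k = S at *
    generalize poch (q ^ 3) (q ^ 6) k = T at *
    generalize poch (q ^ 1) (q ^ 2) (2 * k + k) = Q at *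
    generalize (1 : K) - q ^ (3 + 6 * k) = D1 at *
    generalize (1 : K) - q ^ (6 + 6 * k) = D4 at *
    generalize (1 : K) - q ^ (0 + 6 * k + 1) = D5 at *
    generalize (1 : K) - q = D0 at *
    field_simp
  · obtain ⟨m, rfl⟩ : ∃ m, n = k + 1 + m := ⟨n - k - 1, by omega⟩
    have h1 : k + 1 ≤ k + 1 + m := by omega
    have h2 : k ≤ k + 1 + m := by omega
    have h4 : k + 1 ≤ k + 1 + m + 1 := by omega
    have s1 : k + 1 + m - (k + 1) = m := by omega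
    have s2 : k + 1 + m - k = m + 1 := by omega
    have s3 : k + 1 + m + 1 - (k + 1) = m + 1 := by omega
    simp only [F, G, h1, h2, h4, if_true, s1, s2, s3]
    have t1 : 2 * (k + 1 + m) + (k + 1) = (2 * (k + 1 + m) + k) + 1 := by ring
    have t2 : 2 * (k + 1 + m + 1) + k = (2 * (k + 1 + m) + k) + 1 + 1 := by ring
    have t3 : 2 * (m + 1) = 2 * m + 1 + 1 := by ring
    rw [t1, t2, t3, poch_succ (q ^ 1) (q ^ 2) (2 * (k + 1 + m) + k + 1),
      poch_succ (q ^ 1) (q ^ 2) (2 * (k + 1 + m) + k), poch_succ (q ^ 6), poch_succ (q ^ 3),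
      poch_succ (q ^ 1) (q ^ 2) m, poch_succ (q ^ 2) (q ^ 2) (2 * m + 1),
      poch_succ (q ^ 2) (q ^ 2) (2 * m), qpow_arg, qpow_arg, qpow_arg, qpow_arg, qpow_arg, qpow_arg,
      qpow_arg]
    have g0 := poch_q_ne 2 2 (by norm_num) (2 * m)
    have g1 := poch_q_ne 6 6 (by norm_num) (k + 1 + m)
    have g2 := poch_q_ne 3 6 (by norm_num) k
    have d1 : (1 : K) - q ^ (3 + 6 * k) ≠ 0 := one_sub_ne (by omega)
    have d2 : (1 : K) - q ^ (2 + 2 * (2 * m)) ≠ 0 := one_sub_ne (by omega)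
    have d3 : (1 : K) - q ^ (2 + 2 * (2 * m + 1)) ≠ 0 := one_sub_ne (by omega)
    have d4 : (1 : K) - q ^ (6 + 6 * (k + 1 + m)) ≠ 0 := one_sub_ne (by omega)
    have key := ident (q : K) (q ^ m) (q ^ k) (poch (q ^ 1) (q ^ 2) m)
      (poch (q ^ 1) (q ^ 2) (2 * (k + 1 + m) + k)) (poch (q ^ 2) (q ^ 2) (2 * m))
      (poch (q ^ 6) (q ^ 6) (k + 1 + m)) (poch (q ^ 3) (q ^ 6) k) (q ^ (2 * m ^ 2)) (1 - q)
      _ _ _ _ g0 g1 g2 hq0 d1 d2 d3 d4 (by ring) (by ring) (by ring)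
    have a1 : (1 : K) - q ^ (8 * m + 6 * (k + 1) + 1) = 1 - (q ^ m) ^ 8 * (q ^ k) ^ 6 * q ^ 7 := by
      ring
    have a2 : (1 : K) - q ^ (8 * (m + 1) + 6 * k + 1) = 1 - (q ^ m) ^ 8 * (q ^ k) ^ 6 * q ^ 9 := by
      ring
    have a3 : (q : K) ^ (2 * (m + 1) ^ 2) = q ^ (2 * m ^ 2) * ((q ^ m) ^ 4 * q ^ 2) := by ring
    have a4 : (1 : K) - q ^ (1 + 2 * (2 * (k + 1 + m) + k)) = 1 - q ^ 5 * (q ^ m) ^ 4 * (q ^ k) ^ 6 := by
      ring
    have a5 : (1 : K) - q ^ (1 + 2 * (2 * (k + 1 + m) + k + 1))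
        = 1 - q ^ 7 * (q ^ m) ^ 4 * (q ^ k) ^ 6 := by ring
    have a6 : (1 : K) - q ^ (1 + 2 * m) = 1 - q * (q ^ m) ^ 2 := by ring
    have a7 : (1 : K) - q ^ (6 * (k + 1 + m)) = 1 - (q * q ^ k * q ^ m) ^ 6 := by ring
    have a8 : 6 * (k + 1 + m + 1) = 6 + 6 * (k + 1 + m) := by ring
    rw [a1, a2, a3, a4, a5, a6, a7, a8]
    exact key

theorem telescope {𝔽 : Type*} [Field 𝔽] (F G : ℕ → ℕ → 𝔽)
    (hp : ∀ n k, F n (k + 1) - F n k = G (n + 1) k - G n k)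
    (hG : ∀ k, G 0 k = 0) (hF : ∀ n k, n < k → F n k = 0) (N : ℕ) :
    ∑ n ∈ range N, F n 0 = - ∑ k ∈ range N, G N k := by
  have ps : ∀ k, (∑ n ∈ range N, F n (k + 1)) - ∑ n ∈ range N, F n k = G N k := by
    intro k
    rw [← Finset.sum_sub_distrib]
    have h : ∀ n ∈ range N, F n (k + 1) - F n k = G (n + 1) k - G n k := fun n _ => hp n k
    rw [Finset.sum_congr rfl h, Finset.sum_range_sub (fun n => G n k) N, hG, sub_zero]
  have h1 : ∑ k ∈ range N, G N k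
      = ∑ k ∈ range N, ((∑ n ∈ range N, F n (k + 1)) - ∑ n ∈ range N, F n k) :=
    Finset.sum_congr rfl fun k _ => (ps k).symm
  have h2 := Finset.sum_range_sub (fun k => ∑ n ∈ range N, F n k) N
  rw [h1, h2]
  have h3 : ∑ n ∈ range N, F n N = 0 :=
    Finset.sum_eq_zero fun n hn => hF n N (Finset.mem_range.1 hn)
  rw [h3]
  ring

theorem sum_eq (N : ℕ) : ∑ n ∈ range N, F n 0 = ∑ k ∈ range N, -G N k := by
  rw [telescope F G pair (fun k => by simp [G]) (fun m k h => by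
    unfold F; rw [if_neg (by omega)]) N, Finset.sum_neg_distrib]

/-- the floor inequality -/
theorem floorQ (m k d : ℕ) (hd : 5 ≤ d) (hodd : d % 2 = 1) (hr : d ≤ 3 * ((m + k) % d)) :
    2 * ((m + k) / d) + 2 * (m / d) + (2 * m + 3 * k + 2) / d + (2 * k + 2) / d + 1
      ≤ (2 * m) / d + (4 * m + 6 * k + 4) / d + (k + 1) / d := by
  have hq0 : 0 < d := by omega
  have hr' : m % d < d := Nat.mod_lt _ hq0
  have hs : k % d < d := Nat.mod_lt _ hq0
  have en := Nat.div_add_mod m d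
  have ek := Nat.div_add_mod k d
  have hmk := Nat.div_add_mod (m + k) d
  generalize m % d = s at *
  generalize k % d = t at *
  generalize m / d = x at *
  generalize k / d = y at *
  subst en
  subst ek
  have t1 : (d * x + s + (d * y + t)) / d = x + y + (s + t) / d := by
    rw [show d * x + s + (d * y + t) = d * (x + y) + (s + t) by ring, Nat.mul_add_div hq0]
  have t2 : (2 * (d * x + s) + 3 * (d * y + t) + 2) / d
      = 2 * x + 3 * y + (2 * s + 3 * t + 2) / d := by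
    rw [show 2 * (d * x + s) + 3 * (d * y + t) + 2 = d * (2 * x + 3 * y) + (2 * s + 3 * t + 2) by
      ring, Nat.mul_add_div hq0]
  have t3 : (2 * (d * y + t) + 2) / d = 2 * y + (2 * t + 2) / d := by
    rw [show 2 * (d * y + t) + 2 = d * (2 * y) + (2 * t + 2) by ring, Nat.mul_add_div hq0]
  have t4 : (2 * (d * x + s)) / d = 2 * x + (2 * s) / d := by
    rw [show 2 * (d * x + s) = d * (2 * x) + (2 * s) by ring, Nat.mul_add_div hq0]
  have t5 : (4 * (d * x + s) + 6 * (d * y + t) + 4) / d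
      = 4 * x + 6 * y + (4 * s + 6 * t + 4) / d := by
    rw [show 4 * (d * x + s) + 6 * (d * y + t) + 4 = d * (4 * x + 6 * y) + (4 * s + 6 * t + 4) by
      ring, Nat.mul_add_div hq0]
  have t6 : (d * y + t + 1) / d = y + (t + 1) / d := by
    rw [show d * y + t + 1 = d * y + (t + 1) by ring, Nat.mul_add_div hq0]
  have hmod : d * ((s + t) / d) + (d * x + s + (d * y + t)) % d = s + t := by
    rw [t1] at hmk
    have : d * (x + y + (s + t) / d) = d * x + d * y + d * ((s + t) / d) := by ring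
    rw [this] at hmk
    omega
  rw [t1, t2, t3, t4, t5, t6]
  clear t1 t2 t3 t4 t5 t6 hmk
  generalize (d * x + s + (d * y + t)) % d = r at *
  have d1 : (s + t) / d < 2 := Nat.div_lt_of_lt_mul (by omega)
  have d2 : (2 * s + 3 * t + 2) / d < 5 := Nat.div_lt_of_lt_mul (by omega)
  have d3 : (2 * t + 2) / d < 3 := Nat.div_lt_of_lt_mul (by omega)
  have d4 : (2 * s) / d < 2 := Nat.div_lt_of_lt_mul (by omega)
  have d5 : (4 * s + 6 * t + 4) / d < 10 := Nat.div_lt_of_lt_mul (by omega)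
  have d6 : (t + 1) / d < 2 := Nat.div_lt_of_lt_mul (by omega)
  have u2 := Nat.div_mul_le_self (2 * s + 3 * t + 2) d
  have u3 := Nat.div_mul_le_self (2 * t + 2) d
  have u4 := Nat.lt_div_mul_add (a := 2 * s) hq0
  have u5 := Nat.lt_div_mul_add (a := 4 * s + 6 * t + 4) hq0
  have u6 := Nat.lt_div_mul_add (a := t + 1) hq0
  generalize (s + t) / d = e1 at *
  generalize (2 * s + 3 * t + 2) / d = e2 at *
  generalize (2 * t + 2) / d = e3 at *
  generalize (2 * s) / d = e4 at *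
  generalize (4 * s + 6 * t + 4) / d = e5 at *
  generalize (t + 1) / d = e6 at *
  suffices h : 2 * e1 + e2 + e3 + 1 ≤ e4 + e5 + e6 by omega
  clear x y
  by_contra hcon
  push Not at hcon
  interval_cases e4 <;> interval_cases e6 <;> interval_cases e1 <;> interval_cases e5 <;> first
    | omega
    | (interval_cases e2 <;> first
      | omega
      | (interval_cases e3 <;> omega))

end Q266.QEight
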