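import Mathlib
import Pool.Agent.Q266.QBlock
import Pool.Agent.Q266.QEight

/-!
A terminating case of the `q`-Watson sum (vanishing for odd `N`) by creative telescoping.
-/

namespace Q266.QWatson

open Polynomial Finset Q266.QVal
open Q266.QEight (qpow_arg)

noncomputable def Bf (k : ℕ) : K := poch (q ^ 2) (q ^ 4) k / poch (q ^ 4) (q ^ 4) k

noncomputable def T (N k : ℕ) : K :=
  if k ≤ N then (-1) ^ k * q ^ ((N - k) * (N - k - 1)) * poch (q ^ 2) (q ^ 2) (N + k) * Bf k /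
    (poch (q ^ 2) (q ^ 2) (N - k) * poch (q ^ 2) (q ^ 2) k ^ 2) else 0

noncomputable def G (N k : ℕ) : K :=
  if k ≤ N + 2 then -((-1) ^ k * q ^ ((N + 2 - k) * (N + 3 - k)) * (1 - q ^ (4 * N + 6)) *
    (1 - q ^ (2 * k)) ^ 2 * (1 - q ^ (4 * k)) * poch (q ^ 2) (q ^ 2) (N + k) * Bf k /
    (poch (q ^ 2) (q ^ 2) (N + 2 - k) * poch (q ^ 2) (q ^ 2) k ^ 2)) else 0

theorem Bf_succ (k : ℕ) : Bf (k + 1) = Bf k * (1 - q ^ (4 * k + 2)) / (1 - q ^ (4 * k + 4)) := by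
  unfold Bf
  rw [poch_succ, poch_succ, qpow_arg, qpow_arg, add_comm 2 (4 * k), add_comm 4 (4 * k)]
  have h1 := poch_q_ne 4 4 (by norm_num) k
  have h2 : (1 : K) - q ^ (4 * k + 4) ≠ 0 := one_sub_ne (by omega)
  field_simp

theorem ident {𝔽 : Type*} [Field 𝔽] (x J Y s W O Bk E T D1 D2 D3 D4 : 𝔽)
    (hE : E ≠ 0) (hT : T ≠ 0) (h1 : D1 ≠ 0) (h2 : D2 ≠ 0) (h3 : D3 ≠ 0) (h4 : D4 ≠ 0)
    (e1 : D1 = 1 - J * x) (e2 : D2 = 1 - J * x ^ 2) (e3 : D3 = 1 - Y * x)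
    (e4 : D4 = 1 - Y ^ 2 * x ^ 2) :
    (1 - J * Y * x ^ 2) ^ 2 * (s * (W * (J ^ 2 * x)) * (O * (1 - J * Y ^ 2 * x) *
        (1 - J * Y ^ 2 * x ^ 2)) * Bk / (E * D1 * D2 * T ^ 2))
      - (J * Y) ^ 2 * x ^ 2 * (1 - J * Y * x) ^ 2 * (s * W * O * Bk / (E * T ^ 2))
    = -(-s * (W * J ^ 2 * x) * (1 - (J * Y) ^ 2 * x ^ 3) * D3 ^ 2 * D4 *
        (O * (1 - J * Y ^ 2 * x)) * (Bk * (1 - Y ^ 2 * x) / D4) /
        (E * D1 * (T * D3) ^ 2))
      - -(s * (W * J ^ 3 * x ^ 3) * (1 - (J * Y) ^ 2 * x ^ 3) * (1 - Y) ^ 2 * (1 - Y ^ 2) * O * Bk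
        / (E * D1 * D2 * T ^ 2)) := by
  field_simp
  subst e1 e2 e3 e4
  ring

theorem ident2 {𝔽 : Type*} [Field 𝔽] (x Y s O Bk T D1 D3 D4 : 𝔽)
    (hT : T ≠ 0) (h1 : D1 ≠ 0) (h3 : D3 ≠ 0) (h4 : D4 ≠ 0)
    (e1 : D1 = 1 - x) (e3 : D3 = 1 - Y * x) (e4 : D4 = 1 - Y ^ 2 * x ^ 2) :
    (1 - Y * x) ^ 2 * (s * (O * (1 - Y ^ 2) * (1 - Y ^ 2 * x)) * Bk / (D1 * T ^ 2))
    = -(-s * (1 - Y ^ 2 * x) * D3 ^ 2 * D4 *
        (O * (1 - Y ^ 2)) * (Bk * (1 - Y ^ 2 * x) / D4) / (T * D3) ^ 2)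
      - -(s * x * (1 - Y ^ 2 * x) * (1 - Y) ^ 2 * (1 - Y ^ 2) * O * Bk / (D1 * T ^ 2)) := by
  field_simp
  subst e1 e3 e4
  ring

theorem pair (N k : ℕ) (hk : k ≤ N + 2) :
    (1 - q ^ (2 * N + 4)) ^ 2 * T (N + 2) k - q ^ (4 * N + 4) * (1 - q ^ (2 * N + 2)) ^ 2 * T N k
      = G N (k + 1) - G N k := by
  have d3 : (1 : K) - q ^ (2 * k + 2) ≠ 0 := one_sub_ne (by omega)
  have d4 : (1 : K) - q ^ (4 * k + 4) ≠ 0 := one_sub_ne (by omega)
  have gT := poch_q_ne 2 2 (by norm_num) k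
  rcases Nat.lt_or_ge N k with h | h
  · have h' : k = N + 1 ∨ k = N + 2 := by omega
    rcases h' with rfl | rfl
    · have h1 : N + 1 ≤ N + 2 := by omega
      have h2 : ¬ (N + 1 ≤ N) := by omega
      have h3 : N + 1 + 1 ≤ N + 2 := by omega
      simp only [T, G, h1, h2, h3, if_true, if_false, mul_zero, sub_zero]
      have s1 : N + 2 - (N + 1) = 1 := by omega
      have s2 : N + 2 - (N + 1 + 1) = 0 := by omega
      have s3 : N + 3 - (N + 1 + 1) = 1 := by omega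
      have s4 : N + 3 - (N + 1) = 2 := by omega
      have s5 : N + 2 + (N + 1) = N + (N + 1) + 1 + 1 := by ring
      have s6 : N + (N + 1 + 1) = N + (N + 1) + 1 := by ring
      rw [s1, s2, s3, s4, s5, s6, Bf_succ (N + 1), poch_succ (q ^ 2) (q ^ 2) (N + (N + 1) + 1),
        poch_succ (q ^ 2) (q ^ 2) (N + (N + 1)), poch_succ (q ^ 2) (q ^ 2) (N + 1), poch_zero,
        qpow_arg, qpow_arg, qpow_arg]
      have p1 : poch (q ^ 2) (q ^ 2) 1 = 1 - q ^ 2 := by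
        rw [poch_succ, poch_zero]; ring
      have d1 : (1 : K) - q ^ 2 ≠ 0 := one_sub_ne (by omega)
      have key := ident2 ((q : K) ^ 2) (q ^ (2 * (N + 1))) ((-1) ^ (N + 1))
        (poch (q ^ 2) (q ^ 2) (N + (N + 1))) (Bf (N + 1)) (poch (q ^ 2) (q ^ 2) (N + 1)) _ _ _ gT
        d1 d3 d4 rfl (by ring) (by ring)
      rw [p1]
      have a1 : (1 : K) - q ^ (2 * N + 4) = 1 - q ^ (2 * (N + 1)) * q ^ 2 := by ring
      have a2 : (1 : K) - q ^ (2 + 2 * (N + (N + 1))) = 1 - (q ^ (2 * (N + 1))) ^ 2 := by ring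
      have a3 : (1 : K) - q ^ (2 + 2 * (N + (N + 1) + 1)) = 1 - (q ^ (2 * (N + 1))) ^ 2 * q ^ 2 := by
        ring
      have a4 : (1 : K) - q ^ (4 * N + 6) = 1 - (q ^ (2 * (N + 1))) ^ 2 * q ^ 2 := by ring
      have a5 : (1 : K) - q ^ (4 * (N + 1) + 2) = 1 - (q ^ (2 * (N + 1))) ^ 2 * q ^ 2 := by ring
      have a6 : 2 * (N + 1 + 1) = 2 * (N + 1) + 2 := by ring
      have a7 : 4 * (N + 1 + 1) = 4 * (N + 1) + 4 := by ring
      have a8 : (1 : K) - q ^ (4 * (N + 1)) = 1 - (q ^ (2 * (N + 1))) ^ 2 := by ring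
      have a9 : 2 + 2 * (N + 1) = 2 * (N + 1) + 2 := by ring
      rw [a1, a2, a3, a4, a5, a6, a7, a8, a9, pow_succ (-1 : K) (N + 1)]
      simp only [Nat.sub_self, mul_zero, zero_mul, pow_zero, mul_one, one_mul]
      rw [mul_neg_one]
      linear_combination key
    · have h1 : N + 2 ≤ N + 2 := by omega
      have h2 : ¬ (N + 2 ≤ N) := by omega
      have h3 : ¬ (N + 2 + 1 ≤ N + 2) := by omega
      simp only [T, G, h1, h2, h3, if_true, if_false, mul_zero, sub_zero]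
      have s5 : N + 2 + (N + 2) = N + (N + 2) + 1 + 1 := by ring
      rw [s5, Nat.sub_self, poch_succ (q ^ 2) (q ^ 2) (N + (N + 2) + 1),
        poch_succ (q ^ 2) (q ^ 2) (N + (N + 2)), poch_zero, qpow_arg, qpow_arg]
      have a1 : (1 : K) - q ^ (2 + 2 * (N + (N + 2))) = 1 - q ^ (4 * N + 6) := by ring
      have a2 : (1 : K) - q ^ (2 + 2 * (N + (N + 2) + 1)) = 1 - q ^ (4 * (N + 2)) := by ring
      have a3 : (1 : K) - q ^ (2 * (N + 2)) = 1 - q ^ (2 * N + 4) := by ring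
      rw [a1, a2, a3]
      simp only [zero_mul, pow_zero, mul_one, one_mul, zero_sub]
      ring
  · obtain ⟨j, rfl⟩ : ∃ j, N = k + j := ⟨N - k, by omega⟩
    have h1 : k ≤ k + j + 2 := by omega
    have h2 : k ≤ k + j := by omega
    have h3 : k + 1 ≤ k + j + 2 := by omega
    simp only [T, G, h1, h2, h3, if_true]
    have s1 : k + j + 2 - k = j + 1 + 1 := by omega
    have s2 : k + j - k = j := by omega
    have s3 : k + j + 2 - (k + 1) = j + 1 := by omega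
    have s4 : k + j + 3 - (k + 1) = j + 2 := by omega
    have s5 : k + j + 3 - k = j + 3 := by omega
    have s6 : k + j + 2 + k = (k + j + k) + 1 + 1 := by ring
    have s7 : k + j + (k + 1) = (k + j + k) + 1 := by ring
    have s8 : j + 1 + 1 - 1 = j + 1 := by omega
    rw [s1, s2, s3, s4, s5, s6, s7, s8, Bf_succ k, poch_succ (q ^ 2) (q ^ 2) (k + j + k + 1),
      poch_succ (q ^ 2) (q ^ 2) (k + j + k), poch_succ (q ^ 2) (q ^ 2) (j + 1),
      poch_succ (q ^ 2) (q ^ 2) j, poch_succ (q ^ 2) (q ^ 2) k, qpow_arg, qpow_arg, qpow_arg,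
      qpow_arg, qpow_arg]
    have gE := poch_q_ne 2 2 (by norm_num) j
    have d1 : (1 : K) - q ^ (2 + 2 * j) ≠ 0 := one_sub_ne (by omega)
    have d2 : (1 : K) - q ^ (2 + 2 * (j + 1)) ≠ 0 := one_sub_ne (by omega)
    have key := ident ((q : K) ^ 2) (q ^ (2 * j)) (q ^ (2 * k)) ((-1) ^ k) (q ^ (j * (j - 1)))
      (poch (q ^ 2) (q ^ 2) (k + j + k)) (Bf k) (poch (q ^ 2) (q ^ 2) j)
      (poch (q ^ 2) (q ^ 2) k) _ _ _ _ gE gT d1 d2 d3 d4 (by ring) (by ring) (by ring) (by ring)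
    have w1 : (q : K) ^ ((j + 1 + 1) * (j + 1)) = q ^ (j * (j - 1)) * ((q ^ (2 * j)) ^ 2 * q ^ 2) := by
      rw [← pow_mul, ← pow_add, ← pow_add]
      congr 1
      rcases j with _ | j
      · simp
      · rw [Nat.add_sub_cancel]; ring
    have w2 : (q : K) ^ ((j + 1) * (j + 2)) = q ^ (j * (j - 1)) * (q ^ (2 * j)) ^ 2 * q ^ 2 := by
      rw [show (j + 1) * (j + 2) = (j + 1 + 1) * (j + 1) by ring, w1]; ring
    have w3 : (q : K) ^ ((j + 1 + 1) * (j + 3))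
        = q ^ (j * (j - 1)) * (q ^ (2 * j)) ^ 3 * (q ^ 2) ^ 3 := by
      rw [show (j + 1 + 1) * (j + 3) = (j + 1 + 1) * (j + 1) + 2 * j + 4 by ring, pow_add, pow_add,
        w1]
      ring
    have a1 : (1 : K) - q ^ (2 * (k + j) + 4) = 1 - q ^ (2 * j) * q ^ (2 * k) * (q ^ 2) ^ 2 := by
      ring
    have a2 : (1 : K) - q ^ (2 + 2 * (k + j + k)) = 1 - q ^ (2 * j) * (q ^ (2 * k)) ^ 2 * q ^ 2 := by
      ring
    have a3 : (1 : K) - q ^ (2 + 2 * (k + j + k + 1))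
        = 1 - q ^ (2 * j) * (q ^ (2 * k)) ^ 2 * (q ^ 2) ^ 2 := by ring
    have a4 : (q : K) ^ (4 * (k + j) + 4) = (q ^ (2 * j) * q ^ (2 * k)) ^ 2 * (q ^ 2) ^ 2 := by ring
    have a5 : (1 : K) - q ^ (2 * (k + j) + 2) = 1 - q ^ (2 * j) * q ^ (2 * k) * q ^ 2 := by ring
    have a6 : (1 : K) - q ^ (4 * (k + j) + 6)
        = 1 - (q ^ (2 * j) * q ^ (2 * k)) ^ 2 * (q ^ 2) ^ 3 := by ring
    have a7 : (1 : K) - q ^ (4 * k + 2) = 1 - (q ^ (2 * k)) ^ 2 * q ^ 2 := by ring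
    have a8 : (1 : K) - q ^ (4 * k) = 1 - (q ^ (2 * k)) ^ 2 := by ring
    have a9 : 2 * (k + 1) = 2 * k + 2 := by ring
    have a10 : 4 * (k + 1) = 4 * k + 4 := by ring
    have a11 : 2 + 2 * k = 2 * k + 2 := by ring
    rw [w1, w2, w3, a1, a2, a3, a4, a5, a6, a7, a8, a9, a10, a11, pow_succ (-1 : K) k,
      mul_neg_one]
    linear_combination key

noncomputable def S (N : ℕ) : K := ∑ k ∈ range (N + 1), T N k

theorem rec (N : ℕ) : (1 - q ^ (2 * N + 4)) ^ 2 * S (N + 2)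
    = q ^ (4 * N + 4) * (1 - q ^ (2 * N + 2)) ^ 2 * S N := by
  have h : ∑ k ∈ range (N + 3), ((1 - q ^ (2 * N + 4)) ^ 2 * T (N + 2) k
      - q ^ (4 * N + 4) * (1 - q ^ (2 * N + 2)) ^ 2 * T N k)
      = ∑ k ∈ range (N + 3), (G N (k + 1) - G N k) :=
    Finset.sum_congr rfl fun k hk => pair N k (by rw [Finset.mem_range] at hk; omega)
  rw [Finset.sum_range_sub (fun k => G N k), Finset.sum_sub_distrib, ← Finset.mul_sum,
    ← Finset.mul_sum] at h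
  have g1 : G N (N + 3) = 0 := by unfold G; rw [if_neg (by omega)]
  have g2 : G N 0 = 0 := by unfold G; simp
  have t1 : T N (N + 1) = 0 := by unfold T; rw [if_neg (by omega)]
  have t2 : T N (N + 2) = 0 := by unfold T; rw [if_neg (by omega)]
  have e1 : ∑ k ∈ range (N + 3), T N k = S N := by
    rw [Finset.sum_range_succ, Finset.sum_range_succ, t1, t2, add_zero, add_zero]; rfl
  have e2 : ∑ k ∈ range (N + 3), T (N + 2) k = S (N + 2) := rfl
  rw [g1, g2, e1, e2, sub_zero, sub_eq_zero] at h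
  exact h

theorem S_odd (r : ℕ) : S (2 * r + 1) = 0 := by
  induction r with
  | zero =>
    unfold S
    rw [mul_zero, zero_add, Finset.sum_range_succ, Finset.sum_range_succ, Finset.sum_range_zero]
    have b0 : Bf 0 = 1 := by unfold Bf; simp [poch_zero]
    have d1 : (1 : K) - q ^ 2 ≠ 0 := one_sub_ne (by omega)
    have d2 : (1 : K) - q ^ 4 ≠ 0 := one_sub_ne (by omega)
    have b1 : Bf 1 = (1 - q ^ 2) / (1 - q ^ 4) := by
      have := Bf_succ 0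
      rw [b0] at this
      simpa using this
    have p1 : poch (q ^ 2) (q ^ 2) 1 = 1 - q ^ 2 := by
      rw [poch_succ, poch_zero]; ring
    have p2 : poch (q ^ 2) (q ^ 2) 2 = (1 - q ^ 2) * (1 - q ^ 4) := by
      rw [poch_succ, p1]; ring
    simp only [T, le_refl, if_true, zero_le, Nat.sub_self, zero_add, add_zero, Nat.sub_zero,
      mul_zero, zero_mul, pow_zero, b0, b1, p1, poch_zero, one_mul, mul_one, one_pow, pow_one]
    rw [show (1 : ℕ) + 1 = 2 by norm_num, p2]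
    field_simp
    ring
  | succ r ih =>
    have h := rec (2 * r + 1)
    rw [ih, mul_zero] at h
    have d : (1 : K) - q ^ (2 * (2 * r + 1) + 4) ≠ 0 := one_sub_ne (by omega)
    rcases mul_eq_zero.1 h with h | h
    · exact absurd h (pow_ne_zero _ d)
    · exact h

end Q266.QWatson
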