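import Mathlib
import Pool.Agent.Q266.QWatson

/-!
Block sums of `(q;q^2)_k^2 (q^2;q^4)_k q^{2k} / ((q^2;q^2)_k^2 (q^4;q^4)_k)` modulo `Φ_n(q)^2`.
-/

namespace Q266.QWatson

open Polynomial Finset Q266.QVal
open Q266.QEight (qpow_arg)

noncomputable def Af (k : ℕ) : K := poch (q ^ 1) (q ^ 2) k / poch (q ^ 2) (q ^ 2) k

noncomputable def c (k : ℕ) : K := Af k ^ 2 * Bf k * q ^ (2 * k)

noncomputable def e (m k : ℕ) : K :=
  ∏ j ∈ range k, ((q ^ (2 * m + 1) - q ^ (2 * j + 1)) * (1 - q ^ (2 * j + 1) * q ^ (2 * m + 1)))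

theorem step (m k j : ℕ) (hm : m = k + 1 + j) :
    T m (k + 1) * q ^ (2 * j) * ((1 - q ^ (2 * k + 2)) ^ 2 * (1 - q ^ (4 * k + 4)))
      = -(T m k * (1 - q ^ (2 * (2 * k + j + 2))) * (1 - q ^ (2 * (j + 1))) *
          (1 - q ^ (4 * k + 2))) := by
  subst hm
  have h1 : k + 1 ≤ k + 1 + j := by omega
  have h2 : k ≤ k + 1 + j := by omega
  simp only [T, h1, h2, if_true]
  have s1 : k + 1 + j - (k + 1) = j := by omega
  have s2 : k + 1 + j - k = j + 1 := by omega
  have s3 : k + 1 + j + (k + 1) = (k + 1 + j + k) + 1 := by ring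
  rw [s1, s2, s3, Nat.add_sub_cancel, Bf_succ k, poch_succ (q ^ 2) (q ^ 2) (k + 1 + j + k),
    poch_succ (q ^ 2) (q ^ 2) j, poch_succ (q ^ 2) (q ^ 2) k, qpow_arg, qpow_arg, qpow_arg]
  have w : (q : K) ^ ((j + 1) * j) = q ^ (j * (j - 1)) * q ^ (2 * j) := by
    rw [← pow_add]
    congr 1
    rcases j with _ | j
    · simp
    · rw [Nat.add_sub_cancel]; ring
  rw [w, pow_succ (-1 : K) k]
  have a1 : 2 + 2 * (k + 1 + j + k) = 2 * (2 * k + j + 2) := by ring
  have a2 : 2 + 2 * j = 2 * (j + 1) := by ring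
  have a3 : 2 + 2 * k = 2 * k + 2 := by ring
  rw [a1, a2, a3]
  have gE := poch_q_ne 2 2 (by norm_num) j
  have gT := poch_q_ne 2 2 (by norm_num) k
  have d1 : (1 : K) - q ^ (2 * (j + 1)) ≠ 0 := one_sub_ne (by omega)
  have d3 : (1 : K) - q ^ (2 * k + 2) ≠ 0 := one_sub_ne (by omega)
  have d4 : (1 : K) - q ^ (4 * k + 4) ≠ 0 := one_sub_ne (by omega)
  generalize poch (q ^ 2) (q ^ 2) j = E at *
  generalize poch (q ^ 2) (q ^ 2) k = F at *
  generalize poch (q ^ 2) (q ^ 2) (k + 1 + j + k) = O at *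
  generalize (1 : K) - q ^ (2 * (j + 1)) = D1 at *
  generalize (1 : K) - q ^ (2 * k + 2) = D3 at *
  generalize (1 : K) - q ^ (4 * k + 4) = D4 at *
  field_simp

theorem T_eq (m k : ℕ) (hk : k ≤ m) : T m k * q ^ ((2 * m + 1) * k)
    = q ^ (m * (m - 1)) * q ^ (2 * k) * Bf k / poch (q ^ 2) (q ^ 2) k ^ 2 * e m k := by
  induction k with
  | zero =>
    have gE := poch_q_ne 2 2 (by norm_num) m
    simp only [T, zero_le, if_true, Nat.sub_zero, pow_zero, add_zero, mul_zero, poch_zero, e,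
      Finset.prod_range_zero, one_mul, mul_one, one_pow, div_one]
    field_simp
  | succ k ih =>
    obtain ⟨j, hj⟩ : ∃ j, m = k + 1 + j := ⟨m - (k + 1), by omega⟩
    have hs := step m k j hj
    have ih' := ih (by omega)
    have he : e m (k + 1) = e m k * ((q ^ (2 * m + 1) - q ^ (2 * k + 1)) *
        (1 - q ^ (2 * k + 1) * q ^ (2 * m + 1))) := by
      unfold e; rw [Finset.prod_range_succ]
    rw [he, Bf_succ k, poch_succ (q ^ 2) (q ^ 2) k, qpow_arg]
    have a1 : (q : K) ^ (2 * m + 1) - q ^ (2 * k + 1) = -(q ^ (2 * k + 1) * (1 - q ^ (2 * (j + 1)))) := by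
      rw [hj]; ring
    have a2 : (1 : K) - q ^ (2 * k + 1) * q ^ (2 * m + 1) = 1 - q ^ (2 * (2 * k + j + 2)) := by
      rw [hj]; ring
    have a3 : (q : K) ^ ((2 * m + 1) * (k + 1)) = q ^ ((2 * m + 1) * k) * (q ^ (2 * j) * q ^ (2 * k + 3)) := by
      rw [← pow_add, ← pow_add]
      congr 1
      rw [hj]; ring
    have a4 : (2 : ℕ) + 2 * k = 2 * k + 2 := by ring
    have a5 : (q : K) ^ (2 * (k + 1)) = q ^ (2 * k) * q ^ 2 := by ring
    rw [a1, a2, a3, a4, a5]
    have gT := poch_q_ne 2 2 (by norm_num) k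
    have d3 : (1 : K) - q ^ (2 * k + 2) ≠ 0 := one_sub_ne (by omega)
    have d4 : (1 : K) - q ^ (4 * k + 4) ≠ 0 := one_sub_ne (by omega)
    have a6 : (q : K) ^ (2 * k + 3) = q ^ (2 * k + 1) * q ^ 2 := by ring
    rw [a6]
    generalize poch (q ^ 2) (q ^ 2) k = F at *
    generalize (1 : K) - q ^ (2 * k + 2) = D3 at *
    generalize (1 : K) - q ^ (4 * k + 4) = D4 at *
    generalize (q : K) ^ (2 * j) = u at *
    generalize (q : K) ^ (2 * k + 1) = v at *
    generalize (q : K) ^ ((2 * m + 1) * k) = w at *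
    generalize (1 : K) - q ^ (2 * (2 * k + j + 2)) = z1 at *
    generalize (1 : K) - q ^ (2 * (j + 1)) = z2 at *
    generalize (1 : K) - q ^ (4 * k + 2) = z3 at *
    field_simp at ih' ⊢
    linear_combination (w * v * q ^ 2 * F ^ 2) * hs - (z1 * z2 * z3 * v * q ^ 2) * ih'

theorem V_qpow {n : ℕ} (hn : 0 < n) (a : ℕ) : V (cyclotomic n ℤ) (q ^ a) 0 := by
  have := (V_q hn hn.ne').pow (cyc_prime hn) a
  simpa using this

theorem I_e (n m k : ℕ) (hn : n = 2 * m + 1) :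
    I (cyclotomic n ℤ) (q ^ (n * k) * poch (q ^ 1) (q ^ 2) k ^ 2 - e m k) 2 := by
  have hn0 : 0 < n := by omega
  have hp := cyc_prime hn0
  have h1 : q ^ (n * k) * poch (q ^ 1) (q ^ 2) k ^ 2
      = ∏ j ∈ range k, (q ^ n * (1 - q ^ (2 * j + 1)) ^ 2) := by
    rw [Finset.prod_mul_distrib, Finset.prod_const, Finset.card_range, ← pow_mul, Finset.prod_pow,
      poch_q]
    congr 3
    funext j
    rw [add_comm 1]
  rw [h1]
  unfold e
  have hpoly : ∀ f : ℤ[X], I (cyclotomic n ℤ) (ι f) 0 := I.of_poly hp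
  apply congr_prod hp
  · intro j _
    have : (q : K) ^ n * (1 - q ^ (2 * j + 1)) ^ 2 = ι (X ^ n * (1 - X ^ (2 * j + 1)) ^ 2) := by
      simp
    rw [this]; exact hpoly _
  · intro j _
    have : ((q : K) ^ (2 * m + 1) - q ^ (2 * j + 1)) * (1 - q ^ (2 * j + 1) * q ^ (2 * m + 1))
        = ι ((X ^ (2 * m + 1) - X ^ (2 * j + 1)) * (1 - X ^ (2 * j + 1) * X ^ (2 * m + 1))) := by
      simp
    rw [this]; exact hpoly _
  · intro j _
    rw [← hn]
    have h2 : (q : K) ^ n * (1 - q ^ (2 * j + 1)) ^ 2 -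
        (q ^ n - q ^ (2 * j + 1)) * (1 - q ^ (2 * j + 1) * q ^ n)
        = q ^ (2 * j + 1) * (1 - q ^ n) ^ 2 := by ring
    rw [h2]
    have h3 := (V_one_sub hn0 hn0).pow hp 2
    have h4 : δ n n = 1 := by unfold δ; simp
    rw [h4] at h3
    have h5 := ((V_qpow hn0 (2 * j + 1)).mul hp h3).toI hp (f := 2) (by norm_num)
    exact h5

/-- the first block -/
theorem first_block (n m : ℕ) (hn : n = 2 * m + 1) (hm : m % 2 = 1) :
    I (cyclotomic n ℤ) (∑ k ∈ range (m + 1), c k) 2 := by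
  have hn0 : 0 < n := by omega
  have hp := cyc_prime hn0
  obtain ⟨r, hr⟩ : ∃ r, m = 2 * r + 1 := ⟨m / 2, by omega⟩
  have hS : S m = 0 := by rw [hr]; exact S_odd r
  have hterm : ∀ k ∈ range (m + 1), I (cyclotomic n ℤ) (q ^ (m * (m - 1)) * c k - T m k) 2 := by
    intro k hk
    rw [Finset.mem_range] at hk
    have h1 := T_eq m k (by omega)
    rw [← hn] at h1
    have hkn : k % n = k := Nat.mod_eq_of_lt (by omega)
    have hVB : V (cyclotomic n ℤ) (Bf k) 0 := by
      have h := V_B hn k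
      rw [hkn, if_neg (by omega)] at h
      exact h
    have hVp : V (cyclotomic n ℤ) (poch (q ^ 2) (q ^ 2) k) 0 := by
      have h := V_poch hn0 2 2 (by norm_num) k
      have hz : ∑ j ∈ range k, δ n (2 + 2 * j) = 0 := by
        apply Finset.sum_eq_zero
        intro j hj
        rw [Finset.mem_range] at hj
        unfold δ
        rw [if_neg]
        intro hd
        have hco : Nat.Coprime n 2 := Nat.coprime_two_right.2 ⟨m, hn⟩
        have hd2 : n ∣ 2 * (1 + j) := by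
          have : 2 * (1 + j) = 2 + 2 * j := by ring
          rw [this]; exact hd
        have := Nat.le_of_dvd (by omega) (hco.dvd_of_dvd_mul_left hd2)
        omega
      rw [hz] at h
      exact h
    have h2 : q ^ (m * (m - 1)) * c k - T m k
        = (q ^ (m * (m - 1)) * q ^ (2 * k) * Bf k / poch (q ^ 2) (q ^ 2) k ^ 2 / q ^ (n * k)) *
          (q ^ (n * k) * poch (q ^ 1) (q ^ 2) k ^ 2 - e m k) := by
      have hq : (q : K) ^ (n * k) ≠ 0 := (V_qpow hn0 _).ne_zero hp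
      have gT := poch_q_ne 2 2 (by norm_num) k
      unfold c Af
      have h3 : T m k = q ^ (m * (m - 1)) * q ^ (2 * k) * Bf k / poch (q ^ 2) (q ^ 2) k ^ 2 * e m k /
          q ^ (n * k) := by
        rw [eq_div_iff hq, h1]
      rw [h3]
      field_simp
    rw [h2]
    have h4 : V (cyclotomic n ℤ) (q ^ (m * (m - 1)) * q ^ (2 * k) * Bf k /
        poch (q ^ 2) (q ^ 2) k ^ 2 / q ^ (n * k)) 0 := by
      have := ((((V_qpow hn0 (m * (m - 1))).mul hp (V_qpow hn0 (2 * k))).mul hp hVB).div hp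
        (hVp.pow hp 2)).div hp (V_qpow hn0 (n * k))
      simpa using this
    have h5 := (h4.toI hp le_rfl).mul hp (I_e n m k hn)
    simpa using h5
  have hsum := I.sum hp (range (m + 1)) _ 2 hterm
  rw [Finset.sum_sub_distrib, ← Finset.mul_sum] at hsum
  have hS' : ∑ k ∈ range (m + 1), T m k = 0 := hS
  rw [hS', sub_zero] at hsum
  have hq : (q : K) ^ (m * (m - 1)) ≠ 0 := (V_qpow hn0 _).ne_zero hp
  have h6 := (((V_qpow hn0 (m * (m - 1))).inv hp).toI hp le_rfl).mul hp hsum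
  rw [← mul_assoc, inv_mul_cancel₀ hq, one_mul] at h6
  simpa using h6

end Q266.QWatson
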