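import Mathlib
import Pool.Agent.Q266.QWatson2

/-!
A terminating case of the `q`-Dixon sum by the WZ method, and the first block of the second sum.
-/

namespace Q266.QDixon

open Polynomial Finset Q266.QVal Q266.QWatson
open Q266.QEight (qpow_arg)

theorem Bf_ne (k : ℕ) : Bf k ≠ 0 :=
  div_ne_zero (poch_q_ne 2 4 (by norm_num) k) (poch_q_ne 4 4 (by norm_num) k)

noncomputable def f (m k : ℕ) : K :=
  if k ≤ m then q ^ (m - k) * (1 + q ^ (4 * k + 1)) * Bf k * Bf (m - k) /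
    (Bf (m + k) * (1 - q ^ (4 * (m + k) + 2))) else 0

noncomputable def g (m k : ℕ) : K :=
  if k ≤ m + 1 then -(q ^ (m + 1 - k) * (1 + q ^ (4 * m + 4)) * (1 - q ^ (4 * k)) * Bf k *
    Bf (m + 1 - k) / (Bf (m + k) * (1 - q ^ (4 * (m + k) + 2)))) else 0

theorem ident {𝔽 : Type*} [Field 𝔽] (x y z Bk Bj O Dj Da Db Dc Dk : 𝔽)
    (hO : O ≠ 0) (hj : Dj ≠ 0) (ha : Da ≠ 0) (hb : Db ≠ 0) (hc : Dc ≠ 0) (hk : Dk ≠ 0)
    (ej : Dj = 1 - z ^ 4 * x ^ 4) (eb : Db = 1 - (y ^ 2 * z) ^ 4 * x ^ 4)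
    (ec : Dc = 1 - (y ^ 2 * z) ^ 4 * x ^ 6) :
    (1 - (y * z) ^ 4 * x ^ 5) * (z * x * (1 + y ^ 4 * x) * Bk * (Bj * (1 - z ^ 4 * x ^ 2) / Dj) /
        (O * Da / Db * Dc)) - (1 - (y * z) ^ 4 * x ^ 3) * (z * (1 + y ^ 4 * x) * Bk * Bj / (O * Da))
    = -(z * (1 + (y * z) ^ 4 * x ^ 4) * Dk * (Bk * (1 - y ^ 4 * x ^ 2) / Dk) * Bj /
        (O * Da / Db * Dc))
      - -(z * x * (1 + (y * z) ^ 4 * x ^ 4) * (1 - y ^ 4) * Bk * (Bj * (1 - z ^ 4 * x ^ 2) / Dj) /
        (O * Da)) := by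
  field_simp
  subst ej eb ec
  ring

theorem pair (m k : ℕ) (hk : k ≤ m + 1) :
    (1 - q ^ (4 * m + 5)) * f (m + 1) k - (1 - q ^ (4 * m + 3)) * f m k
      = g m (k + 1) - g m k := by
  rcases Nat.lt_or_ge m k with h | h
  · obtain rfl : k = m + 1 := by omega
    have h1 : m + 1 ≤ m + 1 := le_rfl
    have h2 : ¬ (m + 1 ≤ m) := by omega
    have h3 : ¬ (m + 1 + 1 ≤ m + 1) := by omega
    simp only [f, g, h1, h2, h3, if_true, if_false, mul_zero, sub_zero, Nat.sub_self, pow_zero,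
      one_mul, zero_sub, neg_neg]
    have s1 : m + 1 + (m + 1) = (m + (m + 1)) + 1 := by ring
    rw [s1, Bf_succ (m + (m + 1))]
    have b1 := Bf_ne (m + (m + 1))
    have b0 := Bf_ne 0
    have e1 : (1 : K) + q ^ (4 * (m + 1) + 1) = 1 + q ^ (4 * m + 5) := by ring
    have e2 : (1 : K) - q ^ (4 * (m + (m + 1) + 1) + 2)
        = (1 - q ^ (4 * m + 5)) * (1 + q ^ (4 * m + 5)) := by ring
    have e3 : (1 : K) - q ^ (4 * (m + (m + 1)) + 4)
        = (1 - q ^ (4 * m + 4)) * (1 + q ^ (4 * m + 4)) := by ring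
    have e4 : (1 : K) - q ^ (4 * (m + 1)) = 1 - q ^ (4 * m + 4) := by ring
    have d1 : (1 : K) - q ^ (4 * m + 5) ≠ 0 := one_sub_ne (by omega)
    have d2 : (1 : K) + q ^ (4 * m + 5) ≠ 0 := one_add_ne (by omega)
    have d3 : (1 : K) - q ^ (4 * m + 4) ≠ 0 := one_sub_ne (by omega)
    have d4 : (1 : K) + q ^ (4 * m + 4) ≠ 0 := one_add_ne (by omega)
    have d5 : (1 : K) - q ^ (4 * (m + (m + 1)) + 2) ≠ 0 := one_sub_ne (by omega)
    rw [e1, e2, e3, e4]
    generalize (1 : K) - q ^ (4 * m + 5) = D1 at *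
    generalize (1 : K) + q ^ (4 * m + 5) = D2 at *
    generalize (1 : K) - q ^ (4 * m + 4) = D3 at *
    generalize (1 : K) + q ^ (4 * m + 4) = D4 at *
    generalize (1 : K) - q ^ (4 * (m + (m + 1)) + 2) = D5 at *
    field_simp
  · obtain ⟨j, rfl⟩ : ∃ j, m = k + j := ⟨m - k, by omega⟩
    have h1 : k ≤ k + j + 1 := by omega
    have h2 : k ≤ k + j := by omega
    have h3 : k + 1 ≤ k + j + 1 := by omega
    simp only [f, g, h1, h2, h3, if_true]
    have s1 : k + j + 1 - k = j + 1 := by omega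
    have s2 : k + j - k = j := by omega
    have s3 : k + j + 1 - (k + 1) = j := by omega
    have s4 : k + j + 1 + k = (k + j + k) + 1 := by ring
    have s5 : k + j + (k + 1) = (k + j + k) + 1 := by ring
    rw [s1, s2, s3, s4, s5, Bf_succ (k + j + k), Bf_succ j, Bf_succ k]
    have dj : (1 : K) - q ^ (4 * j + 4) ≠ 0 := one_sub_ne (by omega)
    have da : (1 : K) - q ^ (4 * (k + j + k) + 2) ≠ 0 := one_sub_ne (by omega)
    have db : (1 : K) - q ^ (4 * (k + j + k) + 4) ≠ 0 := one_sub_ne (by omega)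
    have dc : (1 : K) - q ^ (4 * (k + j + k + 1) + 2) ≠ 0 := one_sub_ne (by omega)
    have dk : (1 : K) - q ^ (4 * k + 4) ≠ 0 := one_sub_ne (by omega)
    have key := ident (q : K) (q ^ k) (q ^ j) (Bf k) (Bf j) (Bf (k + j + k)) _ _ _ _ _
      (Bf_ne _) dj da db dc dk (by ring) (by ring) (by ring)
    have a1 : (1 : K) - q ^ (4 * (k + j) + 5) = 1 - (q ^ k * q ^ j) ^ 4 * q ^ 5 := by ring
    have a2 : (q : K) ^ (j + 1) = q ^ j * q := by ring
    have a3 : (1 : K) + q ^ (4 * k + 1) = 1 + (q ^ k) ^ 4 * q := by ring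
    have a4 : (1 : K) - q ^ (4 * j + 2) = 1 - (q ^ j) ^ 4 * q ^ 2 := by ring
    have a5 : (1 : K) - q ^ (4 * (k + j) + 3) = 1 - (q ^ k * q ^ j) ^ 4 * q ^ 3 := by ring
    have a6 : (1 : K) + q ^ (4 * (k + j) + 4) = 1 + (q ^ k * q ^ j) ^ 4 * q ^ 4 := by ring
    have a7 : (1 : K) - q ^ (4 * k + 2) = 1 - (q ^ k) ^ 4 * q ^ 2 := by ring
    have a8 : (1 : K) - q ^ (4 * k) = 1 - (q ^ k) ^ 4 := by ring
    have a9 : 4 * (k + 1) = 4 * k + 4 := by ring
    rw [a1, a2, a3, a4, a5, a6, a7, a8, a9]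
    exact key

noncomputable def S (m : ℕ) : K := ∑ k ∈ range (m + 1), f m k

theorem rec (m : ℕ) : (1 - q ^ (4 * m + 5)) * S (m + 1) = (1 - q ^ (4 * m + 3)) * S m := by
  have h : ∑ k ∈ range (m + 2), ((1 - q ^ (4 * m + 5)) * f (m + 1) k
      - (1 - q ^ (4 * m + 3)) * f m k) = ∑ k ∈ range (m + 2), (g m (k + 1) - g m k) :=
    Finset.sum_congr rfl fun k hk => pair m k (by rw [Finset.mem_range] at hk; omega)
  rw [Finset.sum_range_sub (fun k => g m k), Finset.sum_sub_distrib, ← Finset.mul_sum,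
    ← Finset.mul_sum] at h
  have g1 : g m (m + 2) = 0 := by unfold g; rw [if_neg (by omega)]
  have g2 : g m 0 = 0 := by unfold g; simp
  have t1 : f m (m + 1) = 0 := by unfold f; rw [if_neg (by omega)]
  have e1 : ∑ k ∈ range (m + 2), f m k = S m := by
    rw [Finset.sum_range_succ, t1, add_zero]; rfl
  have e2 : ∑ k ∈ range (m + 2), f (m + 1) k = S (m + 1) := rfl
  rw [g1, g2, e1, e2, sub_zero, sub_eq_zero] at h
  exact h

theorem S_eq (m : ℕ) : S m = poch (q ^ 3) (q ^ 4) m / poch (q ^ 1) (q ^ 4) (m + 1) := by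
  induction m with
  | zero =>
    unfold S
    rw [Finset.sum_range_succ, Finset.sum_range_zero]
    have b0 : Bf 0 = 1 := by unfold Bf; simp [poch_zero]
    have d1 : (1 : K) - q ≠ 0 := by simpa using one_sub_ne (j := 1) (by omega)
    have d2 : (1 : K) + q ≠ 0 := by simpa using one_add_ne (j := 1) (by omega)
    have d3 : (1 : K) - q ^ 2 = (1 - q) * (1 + q) := by ring
    simp only [f, le_refl, if_true, Nat.sub_self, b0, mul_zero, zero_add, pow_zero, pow_one,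
      poch_zero, poch_succ, one_mul, mul_one, add_zero, d3]
    field_simp
  | succ m ih =>
    have h := rec m
    have d : (1 : K) - q ^ (4 * m + 5) ≠ 0 := one_sub_ne (by omega)
    have g1 := poch_q_ne 1 4 (by norm_num) (m + 1)
    have h2 : S (m + 1) = (1 - q ^ (4 * m + 3)) * S m / (1 - q ^ (4 * m + 5)) := by
      rw [eq_div_iff d, mul_comm, h]
    rw [h2, ih, poch_succ (q ^ 3) (q ^ 4) m, poch_succ (q ^ 1) (q ^ 4) (m + 1), qpow_arg, qpow_arg]
    have a1 : 3 + 4 * m = 4 * m + 3 := by ring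
    have a2 : 1 + 4 * (m + 1) = 4 * m + 5 := by ring
    rw [a1, a2]
    field_simp

/-- deformed factors -/
noncomputable def e (a N k : ℕ) : K :=
  ∏ j ∈ range k, ((q ^ N - q ^ (a + 4 * j)) * (1 - q ^ (a + 4 * j) * q ^ N))

theorem I_e (n N a k : ℕ) (hn0 : 0 < n) (hN : n ∣ N) (hN0 : 0 < N) :
    I (cyclotomic n ℤ) (q ^ (N * k) * poch (q ^ a) (q ^ 4) k ^ 2 - e a N k) 2 := by
  have hp := cyc_prime hn0
  have h1 : q ^ (N * k) * poch (q ^ a) (q ^ 4) k ^ 2
      = ∏ j ∈ range k, (q ^ N * (1 - q ^ (a + 4 * j)) ^ 2) := by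
    rw [Finset.prod_mul_distrib, Finset.prod_const, Finset.card_range, ← pow_mul, Finset.prod_pow,
      poch_q]
  rw [h1]
  unfold e
  have hpoly : ∀ f : ℤ[X], I (cyclotomic n ℤ) (ι f) 0 := I.of_poly hp
  apply congr_prod hp
  · intro j _
    have : (q : K) ^ N * (1 - q ^ (a + 4 * j)) ^ 2 = ι (X ^ N * (1 - X ^ (a + 4 * j)) ^ 2) := by
      simp
    rw [this]; exact hpoly _
  · intro j _
    have : ((q : K) ^ N - q ^ (a + 4 * j)) * (1 - q ^ (a + 4 * j) * q ^ N)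
        = ι ((X ^ N - X ^ (a + 4 * j)) * (1 - X ^ (a + 4 * j) * X ^ N)) := by
      simp
    rw [this]; exact hpoly _
  · intro j _
    have h2 : (q : K) ^ N * (1 - q ^ (a + 4 * j)) ^ 2 -
        (q ^ N - q ^ (a + 4 * j)) * (1 - q ^ (a + 4 * j) * q ^ N)
        = q ^ (a + 4 * j) * (1 - q ^ N) ^ 2 := by ring
    rw [h2]
    have h3 := (V_one_sub hn0 hN0).pow hp 2
    have h4 : δ n N = 1 := by unfold δ; rw [if_pos hN]
    rw [h4] at h3
    have h5 := ((V_qpow hn0 (a + 4 * j)).mul hp h3).toI hp (f := 2) (by norm_num)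
    exact h5

theorem f_eq (m k : ℕ) (hk : k ≤ m) :
    f m k * (1 - q ^ (4 * m + 2)) * e 4 (4 * m + 2) k
      = q ^ m * (q ^ k * (1 + q ^ (4 * k + 1))) * Bf k * e 2 (4 * m + 2) k := by
  induction k with
  | zero =>
    have d1 : (1 : K) - q ^ (4 * m + 2) ≠ 0 := one_sub_ne (by omega)
    have b0 : Bf 0 = 1 := by unfold Bf; simp [poch_zero]
    have b1 := Bf_ne m
    simp only [f, zero_le, if_true, Nat.sub_zero, add_zero, mul_zero, pow_zero, zero_add, e,
      Finset.prod_range_zero, b0, mul_one, pow_one, one_mul]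
    field_simp
  | succ k ih =>
    obtain ⟨j, hj⟩ : ∃ j, m = k + 1 + j := ⟨m - (k + 1), by omega⟩
    have ih' := ih (by omega)
    have he4 : e 4 (4 * m + 2) (k + 1) = e 4 (4 * m + 2) k *
        ((q ^ (4 * m + 2) - q ^ (4 + 4 * k)) * (1 - q ^ (4 + 4 * k) * q ^ (4 * m + 2))) := by
      unfold e; rw [Finset.prod_range_succ]
    have he2 : e 2 (4 * m + 2) (k + 1) = e 2 (4 * m + 2) k *
        ((q ^ (4 * m + 2) - q ^ (2 + 4 * k)) * (1 - q ^ (2 + 4 * k) * q ^ (4 * m + 2))) := by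
      unfold e; rw [Finset.prod_range_succ]
    rw [he4, he2]
    generalize e 4 (4 * m + 2) k = e4 at *
    generalize e 2 (4 * m + 2) k = e2 at *
    have a1 : (q : K) ^ (4 * m + 2) - q ^ (4 + 4 * k)
        = -(q ^ (4 * k + 3) * q * (1 - q ^ (4 * j + 2))) := by rw [hj]; ring
    have a2 : (q : K) ^ (4 * m + 2) - q ^ (2 + 4 * k)
        = -(q ^ (4 * k + 2) * (1 - q ^ (4 * j + 4))) := by rw [hj]; ring
    have a3 : (1 : K) - q ^ (4 + 4 * k) * q ^ (4 * m + 2) = 1 - q ^ (4 * (m + k + 1) + 2) := by ring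
    have a4 : (1 : K) - q ^ (2 + 4 * k) * q ^ (4 * m + 2) = 1 - q ^ (4 * (m + k) + 4) := by ring
    rw [a1, a2, a3, a4]
    have h1 : k + 1 ≤ m := by omega
    have h2 : k ≤ m := by omega
    simp only [f, h1, h2, if_true] at ih' ⊢
    have s1 : m - (k + 1) = j := by omega
    have s2 : m - k = j + 1 := by omega
    have s3 : m + (k + 1) = (m + k) + 1 := by ring
    rw [s1, s3, Bf_succ (m + k), Bf_succ k]
    rw [s2, Bf_succ j] at ih'
    have w1 : (q : K) ^ (j + 1) = q ^ j * q := by ring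
    have w2 : (q : K) ^ (k + 1) = q ^ k * q := by ring
    have w3 : (q : K) ^ (4 * k + 3) = q ^ (4 * k + 2) * q := by ring
    rw [w1] at ih'
    rw [w2, w3]
    have b1 := Bf_ne (m + k)
    have b2 := Bf_ne j
    have b3 := Bf_ne k
    have hq : (q : K) ≠ 0 := by rw [← ι_X]; exact ι_ne X_ne_zero
    have d1 : (1 : K) - q ^ (4 * (m + k) + 2) ≠ 0 := one_sub_ne (by omega)
    have d2 : (1 : K) - q ^ (4 * (m + k) + 4) ≠ 0 := one_sub_ne (by omega)
    have d3 : (1 : K) - q ^ (4 * (m + k + 1) + 2) ≠ 0 := one_sub_ne (by omega)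
    have d4 : (1 : K) - q ^ (4 * j + 4) ≠ 0 := one_sub_ne (by omega)
    have d5 : (1 : K) - q ^ (4 * k + 4) ≠ 0 := one_sub_ne (by omega)
    have d6 : (1 : K) + q ^ (4 * k + 1) ≠ 0 := one_add_ne (by omega)
    have d7 : (1 : K) - q ^ (4 * j + 2) ≠ 0 := one_sub_ne (by omega)
    generalize (1 : K) - q ^ (4 * (m + k) + 2) = D1 at *
    generalize (1 : K) - q ^ (4 * (m + k) + 4) = D2 at *
    generalize (1 : K) - q ^ (4 * (m + k + 1) + 2) = D3 at *
    generalize (1 : K) - q ^ (4 * j + 4) = D4 at *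
    generalize (1 : K) - q ^ (4 * k + 4) = D5 at *
    generalize (1 : K) + q ^ (4 * k + 1) = D6 at *
    generalize (1 : K) - q ^ (4 * j + 2) = D7 at *
    generalize (1 : K) + q ^ (4 * (k + 1) + 1) = D8 at *
    generalize (1 : K) - q ^ (4 * m + 2) = D9 at *
    generalize (1 : K) - q ^ (4 * k + 2) = D10 at *
    generalize Bf (m + k) = B1 at *
    generalize Bf j = B2 at *
    generalize Bf k = B3 at *
    generalize (q : K) ^ j = u1 at *
    generalize (q : K) ^ k = u2 at *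
    generalize (q : K) ^ m = u3 at *
    generalize (q : K) ^ (4 * k + 2) = u4 at *
    field_simp at ih' ⊢
    linear_combination (-D10 * D8 * u4) * ih'

end Q266.QDixon
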