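import Mathlib
import Pool.Agent.Q266.QWatson2

/-!
All blocks of the sum modulo `Φ_n(q)^2`.
-/

namespace Q266.QWatson

open Polynomial Finset Q266.QVal
open Q266.QEight (qpow_arg)

noncomputable def N1 (m i : ℕ) : ℤ[X][X] :=
  (∏ l ∈ range i, (1 - C (X ^ (2 * l + 1)) * X)) * ∏ l ∈ Ico i m, (1 - C (X ^ (2 * l + 2)) * X)

noncomputable def N2 (m i : ℕ) : ℤ[X][X] :=
  (∏ l ∈ range i, (1 + C (X ^ (2 * l + 1)) * X)) * ∏ l ∈ Ico i m, (1 + C (X ^ (2 * l + 2)) * X)

noncomputable def P (m : ℕ) : ℤ[X][X] :=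
  ∑ i ∈ range (m + 1), C (X ^ (2 * i)) * X * N1 m i ^ 3 * N2 m i

noncomputable def E (m : ℕ) (ω : ℂ) : ℂ[X] :=
  X * ((∏ l ∈ range m, (1 - C (ω ^ (l + 1)) * X)) ^ 3 * ∏ l ∈ range m, (1 + C (ω ^ (l + 1)) * X))

theorem E_comp (m : ℕ) (ω : ℂ) (i : ℕ) : (E m ω).comp (C (ω ^ i) * X) = C (ω ^ i) * X *
    ((∏ l ∈ range m, (1 - C (ω ^ (l + 1 + i)) * X)) ^ 3 *
      ∏ l ∈ range m, (1 + C (ω ^ (l + 1 + i)) * X)) := by
  have h1 : ∀ l : ℕ, (1 - C (ω ^ (l + 1)) * X : ℂ[X]).comp (C (ω ^ i) * X)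
      = 1 - C (ω ^ (l + 1 + i)) * X := by
    intro l
    rw [sub_comp, one_comp, mul_comp, C_comp, X_comp, pow_add ω (l + 1) i, C_mul, mul_assoc]
  have h2 : ∀ l : ℕ, (1 + C (ω ^ (l + 1)) * X : ℂ[X]).comp (C (ω ^ i) * X)
      = 1 + C (ω ^ (l + 1 + i)) * X := by
    intro l
    rw [add_comp, one_comp, mul_comp, C_comp, X_comp, pow_add ω (l + 1) i, C_mul, mul_assoc]
  unfold E
  rw [mul_comp, X_comp, mul_comp, pow_comp, Polynomial.prod_comp, Polynomial.prod_comp]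
  simp only [h1, h2]

theorem P_map (n m : ℕ) (hn : n = 2 * m + 1) (ζ : ℂ) (hζ : IsPrimitiveRoot ζ n) :
    (P m).map (aeval ζ : ℤ[X] →ₐ[ℤ] ℂ).toRingHom
      = ∑ i ∈ range (m + 1), (E m (ζ ^ 2)).comp (C ((ζ ^ 2) ^ i) * X) := by
  unfold P
  rw [Polynomial.map_sum]
  apply Finset.sum_congr rfl
  intro i hi
  rw [Finset.mem_range] at hi
  rw [E_comp]
  have ha : ∀ s, ζ ^ (2 * s + 1) = (ζ ^ 2) ^ (m + s + 1) := by
    intro s
    rw [← pow_mul, show 2 * (m + s + 1) = n + (2 * s + 1) by omega, pow_add ζ n (2 * s + 1),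
      hζ.pow_eq_one, one_mul]
  have h1 := prod_shift (fun a : ℂ => (1 - C a * X : ℂ[X])) (ζ ^ 2) (fun s => ζ ^ (2 * s + 1)) m i
    (by omega) ha
  have h2 := prod_shift (fun a : ℂ => (1 + C a * X : ℂ[X])) (ζ ^ 2) (fun s => ζ ^ (2 * s + 1)) m i
    (by omega) ha
  rw [← h1, ← h2]
  have e1 : ∀ l : ℕ, ζ ^ (2 * l + 2) = (ζ ^ 2) ^ (l + 1) := by
    intro l; rw [← pow_mul]; congr 1
  simp only [N1, N2, Polynomial.map_mul, Polynomial.map_pow, Polynomial.map_prod,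
    Polynomial.map_sub, Polynomial.map_add, Polynomial.map_one, map_C, map_X]
  simp only [AlgHom.toRingHom_eq_coe, RingHom.coe_coe, map_pow, aeval_X, ← e1, ← pow_mul]
  ring

theorem E_coeff (n m : ℕ) (hn : n = 2 * m + 1) (ω : ℂ) (t : ℕ) (ht : n ∣ t) (ht2 : t ≠ n) :
    (E m ω).coeff t = 0 := by
  obtain ⟨a, rfl⟩ := ht
  rcases Nat.eq_zero_or_pos a with rfl | ha
  · simp [E]
  · have ha2 : 2 ≤ a := by
      rcases Nat.lt_or_ge a 2 with h | h
      · exfalso; apply ht2; rw [show a = 1 by omega, mul_one]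
      · exact h
    apply coeff_eq_zero_of_natDegree_lt
    have hdeg1 : ∀ l : ℕ, (1 - C (ω ^ (l + 1)) * X : ℂ[X]).natDegree ≤ 1 := by
      intro l
      refine (natDegree_sub_le _ _).trans ?_
      simpa using (natDegree_C_mul_le (ω ^ (l + 1)) (X : ℂ[X])).trans natDegree_X_le
    have hdeg2 : ∀ l : ℕ, (1 + C (ω ^ (l + 1)) * X : ℂ[X]).natDegree ≤ 1 := by
      intro l
      refine (natDegree_add_le _ _).trans ?_
      simpa using (natDegree_C_mul_le (ω ^ (l + 1)) (X : ℂ[X])).trans natDegree_X_le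
    have hp1 : (∏ l ∈ range m, (1 - C (ω ^ (l + 1)) * X : ℂ[X])).natDegree ≤ m := by
      refine (natDegree_prod_le _ _).trans ?_
      refine (Finset.sum_le_sum fun l _ => hdeg1 l).trans ?_
      simp
    have hp2 : (∏ l ∈ range m, (1 + C (ω ^ (l + 1)) * X : ℂ[X])).natDegree ≤ m := by
      refine (natDegree_prod_le _ _).trans ?_
      refine (Finset.sum_le_sum fun l _ => hdeg2 l).trans ?_
      simp
    have hE : (E m ω).natDegree ≤ 1 + (3 * m + m) := by
      unfold E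
      refine (natDegree_mul_le).trans ?_
      refine Nat.add_le_add natDegree_X_le ?_
      refine (natDegree_mul_le).trans ?_
      refine Nat.add_le_add ?_ hp2
      exact (natDegree_pow_le).trans (Nat.mul_le_mul_left 3 hp1)
    have h2 : n * 2 ≤ n * a := Nat.mul_le_mul_left n ha2
    omega

theorem E_dvd (n m : ℕ) (hn : n = 2 * m + 1) (ω : ℂ) (hω : IsPrimitiveRoot ω n) (i : ℕ)
    (h1 : m < i) (h2 : i < n) : (X - 1 : ℂ[X]) ^ 2 ∣ (E m ω).comp (C (ω ^ i) * X) := by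
  rw [E_comp]
  have hl : n - 1 - i ∈ range m := by rw [Finset.mem_range]; omega
  have hd : (1 - C (ω ^ (n - 1 - i + 1 + i)) * X : ℂ[X]) ∣
      ∏ l ∈ range m, (1 - C (ω ^ (l + 1 + i)) * X) :=
    Finset.dvd_prod_of_mem (fun l => (1 - C (ω ^ (l + 1 + i)) * X : ℂ[X])) hl
  rw [show n - 1 - i + 1 + i = n by omega, hω.pow_eq_one] at hd
  have e1 : (1 - C (1 : ℂ) * X : ℂ[X]) = -(X - 1) := by simp
  rw [e1, neg_dvd] at hd
  have h3 : (X - 1 : ℂ[X]) ^ 2 ∣ (∏ l ∈ range m, (1 - C (ω ^ (l + 1 + i)) * X)) ^ 3 :=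
    (pow_dvd_pow_of_dvd hd 2).trans (pow_dvd_pow _ (by norm_num))
  exact Dvd.dvd.mul_left (Dvd.dvd.mul_right h3 _) _

theorem c_succ (k : ℕ) : c (k + 1) * ((1 - q ^ (2 * k + 2)) ^ 3 * (1 + q ^ (2 * k + 2)))
    = c k * (q ^ 2 * ((1 - q ^ (2 * k + 1)) ^ 3 * (1 + q ^ (2 * k + 1)))) := by
  unfold c Af
  rw [Bf_succ, poch_succ, poch_succ, qpow_arg, qpow_arg]
  have gT := poch_q_ne 2 2 (by norm_num) k
  have a1 : (2 : ℕ) + 2 * k = 2 * k + 2 := by ring
  have a2 : (1 : ℕ) + 2 * k = 2 * k + 1 := by ring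
  have a3 : (1 : K) - q ^ (4 * k + 2) = (1 - q ^ (2 * k + 1)) * (1 + q ^ (2 * k + 1)) := by ring
  have a4 : (1 : K) - q ^ (4 * k + 4) = (1 - q ^ (2 * k + 2)) * (1 + q ^ (2 * k + 2)) := by ring
  have a5 : (q : K) ^ (2 * (k + 1)) = q ^ (2 * k) * q ^ 2 := by ring
  rw [a1, a2, a3, a4, a5]
  have d1 : (1 : K) - q ^ (2 * k + 2) ≠ 0 := one_sub_ne (by omega)
  have d2 : (1 : K) + q ^ (2 * k + 2) ≠ 0 := one_add_ne (by omega)
  generalize (1 : K) - q ^ (2 * k + 2) = D1 at *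
  generalize (1 : K) + q ^ (2 * k + 2) = D2 at *
  field_simp

noncomputable def w (s l : ℕ) : K := (1 - q ^ (2 * s + 2 * l + 1)) ^ 3 * (1 + q ^ (2 * s + 2 * l + 1))
noncomputable def v (s l : ℕ) : K := (1 - q ^ (2 * s + 2 * l + 2)) ^ 3 * (1 + q ^ (2 * s + 2 * l + 2))

theorem c_block (s i : ℕ) :
    c (s + i) * ∏ l ∈ range i, v s l = c s * (q ^ (2 * i) * ∏ l ∈ range i, w s l) := by
  induction i with
  | zero => simp
  | succ i ih =>
    rw [Finset.prod_range_succ, Finset.prod_range_succ]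
    have h := c_succ (s + i)
    have h1 : v s i = (1 - q ^ (2 * (s + i) + 2)) ^ 3 * (1 + q ^ (2 * (s + i) + 2)) := by
      unfold v; rw [show 2 * (s + i) + 2 = 2 * s + 2 * i + 2 by ring]
    have h2 : w s i = (1 - q ^ (2 * (s + i) + 1)) ^ 3 * (1 + q ^ (2 * (s + i) + 1)) := by
      unfold w; rw [show 2 * (s + i) + 1 = 2 * s + 2 * i + 1 by ring]
    rw [← h1, ← h2] at h
    calc c (s + (i + 1)) * ((∏ l ∈ range i, v s l) * v s i)
        = (c (s + i + 1) * v s i) * ∏ l ∈ range i, v s l := by rw [← add_assoc]; ring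
      _ = (c (s + i) * ∏ l ∈ range i, v s l) * (q ^ 2 * w s i) := by rw [h]; ring
      _ = _ := by rw [ih]; ring

theorem eval_P (s m : ℕ) : ι ((P m).eval (X ^ (2 * s)))
    = ∑ i ∈ range (m + 1), q ^ (2 * i) * q ^ (2 * s) *
        ((∏ l ∈ range i, w s l) * ∏ l ∈ Ico i m, v s l) := by
  unfold P N1 N2
  rw [eval_finsetSum, map_sum]
  apply Finset.sum_congr rfl
  intro i _
  simp only [eval_mul, eval_pow, eval_C, eval_X, eval_prod, eval_sub, eval_add, eval_one, map_mul,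
    map_pow, map_prod, map_sub, map_add, map_one, ι_X]
  have e1 : ∏ l ∈ range i, w s l = (∏ l ∈ range i, (1 - q ^ (2 * l + 1) * q ^ (2 * s))) ^ 3 *
      ∏ l ∈ range i, (1 + q ^ (2 * l + 1) * q ^ (2 * s)) := by
    rw [← Finset.prod_pow, ← Finset.prod_mul_distrib]
    apply Finset.prod_congr rfl
    intro l _
    unfold w; ring
  have e2 : ∏ l ∈ Ico i m, v s l = (∏ l ∈ Ico i m, (1 - q ^ (2 * l + 2) * q ^ (2 * s))) ^ 3 *
      ∏ l ∈ Ico i m, (1 + q ^ (2 * l + 2) * q ^ (2 * s)) := by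
    rw [← Finset.prod_pow, ← Finset.prod_mul_distrib]
    apply Finset.prod_congr rfl
    intro l _
    unfold v; ring
  rw [e1, e2]
  ring

theorem block_eq (s m : ℕ) :
    (∑ i ∈ range (m + 1), c (s + i)) * (q ^ (2 * s) * ∏ l ∈ range m, v s l)
      = c s * ι ((P m).eval (X ^ (2 * s))) := by
  rw [eval_P, Finset.sum_mul, Finset.mul_sum]
  apply Finset.sum_congr rfl
  intro i hi
  rw [Finset.mem_range] at hi
  rw [← Finset.prod_range_mul_prod_Ico (fun l => v s l) (show i ≤ m by omega)]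
  have h := c_block s i
  linear_combination (q ^ (2 * s) * ∏ l ∈ Ico i m, v s l) * h

theorem V_v (n m s l : ℕ) (hn : n = 2 * m + 1) (hs : n ∣ s) (hl : l < m) :
    V (cyclotomic n ℤ) (v s l) 0 := by
  have hn0 : 0 < n := by omega
  have hp := cyc_prime hn0
  obtain ⟨a, rfl⟩ := hs
  have hco : Nat.Coprime n 2 := Nat.coprime_two_right.2 ⟨m, hn⟩
  have h1 : ¬ n ∣ 2 * (n * a) + 2 * l + 2 := by
    intro h
    have h2 : n ∣ 2 * l + 2 := by
      have e1 : 2 * (n * a) + 2 * l + 2 = n * (2 * a) + (2 * l + 2) := by ring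
      rw [e1] at h
      exact (Nat.dvd_add_right ⟨2 * a, rfl⟩).1 h
    have h3 : n ∣ 2 * (l + 1) := by rw [mul_add]; exact h2
    have := Nat.le_of_dvd (by omega) (hco.dvd_of_dvd_mul_left h3)
    omega
  have h2 : ¬ n ∣ 2 * (2 * (n * a) + 2 * l + 2) := fun h => h1 (hco.dvd_of_dvd_mul_left h)
  have v1 := V_one_sub (d := n) (j := 2 * (n * a) + 2 * l + 2) hn0 (by omega)
  have v2 := V_one_sub (d := n) (j := 2 * (2 * (n * a) + 2 * l + 2)) hn0 (by omega)
  unfold δ at v1 v2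
  rw [if_neg h1] at v1
  rw [if_neg h2] at v2
  have d1 : (1 : K) - q ^ (2 * (n * a) + 2 * l + 2) ≠ 0 := one_sub_ne (by omega)
  have e2 : v (n * a) l = (1 - q ^ (2 * (n * a) + 2 * l + 2)) ^ 2 *
      (1 - q ^ (2 * (2 * (n * a) + 2 * l + 2))) := by
    unfold v
    rw [mul_comm 2 (2 * (n * a) + 2 * l + 2), pow_mul]
    ring
  rw [e2]
  have := (v1.pow hp 2).mul hp v2
  simpa using this

theorem V_c (n m k : ℕ) (hn : n = 2 * m + 1) :
    V (cyclotomic n ℤ) (c k) (if m < k % n then 3 else 0) := by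
  have hn0 : 0 < n := by omega
  have hp := cyc_prime hn0
  have h := (((V_A hn k).pow hp 2).mul hp (V_B hn k)).mul hp (V_qpow hn0 (2 * k))
  split_ifs with hk
  · simp only [hk, if_true] at h
    exact h
  · simp only [hk, if_false] at h
    exact h

theorem block_I (n m j : ℕ) (hn : n = 2 * m + 1) (hm : m % 2 = 1) :
    I (cyclotomic n ℤ) (∑ i ∈ range (m + 1), c (j * n + i)) 2 := by
  have hn0 : 0 < n := by omega
  have hp := cyc_prime hn0
  -- the value at `1`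
  have hden : ∀ s, n ∣ s → V (cyclotomic n ℤ) (q ^ (2 * s) * ∏ l ∈ range m, v s l) 0 := by
    intro s hs
    have h1 : V (cyclotomic n ℤ) (∏ l ∈ range m, v s l) 0 := by
      have := V.prod hp (range m) (fun l => v s l) (fun _ => 0) fun l hl =>
        V_v n m s l hn hs (Finset.mem_range.1 hl)
      simpa using this
    have := (V_qpow hn0 (2 * s)).mul hp h1
    simpa using this
  have h1 : cyclotomic n ℤ ^ 2 ∣ (P m).eval 1 := by
    have hb := block_eq 0 m
    have hf := first_block n m hn hm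
    simp only [zero_add] at hb
    have c0 : c 0 = 1 := by unfold c Af Bf; simp [poch_zero]
    rw [c0, one_mul] at hb
    simp only [mul_zero, pow_zero] at hb
    apply I.dvd hp
    rw [← hb]
    have hh := hden 0 (dvd_zero n)
    simp only [mul_zero, pow_zero] at hh
    have := hf.mul hp (hh.toI hp le_rfl)
    simpa using this
  -- the block polynomial
  set ζ : ℂ := Complex.exp (2 * Real.pi * Complex.I / n) with hζdef
  have hζ : IsPrimitiveRoot ζ n := Complex.isPrimitiveRoot_exp n hn0.ne'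
  have hω : IsPrimitiveRoot (ζ ^ 2) n :=
    hζ.pow_of_coprime 2 (by rw [Nat.coprime_comm]; exact Nat.coprime_two_right.2 ⟨m, hn⟩)
  have hy : cyclotomic n ℤ ∣ X ^ (2 * (j * n)) - 1 := by
    refine (cyclotomic.dvd_X_pow_sub_one n ℤ).trans ?_
    rw [show 2 * (j * n) = n * (2 * j) by ring, pow_mul]
    exact sub_one_dvd_pow_sub_one _ _
  have h2 : cyclotomic n ℤ ^ 2 ∣ (P m).eval (X ^ (2 * (j * n))) :=
    block_dvd hn0 hζ hω (E m (ζ ^ 2)) (P m) m n (P_map n m hn ζ hζ) (by omega) dvd_rfl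
      (fun t ht ht2 => E_coeff n m hn _ t ht ht2) (fun i hi1 hi2 => E_dvd n m hn _ hω i hi1 hi2)
      h1 _ hy
  have hb := block_eq (j * n) m
  have hd := hden (j * n) (Dvd.intro_left j rfl)
  have hne := hd.ne_zero hp
  have hVc := V_c n m (j * n) hn
  rw [Nat.mul_mod_left, if_neg (by omega)] at hVc
  have hI : I (cyclotomic n ℤ) (ι ((P m).eval (X ^ (2 * (j * n))))) 2 := by
    obtain ⟨u, hu⟩ := h2
    refine ⟨u, 1, hp.not_dvd_one, ?_⟩
    rw [hu]
    simp
  have h3 := (hVc.toI hp le_rfl).mul hp hI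
  rw [← hb] at h3
  have h4 := h3.mul hp ((hd.inv hp).toI hp le_rfl)
  rw [mul_assoc, mul_inv_cancel₀ hne, mul_one] at h4
  simpa using h4

theorem main_a (n m r : ℕ) (hn : n = 2 * m + 1) (hm : m % 2 = 1) :
    I (cyclotomic n ℤ) (∑ k ∈ range (r * n), c k) 2 := by
  have hn0 : 0 < n := by omega
  have hp := cyc_prime hn0
  induction r with
  | zero => simpa using I.zero hp 2
  | succ r ih =>
    rw [add_mul, one_mul, Finset.sum_range_add]
    apply ih.add hp
    have e1 : n = (m + 1) + (n - (m + 1)) := by omega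
    rw [e1, Finset.sum_range_add, ← e1]
    apply (block_I n m r hn hm).add hp
    apply I.sum hp
    intro i hi
    rw [Finset.mem_range] at hi
    have hV := V_c n m (r * n + (m + 1 + i)) hn
    have hmod : (r * n + (m + 1 + i)) % n = m + 1 + i := by
      rw [add_comm, Nat.add_mul_mod_self_right]
      exact Nat.mod_eq_of_lt (by omega)
    rw [hmod, if_pos (by omega)] at hV
    exact hV.toI hp (by norm_num)

theorem main_b (n m r : ℕ) (hn : n = 2 * m + 1) (hm : m % 2 = 1) :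
    I (cyclotomic n ℤ) (∑ k ∈ range (r * n + (m + 1)), c k) 2 := by
  have hn0 : 0 < n := by omega
  have hp := cyc_prime hn0
  rw [Finset.sum_range_add]
  exact (main_a n m r hn hm).add hp (block_I n m r hn hm)

end Q266.QWatson
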