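import Mathlib
import Pool.Agent.Q266.QDixon
import Pool.Agent.Q266.QWatson3

/-!
Blocks of the sum of `q^k (1+q^{4k+1}) (q^2;q^4)_k^3 / (q^4;q^4)_k^3` modulo `Φ_n(q)^2`.
-/

namespace Q266.QDixon

open Polynomial Finset Q266.QVal Q266.QWatson
open Q266.QEight (qpow_arg)

noncomputable def t (k : ℕ) : K := q ^ k * (1 + q ^ (4 * k + 1)) * Bf k ^ 3

theorem V.add_I {p : ℤ[X]} (hp : Prime p) {x y : K} (hx : V p x 0) (hy : I p y 1) :
    V p (x + y) 0 := by
  obtain ⟨u, w, hu, hw, h⟩ := hx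
  obtain ⟨u', w', hw', h'⟩ := hy
  refine ⟨u * w' + p * u' * w, w * w', ?_, ?_, ?_⟩
  · intro hd
    have h1 : p ∣ u * w' := by
      have h2 : p ∣ p * u' * w := ⟨u' * w, by ring⟩
      exact (dvd_add_left h2).1 hd
    rcases hp.dvd_or_dvd h1 with h1 | h1
    · exact hu h1
    · exact hw' h1
  · intro hd; rcases hp.dvd_or_dvd hd with h1 | h1
    · exact hw h1
    · exact hw' h1
  · rw [zpow_zero, one_mul] at h
    rw [zpow_one] at h'
    rw [zpow_zero, one_mul, map_add, map_mul, map_mul, map_mul, map_mul]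
    linear_combination ι w' * h + ι w * h'

theorem V_one_add {n : ℕ} (hn0 : 0 < n) (j : ℕ) (hj : 0 < j) (hodd : n % 2 = 1) :
    V (cyclotomic n ℤ) (1 + q ^ j) 0 := by
  have hp := cyc_prime hn0
  have v1 := V_one_sub (d := n) (j := j) hn0 hj
  have v2 := V_one_sub (d := n) (j := 2 * j) hn0 (by omega)
  have hco : Nat.Coprime n 2 := Nat.coprime_two_right.2 (Nat.odd_iff.2 hodd)
  have h2 : δ n (2 * j) = δ n j := by
    unfold δ
    have : n ∣ 2 * j ↔ n ∣ j := ⟨fun h => hco.dvd_of_dvd_mul_left h, fun h => h.mul_left 2⟩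
    simp only [this]
  rw [h2] at v2
  have h := v2.div hp v1
  have d1 : (1 : K) - q ^ j ≠ 0 := one_sub_ne hj
  have e1 : ((1 : K) - q ^ (2 * j)) / (1 - q ^ j) = 1 + q ^ j := by
    rw [div_eq_iff d1]; ring
  rw [e1, sub_self] at h
  exact h

theorem V_b2 {n m k : ℕ} (hn : n = 2 * m + 1) (hk : k ≤ m) :
    V (cyclotomic n ℤ) (poch (q ^ 4) (q ^ 4) k) 0 := by
  have hn0 : 0 < n := by omega
  have h := V_poch hn0 4 4 (by norm_num) k
  have hz : ∑ j ∈ range k, δ n (4 + 4 * j) = 0 := by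
    apply Finset.sum_eq_zero
    intro j hj
    rw [Finset.mem_range] at hj
    unfold δ
    rw [if_neg]
    intro hd
    have hco : Nat.Coprime n 2 := Nat.coprime_two_right.2 ⟨m, hn⟩
    have hd2 : n ∣ 2 * (2 * (1 + j)) := by
      have : 2 * (2 * (1 + j)) = 4 + 4 * j := by ring
      rw [this]; exact hd
    have := Nat.le_of_dvd (by omega)
      (hco.dvd_of_dvd_mul_left (hco.dvd_of_dvd_mul_left hd2))
    omega
  rw [hz] at h
  exact h

theorem V_b1 {n m k : ℕ} (hn : n = 2 * m + 1) (hk : k ≤ m) :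
    V (cyclotomic n ℤ) (poch (q ^ 2) (q ^ 4) k) 0 := by
  have hn0 : 0 < n := by omega
  have hp := cyc_prime hn0
  have hkn : k % n = k := Nat.mod_eq_of_lt (by omega)
  have hVB := V_B hn k
  rw [hkn, if_neg (by omega)] at hVB
  have h := hVB.mul hp (V_b2 hn hk)
  have e1 : poch (q ^ 2) (q ^ 4) k / poch (q ^ 4) (q ^ 4) k * poch (q ^ 4) (q ^ 4) k
      = poch (q ^ 2) (q ^ 4) k := div_mul_cancel₀ _ (poch_q_ne 4 4 (by norm_num) k)
  rw [e1] at h
  simpa using h

theorem V_S (n m : ℕ) (hn : n = 2 * m + 1) (hm : m % 2 = 1) :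
    I (cyclotomic n ℤ) (S m) 1 := by
  have hn0 : 0 < n := by omega
  have hp := cyc_prime hn0
  rw [S_eq]
  have h1 := V_poch hn0 3 4 (by norm_num) m
  have h2 := V_poch hn0 1 4 (by norm_num) (m + 1)
  have hz : ∑ j ∈ range (m + 1), δ n (1 + 4 * j) = 0 := by
    apply Finset.sum_eq_zero
    intro j hj
    rw [Finset.mem_range] at hj
    unfold δ
    rw [if_neg]
    rintro ⟨a, ha⟩
    have ha1 : a < 2 := by
      by_contra hcon
      push Not at hcon
      have := Nat.mul_le_mul_left n hcon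
      omega
    have : a = 0 ∨ a = 1 := by omega
    rcases this with rfl | rfl <;> omega
  have ho : (1 : ℤ) ≤ ∑ j ∈ range m, δ n (3 + 4 * j) := by
    have hmem : (m - 1) / 2 ∈ range m := by rw [Finset.mem_range]; omega
    have hle := Finset.single_le_sum (f := fun j => δ n (3 + 4 * j)) (fun j _ => by
      show (0 : ℤ) ≤ δ n (3 + 4 * j)
      unfold δ; split_ifs <;> norm_num) hmem
    have hone : δ n (3 + 4 * ((m - 1) / 2)) = 1 := by
      unfold δ
      rw [if_pos]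
      refine ⟨1, by omega⟩
    simp only [hone] at hle
    exact hle
  rw [hz] at h2
  have h := h1.div hp h2
  exact h.toI hp (by omega)

theorem first_block (n m : ℕ) (hn : n = 2 * m + 1) (hm : m % 2 = 1) :
    I (cyclotomic n ℤ) (∑ k ∈ range (m + 1), t k) 2 := by
  have hn0 : 0 < n := by omega
  have hp := cyc_prime hn0
  have hN : n ∣ 4 * m + 2 := ⟨2, by omega⟩
  have hterm : ∀ k ∈ range (m + 1),
      I (cyclotomic n ℤ) (q ^ m * t k - f m k * (1 - q ^ (4 * m + 2))) 2 := by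
    intro k hk
    rw [Finset.mem_range] at hk
    have h1 := f_eq m k (by omega)
    have vb1 := V_b1 hn (show k ≤ m by omega)
    have vb2 := V_b2 hn (show k ≤ m by omega)
    have i4 := I_e n (4 * m + 2) 4 k hn0 hN (by omega)
    have i2 := I_e n (4 * m + 2) 2 k hn0 hN (by omega)
    have vq := V_qpow hn0 ((4 * m + 2) * k)
    -- the deformed denominators are units
    have ve4 : V (cyclotomic n ℤ) (e 4 (4 * m + 2) k) 0 := by
      have h2 : e 4 (4 * m + 2) k = q ^ ((4 * m + 2) * k) * poch (q ^ 4) (q ^ 4) k ^ 2 +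
          -(q ^ ((4 * m + 2) * k) * poch (q ^ 4) (q ^ 4) k ^ 2 - e 4 (4 * m + 2) k) := by ring
      rw [h2]
      apply V.add_I hp
      · simpa using vq.mul hp (vb2.pow hp 2)
      · exact (i4.mono hp (by norm_num)).neg
    have ne4 := ve4.ne_zero hp
    have ne2 := vb2.ne_zero hp
    have h3 : q ^ m * t k - f m k * (1 - q ^ (4 * m + 2))
        = (q ^ m * (q ^ k * (1 + q ^ (4 * k + 1))) * Bf k /
            (poch (q ^ 4) (q ^ 4) k ^ 2 * e 4 (4 * m + 2) k)) *
          (poch (q ^ 4) (q ^ 4) k ^ 2 * (q ^ ((4 * m + 2) * k) * poch (q ^ 2) (q ^ 4) k ^ 2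
              - e 2 (4 * m + 2) k)
            - poch (q ^ 2) (q ^ 4) k ^ 2 * (q ^ ((4 * m + 2) * k) * poch (q ^ 4) (q ^ 4) k ^ 2
              - e 4 (4 * m + 2) k)) := by
      have h4 : f m k * (1 - q ^ (4 * m + 2))
          = q ^ m * (q ^ k * (1 + q ^ (4 * k + 1))) * Bf k * e 2 (4 * m + 2) k /
            e 4 (4 * m + 2) k := by
        rw [eq_div_iff ne4, h1]
      rw [h4]
      unfold t
      have h5 : Bf k = poch (q ^ 2) (q ^ 4) k / poch (q ^ 4) (q ^ 4) k := rfl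
      rw [h5]
      generalize poch (q ^ 2) (q ^ 4) k = b1 at *
      generalize poch (q ^ 4) (q ^ 4) k = b2 at *
      generalize e 4 (4 * m + 2) k = e4 at *
      generalize e 2 (4 * m + 2) k = e2 at *
      field_simp
      ring
    rw [h3]
    have vB : V (cyclotomic n ℤ) (Bf k) 0 := by
      have h := vb1.div hp vb2
      rw [sub_zero] at h
      exact h
    have v1 : V (cyclotomic n ℤ) (q ^ m * (q ^ k * (1 + q ^ (4 * k + 1))) * Bf k /
            (poch (q ^ 4) (q ^ 4) k ^ 2 * e 4 (4 * m + 2) k)) 0 := by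
      have := (((V_qpow hn0 m).mul hp ((V_qpow hn0 k).mul hp
        (V_one_add hn0 (4 * k + 1) (by omega) (by omega)))).mul hp vB).div hp
        ((vb2.pow hp 2).mul hp ve4)
      simpa using this
    have i5 : I (cyclotomic n ℤ) (poch (q ^ 4) (q ^ 4) k ^ 2 *
        (q ^ ((4 * m + 2) * k) * poch (q ^ 2) (q ^ 4) k ^ 2 - e 2 (4 * m + 2) k)) 2 := by
      have := ((vb2.pow hp 2).toI hp le_rfl).mul hp i2
      simpa using this
    have i6 : I (cyclotomic n ℤ) (poch (q ^ 2) (q ^ 4) k ^ 2 *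
        (q ^ ((4 * m + 2) * k) * poch (q ^ 4) (q ^ 4) k ^ 2 - e 4 (4 * m + 2) k)) 2 := by
      have := ((vb1.pow hp 2).toI hp le_rfl).mul hp i4
      simpa using this
    have i7 := i5.add hp i6.neg
    rw [← sub_eq_add_neg] at i7
    have := (v1.toI hp le_rfl).mul hp i7
    simpa using this
  have hsum := I.sum hp (range (m + 1)) _ 2 hterm
  rw [Finset.sum_sub_distrib, ← Finset.mul_sum, ← Finset.sum_mul] at hsum
  have hS' : ∑ k ∈ range (m + 1), f m k = S m := rfl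
  rw [hS'] at hsum
  have hvS := V_S n m hn hm
  have hv2 := V_one_sub (d := n) (j := 4 * m + 2) hn0 (by omega)
  have hδ : δ n (4 * m + 2) = 1 := by unfold δ; rw [if_pos hN]
  rw [hδ] at hv2
  have h7 := hvS.mul hp (hv2.toI hp le_rfl)
  have h8 := hsum.add hp h7
  rw [sub_add_cancel] at h8
  have hq : (q : K) ^ m ≠ 0 := (V_qpow hn0 _).ne_zero hp
  have h6 := (((V_qpow hn0 m).inv hp).toI hp le_rfl).mul hp h8
  rw [← mul_assoc, inv_mul_cancel₀ hq, one_mul] at h6
  simpa using h6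

/-! ### the block polynomial -/

noncomputable def Nf (m i : ℕ) : ℤ[X][X] :=
  (∏ l ∈ range i, (1 - C (X ^ (4 * l + 2)) * X ^ 4)) *
    ∏ l ∈ Ico i m, (1 - C (X ^ (4 * l + 4)) * X ^ 4)

noncomputable def P (m : ℕ) : ℤ[X][X] :=
  ∑ i ∈ range (m + 1), C (X ^ i) * X * (1 + C (X ^ (4 * i + 1)) * X ^ 4) * Nf m i ^ 3

noncomputable def E (m : ℕ) (ζ : ℂ) : ℂ[X] :=
  X * ((1 + C ζ * X ^ 4) * (∏ l ∈ range m, (1 - C ((ζ ^ 4) ^ (l + 1)) * X ^ 4)) ^ 3)

theorem E_comp (m : ℕ) (ζ : ℂ) (i : ℕ) : (E m ζ).comp (C (ζ ^ i) * X) = C (ζ ^ i) * X *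
    ((1 + C (ζ ^ (4 * i + 1)) * X ^ 4) *
      (∏ l ∈ range m, (1 - C ((ζ ^ 4) ^ (l + 1 + i)) * X ^ 4)) ^ 3) := by
  have h1 : ∀ l : ℕ, (1 - C ((ζ ^ 4) ^ (l + 1)) * X ^ 4 : ℂ[X]).comp (C (ζ ^ i) * X)
      = 1 - C ((ζ ^ 4) ^ (l + 1 + i)) * X ^ 4 := by
    intro l
    rw [sub_comp, one_comp, mul_comp, C_comp, pow_comp, X_comp, mul_pow, ← C_pow, ← mul_assoc,
      ← C_mul]
    congr 4
    ring
  have h2 : (1 + C ζ * X ^ 4 : ℂ[X]).comp (C (ζ ^ i) * X) = 1 + C (ζ ^ (4 * i + 1)) * X ^ 4 := by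
    rw [add_comp, one_comp, mul_comp, C_comp, pow_comp, X_comp, mul_pow, ← C_pow, ← mul_assoc,
      ← C_mul]
    congr 3
    ring
  unfold E
  rw [mul_comp, X_comp, mul_comp, h2, pow_comp, Polynomial.prod_comp]
  simp only [h1]

theorem P_map (n m : ℕ) (hn : n = 2 * m + 1) (ζ : ℂ) (hζ : IsPrimitiveRoot ζ n) :
    (P m).map (aeval ζ : ℤ[X] →ₐ[ℤ] ℂ).toRingHom
      = ∑ i ∈ range (m + 1), (E m ζ).comp (C (ζ ^ i) * X) := by
  unfold P
  rw [Polynomial.map_sum]
  apply Finset.sum_congr rfl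
  intro i hi
  rw [Finset.mem_range] at hi
  rw [E_comp]
  have ha : ∀ s, ζ ^ (4 * s + 2) = (ζ ^ 4) ^ (m + s + 1) := by
    intro s
    rw [← pow_mul, show 4 * (m + s + 1) = 2 * n + (4 * s + 2) by omega,
      pow_add ζ (2 * n) (4 * s + 2), mul_comm 2 n, pow_mul ζ n 2, hζ.pow_eq_one, one_pow, one_mul]
  have h1 := prod_shift (fun a : ℂ => (1 - C a * X ^ 4 : ℂ[X])) (ζ ^ 4) (fun s => ζ ^ (4 * s + 2))
    m i (by omega) ha
  rw [← h1]
  have e1 : ∀ l : ℕ, ζ ^ (4 * l + 4) = (ζ ^ 4) ^ (l + 1) := by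
    intro l; rw [← pow_mul]; congr 1
  simp only [Nf, Polynomial.map_mul, Polynomial.map_pow, Polynomial.map_prod,
    Polynomial.map_sub, Polynomial.map_add, Polynomial.map_one, map_C, map_X]
  simp only [AlgHom.toRingHom_eq_coe, RingHom.coe_coe, map_pow, aeval_X, ← e1]
  ring

theorem E_coeff (n m : ℕ) (hn : n = 2 * m + 1) (hm : m % 2 = 1) (ζ : ℂ) (t : ℕ) (ht : n ∣ t)
    (ht2 : t ≠ 3 * n) : (E m ζ).coeff t = 0 := by
  obtain ⟨a, rfl⟩ := ht
  -- `E = X * expand 4 G`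
  have hE : E m ζ = X * expand ℂ 4 ((1 + C ζ * X) *
      (∏ l ∈ range m, (1 - C ((ζ ^ 4) ^ (l + 1)) * X)) ^ 3) := by
    unfold E
    simp only [map_mul, map_add, map_one, map_pow, map_prod, map_sub, expand_C, expand_X]
  have hdeg1 : ∀ l : ℕ, (1 - C ((ζ ^ 4) ^ (l + 1)) * X : ℂ[X]).natDegree ≤ 1 := by
    intro l
    refine (natDegree_sub_le _ _).trans (max_le ?_ ?_)
    · rw [natDegree_one]; exact Nat.zero_le 1
    · exact (natDegree_C_mul_le _ _).trans natDegree_X_le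
  have hdeg2 : (1 + C ζ * X : ℂ[X]).natDegree ≤ 1 := by
    refine (natDegree_add_le _ _).trans (max_le ?_ ?_)
    · rw [natDegree_one]; exact Nat.zero_le 1
    · exact (natDegree_C_mul_le _ _).trans natDegree_X_le
  have hp1 : (∏ l ∈ range m, (1 - C ((ζ ^ 4) ^ (l + 1)) * X : ℂ[X])).natDegree ≤ m := by
    refine (natDegree_prod_le _ _).trans ?_
    refine (Finset.sum_le_sum fun l _ => hdeg1 l).trans ?_
    simp
  have hG : ((1 + C ζ * X) *
      (∏ l ∈ range m, (1 - C ((ζ ^ 4) ^ (l + 1)) * X)) ^ 3 : ℂ[X]).natDegree ≤ 1 + 3 * m := by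
    refine (natDegree_mul_le).trans ?_
    exact Nat.add_le_add hdeg2 ((natDegree_pow_le).trans (Nat.mul_le_mul_left 3 hp1))
  rw [hE]
  generalize (1 + C ζ * X) * (∏ l ∈ range m, (1 - C ((ζ ^ 4) ^ (l + 1)) * X)) ^ 3 = G at *
  rcases Nat.eq_zero_or_pos a with rfl | ha
  · simp
  · obtain ⟨b, hb⟩ : ∃ b, n * a = b + 1 := ⟨n * a - 1, by
      have : 0 < n * a := Nat.mul_pos (by omega) ha
      omega⟩
    rw [hb, coeff_X_mul, coeff_expand (by norm_num)]
    split_ifs with hd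
    · apply coeff_eq_zero_of_natDegree_lt
      by_contra hcon
      push Not at hcon
      obtain ⟨d, rfl⟩ := hd
      rw [Nat.mul_div_cancel_left _ (by norm_num)] at hcon
      -- `n a = 4 d + 1 ≤ 12 m + 5 = 6 n - 1`
      have h1 : n * a ≤ 12 * m + 5 := by omega
      have h2 : a < 6 := by
        by_contra hcon
        push Not at hcon
        have := Nat.mul_le_mul_left n hcon
        omega
      have h3 : a ≠ 3 := by
        rintro rfl
        exact ht2 (mul_comm n 3)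
      have h4 : a = 1 ∨ a = 2 ∨ a = 4 ∨ a = 5 := by omega
      rcases h4 with rfl | rfl | rfl | rfl <;> omega
    · rfl

theorem E_dvd (n m : ℕ) (hn : n = 2 * m + 1) (ζ : ℂ) (hζ : IsPrimitiveRoot ζ n) (i : ℕ)
    (h1 : m < i) (h2 : i < n) : (X - 1 : ℂ[X]) ^ 2 ∣ (E m ζ).comp (C (ζ ^ i) * X) := by
  rw [E_comp]
  have hl : n - 1 - i ∈ range m := by rw [Finset.mem_range]; omega
  have hd : (1 - C ((ζ ^ 4) ^ (n - 1 - i + 1 + i)) * X ^ 4 : ℂ[X]) ∣
      ∏ l ∈ range m, (1 - C ((ζ ^ 4) ^ (l + 1 + i)) * X ^ 4) :=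
    Finset.dvd_prod_of_mem (fun l => (1 - C ((ζ ^ 4) ^ (l + 1 + i)) * X ^ 4 : ℂ[X])) hl
  have hone : (ζ ^ 4) ^ n = 1 := by rw [← pow_mul, mul_comm, pow_mul, hζ.pow_eq_one, one_pow]
  rw [show n - 1 - i + 1 + i = n by omega, hone] at hd
  have e1 : (X - 1 : ℂ[X]) ∣ (1 - C (1 : ℂ) * X ^ 4 : ℂ[X]) := by
    refine ⟨-(1 + X + X ^ 2 + X ^ 3), ?_⟩
    rw [map_one]; ring
  have hd2 := e1.trans hd
  have h3 : (X - 1 : ℂ[X]) ^ 2 ∣ (∏ l ∈ range m, (1 - C ((ζ ^ 4) ^ (l + 1 + i)) * X ^ 4)) ^ 3 :=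
    (pow_dvd_pow_of_dvd hd2 2).trans (pow_dvd_pow _ (by norm_num))
  exact Dvd.dvd.mul_left (Dvd.dvd.mul_left h3 _) _

noncomputable def w (s l : ℕ) : K := 1 - q ^ (4 * s + 4 * l + 2)
noncomputable def v (s l : ℕ) : K := 1 - q ^ (4 * s + 4 * l + 4)

theorem B_block (s i : ℕ) :
    Bf (s + i) * ∏ l ∈ range i, v s l = Bf s * ∏ l ∈ range i, w s l := by
  induction i with
  | zero => simp
  | succ i ih =>
    rw [Finset.prod_range_succ, Finset.prod_range_succ, ← add_assoc, Bf_succ (s + i)]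
    have h1 : v s i = 1 - q ^ (4 * (s + i) + 4) := by
      unfold v; rw [show 4 * (s + i) + 4 = 4 * s + 4 * i + 4 by ring]
    have h2 : w s i = 1 - q ^ (4 * (s + i) + 2) := by
      unfold w; rw [show 4 * (s + i) + 2 = 4 * s + 4 * i + 2 by ring]
    have d : (1 : K) - q ^ (4 * (s + i) + 4) ≠ 0 := one_sub_ne (by omega)
    rw [h1, h2]
    calc Bf (s + i) * (1 - q ^ (4 * (s + i) + 2)) / (1 - q ^ (4 * (s + i) + 4)) *
          ((∏ l ∈ range i, v s l) * (1 - q ^ (4 * (s + i) + 4)))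
        = (Bf (s + i) * ∏ l ∈ range i, v s l) * (1 - q ^ (4 * (s + i) + 2)) := by
          field_simp
      _ = _ := by rw [ih]; ring

theorem eval_P (s m : ℕ) : ι ((P m).eval (X ^ s))
    = ∑ i ∈ range (m + 1), q ^ (s + i) * (1 + q ^ (4 * (s + i) + 1)) *
        ((∏ l ∈ range i, w s l) * ∏ l ∈ Ico i m, v s l) ^ 3 := by
  unfold P Nf
  rw [eval_finsetSum, map_sum]
  apply Finset.sum_congr rfl
  intro i _
  simp only [eval_mul, eval_pow, eval_C, eval_X, eval_prod, eval_sub, eval_add, eval_one, map_mul,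
    map_pow, map_prod, map_sub, map_add, map_one, ι_X]
  have e1 : ∀ l, (1 : K) - q ^ (4 * l + 2) * (q ^ s) ^ 4 = w s l := by
    intro l; unfold w; ring
  have e2 : ∀ l, (1 : K) - q ^ (4 * l + 4) * (q ^ s) ^ 4 = v s l := by
    intro l; unfold v; ring
  simp only [e1, e2]
  ring

theorem block_eq (s m : ℕ) :
    (∑ i ∈ range (m + 1), t (s + i)) * (∏ l ∈ range m, v s l) ^ 3
      = Bf s ^ 3 * ι ((P m).eval (X ^ s)) := by
  rw [eval_P, Finset.sum_mul, Finset.mul_sum]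
  apply Finset.sum_congr rfl
  intro i hi
  rw [Finset.mem_range] at hi
  rw [← Finset.prod_range_mul_prod_Ico (fun l => v s l) (show i ≤ m by omega)]
  have h := B_block s i
  unfold t
  calc q ^ (s + i) * (1 + q ^ (4 * (s + i) + 1)) * Bf (s + i) ^ 3 *
        ((∏ l ∈ range i, v s l) * ∏ l ∈ Ico i m, v s l) ^ 3
      = q ^ (s + i) * (1 + q ^ (4 * (s + i) + 1)) * (Bf (s + i) * ∏ l ∈ range i, v s l) ^ 3 *
          (∏ l ∈ Ico i m, v s l) ^ 3 := by ring
    _ = _ := by rw [h]; ring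

theorem V_v (n m s l : ℕ) (hn : n = 2 * m + 1) (hs : n ∣ s) (hl : l < m) :
    V (cyclotomic n ℤ) (v s l) 0 := by
  have hn0 : 0 < n := by omega
  obtain ⟨a, rfl⟩ := hs
  have hco : Nat.Coprime n 2 := Nat.coprime_two_right.2 ⟨m, hn⟩
  have h1 : ¬ n ∣ 4 * (n * a) + 4 * l + 4 := by
    intro h
    have h2 : n ∣ 2 * (2 * (l + 1)) := by
      have e1 : 4 * (n * a) + 4 * l + 4 = n * (4 * a) + 2 * (2 * (l + 1)) := by ring
      rw [e1] at h
      exact (Nat.dvd_add_right ⟨4 * a, rfl⟩).1 h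
    have := Nat.le_of_dvd (by omega)
      (hco.dvd_of_dvd_mul_left (hco.dvd_of_dvd_mul_left h2))
    omega
  have v1 := V_one_sub (d := n) (j := 4 * (n * a) + 4 * l + 4) hn0 (by omega)
  unfold δ at v1
  rw [if_neg h1] at v1
  exact v1

theorem V_t (n m k : ℕ) (hn : n = 2 * m + 1) :
    V (cyclotomic n ℤ) (t k) (if m < k % n then 3 else 0) := by
  have hn0 : 0 < n := by omega
  have hp := cyc_prime hn0
  have h := ((V_qpow hn0 k).mul hp (V_one_add hn0 (4 * k + 1) (by omega) (by omega))).mul hp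
    ((V_B hn k).pow hp 3)
  split_ifs with hk
  · simp only [hk, if_true] at h
    exact h
  · simp only [hk, if_false] at h
    exact h

theorem block_I (n m j : ℕ) (hn : n = 2 * m + 1) (hm : m % 2 = 1) :
    I (cyclotomic n ℤ) (∑ i ∈ range (m + 1), t (j * n + i)) 2 := by
  have hn0 : 0 < n := by omega
  have hp := cyc_prime hn0
  have hden : ∀ s, n ∣ s → V (cyclotomic n ℤ) ((∏ l ∈ range m, v s l) ^ 3) 0 := by
    intro s hs
    have h1 : V (cyclotomic n ℤ) (∏ l ∈ range m, v s l) 0 := by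
      have := V.prod hp (range m) (fun l => v s l) (fun _ => 0) fun l hl =>
        V_v n m s l hn hs (Finset.mem_range.1 hl)
      simpa using this
    have := h1.pow hp 3
    simpa using this
  have h1 : cyclotomic n ℤ ^ 2 ∣ (P m).eval 1 := by
    have hb := block_eq 0 m
    have hf := first_block n m hn hm
    simp only [zero_add] at hb
    have c0 : Bf 0 = 1 := by unfold Bf; simp [poch_zero]
    rw [c0, one_pow, one_mul] at hb
    simp only [pow_zero] at hb
    apply I.dvd hp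
    rw [← hb]
    have hh := hden 0 (dvd_zero n)
    have := hf.mul hp (hh.toI hp le_rfl)
    simpa using this
  set ζ : ℂ := Complex.exp (2 * Real.pi * Complex.I / n) with hζdef
  have hζ : IsPrimitiveRoot ζ n := Complex.isPrimitiveRoot_exp n hn0.ne'
  have hy : cyclotomic n ℤ ∣ X ^ (j * n) - 1 := by
    refine (cyclotomic.dvd_X_pow_sub_one n ℤ).trans ?_
    rw [mul_comm, pow_mul]
    exact sub_one_dvd_pow_sub_one _ _
  have h2 : cyclotomic n ℤ ^ 2 ∣ (P m).eval (X ^ (j * n)) :=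
    block_dvd hn0 hζ hζ (E m ζ) (P m) m (3 * n) (P_map n m hn ζ hζ) (by omega)
      (Dvd.intro_left 3 rfl)
      (fun t ht ht2 => E_coeff n m hn hm _ t ht ht2) (fun i hi1 hi2 => E_dvd n m hn _ hζ i hi1 hi2)
      h1 _ hy
  have hb := block_eq (j * n) m
  have hd := hden (j * n) (Dvd.intro_left j rfl)
  have hne := hd.ne_zero hp
  have hVc : V (cyclotomic n ℤ) (Bf (j * n) ^ 3) 0 := by
    have h := (V_B hn (j * n)).pow hp 3
    rw [Nat.mul_mod_left, if_neg (by omega), mul_zero] at h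
    exact h
  have hI : I (cyclotomic n ℤ) (ι ((P m).eval (X ^ (j * n)))) 2 := by
    obtain ⟨u, hu⟩ := h2
    refine ⟨u, 1, hp.not_dvd_one, ?_⟩
    rw [hu]
    simp
  have h3 := (hVc.toI hp le_rfl).mul hp hI
  rw [← hb] at h3
  have h4 := h3.mul hp ((hd.inv hp).toI hp le_rfl)
  rw [mul_assoc, mul_inv_cancel₀ hne, mul_one] at h4
  simpa using h4

theorem main_a (n m r : ℕ) (hn : n = 2 * m + 1) (hm : m % 2 = 1) :
    I (cyclotomic n ℤ) (∑ k ∈ range (r * n), t k) 2 := by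
  have hn0 : 0 < n := by omega
  have hp := cyc_prime hn0
  induction r with
  | zero => simpa using I.zero hp 2
  | succ r ih =>
    rw [add_mul, one_mul, Finset.sum_range_add]
    apply ih.add hp
    have e1 : n = (m + 1) + (n - (m + 1)) := by omega
    rw [e1, Finset.sum_range_add, ← e1]
    apply (block_I n m r hn hm).add hp
    apply I.sum hp
    intro i hi
    rw [Finset.mem_range] at hi
    have hV := V_t n m (r * n + (m + 1 + i)) hn
    have hmod : (r * n + (m + 1 + i)) % n = m + 1 + i := by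
      rw [add_comm, Nat.add_mul_mod_self_right]
      exact Nat.mod_eq_of_lt (by omega)
    rw [hmod, if_pos (by omega)] at hV
    exact hV.toI hp (by norm_num)

theorem main_b (n m r : ℕ) (hn : n = 2 * m + 1) (hm : m % 2 = 1) :
    I (cyclotomic n ℤ) (∑ k ∈ range (r * n + (m + 1)), t k) 2 := by
  have hn0 : 0 < n := by omega
  have hp := cyc_prime hn0
  rw [Finset.sum_range_add]
  exact (main_a n m r hn hm).add hp (block_I n m r hn hm)

end Q266.QDixon
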