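import Mathlib
import Pool.Agent.Q266.QEight

/-!
The cyclotomic factors of the `q`-analogue of the `(8k+1)` sum.
-/

namespace Q266.QEight

open Polynomial Finset Q266.QVal

/-- `[m]` -/
noncomputable def qint (m : ℕ) : K := (1 - q ^ m) / (1 - q)

/-- `R_{n,k}` -/
noncomputable def R (n k : ℕ) : K :=
  (poch (-q) q n / poch (-q) q k) ^ 4 * (poch (-q) q (2 * n) / poch (-q) q (2 * k)) ^ 2 *
    (poch (q ^ 2) (q ^ 2) k * poch (q ^ 6) (q ^ 6) n /
      (poch (q ^ 2) (q ^ 2) n * poch (q ^ 6) (q ^ 6) k)) ^ 2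

/-- the summand of the problem -/
noncomputable def term (n k : ℕ) : K :=
  qint (8 * k + 1) * q ^ (2 * k ^ 2) * gauss (4 * k) (2 * k) * gauss (2 * k) k ^ 2 * R n k

/-! ### polynomial forms -/

noncomputable def qintP (m : ℕ) : ℤ[X] := ∑ i ∈ range m, X ^ i
noncomputable def AP (k n : ℕ) : ℤ[X] := ∏ i ∈ Ico k n, (1 + X ^ (i + 1))
noncomputable def CP (k n : ℕ) : ℤ[X] := ∏ i ∈ Ico k n, (1 + X ^ (2 * (i + 1)) + X ^ (4 * (i + 1)))

theorem qint_eq (m : ℕ) : ι (qintP m) = qint m := by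
  have hq0 : (1 : K) - q ≠ 0 := by simpa using one_sub_ne (j := 1) one_pos
  unfold qint qintP
  rw [eq_div_iff hq0, map_sum]
  have h := geom_sum_mul (q : K) m
  simp only [map_pow, ι_X]
  linear_combination -h

theorem AP_eq (k n : ℕ) (h : k ≤ n) : ι (AP k n) = poch (-q) q n / poch (-q) q k := by
  rw [eq_div_iff (poch_neg_ne k)]
  induction n, h using Nat.le_induction with
  | base => simp [AP]
  | succ n hn ih =>
    unfold AP at ih ⊢
    rw [Finset.prod_Ico_succ_top hn, map_mul, poch_succ, ← ih, map_add, map_pow, map_one, ι_X]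
    ring

theorem CP_eq (k n : ℕ) (h : k ≤ n) : ι (CP k n) =
    poch (q ^ 2) (q ^ 2) k * poch (q ^ 6) (q ^ 6) n /
      (poch (q ^ 2) (q ^ 2) n * poch (q ^ 6) (q ^ 6) k) := by
  have b1 := poch_q_ne 2 2 (by norm_num)
  have b2 := poch_q_ne 6 6 (by norm_num)
  rw [eq_div_iff (mul_ne_zero (b1 n) (b2 k))]
  induction n, h using Nat.le_induction with
  | base => simp [CP, mul_comm]
  | succ n hn ih =>
    unfold CP at ih ⊢
    rw [Finset.prod_Ico_succ_top hn, map_mul, poch_succ, poch_succ, qpow_arg, qpow_arg,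
      map_add, map_add, map_pow, map_pow, map_one, ι_X]
    calc _ = (ι (∏ i ∈ Ico k n, (1 + X ^ (2 * (i + 1)) + X ^ (4 * (i + 1)))) *
          (poch (q ^ 2) (q ^ 2) n * poch (q ^ 6) (q ^ 6) k)) *
          ((1 + q ^ (2 * (n + 1)) + q ^ (4 * (n + 1))) * (1 - q ^ (2 + 2 * n))) := by ring
      _ = _ := by rw [ih]; ring

noncomputable def termP (n k : ℕ) : ℤ[X] :=
  qintP (8 * k + 1) * X ^ (2 * k ^ 2) * gaussP (4 * k) (2 * k) * gaussP (2 * k) k ^ 2 *
    (AP k n ^ 4 * AP (2 * k) (2 * n) ^ 2 * CP k n ^ 2)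

theorem termP_eq (n k : ℕ) (h : k ≤ n) : ι (termP n k) = term n k := by
  unfold termP term R
  rw [map_mul, map_mul, map_mul, map_mul, map_mul, map_mul, map_pow, map_pow, map_pow, map_pow,
    map_pow, qint_eq, AP_eq k n h, AP_eq (2 * k) (2 * n) (by omega), CP_eq k n h,
    gaussP_eq (4 * k) (2 * k) (by omega), gaussP_eq (2 * k) k (by omega), ι_X]

/-! ### relation with the telescoping pair -/

theorem split (g : ℕ) (m : ℕ) : poch (q ^ g) (q ^ g) (2 * m)
    = poch (q ^ g) (q ^ (2 * g)) m * poch (q ^ (2 * g)) (q ^ (2 * g)) m := by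
  induction m with
  | zero => simp [poch_zero]
  | succ m ih =>
    rw [show 2 * (m + 1) = 2 * m + 1 + 1 by ring, poch_succ, poch_succ, ih, poch_succ, poch_succ,
      qpow_arg, qpow_arg, qpow_arg, qpow_arg]
    have e1 : g + g * (2 * m) = g + 2 * g * m := by ring
    have e2 : g + g * (2 * m + 1) = 2 * g + 2 * g * m := by ring
    rw [e1, e2]
    ring

theorem split1 (m : ℕ) : poch q q (2 * m) = poch (q ^ 1) (q ^ 2) m * poch (q ^ 2) (q ^ 2) m := by
  have := split 1 m
  simpa using this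

theorem neg_mul_qq (m : ℕ) : poch (-q) q m * poch q q m = poch (q ^ 2) (q ^ 2) m := by
  induction m with
  | zero => simp [poch_zero]
  | succ m ih =>
    rw [poch_succ, poch_succ, poch_succ, ← ih, qpow_arg]
    ring

theorem qq_ne (m : ℕ) : poch q q m ≠ 0 := by
  have := poch_q_ne 1 1 one_pos m
  simpa using this

/-- the common factor `C_n` -/
noncomputable def Cn (n : ℕ) : K :=
  poch (q ^ 6) (q ^ 6) n ^ 2 * poch (-q) q n ^ 4 * poch (-q) q (2 * n) ^ 2 /
    poch (q ^ 2) (q ^ 2) n ^ 2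

theorem term_eq (n k : ℕ) : term n k = Cn n * F k 0 := by
  unfold term R Cn F qint gauss
  rw [if_pos (Nat.zero_le _)]
  have e1 : 8 * (k - 0) + 6 * 0 + 1 = 8 * k + 1 := by simp
  have e2 : 4 * k - 2 * k = 2 * k := by omega
  have e3 : 2 * k - k = k := by omega
  have e4 : 4 * k = 2 * (2 * k) := by ring
  rw [e1, e2, e3, e4, split1 (2 * k), Nat.sub_zero, poch_zero, mul_one, Nat.add_zero]
  have hq0 : (1 : K) - q ≠ 0 := by simpa using one_sub_ne (j := 1) one_pos
  have b1 := poch_q_ne 2 2 (by norm_num)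
  have b2 := poch_q_ne 6 6 (by norm_num)
  have a1 := qq_ne (2 * k)
  have a2 := qq_ne k
  have h1 := neg_mul_qq k
  have h2 := neg_mul_qq (2 * k)
  have hc1 : poch (-q) q k = poch (q ^ 2) (q ^ 2) k / poch q q k := by
    rw [← h1]; field_simp
  have hc2 : poch (-q) q (2 * k) = poch (q ^ 2) (q ^ 2) (2 * k) / poch q q (2 * k) := by
    rw [← h2]; field_simp
  have hs := split1 k
  have b1k := b1 k
  have b12k := b1 (2 * k)
  have b1n := b1 n
  have b2k := b2 k
  have b2n := b2 n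
  rw [hc1, hc2]
  have hb : poch q q (2 * k) ^ 2 = (poch (q ^ 1) (q ^ 2) k * poch (q ^ 2) (q ^ 2) k) ^ 2 := by
    rw [hs]
  generalize poch (q ^ 1) (q ^ 2) (2 * k) = o2 at *
  generalize poch (q ^ 1) (q ^ 2) k = o1 at *
  generalize poch (q ^ 2) (q ^ 2) (2 * k) = B2 at *
  generalize poch (q ^ 2) (q ^ 2) k = B1 at *
  generalize poch (q ^ 2) (q ^ 2) n = Bn at *
  generalize poch (q ^ 6) (q ^ 6) k = S1 at *
  generalize poch (q ^ 6) (q ^ 6) n = Sn at *
  generalize poch q q (2 * k) = A2 at *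
  generalize poch q q k = A1 at *
  generalize poch (-q) q n = c1 at *
  generalize poch (-q) q (2 * n) = c2 at *
  generalize (1 : K) - q = D0 at *
  generalize (1 : K) - q ^ (8 * k + 1) = D8 at *
  generalize (q : K) ^ (2 * k ^ 2) = W at *
  field_simp
  rw [hb]
  ring

end Q266.QEight
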