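import Mathlib
import Pool.Agent.Q266.QEight2

/-!
Divisibility of the `q`-analogue of the `(8k+1)` sum by cyclotomic polynomials.
-/

namespace Q266.QEight

open Polynomial Finset Q266.QVal

noncomputable def FP (n : ℕ) : ℤ[X] := ∑ k ∈ range (n + 1), termP n k

theorem FP_eq (n : ℕ) : ι (FP n) = ∑ k ∈ range (n + 1), term n k := by
  unfold FP
  rw [map_sum]
  apply Finset.sum_congr rfl
  intro k hk
  rw [Finset.mem_range] at hk
  exact termP_eq n k (by omega)

/-! ### termwise divisibility -/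

theorem dvd_of_gauss1 {n k d : ℕ} (hd : 0 < d) (h : d ≤ 2 * (k % d)) :
    cyclotomic d ℤ ∣ termP n k := by
  have h1 : cyclotomic d ℤ ∣ gaussP (2 * k) k := by
    apply cyc_dvd_gaussP _ _ _ hd
    have e : 2 * k - k = k := by omega
    rw [e]
    have h2 : (2 * k) / d = 2 * (k / d) + (2 * (k % d)) / d := by
      conv_lhs => rw [← Nat.div_add_mod k d]
      rw [show 2 * (d * (k / d) + k % d) = d * (2 * (k / d)) + 2 * (k % d) by ring,
        Nat.mul_add_div hd]
    have h3 : 1 ≤ (2 * (k % d)) / d := (Nat.le_div_iff_mul_le hd).2 (by omega)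
    omega
  unfold termP
  exact (((dvd_pow h1 two_ne_zero).mul_left _)).mul_right _

theorem dvd_of_gauss2 {n k d : ℕ} (hd : 0 < d) (h : d ≤ 2 * ((2 * k) % d)) :
    cyclotomic d ℤ ∣ termP n k := by
  have h1 : cyclotomic d ℤ ∣ gaussP (4 * k) (2 * k) := by
    apply cyc_dvd_gaussP _ _ _ hd
    have e : 4 * k - 2 * k = 2 * k := by omega
    rw [e]
    have h2 : (4 * k) / d = 2 * ((2 * k) / d) + (2 * ((2 * k) % d)) / d := by
      have h4 : 4 * k = 2 * (2 * k) := by ring
      rw [h4]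
      conv_lhs => rw [← Nat.div_add_mod (2 * k) d]
      rw [show 2 * (d * ((2 * k) / d) + (2 * k) % d) = d * (2 * ((2 * k) / d)) +
        2 * ((2 * k) % d) by ring, Nat.mul_add_div hd]
    have h3 : 1 ≤ (2 * ((2 * k) % d)) / d := (Nat.le_div_iff_mul_le hd).2 (by omega)
    omega
  unfold termP
  exact ((h1.mul_left _).mul_right _).mul_right _

theorem cyc_dvd_one_add {e i : ℕ} (he : 0 < e) (hi : 0 < i) (h1 : e ∣ i) (h2 : ¬ 2 * e ∣ i) :
    cyclotomic (2 * e) ℤ ∣ (1 + X ^ i : ℤ[X]) := by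
  have hp := cyc_prime (d := 2 * e) (by omega)
  have h3 : cyclotomic (2 * e) ℤ ∣ (X ^ (2 * i) - 1 : ℤ[X]) :=
    (cyc_dvd_iff (by omega) (by omega)).2 (Nat.mul_dvd_mul_left 2 h1)
  have h4 : (X ^ (2 * i) - 1 : ℤ[X]) = (1 + X ^ i) * (X ^ i - 1) := by ring
  rw [h4] at h3
  rcases hp.dvd_or_dvd h3 with h5 | h5
  · exact h5
  · exact absurd ((cyc_dvd_iff (by omega) hi).1 h5) h2

theorem cyc_dvd_cubic {f i : ℕ} (hf : 0 < f) (hi : 0 < i) (h1 : f ∣ i) (h2 : ¬ 3 * f ∣ 2 * i) :
    cyclotomic (3 * f) ℤ ∣ (1 + X ^ (2 * i) + X ^ (4 * i) : ℤ[X]) := by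
  have hp := cyc_prime (d := 3 * f) (by omega)
  have h3 : cyclotomic (3 * f) ℤ ∣ (X ^ (6 * i) - 1 : ℤ[X]) := by
    apply (cyc_dvd_iff (by omega) (by omega)).2
    obtain ⟨c, rfl⟩ := h1
    exact ⟨2 * c, by ring⟩
  have h4 : (X ^ (6 * i) - 1 : ℤ[X]) = (1 + X ^ (2 * i) + X ^ (4 * i)) * (X ^ (2 * i) - 1) := by
    ring
  rw [h4] at h3
  rcases hp.dvd_or_dvd h3 with h5 | h5
  · exact h5
  · exact absurd ((cyc_dvd_iff (by omega) (by omega)).1 h5) h2

theorem dvd_AP {p : ℤ[X]} {k n i : ℕ} (h1 : k < i) (h2 : i ≤ n) (h : p ∣ (1 + X ^ i : ℤ[X])) :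
    p ∣ AP k n := by
  obtain ⟨j, rfl⟩ : ∃ j, i = j + 1 := ⟨i - 1, by omega⟩
  exact h.trans (Finset.dvd_prod_of_mem (fun i => (1 + X ^ (i + 1) : ℤ[X]))
    (Finset.mem_Ico.2 ⟨by omega, by omega⟩))

theorem dvd_CP {p : ℤ[X]} {k n i : ℕ} (h1 : k < i) (h2 : i ≤ n)
    (h : p ∣ (1 + X ^ (2 * i) + X ^ (4 * i) : ℤ[X])) : p ∣ CP k n := by
  obtain ⟨j, rfl⟩ : ∃ j, i = j + 1 := ⟨i - 1, by omega⟩
  exact h.trans (Finset.dvd_prod_of_mem
    (fun i => (1 + X ^ (2 * (i + 1)) + X ^ (4 * (i + 1)) : ℤ[X]))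
    (Finset.mem_Ico.2 ⟨by omega, by omega⟩))

/-- even `d` -/
theorem even_case (n e : ℕ) (he : 0 < e) (h : 2 * e ≤ 3 * (n % (2 * e))) :
    cyclotomic (2 * e) ℤ ∣ FP n := by
  unfold FP
  apply Finset.dvd_sum
  intro k hk
  rw [Finset.mem_range] at hk
  have hn := Nat.div_add_mod n (2 * e)
  have hr := Nat.mod_lt n (show 0 < 2 * e by omega)
  generalize n / (2 * e) = j at *
  generalize n % (2 * e) = r at *
  by_cases h1 : e ≤ r
  · -- multiple `(2 j + 1) e ≤ n`
    by_cases h2 : k < (2 * j + 1) * e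
    · have h3 : cyclotomic (2 * e) ℤ ∣ AP k n := by
        apply dvd_AP h2 (i := (2 * j + 1) * e)
        · rw [← hn]; nlinarith
        · apply cyc_dvd_one_add he (by positivity) (Dvd.intro_left _ rfl)
          rintro ⟨c, hc⟩
          have h5 : (2 * j + 1) * e = (2 * c) * e := by rw [hc]; ring
          have := Nat.eq_of_mul_eq_mul_right he h5
          omega
      unfold termP
      exact (((dvd_pow h3 (by norm_num)).mul_right _).mul_right _).mul_left _
    · push Not at h2
      apply dvd_of_gauss1 (by omega)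
      obtain ⟨t, ht⟩ : ∃ t, k = 2 * e * j + t := ⟨k - 2 * e * j, by
        have : 2 * e * j ≤ (2 * j + 1) * e := by nlinarith
        omega⟩
      have h3 : e ≤ t := by nlinarith
      have h4 : t < 2 * e := by nlinarith
      rw [ht, Nat.mul_add_mod, Nat.mod_eq_of_lt h4]
      omega
  · push Not at h1
    by_cases h2 : 2 * k < (4 * j + 1) * e
    · have h3 : cyclotomic (2 * e) ℤ ∣ AP (2 * k) (2 * n) := by
        apply dvd_AP h2 (i := (4 * j + 1) * e)
        · rw [← hn]; nlinarith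
        · apply cyc_dvd_one_add he (by positivity) (Dvd.intro_left _ rfl)
          rintro ⟨c, hc⟩
          have h5 : (4 * j + 1) * e = (2 * c) * e := by rw [hc]; ring
          have := Nat.eq_of_mul_eq_mul_right he h5
          omega
      unfold termP
      exact (((dvd_pow h3 two_ne_zero).mul_left _).mul_right _).mul_left _
    · push Not at h2
      apply dvd_of_gauss2 (by omega)
      obtain ⟨t, ht⟩ : ∃ t, 2 * k = 2 * e * (2 * j) + t := ⟨2 * k - 2 * e * (2 * j), by
        have : 2 * e * (2 * j) ≤ (4 * j + 1) * e := by nlinarith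
        omega⟩
      have h3 : e ≤ t := by nlinarith
      have h4 : t < 2 * e := by nlinarith
      rw [ht, Nat.mul_add_mod, Nat.mod_eq_of_lt h4]
      omega

/-- odd multiples of three -/
theorem three_case (n f : ℕ) (hf : 0 < f) (hodd : f % 2 = 1) (h : 3 * f ≤ 3 * (n % (3 * f))) :
    cyclotomic (3 * f) ℤ ∣ FP n := by
  unfold FP
  apply Finset.dvd_sum
  intro k hk
  rw [Finset.mem_range] at hk
  have hn := Nat.div_add_mod n (3 * f)
  have hr := Nat.mod_lt n (show 0 < 3 * f by omega)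
  generalize n / (3 * f) = j at *
  generalize n % (3 * f) = r at *
  by_cases h1 : r < 2 * f
  · by_cases h2 : k < (3 * j + 1) * f
    · have h3 : cyclotomic (3 * f) ℤ ∣ CP k n := by
        apply dvd_CP h2 (i := (3 * j + 1) * f)
        · rw [← hn]; nlinarith
        · apply cyc_dvd_cubic hf (by positivity) (Dvd.intro_left _ rfl)
          rintro ⟨c, hc⟩
          have h5 : (2 * (3 * j + 1)) * f = (3 * c) * f := by
            calc _ = 2 * ((3 * j + 1) * f) := by ring
              _ = 3 * f * c := hc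
              _ = _ := by ring
          have := Nat.eq_of_mul_eq_mul_right hf h5
          omega
      unfold termP
      exact ((dvd_pow h3 two_ne_zero).mul_left _).mul_left _
    · push Not at h2
      obtain ⟨t, ht⟩ : ∃ t, k = 3 * f * j + t := ⟨k - 3 * f * j, by
        have : 3 * f * j ≤ (3 * j + 1) * f := by nlinarith
        omega⟩
      have h3 : f ≤ t := by nlinarith
      have h4 : t < 2 * f := by nlinarith
      by_cases h5 : 3 * f ≤ 2 * t
      · apply dvd_of_gauss1 (by omega)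
        rw [ht, Nat.mul_add_mod, Nat.mod_eq_of_lt (by omega)]
        exact h5
      · apply dvd_of_gauss2 (by omega)
        have h6 : 2 * k = 3 * f * (2 * j) + 2 * t := by rw [ht]; ring
        rw [h6, Nat.mul_add_mod, Nat.mod_eq_of_lt (by omega)]
        omega
  · push Not at h1
    by_cases h2 : k < (3 * j + 2) * f
    · have h3 : cyclotomic (3 * f) ℤ ∣ CP k n := by
        apply dvd_CP h2 (i := (3 * j + 2) * f)
        · rw [← hn]; nlinarith
        · apply cyc_dvd_cubic hf (by positivity) (Dvd.intro_left _ rfl)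
          rintro ⟨c, hc⟩
          have h5 : (2 * (3 * j + 2)) * f = (3 * c) * f := by
            calc _ = 2 * ((3 * j + 2) * f) := by ring
              _ = 3 * f * c := hc
              _ = _ := by ring
          have := Nat.eq_of_mul_eq_mul_right hf h5
          omega
      unfold termP
      exact ((dvd_pow h3 two_ne_zero).mul_left _).mul_left _
    · push Not at h2
      obtain ⟨t, ht⟩ : ∃ t, k = 3 * f * j + t := ⟨k - 3 * f * j, by
        have : 3 * f * j ≤ (3 * j + 2) * f := by nlinarith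
        omega⟩
      have h3 : 2 * f ≤ t := by nlinarith
      have h4 : t < 3 * f := by nlinarith
      apply dvd_of_gauss1 (by omega)
      rw [ht, Nat.mul_add_mod, Nat.mod_eq_of_lt (by omega)]
      omega

/-! ### `d` prime to six -/

theorem V_pp {d : ℕ} (hd : 0 < d) (g : ℕ) (hg : 0 < g) (hc : Nat.Coprime d g) (m : ℕ) :
    V (cyclotomic d ℤ) (poch (q ^ g) (q ^ g) m) ((m / d : ℕ) : ℤ) := by
  have h := V_poch hd g g hg m
  rwa [sum_delta d g d (fun j => hc.dvd_mul_left) m] at h

theorem V_half {d : ℕ} (hd : 0 < d) (g : ℕ) (hg : 0 < g) (hc : Nat.Coprime d g)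
    (hc2 : Nat.Coprime d (2 * g)) (m : ℕ) :
    V (cyclotomic d ℤ) (poch (q ^ g) (q ^ (2 * g)) m)
      (((2 * m) / d : ℕ) - ((m / d : ℕ) : ℤ)) := by
  have hp := cyc_prime hd
  have h1 := V_pp hd g hg hc (2 * m)
  have h2 := V_pp hd (2 * g) (by omega) hc2 m
  have h3 := h1.div hp h2
  rw [split g m, mul_div_assoc, div_self (poch_q_ne _ _ (by omega) _), mul_one] at h3
  exact h3

theorem V_neg {d : ℕ} (hd : 0 < d) (hc2 : Nat.Coprime d 2) (m : ℕ) :
    V (cyclotomic d ℤ) (poch (-q) q m) 0 := by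
  have hp := cyc_prime hd
  have h1 := V_pp hd 2 (by norm_num) hc2 m
  have h2 := V_pp hd 1 (by norm_num) (Nat.coprime_one_right d) m
  rw [pow_one] at h2
  have h3 := h1.div hp h2
  rw [← neg_mul_qq m, mul_div_assoc, div_self (qq_ne m), mul_one, sub_self] at h3
  exact h3

theorem V_Cn {d : ℕ} (hd : 0 < d) (hc2 : Nat.Coprime d 2) (hc6 : Nat.Coprime d 6) (n : ℕ) :
    V (cyclotomic d ℤ) (Cn n) 0 := by
  have hp := cyc_prime hd
  have h6 := (V_pp hd 6 (by norm_num) hc6 n).pow hp 2
  have h2 := (V_pp hd 2 (by norm_num) hc2 n).pow hp 2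
  have h3 := (V_neg hd hc2 n).pow hp 4
  have h4 := (V_neg hd hc2 (2 * n)).pow hp 2
  have h := ((h6.mul hp h3).mul hp h4).div hp h2
  unfold Cn
  have e : ((2 : ℕ) : ℤ) * ((n / d : ℕ) : ℤ) + ((4 : ℕ) : ℤ) * 0 + ((2 : ℕ) : ℤ) * 0 -
      ((2 : ℕ) : ℤ) * ((n / d : ℕ) : ℤ) = 0 := by ring
  rw [e] at h
  exact h

theorem V_G {d : ℕ} (hd : 5 ≤ d) (hc2 : Nat.Coprime d 2) (hc3 : Nat.Coprime d 3)
    (hc6 : Nat.Coprime d 6) (m k : ℕ) :
    V (cyclotomic d ℤ) (G (m + k + 1) k)
      (2 * δ d (6 * (m + k + 1)) + 2 * (((2 * m) / d : ℕ) - ((m / d : ℕ) : ℤ)) +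
        (((4 * m + 6 * k + 4) / d : ℕ) - (((2 * m + 3 * k + 2) / d : ℕ) : ℤ)) -
        (((2 * m) / d : ℕ) + 2 * (((m + k + 1) / d : ℕ) : ℤ) +
          (((2 * k + 2) / d : ℕ) - (((k + 1) / d : ℕ) : ℤ)))) := by
  have hd0 : 0 < d := by omega
  have hp := cyc_prime hd0
  unfold G
  have hk : k + 1 ≤ m + k + 1 := by omega
  have e1 : m + k + 1 - (k + 1) = m := by omega
  have e2 : 2 * (m + k + 1) + k = 2 * m + 3 * k + 2 := by ring
  rw [if_pos hk, e1, e2]
  have hc1 := Nat.coprime_one_right d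
  have a1 := (V_one_sub hd0 (j := 6 * (m + k + 1)) (by omega)).pow hp 2
  have a2 := V_one_sub hd0 (j := 1) one_pos
  have a3 := (V_q hd0 hd0.ne').pow hp (2 * m ^ 2)
  have a4 := (V_half hd0 1 one_pos hc1 hc2 m).pow hp 2
  have a5 := V_half hd0 1 one_pos hc1 hc2 (2 * m + 3 * k + 2)
  have a6 := V_pp hd0 2 (by norm_num) hc2 (2 * m)
  have a7 := (V_pp hd0 6 (by norm_num) hc6 (m + k + 1)).pow hp 2
  have a8 := V_half hd0 3 (by norm_num) hc3 hc6 (k + 1)
  have h := ((((a1.div hp a2).mul hp a3).mul hp a4).mul hp a5).div hp ((a6.mul hp a7).mul hp a8)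
  have hδ1 : δ d 1 = 0 := by
    unfold δ
    rw [if_neg]
    intro h1
    have := Nat.dvd_one.1 h1
    omega
  rw [hδ1] at h
  rw [pow_one] at h
  have h' := h.neg_one hp
  have s1 : 2 * (2 * m + 3 * k + 2) = 4 * m + 6 * k + 4 := by ring
  have s2 : 2 * (k + 1) = 2 * k + 2 := by ring
  rw [s1, s2] at h'
  push_cast at h' ⊢
  convert h' using 1
  · rw [pow_one]
  · ring

theorem coprime_case (n d : ℕ) (hd : 5 ≤ d) (hc2 : Nat.Coprime d 2) (hc3 : Nat.Coprime d 3)
    (h : d ≤ 3 * (n % d)) : cyclotomic d ℤ ∣ FP n := by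
  have hd0 : 0 < d := by omega
  have hp := cyc_prime hd0
  have hc6 : Nat.Coprime d 6 := Nat.Coprime.mul_right hc2 hc3
  have hodd : d % 2 = 1 := by
    have := Nat.coprime_two_right.1 hc2
    exact Nat.odd_iff.1 this
  have hI : I (cyclotomic d ℤ) (ι (FP n)) ((1 : ℕ) : ℤ) := by
    rw [FP_eq]
    have e : ∑ k ∈ range (n + 1), term n k = Cn n * ∑ k ∈ range (n + 1), -G (n + 1) k := by
      rw [← sum_eq (n + 1), Finset.mul_sum]
      exact Finset.sum_congr rfl fun k _ => term_eq n k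
    rw [e]
    have h0 : I (cyclotomic d ℤ) (Cn n) 0 := (V_Cn hd0 hc2 hc6 n).toI hp le_rfl
    have h1 : I (cyclotomic d ℤ) (∑ k ∈ range (n + 1), -G (n + 1) k) ((1 : ℕ) : ℤ) := by
      apply I.sum hp
      intro k hk
      rw [Finset.mem_range] at hk
      obtain ⟨m, rfl⟩ : ∃ m, n = m + k := ⟨n - k, by omega⟩
      apply I.neg
      refine (V_G hd hc2 hc3 hc6 m k).toI hp ?_
      have hfl := floorQ m k d hd hodd h
      have hsucc : (m + k + 1) / d = (m + k) / d + if d ∣ m + k + 1 then 1 else 0 :=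
        Nat.succ_div
      have hδ : δ d (6 * (m + k + 1)) = if d ∣ m + k + 1 then 1 else 0 := by
        unfold δ
        simp only [hc6.dvd_mul_left]
      rw [hδ, hsucc]
      clear hsucc hδ
      generalize (2 * m) / d = a1 at *
      generalize m / d = a2 at *
      generalize (4 * m + 6 * k + 4) / d = a3 at *
      generalize (2 * m + 3 * k + 2) / d = a4 at *
      generalize (m + k) / d = a5 at *
      generalize (2 * k + 2) / d = a6 at *
      generalize (k + 1) / d = a7 at *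
      split_ifs <;> omega
    have := h0.mul hp h1
    simpa using this
  have := hI.dvd hp
  simpa using this

/-- the cyclotomic factors -/
theorem cyc_dvd (n d : ℕ) (hd : 0 < d) (h : d ≤ 3 * (n % d)) : cyclotomic d ℤ ∣ FP n := by
  rcases Nat.even_or_odd' d with ⟨e, he | he⟩
  · subst he
    exact even_case n e (by omega) h
  · by_cases h3 : 3 ∣ d
    · obtain ⟨f, hf⟩ := h3
      subst hf
      exact three_case n f (by omega) (by omega) h
    · have hc2 : Nat.Coprime d 2 := by
        rw [Nat.coprime_two_right, Nat.odd_iff]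
        omega
      have hc3 : Nat.Coprime d 3 := by
        rw [Nat.coprime_comm]
        exact (Nat.Prime.coprime_iff_not_dvd Nat.prime_three).2 h3
      have hd5 : 5 ≤ d := by
        by_contra hcon
        have : d = 1 ∨ d = 3 := by omega
        rcases this with h1 | h1
        · subst h1
          rw [Nat.mod_one] at h
          omega
        · subst h1
          exact h3 (dvd_refl 3)
      exact coprime_case n d hd5 hc2 hc3 h

theorem main (n : ℕ) : gaussP (2 * n) n ∣ FP n ∧ gaussP (3 * n) n ∣ FP n := by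
  have hdm : ∀ c d : ℕ, 0 < d → (c * n) / d = c * (n / d) + (c * (n % d)) / d := by
    intro c d hd
    conv_lhs => rw [← Nat.div_add_mod n d]
    rw [show c * (d * (n / d) + n % d) = d * (c * (n / d)) + c * (n % d) by ring,
      Nat.mul_add_div hd]
  have hmod : ∀ d : ℕ, 0 < d → n % d < d := fun d hd => Nat.mod_lt _ hd
  constructor
  · apply gaussP_dvd
    · intro d hd
      have e : 2 * n - n = n := by omega
      rw [e, hdm 2 d hd]
      have : 2 * (n % d) / d < 2 := Nat.div_lt_of_lt_mul (by have := hmod d hd; omega)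
      omega
    · intro d hd hlt
      have e : 2 * n - n = n := by omega
      rw [e, hdm 2 d hd] at hlt
      apply cyc_dvd n d hd
      by_contra hcon
      push Not at hcon
      have : 2 * (n % d) / d = 0 := Nat.div_eq_of_lt (by omega)
      omega
  · apply gaussP_dvd
    · intro d hd
      have e : 3 * n - n = 2 * n := by omega
      rw [e, hdm 2 d hd, hdm 3 d hd]
      have h1 : 3 * (n % d) / d < 3 := Nat.div_lt_of_lt_mul (by have := hmod d hd; omega)
      by_cases h2 : 2 * d ≤ 3 * (n % d)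
      · have : 1 ≤ 2 * (n % d) / d := (Nat.le_div_iff_mul_le hd).2 (by omega)
        omega
      · have : 3 * (n % d) / d < 2 := Nat.div_lt_of_lt_mul (by omega)
        have h3 := Nat.zero_le (2 * (n % d) / d)
        omega
    · intro d hd hlt
      have e : 3 * n - n = 2 * n := by omega
      rw [e, hdm 2 d hd, hdm 3 d hd] at hlt
      apply cyc_dvd n d hd
      by_contra hcon
      push Not at hcon
      have : 3 * (n % d) / d = 0 := Nat.div_eq_of_lt (by omega)
      have h2 := Nat.zero_le (2 * (n % d) / d)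
      omega

end Q266.QEight
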