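import Mathlib
import Pool.Agent.Q266.FacDvd
import Pool.Agent.Q266.FacVal

/-!
Integral factorial quotients behind the `28k^2+18k+3` sum.
-/

namespace Q266.Quint

open Finset Q266.FacDvd Q266.FacVal

theorem floor147 (r k q : ℕ) (hq : 2 ≤ q) :
    k / q + ((r + k) / q + ((r + k) / q + ((r + 3 * k + 1) / q + ((r + 2 * k) / q +
      ((2 * r + 4 * k + 3) / q + r / q)))))
      ≤ (2 * k) / q + ((2 * r + 2 * k) / q + ((2 * r + 2 * k) / q + (3 * r + 6 * k + 3) / q)) := by
  have hq0 : 0 < q := by omega
  have hr : r % q < q := Nat.mod_lt _ hq0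
  have hs : k % q < q := Nat.mod_lt _ hq0
  have en := Nat.div_add_mod r q
  have ek := Nat.div_add_mod k q
  generalize r % q = s at *
  generalize k % q = t at *
  generalize r / q = x at *
  generalize k / q = y at *
  subst en
  subst ek
  have t1 : (2 * (q * y + t)) / q = 2 * y + (2 * t) / q := by
    rw [show 2 * (q * y + t) = q * (2 * y) + (2 * t) by ring, Nat.mul_add_div hq0]
  have t2 : (2 * (q * x + s) + 4 * (q * y + t) + 3) / q
      = 2 * x + 4 * y + (2 * s + 4 * t + 3) / q := by
    rw [show 2 * (q * x + s) + 4 * (q * y + t) + 3 = q * (2 * x + 4 * y) + (2 * s + 4 * t + 3) by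
      ring, Nat.mul_add_div hq0]
  have t3 : (q * x + s + (q * y + t)) / q = x + y + (s + t) / q := by
    rw [show q * x + s + (q * y + t) = q * (x + y) + (s + t) by ring, Nat.mul_add_div hq0]
  have t4 : (2 * (q * x + s) + 2 * (q * y + t)) / q = 2 * x + 2 * y + (2 * s + 2 * t) / q := by
    rw [show 2 * (q * x + s) + 2 * (q * y + t) = q * (2 * x + 2 * y) + (2 * s + 2 * t) by ring,
      Nat.mul_add_div hq0]
  have t5 : (3 * (q * x + s) + 6 * (q * y + t) + 3) / q
      = 3 * x + 6 * y + (3 * s + 6 * t + 3) / q := by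
    rw [show 3 * (q * x + s) + 6 * (q * y + t) + 3 = q * (3 * x + 6 * y) + (3 * s + 6 * t + 3) by
      ring, Nat.mul_add_div hq0]
  have t6 : (q * x + s + 3 * (q * y + t) + 1) / q = x + 3 * y + (s + 3 * t + 1) / q := by
    rw [show q * x + s + 3 * (q * y + t) + 1 = q * (x + 3 * y) + (s + 3 * t + 1) by ring,
      Nat.mul_add_div hq0]
  have t7 : (q * x + s + 2 * (q * y + t)) / q = x + 2 * y + (s + 2 * t) / q := by
    rw [show q * x + s + 2 * (q * y + t) = q * (x + 2 * y) + (s + 2 * t) by ring,
      Nat.mul_add_div hq0]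
  rw [t1, t2, t3, t4, t5, t6, t7]
  clear t1 t2 t3 t4 t5 t6 t7
  have d1 : (2 * t) / q < 2 := Nat.div_lt_of_lt_mul (by omega)
  have d2 : (2 * s + 4 * t + 3) / q < 6 := Nat.div_lt_of_lt_mul (by omega)
  have d3 : (s + t) / q < 2 := Nat.div_lt_of_lt_mul (by omega)
  have d4 : (2 * s + 2 * t) / q < 4 := Nat.div_lt_of_lt_mul (by omega)
  have d5 : (3 * s + 6 * t + 3) / q < 9 := Nat.div_lt_of_lt_mul (by omega)
  have d6 : (s + 3 * t + 1) / q < 4 := Nat.div_lt_of_lt_mul (by omega)
  have d7 : (s + 2 * t) / q < 3 := Nat.div_lt_of_lt_mul (by omega)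
  have u1 := Nat.lt_div_mul_add (a := 2 * t) hq0
  have u2 := Nat.div_mul_le_self (2 * s + 4 * t + 3) q
  have u3 := Nat.div_mul_le_self (s + t) q
  have u4 := Nat.lt_div_mul_add (a := 2 * s + 2 * t) hq0
  have u5 := Nat.lt_div_mul_add (a := 3 * s + 6 * t + 3) hq0
  have u6 := Nat.div_mul_le_self (s + 3 * t + 1) q
  have u7 := Nat.div_mul_le_self (s + 2 * t) q
  generalize (2 * t) / q = e1 at *
  generalize (2 * s + 4 * t + 3) / q = e2 at *
  generalize (s + t) / q = e3 at *
  generalize (2 * s + 2 * t) / q = e4 at *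
  generalize (3 * s + 6 * t + 3) / q = e5 at *
  generalize (s + 3 * t + 1) / q = e6 at *
  generalize (s + 2 * t) / q = e7 at *
  suffices h : 2 * e3 + e6 + e7 + e2 ≤ e1 + 2 * e4 + e5 by omega
  clear x y
  by_contra hcon
  push Not at hcon
  interval_cases e1 <;> interval_cases e4 <;> interval_cases e5 <;> first
    | omega
    | (interval_cases e3 <;> interval_cases e7 <;> first
      | omega
      | (interval_cases e6 <;> first
        | omega
        | (interval_cases e2 <;> omega)))

/-- two-adic part -/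
theorem two_part (r k : ℕ) (h : 1 ≤ r + 2 * k) :
    v k + (v (r + k) + (v (r + k) + (v (r + 3 * k + 1) + (v (r + 2 * k) +
      (v (2 * r + 4 * k + 3) + v r))))) + 2
      ≤ v (2 * k) + (v (2 * r + 2 * k) + (v (2 * r + 2 * k) + v (3 * r + 6 * k + 3))) := by
  have a1 := v_double k
  have a2 := v_double (r + k)
  have a3 := v_succ_double (r + 2 * k + 1)
  rw [show 2 * (r + k) = 2 * r + 2 * k by ring] at a2
  rw [show 2 * (r + 2 * k + 1) + 1 = 2 * r + 4 * k + 3 by ring] at a3
  rw [a1, a2, a3]
  rcases Nat.eq_zero_or_pos r with h0 | h0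
  · subst h0
    have hk : k ≠ 0 := by omega
    have b1 := v_succ_double (3 * k + 1)
    have b2 := v_double k
    have b3 := v_succ_double k
    have b4 := v_lt k hk
    rw [show 2 * (3 * k + 1) + 1 = 3 * 0 + 6 * k + 3 by ring] at b1
    rw [b1]
    simp only [zero_add]
    rw [b2, b3, v_zero]
    omega
  · -- `n = r + 2k + 1`
    have c1 : v (r + 2 * k + 1) + v (2 * (r + 2 * k + 1)) ≤ v (3 * r + 6 * k + 3) := by
      have := v_add_le (r + 2 * k + 1) (2 * (r + 2 * k + 1))
      rwa [show r + 2 * k + 1 + 2 * (r + 2 * k + 1) = 3 * r + 6 * k + 3 by ring] at this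
    rw [v_double] at c1
    have c2 := v_lt (r + 3 * k + 1) (by omega)
    have c3 := v_lt r (by omega)
    have hmono : v (r + 2 * k) ≤ v (r + 2 * k + 1) := by
      have := v_add_le (r + 2 * k) 1
      rwa [v_one, add_zero] at this
    rcases Nat.even_or_odd' (r + 2 * k + 1) with ⟨j, hj | hj⟩
    · -- `n` even
      have hlt : v (r + 2 * k) < v (r + 2 * k + 1) := by
        obtain ⟨i, rfl⟩ : ∃ i, j = i + 1 := ⟨j - 1, by omega⟩
        have g1 := v_succ_double i
        have g2 := v_double (i + 1)
        have g3 := v_add_le i 1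
        rw [v_one, add_zero] at g3
        rw [hj, g2, show r + 2 * k = 2 * i + 1 by omega, g1]
        omega
      omega
    · by_cases hp1 : ∀ a : ℕ, r + 3 * k + 1 ≠ 2 ^ a
      · have := v_add_two_le (r + 3 * k + 1) (by omega) hp1
        omega
      · by_cases hp2 : ∀ b : ℕ, r ≠ 2 ^ b
        · have := v_add_two_le r (by omega) hp2
          omega
        · push Not at hp1 hp2
          obtain ⟨a, ha⟩ := hp1
          obtain ⟨b, hb⟩ := hp2
          -- `3n = 2^(a+1) + 2^b + 1`
          have g1 : 3 * r + 6 * k + 3 = 2 ^ (a + 1) + 2 ^ b + 1 := by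
            rw [pow_succ, ← ha, ← hb]; ring
          have g2 := v_two_pow (a + 1)
          have g3 := v_two_pow b
          have g4 := v_add_le (2 ^ (a + 1)) (2 ^ b)
          have g5 := v_add_le (2 ^ (a + 1) + 2 ^ b) 1
          rw [v_one, add_zero] at g5
          have g6 : v (r + 2 * k + 1) + 2 ≤ r + 2 * k + 1 := by
            apply v_add_two_le _ (by omega)
            intro c hc
            rcases Nat.eq_zero_or_pos c with h1 | h1
            · subst h1
              rw [pow_zero] at hc
              omega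
            · obtain ⟨c', rfl⟩ : ∃ c', c = c' + 1 := ⟨c - 1, by omega⟩
              rw [pow_succ] at hc
              omega
          rw [g1]
          generalize 2 ^ (a + 1) = x at *
          generalize 2 ^ b = y at *
          omega

def A (r k : ℕ) : List ℕ :=
  [k, r + k, r + k, r + 3 * k + 1, r + 2 * k, 2 * r + 4 * k + 3, r]
def B (r k : ℕ) : List ℕ := [2 * k, 2 * r + 2 * k, 2 * r + 2 * k, 3 * r + 6 * k + 3]

/-- the quotient is a multiple of four -/
theorem exists_four (r k : ℕ) (h : 1 ≤ r + 2 * k) : ∃ ρ : ℕ,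
    ((A r k).map Nat.factorial).prod * (4 * ρ) = ((B r k).map Nat.factorial).prod := by
  obtain ⟨c, hc⟩ := fac_dvd (A r k) (B r k) (fun q hq => by
    simpa [A, B] using floor147 r k q hq)
  have hc0 : c ≠ 0 := by
    rintro rfl
    rw [mul_zero] at hc
    exact prod_fac_ne _ hc
  have h4 : 2 ^ 2 ∣ c := by
    rw [Nat.prime_two.pow_dvd_iff_le_factorization hc0]
    have h1 := congrArg (fun t : ℕ => t.factorization 2) hc
    simp only [Nat.factorization_mul (prod_fac_ne _) hc0, Finsupp.add_apply] at h1
    have hA : (((A r k).map Nat.factorial).prod).factorization 2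
        = v k + (v (r + k) + (v (r + k) + (v (r + 3 * k + 1) + (v (r + 2 * k) +
          (v (2 * r + 4 * k + 3) + v r))))) := by
      have n1 := Nat.factorial_ne_zero k
      have n2 := Nat.factorial_ne_zero (r + k)
      have n3 := Nat.factorial_ne_zero (r + 3 * k + 1)
      have n4 := Nat.factorial_ne_zero (r + 2 * k)
      have n5 := Nat.factorial_ne_zero (2 * r + 4 * k + 3)
      have n6 := Nat.factorial_ne_zero r
      simp only [A, List.map_cons, List.map_nil, List.prod_cons, List.prod_nil, mul_one]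
      rw [Nat.factorization_mul n1 (by positivity), Nat.factorization_mul n2 (by positivity),
        Nat.factorization_mul n2 (by positivity), Nat.factorization_mul n3 (by positivity),
        Nat.factorization_mul n4 (by positivity), Nat.factorization_mul n5 n6]
      rfl
    have hB : (((B r k).map Nat.factorial).prod).factorization 2
        = v (2 * k) + (v (2 * r + 2 * k) + (v (2 * r + 2 * k) + v (3 * r + 6 * k + 3))) := by
      have n1 := Nat.factorial_ne_zero (2 * k)
      have n2 := Nat.factorial_ne_zero (2 * r + 2 * k)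
      have n3 := Nat.factorial_ne_zero (3 * r + 6 * k + 3)
      simp only [B, List.map_cons, List.map_nil, List.prod_cons, List.prod_nil, mul_one]
      rw [Nat.factorization_mul n1 (by positivity), Nat.factorization_mul n2 (by positivity),
        Nat.factorization_mul n2 n3]
      rfl
    rw [hA, hB] at h1
    have := two_part r k h
    omega
  obtain ⟨ρ, hρ⟩ := h4
  refine ⟨ρ, ?_⟩
  rw [hc, hρ]
  norm_num

end Q266.Quint
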