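import Mathlib
import Pool.Agent.Q266.FacDvd
import Pool.Agent.Q266.FacVal

/-!
Floor inequalities behind the integrality of the normalised `(8j+1)` sum at `2304`.
-/

namespace Q266.RamB

open Finset Q266.FacDvd Q266.FacVal

theorem floorB1 (u k q : ℕ) (hq : 5 ≤ q) :
    (2 * k + 1) / q + (u / q + (u / q + ((2 * u + 3 * k + 2) / q + ((2 * u + 2 * k + 3) / q +
      (u + k) / q))))
      ≤ k / q + ((2 * u) / q + ((4 * u + 6 * k + 4) / q + (u + k + 1) / q)) := by
  have hq0 : 0 < q := by omega
  have hr : u % q < q := Nat.mod_lt _ hq0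
  have hs : k % q < q := Nat.mod_lt _ hq0
  have en := Nat.div_add_mod u q
  have ek := Nat.div_add_mod k q
  generalize u % q = s at *
  generalize k % q = t at *
  generalize u / q = x at *
  generalize k / q = y at *
  subst en
  subst ek
  have t1 : (2 * (q * y + t) + 1) / q = 2 * y + (2 * t + 1) / q := by
    rw [show 2 * (q * y + t) + 1 = q * (2 * y) + (2 * t + 1) by ring, Nat.mul_add_div hq0]
  have t2 : (2 * (q * x + s) + 3 * (q * y + t) + 2) / q
      = 2 * x + 3 * y + (2 * s + 3 * t + 2) / q := by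
    rw [show 2 * (q * x + s) + 3 * (q * y + t) + 2 = q * (2 * x + 3 * y) + (2 * s + 3 * t + 2) by
      ring, Nat.mul_add_div hq0]
  have t3 : (2 * (q * x + s) + 2 * (q * y + t) + 3) / q
      = 2 * x + 2 * y + (2 * s + 2 * t + 3) / q := by
    rw [show 2 * (q * x + s) + 2 * (q * y + t) + 3 = q * (2 * x + 2 * y) + (2 * s + 2 * t + 3) by
      ring, Nat.mul_add_div hq0]
  have t4 : (q * x + s + (q * y + t)) / q = x + y + (s + t) / q := by
    rw [show q * x + s + (q * y + t) = q * (x + y) + (s + t) by ring, Nat.mul_add_div hq0]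
  have t5 : (2 * (q * x + s)) / q = 2 * x + (2 * s) / q := by
    rw [show 2 * (q * x + s) = q * (2 * x) + (2 * s) by ring, Nat.mul_add_div hq0]
  have t6 : (4 * (q * x + s) + 6 * (q * y + t) + 4) / q
      = 4 * x + 6 * y + (4 * s + 6 * t + 4) / q := by
    rw [show 4 * (q * x + s) + 6 * (q * y + t) + 4 = q * (4 * x + 6 * y) + (4 * s + 6 * t + 4) by
      ring, Nat.mul_add_div hq0]
  have t7 : (q * x + s + (q * y + t) + 1) / q = x + y + (s + t + 1) / q := by
    rw [show q * x + s + (q * y + t) + 1 = q * (x + y) + (s + t + 1) by ring, Nat.mul_add_div hq0]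
  rw [t1, t2, t3, t4, t5, t6, t7]
  clear t1 t2 t3 t4 t5 t6 t7
  have d1 : (2 * t + 1) / q < 2 := Nat.div_lt_of_lt_mul (by omega)
  have d2 : (2 * s + 3 * t + 2) / q < 5 := Nat.div_lt_of_lt_mul (by omega)
  have d3 : (2 * s + 2 * t + 3) / q < 4 := Nat.div_lt_of_lt_mul (by omega)
  have d4 : (s + t) / q < 2 := Nat.div_lt_of_lt_mul (by omega)
  have d5 : (2 * s) / q < 2 := Nat.div_lt_of_lt_mul (by omega)
  have d6 : (4 * s + 6 * t + 4) / q < 10 := Nat.div_lt_of_lt_mul (by omega)
  have d7 : (s + t + 1) / q < 2 := Nat.div_lt_of_lt_mul (by omega)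
  have u1 := Nat.div_mul_le_self (2 * t + 1) q
  have u2 := Nat.div_mul_le_self (2 * s + 3 * t + 2) q
  have u3 := Nat.div_mul_le_self (2 * s + 2 * t + 3) q
  have u4 := Nat.div_mul_le_self (s + t) q
  have u5 := Nat.lt_div_mul_add (a := 2 * s) hq0
  have u6 := Nat.lt_div_mul_add (a := 4 * s + 6 * t + 4) hq0
  have u7 := Nat.lt_div_mul_add (a := s + t + 1) hq0
  generalize (2 * t + 1) / q = e1 at *
  generalize (2 * s + 3 * t + 2) / q = e2 at *
  generalize (2 * s + 2 * t + 3) / q = e3 at *
  generalize (s + t) / q = e4 at *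
  generalize (2 * s) / q = e5 at *
  generalize (4 * s + 6 * t + 4) / q = e6 at *
  generalize (s + t + 1) / q = e7 at *
  suffices h : e1 + e2 + e3 + e4 ≤ e5 + e6 + e7 by omega
  clear x y
  by_contra hcon
  push Not at hcon
  interval_cases e5 <;> interval_cases e7 <;> interval_cases e6 <;> first
    | omega
    | (interval_cases e2 <;> first
      | omega
      | (interval_cases e1 <;> interval_cases e3 <;> first
        | omega
        | (interval_cases e4 <;> omega)))

/-- relation between the quotients and remainders of `m + k + 1 = 2 u` -/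
theorem rel_cases (q x y z s t w : ℕ) (hs : s < q) (ht : t < q) (hw : w < q)
    (h : q * z + w + (q * y + t) + 1 = 2 * (q * x + s)) :
    (z + y + 1 = 2 * x ∧ q + 2 * s = w + t + 1) ∨ (z + y = 2 * x ∧ w + t + 1 = 2 * s) ∨
      (z + y = 2 * x + 1 ∧ q + w + t + 1 = 2 * s) := by
  have h1 : 2 * x ≤ z + y + 1 := by
    by_contra hcon
    push Not at hcon
    have h2 := Nat.mul_le_mul_left q (Nat.succ_le_of_lt hcon)
    nlinarith
  have h3 : z + y ≤ 2 * x + 1 := by
    by_contra hcon
    push Not at hcon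
    have h2 := Nat.mul_le_mul_left q (Nat.succ_le_of_lt hcon)
    nlinarith
  rcases (by omega : z + y + 1 = 2 * x ∨ z + y = 2 * x ∨ z + y = 2 * x + 1) with h4 | h4 | h4
  · refine Or.inl ⟨h4, ?_⟩
    have h5 : q * (z + y + 1) = q * (2 * x) := by rw [h4]
    nlinarith
  · refine Or.inr (Or.inl ⟨h4, ?_⟩)
    have h5 : q * (z + y) = q * (2 * x) := by rw [h4]
    nlinarith
  · refine Or.inr (Or.inr ⟨h4, ?_⟩)
    have h5 : q * (z + y) = q * (2 * x + 1) := by rw [h4]
    nlinarith

theorem floorB3 (u k m q : ℕ) (hm : m + k + 1 = 2 * u) (hq : 3 ≤ q) (hodd : q % 2 = 1) :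
    k / q + ((2 * u + 2 * k) / q + (m / q + ((2 * u + 2 * k + 3) / q + (u / q + u / q))))
      ≤ (2 * k) / q + ((2 * u + 2 * k + 1) / q + ((2 * m) / q + (2 * u + 2 * k + 2) / q)) + 1 := by
  have hq0 : 0 < q := by omega
  have hr : u % q < q := Nat.mod_lt _ hq0
  have hs : k % q < q := Nat.mod_lt _ hq0
  have hw : m % q < q := Nat.mod_lt _ hq0
  have en := Nat.div_add_mod u q
  have ek := Nat.div_add_mod k q
  have em := Nat.div_add_mod m q
  generalize u % q = s at *
  generalize k % q = t at *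
  generalize m % q = w at *
  generalize u / q = x at *
  generalize k / q = y at *
  generalize m / q = z at *
  subst en
  subst ek
  subst em
  have hrel := rel_cases q x y z s t w hr hs hw hm
  have t2 : (2 * (q * x + s) + 2 * (q * y + t)) / q
      = 2 * x + 2 * y + (2 * s + 2 * t) / q := by
    rw [show 2 * (q * x + s) + 2 * (q * y + t) = q * (2 * x + 2 * y) + (2 * s + 2 * t) by
      ring, Nat.mul_add_div hq0]
  have t3 : (2 * (q * x + s) + 2 * (q * y + t) + 3) / q
      = 2 * x + 2 * y + (2 * s + 2 * t + 3) / q := by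
    rw [show 2 * (q * x + s) + 2 * (q * y + t) + 3 = q * (2 * x + 2 * y) + (2 * s + 2 * t + 3) by
      ring, Nat.mul_add_div hq0]
  have t4 : (2 * (q * x + s) + 2 * (q * y + t) + 1) / q
      = 2 * x + 2 * y + (2 * s + 2 * t + 1) / q := by
    rw [show 2 * (q * x + s) + 2 * (q * y + t) + 1 = q * (2 * x + 2 * y) + (2 * s + 2 * t + 1) by
      ring, Nat.mul_add_div hq0]
  have t5 : (2 * (q * x + s) + 2 * (q * y + t) + 2) / q
      = 2 * x + 2 * y + (2 * s + 2 * t + 2) / q := by
    rw [show 2 * (q * x + s) + 2 * (q * y + t) + 2 = q * (2 * x + 2 * y) + (2 * s + 2 * t + 2) by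
      ring, Nat.mul_add_div hq0]
  have t6 : (2 * (q * y + t)) / q = 2 * y + (2 * t) / q := by
    rw [show 2 * (q * y + t) = q * (2 * y) + (2 * t) by ring, Nat.mul_add_div hq0]
  have t7 : (2 * (q * z + w)) / q = 2 * z + (2 * w) / q := by
    rw [show 2 * (q * z + w) = q * (2 * z) + (2 * w) by ring, Nat.mul_add_div hq0]
  rw [t2, t3, t4, t5, t6, t7]
  clear t2 t3 t4 t5 t6 t7
  have d2 : (2 * s + 2 * t) / q < 4 := Nat.div_lt_of_lt_mul (by omega)
  have d3 : (2 * s + 2 * t + 3) / q < 5 := Nat.div_lt_of_lt_mul (by omega)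
  have d4 : (2 * s + 2 * t + 1) / q < 4 := Nat.div_lt_of_lt_mul (by omega)
  have d5 : (2 * s + 2 * t + 2) / q < 4 := Nat.div_lt_of_lt_mul (by omega)
  have d6 : (2 * t) / q < 2 := Nat.div_lt_of_lt_mul (by omega)
  have d7 : (2 * w) / q < 2 := Nat.div_lt_of_lt_mul (by omega)
  have u2 := Nat.div_mul_le_self (2 * s + 2 * t) q
  have u3 := Nat.div_mul_le_self (2 * s + 2 * t + 3) q
  have u4 := Nat.lt_div_mul_add (a := 2 * s + 2 * t + 1) hq0
  have u5 := Nat.lt_div_mul_add (a := 2 * s + 2 * t + 2) hq0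
  have u6 := Nat.lt_div_mul_add (a := 2 * t) hq0
  have u7 := Nat.lt_div_mul_add (a := 2 * w) hq0
  have v1 : (2 * s + 2 * t) / q ≤ (2 * s + 2 * t + 1) / q := Nat.div_le_div_right (by omega)
  have v2 : (2 * s + 2 * t + 1) / q ≤ (2 * s + 2 * t + 2) / q := Nat.div_le_div_right (by omega)
  have v3 : (2 * s + 2 * t + 2) / q ≤ (2 * s + 2 * t + 3) / q := Nat.div_le_div_right (by omega)
  generalize (2 * s + 2 * t) / q = e2 at *
  generalize (2 * s + 2 * t + 3) / q = e3 at *
  generalize (2 * s + 2 * t + 1) / q = e4 at *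
  generalize (2 * s + 2 * t + 2) / q = e5 at *
  generalize (2 * t) / q = e6 at *
  generalize (2 * w) / q = e7 at *
  suffices h : 2 * x + e2 + e3 ≤ y + z + e6 + e4 + e7 + e5 + 1 by omega
  by_contra hcon
  push Not at hcon
  rcases hrel with ⟨ha, hb⟩ | ⟨ha, hb⟩ | ⟨ha, hb⟩
  · have hcon2 : e6 + e4 + e7 + e5 < e2 + e3 := by omega
    clear ha hcon x y z hm
    interval_cases e6 <;> interval_cases e7 <;> interval_cases e2 <;> interval_cases e3 <;> first
      | omega
      | (interval_cases e4 <;> first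
        | omega
        | (interval_cases e5 <;> omega))
  · have hcon2 : e6 + e4 + e7 + e5 + 1 < e2 + e3 := by omega
    clear ha hcon x y z hm
    interval_cases e6 <;> interval_cases e7 <;> interval_cases e2 <;> interval_cases e3 <;> first
      | omega
      | (interval_cases e4 <;> first
        | omega
        | (interval_cases e5 <;> omega))
  · have hcon2 : e6 + e4 + e7 + e5 + 2 < e2 + e3 := by omega
    clear ha hcon x y z hm
    interval_cases e6 <;> interval_cases e7 <;> interval_cases e2 <;> interval_cases e3 <;> first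
      | omega
      | (interval_cases e4 <;> first
        | omega
        | (interval_cases e5 <;> omega))

/-- no deficit at the levels `q > 6k + 3` with `q` an odd multiple of three -/
theorem floorB3' (u k m q : ℕ) (hm : m + k + 1 = 2 * u) (hq : 6 * k + 3 < q) (hodd : q % 6 = 3) :
    k / q + ((2 * u + 2 * k) / q + (m / q + ((2 * u + 2 * k + 3) / q + (u / q + u / q))))
      ≤ (2 * k) / q + ((2 * u + 2 * k + 1) / q + ((2 * m) / q + (2 * u + 2 * k + 2) / q)) := by
  have hq0 : 0 < q := by omega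
  have hr : u % q < q := Nat.mod_lt _ hq0
  have hw : m % q < q := Nat.mod_lt _ hq0
  have en := Nat.div_add_mod u q
  have em := Nat.div_add_mod m q
  have ek : k / q = 0 := Nat.div_eq_of_lt (by omega)
  have ek2 : (2 * k) / q = 0 := Nat.div_eq_of_lt (by omega)
  rw [ek, ek2]
  generalize u % q = s at *
  generalize m % q = w at *
  generalize u / q = x at *
  generalize m / q = z at *
  subst en
  subst em
  have hrel := rel_cases q x 0 z s k w hr (by omega) hw (by simpa using hm)
  have t2 : (2 * (q * x + s) + 2 * k) / q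
      = 2 * x + (2 * s + 2 * k) / q := by
    rw [show 2 * (q * x + s) + 2 * k = q * (2 * x) + (2 * s + 2 * k) by
      ring, Nat.mul_add_div hq0]
  have t3 : (2 * (q * x + s) + 2 * k + 3) / q
      = 2 * x + (2 * s + 2 * k + 3) / q := by
    rw [show 2 * (q * x + s) + 2 * k + 3 = q * (2 * x) + (2 * s + 2 * k + 3) by
      ring, Nat.mul_add_div hq0]
  have t4 : (2 * (q * x + s) + 2 * k + 1) / q
      = 2 * x + (2 * s + 2 * k + 1) / q := by
    rw [show 2 * (q * x + s) + 2 * k + 1 = q * (2 * x) + (2 * s + 2 * k + 1) by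
      ring, Nat.mul_add_div hq0]
  have t5 : (2 * (q * x + s) + 2 * k + 2) / q
      = 2 * x + (2 * s + 2 * k + 2) / q := by
    rw [show 2 * (q * x + s) + 2 * k + 2 = q * (2 * x) + (2 * s + 2 * k + 2) by
      ring, Nat.mul_add_div hq0]
  have t7 : (2 * (q * z + w)) / q = 2 * z + (2 * w) / q := by
    rw [show 2 * (q * z + w) = q * (2 * z) + (2 * w) by ring, Nat.mul_add_div hq0]
  rw [t2, t3, t4, t5, t7]
  clear t2 t3 t4 t5 t7
  have d2 : (2 * s + 2 * k) / q < 4 := Nat.div_lt_of_lt_mul (by omega)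
  have d3 : (2 * s + 2 * k + 3) / q < 5 := Nat.div_lt_of_lt_mul (by omega)
  have d4 : (2 * s + 2 * k + 1) / q < 4 := Nat.div_lt_of_lt_mul (by omega)
  have d5 : (2 * s + 2 * k + 2) / q < 4 := Nat.div_lt_of_lt_mul (by omega)
  have d7 : (2 * w) / q < 2 := Nat.div_lt_of_lt_mul (by omega)
  have u2 := Nat.div_mul_le_self (2 * s + 2 * k) q
  have u3 := Nat.div_mul_le_self (2 * s + 2 * k + 3) q
  have u4 := Nat.lt_div_mul_add (a := 2 * s + 2 * k + 1) hq0
  have u5 := Nat.lt_div_mul_add (a := 2 * s + 2 * k + 2) hq0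
  have u7 := Nat.lt_div_mul_add (a := 2 * w) hq0
  have v1 : (2 * s + 2 * k) / q ≤ (2 * s + 2 * k + 1) / q := Nat.div_le_div_right (by omega)
  have v2 : (2 * s + 2 * k + 1) / q ≤ (2 * s + 2 * k + 2) / q := Nat.div_le_div_right (by omega)
  have v3 : (2 * s + 2 * k + 2) / q ≤ (2 * s + 2 * k + 3) / q := Nat.div_le_div_right (by omega)
  generalize (2 * s + 2 * k) / q = e2 at *
  generalize (2 * s + 2 * k + 3) / q = e3 at *
  generalize (2 * s + 2 * k + 1) / q = e4 at *
  generalize (2 * s + 2 * k + 2) / q = e5 at *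
  generalize (2 * w) / q = e7 at *
  suffices h : 2 * x + e2 + e3 ≤ z + e4 + e7 + e5 by omega
  by_contra hcon
  push Not at hcon
  rcases hrel with ⟨ha, hb⟩ | ⟨ha, hb⟩ | ⟨ha, hb⟩
  · have hcon2 : e4 + e7 + e5 < e2 + e3 + 1 := by omega
    clear ha hcon x z hm
    interval_cases e7 <;> interval_cases e2 <;> interval_cases e3 <;> first
      | omega
      | (interval_cases e4 <;> first
        | omega
        | (interval_cases e5 <;> omega))
  · have hcon2 : e4 + e7 + e5 < e2 + e3 := by omega
    clear ha hcon x z hm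
    interval_cases e7 <;> interval_cases e2 <;> interval_cases e3 <;> first
      | omega
      | (interval_cases e4 <;> first
        | omega
        | (interval_cases e5 <;> omega))
  · have hcon2 : e4 + e7 + e5 + 1 < e2 + e3 := by omega
    clear ha hcon x z hm
    interval_cases e7 <;> interval_cases e2 <;> interval_cases e3 <;> first
      | omega
      | (interval_cases e4 <;> first
        | omega
        | (interval_cases e5 <;> omega))

end Q266.RamB
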