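import Mathlib

/-!
Two telescoping pairs for the `(8j+1)` sum at `2304`.
-/

namespace Q266.RamB

open Finset

theorem fac_ne (j : ℕ) : (j.factorial : ℚ) ≠ 0 := by exact_mod_cast Nat.factorial_ne_zero j

/-- `Γ(m + 1/2) / Γ(1/2)` -/
noncomputable def g (m : ℤ) : ℚ :=
  if 0 ≤ m then ((2 * m.toNat).factorial : ℚ) / (4 ^ m.toNat * (m.toNat.factorial : ℚ))
  else (-4) ^ (-m).toNat * ((-m).toNat.factorial : ℚ) / ((2 * (-m).toNat).factorial : ℚ)

theorem g_nat (m : ℕ) : g m = ((2 * m).factorial : ℚ) / (4 ^ m * (m.factorial : ℚ)) := by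
  simp [g]

theorem g_neg (m : ℕ) : g (-(m : ℤ)) = (-4) ^ m * (m.factorial : ℚ) / ((2 * m).factorial : ℚ) := by
  rcases Nat.eq_zero_or_pos m with h | h
  · subst h; simp [g]
  · have h1 : ¬ (0 ≤ -(m : ℤ)) := by omega
    unfold g
    rw [if_neg h1]
    simp

theorem g_succ (m : ℤ) : g (m + 1) = ((m : ℚ) + 1 / 2) * g m := by
  rcases lt_or_ge m 0 with h | h
  · obtain ⟨j, rfl⟩ : ∃ j : ℕ, m = -((j + 1 : ℕ) : ℤ) := ⟨(-m - 1).toNat, by omega⟩
    have e : -((j + 1 : ℕ) : ℤ) + 1 = -(j : ℤ) := by push_cast; ring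
    rw [e, g_neg, g_neg]
    have e2 : 2 * (j + 1) = 2 * j + 1 + 1 := by ring
    rw [e2, Nat.factorial_succ (2 * j + 1), Nat.factorial_succ (2 * j), Nat.factorial_succ j,
      pow_succ]
    have g1 := fac_ne (2 * j)
    have g2 := fac_ne j
    push_cast
    have q1 : 2 * (j : ℚ) + 1 ≠ 0 := by positivity
    have q2 : 2 * (j : ℚ) + 1 + 1 ≠ 0 := by positivity
    field_simp
    ring
  · obtain ⟨j, rfl⟩ := Int.eq_ofNat_of_zero_le h
    have e : (j : ℤ) + 1 = ((j + 1 : ℕ) : ℤ) := by push_cast; ring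
    rw [e, g_nat, g_nat]
    have e2 : 2 * (j + 1) = 2 * j + 1 + 1 := by ring
    rw [e2, Nat.factorial_succ (2 * j + 1), Nat.factorial_succ (2 * j), Nat.factorial_succ j,
      pow_succ]
    have g1 := fac_ne (2 * j)
    have g2 := fac_ne j
    push_cast
    have q1 : (j : ℚ) + 1 ≠ 0 := by positivity
    field_simp
    ring

theorem g_ne (m : ℤ) : g m ≠ 0 := by
  unfold g
  split_ifs
  · exact div_ne_zero (fac_ne _) (mul_ne_zero (by positivity) (fac_ne _))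
  · exact div_ne_zero (mul_ne_zero (pow_ne_zero _ (by norm_num)) (fac_ne _)) (fac_ne _)

theorem g_zero : g 0 = 1 := by simp [g]

/-! ### The first pair -/

noncomputable def F1 (n k : ℕ) : ℚ :=
  if k ≤ n then (4 / 3) ^ k / g k * (8 * n - 2 * k + 1) * g ((n : ℤ) - k) * g (2 * n + k) /
    ((n.factorial : ℚ) ^ 2 * ((n - k).factorial : ℚ) * 36 ^ n)
  else 0

noncomputable def G1 (n k : ℕ) : ℚ :=
  if k + 1 ≤ n then -((4 / 3) ^ k / g k * (48 / (2 * k + 1)) * n ^ 2 * g ((n : ℤ) - k - 1) *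
    g (2 * n + k) / ((n.factorial : ℚ) ^ 2 * ((n - k - 1).factorial : ℚ) * 36 ^ n))
  else 0

theorem pair1 (n k : ℕ) : F1 n (k + 1) - F1 n k = G1 (n + 1) k - G1 n k := by
  rcases Nat.lt_or_ge n k with h | h
  · have h1 : ¬ (k + 1 ≤ n) := by omega
    have h2 : ¬ (k ≤ n) := by omega
    have h4 : ¬ (k + 1 ≤ n + 1) := by omega
    simp only [F1, G1, h1, h2, h4, if_false, sub_zero]
  have q0 : ∀ j : ℕ, (36 : ℚ) ^ j ≠ 0 := fun j => pow_ne_zero _ (by norm_num)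
  rcases Nat.eq_or_lt_of_le h with h | h
  · subst h
    have h1 : ¬ (k + 1 ≤ k) := by omega
    have s3 : k + 1 - k - 1 = 0 := by omega
    simp only [F1, G1, h1, le_refl, if_true, if_false, s3, Nat.sub_self, Nat.factorial_zero]
    have i1 : (((k + 1 : ℕ) : ℤ)) - k - 1 = 0 := by push_cast; ring
    have i2 : ((k : ℤ)) - k = 0 := by ring
    have i3 : 2 * (((k + 1 : ℕ) : ℤ)) + k = 2 * (k : ℤ) + k + 1 + 1 := by push_cast; ring
    rw [i1, i2, i3, g_succ (2 * (k : ℤ) + k + 1), g_succ (2 * (k : ℤ) + k), g_zero,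
      Nat.factorial_succ, pow_succ (36 : ℚ)]
    have g1 := fac_ne k
    have g2 := g_ne k
    have g3 := g_ne (2 * (k : ℤ) + k)
    have q1 := q0 k
    generalize g (2 * (k : ℤ) + k) = X at *
    push_cast
    have q2 : 2 * (k : ℚ) + 1 ≠ 0 := by positivity
    have q3 : (k : ℚ) + 1 ≠ 0 := by positivity
    field_simp
    ring
  · obtain ⟨m, rfl⟩ : ∃ m, n = k + 1 + m := ⟨n - k - 1, by omega⟩
    have h1 : k + 1 ≤ k + 1 + m := by omega
    have h2 : k ≤ k + 1 + m := by omega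
    have h4 : k + 1 ≤ k + 1 + m + 1 := by omega
    have s1 : k + 1 + m - (k + 1) = m := by omega
    have s2 : k + 1 + m - k = m + 1 := by omega
    have s3 : k + 1 + m + 1 - k - 1 = m + 1 := by omega
    simp only [F1, G1, h1, h2, h4, if_true, s1, s2, s3, Nat.add_sub_cancel]
    have i1 : (((k + 1 + m : ℕ) : ℤ)) - ((k + 1 : ℕ) : ℤ) = m := by push_cast; ring
    have i2 : (((k + 1 + m : ℕ) : ℤ)) - k = (m : ℤ) + 1 := by push_cast; ring
    have i3 : (((k + 1 + m + 1 : ℕ) : ℤ)) - k - 1 = (m : ℤ) + 1 := by push_cast; ring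
    have i5 : (m : ℤ) + 1 - 1 = (m : ℤ) := by ring
    have i6 : 2 * (((k + 1 + m : ℕ) : ℤ)) + ((k + 1 : ℕ) : ℤ) = 2 * (k + 1 + m) + (k : ℤ) + 1 := by
      push_cast; ring
    have i7 : 2 * (((k + 1 + m : ℕ) : ℤ)) + (k : ℤ) = 2 * (k + 1 + m) + (k : ℤ) := by
      push_cast; ring
    have i8 : 2 * (((k + 1 + m + 1 : ℕ) : ℤ)) + (k : ℤ) = 2 * (k + 1 + m) + (k : ℤ) + 1 + 1 := by
      push_cast; ring
    have i9 : (((k + 1 : ℕ) : ℤ)) = (k : ℤ) + 1 := by push_cast; ring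
    rw [i1, i3, i2, i5, i6, i7, i8, i9, g_succ (2 * (k + 1 + m) + (k : ℤ) + 1),
      g_succ (2 * (k + 1 + m) + (k : ℤ)), g_succ (m : ℤ), g_succ (k : ℤ),
      Nat.factorial_succ (k + 1 + m), Nat.factorial_succ m, pow_succ (36 : ℚ),
      pow_succ (4 / 3 : ℚ)]
    have g1 := fac_ne (k + 1 + m)
    have g2 := g_ne k
    have g3 := g_ne (2 * (k + 1 + m) + (k : ℤ))
    have g4 := fac_ne m
    have g5 := g_ne m
    have q1 := q0 (k + 1 + m)
    generalize g (2 * (k + 1 + m) + (k : ℤ)) = X at *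
    generalize g (m : ℤ) = Y at *
    generalize g (k : ℤ) = Z at *
    generalize (k + 1 + m).factorial = A at *
    generalize m.factorial = B at *
    generalize (36 : ℚ) ^ (k + 1 + m) = C at *
    push_cast
    have q2 : 2 * (k : ℚ) + 1 ≠ 0 := by positivity
    have q3 : (k : ℚ) + 1 / 2 ≠ 0 := by positivity
    have q4 : (m : ℚ) + 1 ≠ 0 := by positivity
    have q5 : (k : ℚ) + 1 + m + 1 ≠ 0 := by positivity
    have q6 : (4 / 3 : ℚ) ^ k ≠ 0 := by positivity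
    generalize (4 / 3 : ℚ) ^ k = D at *
    field_simp
    ring

/-! ### The second pair -/

noncomputable def F3 (n k : ℕ) : ℚ :=
  if k ≤ n then (-27) ^ k * g k * g n * g (2 * n - 3 * k) * (8 * n - 6 * k + 1) /
    ((n.factorial : ℚ) * ((n - k).factorial : ℚ) ^ 2 * 36 ^ n)
  else 0

noncomputable def G3 (n k : ℕ) : ℚ :=
  if k + 1 ≤ n then (-27) ^ k * g k * 36 * n * (2 * n - 1) * g n * g (2 * n - 3 * k - 3) /
    ((n.factorial : ℚ) * ((n - k - 1).factorial : ℚ) ^ 2 * 36 ^ n)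
  else 0

theorem pair3 (n k : ℕ) : F3 n (k + 1) - F3 n k = G3 (n + 1) k - G3 n k := by
  rcases Nat.lt_or_ge n k with h | h
  · have h1 : ¬ (k + 1 ≤ n) := by omega
    have h2 : ¬ (k ≤ n) := by omega
    have h4 : ¬ (k + 1 ≤ n + 1) := by omega
    simp only [F3, G3, h1, h2, h4, if_false, sub_zero]
  have q0 : ∀ j : ℕ, (36 : ℚ) ^ j ≠ 0 := fun j => pow_ne_zero _ (by norm_num)
  rcases Nat.eq_or_lt_of_le h with h | h
  · subst h
    have h1 : ¬ (k + 1 ≤ k) := by omega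
    have s3 : k + 1 - k - 1 = 0 := by omega
    simp only [F3, G3, h1, le_refl, if_true, if_false, s3, Nat.sub_self, Nat.factorial_zero]
    have i1 : 2 * (((k + 1 : ℕ) : ℤ)) - 3 * k - 3 = 2 * (k : ℤ) - 3 * k - 1 := by push_cast; ring
    have i2 : 2 * (k : ℤ) - 3 * k = (2 * (k : ℤ) - 3 * k - 1) + 1 := by ring
    have i3 : (((k + 1 : ℕ) : ℤ)) = (k : ℤ) + 1 := by push_cast; ring
    have i4 : g (2 * (k : ℤ) - 3 * k) = (((2 * (k : ℤ) - 3 * k - 1 : ℤ) : ℚ) + 1 / 2) *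
        g (2 * (k : ℤ) - 3 * k - 1) := by
      rw [← g_succ, ← i2]
    rw [i1, i4, i3, g_succ (k : ℤ), Nat.factorial_succ, pow_succ (36 : ℚ)]
    have g1 := fac_ne k
    have g2 := g_ne k
    have g3 := g_ne (2 * (k : ℤ) - 3 * k - 1)
    have q1 := q0 k
    generalize g (2 * (k : ℤ) - 3 * k - 1) = X at *
    generalize g (k : ℤ) = Z at *
    push_cast
    have q3 : (k : ℚ) + 1 ≠ 0 := by positivity
    field_simp
    ring
  · obtain ⟨m, rfl⟩ : ∃ m, n = k + 1 + m := ⟨n - k - 1, by omega⟩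
    have h1 : k + 1 ≤ k + 1 + m := by omega
    have h2 : k ≤ k + 1 + m := by omega
    have h4 : k + 1 ≤ k + 1 + m + 1 := by omega
    have s1 : k + 1 + m - (k + 1) = m := by omega
    have s2 : k + 1 + m - k = m + 1 := by omega
    have s3 : k + 1 + m + 1 - k - 1 = m + 1 := by omega
    simp only [F3, G3, h1, h2, h4, if_true, s1, s2, s3, Nat.add_sub_cancel]
    obtain ⟨c, hc⟩ : ∃ c : ℤ, c = 2 * ((k : ℤ) + 1 + m) - 3 * k - 3 := ⟨_, rfl⟩
    have i1 : 2 * (((k + 1 + m : ℕ) : ℤ)) - 3 * ((k + 1 : ℕ) : ℤ) = c := by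
      rw [hc]; push_cast; ring
    have i2 : 2 * (((k + 1 + m : ℕ) : ℤ)) - 3 * k = c + 1 + 1 + 1 := by rw [hc]; push_cast; ring
    have i3 : 2 * (((k + 1 + m + 1 : ℕ) : ℤ)) - 3 * k - 3 = c + 1 + 1 := by
      rw [hc]; push_cast; ring
    have i5 : 2 * (((k + 1 + m : ℕ) : ℤ)) - 3 * k - 3 = c := by rw [hc]; push_cast; ring
    have i6 : (((k + 1 + m + 1 : ℕ) : ℤ)) = ((k + 1 + m : ℕ) : ℤ) + 1 := by push_cast; ring
    have i9 : (((k + 1 : ℕ) : ℤ)) = (k : ℤ) + 1 := by push_cast; ring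
    rw [i1, i3, i5, i2, i6, i9, g_succ ((k + 1 + m : ℕ) : ℤ), g_succ (c + 1 + 1),
      g_succ (c + 1), g_succ c, g_succ (k : ℤ),
      Nat.factorial_succ (k + 1 + m), Nat.factorial_succ m, pow_succ (36 : ℚ),
      pow_succ (-27 : ℚ)]
    have g1 := fac_ne (k + 1 + m)
    have g2 := g_ne k
    have g3 := g_ne c
    have g4 := fac_ne m
    have g5 := g_ne ((k + 1 + m : ℕ) : ℤ)
    have q1 := q0 (k + 1 + m)
    generalize g c = X at *
    generalize g ((k + 1 + m : ℕ) : ℤ) = Y at *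
    generalize g (k : ℤ) = Z at *
    generalize (k + 1 + m).factorial = A at *
    generalize m.factorial = B at *
    generalize (36 : ℚ) ^ (k + 1 + m) = C at *
    have q6 : (-27 : ℚ) ^ k ≠ 0 := pow_ne_zero _ (by norm_num)
    generalize (-27 : ℚ) ^ k = D at *
    rw [hc]
    push_cast
    have q4 : (m : ℚ) + 1 ≠ 0 := by positivity
    have q5 : (k : ℚ) + 1 + m + 1 ≠ 0 := by positivity
    field_simp
    ring

theorem telescope (F G : ℕ → ℕ → ℚ) (hp : ∀ n k, F n (k + 1) - F n k = G (n + 1) k - G n k)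
    (hG : ∀ k, G 0 k = 0) (hF : ∀ n k, n < k → F n k = 0) (N : ℕ) :
    ∑ n ∈ range N, F n 0 = - ∑ k ∈ range N, G N k := by
  have ps : ∀ k, (∑ n ∈ range N, F n (k + 1)) - ∑ n ∈ range N, F n k = G N k := by
    intro k
    rw [← Finset.sum_sub_distrib]
    have h : ∀ n ∈ range N, F n (k + 1) - F n k = G (n + 1) k - G n k := fun n _ => hp n k
    rw [Finset.sum_congr rfl h, Finset.sum_range_sub (fun n => G n k) N, hG, sub_zero]
  have h1 : ∑ k ∈ range N, G N k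
      = ∑ k ∈ range N, ((∑ n ∈ range N, F n (k + 1)) - ∑ n ∈ range N, F n k) :=
    Finset.sum_congr rfl fun k _ => (ps k).symm
  have h2 := Finset.sum_range_sub (fun k => ∑ n ∈ range N, F n k) N
  rw [h1, h2]
  have h3 : ∑ n ∈ range N, F n N = 0 :=
    Finset.sum_eq_zero fun n hn => hF n N (Finset.mem_range.1 hn)
  rw [h3]
  ring

end Q266.RamB
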