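import Mathlib
import Pool.Agent.Q266.FacDvd
import Pool.Agent.Q266.FacVal
import Pool.Agent.Q266.PInt
import Pool.Agent.Q266.RamB
import Pool.Agent.Q266.RamB2

/-!
The two expansions of the normalised `(8j+1)` sum at `2304` and the exponents of their terms.
-/

namespace Q266.RamB

open Finset Q266.FacDvd Q266.FacVal Q266.PInt

/-- the normalising factor -/
noncomputable def cst (n : ℕ) : ℚ :=
  2304 ^ (n - 1) / (2 * (n : ℚ) * (2 * (n : ℚ) + 1) * ((2 * n).choose n : ℚ))

theorem cb (k : ℕ) : ((2 * k).choose k : ℚ) = ((2 * k).factorial : ℚ) / (k.factorial : ℚ) ^ 2 := by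
  rw [Nat.cast_choose ℚ (by omega : k ≤ 2 * k)]
  have : 2 * k - k = k := by omega
  rw [this]; ring

theorem pow64 (u k : ℕ) : (2304 : ℚ) ^ (u + k) = 36 ^ (u + k) * (4 ^ u * 4 ^ (2 * u + 3 * k)) := by
  have h1 : (4 : ℚ) ^ u * 4 ^ (2 * u + 3 * k) = 64 ^ (u + k) := by
    rw [← pow_add]
    have : (64 : ℚ) = 4 ^ 3 := by norm_num
    rw [this, ← pow_mul]
    congr 1
    ring
  rw [h1, ← mul_pow]
  norm_num

/-! ### first expansion -/

def PA1 (u k : ℕ) : List ℕ := [2 * k + 1, u, u, 2 * u + 3 * k + 2, 2 * u + 2 * k + 3, u + k]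
def PB1 (u k : ℕ) : List ℕ := [k, 2 * u, 4 * u + 6 * k + 4, u + k + 1]

theorem term1 (u k : ℕ) : cst (u + k + 1) * (-G1 (u + k + 1) k) = 1 / 24 * (16 / 3) ^ k *
    ((((PB1 u k).map Nat.factorial).prod : ℕ) : ℚ) /
      ((((PA1 u k).map Nat.factorial).prod : ℕ) : ℚ) := by
  have h1 : k + 1 ≤ u + k + 1 := by omega
  have s1 : u + k + 1 - k - 1 = u := by omega
  have i1 : ((u + k + 1 : ℕ) : ℤ) - k - 1 = (u : ℤ) := by push_cast; ring
  have i2 : 2 * ((u + k + 1 : ℕ) : ℤ) + k = ((2 * u + 3 * k + 2 : ℕ) : ℤ) := by push_cast; ring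
  unfold G1 cst
  rw [if_pos h1, s1, i1, i2, g_nat, g_nat, g_nat, cb, Nat.add_sub_cancel, pow64]
  have s2 : 2 * (2 * u + 3 * k + 2) = 4 * u + 6 * k + 4 := by ring
  have s3 : 2 * (u + k + 1) = 2 * u + 2 * k + 2 := by ring
  simp only [PA1, PB1, List.map_cons, List.map_nil, List.prod_cons, List.prod_nil, mul_one, s2, s3]
  rw [Nat.factorial_succ (2 * u + 2 * k + 2), Nat.factorial_succ (2 * k),
    Nat.factorial_succ (u + k), pow_succ (36 : ℚ) (u + k)]
  have e1 : (4 : ℚ) ^ (2 * u + 3 * k + 2) = 4 ^ (2 * u + 3 * k) * 16 := by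
    rw [pow_add]; norm_num
  have e2 : (16 / 3 : ℚ) ^ k = (4 / 3) ^ k * 4 ^ k := by
    rw [← mul_pow]; norm_num
  rw [e1, e2]
  have g1 := fac_ne (2 * u + 2 * k + 2)
  have g2 := fac_ne (2 * k)
  have g3 := fac_ne (u + k)
  have g4 := fac_ne u
  have g5 := fac_ne k
  have g6 := fac_ne (2 * u)
  have g7 := fac_ne (4 * u + 6 * k + 4)
  have g8 := fac_ne (2 * u + 3 * k + 2)
  have p1 : (36 : ℚ) ^ (u + k) ≠ 0 := by positivity
  have p2 : (4 : ℚ) ^ u ≠ 0 := by positivity
  have p3 : (4 : ℚ) ^ (2 * u + 3 * k) ≠ 0 := by positivity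
  have p4 : (4 : ℚ) ^ k ≠ 0 := by positivity
  generalize (2 * u + 2 * k + 2).factorial = A at *
  generalize (2 * k).factorial = B at *
  generalize (u + k).factorial = C at *
  generalize u.factorial = D at *
  generalize k.factorial = E at *
  generalize (2 * u).factorial = H at *
  generalize (4 * u + 6 * k + 4).factorial = I at *
  generalize (2 * u + 3 * k + 2).factorial = J at *
  generalize (36 : ℚ) ^ (u + k) = K at *
  generalize (4 : ℚ) ^ u = L at *
  generalize (4 : ℚ) ^ (2 * u + 3 * k) = M at *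
  generalize (4 : ℚ) ^ k = N at *
  push_cast
  have q1 : 2 * (k : ℚ) + 1 ≠ 0 := by positivity
  have q2 : (u : ℚ) + k + 1 ≠ 0 := by positivity
  have q3 : 2 * ((u : ℚ) + k + 1) + 1 ≠ 0 := by positivity
  have q4 : 2 * (u : ℚ) + 2 * k + 2 + 1 ≠ 0 := by positivity
  field_simp
  ring

theorem prod_ne (T : List ℕ) : (T.map Nat.factorial).prod ≠ 0 := prod_fac_ne T

/-- the terms of the first expansion are `p`-integral for `p ≥ 5` -/
theorem term1_PI (p : ℕ) (hp : p.Prime) (h5 : 5 ≤ p) (u k : ℕ) :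
    PI p (cst (u + k + 1) * (-G1 (u + k + 1) k)) := by
  rw [term1, mul_div_assoc]
  have n24 : ¬ p ∣ 24 := by
    intro h
    have h1 : p ∣ 2 ^ 3 * 3 := by simpa using h
    rcases (hp.dvd_mul).1 h1 with h2 | h2
    · have := Nat.le_of_dvd (by norm_num) (hp.dvd_of_dvd_pow h2)
      omega
    · have := Nat.le_of_dvd (by norm_num) h2
      omega
  have n3 : ¬ p ∣ 3 := by
    intro h
    have := Nat.le_of_dvd (by norm_num) h
    omega
  have a1 : PI p (1 / 24 : ℚ) := by simpa using PI.inv n24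
  have a2 : PI p ((16 / 3 : ℚ) ^ k) := by
    apply PI.pow hp
    have h1 : (16 / 3 : ℚ) = ((16 : ℤ) : ℚ) * (1 / ((3 : ℕ) : ℚ)) := by norm_num
    rw [h1]
    exact (PI.int hp 16).mul hp (PI.inv n3)
  refine (a1.mul hp a2).mul hp ?_
  apply PI.of_val hp (prod_ne (PB1 u k)) (prod_ne (PA1 u k))
  · have := prod_ne (PA1 u k)
    have h : ((((PA1 u k).map Nat.factorial).prod : ℕ) : ℚ) ≠ 0 := by exact_mod_cast this
    exact div_mul_cancel₀ _ h
  · apply val_le p hp
    intro i hi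
    have hq : 5 ≤ p ^ i := by
      calc 5 ≤ p := h5
        _ = p ^ 1 := (pow_one p).symm
        _ ≤ p ^ i := Nat.pow_le_pow_right hp.pos hi
    simpa [PA1, PB1] using floorB1 u k (p ^ i) hq

/-! ### second expansion -/

def PA3 (u k m : ℕ) : List ℕ := [k, 2 * u + 2 * k, m, 2 * u + 2 * k + 3, u, u]
def PB3 (u k m : ℕ) : List ℕ := [2 * k, 2 * u + 2 * k + 1, 2 * m, 2 * u + 2 * k + 2]

theorem term3 (u k m : ℕ) (hm : m + k + 1 = 2 * u) :
    cst (u + k + 1) * (-G3 (u + k + 1) k) = -1 / 2 * (-16) ^ k *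
    ((27 ^ k * (((PB3 u k m).map Nat.factorial).prod) : ℕ) : ℚ) /
      ((((PA3 u k m).map Nat.factorial).prod : ℕ) : ℚ) := by
  have h1 : k + 1 ≤ u + k + 1 := by omega
  have s1 : u + k + 1 - k - 1 = u := by omega
  have i1 : 2 * ((u + k + 1 : ℕ) : ℤ) - 3 * k - 3 = (m : ℤ) := by push_cast; omega
  unfold G3 cst
  rw [if_pos h1, s1, i1, g_nat, g_nat, g_nat, cb, Nat.add_sub_cancel]
  have s3 : 2 * (u + k + 1) = 2 * u + 2 * k + 2 := by ring
  have e0 : (2304 : ℚ) ^ (u + k) = 36 ^ (u + k) * (4 ^ (u + k) * 4 ^ k * 4 ^ m * 4 * 16 ^ k) := by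
    have h2 : (4 : ℚ) ^ (u + k) * 4 ^ k * 4 ^ m * 4 * 16 ^ k = 64 ^ (u + k) := by
      have : (64 : ℚ) = 4 ^ 3 := by norm_num
      have h16 : (16 : ℚ) = 4 ^ 2 := by norm_num
      rw [this, h16, ← pow_mul, ← pow_mul, ← pow_add, ← pow_add, ← pow_succ, ← pow_add]
      congr 1
      omega
    rw [h2, ← mul_pow]
    norm_num
  rw [e0]
  simp only [PA3, PB3, List.map_cons, List.map_nil, List.prod_cons, List.prod_nil, mul_one, s3]
  rw [Nat.factorial_succ (2 * u + 2 * k + 2), Nat.factorial_succ (2 * u + 2 * k + 1),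
    Nat.factorial_succ (2 * u + 2 * k), Nat.factorial_succ (u + k), pow_succ (36 : ℚ) (u + k),
    pow_succ (4 : ℚ) (u + k)]
  have e2 : (-27 : ℚ) ^ k = (-1) ^ k * 27 ^ k := by
    rw [← mul_pow]; norm_num
  have e3 : (-16 : ℚ) ^ k = (-1) ^ k * 16 ^ k := by
    rw [← mul_pow]; norm_num
  rw [e2, e3]
  have g1 := fac_ne (2 * u + 2 * k)
  have g2 := fac_ne (2 * k)
  have g3 := fac_ne (u + k)
  have g4 := fac_ne u
  have g5 := fac_ne k
  have g6 := fac_ne (2 * m)
  have g8 := fac_ne m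
  have p1 : (36 : ℚ) ^ (u + k) ≠ 0 := by positivity
  have p2 : (4 : ℚ) ^ (u + k) ≠ 0 := by positivity
  have p3 : (4 : ℚ) ^ m ≠ 0 := by positivity
  have p4 : (4 : ℚ) ^ k ≠ 0 := by positivity
  generalize (2 * u + 2 * k).factorial = A at *
  generalize (2 * k).factorial = B at *
  generalize (u + k).factorial = C at *
  generalize u.factorial = D at *
  generalize k.factorial = E at *
  generalize (2 * m).factorial = H at *
  generalize m.factorial = I at *
  generalize (36 : ℚ) ^ (u + k) = K at *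
  generalize (4 : ℚ) ^ (u + k) = L at *
  generalize (4 : ℚ) ^ m = M at *
  generalize (4 : ℚ) ^ k = N at *
  generalize (16 : ℚ) ^ k = O at *
  generalize (-1 : ℚ) ^ k = P at *
  push_cast
  generalize (27 : ℚ) ^ k = Q at *
  have q2 : (u : ℚ) + k + 1 ≠ 0 := by positivity
  have q3 : 2 * ((u : ℚ) + k + 1) + 1 ≠ 0 := by positivity
  have q4 : 2 * (u : ℚ) + 2 * k + 2 + 1 ≠ 0 := by positivity
  have q5 : 2 * (u : ℚ) + 2 * k + 1 + 1 ≠ 0 := by positivity
  have q6 : 2 * (u : ℚ) + 2 * k + 1 ≠ 0 := by positivity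
  field_simp
  ring

/-- the case of a negative index -/
theorem term3' (u k m : ℕ) (hm : m + 2 * u = k + 1) :
    cst (u + k + 1) * (-G3 (u + k + 1) k) = -1 / 2 * (-16) ^ k * (-1) ^ m *
    (2 * ((u + k + 1 : ℕ) : ℚ) - 1) *
    ((27 ^ k * ((2 * k).factorial * m.factorial) : ℕ) : ℚ) /
      ((k.factorial * ((2 * m).factorial * ((2 * (u + k + 1) + 1) * (u.factorial *
        u.factorial))) : ℕ) : ℚ) := by
  have h1 : k + 1 ≤ u + k + 1 := by omega
  have s1 : u + k + 1 - k - 1 = u := by omega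
  have i1 : 2 * ((u + k + 1 : ℕ) : ℤ) - 3 * k - 3 = -(m : ℤ) := by push_cast; omega
  unfold G3 cst
  rw [if_pos h1, s1, i1, g_nat, g_nat, g_neg, cb, Nat.add_sub_cancel]
  have s3 : 2 * (u + k + 1) = 2 * u + 2 * k + 2 := by ring
  have e0 : (2304 : ℚ) ^ (u + k) * 4 ^ m = 36 ^ (u + k) * (4 ^ (u + k) * 4 ^ k * 4 * 16 ^ k) := by
    have h2 : (4 : ℚ) ^ (u + k) * 4 ^ k * 4 * 16 ^ k = 64 ^ (u + k) * 4 ^ m := by
      have : (64 : ℚ) = 4 ^ 3 := by norm_num
      have h16 : (16 : ℚ) = 4 ^ 2 := by norm_num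
      rw [this, h16, ← pow_mul, ← pow_mul, ← pow_add, ← pow_succ, ← pow_add, ← pow_add]
      congr 1
      omega
    rw [h2, ← mul_assoc, ← mul_pow]
    norm_num
  have e4 : (-4 : ℚ) ^ m = (-1) ^ m * 4 ^ m := by
    rw [← mul_pow]; norm_num
  rw [e4]
  simp only [s3]
  rw [Nat.factorial_succ (u + k), pow_succ (36 : ℚ) (u + k),
    pow_succ (4 : ℚ) (u + k)]
  have e2 : (-27 : ℚ) ^ k = (-1) ^ k * 27 ^ k := by
    rw [← mul_pow]; norm_num
  have e3 : (-16 : ℚ) ^ k = (-1) ^ k * 16 ^ k := by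
    rw [← mul_pow]; norm_num
  rw [e2, e3]
  have g1 := fac_ne (2 * u + 2 * k + 2)
  have g2 := fac_ne (2 * k)
  have g3 := fac_ne (u + k)
  have g4 := fac_ne u
  have g5 := fac_ne k
  have g6 := fac_ne (2 * m)
  have g8 := fac_ne m
  have p1 : (36 : ℚ) ^ (u + k) ≠ 0 := by positivity
  have p2 : (4 : ℚ) ^ (u + k) ≠ 0 := by positivity
  have p3 : (4 : ℚ) ^ m ≠ 0 := by positivity
  have p4 : (4 : ℚ) ^ k ≠ 0 := by positivity
  generalize (2 * u + 2 * k + 2).factorial = A at *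
  generalize (2 * k).factorial = B at *
  generalize (u + k).factorial = C at *
  generalize u.factorial = D at *
  generalize k.factorial = E at *
  generalize (2 * m).factorial = H at *
  generalize m.factorial = I at *
  generalize (36 : ℚ) ^ (u + k) = K at *
  generalize (2304 : ℚ) ^ (u + k) = R at *
  generalize (4 : ℚ) ^ (u + k) = L at *
  generalize (4 : ℚ) ^ m = M at *
  generalize (4 : ℚ) ^ k = N at *
  generalize (16 : ℚ) ^ k = O at *
  generalize (-1 : ℚ) ^ k = P at *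
  generalize (-1 : ℚ) ^ m = S at *
  have hR : R = K * (L * N * 4 * O) / M := by field_simp; linarith
  rw [hR]
  push_cast
  generalize (27 : ℚ) ^ k = Q at *
  have q2 : (u : ℚ) + k + 1 ≠ 0 := by positivity
  have q3 : 2 * ((u : ℚ) + k + 1) + 1 ≠ 0 := by positivity
  have q4 : 2 * (u : ℚ) + 2 * k + 2 + 1 ≠ 0 := by positivity
  have q5 : 2 * (u : ℚ) + 2 * k + 1 + 1 ≠ 0 := by positivity
  have q6 : 2 * (u : ℚ) + 2 * k + 1 ≠ 0 := by positivity
  field_simp

theorem v3_fac (N : ℕ) : 2 * (N.factorial).factorization 3 ≤ N := by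
  have : Fact (Nat.Prime 3) := ⟨Nat.prime_three⟩
  have h := sub_one_mul_padicValNat_factorial (p := 3) N
  rw [Nat.factorization_def _ Nat.prime_three]
  omega

theorem lt_three_pow (n : ℕ) (hn : 2 ≤ n) : 2 * n + 1 < 3 ^ n := by
  induction n, hn using Nat.le_induction with
  | base => norm_num
  | succ n hn ih => rw [pow_succ]; omega

theorem v3_odd (n : ℕ) (hn : 2 ≤ n) : (2 * n + 1).factorization 3 < n := by
  by_contra hcon
  push Not at hcon
  have h1 : 3 ^ n ∣ 2 * n + 1 :=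
    (Nat.prime_three.pow_dvd_iff_le_factorization (by omega)).2 hcon
  have h2 := Nat.le_of_dvd (by omega) h1
  have := lt_three_pow n hn
  omega

theorem six_lt (k : ℕ) (hk : 1 ≤ k) (i : ℕ) (hi : 3 * k < i) : 6 * k + 3 < 3 ^ i := by
  have h1 : 3 ^ (3 * k + 1) ≤ 3 ^ i := Nat.pow_le_pow_right (by norm_num) hi
  have h2 : 6 * k + 3 < 3 ^ (3 * k + 1) := by
    clear h1 hi
    induction k, hk using Nat.le_induction with
    | base => norm_num
    | succ k hk ih =>
      have : 3 ^ (3 * (k + 1) + 1) = 27 * 3 ^ (3 * k + 1) := by ring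
      rw [this]
      omega
  omega

theorem pow_mod_six (i : ℕ) (hi : 1 ≤ i) : 3 ^ i % 6 = 3 := by
  induction i, hi using Nat.le_induction with
  | base => norm_num
  | succ k hk ih => rw [pow_succ]; omega

theorem pi_aux (k : ℕ) : PI 3 (-1 / 2 * (-16 : ℚ) ^ k) := by
  have h2 : PI 3 (1 / ((2 : ℕ) : ℚ)) := PI.inv (by norm_num)
  have h3 : PI 3 (((-(-16) ^ k : ℤ)) : ℚ) := PI.int Nat.prime_three _
  have h4 := h2.mul Nat.prime_three h3
  have e : -1 / 2 * (-16 : ℚ) ^ k = 1 / ((2 : ℕ) : ℚ) * (((-(-16) ^ k : ℤ)) : ℚ) := by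
    push_cast; ring
  rw [e]
  exact h4

/-- the terms `k ≥ 1` of the second expansion are `3`-integral -/
theorem term3_PI (u k : ℕ) (hk : 1 ≤ k) : PI 3 (cst (u + k + 1) * (-G3 (u + k + 1) k)) := by
  rcases Nat.lt_or_ge (2 * u) (k + 1) with h | h
  · obtain ⟨m, hm⟩ : ∃ m, m + 2 * u = k + 1 := ⟨k + 1 - 2 * u, by omega⟩
    rw [term3' u k m hm, mul_div_assoc]
    have a1 : PI 3 ((-1 : ℚ) ^ m) := by
      have := PI.int Nat.prime_three ((-1) ^ m)
      push_cast at this
      exact this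
    have a2 : PI 3 (2 * ((u + k + 1 : ℕ) : ℚ) - 1) := by
      have := PI.int Nat.prime_three (2 * ((u + k + 1 : ℕ) : ℤ) - 1)
      push_cast at this ⊢
      exact this
    refine (((pi_aux k).mul Nat.prime_three a1).mul Nat.prime_three a2).mul Nat.prime_three ?_
    have n1 := Nat.factorial_ne_zero k
    have n2 := Nat.factorial_ne_zero (2 * m)
    have n3 := Nat.factorial_ne_zero u
    have n4 := Nat.factorial_ne_zero (2 * k)
    have n5 := Nat.factorial_ne_zero m
    have hb : k.factorial * ((2 * m).factorial * ((2 * (u + k + 1) + 1) * (u.factorial *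
        u.factorial))) ≠ 0 :=
      mul_ne_zero n1 (mul_ne_zero n2 (mul_ne_zero (by omega) (mul_ne_zero n3 n3)))
    have ha : 27 ^ k * ((2 * k).factorial * m.factorial) ≠ 0 :=
      mul_ne_zero (by positivity) (mul_ne_zero n4 n5)
    apply PI.of_val Nat.prime_three ha hb
    · have h' : ((k.factorial * ((2 * m).factorial * ((2 * (u + k + 1) + 1) * (u.factorial *
        u.factorial))) : ℕ) : ℚ) ≠ 0 := by exact_mod_cast hb
      exact div_mul_cancel₀ _ h'
    · rw [Nat.factorization_mul n1 (mul_ne_zero n2 (mul_ne_zero (by omega) (mul_ne_zero n3 n3))),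
        Nat.factorization_mul n2 (mul_ne_zero (by omega) (mul_ne_zero n3 n3)),
        Nat.factorization_mul (by omega) (mul_ne_zero n3 n3), Nat.factorization_mul n3 n3,
        Nat.factorization_mul (by positivity) (mul_ne_zero n4 n5), Nat.factorization_mul n4 n5]
      simp only [Finsupp.add_apply]
      have v27 : (27 ^ k).factorization 3 = 3 * k := by
        rw [show (27 : ℕ) = 3 ^ 3 by norm_num, ← pow_mul,
          Nat.Prime.factorization_pow Nat.prime_three, Finsupp.single_eq_same]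
      have v1 := v3_fac (2 * m)
      have v2 := v3_fac u
      have v3 := v3_odd (u + k + 1) (by omega)
      have v4 : k.factorial.factorization 3 ≤ (2 * k).factorial.factorization 3 :=
        (Nat.factorization_le_iff_dvd n1 n4).2 (Nat.factorial_dvd_factorial (by omega)) 3
      rw [v27]
      omega
  · obtain ⟨m, hm⟩ : ∃ m, m + k + 1 = 2 * u := ⟨2 * u - k - 1, by omega⟩
    rw [term3 u k m hm, mul_div_assoc]
    refine (pi_aux k).mul Nat.prime_three ?_
    have ha : 27 ^ k * ((PB3 u k m).map Nat.factorial).prod ≠ 0 :=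
      mul_ne_zero (by positivity) (prod_ne _)
    apply PI.of_val Nat.prime_three ha (prod_ne (PA3 u k m))
    · have := prod_ne (PA3 u k m)
      have h : ((((PA3 u k m).map Nat.factorial).prod : ℕ) : ℚ) ≠ 0 := by exact_mod_cast this
      exact div_mul_cancel₀ _ h
    · rw [Nat.factorization_mul (by positivity) (prod_ne _), Finsupp.add_apply]
      have v27 : (27 ^ k).factorization 3 = 3 * k := by
        rw [show (27 : ℕ) = 3 ^ 3 by norm_num, ← pow_mul,
          Nat.Prime.factorization_pow Nat.prime_three, Finsupp.single_eq_same]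
      rw [v27, add_comm]
      apply val_le_add 3 Nat.prime_three
      · intro i hi
        have h6 := pow_mod_six i hi
        obtain ⟨q, hq⟩ : ∃ q, q = 3 ^ i := ⟨_, rfl⟩
        rw [← hq] at h6
        rw [← hq]
        simpa [PA3, PB3] using floorB3 u k m q hm (by omega) (by omega)
      · intro i hi
        have h6 := pow_mod_six i (by omega)
        simpa [PA3, PB3] using floorB3' u k m (3 ^ i) hm (six_lt k hk i hi) h6

end Q266.RamB
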