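import Mathlib
import Pool.Agent.Q266.RamB3

/-!
The first term of the second expansion, and integrality of the normalised `(8j+1)` sum at `2304`.
-/

namespace Q266.RamB

open Finset Q266.FacDvd Q266.FacVal Q266.PInt

theorem lvl_big (u m i : ℕ) (hm : m + 1 = 2 * u) (hi : 2 ≤ i) :
    ((PA3 u 0 m).map (fun a => a / 3 ^ i)).sum ≤ ((PB3 u 0 m).map (fun a => a / 3 ^ i)).sum := by
  have h6 := pow_mod_six i (by omega)
  have h9 : 3 ^ 2 ≤ 3 ^ i := Nat.pow_le_pow_right (by norm_num) hi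
  simpa [PA3, PB3] using floorB3' u 0 m (3 ^ i) (by omega) (by omega) h6

theorem v3_append (u m : ℕ) : (((PB3 u 0 m ++ [3]).map Nat.factorial).prod).factorization 3
    = (((PB3 u 0 m).map Nat.factorial).prod).factorization 3 + 1 := by
  rw [List.map_append, List.prod_append, Nat.factorization_mul (prod_ne _)
    (by simp [Nat.factorial]), Finsupp.add_apply]
  congr 1
  have h := fac_val_log 3 Nat.prime_three [3] 2 (by
    intro a ha
    simp only [List.mem_singleton] at ha
    subst ha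
    norm_num)
  rw [h]
  simp

theorem sum_append (u m q : ℕ) : ((PB3 u 0 m ++ [3]).map (fun a => a / q)).sum
    = ((PB3 u 0 m).map (fun a => a / q)).sum + 3 / q := by
  simp [List.map_append, List.sum_append]

theorem val_le_one (u m : ℕ) (hm : m + 1 = 2 * u) :
    (((PA3 u 0 m).map Nat.factorial).prod).factorization 3
      ≤ (((PB3 u 0 m).map Nat.factorial).prod).factorization 3 + 1 := by
  apply val_le_add 3 Nat.prime_three
  · intro i hi
    have h6 := pow_mod_six i hi
    obtain ⟨q, hq⟩ : ∃ q, q = 3 ^ i := ⟨_, rfl⟩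
    rw [← hq] at h6
    rw [← hq]
    simpa [PA3, PB3] using floorB3 u 0 m q (by omega) (by omega) (by omega)
  · intro i hi
    exact lvl_big u m i hm (by omega)

theorem surplus_at (u m q : ℕ) (hm : m + 1 = 2 * u) (h6 : q % 6 = 3) (hu : u % 3 = 0)
    (hq1 : u + 1 ≤ q) (hq2 : q ≤ 3 * u) (hq3 : q ≠ 2 * u + 3) :
    ((PA3 u 0 m).map (fun a => a / q)).sum < ((PB3 u 0 m).map (fun a => a / q)).sum := by
  simp only [PA3, PB3, List.map_cons, List.map_nil, List.sum_cons, List.sum_nil, mul_zero,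
    add_zero, Nat.zero_div, zero_add]
  have hq0 : 0 < q := by omega
  by_cases h : q ≤ m
  · have a1 : (2 * u) / q < 2 := Nat.div_lt_of_lt_mul (by omega)
    have a2 : m / q < 2 := Nat.div_lt_of_lt_mul (by omega)
    have a3 : (2 * u + 3) / q < 2 := Nat.div_lt_of_lt_mul (by omega)
    have a4 : u / q = 0 := Nat.div_eq_of_lt (by omega)
    have b1 : 1 ≤ (2 * u + 1) / q := (Nat.le_div_iff_mul_le hq0).2 (by omega)
    have b2 : 2 ≤ (2 * m) / q := (Nat.le_div_iff_mul_le hq0).2 (by omega)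
    have b3 : 1 ≤ (2 * u + 2) / q := (Nat.le_div_iff_mul_le hq0).2 (by omega)
    omega
  · have a1 : (2 * u) / q = 0 := Nat.div_eq_of_lt (by omega)
    have a2 : m / q = 0 := Nat.div_eq_of_lt (by omega)
    have a3 : (2 * u + 3) / q = 0 := Nat.div_eq_of_lt (by omega)
    have a4 : u / q = 0 := Nat.div_eq_of_lt (by omega)
    have b2 : 1 ≤ (2 * m) / q := (Nat.le_div_iff_mul_le hq0).2 (by omega)
    have c1 := Nat.zero_le ((2 * u + 1) / q)
    have c2 := Nat.zero_le ((2 * u + 2) / q)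
    omega

theorem val_le_zero (u m : ℕ) (hu : 1 ≤ u) (hm : m + 1 = 2 * u) (hp : ∀ j : ℕ, 2 * u + 3 ≠ 3 ^ j) :
    (((PA3 u 0 m).map Nat.factorial).prod).factorization 3
      ≤ (((PB3 u 0 m).map Nat.factorial).prod).factorization 3 := by
  by_cases hu3 : u % 3 = 0
  · obtain ⟨i, hi1, hi2⟩ : ∃ i, 3 ^ i ≤ u ∧ u < 3 ^ (i + 1) :=
      ⟨Nat.log 3 u, Nat.pow_log_le_self 3 (by omega), Nat.lt_pow_succ_log_self (by norm_num) _⟩
    have hi0 : 1 ≤ i := by
      rcases Nat.eq_zero_or_pos i with h0 | h0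
      · subst h0
        simp at hi2
        omega
      · exact h0
    have h6 := pow_mod_six (i + 1) (by omega)
    have hq3 := hp (i + 1)
    have hq2 : 3 ^ (i + 1) ≤ 3 * u := by rw [pow_succ]; omega
    have hlt := surplus_at u m (3 ^ (i + 1)) hm h6 hu3 (by omega) hq2 (by omega)
    have hv := val_lt 3 Nat.prime_three (PA3 u 0 m) (PB3 u 0 m ++ [3]) (by
      intro j hj
      rw [sum_append]
      rcases Nat.eq_or_lt_of_le hj with h | h
      · subst h
        have := floorB3 u 0 m 3 (by omega) (by norm_num) (by norm_num)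
        simpa [PA3, PB3] using this
      · exact (lvl_big u m j hm h).trans (Nat.le_add_right _ _)) (i + 1) (by omega) (by
        rw [sum_append]
        exact hlt.trans_le (Nat.le_add_right _ _))
    rw [v3_append] at hv
    omega
  · apply val_le 3 Nat.prime_three
    intro i hi
    rcases Nat.eq_or_lt_of_le hi with h | h
    · subst h
      simp only [PA3, PB3, List.map_cons, List.map_nil, List.sum_cons, List.sum_nil, mul_zero,
        add_zero, Nat.zero_div, zero_add, pow_one]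
      omega
    · exact lvl_big u m i hm h

theorem val_eq_succ (u m j : ℕ) (hu : 1 ≤ u) (hm : m + 1 = 2 * u) (hj : 2 * u + 3 = 3 ^ j) :
    (((PA3 u 0 m).map Nat.factorial).prod).factorization 3
      = (((PB3 u 0 m).map Nat.factorial).prod).factorization 3 + 1 := by
  have hj1 : 1 ≤ j := by
    rcases Nat.eq_zero_or_pos j with h0 | h0
    · subst h0
      simp at hj
    · exact h0
  have hj6 := pow_mod_six j hj1
  rw [← v3_append]
  refine val_eq 3 Nat.prime_three _ _ ?_
  intro i hi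
  rw [sum_append]
  simp only [PA3, PB3, List.map_cons, List.map_nil, List.sum_cons, List.sum_nil, mul_zero,
    add_zero, zero_add, Nat.zero_div]
  rcases Nat.eq_or_lt_of_le hi with h | h
  · subst h
    rw [pow_one]
    omega
  by_cases him : i ≤ j
  · obtain ⟨c, rfl⟩ := Nat.exists_eq_add_of_le him
    rw [pow_add] at hj
    have ho1 : (3 ^ i) % 2 = 1 := by rw [Nat.pow_mod]; norm_num
    have ho2 : (3 ^ c) % 2 = 1 := by rw [Nat.pow_mod]; norm_num
    have h3 : 9 ≤ 3 ^ i := by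
      calc 9 = 3 ^ 2 := by norm_num
        _ ≤ 3 ^ i := Nat.pow_le_pow_right (by norm_num) h
    obtain ⟨w, hw⟩ : ∃ w, 3 ^ c = 2 * w + 1 := ⟨3 ^ c / 2, by omega⟩
    obtain ⟨g, hg⟩ : ∃ g, 3 ^ i = 2 * g + 1 := ⟨3 ^ i / 2, by omega⟩
    rw [hw, hg] at hj
    rw [hg]
    have hq0 : 0 < 2 * g + 1 := by omega
    have hr : u + 1 = (2 * g + 1) * w + g := by nlinarith
    obtain ⟨f, hf⟩ : ∃ f, u = (2 * g + 1) * w + f ∧ f + 1 = g := ⟨g - 1, by omega, by omega⟩
    have a1 : (2 * u) / (2 * g + 1) = 2 * w := by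
      rw [show 2 * u = (2 * g + 1) * (2 * w) + 2 * f by rw [hf.1]; ring, Nat.mul_add_div hq0,
        Nat.div_eq_of_lt (by omega), add_zero]
    have a2 : m / (2 * g + 1) = 2 * w := by
      have : m = (2 * g + 1) * (2 * w) + (2 * f - 1) := by
        have h4 : 2 * u = (2 * g + 1) * (2 * w) + 2 * f := by rw [hf.1]; ring
        omega
      rw [this, Nat.mul_add_div hq0, Nat.div_eq_of_lt (by omega), add_zero]
    have a3 : (2 * u + 3) / (2 * g + 1) = 2 * w + 1 := by
      rw [hj]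
      exact Nat.mul_div_cancel_left _ hq0
    have a4 : u / (2 * g + 1) = w := by
      rw [hf.1, Nat.mul_add_div hq0, Nat.div_eq_of_lt (by omega), add_zero]
    have b1 : (2 * u + 1) / (2 * g + 1) = 2 * w := by
      rw [show 2 * u + 1 = (2 * g + 1) * (2 * w) + (2 * f + 1) by rw [hf.1]; ring,
        Nat.mul_add_div hq0, Nat.div_eq_of_lt (by omega), add_zero]
    have b2 : (2 * m) / (2 * g + 1) = 4 * w + 1 := by
      have : 2 * m = (2 * g + 1) * (4 * w + 1) + (2 * g - 7) := by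
        have h4 : 4 * u = (2 * g + 1) * (4 * w) + 4 * f := by rw [hf.1]; ring
        rw [mul_add]
        omega
      rw [this, Nat.mul_add_div hq0, Nat.div_eq_of_lt (by omega), add_zero]
    have b3 : (2 * u + 2) / (2 * g + 1) = 2 * w := by
      rw [show 2 * u + 2 = (2 * g + 1) * (2 * w) + (2 * f + 2) by rw [hf.1]; ring,
        Nat.mul_add_div hq0, Nat.div_eq_of_lt (by omega), add_zero]
    have b4 : 3 / (2 * g + 1) = 0 := Nat.div_eq_of_lt (by omega)
    rw [a1, a2, a3, a4, b1, b2, b3, b4]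
    omega
  · have h3 : 3 * 3 ^ j ≤ 3 ^ i := by
      rw [← pow_succ']
      exact Nat.pow_le_pow_right (by norm_num) (by omega)
    rw [← hj] at h3
    generalize 3 ^ i = q at *
    have a1 : (2 * u) / q = 0 := Nat.div_eq_of_lt (by omega)
    have a2 : m / q = 0 := Nat.div_eq_of_lt (by omega)
    have a3 : (2 * u + 3) / q = 0 := Nat.div_eq_of_lt (by omega)
    have a4 : u / q = 0 := Nat.div_eq_of_lt (by omega)
    have b1 : (2 * u + 1) / q = 0 := Nat.div_eq_of_lt (by omega)
    have b2 : (2 * m) / q = 0 := Nat.div_eq_of_lt (by omega)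
    have b3 : (2 * u + 2) / q = 0 := Nat.div_eq_of_lt (by omega)
    have b4 : 3 / q = 0 := Nat.div_eq_of_lt (by omega)
    rw [a1, a2, a3, a4, b1, b2, b3, b4]

theorem zero_term (u m : ℕ) (hm : m + 1 = 2 * u) :
    (-2 * (cst (u + 1) * (-G3 (u + 1) 0))) * ((((PA3 u 0 m).map Nat.factorial).prod : ℕ) : ℚ)
      = ((((PB3 u 0 m).map Nat.factorial).prod : ℕ) : ℚ) := by
  have h := term3 u 0 m (by omega)
  rw [add_zero] at h
  rw [h]
  have := prod_ne (PA3 u 0 m)
  have h' : ((((PA3 u 0 m).map Nat.factorial).prod : ℕ) : ℚ) ≠ 0 := by exact_mod_cast this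
  field_simp
  simp

theorem pi_neg_half {x : ℚ} (h : PI 3 (-2 * x)) : PI 3 x := by
  have h2 : PI 3 (1 / ((2 : ℕ) : ℚ)) := PI.inv (by norm_num)
  have e : x = -(1 / ((2 : ℕ) : ℚ) * (-2 * x)) := by push_cast; ring
  rw [e]
  exact (h2.mul Nat.prime_three h).neg

theorem zero_PI (u : ℕ) (hu : 1 ≤ u) (hp : ∀ j : ℕ, 2 * u + 3 ≠ 3 ^ j) :
    PI 3 (cst (u + 1) * (-G3 (u + 1) 0)) := by
  obtain ⟨m, hm⟩ : ∃ m, m + 1 = 2 * u := ⟨2 * u - 1, by omega⟩
  exact pi_neg_half (PI.of_val Nat.prime_three (prod_ne _) (prod_ne _) (zero_term u m hm)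
    (val_le_zero u m hu hm hp))

theorem zero_PI3 (u : ℕ) (hu : 1 ≤ u) : PI 3 (3 * (cst (u + 1) * (-G3 (u + 1) 0))) := by
  obtain ⟨m, hm⟩ : ∃ m, m + 1 = 2 * u := ⟨2 * u - 1, by omega⟩
  apply pi_neg_half
  have h := zero_term u m hm
  have ha : 3 * ((PB3 u 0 m).map Nat.factorial).prod ≠ 0 := mul_ne_zero (by norm_num) (prod_ne _)
  refine PI.of_val Nat.prime_three ha (prod_ne (PA3 u 0 m)) ?_ ?_
  · push_cast at h ⊢
    rw [← h]
    ring
  · rw [Nat.factorization_mul (by norm_num) (prod_ne _), Finsupp.add_apply,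
      Nat.Prime.factorization_self Nat.prime_three]
    have := val_le_one u m hm
    omega

theorem zero_not_PI (u j : ℕ) (hu : 1 ≤ u) (hj : 2 * u + 3 = 3 ^ j) :
    ¬ PI 3 (cst (u + 1) * (-G3 (u + 1) 0)) := by
  obtain ⟨m, hm⟩ : ∃ m, m + 1 = 2 * u := ⟨2 * u - 1, by omega⟩
  intro hP
  have h2 : PI 3 (-2 * (cst (u + 1) * (-G3 (u + 1) 0))) := by
    have := (PI.int Nat.prime_three (-2)).mul Nat.prime_three hP
    push_cast at this
    exact this
  refine not_PI_of_val (prod_ne _) (prod_ne _) (zero_term u m hm) ?_ h2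
  rw [val_eq_succ u m j hu hm hj]
  omega

end Q266.RamB
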