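import Mathlib
import Pool.Agent.Q266.RamB4

/-!
Integrality of the normalised `(8j+1)` sum at `2304`.
-/

namespace Q266.RamB

open Finset Q266.FacDvd Q266.FacVal Q266.PInt

/-- the sum of the problem, normalised -/
noncomputable def bb (n : ℕ) : ℚ :=
  1 / (2 * (n : ℚ) * (2 * (n : ℚ) + 1) * ((2 * n).choose n : ℚ)) *
    ∑ j ∈ Finset.range n, (2304 : ℚ) ^ (n - 1 - j) * (8 * (j : ℚ) + 1) * ((4 * j).factorial : ℚ) /
      (j.factorial : ℚ) ^ 4

/-! ### the prime two -/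

theorem two_term (i j : ℕ) (h : 1 ≤ i + j) :
    PI 2 (1 / (2 * ((i + j + 1 : ℕ) : ℚ) * (2 * ((i + j + 1 : ℕ) : ℚ) + 1) *
      ((2 * (i + j + 1)).choose (i + j + 1) : ℚ)) * ((2304 : ℚ) ^ i * (8 * (j : ℚ) + 1) *
        ((4 * j).factorial : ℚ) / (j.factorial : ℚ) ^ 4)) := by
  obtain ⟨y, hy⟩ : ∃ y : ℚ, y = 256 ^ i * ((4 * j).factorial : ℚ) * ((i + j).factorial : ℚ) *
    ((i + j + 1).factorial : ℚ) / (2 * ((2 * (i + j + 1) + 1).factorial : ℚ) *
      (j.factorial : ℚ) ^ 4) := ⟨_, rfl⟩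
  have e : 1 / (2 * ((i + j + 1 : ℕ) : ℚ) * (2 * ((i + j + 1 : ℕ) : ℚ) + 1) *
      ((2 * (i + j + 1)).choose (i + j + 1) : ℚ)) * ((2304 : ℚ) ^ i * (8 * (j : ℚ) + 1) *
        ((4 * j).factorial : ℚ) / (j.factorial : ℚ) ^ 4)
      = (((9 ^ i * (8 * j + 1) : ℤ)) : ℚ) * y := by
    rw [hy, cb, show (2304 : ℚ) = 9 * 256 by norm_num, mul_pow, Nat.factorial_succ (2 * (i + j + 1)),
      Nat.factorial_succ (i + j)]
    have g1 := fac_ne (2 * (i + j + 1))
    have g2 := fac_ne (i + j)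
    have g3 := fac_ne j
    generalize (2 * (i + j + 1)).factorial = A at *
    generalize (i + j).factorial = B at *
    generalize j.factorial = C at *
    push_cast
    have q1 : (i : ℚ) + j + 1 ≠ 0 := by positivity
    have q2 : 2 * ((i : ℚ) + j + 1) + 1 ≠ 0 := by positivity
    field_simp
  rw [e]
  refine (PI.int Nat.prime_two _).mul Nat.prime_two ?_
  have n1 := Nat.factorial_ne_zero (4 * j)
  have n2 := Nat.factorial_ne_zero (i + j)
  have n3 := Nat.factorial_ne_zero (i + j + 1)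
  have n4 := Nat.factorial_ne_zero (2 * (i + j + 1) + 1)
  have n5 := Nat.factorial_ne_zero j
  have n6 : (j.factorial) ^ 4 ≠ 0 := pow_ne_zero _ n5
  have n7 : (2 : ℕ) ^ (8 * i) ≠ 0 := by positivity
  have ha : 2 ^ (8 * i) * ((4 * j).factorial * ((i + j).factorial * (i + j + 1).factorial)) ≠ 0 :=
    mul_ne_zero n7 (mul_ne_zero n1 (mul_ne_zero n2 n3))
  have hb : 2 * ((2 * (i + j + 1) + 1).factorial * (j.factorial) ^ 4) ≠ 0 :=
    mul_ne_zero (by norm_num) (mul_ne_zero n4 n6)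
  refine PI.of_val Nat.prime_two ha hb ?_ ?_
  · rw [hy]
    have g1 := fac_ne (2 * (i + j + 1) + 1)
    have g3 := fac_ne j
    push_cast
    rw [pow_mul]
    norm_num
    field_simp
  · rw [Nat.factorization_mul (by norm_num) (mul_ne_zero n4 n6), Nat.factorization_mul n4 n6,
      Nat.factorization_mul n7 (mul_ne_zero n1 (mul_ne_zero n2 n3)),
      Nat.factorization_mul n1 (mul_ne_zero n2 n3), Nat.factorization_mul n2 n3,
      Nat.Prime.factorization_pow Nat.prime_two, Nat.factorization_pow]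
    simp only [Finsupp.add_apply, Finsupp.single_eq_same, Finsupp.smul_apply, smul_eq_mul,
      Nat.Prime.factorization_self Nat.prime_two]
    change 1 + (v (2 * (i + j + 1) + 1) + 4 * v j) ≤ 8 * i + (v (4 * j) + (v (i + j) +
      v (i + j + 1)))
    have h1 := v_succ_double (i + j + 1)
    have h2 := v_double (2 * j)
    have h3 := v_double j
    have h4 := v_add_le i j
    rw [show 2 * (2 * j) = 4 * j by ring] at h2
    rw [h1, h2, h3]
    rcases Nat.eq_zero_or_pos j with h0 | h0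
    · subst h0
      rw [v_zero] at *
      omega
    · have h5 := v_lt j (by omega)
      omega

theorem bb_PI_two (n : ℕ) (hn : 2 ≤ n) : PI 2 (bb n) := by
  unfold bb
  rw [Finset.mul_sum]
  refine PI.sum Nat.prime_two _ _ fun j hj => ?_
  rw [Finset.mem_range] at hj
  obtain ⟨i, rfl⟩ : ∃ i, n = i + j + 1 := ⟨n - 1 - j, by omega⟩
  have h1 : i + j + 1 - 1 - j = i := by omega
  rw [h1]
  exact two_term i j (by omega)

/-! ### the expansions -/

theorem F1_at_zero (j : ℕ) : F1 j 0 = (8 * (j : ℚ) + 1) * ((4 * j).factorial : ℚ) /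
    (j.factorial : ℚ) ^ 4 / 2304 ^ j := by
  unfold F1
  rw [if_pos (Nat.zero_le _)]
  have i1 : ((j : ℤ)) - ((0 : ℕ) : ℤ) = (j : ℤ) := by simp
  have i2 : 2 * (j : ℤ) + ((0 : ℕ) : ℤ) = ((2 * j : ℕ) : ℤ) := by push_cast; ring
  have i3 : g ((0 : ℕ) : ℤ) = 1 := by simpa using g_zero
  rw [i1, i2, i3, g_nat, g_nat, Nat.sub_zero]
  have s1 : 2 * (2 * j) = 4 * j := by ring
  have e1 : (2304 : ℚ) ^ j = 36 ^ j * (4 ^ j * 4 ^ (2 * j)) := by
    have h1 : (4 : ℚ) ^ j * 4 ^ (2 * j) = 64 ^ j := by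
      rw [← pow_add]
      have : (64 : ℚ) = 4 ^ 3 := by norm_num
      rw [this, ← pow_mul]
      congr 1
      ring
    rw [h1, ← mul_pow]
    norm_num
  rw [s1, e1]
  have g1 := fac_ne j
  have g2 := fac_ne (2 * j)
  field_simp
  push_cast
  ring

theorem F3_at_zero (j : ℕ) : F3 j 0 = (8 * (j : ℚ) + 1) * ((4 * j).factorial : ℚ) /
    (j.factorial : ℚ) ^ 4 / 2304 ^ j := by
  unfold F3
  rw [if_pos (Nat.zero_le _)]
  have i2 : 2 * (j : ℤ) - 3 * ((0 : ℕ) : ℤ) = ((2 * j : ℕ) : ℤ) := by push_cast; ring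
  have i3 : g ((0 : ℕ) : ℤ) = 1 := by simpa using g_zero
  rw [i2, i3, g_nat, g_nat, Nat.sub_zero]
  have s1 : 2 * (2 * j) = 4 * j := by ring
  have e1 : (2304 : ℚ) ^ j = 36 ^ j * (4 ^ j * 4 ^ (2 * j)) := by
    have h1 : (4 : ℚ) ^ j * 4 ^ (2 * j) = 64 ^ j := by
      rw [← pow_add]
      have : (64 : ℚ) = 4 ^ 3 := by norm_num
      rw [this, ← pow_mul]
      congr 1
      ring
    rw [h1, ← mul_pow]
    norm_num
  rw [s1, e1]
  have g1 := fac_ne j
  have g2 := fac_ne (2 * j)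
  field_simp
  push_cast
  ring

theorem bb_eq (n : ℕ) : bb n = cst n * ∑ j ∈ range n, (8 * (j : ℚ) + 1) *
    ((4 * j).factorial : ℚ) / (j.factorial : ℚ) ^ 4 / 2304 ^ j := by
  unfold bb cst
  rw [Finset.mul_sum, Finset.mul_sum]
  apply Finset.sum_congr rfl
  intro j hj
  rw [Finset.mem_range] at hj
  have h1 : (2304 : ℚ) ^ (n - 1) = 2304 ^ (n - 1 - j) * 2304 ^ j := by
    rw [← pow_add]; congr 1; omega
  rw [h1]
  have h8 : (2304 : ℚ) ^ j ≠ 0 := pow_ne_zero _ (by norm_num)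
  field_simp

theorem bb_eq1 (n : ℕ) : bb n = ∑ k ∈ range n, cst n * (-G1 n k) := by
  rw [bb_eq]
  have h1 : ∑ j ∈ range n, (8 * (j : ℚ) + 1) * ((4 * j).factorial : ℚ) /
      (j.factorial : ℚ) ^ 4 / 2304 ^ j = ∑ j ∈ range n, F1 j 0 :=
    Finset.sum_congr rfl fun j _ => (F1_at_zero j).symm
  rw [h1, telescope F1 G1 pair1 (fun k => by simp [G1]) (fun m k h => by
    unfold F1; rw [if_neg (by omega)]) n, ← Finset.sum_neg_distrib, Finset.mul_sum]

theorem bb_eq3 (n : ℕ) : bb n = ∑ k ∈ range n, cst n * (-G3 n k) := by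
  rw [bb_eq]
  have h1 : ∑ j ∈ range n, (8 * (j : ℚ) + 1) * ((4 * j).factorial : ℚ) /
      (j.factorial : ℚ) ^ 4 / 2304 ^ j = ∑ j ∈ range n, F3 j 0 :=
    Finset.sum_congr rfl fun j _ => (F3_at_zero j).symm
  rw [h1, telescope F3 G3 pair3 (fun k => by simp [G3]) (fun m k h => by
    unfold F3; rw [if_neg (by omega)]) n, ← Finset.sum_neg_distrib, Finset.mul_sum]

theorem bb_PI_five (p : ℕ) (hp : p.Prime) (h5 : 5 ≤ p) (n : ℕ) : PI p (bb n) := by
  rw [bb_eq1]
  refine PI.sum hp _ _ fun k hk => ?_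
  rw [Finset.mem_range] at hk
  obtain ⟨u, rfl⟩ : ∃ u, n = u + k + 1 := ⟨n - 1 - k, by omega⟩
  exact term1_PI p hp h5 u k

theorem bb_split (n : ℕ) (hn : 2 ≤ n) :
    ∃ y : ℚ, PI 3 y ∧ bb n = y + cst (n - 1 + 1) * (-G3 (n - 1 + 1) 0) := by
  obtain ⟨m, rfl⟩ : ∃ m, n = m + 1 := ⟨n - 1, by omega⟩
  rw [bb_eq3, Finset.sum_range_succ', Nat.add_sub_cancel]
  refine ⟨_, ?_, rfl⟩
  refine PI.sum Nat.prime_three _ _ fun k hk => ?_
  rw [Finset.mem_range] at hk
  obtain ⟨u, hu⟩ : ∃ u, m + 1 = u + (k + 1) + 1 := ⟨m - 1 - k, by omega⟩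
  rw [hu]
  exact term3_PI u (k + 1) (by omega)

theorem prime_cases {p : ℕ} (hp : p.Prime) : p = 2 ∨ p = 3 ∨ 5 ≤ p := by
  have h2 := hp.two_le
  by_cases h : 5 ≤ p
  · exact Or.inr (Or.inr h)
  · have : p = 2 ∨ p = 3 ∨ p = 4 := by omega
    rcases this with h | h | h
    · exact Or.inl h
    · exact Or.inr (Or.inl h)
    · subst h
      exact absurd hp (by norm_num)

theorem bb_main (n : ℕ) (hn : 2 ≤ n) :
    ((∀ m : ℕ, 2 * n + 1 ≠ 3 ^ m) → ∃ z : ℤ, bb n = z) ∧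
      ((∃ m : ℕ, 2 * n + 1 = 3 ^ m) → ∃ z : ℤ, 3 * bb n = z ∧ ¬ (3 : ℤ) ∣ z) := by
  obtain ⟨y, hy, hb⟩ := bb_split n hn
  constructor
  · intro hp
    apply int_of_PI
    intro p hpp
    rcases prime_cases hpp with h | h | h
    · subst h; exact bb_PI_two n hn
    · subst h
      rw [hb]
      exact hy.add hpp (zero_PI (n - 1) (by omega) fun j hj => hp j (by omega))
    · exact bb_PI_five p hpp h n
  · rintro ⟨m, hm⟩
    have h3 : ∃ z : ℤ, 3 * bb n = z := by
      apply int_of_PI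
      intro p hpp
      rcases prime_cases hpp with h | h | h
      · subst h
        have := (PI.int hpp 3).mul hpp (bb_PI_two n hn)
        push_cast at this
        exact this
      · subst h
        rw [hb, mul_add]
        have := (PI.int hpp 3).mul hpp hy
        push_cast at this
        exact this.add hpp (zero_PI3 (n - 1) (by omega))
      · have := (PI.int hpp 3).mul hpp (bb_PI_five p hpp h n)
        push_cast at this
        exact this
    obtain ⟨z, hz⟩ := h3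
    refine ⟨z, hz, ?_⟩
    have hz' : ((3 : ℕ) : ℚ) * bb n = z := by push_cast; exact hz
    have := not_dvd_of_not_PI Nat.prime_three z hz' (by
      intro hP
      apply zero_not_PI (n - 1) m (by omega) (by omega)
      have e : cst (n - 1 + 1) * (-G3 (n - 1 + 1) 0) = bb n - y := by rw [hb]; ring
      rw [e]
      exact hP.sub Nat.prime_three hy)
    exact_mod_cast this

end Q266.RamB
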