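import Mathlib

/-!
# Characteristic polynomial of a real matrix of order four, explicitly
-/

namespace Pool.Agent.Q266.SPat

open Polynomial Matrix

/-- The principal minor of order two. -/
def m2 (A : Matrix (Fin 4) (Fin 4) ℝ) (i j : Fin 4) : ℝ := A i i * A j j - A i j * A j i

/-- The principal minor of order three. -/
def m3 (A : Matrix (Fin 4) (Fin 4) ℝ) (i j l : Fin 4) : ℝ :=
  A i i * (A j j * A l l - A j l * A l j) - A i j * (A j i * A l l - A j l * A l i)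
    + A i l * (A j i * A l j - A j j * A l i)

/-- The coefficient of `X ^ 3`. -/
def k3 (A : Matrix (Fin 4) (Fin 4) ℝ) : ℝ := -(A 0 0 + A 1 1 + A 2 2 + A 3 3)

/-- The coefficient of `X ^ 2`. -/
def k2 (A : Matrix (Fin 4) (Fin 4) ℝ) : ℝ :=
  m2 A 0 1 + m2 A 0 2 + m2 A 0 3 + m2 A 1 2 + m2 A 1 3 + m2 A 2 3

/-- The coefficient of `X`. -/
def k1 (A : Matrix (Fin 4) (Fin 4) ℝ) : ℝ :=
  -(m3 A 0 1 2 + m3 A 0 1 3 + m3 A 0 2 3 + m3 A 1 2 3)

/-- The minor of rows 1 2 3 and columns `a b c`. -/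
def mm (A : Matrix (Fin 4) (Fin 4) ℝ) (a b c : Fin 4) : ℝ :=
  A 1 a * (A 2 b * A 3 c - A 2 c * A 3 b) - A 1 b * (A 2 a * A 3 c - A 2 c * A 3 a)
    + A 1 c * (A 2 a * A 3 b - A 2 b * A 3 a)

/-- The constant coefficient. -/
def k0 (A : Matrix (Fin 4) (Fin 4) ℝ) : ℝ :=
  A 0 0 * mm A 1 2 3 - A 0 1 * mm A 0 2 3 + A 0 2 * mm A 0 1 3 - A 0 3 * mm A 0 1 2

theorem charpoly_eq (A : Matrix (Fin 4) (Fin 4) ℝ) :
    A.charpoly = X ^ 4 + C (k3 A) * X ^ 3 + C (k2 A) * X ^ 2 + C (k1 A) * X + C (k0 A) := by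
  rw [Matrix.charpoly, Matrix.det_succ_row_zero]
  simp only [Fin.sum_univ_succ, Matrix.det_fin_three, Matrix.submatrix_apply, Fin.isValue,
    Matrix.charmatrix_apply, Finset.univ_unique, Fin.default_eq_zero, Finset.sum_singleton]
  simp [Matrix.diagonal, Fin.succAbove, Fin.ext_iff, k3, k2, k1, k0, m2, m3, mm]
  ring

end Pool.Agent.Q266.SPat
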