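import Mathlib

/-!
# Real quartics close to a given one and their factors of degree two
-/

namespace Pool.Agent.Q266.SPat

open Polynomial

/-- A monic real polynomial of degree at least two has a real quadratic factor. -/
theorem exists_quad_dvd (P : ℝ[X]) (hP : P.Monic) (hd : 2 ≤ P.natDegree) :
    ∃ s q : ℝ, (X ^ 2 + C s * X + C q) ∣ P := by
  have key : ∀ Q : ℝ[X], ∀ z : ℂ, aeval z Q = 0 → z.im ≠ 0 →
      ∃ s q : ℝ, (X ^ 2 + C s * X + C q) ∣ Q := by
    intro Q z hz him
    refine ⟨-(2 * z.re), ‖z‖ ^ 2, ?_⟩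
    have h := Polynomial.quadratic_dvd_of_aeval_eq_zero_im_ne_zero Q hz him
    have e : (X ^ 2 + C (-(2 * z.re)) * X + C (‖z‖ ^ 2) : ℝ[X])
        = X ^ 2 - C (2 * z.re) * X + C (‖z‖ ^ 2) := by
      rw [C_neg]; ring
    rw [e]; exact h
  have hdeg : P.degree ≠ 0 := by
    intro h
    have := Polynomial.natDegree_eq_of_degree_eq_some (n := 0) (by simpa using h)
    omega
  obtain ⟨z, hz⟩ := IsAlgClosed.exists_aeval_eq_zero ℂ P hdeg
  by_cases him : z.im = 0
  · have hzr : z = ((z.re : ℝ) : ℂ) := by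
      apply Complex.ext <;> simp [him]
    have hroot : P.IsRoot z.re := by
      rw [hzr] at hz
      have : ((P.eval z.re : ℝ) : ℂ) = 0 := by
        rw [← hz]
        have := Polynomial.aeval_algebraMap_apply ℂ z.re P
        simpa using this.symm
      simpa using this
    obtain ⟨Q, hQ⟩ := Polynomial.dvd_iff_isRoot.mpr hroot
    have hQm : Q.Monic := by
      have := Polynomial.Monic.of_mul_monic_left (Polynomial.monic_X_sub_C z.re) (hQ ▸ hP)
      exact this
    have hQd : Q.natDegree = P.natDegree - 1 := by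
      rw [hQ, (Polynomial.monic_X_sub_C z.re).natDegree_mul hQm]
      simp
    have hdegQ : Q.degree ≠ 0 := by
      intro h
      have := Polynomial.natDegree_eq_of_degree_eq_some (n := 0) (by simpa using h)
      omega
    obtain ⟨z', hz'⟩ := IsAlgClosed.exists_aeval_eq_zero ℂ Q hdegQ
    by_cases him' : z'.im = 0
    · have hzr' : z' = ((z'.re : ℝ) : ℂ) := by
        apply Complex.ext <;> simp [him']
      have hroot' : Q.IsRoot z'.re := by
        rw [hzr'] at hz'
        have : ((Q.eval z'.re : ℝ) : ℂ) = 0 := by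
          rw [← hz']
          have := Polynomial.aeval_algebraMap_apply ℂ z'.re Q
          simpa using this.symm
        simpa using this
      obtain ⟨Q', hQ'⟩ := Polynomial.dvd_iff_isRoot.mpr hroot'
      refine ⟨-(z.re + z'.re), z.re * z'.re, ⟨Q', ?_⟩⟩
      rw [hQ, hQ']
      simp only [C_neg, C_add, C_mul]
      ring
    · obtain ⟨s, q, h⟩ := key Q z' hz' him'
      exact ⟨s, q, h.trans ⟨X - C z.re, by rw [hQ]; ring⟩⟩
  · exact key P z hz him

theorem quad_monic (s q : ℝ) : (X ^ 2 + C s * X + C q : ℝ[X]).Monic := by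
  monicity!

theorem quad_natDegree (s q : ℝ) : (X ^ 2 + C s * X + C q : ℝ[X]).natDegree = 2 := by
  compute_degree!

/-- A monic real quartic is a product of two real quadratics. -/
theorem exists_factor (P : ℝ[X]) (hP : P.Monic) (hd : P.natDegree = 4) :
    ∃ s₁ q₁ s₂ q₂ : ℝ, P = (X ^ 2 + C s₁ * X + C q₁) * (X ^ 2 + C s₂ * X + C q₂) := by
  obtain ⟨s, q, Q, hQ⟩ := exists_quad_dvd P hP (by omega)
  have hQm : Q.Monic := Polynomial.Monic.of_mul_monic_left (quad_monic s q) (hQ ▸ hP)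
  have hQd : Q.natDegree = 2 := by
    have := (quad_monic s q).natDegree_mul hQm
    rw [← hQ, hd, quad_natDegree] at this
    omega
  obtain ⟨s', q', Q', hQ'⟩ := exists_quad_dvd Q hQm (by omega)
  have hQm' : Q'.Monic := Polynomial.Monic.of_mul_monic_left (quad_monic s' q') (hQ' ▸ hQm)
  have hQd' : Q'.natDegree = 0 := by
    have := (quad_monic s' q').natDegree_mul hQm'
    rw [← hQ', hQd, quad_natDegree] at this
    omega
  have h1 : Q' = 1 := hQm'.natDegree_eq_zero.mp hQd'
  refine ⟨s, q, s', q', ?_⟩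
  rw [hQ, hQ', h1, mul_one]

/-- The root bound for quartics. -/
theorem root_bound (c₃ c₂ c₁ c₀ : ℝ) (z : ℂ)
    (hz : z ^ 4 + c₃ * z ^ 3 + c₂ * z ^ 2 + c₁ * z + c₀ = 0) :
    ‖z‖ ≤ 1 + |c₃| + |c₂| + |c₁| + |c₀| := by
  by_contra hcon
  push Not at hcon
  have h3 := abs_nonneg c₃
  have h2 := abs_nonneg c₂
  have h1 := abs_nonneg c₁
  have h0 := abs_nonneg c₀
  set r := ‖z‖ with hr
  have hr1 : 1 < r := by linarith
  have e : z ^ 4 = -(c₃ * z ^ 3 + c₂ * z ^ 2 + c₁ * z + c₀) := by linear_combination hz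
  have hn : r ^ 4 ≤ |c₃| * r ^ 3 + |c₂| * r ^ 2 + |c₁| * r + |c₀| := by
    calc r ^ 4 = ‖z ^ 4‖ := by rw [norm_pow]
      _ = ‖(c₃ : ℂ) * z ^ 3 + c₂ * z ^ 2 + c₁ * z + c₀‖ := by rw [e, norm_neg]
      _ ≤ ‖(c₃ : ℂ) * z ^ 3‖ + ‖(c₂ : ℂ) * z ^ 2‖ + ‖(c₁ : ℂ) * z‖ + ‖(c₀ : ℂ)‖ := by
          refine (norm_add_le _ _).trans ?_
          gcongr
          refine (norm_add_le _ _).trans ?_
          gcongr
          exact norm_add_le _ _
      _ = _ := by
          simp only [norm_mul, norm_pow, Complex.norm_real, Real.norm_eq_abs, hr]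
  have hr2 : r ^ 2 ≤ r ^ 3 := by
    have : r ^ 3 = r ^ 2 * r := by ring
    rw [this]; nlinarith [sq_nonneg r]
  have hr3 : r ≤ r ^ 3 := by nlinarith [sq_nonneg r]
  have hr4 : 1 ≤ r ^ 3 := by linarith
  have : r ^ 4 ≤ (|c₃| + |c₂| + |c₁| + |c₀|) * r ^ 3 := by
    nlinarith [mul_le_mul_of_nonneg_left hr2 h2, mul_le_mul_of_nonneg_left hr3 h1,
      mul_le_mul_of_nonneg_left hr4 h0]
  have h5 : r ^ 4 = r * r ^ 3 := by ring
  have h6 : 0 < r ^ 3 := by linarith
  have h7 : r ≤ |c₃| + |c₂| + |c₁| + |c₀| := by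
    by_contra h
    push Not at h
    nlinarith
  linarith

/-- The coefficients of a real quadratic are bounded by its complex roots. -/
theorem quad_bound (s q R : ℝ) (hR : 0 ≤ R)
    (h : ∀ z : ℂ, z ^ 2 + s * z + q = 0 → ‖z‖ ≤ R) : |s| ≤ 2 * R ∧ |q| ≤ R ^ 2 := by
  by_cases hD : 0 ≤ s ^ 2 - 4 * q
  · set d := Real.sqrt (s ^ 2 - 4 * q) with hd
    have hdd : d ^ 2 = s ^ 2 - 4 * q := Real.sq_sqrt hD
    have e1 : (((-s + d) / 2 : ℝ) : ℂ) ^ 2 + s * (((-s + d) / 2 : ℝ) : ℂ) + q = 0 := by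
      have : ((-s + d) / 2) ^ 2 + s * ((-s + d) / 2) + q = 0 := by
        linear_combination (1 / 4) * hdd
      exact_mod_cast this
    have e2 : (((-s - d) / 2 : ℝ) : ℂ) ^ 2 + s * (((-s - d) / 2 : ℝ) : ℂ) + q = 0 := by
      have : ((-s - d) / 2) ^ 2 + s * ((-s - d) / 2) + q = 0 := by
        linear_combination (1 / 4) * hdd
      exact_mod_cast this
    have b1 := h _ e1
    have b2 := h _ e2
    rw [Complex.norm_real, Real.norm_eq_abs] at b1 b2
    constructor
    · have : s = -(((-s + d) / 2) + ((-s - d) / 2)) := by ring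
      rw [this, abs_neg]
      refine (abs_add_le _ _).trans ?_
      linarith
    · have : q = ((-s + d) / 2) * ((-s - d) / 2) := by
        linear_combination (1 / 4 : ℝ) * hdd
      rw [this, abs_mul]
      nlinarith [abs_nonneg ((-s + d) / 2), abs_nonneg ((-s - d) / 2)]
  · push Not at hD
    set d := Real.sqrt (4 * q - s ^ 2) with hd
    have hdd : d ^ 2 = 4 * q - s ^ 2 := Real.sq_sqrt (by linarith)
    have e1 : ((⟨-s / 2, d / 2⟩ : ℂ)) ^ 2 + s * (⟨-s / 2, d / 2⟩ : ℂ) + q = 0 := by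
      apply Complex.ext
      · simp [pow_two]
        linear_combination (-(1 / 4) : ℝ) * hdd
      · simp [pow_two]
        ring
    have b1 := h _ e1
    have hn : ‖(⟨-s / 2, d / 2⟩ : ℂ)‖ ^ 2 = q := by
      rw [← Complex.normSq_eq_norm_sq, Complex.normSq_mk]
      linear_combination (1 / 4 : ℝ) * hdd
    have hq : q ≤ R ^ 2 := by
      rw [← hn]
      exact pow_le_pow_left₀ (norm_nonneg _) b1 2
    have hq0 : 0 ≤ q := by nlinarith [sq_nonneg s]
    refine ⟨?_, by rw [abs_of_nonneg hq0]; exact hq⟩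
    apply abs_le_of_sq_le_sq
    · nlinarith
    · linarith

/-- All but finitely many members of a pencil have no multiple root. -/
theorem finite_bad (p r : ℝ[X]) (hpd : p.natDegree = 4)
    (hroot : ∀ z : ℂ, aeval z p = 0 → aeval z r ≠ 0) :
    Set.Finite {η : ℝ | ∃ z : ℂ, aeval z (p + C η * r) = 0 ∧
      aeval z (derivative (p + C η * r)) = 0} := by
  set W : ℝ[X] := p * derivative r - derivative p * r with hW
  have hcop : IsCoprime p r := by
    rw [Polynomial.isCoprime_iff_aeval_ne_zero_of_isAlgClosed ℝ ℂ]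
    intro a
    by_cases h : aeval a p = 0
    · exact Or.inr (hroot a h)
    · exact Or.inl h
  have hW0 : W ≠ 0 := by
    intro h
    have h1 : p ∣ derivative p * r := ⟨derivative r, by linear_combination -h⟩
    have h2 : p ∣ derivative p := hcop.dvd_of_dvd_mul_right h1
    have h3 : derivative p ≠ 0 := by
      intro h
      have := Polynomial.derivative_eq_zero.mp h
      omega
    have h4 := Polynomial.natDegree_le_of_dvd h2 h3
    have h5 := Polynomial.natDegree_derivative_lt (p := p) (by omega)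
    omega
  have hfin : Set.Finite ((fun z : ℂ => (-(aeval z p) / (aeval z r)).re) '' (W.rootSet ℂ)) :=
    (W.rootSet_finite ℂ).image _
  refine hfin.subset ?_
  rintro η ⟨z, h1, h2⟩
  have e1 : aeval z p = -(η : ℂ) * aeval z r := by
    simp only [map_add, map_mul, aeval_C] at h1
    have : (algebraMap ℝ ℂ) η = (η : ℂ) := rfl
    rw [this] at h1
    linear_combination h1
  have e2 : aeval z (derivative p) = -(η : ℂ) * aeval z (derivative r) := by
    simp only [map_add, derivative_mul, derivative_C, zero_mul, zero_add, map_mul, aeval_C] at h2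
    have : (algebraMap ℝ ℂ) η = (η : ℂ) := rfl
    rw [this] at h2
    linear_combination h2
  have hr0 : aeval z r ≠ 0 := by
    intro h
    have : aeval z p = 0 := by rw [e1, h, mul_zero]
    exact hroot z this h
  refine ⟨z, ?_, ?_⟩
  · rw [Polynomial.mem_rootSet]
    refine ⟨hW0, ?_⟩
    rw [hW, map_sub, map_mul, map_mul, e1, e2]
    ring
  · have : -(aeval z p) / (aeval z r) = (η : ℂ) := by
      rw [e1]; field_simp
    simp only [this]
    simp

/-- The resultant of two monic quadratics. -/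
def res (s₁ q₁ s₂ q₂ : ℝ) : ℝ := (q₁ - q₂) ^ 2 + (s₁ - s₂) * (s₁ * q₂ - s₂ * q₁)

theorem common_root (s₁ q₁ s₂ q₂ : ℝ) (h : res s₁ q₁ s₂ q₂ = 0) :
    ∃ z : ℂ, z ^ 2 + s₁ * z + q₁ = 0 ∧ z ^ 2 + s₂ * z + q₂ = 0 := by
  unfold res at h
  by_cases hs : s₁ = s₂
  · subst hs
    have hq : q₁ = q₂ := by
      have : (q₁ - q₂) ^ 2 = 0 := by linear_combination h
      have := pow_eq_zero_iff (two_ne_zero) |>.mp this
      linarith
    subst hq
    have hdeg : (X ^ 2 + C s₁ * X + C q₁ : ℝ[X]).degree ≠ 0 := by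
      intro h
      have := Polynomial.natDegree_eq_of_degree_eq_some (n := 0) (by simpa using h)
      rw [quad_natDegree] at this
      omega
    obtain ⟨z, hz⟩ := IsAlgClosed.exists_aeval_eq_zero ℂ _ hdeg
    simp only [map_add, map_mul, map_pow, aeval_X, aeval_C] at hz
    exact ⟨z, hz, hz⟩
  · have hs' : s₁ - s₂ ≠ 0 := sub_ne_zero.mpr hs
    have e1 : ((q₂ - q₁) / (s₁ - s₂)) ^ 2 + s₁ * ((q₂ - q₁) / (s₁ - s₂)) + q₁ = 0 := by
      field_simp
      linear_combination h
    have e2 : ((q₂ - q₁) / (s₁ - s₂)) ^ 2 + s₂ * ((q₂ - q₁) / (s₁ - s₂)) + q₂ = 0 := by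
      field_simp
      linear_combination h
    refine ⟨(((q₂ - q₁) / (s₁ - s₂) : ℝ) : ℂ), ?_, ?_⟩
    · exact_mod_cast e1
    · exact_mod_cast e2

end Pool.Agent.Q266.SPat
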