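import Pool.Agent.Q266.SPatB

/-!
# Choice of a pencil member with two coprime quadratic factors
-/

namespace Pool.Agent.Q266.SPat

open Polynomial

/-- A linear form is admissible if it is `X + K`, `X - K`, `1` or `-1`. -/
def Adm (K u₁ u₀ : ℝ) : Prop :=
  (u₁ = 1 ∧ (u₀ = K ∨ u₀ = -K)) ∨ (u₁ = 0 ∧ (u₀ = 1 ∨ u₀ = -1))

theorem Adm.bound {K u₁ u₀ : ℝ} (hK : 1 ≤ K) (h : Adm K u₁ u₀) : |u₁| ≤ 1 ∧ |u₀| ≤ K := by
  rcases h with ⟨rfl, rfl | rfl⟩ | ⟨rfl, rfl | rfl⟩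
  · exact ⟨by simp, by rw [abs_of_nonneg (by linarith)]⟩
  · exact ⟨by simp, by rw [abs_neg, abs_of_nonneg (by linarith)]⟩
  · exact ⟨by simp, by simpa using hK⟩
  · exact ⟨by simp, by simpa using hK⟩

theorem Adm.ne {K u₁ u₀ : ℝ} (hK : 1 ≤ K) (h : Adm K u₁ u₀) (z : ℂ) (hz : ‖z‖ < K) :
    (u₁ : ℂ) * z + u₀ ≠ 0 := by
  rcases h with ⟨rfl, rfl | rfl⟩ | ⟨rfl, rfl | rfl⟩
  · intro h
    have : z = -(u₀ : ℂ) := by
      simp only [Complex.ofReal_one, one_mul] at h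
      linear_combination h
    rw [this, norm_neg, Complex.norm_real, Real.norm_eq_abs, abs_of_nonneg (by linarith)] at hz
    exact lt_irrefl _ hz
  · intro h
    have : z = (K : ℂ) := by
      simp only [Complex.ofReal_one, one_mul, Complex.ofReal_neg] at h
      linear_combination h
    rw [this, Complex.norm_real, Real.norm_eq_abs, abs_of_nonneg (by linarith)] at hz
    exact lt_irrefl _ hz
  · simp
  · simp

theorem abs_bd {a η x δ M : ℝ} (h1 : |η| ≤ δ) (h2 : |x| ≤ M) : |a + η * x| ≤ |a| + δ * M := by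
  refine (abs_add_le _ _).trans ?_
  rw [abs_mul]
  have := mul_le_mul h1 h2 (abs_nonneg x) ((abs_nonneg η).trans h1)
  linarith

theorem abs_mul_bd {a b A B : ℝ} (h1 : |a| ≤ A) (h2 : |b| ≤ B) : |a * b| ≤ A * B := by
  rw [abs_mul]
  exact mul_le_mul h1 h2 (abs_nonneg b) ((abs_nonneg a).trans h1)

theorem abs_add_bd {a b A B : ℝ} (h1 : |a| ≤ A) (h2 : |b| ≤ B) : |a + b| ≤ A + B :=
  (abs_add_le _ _).trans (add_le_add h1 h2)

theorem pos_of_bounds {R K s q : ℝ} (hR : 2 ≤ R) (hK : K = 4 * R + 2 * R ^ 2 + 1)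
    (hs : |s| ≤ 2 * R) (hq : |q| ≤ R ^ 2) :
    0 < K - s ∧ 0 < K + s ∧ 0 < q + (K - s) * K ∧ 0 < q + K * (K + s) := by
  obtain ⟨hs1, hs2⟩ := abs_le.mp hs
  obtain ⟨hq1, hq2⟩ := abs_le.mp hq
  have hRR := sq_nonneg R
  have a1 : R ^ 2 + 1 ≤ K - s := by linarith
  have a2 : R ^ 2 + 1 ≤ K + s := by linarith
  have hK1 : 1 ≤ K := by linarith
  refine ⟨by linarith, by linarith, ?_, ?_⟩
  · have : (R ^ 2 + 1) * 1 ≤ (K - s) * K := mul_le_mul a1 hK1 (by norm_num) (by linarith)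
    linarith
  · have : 1 * (R ^ 2 + 1) ≤ K * (K + s) := mul_le_mul hK1 a2 (by linarith) (by linarith)
    linarith

theorem exists_pencil (c₃ c₂ c₁ c₀ : ℝ) : ∃ K : ℝ, 1 ≤ K ∧ ∀ u₁ u₀ w₁ w₀ : ℝ,
    Adm K u₁ u₀ → Adm K w₁ w₀ → ∀ ε : ℝ, (ε = 1 ∨ ε = -1) →
    ∃ η s₁ q₁ s₂ q₂ : ℝ, 0 < ε * η ∧ res s₁ q₁ s₂ q₂ ≠ 0 ∧
      (0 < K - s₁ ∧ 0 < K + s₁ ∧ 0 < q₁ + (K - s₁) * K ∧ 0 < q₁ + K * (K + s₁)) ∧
      (0 < K - s₂ ∧ 0 < K + s₂ ∧ 0 < q₂ + (K - s₂) * K ∧ 0 < q₂ + K * (K + s₂)) ∧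
      s₁ + s₂ = c₃ ∧
      q₁ + q₂ + s₁ * s₂ - η * (u₁ * w₁) = c₂ ∧
      s₁ * q₂ + s₂ * q₁ - η * (u₁ * w₀ + u₀ * w₁) = c₁ ∧
      q₁ * q₂ - η * (u₀ * w₀) = c₀ := by
  obtain ⟨R, hR⟩ : ∃ R : ℝ, R = 2 + |c₃| + |c₂| + |c₁| + |c₀| := ⟨_, rfl⟩
  have h3 := abs_nonneg c₃
  have h2 := abs_nonneg c₂
  have h1 := abs_nonneg c₁
  have h0 := abs_nonneg c₀
  have hR2 : 2 ≤ R := by rw [hR]; linarith
  obtain ⟨K, hK⟩ : ∃ K : ℝ, K = 4 * R + 2 * R ^ 2 + 1 := ⟨_, rfl⟩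
  have hK1 : 1 ≤ K := by rw [hK]; nlinarith [sq_nonneg R]
  have hRK : R < K := by rw [hK]; nlinarith [sq_nonneg R]
  refine ⟨K, hK1, ?_⟩
  intro u₁ u₀ w₁ w₀ hu hw ε hε
  obtain ⟨hu1, hu0⟩ := hu.bound hK1
  obtain ⟨hw1, hw0⟩ := hw.bound hK1
  obtain ⟨p, hp⟩ : ∃ p : ℝ[X], p = X ^ 4 + C c₃ * X ^ 3 + C c₂ * X ^ 2 + C c₁ * X + C c₀ :=
    ⟨_, rfl⟩
  obtain ⟨r, hr⟩ : ∃ r : ℝ[X], r = (C u₁ * X + C u₀) * (C w₁ * X + C w₀) := ⟨_, rfl⟩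
  have hpd : p.natDegree = 4 := by rw [hp]; compute_degree!
  have aep : ∀ z : ℂ, aeval z p = z ^ 4 + c₃ * z ^ 3 + c₂ * z ^ 2 + c₁ * z + c₀ := by
    intro z
    simp only [hp, map_add, map_mul, map_pow, aeval_X, aeval_C]
    rfl
  have aer : ∀ z : ℂ, aeval z r = (u₁ * z + u₀) * (w₁ * z + w₀) := by
    intro z
    simp only [hr, map_add, map_mul, aeval_X, aeval_C]
    rfl
  have hroot : ∀ z : ℂ, aeval z p = 0 → aeval z r ≠ 0 := by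
    intro z hz
    have hb : ‖z‖ < K := by
      refine lt_of_le_of_lt (root_bound c₃ c₂ c₁ c₀ z (by rw [← aep]; exact hz)) ?_
      linarith
    rw [aer]
    exact mul_ne_zero (hu.ne hK1 z hb) (hw.ne hK1 z hb)
  have hfin := finite_bad p r hpd hroot
  set S := {η : ℝ | ∃ z : ℂ, aeval z (p + C η * r) = 0 ∧
      aeval z (derivative (p + C η * r)) = 0} with hS
  obtain ⟨δ, hδ⟩ : ∃ δ : ℝ, δ = 1 / (1 + K) ^ 2 := ⟨_, rfl⟩
  have hδ0 : 0 < δ := by rw [hδ]; positivity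
  have hε2 : ε * ε = 1 := by rcases hε with rfl | rfl <;> norm_num
  have hεa : |ε| = 1 := by rcases hε with rfl | rfl <;> norm_num
  have hfin' : Set.Finite ((fun t : ℝ => ε * t) ⁻¹' S) := by
    apply hfin.preimage
    intro a _ b _ hab
    have : ε * (ε * a) = ε * (ε * b) := congrArg (fun x => ε * x) hab
    rw [← mul_assoc, ← mul_assoc, hε2, one_mul, one_mul] at this
    exact this
  obtain ⟨t, ht, htS⟩ := (Set.Ioo_infinite hδ0).exists_notMem_finite hfin'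
  obtain ⟨η, hη⟩ : ∃ η : ℝ, η = ε * t := ⟨_, rfl⟩
  have hηS : η ∉ S := by rw [hη]; exact htS
  have hηa : |η| ≤ δ := by
    rw [hη, abs_mul, hεa, one_mul, abs_of_pos ht.1]; exact ht.2.le
  have hεη : 0 < ε * η := by
    rw [hη, ← mul_assoc, hε2, one_mul]; exact ht.1
  obtain ⟨P, hP⟩ : ∃ P : ℝ[X], P = p + C η * r := ⟨_, rfl⟩
  have hPe : P = X ^ 4 + C c₃ * X ^ 3 + C (c₂ + η * (u₁ * w₁)) * X ^ 2
      + C (c₁ + η * (u₁ * w₀ + u₀ * w₁)) * X + C (c₀ + η * (u₀ * w₀)) := by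
    rw [hP, hp, hr]
    simp only [C_add, C_mul]
    ring
  have hPm : P.Monic := by rw [hPe]; monicity!
  have hPd : P.natDegree = 4 := by rw [hPe]; compute_degree!
  obtain ⟨s₁, q₁, s₂, q₂, hf⟩ := exists_factor P hPm hPd
  have hev : ∀ x : ℝ, x ^ 4 + c₃ * x ^ 3 + (c₂ + η * (u₁ * w₁)) * x ^ 2
      + (c₁ + η * (u₁ * w₀ + u₀ * w₁)) * x + (c₀ + η * (u₀ * w₀))
      = (x ^ 2 + s₁ * x + q₁) * (x ^ 2 + s₂ * x + q₂) := by
    intro x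
    have := congrArg (fun f : ℝ[X] => f.eval x) (hPe.symm.trans hf)
    simpa using this
  have e0 := hev 0
  have e1 := hev 1
  have e2 := hev (-1)
  have e3 := hev 2
  have k0 : q₁ * q₂ - η * (u₀ * w₀) = c₀ := by linear_combination -e0
  have k2 : q₁ + q₂ + s₁ * s₂ - η * (u₁ * w₁) = c₂ := by
    linear_combination -(1 / 2 : ℝ) * e1 - (1 / 2) * e2 + e0
  have k3 : s₁ + s₂ = c₃ := by
    linear_combination (1 / 2 : ℝ) * e1 - (1 / 6 : ℝ) * e3 - (1 / 2 : ℝ) * e0 + (1 / 6 : ℝ) * e2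
  have k1 : s₁ * q₂ + s₂ * q₁ - η * (u₁ * w₀ + u₀ * w₁) = c₁ := by
    linear_combination -(1 / 2 : ℝ) * e1 + (1 / 2) * e2 - k3
  have aeP : ∀ z : ℂ, aeval z P = (z ^ 2 + s₁ * z + q₁) * (z ^ 2 + s₂ * z + q₂) := by
    intro z
    rw [hf]
    simp only [map_add, map_mul, map_pow, aeval_X, aeval_C]
    rfl
  have hb : ∀ z : ℂ, aeval z P = 0 → ‖z‖ ≤ R := by
    intro z hz
    have hz' : z ^ 4 + c₃ * z ^ 3 + ((c₂ + η * (u₁ * w₁) : ℝ) : ℂ) * z ^ 2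
        + ((c₁ + η * (u₁ * w₀ + u₀ * w₁) : ℝ) : ℂ) * z + ((c₀ + η * (u₀ * w₀) : ℝ) : ℂ) = 0 := by
      rw [← hz, hPe]
      simp only [map_add, map_mul, map_pow, aeval_X, aeval_C, Complex.coe_algebraMap]
      push_cast
      ring
    refine (root_bound _ _ _ _ z hz').trans ?_
    have b2 : |c₂ + η * (u₁ * w₁)| ≤ |c₂| + δ * (1 * 1) := abs_bd hηa (abs_mul_bd hu1 hw1)
    have b1 : |c₁ + η * (u₁ * w₀ + u₀ * w₁)| ≤ |c₁| + δ * (1 * K + K * 1) :=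
      abs_bd hηa (abs_add_bd (abs_mul_bd hu1 hw0) (abs_mul_bd hu0 hw1))
    have b0 : |c₀ + η * (u₀ * w₀)| ≤ |c₀| + δ * (K * K) := abs_bd hηa (abs_mul_bd hu0 hw0)
    have hδK : δ * (1 + K) ^ 2 = 1 := by
      rw [hδ]; field_simp
    have : δ * (1 * 1) + δ * (1 * K + K * 1) + δ * (K * K) = 1 := by
      linear_combination hδK
    rw [hR]
    linarith
  have hres : res s₁ q₁ s₂ q₂ ≠ 0 := by
    intro h
    obtain ⟨z, hz1, hz2⟩ := common_root _ _ _ _ h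
    apply hηS
    refine ⟨z, ?_, ?_⟩
    · rw [← hP, aeP, hz1, zero_mul]
    · rw [← hP, hf]
      simp only [derivative_mul, map_add, map_mul]
      have a1 : aeval z (X ^ 2 + C s₁ * X + C q₁ : ℝ[X]) = 0 := by
        simp only [map_add, map_mul, map_pow, aeval_X, aeval_C]
        exact hz1
      have a2 : aeval z (X ^ 2 + C s₂ * X + C q₂ : ℝ[X]) = 0 := by
        simp only [map_add, map_mul, map_pow, aeval_X, aeval_C]
        exact hz2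
      simp only [map_add, map_mul] at a1 a2
      rw [a1, a2]
      ring
  obtain ⟨bs1, bq1⟩ := quad_bound s₁ q₁ R (by linarith) (fun z hz => hb z (by
    rw [aeP, hz, zero_mul]))
  obtain ⟨bs2, bq2⟩ := quad_bound s₂ q₂ R (by linarith) (fun z hz => hb z (by
    rw [aeP, hz, mul_zero]))
  exact ⟨η, s₁, q₁, s₂, q₂, hεη, hres, pos_of_bounds hR2 hK bs1 bq1,
    pos_of_bounds hR2 hK bs2 bq2, k3, k2, k1, k0⟩

end Pool.Agent.Q266.SPat
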