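import Pool.Agent.Q266.SPatA
import Pool.Agent.Q266.SPatC

/-!
# The family of matrices and the inverse function argument
-/

namespace Pool.Agent.Q266.SPat

open Matrix

/-- A realisation of `T₂` with characteristic polynomial `X ^ 2 + s X + q`, such that the entry
`(l, i)` of the adjugate of the characteristic matrix does not depend on `s`, `q`. -/
def Bm (l i : Fin 2) (K s q : ℝ) : Matrix (Fin 2) (Fin 2) ℝ :=
  if l = 1 ∧ i = 1 then !![K, 1; -(q + K * (K + s)), -(K + s)]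
  else if l = 1 ∧ i = 0 then !![K - s, q + (K - s) * K; -1, -K]
  else !![K - s, 1; -(q + (K - s) * K), -K]

/-- The leading coefficient of the adjugate entry. -/
def u1 (l i : Fin 2) : ℝ := if l = i then 1 else 0

/-- The constant coefficient of the adjugate entry. -/
def u0 (l i : Fin 2) (K : ℝ) : ℝ :=
  if l = 0 ∧ i = 0 then K else if l = 1 ∧ i = 1 then -K else if l = 0 then 1 else -1

theorem adm (l i : Fin 2) (K : ℝ) : Adm K (u1 l i) (u0 l i K) := by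
  fin_cases l <;> fin_cases i <;> simp [Adm, u1, u0]

/-- The matrix with four given blocks. -/
def M4 (B X Y B' : Matrix (Fin 2) (Fin 2) ℝ) : Matrix (Fin 4) (Fin 4) ℝ :=
  !![B 0 0, B 0 1, X 0 0, X 0 1; B 1 0, B 1 1, X 1 0, X 1 1;
    Y 0 0, Y 0 1, B' 0 0, B' 0 1; Y 1 0, Y 1 1, B' 1 0, B' 1 1]

/-- A block with one main entry and small other entries. -/
def Eb (i j : Fin 2) (x t : ℝ) (N : Matrix (Fin 2) (Fin 2) ℝ) : Matrix (Fin 2) (Fin 2) ℝ :=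
  fun a b => if a = i ∧ b = j then x else t * N a b

/-- The family. -/
def Fam (i j k l : Fin 2) (K x y : ℝ) (N N' : Matrix (Fin 2) (Fin 2) ℝ) (t s₁ q₁ s₂ q₂ : ℝ) :
    Matrix (Fin 4) (Fin 4) ℝ :=
  M4 (Bm l i K s₁ q₁) (Eb i j x t N) (Eb k l y t N') (Bm j k K s₂ q₂)

section zero

variable (i j k l : Fin 2) (K x y : ℝ) (N N' : Matrix (Fin 2) (Fin 2) ℝ) (s₁ q₁ s₂ q₂ : ℝ)

theorem k3_zero : k3 (Fam i j k l K x y N N' 0 s₁ q₁ s₂ q₂) = s₁ + s₂ := by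
  fin_cases i <;> fin_cases j <;> fin_cases k <;> fin_cases l <;>
    (simp [k3, Fam, M4, Bm, Eb]; try ring)

theorem k2_zero : k2 (Fam i j k l K x y N N' 0 s₁ q₁ s₂ q₂)
    = q₁ + q₂ + s₁ * s₂ - (x * y) * (u1 l i * u1 j k) := by
  fin_cases i <;> fin_cases j <;> fin_cases k <;> fin_cases l <;>
    (simp [k2, m2, Fam, M4, Bm, Eb, u1]; try ring)

theorem k1_zero : k1 (Fam i j k l K x y N N' 0 s₁ q₁ s₂ q₂)
    = s₁ * q₂ + s₂ * q₁ - (x * y) * (u1 l i * u0 j k K + u0 l i K * u1 j k) := by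
  fin_cases i <;> fin_cases j <;> fin_cases k <;> fin_cases l <;>
    (simp [k1, m3, Fam, M4, Bm, Eb, u1, u0]; try ring)

theorem k0_zero : k0 (Fam i j k l K x y N N' 0 s₁ q₁ s₂ q₂)
    = q₁ * q₂ - (x * y) * (u0 l i K * u0 j k K) := by
  fin_cases i <;> fin_cases j <;> fin_cases k <;> fin_cases l <;>
    (simp [k0, mm, Fam, M4, Bm, Eb, u0]; try ring)

end zero

/-- The map of parameters to coefficients. -/
def Fm (i j k l : Fin 2) (K x y : ℝ) (N N' : Matrix (Fin 2) (Fin 2) ℝ)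
    (v : ℝ × ℝ × ℝ × ℝ × ℝ) : ℝ × ℝ × ℝ × ℝ × ℝ :=
  (v.1, k3 (Fam i j k l K x y N N' v.1 v.2.1 v.2.2.1 v.2.2.2.1 v.2.2.2.2),
    k2 (Fam i j k l K x y N N' v.1 v.2.1 v.2.2.1 v.2.2.2.1 v.2.2.2.2),
    k1 (Fam i j k l K x y N N' v.1 v.2.1 v.2.2.1 v.2.2.2.1 v.2.2.2.2),
    k0 (Fam i j k l K x y N N' v.1 v.2.1 v.2.2.1 v.2.2.2.1 v.2.2.2.2))

section

variable (i j k l : Fin 2) (K x y : ℝ) (N N' : Matrix (Fin 2) (Fin 2) ℝ)

theorem contDiff_entry (a b : Fin 4) : ContDiff ℝ 1 (fun v : ℝ × ℝ × ℝ × ℝ × ℝ =>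
    Fam i j k l K x y N N' v.1 v.2.1 v.2.2.1 v.2.2.2.1 v.2.2.2.2 a b) := by
  fin_cases i <;> fin_cases j <;> fin_cases k <;> fin_cases l <;> fin_cases a <;> fin_cases b <;>
    (simp [Fam, M4, Bm, Eb]; try fun_prop)

theorem contDiff_Fm : ContDiff ℝ 1 (Fm i j k l K x y N N') := by
  have h := contDiff_entry i j k l K x y N N'
  unfold Fm k3 k2 k1 k0 m2 m3 mm
  fun_prop

end

end Pool.Agent.Q266.SPat
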