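import Pool.Agent.Q266.SPatD

/-!
# Solving for the parameters close to a coprime factorisation
-/

namespace Pool.Agent.Q266.SPat

open Matrix Topology Filter

theorem solve_lin (s₁ q₁ s₂ q₂ z₃ z₂ z₁ z₀ : ℝ) (h : res s₁ q₁ s₂ q₂ ≠ 0) :
    ∃ w₁ w₂ w₃ w₄ : ℝ, w₁ + w₃ = z₃ ∧ w₂ + w₄ + s₁ * w₃ + s₂ * w₁ = z₂ ∧
      s₁ * w₄ + q₂ * w₁ + s₂ * w₂ + q₁ * w₃ = z₁ ∧ q₁ * w₄ + q₂ * w₂ = z₀ := by
  obtain ⟨r, hr⟩ : ∃ r : ℝ, r = res s₁ q₁ s₂ q₂ := ⟨_, rfl⟩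
  rw [← hr] at h
  obtain ⟨a, ha⟩ : ∃ a : ℝ, a = s₁ - s₂ := ⟨_, rfl⟩
  obtain ⟨b, hb⟩ : ∃ b : ℝ, b = q₂ - q₁ := ⟨_, rfl⟩
  obtain ⟨e₁, he₁⟩ : ∃ e : ℝ, e = z₁ - s₁ * z₂ + s₁ ^ 2 * z₃ - q₁ * z₃ := ⟨_, rfl⟩
  obtain ⟨e₂, he₂⟩ : ∃ e : ℝ, e = z₀ - q₁ * z₂ + q₁ * s₁ * z₃ := ⟨_, rfl⟩
  have hr' : r = b * (s₁ * a + b) + a * (q₁ * a) := by
    rw [hr, ha, hb]; unfold res; ring
  obtain ⟨w₁, hw₁⟩ : ∃ w : ℝ, w = (b * e₁ + a * e₂) / r := ⟨_, rfl⟩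
  obtain ⟨w₂, hw₂⟩ : ∃ w : ℝ, w = ((s₁ * a + b) * e₂ - q₁ * a * e₁) / r := ⟨_, rfl⟩
  have k1 : (s₁ * a + b) * w₁ - a * w₂ = e₁ := by
    rw [hw₁, hw₂]
    field_simp
    rw [hr']; ring
  have k2 : q₁ * a * w₁ + b * w₂ = e₂ := by
    rw [hw₁, hw₂]
    field_simp
    rw [hr']; ring
  refine ⟨w₁, w₂, z₃ - w₁, (z₂ - s₁ * z₃) - w₂ + (s₁ - s₂) * w₁, by ring, by ring, ?_, ?_⟩
  · rw [ha, hb, he₁] at k1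
    linear_combination k1
  · rw [ha, hb, he₂] at k2
    linear_combination k2

theorem quad_deriv (f : ℝ → ℝ) (α β γ : ℝ) (h : ∀ τ, f τ = α + β * τ + γ * τ ^ 2) :
    HasDerivAt f β 0 := by
  have e : f = fun τ => α + β * τ + γ * τ ^ 2 := funext h
  rw [e]
  have h1 : HasDerivAt (fun τ : ℝ => β * τ) β 0 := by
    simpa using (hasDerivAt_id (0 : ℝ)).const_mul β
  have h2 : HasDerivAt (fun τ : ℝ => γ * τ ^ 2) 0 0 := by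
    simpa using (hasDerivAt_pow 2 (0 : ℝ)).const_mul γ
  have h3 := (h1.const_add α).add h2
  rw [add_zero] at h3
  exact h3

section

variable (i j k l : Fin 2) (K x y : ℝ) (N N' : Matrix (Fin 2) (Fin 2) ℝ)

theorem Fm_zero (s₁ q₁ s₂ q₂ : ℝ) : Fm i j k l K x y N N' (0, s₁, q₁, s₂, q₂)
    = (0, s₁ + s₂, q₁ + q₂ + s₁ * s₂ - (x * y) * (u1 l i * u1 j k),
      s₁ * q₂ + s₂ * q₁ - (x * y) * (u1 l i * u0 j k K + u0 l i K * u1 j k),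
      q₁ * q₂ - (x * y) * (u0 l i K * u0 j k K)) := by
  unfold Fm
  rw [k3_zero, k2_zero, k1_zero, k0_zero]

theorem fderiv_Fm (s₁ q₁ s₂ q₂ w₁ w₂ w₃ w₄ : ℝ)
    (D : ℝ × ℝ × ℝ × ℝ × ℝ →L[ℝ] ℝ × ℝ × ℝ × ℝ × ℝ)
    (hD : HasFDerivAt (Fm i j k l K x y N N') D (0, s₁, q₁, s₂, q₂)) :
    D (0, w₁, w₂, w₃, w₄) = (0, w₁ + w₃, w₂ + w₄ + s₁ * w₃ + s₂ * w₁,
      s₁ * w₄ + q₂ * w₁ + s₂ * w₂ + q₁ * w₃, q₁ * w₄ + q₂ * w₂) := by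
  have h1 : HasDerivAt (fun τ : ℝ => ((0, s₁ + τ * w₁, q₁ + τ * w₂, s₂ + τ * w₃, q₂ + τ * w₄) :
      ℝ × ℝ × ℝ × ℝ × ℝ)) (0, w₁, w₂, w₃, w₄) 0 := by
    have e : ∀ a b : ℝ, HasDerivAt (fun τ : ℝ => a + τ * b) b 0 := by
      intro a b
      simpa using ((hasDerivAt_id (0 : ℝ)).mul_const b).const_add a
    exact (hasDerivAt_const (0 : ℝ) (0 : ℝ)).prodMk ((e _ _).prodMk ((e _ _).prodMk
      ((e _ _).prodMk (e _ _))))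
  have h2 := HasFDerivAt.comp_hasDerivAt (x := (0 : ℝ)) (f := fun τ : ℝ =>
    ((0, s₁ + τ * w₁, q₁ + τ * w₂, s₂ + τ * w₃, q₂ + τ * w₄) : ℝ × ℝ × ℝ × ℝ × ℝ))
    (l := Fm i j k l K x y N N') (l' := D) (by simpa using hD) h1
  have h3 : (Fm i j k l K x y N N') ∘ (fun τ : ℝ =>
      ((0, s₁ + τ * w₁, q₁ + τ * w₂, s₂ + τ * w₃, q₂ + τ * w₄) : ℝ × ℝ × ℝ × ℝ × ℝ))
      = fun τ : ℝ => ((0, (s₁ + τ * w₁) + (s₂ + τ * w₃),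
        (q₁ + τ * w₂) + (q₂ + τ * w₄) + (s₁ + τ * w₁) * (s₂ + τ * w₃)
          - (x * y) * (u1 l i * u1 j k),
        (s₁ + τ * w₁) * (q₂ + τ * w₄) + (s₂ + τ * w₃) * (q₁ + τ * w₂)
          - (x * y) * (u1 l i * u0 j k K + u0 l i K * u1 j k),
        (q₁ + τ * w₂) * (q₂ + τ * w₄) - (x * y) * (u0 l i K * u0 j k K)) :
          ℝ × ℝ × ℝ × ℝ × ℝ) := by
    funext τ
    simp only [Function.comp]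
    rw [Fm_zero]
  rw [h3] at h2
  have h4 : HasDerivAt (fun τ : ℝ => ((0, (s₁ + τ * w₁) + (s₂ + τ * w₃),
        (q₁ + τ * w₂) + (q₂ + τ * w₄) + (s₁ + τ * w₁) * (s₂ + τ * w₃)
          - (x * y) * (u1 l i * u1 j k),
        (s₁ + τ * w₁) * (q₂ + τ * w₄) + (s₂ + τ * w₃) * (q₁ + τ * w₂)
          - (x * y) * (u1 l i * u0 j k K + u0 l i K * u1 j k),
        (q₁ + τ * w₂) * (q₂ + τ * w₄) - (x * y) * (u0 l i K * u0 j k K)) :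
          ℝ × ℝ × ℝ × ℝ × ℝ))
      (0, w₁ + w₃, w₂ + w₄ + s₁ * w₃ + s₂ * w₁,
      s₁ * w₄ + q₂ * w₁ + s₂ * w₂ + q₁ * w₃, q₁ * w₄ + q₂ * w₂) 0 := by
    refine (hasDerivAt_const (0 : ℝ) (0 : ℝ)).prodMk (HasDerivAt.prodMk ?_ (HasDerivAt.prodMk ?_
      (HasDerivAt.prodMk ?_ ?_)))
    · exact quad_deriv _ (s₁ + s₂) _ 0 (fun τ => by ring)
    · exact quad_deriv _ (q₁ + q₂ + s₁ * s₂ - (x * y) * (u1 l i * u1 j k)) _ (w₁ * w₃)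
        (fun τ => by ring)
    · exact quad_deriv _ (s₁ * q₂ + s₂ * q₁ -
        (x * y) * (u1 l i * u0 j k K + u0 l i K * u1 j k)) _ (w₁ * w₄ + w₃ * w₂)
        (fun τ => by ring)
    · exact quad_deriv _ (q₁ * q₂ - (x * y) * (u0 l i K * u0 j k K)) _ (w₂ * w₄)
        (fun τ => by ring)
  exact h2.unique h4

theorem fderiv_Fm_fst (v : ℝ × ℝ × ℝ × ℝ × ℝ)
    (D : ℝ × ℝ × ℝ × ℝ × ℝ →L[ℝ] ℝ × ℝ × ℝ × ℝ × ℝ)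
    (hD : HasFDerivAt (Fm i j k l K x y N N') D v) (ξ : ℝ × ℝ × ℝ × ℝ × ℝ) :
    (D ξ).1 = ξ.1 := by
  have h1 := hD.fst
  have h2 : HasFDerivAt (fun v : ℝ × ℝ × ℝ × ℝ × ℝ => (Fm i j k l K x y N N' v).1)
      (ContinuousLinearMap.fst ℝ ℝ (ℝ × ℝ × ℝ × ℝ)) v := hasFDerivAt_fst
  have h3 := h1.unique h2
  have := congrArg (fun L => L ξ) h3
  simpa using this

theorem surj_D (s₁ q₁ s₂ q₂ : ℝ) (h : res s₁ q₁ s₂ q₂ ≠ 0)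
    (D : ℝ × ℝ × ℝ × ℝ × ℝ →L[ℝ] ℝ × ℝ × ℝ × ℝ × ℝ)
    (hD : HasFDerivAt (Fm i j k l K x y N N') D (0, s₁, q₁, s₂, q₂)) :
    Function.Surjective D := by
  rintro ⟨t, z₃, z₂, z₁, z₀⟩
  obtain ⟨k, hk⟩ : ∃ k, k = (D (t, 0, 0, 0, 0)).2 := ⟨_, rfl⟩
  obtain ⟨w₁, w₂, w₃, w₄, e₃, e₂, e₁, e₀⟩ := solve_lin s₁ q₁ s₂ q₂ (z₃ - k.1) (z₂ - k.2.1)
    (z₁ - k.2.2.1) (z₀ - k.2.2.2) h
  refine ⟨(t, 0, 0, 0, 0) + (0, w₁, w₂, w₃, w₄), ?_⟩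
  rw [map_add, fderiv_Fm i _ _ l K x y N N' s₁ q₁ s₂ q₂ w₁ w₂ w₃ w₄ D hD, e₃, e₂, e₁, e₀]
  have hf := fderiv_Fm_fst i _ _ l K x y N N' _ D hD (t, 0, 0, 0, 0)
  have hpair : D (t, 0, 0, 0, 0) = (t, k) := by
    rw [hk]
    exact Prod.ext hf rfl
  rw [hpair]
  refine Prod.ext ?_ (Prod.ext ?_ (Prod.ext ?_ (Prod.ext ?_ ?_))) <;> simp

theorem exists_param (s₁ q₁ s₂ q₂ : ℝ) (h : res s₁ q₁ s₂ q₂ ≠ 0)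
    (U : Set (ℝ × ℝ × ℝ × ℝ × ℝ)) (hU : U ∈ 𝓝 ((0, s₁, q₁, s₂, q₂) : ℝ × ℝ × ℝ × ℝ × ℝ)) :
    ∃ v ∈ U, 0 < v.1 ∧ (Fm i j k l K x y N N' v).2
      = (Fm i j k l K x y N N' (0, s₁, q₁, s₂, q₂)).2 := by
  have hs : HasStrictFDerivAt (Fm i j k l K x y N N')
      (fderiv ℝ (Fm i j k l K x y N N') (0, s₁, q₁, s₂, q₂)) (0, s₁, q₁, s₂, q₂) :=
    (contDiff_Fm i j k l K x y N N').contDiffAt.hasStrictFDerivAt (by norm_num)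
  have hsurj := surj_D i j k l K x y N N' s₁ q₁ s₂ q₂ h _ hs.hasFDerivAt
  have hmap := hs.map_nhds_eq_of_surj (LinearMap.range_eq_top.mpr hsurj)
  have him : (Fm i j k l K x y N N') '' U ∈ 𝓝 (Fm i j k l K x y N N' (0, s₁, q₁, s₂, q₂)) := by
    rw [← hmap]
    exact Filter.image_mem_map hU
  have hcurve : Tendsto (fun t : ℝ => ((t, (Fm i j k l K x y N N' (0, s₁, q₁, s₂, q₂)).2) :
      ℝ × ℝ × ℝ × ℝ × ℝ)) (𝓝[>] 0) (𝓝 (Fm i j k l K x y N N' (0, s₁, q₁, s₂, q₂))) := by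
    have : Tendsto (fun t : ℝ => ((t, (Fm i j k l K x y N N' (0, s₁, q₁, s₂, q₂)).2) :
      ℝ × ℝ × ℝ × ℝ × ℝ)) (𝓝 0) (𝓝 (0, (Fm i j k l K x y N N' (0, s₁, q₁, s₂, q₂)).2)) := by
      exact (Continuous.prodMk continuous_id continuous_const).tendsto 0
    exact this.mono_left nhdsWithin_le_nhds
  obtain ⟨t, ht, ht0⟩ := ((hcurve.eventually him).and self_mem_nhdsWithin).exists
  obtain ⟨v, hv, hvt⟩ := ht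
  refine ⟨v, hv, ?_, ?_⟩
  · have : v.1 = t := congrArg Prod.fst hvt
    rw [this]; exact ht0
  · have h2 : (Fm i j k l K x y N N' v).2
        = ((t, (Fm i j k l K x y N N' (0, s₁, q₁, s₂, q₂)).2) : ℝ × ℝ × ℝ × ℝ × ℝ).2 := by
      rw [hvt]
    exact h2

end

end Pool.Agent.Q266.SPat
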