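import Mathlib

set_option autoImplicit false

/-! # Large compactifications and property (**) -/

namespace Pool.Agent.Q266.SS

open Topology

/-- The map `i : X → K` is (up to a homeomorphism over `X`) the canonical map of `X` to its
Stone–Čech compactification. -/
def IsBeta {X K : Type} [TopologicalSpace X] [TopologicalSpace K] (i : X → K) : Prop :=
  ∃ h : StoneCech X ≃ₜ K, ∀ x, h (stoneCechUnit x) = i x

/-- `K` is a compactification of `X` via `i`: a compact Hausdorff space in which `X` is embedded as
a dense subspace. -/
structure IsCompactification {X K : Type} [TopologicalSpace X] [TopologicalSpace K]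
    (i : X → K) : Prop where
  compact : CompactSpace K
  t2 : T2Space K
  dense : IsDenseEmbedding i

/-- The compactification `K` of `X` is large: `K = βV` for every open `V ⊆ K` that contains `X`. -/
def IsLarge {X K : Type} [TopologicalSpace X] [TopologicalSpace K] (i : X → K) : Prop :=
  ∀ V : Set K, IsOpen V → Set.range i ⊆ V → IsBeta (Subtype.val : V → K)

/-- `X` is `G_δ`-closed in `K`: every point of `K` outside `X` lies in a `G_δ`-set that is disjoint
from `X`. -/
def IsGdeltaClosed {X K : Type} [TopologicalSpace K] (i : X → K) : Prop :=
  ∀ y : K, y ∉ Set.range i → ∃ G : Set K, IsGδ G ∧ y ∈ G ∧ Disjoint G (Set.range i)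

/-- `X` satisfies (**): every large compactification of `X` in which `X` is `G_δ`-closed is the
Stone–Čech compactification of `X`. -/
def StarStar (X : Type) [TopologicalSpace X] : Prop :=
  ∀ (K : Type) [TopologicalSpace K] (i : X → K), IsCompactification i → IsLarge i →
    IsGdeltaClosed i → IsBeta i

end Pool.Agent.Q266.SS
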