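import Mathlib
import Pool.Agent.Q266.SSDef

set_option autoImplicit false

/-! # General facts about (**) -/

namespace Pool.Agent.Q266.SS

open Topology Set Filter

variable {X K : Type} [TopologicalSpace X] [TopologicalSpace K]

/-- `K = βX` if and only if bounded continuous real functions extend. -/
theorem isBeta_iff [CompactSpace K] [T2Space K] {i : X → K} (hc : Continuous i)
    (hd : DenseRange i) :
    IsBeta i ↔ ∀ f : C(X, ℝ), (∃ M, ∀ x, |f x| ≤ M) → ∃ g : C(K, ℝ), ∀ x, g (i x) = f x := by
  constructor
  · rintro ⟨h, hh⟩ f ⟨M, hM⟩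
    let f' : X → Icc (-M) M := fun x => ⟨f x, abs_le.1 (hM x)⟩
    have hf' : Continuous f' := f.continuous.subtype_mk _
    refine ⟨⟨fun y => (stoneCechExtend hf' (h.symm y)).1,
      continuous_subtype_val.comp ((continuous_stoneCechExtend hf').comp h.symm.continuous)⟩, ?_⟩
    intro x
    show (stoneCechExtend hf' (h.symm (i x))).1 = f x
    rw [← hh x, h.symm_apply_apply, stoneCechExtend_stoneCechUnit]
  · intro H
    have hce := continuous_stoneCechExtend hc
    have hsurj : Function.Surjective (stoneCechExtend hc) := by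
      have h1 : IsClosed (range (stoneCechExtend hc)) := (isCompact_range hce).isClosed
      have h2 : range i ⊆ range (stoneCechExtend hc) := by
        rintro _ ⟨x, rfl⟩
        exact ⟨stoneCechUnit x, stoneCechExtend_stoneCechUnit hc x⟩
      have h3 : closure (range i) ⊆ range (stoneCechExtend hc) := closure_minimal h2 h1
      rw [hd.closure_range] at h3
      exact fun y => h3 (mem_univ y)
    have hinj : Function.Injective (stoneCechExtend hc) := by
      intro a b hab
      by_contra hne
      have hdis : Disjoint ({a} : Set (StoneCech X)) {b} := by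
        rw [disjoint_singleton]; exact hne
      obtain ⟨F, hFa, hFb, hF⟩ := exists_continuous_zero_one_of_isClosed isClosed_singleton
        isClosed_singleton hdis
      have hFa' : F a = 0 := hFa rfl
      have hFb' : F b = 1 := hFb rfl
      obtain ⟨g, hg⟩ := H (F.comp ⟨stoneCechUnit, continuous_stoneCechUnit⟩)
        ⟨1, fun x => abs_le.2 ⟨by
          have := (hF (stoneCechUnit x)).1
          show -1 ≤ F (stoneCechUnit x)
          linarith, (hF (stoneCechUnit x)).2⟩⟩
      have heq : (fun y => g (stoneCechExtend hc y)) = fun y => F y := by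
        apply denseRange_stoneCechUnit.equalizer (g.continuous.comp hce) F.continuous
        funext x
        show g (stoneCechExtend hc (stoneCechUnit x)) = F (stoneCechUnit x)
        rw [stoneCechExtend_stoneCechUnit hc x]
        exact hg x
      have h1 := congrFun heq a
      have h2 := congrFun heq b
      rw [hab, hFa'] at h1
      rw [hFb'] at h2
      rw [h1] at h2
      exact zero_ne_one h2
    let e : StoneCech X ≃ K := Equiv.ofBijective _ ⟨hinj, hsurj⟩
    have he : Continuous e := hce
    exact ⟨he.homeoOfEquivCompactToT2, fun x => stoneCechExtend_stoneCechUnit hc x⟩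

/-- (**) is invariant under homeomorphisms -/
theorem starStar_of_homeo {Y : Type} [TopologicalSpace Y] (h : X ≃ₜ Y) (hX : StarStar X) :
    StarStar Y := by
  intro K _ i hi hl hg
  have hr : range (i ∘ h) = range i := h.surjective.range_comp i
  have := hi.compact
  have := hi.t2
  have hi' : IsCompactification (i ∘ h) := by
    refine ⟨hi.compact, hi.t2, ?_⟩
    have h1 : IsDenseInducing (i ∘ h) := ⟨hi.dense.isInducing.comp h.isInducing, by
      rw [DenseRange, hr]; exact hi.dense.dense⟩
    exact ⟨h1, hi.dense.injective.comp h.injective⟩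
  have hb := hX K (i ∘ h) hi' (by
    intro V hV hs
    rw [hr] at hs
    exact hl V hV hs) (by
    intro y hy
    rw [hr] at hy ⊢
    exact hg y hy)
  rw [isBeta_iff hi'.dense.continuous hi'.dense.dense] at hb
  rw [isBeta_iff hi.dense.continuous hi.dense.dense]
  rintro f ⟨M, hM⟩
  obtain ⟨g, hg⟩ := hb (f.comp ⟨h, h.continuous⟩) ⟨M, fun x => hM _⟩
  refine ⟨g, fun y => ?_⟩
  have := hg (h.symm y)
  simpa using this

/-- Locally compact spaces satisfy (**). -/
theorem starStar_of_locallyCompact [LocallyCompactSpace X] : StarStar X := by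
  intro K _ i hi hl _
  have := hi.compact
  have := hi.t2
  have hopen : IsOpen (range i) := by
    rw [isOpen_iff_forall_mem_open]
    rintro _ ⟨x, rfl⟩
    obtain ⟨C, hC, hxC⟩ := exists_compact_mem_nhds x
    obtain ⟨O, hO, hOC⟩ := hi.dense.isInducing.isOpen_iff.1 (isOpen_interior (s := C))
    have hsub : O ⊆ i '' C := by
      intro y hy
      have h1 : y ∈ closure (O ∩ range i) :=
        (hi.dense.dense : Dense (range i)).open_subset_closure_inter hO hy
      have h2 : O ∩ range i ⊆ i '' C := by
        rintro _ ⟨h3, ⟨w, rfl⟩⟩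
        refine ⟨w, ?_, rfl⟩
        have h4 : w ∈ i ⁻¹' O := h3
        rw [hOC] at h4
        exact interior_subset h4
      exact closure_minimal h2 (hC.image hi.dense.continuous).isClosed h1
    refine ⟨O, hsub.trans (image_subset_range _ _), hO, ?_⟩
    have h4 : x ∈ i ⁻¹' O := by
      rw [hOC]
      exact mem_interior_iff_mem_nhds.2 hxC
    exact h4
  have hV := hl (range i) hopen subset_rfl
  have hcv : Continuous (Subtype.val : range i → K) := continuous_subtype_val
  have hdv : DenseRange (Subtype.val : range i → K) := by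
    rw [DenseRange, Subtype.range_coe]
    exact hi.dense.dense
  rw [isBeta_iff hcv hdv] at hV
  rw [isBeta_iff hi.dense.continuous hi.dense.dense]
  rintro f ⟨M, hM⟩
  let e : X ≃ₜ range i := hi.dense.isEmbedding.toHomeomorph
  obtain ⟨g, hg⟩ := hV (f.comp ⟨e.symm, e.symm.continuous⟩) ⟨M, fun x => hM _⟩
  refine ⟨g, fun x => ?_⟩
  have h1 := hg (e x)
  have h2 : ((e x : range i) : K) = i x := rfl
  rw [h2] at h1
  simpa using h1

/-- A space with a closed subspace that is countably compact but not compact satisfies (**). -/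
theorem starStar_of_closed_countablyCompact {W : Set X} (hW : IsClosed W) (hnc : ¬ IsCompact W)
    (hcc : ∀ A : ℕ → Set X, (∀ n, IsClosed (A n)) → (∀ n, A (n + 1) ⊆ A n) → (∀ n, A n ⊆ W) →
      (∀ n, (A n).Nonempty) → (⋂ n, A n).Nonempty) : StarStar X := by
  intro K _ i hi _ hg
  exfalso
  have := hi.compact
  have := hi.t2
  have hncl : ¬ IsClosed (i '' W) := by
    intro h
    apply hnc
    have h1 : IsCompact (i '' W) := h.isCompact
    exact hi.dense.isInducing.isCompact_iff.2 h1
  obtain ⟨y, hy1, hy2⟩ : ∃ y, y ∈ closure (i '' W) ∧ y ∉ i '' W := by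
    by_contra hcon
    push Not at hcon
    exact hncl (closure_subset_iff_isClosed.1 hcon)
  have hyr : y ∉ range i := by
    rintro ⟨x, rfl⟩
    apply hy2
    have h1 : x ∈ closure W := by
      rw [hi.dense.isInducing.closure_eq_preimage_closure_image]
      exact hy1
    rw [hW.closure_eq] at h1
    exact ⟨x, h1, rfl⟩
  obtain ⟨G, hG, hyG, hdis⟩ := hg y hyr
  obtain ⟨U, hUo, hUG⟩ := isGδ_iff_eq_iInter_nat.1 hG
  have hF : ∀ n, ∃ F : Set K, F ∈ 𝓝 y ∧ IsClosed F ∧ F ⊆ U n := by
    intro n
    have hyU : y ∈ U n := by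
      rw [hUG] at hyG
      exact mem_iInter.1 hyG n
    obtain ⟨F, hF1, hF2, hF3⟩ := exists_mem_nhds_isClosed_subset ((hUo n).mem_nhds hyU)
    exact ⟨F, hF1, hF2, hF3⟩
  choose F hF1 hF2 hF3 using hF
  let A : ℕ → Set X := fun n => W ∩ i ⁻¹' (⋂ k ∈ Finset.range (n + 1), F k)
  have hAc : ∀ n, IsClosed (A n) := fun n =>
    hW.inter ((isClosed_biInter fun k _ => hF2 k).preimage hi.dense.continuous)
  obtain ⟨x, hx⟩ := hcc A hAc (by
    intro n x hx
    refine ⟨hx.1, ?_⟩
    have h1 := hx.2
    simp only [mem_preimage, mem_iInter, Finset.mem_range] at h1 ⊢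
    exact fun k hk => h1 k (by omega)) (fun n => inter_subset_left) (by
    intro n
    have h1 : (⋂ k ∈ Finset.range (n + 1), F k) ∈ 𝓝 y :=
      (Filter.biInter_finset_mem _).2 fun k _ => hF1 k
    obtain ⟨z, hz1, hz2⟩ := mem_closure_iff_nhds.1 hy1 _ h1
    obtain ⟨w, hw, rfl⟩ := hz2
    exact ⟨w, hw, hz1⟩)
  rw [mem_iInter] at hx
  have hxG : i x ∈ G := by
    rw [hUG, mem_iInter]
    intro n
    have h1 := (hx n).2
    simp only [mem_preimage, mem_iInter, Finset.mem_range] at h1
    exact hF3 n (h1 n (by omega))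
  exact Set.disjoint_left.1 hdis hxG ⟨x, rfl⟩

end Pool.Agent.Q266.SS
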