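import Mathlib
import Pool.Agent.Q266.SSA

set_option autoImplicit false

/-! # A countably compact noncompact space, and products with it -/

namespace Pool.Agent.Q266.SS

open Topology Set Filter

/-- The space of zero-one functions on the real line with countable support. -/
abbrev CSupp : Type := {x : ℝ → Bool // {t | x t = true}.Countable}

instance : Nonempty CSupp := ⟨⟨fun _ => false, by simp⟩⟩

theorem csupp_not_compact : ¬ CompactSpace CSupp := by
  classical
  intro h
  have h1 : IsCompact (range (Subtype.val : CSupp → (ℝ → Bool))) :=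
    isCompact_range continuous_subtype_val
  have h2 : (fun _ => true : ℝ → Bool) ∈ closure (range (Subtype.val : CSupp → (ℝ → Bool))) := by
    rw [mem_closure_iff_nhds]
    intro U hU
    rw [mem_nhds_iff] at hU
    obtain ⟨V, hVU, hV, hxV⟩ := hU
    rw [isOpen_pi_iff] at hV
    obtain ⟨I, u, hu, huV⟩ := hV _ hxV
    refine ⟨fun t => decide (t ∈ I), hVU (huV ?_), ⟨⟨fun t => decide (t ∈ I), ?_⟩, rfl⟩⟩
    · intro t ht
      have ht' : t ∈ I := ht
      have := (hu t ht').2
      simpa [ht'] using this
    · refine (I.countable_toSet).mono ?_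
      intro t ht
      simpa using ht
  rw [h1.isClosed.closure_eq] at h2
  obtain ⟨⟨x, hx⟩, hx2⟩ := h2
  have hx3 : x = fun _ => true := hx2
  rw [hx3] at hx
  simp only [ofPred_true] at hx
  exact Set.not_countable_univ hx

theorem csupp_countably_compact (A : ℕ → Set CSupp) (hc : ∀ n, IsClosed (A n))
    (hd : ∀ n, A (n + 1) ⊆ A n) (hn : ∀ n, (A n).Nonempty) : (⋂ n, A n).Nonempty := by
  choose x hx using hn
  let D : Set ℝ := ⋃ n, {t | (x n).1 t = true}
  have hD : D.Countable := countable_iUnion fun n => (x n).2
  let Q : Set CSupp := {w | ∀ t, t ∉ D → w.1 t = false}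
  have hQ : IsCompact Q := by
    have hind : IsInducing (Subtype.val : CSupp → (ℝ → Bool)) := IsInducing.subtypeVal
    rw [hind.isCompact_iff]
    have h1 : Subtype.val '' Q = {y : ℝ → Bool | ∀ t, t ∉ D → y t = false} := by
      ext y
      constructor
      · rintro ⟨w, hw, rfl⟩
        exact hw
      · intro hy
        refine ⟨⟨y, hD.mono ?_⟩, hy, rfl⟩
        intro t ht
        by_contra hcon
        have h2 := hy t hcon
        have h3 : y t = true := ht
        rw [h2] at h3
        exact absurd h3 (by decide)
    rw [h1]
    apply IsClosed.isCompact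
    have h2 : {y : ℝ → Bool | ∀ t, t ∉ D → y t = false} =
        ⋂ t, ⋂ (_ : t ∉ D), {y : ℝ → Bool | y t = false} := by
      ext y
      simp
    rw [h2]
    exact isClosed_iInter fun t => isClosed_iInter fun _ =>
      isClosed_eq (continuous_apply t) continuous_const
  have hxQ : ∀ n, x n ∈ Q := by
    intro n t ht
    by_contra hcon
    apply ht
    rw [mem_iUnion]
    exact ⟨n, by simpa using hcon⟩
  have h1 := IsCompact.nonempty_iInter_of_sequence_nonempty_isCompact_isClosed
    (fun n => A n ∩ Q) (fun n => inter_subset_inter_left _ (hd n))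
    (fun n => ⟨x n, hx n, hxQ n⟩) (hQ.inter_left (hc 0)) (fun n => (hc n).inter hQ.isClosed)
  obtain ⟨w, hw⟩ := h1
  rw [mem_iInter] at hw
  exact ⟨w, mem_iInter.2 fun n => (hw n).1⟩

/-- The product of any space with the space `CSupp` satisfies (**). -/
theorem starStar_prod {P : Type} [TopologicalSpace P] [T1Space P] [Nonempty P] :
    StarStar (P × CSupp) := by
  obtain ⟨p0⟩ := ‹Nonempty P›
  refine starStar_of_closed_countablyCompact (W := {q : P × CSupp | q.1 = p0}) ?_ ?_ ?_
  · exact isClosed_singleton.preimage continuous_fst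
  · intro h
    apply csupp_not_compact
    have h1 := h.image continuous_snd
    have h2 : Prod.snd '' {q : P × CSupp | q.1 = p0} = univ := by
      ext w
      simp
    rw [h2] at h1
    exact ⟨h1⟩
  · intro A hc hd hs hn
    obtain ⟨w, hw⟩ := csupp_countably_compact (fun n => (fun w : CSupp => (p0, w)) ⁻¹' A n)
      (fun n => (hc n).preimage (by fun_prop)) (fun n => preimage_mono (hd n)) (by
      intro n
      obtain ⟨⟨p, w⟩, hq⟩ := hn n
      have h1 : p = p0 := hs n hq
      subst h1
      exact ⟨w, hq⟩)
    rw [mem_iInter] at hw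
    exact ⟨(p0, w), mem_iInter.2 fun n => hw n⟩

/-- If some Tychonoff space fails (**), then the class of Tychonoff spaces with (**) is not
closed under closed subspaces. -/
theorem closed_fails {P : Type} [TopologicalSpace P] [T35Space P] [Nonempty P]
    (hP : ¬ StarStar P) : ∃ (Y : Type) (_ : TopologicalSpace Y) (_ : T35Space Y), StarStar Y ∧
      ∃ C : Set Y, IsClosed C ∧ ¬ StarStar C := by
  refine ⟨P × CSupp, inferInstance, inferInstance, starStar_prod, ?_⟩
  obtain ⟨w0⟩ : Nonempty CSupp := inferInstance
  refine ⟨{q | q.2 = w0}, isClosed_singleton.preimage continuous_snd, fun h => hP ?_⟩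
  let e : {q : P × CSupp | q.2 = w0} ≃ₜ P :=
    { toFun := fun q => q.1.1
      invFun := fun p => ⟨(p, w0), rfl⟩
      left_inv := by
        rintro ⟨⟨p, w⟩, hw⟩
        have h1 : w = w0 := hw
        subst h1
        rfl
      right_inv := fun p => rfl
      continuous_toFun := continuous_fst.comp continuous_subtype_val
      continuous_invFun := by
        apply Continuous.subtype_mk
        fun_prop }
  exact starStar_of_homeo e h

end Pool.Agent.Q266.SS
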