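import Mathlib
import Pool.Agent.Q266.SSA
import Pool.Agent.W642.HG.Main

set_option autoImplicit false

/-! # A power of the real line that fails (**): the algebra and the compactification -/

namespace Pool.Agent.Q266.SS

open Topology Set Filter
open Pool.Agent.W642.HG

variable {R : Set (ℕ → Bool)}

/-- the power of the real line -/
abbrev PP (R : Set (ℕ → Bool)) : Type := C(Pt R, ℝ) → ℝ

/-- the evaluation map -/
noncomputable def evC (R : Set (ℕ → Bool)) : C(Pt R, PP R) :=
  ⟨fun z g => g z, continuous_pi fun g => g.continuous⟩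

lemma evC_apply (z : Pt R) (g : C(Pt R, ℝ)) : evC R z g = g z := rfl

/-- the algebra on the power -/
noncomputable def AA (R : Set (ℕ → Bool)) : Subalgebra ℝ C(PP R, ℝ) :=
  (alg R).comap (ContinuousMap.compRightAlgHom ℝ ℝ (evC R))

lemma mem_AA {h : C(PP R, ℝ)} : h ∈ AA R ↔ h.comp (evC R) ∈ alg R := Iff.rfl

/-- the coordinate functions -/
noncomputable def co (g : C(Pt R, ℝ)) : C(PP R, ℝ) := ⟨fun p => p g, continuous_apply g⟩

lemma co_comp (g : C(Pt R, ℝ)) : (co g).comp (evC R) = g := by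
  ext z; rfl

/-- the members of the algebra that are bounded by one -/
def BB (R : Set (ℕ → Bool)) : Type := {h : C(PP R, ℝ) // h ∈ AA R ∧ ∀ x, |h x| ≤ 1}

/-- the map to the cube -/
noncomputable def jj (x : PP R) : BB R → Icc (-1 : ℝ) 1 := fun h => ⟨h.1 x, abs_le.1 (h.2.2 x)⟩

lemma continuous_jj : Continuous (jj : PP R → _) :=
  continuous_pi fun h => h.1.continuous.subtype_mk _

/-- the compactification -/
abbrev KK (R : Set (ℕ → Bool)) : Type := (closure (range (jj : PP R → _)) : Set (BB R → Icc (-1 : ℝ) 1))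

instance : CompactSpace (KK R) := isCompact_iff_compactSpace.1 isClosed_closure.isCompact

/-- the embedding -/
noncomputable def ii (R : Set (ℕ → Bool)) : C(PP R, KK R) :=
  ⟨fun x => ⟨jj x, subset_closure ⟨x, rfl⟩⟩, continuous_jj.subtype_mk _⟩

/-- the extension of a member of `BB` -/
noncomputable def ext (h : BB R) : C(KK R, ℝ) :=
  ⟨fun y => (y.1 h).1, continuous_subtype_val.comp ((continuous_apply h).comp continuous_subtype_val)⟩

lemma ext_ii (h : BB R) (x : PP R) : ext h (ii R x) = h.1 x := rfl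

lemma eq_of_ext {y y' : KK R} (h : ∀ b : BB R, ext b y = ext b y') : y = y' := by
  apply Subtype.ext
  funext b
  exact Subtype.ext (h b)

lemma denseRange_ii : DenseRange (ii R) := by
  rw [DenseRange, Subtype.dense_iff]
  intro y hy
  have h1 : Subtype.val '' range (ii R) = range (jj : PP R → _) := by
    rw [← range_comp]
    rfl
  rw [h1]
  exact hy

/-- clopen neighbourhoods -/
lemma exists_clopen {z : Pt R} {U : Set (Pt R)} (hU : U ∈ 𝓝 z) :
    ∃ W : Set (Pt R), IsClopen W ∧ z ∈ W ∧ W ⊆ U := by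
  have hΦ : IsInducing (Pt.Φ : Pt R → _) := ⟨rfl⟩
  rw [hΦ.nhds_eq_comap, mem_comap] at hU
  obtain ⟨V, hV, hVU⟩ := hU
  obtain ⟨V', hV'V, hV'o, hzV'⟩ := mem_nhds_iff.1 hV
  obtain ⟨C, hC, hzC, hCV⟩ := compact_exists_isClopen_in_isOpen hV'o hzV'
  exact ⟨Pt.Φ ⁻¹' C, hC.preimage hΦ.continuous, hzC, fun w hw => hVU (hV'V (hCV hw))⟩

/-- restrictions of continuous functions on the compactification belong to the algebra -/
lemma restrict_mem (H : C(KK R, ℝ)) : (H.comp (ii R)).comp (evC R) ∈ alg R := by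
  let C : Subalgebra ℝ C(KK R, ℝ) :=
    (alg R).comap (ContinuousMap.compRightAlgHom ℝ ℝ ((ii R).comp (evC R)))
  have hsep : C.SeparatesPoints := by
    intro y y' hne
    have h1 : ∃ b : BB R, ext b y ≠ ext b y' := by
      by_contra hcon
      push Not at hcon
      exact hne (eq_of_ext hcon)
    obtain ⟨b, hb⟩ := h1
    refine ⟨ext b, ⟨ext b, ?_, rfl⟩, hb⟩
    show (ext b).comp ((ii R).comp (evC R)) ∈ alg R
    exact b.2.1
  have htop := ContinuousMap.subalgebra_topologicalClosure_eq_top_of_separatesPoints C hsep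
  have hH : H ∈ C.topologicalClosure := by rw [htop]; trivial
  have hH2 : H ∈ closure (C : Set C(KK R, ℝ)) := hH
  have hseq : ∀ n : ℕ, ∃ G ∈ C, dist H G < 1 / ((n : ℝ) + 1) := fun n => by
    obtain ⟨G, hG, hd⟩ := Metric.mem_closure_iff.1 hH2 (1 / ((n : ℝ) + 1)) Nat.one_div_pos_of_nat
    exact ⟨G, hG, hd⟩
  choose G hG hd using hseq
  refine mem_of_forall (fun n => (G n).comp ((ii R).comp (evC R))) (fun n => hG n) ?_
  intro z w hzw
  show H (ii R (evC R z)) = H (ii R (evC R w))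
  refine eq_of_abs_sub_le_all fun ε hε => ?_
  obtain ⟨n, hn⟩ := exists_nat_one_div_lt (half_pos hε)
  have h1 := (ContinuousMap.dist_apply_le_dist (f := H) (g := G n) (ii R (evC R z))).trans_lt (hd n)
  have h2 := (ContinuousMap.dist_apply_le_dist (f := H) (g := G n) (ii R (evC R w))).trans_lt (hd n)
  rw [Real.dist_eq] at h1 h2
  have h3 : G n (ii R (evC R z)) = G n (ii R (evC R w)) := hzw n
  rw [h3] at h1
  have h4 := abs_sub_le (H (ii R (evC R z))) (G n (ii R (evC R w))) (H (ii R (evC R w)))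
  rw [abs_sub_comm (G n (ii R (evC R w)))] at h4
  linarith

/-- the points in the closure of the image of `Pt R` -/
lemma mem_range_of_closure (hR : ∀ e : (ℕ → Bool) → (ℕ → Bool), Continuous e →
    Function.Injective e → ∃ y, e y ∉ R) {x : PP R} (hx : x ∈ closure (range (evC R))) :
    ∃ z, x = evC R z := by
  have hcl : ∀ S : Set (PP R), IsClosed S → (∀ z, evC R z ∈ S) → x ∈ S := by
    intro S hS h
    exact closure_minimal (by rintro _ ⟨z, rfl⟩; exact h z) hS hx
  let φ : alg R →+* ℝ :=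
    { toFun := fun a => x a.1
      map_one' := hcl {p | p 1 = 1} (isClosed_eq (continuous_apply _) continuous_const)
        (fun z => rfl)
      map_mul' := fun a b => hcl {p | p (a.1 * b.1) = p a.1 * p b.1}
        (isClosed_eq (by fun_prop) (by fun_prop))
        (fun z => rfl)
      map_zero' := hcl {p | p 0 = 0} (isClosed_eq (continuous_apply _) continuous_const)
        (fun z => rfl)
      map_add' := fun a b => hcl {p | p (a.1 + b.1) = p a.1 + p b.1}
        (isClosed_eq (by fun_prop) (by fun_prop))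
        (fun z => rfl) }
  obtain ⟨z, hz⟩ := hom_eval hR φ
  refine ⟨z, ?_⟩
  funext g
  rw [evC_apply]
  by_contra hne
  have hδ : 0 < |x g - g z| / 2 := half_pos (abs_pos.2 (sub_ne_zero.2 hne))
  have hU : {w : Pt R | |g w - g z| < |x g - g z| / 2} ∈ 𝓝 z := by
    apply IsOpen.mem_nhds
    · exact isOpen_lt (by fun_prop) continuous_const
    · simpa using hδ
  obtain ⟨W, hW, hzW, hWU⟩ := exists_clopen hU
  have hxa : x (ind W hW) = 1 := by
    have h1 := hz ⟨ind W hW, ind_mem hR hW⟩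
    have h2 : φ ⟨ind W hW, ind_mem hR hW⟩ = x (ind W hW) := rfl
    rw [h2] at h1
    rw [h1]
    exact ind_apply_mem hW hzW
  have hN : {p : PP R | 1 / 2 < p (ind W hW) ∧ |p g - x g| < |x g - g z| / 2} ∈ 𝓝 x := by
    apply IsOpen.mem_nhds
    · exact (isOpen_lt continuous_const (continuous_apply _)).inter
        (isOpen_lt (((continuous_apply g).sub continuous_const).abs) continuous_const)
    · refine ⟨?_, ?_⟩
      · rw [hxa]; norm_num
      · simpa using hδ
  obtain ⟨_, ⟨h1, h2⟩, ⟨w, rfl⟩⟩ := mem_closure_iff_nhds.1 hx _ hN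
  rw [evC_apply] at h1 h2
  have hwW : w ∈ W := by
    by_contra hn
    rw [ind_apply_notMem hW hn] at h1
    norm_num at h1
  have h3 : |g w - g z| < |x g - g z| / 2 := hWU hwW
  have h4 := abs_sub_le (x g) (g w) (g z)
  rw [abs_sub_comm (x g) (g w)] at h4
  linarith

/-- separation of points and closed sets -/
lemma exists_sep (hR : ∀ e : (ℕ → Bool) → (ℕ → Bool), Continuous e →
    Function.Injective e → ∃ y, e y ∉ R) {x : PP R} {U : Set (PP R)} (hU : U ∈ 𝓝 x) :
    ∃ h : BB R, h.1 x = 1 ∧ ∀ y, y ∉ U → h.1 y = 0 := by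
  have hbase : ∀ V : Set (PP R), V ∈ 𝓝 x → ∃ ψ : C(PP R, ℝ), ψ x = 1 ∧ (∀ y, y ∉ V → ψ y = 0) ∧
      ∀ y, 0 ≤ ψ y ∧ ψ y ≤ 1 := by
    intro V hV
    obtain ⟨V', hV'V, hV'o, hxV'⟩ := mem_nhds_iff.1 hV
    obtain ⟨f, hf, hfx, hfV⟩ := CompletelyRegularSpace.completely_regular x V'ᶜ
      hV'o.isClosed_compl (by simpa using hxV')
    refine ⟨⟨fun y => 1 - (f y : ℝ), by fun_prop⟩, ?_, ?_, ?_⟩
    · show 1 - (f x : ℝ) = 1
      rw [hfx]; simp
    · intro y hy
      have h1 : y ∈ V'ᶜ := fun h => hy (hV'V h)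
      show 1 - (f y : ℝ) = 0
      rw [hfV h1]; simp
    · intro y
      have h1 := (f y).2
      show 0 ≤ 1 - (f y : ℝ) ∧ 1 - (f y : ℝ) ≤ 1
      constructor <;> linarith [h1.1, h1.2]
  by_cases hx : x ∈ closure (range (evC R))
  · obtain ⟨z, rfl⟩ := mem_range_of_closure hR hx
    obtain ⟨ψ, hψ1, hψ2, hψ3⟩ := hbase U hU
    have hO : {w : Pt R | 1 / 2 < ψ (evC R w)} ∈ 𝓝 z := by
      apply IsOpen.mem_nhds
      · exact isOpen_lt continuous_const (by fun_prop)
      · show 1 / 2 < ψ (evC R z)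
        rw [hψ1]; norm_num
    obtain ⟨W, hW, hzW, hWO⟩ := exists_clopen hO
    let h : C(PP R, ℝ) := ⟨fun p => max 0 (min 1 (p (ind W hW))) * min 1 (2 * ψ p), by fun_prop⟩
    have hcomp : h.comp (evC R) = ind W hW := by
      ext w
      show max 0 (min 1 (ind W hW w)) * min 1 (2 * ψ (evC R w)) = ind W hW w
      by_cases hw : w ∈ W
      · rw [ind_apply_mem hW hw]
        have h1 : 1 / 2 < ψ (evC R w) := hWO hw
        rw [min_eq_left (by linarith : (1 : ℝ) ≤ 2 * ψ (evC R w))]
        simp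
      · rw [ind_apply_notMem hW hw]
        simp
    refine ⟨⟨h, ?_, ?_⟩, ?_, ?_⟩
    · rw [mem_AA, hcomp]
      exact ind_mem hR hW
    · intro p
      show |max 0 (min 1 (p (ind W hW))) * min 1 (2 * ψ p)| ≤ 1
      have h1 : 0 ≤ max 0 (min 1 (p (ind W hW))) := le_max_left _ _
      have h2 : max 0 (min 1 (p (ind W hW))) ≤ 1 := max_le zero_le_one (min_le_left _ _)
      have h3 : 0 ≤ min 1 (2 * ψ p) := le_min zero_le_one (by linarith [(hψ3 p).1])
      have h4 : min 1 (2 * ψ p) ≤ 1 := min_le_left _ _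
      rw [abs_of_nonneg (mul_nonneg h1 h3)]
      exact mul_le_one₀ h2 h3 h4
    · show max 0 (min 1 (evC R z (ind W hW))) * min 1 (2 * ψ (evC R z)) = 1
      rw [hψ1, evC_apply, ind_apply_mem hW hzW]
      norm_num
    · intro y hy
      show max 0 (min 1 (y (ind W hW))) * min 1 (2 * ψ y) = 0
      rw [hψ2 y hy]
      simp
  · have hV : U ∩ (closure (range (evC R)))ᶜ ∈ 𝓝 x :=
      inter_mem hU (isClosed_closure.isOpen_compl.mem_nhds hx)
    obtain ⟨ψ, hψ1, hψ2, hψ3⟩ := hbase _ hV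
    refine ⟨⟨ψ, ?_, fun y => abs_le.2 ⟨by linarith [(hψ3 y).1], (hψ3 y).2⟩⟩, hψ1, fun y hy =>
      hψ2 y fun h => hy h.1⟩
    rw [mem_AA]
    have h0 : ψ.comp (evC R) = 0 := by
      ext w
      exact hψ2 _ fun h => h.2 (subset_closure ⟨w, rfl⟩)
    rw [h0]
    exact zero_mem _

lemma isDenseEmbedding_ii (hR : ∀ e : (ℕ → Bool) → (ℕ → Bool), Continuous e →
    Function.Injective e → ∃ y, e y ∉ R) : IsDenseEmbedding (ii R) := by
  refine IsDenseEmbedding.mk' _ (ii R).continuous denseRange_ii ?_ ?_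
  · intro x y hxy
    by_contra hne
    have hU : ({y} : Set (PP R))ᶜ ∈ 𝓝 x := isOpen_compl_singleton.mem_nhds (by simpa using hne)
    obtain ⟨h, h1, h2⟩ := exists_sep hR hU
    have h3 : ext h (ii R x) = ext h (ii R y) := by rw [hxy]
    rw [ext_ii, ext_ii, h1, h2 y (by simp)] at h3
    exact one_ne_zero h3
  · intro x U hU
    obtain ⟨h, h1, h2⟩ := exists_sep hR hU
    refine ⟨{y | 0 < ext h y}, (isOpen_lt continuous_const (ext h).continuous).mem_nhds ?_, ?_⟩
    · show 0 < ext h (ii R x)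
      rw [ext_ii, h1]; exact one_pos
    · intro y hy
      by_contra hn
      have h3 : 0 < ext h (ii R y) := hy
      rw [ext_ii, h2 y hn] at h3
      exact lt_irrefl _ h3

end Pool.Agent.Q266.SS
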