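import Mathlib
import Pool.Agent.Q266.SSC

set_option autoImplicit false

/-! # A power of the real line that fails (**): the proof -/

namespace Pool.Agent.Q266.SS

open Topology Set Filter
open Pool.Agent.W642.HG

variable {R : Set (ℕ → Bool)}

/-- scaled arctangent of a member of the algebra -/
noncomputable def at' (h : C(PP R, ℝ)) : C(PP R, ℝ) :=
  ⟨fun p => Real.arctan (h p) / 2, by
    have := Real.continuous_arctan.comp h.continuous
    exact this.div_const 2⟩

lemma at'_bound (h : C(PP R, ℝ)) (x : PP R) : |at' h x| ≤ 1 := by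
  show |Real.arctan (h x) / 2| ≤ 1
  have h1 := Real.arctan_lt_pi_div_two (h x)
  have h2 := Real.neg_pi_div_two_lt_arctan (h x)
  have h3 := Real.pi_lt_four
  rw [abs_le]
  constructor <;> linarith

lemma at'_mem {h : C(PP R, ℝ)} (hh : h ∈ AA R) : at' h ∈ AA R := by
  rw [mem_AA] at hh ⊢
  refine mem_of_forall (fun _ => h.comp (evC R)) (fun _ => hh) ?_
  intro z w hzw
  have h1 : h (evC R z) = h (evC R w) := hzw 0
  show Real.arctan (h (evC R z)) / 2 = Real.arctan (h (evC R w)) / 2
  rw [h1]

lemma at'_inj {h : C(PP R, ℝ)} {x y : PP R} (hxy : at' h x = at' h y) : h x = h y := by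
  have h1 : Real.arctan (h x) / 2 = Real.arctan (h y) / 2 := hxy
  exact Real.arctan_injective (by linarith)

/-- the compactification is not the Stone–Čech compactification -/
lemma not_beta (hR2 : ¬ R.Countable) : ¬ IsBeta (ii R) := by
  intro hb
  rw [isBeta_iff (ii R).continuous denseRange_ii] at hb
  obtain ⟨g, hg⟩ := hb (at' (co (fC : C(Pt R, ℝ)))) ⟨1, at'_bound _⟩
  apply fC_notMem hR2
  refine mem_of_forall (fun _ => (g.comp (ii R)).comp (evC R)) (fun _ => restrict_mem g) ?_
  intro z w hzw
  have h1 : g (ii R (evC R z)) = g (ii R (evC R w)) := hzw 0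
  rw [hg, hg] at h1
  exact at'_inj h1

/-- the compactification is large -/
lemma large (hR : ∀ e : (ℕ → Bool) → (ℕ → Bool), Continuous e →
    Function.Injective e → ∃ y, e y ∉ R) : IsLarge (ii R) := by
  intro V hV hs
  have hdr : Dense (Subtype.val ⁻¹' (range (ii R)) : Set V) :=
    (denseRange_ii : Dense (range (ii R))).preimage hV.isOpenMap_subtype_val
  have hdv : DenseRange (Subtype.val : V → KK R) := by
    rw [DenseRange, Subtype.range_coe]
    exact (denseRange_ii : Dense (range (ii R))).mono hs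
  rw [isBeta_iff continuous_subtype_val hdv]
  rintro φ ⟨M, hM⟩
  let i' : C(PP R, V) := ⟨fun p => ⟨ii R p, hs ⟨p, rfl⟩⟩, (ii R).continuous.subtype_mk _⟩
  have hmem : (φ.comp i') ∈ AA R := by
    rw [mem_AA]
    apply mem_of_local hR
    intro z
    have hkV : ii R (evC R z) ∈ V := hs ⟨_, rfl⟩
    obtain ⟨N, hN1, hN2, hN3⟩ := exists_mem_nhds_isClosed_subset (hV.mem_nhds hkV)
    let φN : C(N, ℝ) := ⟨fun y => φ ⟨y.1, hN3 y.2⟩, by
      apply φ.continuous.comp
      exact continuous_subtype_val.subtype_mk _⟩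
    obtain ⟨H, hH⟩ := ContinuousMap.exists_restrict_eq hN2 φN
    refine ⟨(fun w => ii R (evC R w)) ⁻¹' N, ?_, fun _ => (H.comp (ii R)).comp (evC R),
      fun _ => restrict_mem H, ?_⟩
    · exact ((ii R).continuous.comp (evC R).continuous).continuousAt.preimage_mem_nhds hN1
    · intro w hw w' hw' hww
      have h1 : H (ii R (evC R w)) = H (ii R (evC R w')) := hww 0
      have h2 : ∀ v : Pt R, ∀ hv : ii R (evC R v) ∈ N, H (ii R (evC R v)) =
          φ ⟨ii R (evC R v), hN3 hv⟩ := by
        intro v hv
        have := ContinuousMap.congr_fun hH ⟨ii R (evC R v), hv⟩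
        exact this
      rw [h2 w hw, h2 w' hw'] at h1
      exact h1
  -- scaling
  set M' : ℝ := max M 1 with hM'
  have hM'0 : 0 < M' := lt_of_lt_of_le one_pos (le_max_right _ _)
  let b : BB R := ⟨(1 / M') • (φ.comp i'), (AA R).smul_mem hmem _, fun x => by
    show |(1 / M') * φ (i' x)| ≤ 1
    rw [abs_mul, abs_of_pos (by positivity : 0 < 1 / M')]
    have h1 : |φ (i' x)| ≤ M' := (hM _).trans (le_max_left _ _)
    rw [one_div, inv_mul_le_iff₀ hM'0]
    linarith⟩
  refine ⟨M' • ext b, ?_⟩
  intro v
  have heq : (fun v : V => (M' • ext b) (v : KK R)) = fun v => φ v := by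
    apply Continuous.ext_on hdr
    · exact (M' • ext b).continuous.comp continuous_subtype_val
    · exact φ.continuous
    · rintro ⟨_, hv⟩ ⟨p, rfl⟩
      show M' * ((1 / M') * φ (i' p)) = φ ⟨ii R p, hv⟩
      rw [← mul_assoc, mul_one_div_cancel hM'0.ne', one_mul]
      rfl
  exact congrFun heq v

/-- the power of the real line is `G_δ`-closed in the compactification -/
lemma gdelta (hR : ∀ e : (ℕ → Bool) → (ℕ → Bool), Continuous e →
    Function.Injective e → ∃ y, e y ∉ R) : IsGdeltaClosed (ii R) := by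
  intro y hy
  by_contra hcon
  push Not at hcon
  have hcz : ∀ H : Fin 3 → BB R, ∃ p : PP R, ∀ n, (H n).1 p = ext (H n) y := by
    intro H
    have hG : IsGδ (⋂ n, {k : KK R | ext (H n) k = ext (H n) y}) := by
      refine IsGδ.iInter fun n => ?_
      have h1 : {k : KK R | ext (H n) k = ext (H n) y} = ext (H n) ⁻¹' {ext (H n) y} := rfl
      rw [h1]
      exact (IsGδ.singleton _).preimage (ext (H n)).continuous
    have h1 := hcon _ hG (mem_iInter.2 fun n => rfl)
    rw [Set.not_disjoint_iff] at h1
    obtain ⟨_, h2, ⟨p, rfl⟩⟩ := h1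
    rw [mem_iInter] at h2
    exact ⟨p, fun n => h2 n⟩
  -- values of members of the algebra
  have hval : ∀ h : AA R, ∃ c : ℝ, ∀ p : PP R,
      at' h.1 p = ext ⟨at' h.1, at'_mem h.2, at'_bound _⟩ y → h.1 p = c := by
    intro h
    obtain ⟨p, hp⟩ := hcz fun _ => ⟨at' h.1, at'_mem h.2, at'_bound _⟩
    exact ⟨h.1 p, fun q hq => at'_inj (hq.trans (hp 0).symm)⟩
  choose c hc using hval
  have hc3 : ∀ h : Fin 3 → AA R, ∃ p : PP R, ∀ n, (h n).1 p = c (h n) := by
    intro h
    obtain ⟨p, hp⟩ := hcz fun n => ⟨at' (h n).1, at'_mem (h n).2, at'_bound _⟩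
    exact ⟨p, fun n => hc (h n) p (hp n)⟩
  let φ : AA R →+* ℝ :=
    { toFun := c
      map_one' := by
        obtain ⟨p, hp⟩ := hc3 ![1, 1, 1]
        exact (hp 0).symm
      map_zero' := by
        obtain ⟨p, hp⟩ := hc3 ![0, 0, 0]
        exact (hp 0).symm
      map_mul' := by
        intro a b
        obtain ⟨p, hp⟩ := hc3 ![a, b, a * b]
        have h0 : a.1 p = c a := hp 0
        have h1 : b.1 p = c b := hp 1
        have h2 : a.1 p * b.1 p = c (a * b) := hp 2
        rw [← h2, h0, h1]
      map_add' := by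
        intro a b
        obtain ⟨p, hp⟩ := hc3 ![a, b, a + b]
        have h0 : a.1 p = c a := hp 0
        have h1 : b.1 p = c b := hp 1
        have h2 : a.1 p + b.1 p = c (a + b) := hp 2
        rw [← h2, h0, h1] }
  have hφb : ∀ b : BB R, ext b y = φ ⟨b.1, b.2.1⟩ := by
    intro b
    obtain ⟨p, hp⟩ := hcz ![b, ⟨at' b.1, at'_mem b.2.1, at'_bound _⟩, b]
    have h0 : b.1 p = ext b y := hp 0
    have h1 : at' b.1 p = ext ⟨at' b.1, at'_mem b.2.1, at'_bound _⟩ y := hp 1
    rw [← h0]
    exact hc ⟨b.1, b.2.1⟩ p h1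
  by_cases hcase : ∀ h : AA R, h.1.comp (evC R) = 0 → φ h = 0
  · -- the point is in the closure of the image of `Pt R`
    have hcomem : ∀ a : alg R, co a.1 ∈ AA R := fun a => by
      rw [mem_AA, co_comp]; exact a.2
    have hdiff : ∀ h h' : AA R, h.1.comp (evC R) = h'.1.comp (evC R) → φ h = φ h' := by
      intro h h' hh
      have h1 : φ (h - h') = 0 := by
        apply hcase
        ext z
        have := ContinuousMap.congr_fun hh z
        show h.1 (evC R z) - h'.1 (evC R z) = 0
        exact sub_eq_zero.2 this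
      rw [map_sub] at h1
      exact sub_eq_zero.1 h1
    let ψ : alg R →+* ℝ :=
      { toFun := fun a => φ ⟨co a.1, hcomem a⟩
        map_one' := by
          rw [← map_one φ]
          apply hdiff
          rw [co_comp]
          rfl
        map_zero' := by
          rw [← map_zero φ]
          apply hdiff
          rw [co_comp]
          rfl
        map_mul' := by
          intro a b
          rw [← map_mul φ]
          apply hdiff
          rw [co_comp]
          rfl
        map_add' := by
          intro a b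
          rw [← map_add φ]
          apply hdiff
          rw [co_comp]
          rfl }
    obtain ⟨z, hz⟩ := hom_eval hR ψ
    apply hy
    refine ⟨evC R z, ?_⟩
    apply eq_of_ext
    intro b
    rw [hφb b, ext_ii]
    have h1 := hz ⟨b.1.comp (evC R), b.2.1⟩
    have h2 : ψ ⟨b.1.comp (evC R), b.2.1⟩ = φ ⟨b.1, b.2.1⟩ := by
      apply hdiff
      exact co_comp _
    rw [← h2, h1]
    rfl
  · push Not at hcase
    obtain ⟨u, hu0, hu⟩ := hcase
    have hmul : ∀ g : C(PP R, ℝ), g * u.1 ∈ AA R := by
      intro g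
      rw [mem_AA]
      have h0 : (g * u.1).comp (evC R) = 0 := by
        ext z
        have := ContinuousMap.congr_fun hu0 z
        show g (evC R z) * u.1 (evC R z) = 0
        have h3 : u.1 (evC R z) = 0 := this
        rw [h3, mul_zero]
      rw [h0]
      exact zero_mem _
    let θ : C(PP R, ℝ) →+* ℝ :=
      { toFun := fun g => φ ⟨g * u.1, hmul g⟩ / φ u
        map_one' := by
          have h1 : (⟨1 * u.1, hmul 1⟩ : AA R) = u := Subtype.ext (one_mul _)
          rw [h1, div_self hu]
        map_zero' := by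
          have h1 : (⟨0 * u.1, hmul 0⟩ : AA R) = 0 := Subtype.ext (zero_mul _)
          rw [h1, map_zero, zero_div]
        map_mul' := by
          intro g g'
          have h1 : (⟨g * u.1, hmul g⟩ : AA R) * ⟨g' * u.1, hmul g'⟩ =
              ⟨g * g' * u.1, hmul (g * g')⟩ * u := by
            apply Subtype.ext
            show g * u.1 * (g' * u.1) = g * g' * u.1 * u.1
            ring
          have h2 := congrArg φ h1
          rw [map_mul, map_mul] at h2
          field_simp
          linear_combination -h2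
        map_add' := by
          intro g g'
          have h1 : (⟨(g + g') * u.1, hmul (g + g')⟩ : AA R) =
              ⟨g * u.1, hmul g⟩ + ⟨g' * u.1, hmul g'⟩ := Subtype.ext (add_mul _ _ _)
          rw [h1, map_add, add_div] }
    obtain ⟨p, hp⟩ := hom_eval_closed (X := PP R) (I := C(Pt R, ℝ)) (fun x => x)
      IsClosedEmbedding.id θ
    apply hy
    refine ⟨p, ?_⟩
    apply eq_of_ext
    intro b
    rw [hφb b, ext_ii, ← hp b.1]
    show φ ⟨b.1 * u.1, hmul b.1⟩ / φ u = φ ⟨b.1, b.2.1⟩
    have h1 : (⟨b.1 * u.1, hmul b.1⟩ : AA R) = ⟨b.1, b.2.1⟩ * u := rfl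
    rw [h1, map_mul, mul_div_cancel_right₀ _ hu]

/-- Some power of the real line fails (**). -/
theorem power_fails : ∃ I : Type, ¬ StarStar (I → ℝ) := by
  obtain ⟨R, hR2, hR⟩ := exists_bernstein
  refine ⟨C(Pt R, ℝ), fun h => ?_⟩
  exact not_beta hR2 (h (KK R) (ii R) ⟨inferInstance, inferInstance, isDenseEmbedding_ii hR⟩
    (large hR) (gdelta hR))

end Pool.Agent.Q266.SS
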