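import Mathlib
import Pool.Agent.Q266.FacDvd
import Pool.Agent.Q266.FacVal

/-!
Two families of integral factorial quotients, their parity and (for `k = 0`) their divisibility
by three.
-/

namespace Q266.ShapeE

open Finset Q266.FacDvd Q266.FacVal

theorem floor1 (r k q : ℕ) (hq : 1 < q) :
    (3 * k + 1) / q + ((2 * r + 4 * k + 3) / q + ((r + k) / q + ((r + k) / q + r / q)))
      ≤ k / q + ((2 * r + 2 * k) / q + (3 * r + 6 * k + 3) / q) := by
  have hq0 : 0 < q := by omega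
  have hr : r % q < q := Nat.mod_lt _ hq0
  have hs : k % q < q := Nat.mod_lt _ hq0
  have en := Nat.div_add_mod r q
  have ek := Nat.div_add_mod k q
  generalize r % q = s at *
  generalize k % q = t at *
  generalize r / q = x at *
  generalize k / q = y at *
  subst en
  subst ek
  have t1 : (3 * (q * y + t) + 1) / q = 3 * y + (3 * t + 1) / q := by
    rw [show 3 * (q * y + t) + 1 = q * (3 * y) + (3 * t + 1) by ring, Nat.mul_add_div hq0]
  have t2 : (2 * (q * x + s) + 4 * (q * y + t) + 3) / q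
      = 2 * x + 4 * y + (2 * s + 4 * t + 3) / q := by
    rw [show 2 * (q * x + s) + 4 * (q * y + t) + 3 = q * (2 * x + 4 * y) + (2 * s + 4 * t + 3) by
      ring, Nat.mul_add_div hq0]
  have t3 : (q * x + s + (q * y + t)) / q = x + y + (s + t) / q := by
    rw [show q * x + s + (q * y + t) = q * (x + y) + (s + t) by ring, Nat.mul_add_div hq0]
  have t4 : (2 * (q * x + s) + 2 * (q * y + t)) / q = 2 * x + 2 * y + (2 * s + 2 * t) / q := by
    rw [show 2 * (q * x + s) + 2 * (q * y + t) = q * (2 * x + 2 * y) + (2 * s + 2 * t) by ring,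
      Nat.mul_add_div hq0]
  have t5 : (3 * (q * x + s) + 6 * (q * y + t) + 3) / q
      = 3 * x + 6 * y + (3 * s + 6 * t + 3) / q := by
    rw [show 3 * (q * x + s) + 6 * (q * y + t) + 3 = q * (3 * x + 6 * y) + (3 * s + 6 * t + 3) by
      ring, Nat.mul_add_div hq0]
  rw [t1, t2, t3, t4, t5]
  clear t1 t2 t3 t4 t5
  have d1 : (3 * t + 1) / q < 3 := Nat.div_lt_of_lt_mul (by omega)
  have d2 : (2 * s + 4 * t + 3) / q < 6 := Nat.div_lt_of_lt_mul (by omega)
  have d3 : (s + t) / q < 2 := Nat.div_lt_of_lt_mul (by omega)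
  have d4 : (2 * s + 2 * t) / q < 4 := Nat.div_lt_of_lt_mul (by omega)
  have d5 : (3 * s + 6 * t + 3) / q < 9 := Nat.div_lt_of_lt_mul (by omega)
  have u1 := Nat.div_mul_le_self (3 * t + 1) q
  have u2 := Nat.div_mul_le_self (2 * s + 4 * t + 3) q
  have u3 := Nat.div_mul_le_self (s + t) q
  have u4 := Nat.lt_div_mul_add (a := 2 * s + 2 * t) hq0
  have u5 := Nat.lt_div_mul_add (a := 3 * s + 6 * t + 3) hq0
  generalize (3 * t + 1) / q = e1 at *
  generalize (2 * s + 4 * t + 3) / q = e2 at *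
  generalize (s + t) / q = e3 at *
  generalize (2 * s + 2 * t) / q = e4 at *
  generalize (3 * s + 6 * t + 3) / q = e5 at *
  suffices h : e1 + e2 + 2 * e3 ≤ e4 + e5 by omega
  clear x y
  by_contra hcon
  push Not at hcon
  interval_cases e4 <;> interval_cases e3 <;> first
    | omega
    | (interval_cases e5 <;> first
      | omega
      | (interval_cases e1 <;> interval_cases e2 <;> omega))

theorem floor3 (r k q : ℕ) (hq : 1 < q) :
    (3 * k + 2) / q + ((2 * r + 4 * k + 3) / q + ((r + k) / q + ((r + k) / q + r / q)))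
      ≤ k / q + ((2 * r + 2 * k) / q + (3 * r + 6 * k + 4) / q) := by
  have hq0 : 0 < q := by omega
  have hr : r % q < q := Nat.mod_lt _ hq0
  have hs : k % q < q := Nat.mod_lt _ hq0
  have en := Nat.div_add_mod r q
  have ek := Nat.div_add_mod k q
  generalize r % q = s at *
  generalize k % q = t at *
  generalize r / q = x at *
  generalize k / q = y at *
  subst en
  subst ek
  have t1 : (3 * (q * y + t) + 2) / q = 3 * y + (3 * t + 2) / q := by
    rw [show 3 * (q * y + t) + 2 = q * (3 * y) + (3 * t + 2) by ring, Nat.mul_add_div hq0]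
  have t2 : (2 * (q * x + s) + 4 * (q * y + t) + 3) / q
      = 2 * x + 4 * y + (2 * s + 4 * t + 3) / q := by
    rw [show 2 * (q * x + s) + 4 * (q * y + t) + 3 = q * (2 * x + 4 * y) + (2 * s + 4 * t + 3) by
      ring, Nat.mul_add_div hq0]
  have t3 : (q * x + s + (q * y + t)) / q = x + y + (s + t) / q := by
    rw [show q * x + s + (q * y + t) = q * (x + y) + (s + t) by ring, Nat.mul_add_div hq0]
  have t4 : (2 * (q * x + s) + 2 * (q * y + t)) / q = 2 * x + 2 * y + (2 * s + 2 * t) / q := by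
    rw [show 2 * (q * x + s) + 2 * (q * y + t) = q * (2 * x + 2 * y) + (2 * s + 2 * t) by ring,
      Nat.mul_add_div hq0]
  have t5 : (3 * (q * x + s) + 6 * (q * y + t) + 4) / q
      = 3 * x + 6 * y + (3 * s + 6 * t + 4) / q := by
    rw [show 3 * (q * x + s) + 6 * (q * y + t) + 4 = q * (3 * x + 6 * y) + (3 * s + 6 * t + 4) by
      ring, Nat.mul_add_div hq0]
  rw [t1, t2, t3, t4, t5]
  clear t1 t2 t3 t4 t5
  have d1 : (3 * t + 2) / q < 3 := Nat.div_lt_of_lt_mul (by omega)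
  have d2 : (2 * s + 4 * t + 3) / q < 6 := Nat.div_lt_of_lt_mul (by omega)
  have d3 : (s + t) / q < 2 := Nat.div_lt_of_lt_mul (by omega)
  have d4 : (2 * s + 2 * t) / q < 4 := Nat.div_lt_of_lt_mul (by omega)
  have d5 : (3 * s + 6 * t + 4) / q < 9 := Nat.div_lt_of_lt_mul (by omega)
  have u1 := Nat.div_mul_le_self (3 * t + 2) q
  have u2 := Nat.div_mul_le_self (2 * s + 4 * t + 3) q
  have u3 := Nat.div_mul_le_self (s + t) q
  have u4 := Nat.lt_div_mul_add (a := 2 * s + 2 * t) hq0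
  have u5 := Nat.lt_div_mul_add (a := 3 * s + 6 * t + 4) hq0
  generalize (3 * t + 2) / q = e1 at *
  generalize (2 * s + 4 * t + 3) / q = e2 at *
  generalize (s + t) / q = e3 at *
  generalize (2 * s + 2 * t) / q = e4 at *
  generalize (3 * s + 6 * t + 4) / q = e5 at *
  suffices h : e1 + e2 + 2 * e3 ≤ e4 + e5 by omega
  clear x y
  by_contra hcon
  push Not at hcon
  interval_cases e4 <;> interval_cases e3 <;> first
    | omega
    | (interval_cases e5 <;> first
      | omega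
      | (interval_cases e1 <;> interval_cases e2 <;> omega))

/-- the lists for the first quotient -/
def A1 (r k : ℕ) : List ℕ := [3 * k + 1, 2 * r + 4 * k + 3, r + k, r + k, r]
def B1 (r k : ℕ) : List ℕ := [k, 2 * r + 2 * k, 3 * r + 6 * k + 3]
def A3 (r k : ℕ) : List ℕ := [3 * k + 2, 2 * r + 4 * k + 3, r + k, r + k, r]
def B3 (r k : ℕ) : List ℕ := [k, 2 * r + 2 * k, 3 * r + 6 * k + 4]

theorem lvl1 (r k q : ℕ) (hq : 1 < q) :
    ((A1 r k).map (fun a => a / q)).sum ≤ ((B1 r k).map (fun a => a / q)).sum := by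
  simpa [A1, B1] using floor1 r k q hq

theorem lvl3 (r k q : ℕ) (hq : 1 < q) :
    ((A3 r k).map (fun a => a / q)).sum ≤ ((B3 r k).map (fun a => a / q)).sum := by
  simpa [A3, B3] using floor3 r k q hq

theorem one_lt_pow' {p i : ℕ} (hp : p.Prime) (hi : 1 ≤ i) : 1 < p ^ i :=
  Nat.one_lt_pow (by omega) hp.one_lt

/-- surplus at a level of the prime two -/
theorem surplus1 (r k : ℕ) (h : 1 ≤ r + k) : ∃ j, 1 ≤ j ∧
    ((A1 r k).map (fun a => a / 2 ^ j)).sum < ((B1 r k).map (fun a => a / 2 ^ j)).sum := by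
  obtain ⟨i, hi1, hi2⟩ : ∃ i, 2 ^ i ≤ r + 2 * k + 1 ∧ r + 2 * k + 1 < 2 ^ (i + 1) :=
    ⟨Nat.log 2 (r + 2 * k + 1), Nat.pow_log_le_self 2 (by omega),
      Nat.lt_pow_succ_log_self (by norm_num) _⟩
  have hi0 : 1 ≤ i := by
    rcases Nat.eq_zero_or_pos i with h0 | h0
    · subst h0
      simp at hi2
      omega
    · exact h0
  obtain ⟨Q, hQ⟩ : ∃ Q, 2 ^ i = 2 * Q := ⟨2 ^ (i - 1), by rw [← pow_succ']; congr 1; omega⟩
  have hQ0 : 0 < Q := by
    have : 0 < 2 ^ i := by positivity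
    omega
  rw [pow_succ, hQ] at hi2
  rw [hQ] at hi1
  by_cases h1 : 4 * (2 * Q) ≤ 3 * r + 6 * k + 3
  · refine ⟨i + 2, by omega, ?_⟩
    have e : (2 : ℕ) ^ (i + 2) = 4 * (2 * Q) := by rw [pow_add, hQ]; ring
    rw [e]
    simp only [A1, B1, List.map_cons, List.map_nil, List.sum_cons, List.sum_nil]
    have a1 : (3 * k + 1) / (4 * (2 * Q)) = 0 := Nat.div_eq_of_lt (by omega)
    have a2 : (2 * r + 4 * k + 3) / (4 * (2 * Q)) = 0 := Nat.div_eq_of_lt (by omega)
    have a3 : (r + k) / (4 * (2 * Q)) = 0 := Nat.div_eq_of_lt (by omega)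
    have a4 : r / (4 * (2 * Q)) = 0 := Nat.div_eq_of_lt (by omega)
    have c1 := Nat.zero_le (k / (4 * (2 * Q)))
    have c2 := Nat.zero_le ((2 * r + 2 * k) / (4 * (2 * Q)))
    have b1 : 1 ≤ (3 * r + 6 * k + 3) / (4 * (2 * Q)) :=
      (Nat.le_div_iff_mul_le (by omega)).2 (by omega)
    omega
  · by_cases h2 : 2 * Q ≤ r + k
    · refine ⟨i + 1, by omega, ?_⟩
      have e : (2 : ℕ) ^ (i + 1) = 2 * (2 * Q) := by rw [pow_succ, hQ]; ring
      rw [e]
      simp only [A1, B1, List.map_cons, List.map_nil, List.sum_cons, List.sum_nil]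
      have a1 : (3 * k + 1) / (2 * (2 * Q)) = 0 := Nat.div_eq_of_lt (by omega)
      have a2 : (2 * r + 4 * k + 3) / (2 * (2 * Q)) < 2 := Nat.div_lt_of_lt_mul (by omega)
      have a3 : (r + k) / (2 * (2 * Q)) = 0 := Nat.div_eq_of_lt (by omega)
      have a4 : r / (2 * (2 * Q)) = 0 := Nat.div_eq_of_lt (by omega)
      have c1 := Nat.zero_le (k / (2 * (2 * Q)))
      have b1 : 1 ≤ (3 * r + 6 * k + 3) / (2 * (2 * Q)) :=
        (Nat.le_div_iff_mul_le (by omega)).2 (by omega)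
      have b2 : 1 ≤ (2 * r + 2 * k) / (2 * (2 * Q)) :=
        (Nat.le_div_iff_mul_le (by omega)).2 (by omega)
      omega
    · refine ⟨i, by omega, ?_⟩
      rw [hQ]
      simp only [A1, B1, List.map_cons, List.map_nil, List.sum_cons, List.sum_nil]
      have a1 : (3 * k + 1) / (2 * Q) < 2 := Nat.div_lt_of_lt_mul (by omega)
      have a2 : (2 * r + 4 * k + 3) / (2 * Q) < 3 := Nat.div_lt_of_lt_mul (by omega)
      have a3 : (r + k) / (2 * Q) = 0 := Nat.div_eq_of_lt (by omega)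
      have a4 : r / (2 * Q) = 0 := Nat.div_eq_of_lt (by omega)
      have c1 := Nat.zero_le (k / (2 * Q))
      have b1 : 3 ≤ (3 * r + 6 * k + 3) / (2 * Q) :=
        (Nat.le_div_iff_mul_le (by omega)).2 (by omega)
      have b2 : 1 ≤ (2 * r + 2 * k) / (2 * Q) :=
        (Nat.le_div_iff_mul_le (by omega)).2 (by omega)
      omega

theorem surplus3 (r k : ℕ) (h : 1 ≤ r + k) : ∃ j, 1 ≤ j ∧
    ((A3 r k).map (fun a => a / 2 ^ j)).sum < ((B3 r k).map (fun a => a / 2 ^ j)).sum := by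
  obtain ⟨i, hi1, hi2⟩ : ∃ i, 2 ^ i ≤ r + 2 * k + 1 ∧ r + 2 * k + 1 < 2 ^ (i + 1) :=
    ⟨Nat.log 2 (r + 2 * k + 1), Nat.pow_log_le_self 2 (by omega),
      Nat.lt_pow_succ_log_self (by norm_num) _⟩
  have hi0 : 1 ≤ i := by
    rcases Nat.eq_zero_or_pos i with h0 | h0
    · subst h0
      simp at hi2
      omega
    · exact h0
  obtain ⟨Q, hQ⟩ : ∃ Q, 2 ^ i = 2 * Q := ⟨2 ^ (i - 1), by rw [← pow_succ']; congr 1; omega⟩
  have hQ0 : 0 < Q := by
    have : 0 < 2 ^ i := by positivity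
    omega
  rw [pow_succ, hQ] at hi2
  rw [hQ] at hi1
  by_cases h1 : 4 * (2 * Q) ≤ 3 * r + 6 * k + 3
  · refine ⟨i + 2, by omega, ?_⟩
    have e : (2 : ℕ) ^ (i + 2) = 4 * (2 * Q) := by rw [pow_add, hQ]; ring
    rw [e]
    simp only [A3, B3, List.map_cons, List.map_nil, List.sum_cons, List.sum_nil]
    have a1 : (3 * k + 2) / (4 * (2 * Q)) = 0 := Nat.div_eq_of_lt (by omega)
    have a2 : (2 * r + 4 * k + 3) / (4 * (2 * Q)) = 0 := Nat.div_eq_of_lt (by omega)
    have a3 : (r + k) / (4 * (2 * Q)) = 0 := Nat.div_eq_of_lt (by omega)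
    have a4 : r / (4 * (2 * Q)) = 0 := Nat.div_eq_of_lt (by omega)
    have c1 := Nat.zero_le (k / (4 * (2 * Q)))
    have c2 := Nat.zero_le ((2 * r + 2 * k) / (4 * (2 * Q)))
    have b1 : 1 ≤ (3 * r + 6 * k + 4) / (4 * (2 * Q)) :=
      (Nat.le_div_iff_mul_le (by omega)).2 (by omega)
    omega
  · by_cases h2 : 2 * Q ≤ r + k
    · refine ⟨i + 1, by omega, ?_⟩
      have e : (2 : ℕ) ^ (i + 1) = 2 * (2 * Q) := by rw [pow_succ, hQ]; ring
      rw [e]
      simp only [A3, B3, List.map_cons, List.map_nil, List.sum_cons, List.sum_nil]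
      have a1 : (3 * k + 2) / (2 * (2 * Q)) = 0 := Nat.div_eq_of_lt (by omega)
      have a2 : (2 * r + 4 * k + 3) / (2 * (2 * Q)) < 2 := Nat.div_lt_of_lt_mul (by omega)
      have a3 : (r + k) / (2 * (2 * Q)) = 0 := Nat.div_eq_of_lt (by omega)
      have a4 : r / (2 * (2 * Q)) = 0 := Nat.div_eq_of_lt (by omega)
      have c1 := Nat.zero_le (k / (2 * (2 * Q)))
      have b1 : 1 ≤ (3 * r + 6 * k + 4) / (2 * (2 * Q)) :=
        (Nat.le_div_iff_mul_le (by omega)).2 (by omega)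
      have b2 : 1 ≤ (2 * r + 2 * k) / (2 * (2 * Q)) :=
        (Nat.le_div_iff_mul_le (by omega)).2 (by omega)
      omega
    · refine ⟨i, by omega, ?_⟩
      rw [hQ]
      simp only [A3, B3, List.map_cons, List.map_nil, List.sum_cons, List.sum_nil]
      have a1 : (3 * k + 2) / (2 * Q) < 2 ∨ ((3 * k + 2) / (2 * Q) < 3 ∧
          4 ≤ (3 * r + 6 * k + 4) / (2 * Q)) := by
        by_cases h3 : 3 * k + 2 < 2 * Q * 2
        · exact Or.inl (Nat.div_lt_of_lt_mul h3)
        · exact Or.inr ⟨Nat.div_lt_of_lt_mul (by omega),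
            (Nat.le_div_iff_mul_le (by omega)).2 (by omega)⟩
      have a2 : (2 * r + 4 * k + 3) / (2 * Q) < 3 := Nat.div_lt_of_lt_mul (by omega)
      have a3 : (r + k) / (2 * Q) = 0 := Nat.div_eq_of_lt (by omega)
      have a4 : r / (2 * Q) = 0 := Nat.div_eq_of_lt (by omega)
      have c1 := Nat.zero_le (k / (2 * Q))
      have b1 : 3 ≤ (3 * r + 6 * k + 4) / (2 * Q) :=
        (Nat.le_div_iff_mul_le (by omega)).2 (by omega)
      have b2 : 1 ≤ (2 * r + 2 * k) / (2 * Q) :=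
        (Nat.le_div_iff_mul_le (by omega)).2 (by omega)
      omega

/-- The first quotient is an integer, and it is even if `r + k ≥ 1`. -/
theorem exists_R1 (r k : ℕ) : ∃ ρ : ℕ,
    ((A1 r k).map Nat.factorial).prod * ρ = ((B1 r k).map Nat.factorial).prod ∧
      (1 ≤ r + k → 2 ∣ ρ) := by
  obtain ⟨ρ, hρ⟩ := fac_dvd (A1 r k) (B1 r k) (fun q hq => lvl1 r k q (by omega))
  refine ⟨ρ, hρ.symm, fun h => ?_⟩
  obtain ⟨j, hj, hlt⟩ := surplus1 r k h
  exact dvd_of_val_lt (prod_fac_ne _) hρ.symm (val_lt 2 Nat.prime_two _ _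
    (fun i hi => lvl1 r k _ (one_lt_pow' Nat.prime_two hi)) j hj hlt)

theorem exists_R3 (r k : ℕ) : ∃ ρ : ℕ,
    ((A3 r k).map Nat.factorial).prod * ρ = ((B3 r k).map Nat.factorial).prod ∧
      (1 ≤ r + k → 2 ∣ ρ) := by
  obtain ⟨ρ, hρ⟩ := fac_dvd (A3 r k) (B3 r k) (fun q hq => lvl3 r k q (by omega))
  refine ⟨ρ, hρ.symm, fun h => ?_⟩
  obtain ⟨j, hj, hlt⟩ := surplus3 r k h
  exact dvd_of_val_lt (prod_fac_ne _) hρ.symm (val_lt 2 Nat.prime_two _ _
    (fun i hi => lvl3 r k _ (one_lt_pow' Nat.prime_two hi)) j hj hlt)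

/-- divisibility by three of the first quotient for `k = 0` -/
theorem three_dvd (r ρ : ℕ) (h : ((A1 r 0).map Nat.factorial).prod * ρ
    = ((B1 r 0).map Nat.factorial).prod) (hp : ∀ m : ℕ, 2 * r + 3 ≠ 3 ^ m) : 3 ∣ ρ := by
  obtain ⟨i, hi1, hi2⟩ : ∃ i, 3 ^ i ≤ r + 1 ∧ r + 1 < 3 ^ (i + 1) :=
    ⟨Nat.log 3 (r + 1), Nat.pow_log_le_self 3 (by omega),
      Nat.lt_pow_succ_log_self (by norm_num) _⟩
  have hodd : (3 ^ i) % 2 = 1 := by
    rw [Nat.pow_mod]; norm_num
  have hsur : ∃ j, 1 ≤ j ∧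
      ((A1 r 0).map (fun a => a / 3 ^ j)).sum < ((B1 r 0).map (fun a => a / 3 ^ j)).sum := by
    have hp' := hp (i + 1)
    rw [pow_succ] at hp' hi2
    by_cases h1 : 2 * r + 3 < 3 * 3 ^ i
    · refine ⟨i + 1, by omega, ?_⟩
      rw [pow_succ]
      simp only [A1, B1, List.map_cons, List.map_nil, List.sum_cons, List.sum_nil, mul_zero,
        add_zero, zero_add, Nat.zero_div]
      generalize 3 ^ i = Q at *
      have c2 := Nat.zero_le (2 * r / (Q * 3))
      have a1 : 1 / (Q * 3) = 0 := Nat.div_eq_of_lt (by omega)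
      have a2 : (2 * r + 3) / (Q * 3) = 0 := Nat.div_eq_of_lt (by omega)
      have a3 : r / (Q * 3) = 0 := Nat.div_eq_of_lt (by omega)
      have b1 : 1 ≤ (3 * r + 3) / (Q * 3) := (Nat.le_div_iff_mul_le (by omega)).2 (by omega)
      omega
    · by_cases h2 : 3 * 3 ^ i ≤ 2 * r
      · refine ⟨i + 1, by omega, ?_⟩
        rw [pow_succ]
        simp only [A1, B1, List.map_cons, List.map_nil, List.sum_cons, List.sum_nil, mul_zero,
          add_zero, zero_add, Nat.zero_div]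
        generalize 3 ^ i = Q at *
        have a1 : 1 / (Q * 3) = 0 := Nat.div_eq_of_lt (by omega)
        have a2 : (2 * r + 3) / (Q * 3) < 2 := Nat.div_lt_of_lt_mul (by omega)
        have a3 : r / (Q * 3) = 0 := Nat.div_eq_of_lt (by omega)
        have b1 : 1 ≤ (3 * r + 3) / (Q * 3) := (Nat.le_div_iff_mul_le (by omega)).2 (by omega)
        have b2 : 1 ≤ (2 * r) / (Q * 3) := (Nat.le_div_iff_mul_le (by omega)).2 (by omega)
        omega
      · refine ⟨1, le_rfl, ?_⟩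
        simp only [A1, B1, List.map_cons, List.map_nil, List.sum_cons, List.sum_nil, mul_zero,
          add_zero, zero_add, pow_one]
        generalize 3 ^ i = Q at *
        omega
  obtain ⟨j, hj, hlt⟩ := hsur
  exact dvd_of_val_lt (prod_fac_ne _) h (val_lt 3 Nat.prime_three _ _
    (fun i hi => lvl1 r 0 _ (one_lt_pow' Nat.prime_three hi)) j hj hlt)

theorem not_three_dvd (r ρ : ℕ) (h : ((A1 r 0).map Nat.factorial).prod * ρ
    = ((B1 r 0).map Nat.factorial).prod) (m : ℕ) (hm : 2 * r + 3 = 3 ^ m) : ¬ 3 ∣ ρ := by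
  refine not_dvd_of_val_eq Nat.prime_three (prod_fac_ne _) h (val_eq 3 Nat.prime_three _ _ ?_)
  intro i hi
  simp only [A1, B1, List.map_cons, List.map_nil, List.sum_cons, List.sum_nil, mul_zero,
    add_zero, zero_add, Nat.zero_div]
  by_cases him : i ≤ m
  · obtain ⟨c, rfl⟩ := Nat.exists_eq_add_of_le him
    rw [pow_add] at hm
    have ho1 : (3 ^ i) % 2 = 1 := by rw [Nat.pow_mod]; norm_num
    have ho2 : (3 ^ c) % 2 = 1 := by rw [Nat.pow_mod]; norm_num
    have h3 : 3 ≤ 3 ^ i := by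
      calc 3 = 3 ^ 1 := (pow_one 3).symm
        _ ≤ 3 ^ i := Nat.pow_le_pow_right (by norm_num) hi
    obtain ⟨u, hu⟩ : ∃ u, 3 ^ c = 2 * u + 1 := ⟨3 ^ c / 2, by omega⟩
    obtain ⟨g, hg⟩ : ∃ g, 3 ^ i = 2 * g + 1 := ⟨3 ^ i / 2, by omega⟩
    rw [hu, hg] at hm
    rw [hg]
    have hq0 : 0 < 2 * g + 1 := by omega
    have hr : r + 1 = (2 * g + 1) * u + g := by nlinarith
    obtain ⟨r', hr'⟩ : ∃ r', r = (2 * g + 1) * u + r' ∧ r' + 1 = g := ⟨g - 1, by omega, by omega⟩
    have a1 : 1 / (2 * g + 1) = 0 := Nat.div_eq_of_lt (by omega)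
    have a2 : (2 * r + 3) / (2 * g + 1) = 2 * u + 1 := by
      rw [hm]
      exact Nat.mul_div_cancel_left _ hq0
    have a3 : r / (2 * g + 1) = u := by
      rw [hr'.1, Nat.mul_add_div hq0, Nat.div_eq_of_lt (by omega), add_zero]
    have a4 : (2 * r) / (2 * g + 1) = 2 * u := by
      rw [show 2 * r = (2 * g + 1) * (2 * u) + 2 * r' by rw [hr'.1]; ring, Nat.mul_add_div hq0,
        Nat.div_eq_of_lt (by omega), add_zero]
    have a5 : (3 * r + 3) / (2 * g + 1) = 3 * u + 1 := by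
      have : 3 * r + 3 = (2 * g + 1) * (3 * u + 1) + (g - 1) := by
        have h4 : 3 * r + 3 = (2 * g + 1) * (3 * u) + (3 * r' + 3) := by rw [hr'.1]; ring
        rw [h4, mul_add]
        omega
      rw [this, Nat.mul_add_div hq0, Nat.div_eq_of_lt (by omega), add_zero]
    rw [a1, a2, a3, a4, a5]
    omega
  · have h3 : 3 * 3 ^ m ≤ 3 ^ i := by
      rw [← pow_succ']
      exact Nat.pow_le_pow_right (by norm_num) (by omega)
    rw [← hm] at h3
    generalize 3 ^ i = q at *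
    have a1 : 1 / q = 0 := Nat.div_eq_of_lt (by omega)
    have a2 : (2 * r + 3) / q = 0 := Nat.div_eq_of_lt (by omega)
    have a3 : r / q = 0 := Nat.div_eq_of_lt (by omega)
    have a4 : (2 * r) / q = 0 := Nat.div_eq_of_lt (by omega)
    have a5 : (3 * r + 3) / q = 0 := Nat.div_eq_of_lt (by omega)
    rw [a1, a2, a3, a4, a5]

end Q266.ShapeE
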