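import Mathlib
import Pool.Agent.Q266.ShapeE

/-!
Rational form of the quotients of `ShapeE`.
-/

namespace Q266.ShapeE

open Finset

theorem fac_ne (j : ℕ) : (j.factorial : ℚ) ≠ 0 := by exact_mod_cast Nat.factorial_ne_zero j

/-- `k!(2n-2k-2)!(3n)! / ((3k+2)!(2n+1)!(n-k-1)!^2(n-2k-1)!)` -/
noncomputable def E (n k : ℕ) : ℚ :=
  ((k.factorial : ℚ) * ((2 * n - 2 * k - 2).factorial : ℚ) * ((3 * n).factorial : ℚ)) /
    (((3 * k + 2).factorial : ℚ) * ((2 * n + 1).factorial : ℚ) *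
      ((n - k - 1).factorial : ℚ) ^ 2 * ((n - 2 * k - 1).factorial : ℚ))

theorem E_spec (n k : ℕ) (hn : 2 ≤ n) (hk : 2 * k + 1 ≤ n) :
    ∃ ρ₁ ρ₃ : ℤ, (3 * (k : ℚ) + 2) * E n k = 2 * ρ₁ ∧ (3 * (n : ℚ) + 1) * E n k = 2 * ρ₃ ∧
      (k = 0 → (((∀ m : ℕ, 2 * n + 1 ≠ 3 ^ m) → (3 : ℤ) ∣ ρ₁) ∧
        ((∃ m : ℕ, 2 * n + 1 = 3 ^ m) → ¬ (3 : ℤ) ∣ ρ₁))) := by
  obtain ⟨r, rfl⟩ : ∃ r, n = r + 2 * k + 1 := ⟨n - 2 * k - 1, by omega⟩
  obtain ⟨R1, h1, h1'⟩ := exists_R1 r k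
  obtain ⟨R3, h3, h3'⟩ := exists_R3 r k
  obtain ⟨ρ1, rfl⟩ := h1' (by omega)
  obtain ⟨ρ3, rfl⟩ := h3' (by omega)
  have s1 : 2 * (r + 2 * k + 1) - 2 * k - 2 = 2 * r + 2 * k := by omega
  have s2 : r + 2 * k + 1 - k - 1 = r + k := by omega
  have s3 : r + 2 * k + 1 - 2 * k - 1 = r := by omega
  have s4 : 3 * (r + 2 * k + 1) = 3 * r + 6 * k + 3 := by ring
  have s5 : 2 * (r + 2 * k + 1) + 1 = 2 * r + 4 * k + 3 := by ring
  refine ⟨ρ1, ρ3, ?_, ?_, ?_⟩
  · have h1c : (((3 * k + 1).factorial * ((2 * r + 4 * k + 3).factorial * ((r + k).factorial *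
        ((r + k).factorial * r.factorial))) * (2 * ρ1) : ℕ) : ℚ) =
        ((k.factorial * ((2 * r + 2 * k).factorial * (3 * r + 6 * k + 3).factorial) : ℕ) : ℚ) := by
      exact_mod_cast (by simpa [A1, B1] using h1)
    unfold E
    rw [s1, s2, s3, s4, s5, Nat.factorial_succ (3 * k + 1)]
    have g1 := fac_ne (3 * k + 1)
    have g2 := fac_ne (2 * r + 4 * k + 3)
    have g3 := fac_ne (r + k)
    have g4 := fac_ne r
    generalize (3 * k + 1).factorial = a at *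
    generalize (2 * r + 4 * k + 3).factorial = b at *
    generalize (r + k).factorial = c at *
    generalize r.factorial = d at *
    generalize (2 * r + 2 * k).factorial = e at *
    generalize (3 * r + 6 * k + 3).factorial = f at *
    generalize k.factorial = g at *
    push_cast at h1c ⊢
    have q1 : 3 * (k : ℚ) + 1 + 1 ≠ 0 := by positivity
    field_simp
    linear_combination (-(3 * (k : ℚ) + 2)) * h1c
  · have h3c : (((3 * k + 2).factorial * ((2 * r + 4 * k + 3).factorial * ((r + k).factorial *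
        ((r + k).factorial * r.factorial))) * (2 * ρ3) : ℕ) : ℚ) =
        ((k.factorial * ((2 * r + 2 * k).factorial * (3 * r + 6 * k + 4).factorial) : ℕ) : ℚ) := by
      exact_mod_cast (by simpa [A3, B3] using h3)
    unfold E
    rw [Nat.factorial_succ (3 * r + 6 * k + 3)] at h3c
    rw [s1, s2, s3, s4, s5]
    have g1 := fac_ne (3 * k + 2)
    have g2 := fac_ne (2 * r + 4 * k + 3)
    have g3 := fac_ne (r + k)
    have g4 := fac_ne r
    generalize (3 * k + 2).factorial = a at *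
    generalize (2 * r + 4 * k + 3).factorial = b at *
    generalize (r + k).factorial = c at *
    generalize r.factorial = d at *
    generalize (2 * r + 2 * k).factorial = e at *
    generalize (3 * r + 6 * k + 3).factorial = f at *
    generalize k.factorial = g at *
    push_cast at h3c ⊢
    field_simp
    linear_combination (-1 : ℚ) * h3c
  · intro hk0
    subst hk0
    constructor
    · intro hp
      have h := three_dvd r (2 * ρ1) h1 (fun m hm => hp m (by omega))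
      have : 3 ∣ ρ1 := (Nat.Coprime.dvd_of_dvd_mul_left (by norm_num) h)
      exact_mod_cast this
    · rintro ⟨m, hm⟩ hd
      have hd' : 3 ∣ ρ1 := by exact_mod_cast hd
      exact not_three_dvd r (2 * ρ1) h1 m (by omega) (Dvd.dvd.mul_left hd' 2)

/-- `3 x = c₀ + 3 ∑_{k≥1}` bookkeeping -/
theorem split_sum (n : ℕ) (hn : 1 ≤ n) (c : ℕ → ℤ) :
    ∃ z : ℤ, 3 * ∑ k ∈ range n, ((27 : ℚ) ^ k * (c k : ℚ) / 3) = ((c 0 + 3 * z : ℤ) : ℚ) := by
  obtain ⟨m, rfl⟩ : ∃ m, n = m + 1 := ⟨n - 1, by omega⟩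
  refine ⟨∑ k ∈ range m, 9 * 27 ^ k * c (k + 1), ?_⟩
  rw [Finset.sum_range_succ', mul_add, add_comm]
  push_cast
  congr 1
  · ring
  · rw [Finset.mul_sum, Finset.mul_sum]
    apply Finset.sum_congr rfl
    intro k _
    rw [pow_succ]
    ring

/-- final bookkeeping -/
theorem finish (x : ℚ) (n : ℕ) (hn : 1 ≤ n) (c : ℕ → ℤ)
    (hx : x = ∑ k ∈ range n, ((27 : ℚ) ^ k * (c k : ℚ) / 3)) :
    ((3 : ℤ) ∣ c 0 → ∃ z : ℤ, x = z) ∧ (¬ (3 : ℤ) ∣ c 0 → ∃ z : ℤ, 3 * x = z ∧ ¬ (3 : ℤ) ∣ z) := by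
  obtain ⟨z, hz⟩ := split_sum n hn c
  rw [← hx] at hz
  constructor
  · rintro ⟨d, hd⟩
    refine ⟨d + z, ?_⟩
    rw [hd] at hz
    push_cast at hz ⊢
    linarith
  · intro h
    refine ⟨c 0 + 3 * z, hz, ?_⟩
    intro hd
    apply h
    have : c 0 = (c 0 + 3 * z) - 3 * z := by ring
    rw [this]
    exact dvd_sub hd (dvd_mul_right 3 z)

end Q266.ShapeE
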